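import Mathlib

/-!
# Definitions for the return sets of split polynomial maps in characteristic `p`
-/

set_option autoImplicit false

namespace Pool.Agent.Helper581_DML

open Polynomial

/-- the properties used of the field `F` of formal Laurent series in `1/t` over `k` -/
structure LF (p : ℕ) (k F : Type) [Field k] [NontriviallyNormedField F] [Algebra k F]
    (t : F) : Prop where
  one_lt : 1 < ‖t‖
  norm_poly : ∀ q : k[X], q ≠ 0 → ‖aeval t q‖ = ‖t‖ ^ q.natDegree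
  res : ∀ x : F, ‖x‖ ≤ 1 → ∃ c : k, ‖x - algebraMap k F c‖ < 1
  val : ∀ x : F, x ≠ 0 → ∃ m : ℤ, ‖x‖ = ‖t‖ ^ m
  dig : ∀ x : F, ∃ a : Fin p → F, x = ∑ i, a i ^ p * t ^ (i : ℕ) ∧ ∀ i, ‖a i‖ ^ p ≤ ‖x‖

/-- eventually periodic sets of natural numbers -/
def EvPer (S : Set ℕ) : Prop := ∃ N r : ℕ, 0 < r ∧ ∀ n ≥ N, (n ∈ S ↔ n + r ∈ S)

end Pool.Agent.Helper581_DML
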