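import Mathlib
import Pool.Agent.Helper581_DML.Defs

/-!
Part A1 of the proof (helper581, MP_6ac234_nt): `exists_LF`: the field of formal Laurent series over an
algebraically closed field of characteristic `p` has the properties collected in the structure `LF`.
-/

set_option autoImplicit false

namespace Pool.Agent.Helper581_DML

open Polynomial


/-! ### the field -/

/-- formal Laurent series -/
def LS (k : Type) [Field k] : Type := HahnSeries ℤ k

variable {k : Type} [Field k]

noncomputable instance LS.field : Field (LS k) := inferInstanceAs (Field (HahnSeries ℤ k))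

/-- the constants -/
noncomputable def LS.const : k →+* LS k := (HahnSeries.C : k →+* HahnSeries ℤ k)

noncomputable instance LS.alg : Algebra k (LS k) := RingHom.toAlgebra LS.const

/-- coefficient -/
def cf (x : LS k) (n : ℤ) : k := HahnSeries.coeff (x : HahnSeries ℤ k) n

theorem cf_ext {x y : LS k} (h : ∀ n, cf x n = cf y n) : x = y := HahnSeries.ext (funext h)

theorem cf_zero (n : ℤ) : cf (0 : LS k) n = 0 := rfl

theorem cf_add (x y : LS k) (n : ℤ) : cf (x + y) n = cf x n + cf y n :=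
  HahnSeries.coeff_add (Γ := ℤ) (R := k) (x := x) (y := y) (a := n)

theorem cf_neg (x : LS k) (n : ℤ) : cf (-x) n = -cf x n :=
  HahnSeries.coeff_neg (Γ := ℤ) (R := k) (x := x) (a := n)

theorem cf_sub (x y : LS k) (n : ℤ) : cf (x - y) n = cf x n - cf y n :=
  HahnSeries.coeff_sub (Γ := ℤ) (R := k) (x := x) (y := y) (a := n)

theorem cf_sum {ι : Type} (s : Finset ι) (f : ι → LS k) (n : ℤ) :
    cf (∑ i ∈ s, f i) n = ∑ i ∈ s, cf (f i) n := by
  classical
  induction s using Finset.induction_on with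
  | empty => simp [cf_zero]
  | insert a s ha ih => rw [Finset.sum_insert ha, Finset.sum_insert ha, cf_add, ih]

/-- monomial -/
noncomputable def sg (n : ℤ) (c : k) : LS k := (HahnSeries.single n c : HahnSeries ℤ k)

theorem cf_sg (n : ℤ) (c : k) (m : ℤ) : cf (sg n c) m = if m = n then c else 0 := by
  have h : cf (sg n c) m = @ite k (m = n) (Classical.propDecidable (m = n)) c 0 :=
    HahnSeries.coeff_single (Γ := ℤ) (R := k) (a := n) (r := c) (b := m)
  rw [h]
  congr

theorem sg_mul (n m : ℤ) (c d : k) : sg n c * sg m d = sg (n + m) (c * d) :=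
  HahnSeries.single_mul_single (Γ := ℤ) (R := k)

theorem sg_one : sg 0 (1 : k) = 1 := rfl

theorem sg_pow (n : ℤ) (c : k) (j : ℕ) : sg n c ^ j = sg (j * n) (c ^ j) := by
  induction j with
  | zero => rw [pow_zero, pow_zero, Nat.cast_zero, zero_mul, sg_one]
  | succ j ih =>
    rw [pow_succ, ih, sg_mul, pow_succ]
    congr 1
    push_cast
    ring

theorem cf_mul_sg (x : LS k) (n : ℤ) (c : k) (m : ℤ) : cf (x * sg n c) (m + n) = cf x m * c :=
  HahnSeries.coeff_mul_single_add (Γ := ℤ) (R := k)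

theorem algebraMap_eq (c : k) : algebraMap k (LS k) c = sg 0 c := by
  rfl

/-- order -/
noncomputable def od (x : LS k) : ℤ := HahnSeries.order (x : HahnSeries ℤ k)

theorem cf_od {x : LS k} (hx : x ≠ 0) : cf x (od x) ≠ 0 :=
  fun h => hx (HahnSeries.coeff_order_eq_zero.1 h)

theorem cf_lt {x : LS k} {n : ℤ} (h : n < od x) : cf x n = 0 := HahnSeries.coeff_eq_zero_of_lt_order h

theorem od_le {x : LS k} {n : ℤ} (h : cf x n ≠ 0) : od x ≤ n := HahnSeries.order_le_of_coeff_ne_zero h

theorem od_mul {x y : LS k} (hx : x ≠ 0) (hy : y ≠ 0) : od (x * y) = od x + od y :=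
  HahnSeries.order_mul (Γ := ℤ) (R := k) hx hy

open Classical in
/-- the norm -/
noncomputable def nrm (x : LS k) : ℝ := if x = 0 then 0 else (2 : ℝ) ^ (-od x)

theorem nrm_zero : nrm (0 : LS k) = 0 := by
  unfold nrm
  rw [if_pos rfl]

theorem nrm_ne {x : LS k} (hx : x ≠ 0) : nrm x = (2 : ℝ) ^ (-od x) := by
  unfold nrm
  rw [if_neg hx]

theorem nrm_nonneg (x : LS k) : 0 ≤ nrm x := by
  by_cases hx : x = 0
  · rw [hx, nrm_zero]
  · rw [nrm_ne hx]
    positivity

theorem nrm_pos {x : LS k} (hx : x ≠ 0) : 0 < nrm x := by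
  rw [nrm_ne hx]
  positivity

theorem nrm_le_iff (x : LS k) (n : ℤ) : nrm x ≤ (2 : ℝ) ^ (-n) ↔ ∀ m < n, cf x m = 0 := by
  by_cases hx : x = 0
  · rw [hx, nrm_zero]
    constructor
    · intro _ m _
      rfl
    · intro _
      positivity
  · rw [nrm_ne hx, zpow_le_zpow_iff_right₀ (by norm_num), neg_le_neg_iff]
    constructor
    · intro h m hm
      exact cf_lt (lt_of_lt_of_le hm h)
    · intro h
      by_contra hlt
      push Not at hlt
      exact cf_od hx (h _ hlt)

theorem nrm_eq {x : LS k} {n : ℤ} (h1 : ∀ m < n, cf x m = 0) (h2 : cf x n ≠ 0) : nrm x = (2 : ℝ) ^ (-n) := by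
  have hx : x ≠ 0 := by
    intro h
    rw [h] at h2
    exact h2 (cf_zero n)
  rw [nrm_ne hx]
  have h3 := od_le h2
  have h4 : n ≤ od x := by
    by_contra hlt
    push Not at hlt
    exact cf_od hx (h1 _ hlt)
  rw [le_antisymm h3 h4]

theorem nrm_mul (x y : LS k) : nrm (x * y) = nrm x * nrm y := by
  by_cases hx : x = 0
  · rw [hx, zero_mul, nrm_zero, zero_mul]
  by_cases hy : y = 0
  · rw [hy, mul_zero, nrm_zero, mul_zero]
  rw [nrm_ne hx, nrm_ne hy, nrm_ne (mul_ne_zero hx hy), od_mul hx hy, ← zpow_add₀ (by norm_num)]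
  congr 1
  ring

theorem nrm_neg (x : LS k) : nrm (-x) = nrm x := by
  by_cases hx : x = 0
  · rw [hx, neg_zero]
  · rw [nrm_ne hx]
    apply nrm_eq
    · intro m hm
      rw [cf_neg, cf_lt hm, neg_zero]
    · rw [cf_neg]
      exact neg_ne_zero.2 (cf_od hx)

theorem nrm_add (x y : LS k) : nrm (x + y) ≤ max (nrm x) (nrm y) := by
  by_cases h : x + y = 0
  · rw [h, nrm_zero]
    exact le_max_of_le_left (nrm_nonneg x)
  have h1 := cf_od h
  have h2 : ∀ z : LS k, cf z (od (x + y)) ≠ 0 → nrm (x + y) ≤ nrm z := by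
    intro z hz
    have hz0 : z ≠ 0 := by
      intro h0
      rw [h0] at hz
      exact hz (cf_zero _)
    rw [nrm_ne h, nrm_ne hz0, zpow_le_zpow_iff_right₀ (by norm_num), neg_le_neg_iff]
    exact od_le hz
  by_cases hx : cf x (od (x + y)) = 0
  · have hy : cf y (od (x + y)) ≠ 0 := by
      intro hy
      rw [cf_add, hx, hy, add_zero] at h1
      exact h1 rfl
    exact le_max_of_le_right (h2 y hy)
  · exact le_max_of_le_left (h2 x hx)

theorem nrm_pow (x : LS k) (j : ℕ) : nrm (x ^ j) = nrm x ^ j := by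
  induction j with
  | zero =>
    rw [pow_zero, pow_zero]
    have : nrm (1 : LS k) = (2 : ℝ) ^ (-(0 : ℤ)) := by
      apply nrm_eq
      · intro m hm
        rw [← sg_one, cf_sg, if_neg hm.ne]
      · rw [← sg_one, cf_sg, if_pos rfl]
        exact one_ne_zero
    rw [this]
    norm_num
  | succ j ih => rw [pow_succ, pow_succ, nrm_mul, ih]

noncomputable instance LS.normed : NormedField (LS k) :=
  { LS.field with
    norm := nrm
    dist := fun x y => nrm (x - y)
    dist_self := fun x => by rw [sub_self, nrm_zero]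
    dist_comm := fun x y => by rw [← nrm_neg, neg_sub]
    dist_triangle := fun x y z => by
      have h := nrm_add (x - y) (y - z)
      rw [sub_add_sub_cancel] at h
      exact h.trans (max_le_add_of_nonneg (nrm_nonneg _) (nrm_nonneg _))
    eq_of_dist_eq_zero := fun {x y} hxy => by
      by_contra h
      exact (nrm_pos (sub_ne_zero.2 h)).ne' hxy
    dist_eq := fun x y => by
      show nrm (x - y) = nrm (-x + y)
      rw [← nrm_neg, neg_sub, sub_eq_add_neg, add_comm]
    norm_mul := nrm_mul }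

theorem norm_eq_nrm (x : LS k) : ‖x‖ = nrm x := rfl

theorem dist_eq_nrm (x y : LS k) : dist x y = nrm (x - y) := rfl

noncomputable instance LS.nnf : NontriviallyNormedField (LS k) :=
  { LS.normed with
    non_trivial := by
      refine ⟨sg (-1) 1, ?_⟩
      have h : nrm (sg (-1) (1 : k)) = (2 : ℝ) ^ (-(-1 : ℤ)) := by
        apply nrm_eq
        · intro m hm
          rw [cf_sg, if_neg hm.ne]
        · rw [cf_sg, if_pos rfl]
          exact one_ne_zero
      show 1 < nrm (sg (-1) (1 : k))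
      rw [h]
      norm_num }

theorem LS.ultra : IsUltrametricDist (LS k) := by
  refine ⟨fun x y z => ?_⟩
  rw [dist_eq_nrm, dist_eq_nrm, dist_eq_nrm]
  have h := nrm_add (x - y) (y - z)
  rwa [sub_add_sub_cancel] at h

theorem LS.complete : CompleteSpace (LS k) := by
  refine Metric.complete_of_convergent_controlled_sequences (fun N => (2 : ℝ) ^ (-(N : ℤ)))
    (fun N => by positivity) ?_
  intro u hu
  have hc : ∀ N n : ℕ, N ≤ n → ∀ m : ℤ, m < N → cf (u n) m = cf (u N) m := by
    intro N n hn m hm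
    have h1 := (hu N n N hn le_rfl).le
    rw [dist_eq_nrm, nrm_le_iff] at h1
    have h2 := h1 m hm
    rw [cf_sub] at h2
    exact sub_eq_zero.1 h2
  have hb : BddBelow (Function.support (fun m : ℤ => cf (u (m + 1).toNat) m)) := by
    refine ⟨min (od (u 0)) (-1), ?_⟩
    intro m hm
    rw [Function.mem_support] at hm
    by_contra hlt
    push Not at hlt
    have h1 : m < od (u 0) := lt_of_lt_of_le hlt (min_le_left _ _)
    have h2 : m < -1 := lt_of_lt_of_le hlt (min_le_right _ _)
    have h3 : (m + 1).toNat = 0 := by omega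
    rw [h3] at hm
    exact hm (cf_lt h1)
  let x : LS k := (HahnSeries.ofSuppBddBelow (fun m : ℤ => cf (u (m + 1).toNat) m) hb : HahnSeries ℤ k)
  have hx : ∀ m, cf x m = cf (u (m + 1).toNat) m := fun m => rfl
  refine ⟨x, ?_⟩
  have hd : ∀ n : ℕ, dist (u n) x ≤ (2 : ℝ) ^ (-(n : ℤ)) := by
    intro n
    rw [dist_eq_nrm, nrm_le_iff]
    intro m hm
    rw [cf_sub, hx, sub_eq_zero]
    exact hc (m + 1).toNat n (by omega) m (by omega)
  rw [Metric.tendsto_atTop]
  intro ε hε
  obtain ⟨N, hN⟩ := exists_pow_lt_of_lt_one hε (show (1 / 2 : ℝ) < 1 by norm_num)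
  refine ⟨N, fun n hn => ?_⟩
  refine lt_of_le_of_lt (hd n) (lt_of_le_of_lt ?_ hN)
  rw [zpow_neg, zpow_natCast, ← inv_pow]
  have : ((2 : ℝ)⁻¹) = 1 / 2 := by norm_num
  rw [this]
  exact pow_le_pow_of_le_one (by norm_num) (by norm_num) hn

/-! ### the properties -/

theorem nrm_t : nrm (sg (-1) (1 : k)) = 2 := by
  have h : nrm (sg (-1) (1 : k)) = (2 : ℝ) ^ (-(-1 : ℤ)) := by
    apply nrm_eq
    · intro m hm
      rw [cf_sg, if_neg hm.ne]
    · rw [cf_sg, if_pos rfl]
      exact one_ne_zero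
  rw [h]
  norm_num

theorem sg_t_pow (j : ℕ) : sg (-1) (1 : k) ^ j = sg (-(j : ℤ)) 1 := by
  rw [sg_pow, one_pow]
  congr 1
  ring

theorem nrm_aeval (q : k[X]) (hq : q ≠ 0) : nrm (aeval (sg (-1) (1 : k)) q) = 2 ^ q.natDegree := by
  have h1 : ∀ m : ℤ, cf (aeval (sg (-1) (1 : k)) q) m =
      ∑ i ∈ Finset.range (q.natDegree + 1), if m = -(i : ℤ) then q.coeff i else 0 := by
    intro m
    rw [aeval_eq_sum_range, cf_sum]
    refine Finset.sum_congr rfl fun i _ => ?_
    rw [Algebra.smul_def, sg_t_pow, algebraMap_eq, sg_mul, cf_sg, zero_add, mul_one]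
  have h2 : nrm (aeval (sg (-1) (1 : k)) q) = (2 : ℝ) ^ (-(-(q.natDegree : ℤ))) := by
    apply nrm_eq
    · intro m hm
      rw [h1]
      refine Finset.sum_eq_zero fun i hi => ?_
      rw [Finset.mem_range] at hi
      rw [if_neg]
      omega
    · rw [h1, Finset.sum_eq_single q.natDegree]
      · rw [if_pos rfl]
        exact leadingCoeff_ne_zero.2 hq
      · intro i _ hi
        rw [if_neg]
        omega
      · intro h
        exact absurd (Finset.mem_range.2 (Nat.lt_succ_self _)) h
  rw [h2, neg_neg, zpow_natCast]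

theorem cf_pow_lt (p : ℕ) (r : LS k) (M : ℤ) (h : ∀ m < M, cf r m = 0) (j : ℤ) (hj : j < p * M) :
    cf (r ^ p) j = 0 := by
  rw [← nrm_le_iff] at h
  have h1 : nrm (r ^ p) ≤ (2 : ℝ) ^ (-(p * M : ℤ)) := by
    rw [nrm_pow]
    refine (pow_le_pow_left₀ (nrm_nonneg r) h p).trans (le_of_eq ?_)
    rw [← zpow_natCast, ← zpow_mul]
    congr 1
    ring
  rw [nrm_le_iff] at h1
  exact h1 j hj

theorem cf_pow (p : ℕ) [hp : Fact p.Prime] [CharP k p] (f : LS k) (j : ℤ) :
    cf (f ^ p) j = if (p : ℤ) ∣ j then cf f (j / p) ^ p else 0 := by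
  classical
  have : CharP (LS k) p := charP_of_injective_algebraMap (algebraMap k (LS k)).injective p
  have hp0 : (0 : ℤ) < p := by exact_mod_cast hp.out.pos
  have hp1 : (1 : ℤ) ≤ p := hp0
  set A : ℤ := min (od f) (j / p) with hA
  set M : ℤ := max (j + 1) 1 with hM
  set g : LS k := ∑ m ∈ Finset.Ico A M, sg m (cf f m) with hg
  set r : LS k := f - g with hr
  have hcg : ∀ m, cf g m = if m ∈ Finset.Ico A M then cf f m else 0 := by
    intro m
    rw [hg, cf_sum]
    simp_rw [cf_sg]
    rw [Finset.sum_ite_eq]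
  have hcr : ∀ m < M, cf r m = 0 := by
    intro m hm
    rw [hr, cf_sub, hcg]
    split_ifs with h
    · rw [sub_self]
    · rw [Finset.mem_Ico] at h
      have h2 : m < A := by
        by_contra h3
        push Not at h3
        exact h ⟨h3, hm⟩
      rw [cf_lt (lt_of_lt_of_le h2 (min_le_left _ _)), sub_zero]
  have hfg : f = g + r := by
    rw [hr]
    ring
  have hjM : j < p * M := by
    have h1 : j + 1 ≤ M := le_max_left _ _
    have h2 : 1 ≤ M := le_max_right _ _
    nlinarith
  have hgp : g ^ p = ∑ m ∈ Finset.Ico A M, sg (p * m) (cf f m ^ p) := by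
    rw [hg, sum_pow_char]
    refine Finset.sum_congr rfl fun m _ => ?_
    rw [sg_pow]
  rw [hfg, add_pow_char, cf_add, cf_pow_lt p r M hcr j hjM, add_zero, hgp, cf_sum]
  simp_rw [cf_sg]
  rw [← hfg]
  split_ifs with hd
  · obtain ⟨m0, rfl⟩ := hd
    have h1 : (p : ℤ) * m0 / p = m0 := Int.mul_ediv_cancel_left _ hp0.ne'
    rw [h1]
    have h2 : ∀ m ∈ Finset.Ico A M, (if (p : ℤ) * m0 = p * m then cf f m ^ p else 0) =
        if m0 = m then cf f m ^ p else 0 := by
      intro m _
      by_cases h : m0 = m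
      · rw [if_pos h, if_pos (by rw [h])]
      · rw [if_neg h, if_neg (fun h' => h (mul_left_cancel₀ hp0.ne' h'))]
    rw [Finset.sum_congr rfl h2, Finset.sum_ite_eq, if_pos]
    rw [Finset.mem_Ico]
    constructor
    · rw [hA, h1]
      exact min_le_right _ _
    · have h3 : (p : ℤ) * m0 < p * M := hjM
      exact lt_of_mul_lt_mul_left h3 hp0.le
  · refine Finset.sum_eq_zero fun m _ => ?_
    rw [if_neg]
    rintro rfl
    exact hd ⟨m, rfl⟩

theorem dig_LS (p : ℕ) [hp : Fact p.Prime] [IsAlgClosed k] [CharP k p] (x : LS k) :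
    ∃ a : Fin p → LS k, x = ∑ i, a i ^ p * sg (-1) (1 : k) ^ (i : ℕ) ∧ ∀ i, nrm (a i) ^ p ≤ nrm x := by
  classical
  have hp0 : (0 : ℤ) < p := by exact_mod_cast hp.out.pos
  choose rt hrt using fun c : k => IsAlgClosed.exists_pow_nat_eq c hp.out.pos
  have hrt0 : rt 0 = 0 := (pow_eq_zero_iff hp.out.ne_zero).1 (hrt 0)
  have hb : ∀ i : Fin p, BddBelow (Function.support (fun m : ℤ => rt (cf x (p * m - (i : ℕ))))) := by
    intro i
    refine ⟨min (od x) 0, ?_⟩
    intro m hm
    rw [Function.mem_support] at hm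
    by_contra hlt
    push Not at hlt
    have h1 : m < od x := lt_of_lt_of_le hlt (min_le_left _ _)
    have h2 : m < 0 := lt_of_lt_of_le hlt (min_le_right _ _)
    have h3 : (p : ℤ) * m - (i : ℕ) < od x := by
      have h4 : (0 : ℤ) ≤ ((i : ℕ) : ℤ) := by positivity
      nlinarith
    rw [cf_lt h3] at hm
    exact hm hrt0
  let a : Fin p → LS k := fun i =>
    (HahnSeries.ofSuppBddBelow (fun m : ℤ => rt (cf x (p * m - (i : ℕ)))) (hb i) : HahnSeries ℤ k)
  have ha : ∀ i m, cf (a i) m = rt (cf x (p * m - (i : ℕ))) := fun i m => rfl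
  refine ⟨a, ?_, ?_⟩
  · apply cf_ext
    intro j
    rw [cf_sum]
    have h1 : ∀ i : Fin p, cf (a i ^ p * sg (-1) (1 : k) ^ (i : ℕ)) j =
        if (p : ℤ) ∣ j + (i : ℕ) then cf x j else 0 := by
      intro i
      rw [sg_t_pow]
      have h2 : j = (j + (i : ℕ)) + (-((i : ℕ) : ℤ)) := by ring
      conv_lhs => rw [h2]
      rw [cf_mul_sg, mul_one, cf_pow p]
      split_ifs with hd
      · rw [ha, hrt]
        congr 1
        rw [Int.mul_ediv_cancel' hd]
        ring
      · rfl
    simp_rw [h1]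
    -- the residue
    have h3 : 0 ≤ (-j) % (p : ℤ) := Int.emod_nonneg _ hp0.ne'
    have h4 : (-j) % (p : ℤ) < p := Int.emod_lt_of_pos _ hp0
    let i0 : Fin p := ⟨((-j) % (p : ℤ)).toNat, by omega⟩
    have hi0 : ((i0 : ℕ) : ℤ) = (-j) % (p : ℤ) := by
      show ((((-j) % (p : ℤ)).toNat : ℕ) : ℤ) = _
      exact Int.toNat_of_nonneg h3
    rw [Finset.sum_eq_single i0]
    · rw [if_pos]
      rw [hi0]
      have h5 := Int.emod_add_mul_ediv (-j) (p : ℤ)
      refine ⟨-((-j) / p), ?_⟩
      linarith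
    · intro i _ hi
      rw [if_neg]
      intro hd
      apply hi
      apply Fin.ext
      have h6 : ((i : ℕ) : ℤ) = (-j) % (p : ℤ) := by
        have h7 : (-j) % (p : ℤ) = ((i : ℕ) : ℤ) % p := by
          have h9 : (-j) ≡ ((i : ℕ) : ℤ) [ZMOD p] := by
            rw [Int.modEq_iff_dvd]
            have h10 : ((i : ℕ) : ℤ) - (-j) = j + (i : ℕ) := by ring
            rw [h10]
            exact hd
          exact h9
        rw [h7]
        symm
        apply Int.emod_eq_of_lt
        · positivity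
        · exact_mod_cast i.2
      have h8 : ((i : ℕ) : ℤ) = ((i0 : ℕ) : ℤ) := by rw [h6, hi0]
      exact_mod_cast h8
    · intro h
      exact absurd (Finset.mem_univ _) h
  · intro i
    by_cases hai : a i = 0
    · rw [hai, nrm_zero, zero_pow hp.out.ne_zero]
      exact nrm_nonneg x
    · have h1 := cf_od hai
      rw [ha] at h1
      have h2 : cf x (p * od (a i) - (i : ℕ)) ≠ 0 := by
        intro h
        rw [h] at h1
        exact h1 hrt0
      have hx : x ≠ 0 := by
        intro h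
        rw [h] at h2
        exact h2 (cf_zero _)
      have h3 := od_le h2
      rw [nrm_ne hai, nrm_ne hx, ← zpow_natCast, ← zpow_mul]
      apply zpow_le_zpow_right₀ (by norm_num)
      have h4 : (0 : ℤ) ≤ ((i : ℕ) : ℤ) := by positivity
      nlinarith

theorem exists_LF (p : ℕ) [Fact p.Prime] (k : Type) [Field k] [IsAlgClosed k] [CharP k p] :
    ∃ (F : Type) (_ : NontriviallyNormedField F) (_ : IsUltrametricDist F) (_ : CompleteSpace F)
      (_ : Algebra k F) (t : F), LF p k F t := by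
  refine ⟨LS k, LS.nnf, LS.ultra, LS.complete, LS.alg, sg (-1) 1, ?_⟩
  constructor
  · show 1 < nrm (sg (-1) (1 : k))
    rw [nrm_t]
    norm_num
  · intro q hq
    show nrm (aeval (sg (-1) (1 : k)) q) = nrm (sg (-1) (1 : k)) ^ q.natDegree
    rw [nrm_t]
    exact nrm_aeval q hq
  · intro x hx
    refine ⟨cf x 0, ?_⟩
    show nrm (x - algebraMap k (LS k) (cf x 0)) < 1
    have hx' : nrm x ≤ (2 : ℝ) ^ (-(0 : ℤ)) := by
      have : ((2 : ℝ) ^ (-(0 : ℤ))) = 1 := by norm_num
      rw [this]
      exact hx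
    rw [nrm_le_iff] at hx'
    have h : nrm (x - algebraMap k (LS k) (cf x 0)) ≤ (2 : ℝ) ^ (-(1 : ℤ)) := by
      rw [nrm_le_iff]
      intro m hm
      rw [cf_sub, algebraMap_eq, cf_sg]
      split_ifs with h0
      · rw [h0, sub_self]
      · rw [hx' m (by omega), sub_zero]
    refine lt_of_le_of_lt h ?_
    norm_num
  · intro x hx
    refine ⟨-od x, ?_⟩
    show nrm x = nrm (sg (-1) (1 : k)) ^ (-od x)
    rw [nrm_t, nrm_ne hx]
  · intro x
    exact dig_LS p x

end Pool.Agent.Helper581_DML
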