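import Mathlib
import Pool.Agent.Helper581_DML.Defs

/-!
Part A2 of the proof (helper581, MP_6ac234_nt): `exists_graded`: a finitely generated domain `A` over `ZMod p` with an
infinite sequence `x`: there is a polynomial subring over which `A` is integral and for which the coefficients of
the minimal polynomials of the `x n` have unbounded degree.

PLAIN PROOF. Noether normalization (`exists_integral_inj_algHom_of_fg` in
 `Mathlib.RingTheory.NoetherNormalization`) gives `s` and an injective integral
 `g : MvPolynomial (Fin s) (ZMod p) →ₐ[ZMod p] A`. Let `P = MvPolynomial (Fin s) (ZMod p)`, made to act on `A` by `g`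
 (`letI := g.toRingHom.toAlgebra`); it is integrally closed (a UFD), `A` is an integral domain integral and torsion free over
 `P`. Suppose the conclusion fails: there is `N` with `totalDegree ≤ N` for all coefficients of all
 `minpoly P (x n)` (the minimal polynomials over `P` are monic). Their degrees are bounded: `A` is a finitely
 generated algebra, integral over `P`, so it is a finite `P`-module generated by `m` elements, and every element of `A` satisfies
 a monic polynomial over `P` of degree `m` (Cayley-Hamilton), so the minimal polynomial (minimal degree among monic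
 polynomials killing the element, `minpoly.min`) has degree ≤ `m`. There are only finitely many elements of `P` of total degree
 ≤ `N` (finitely many monomials, finite coefficient field), so only finitely many polynomials
 occur as `minpoly P (x n)`; each has finitely many roots in the domain `A`; so the range of `x` is finite,
 contradiction.
-/

set_option autoImplicit false

namespace Pool.Agent.Helper581_DML

open Polynomial

/-- finitely many polynomials of bounded total degree over a finite field -/
theorem eg_finite {p : ℕ} [Fact p.Prime] (s N : ℕ) :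
    {q : MvPolynomial (Fin s) (ZMod p) | q.totalDegree ≤ N}.Finite := by
  classical
  have hS : (Set.Iic (Finsupp.equivFunOnFinite.symm fun _ : Fin s => N)).Finite := Set.finite_Iic _
  haveI : Finite (Set.Iic (Finsupp.equivFunOnFinite.symm fun _ : Fin s => N)) := hS.to_subtype
  refine Set.Finite.of_finite_image (f := fun (q : MvPolynomial (Fin s) (ZMod p))
    (m : Set.Iic (Finsupp.equivFunOnFinite.symm fun _ : Fin s => N)) => q.coeff m.1) ?_ ?_
  · exact Set.toFinite _
  · intro q hq r hr hqr
    ext m
    by_cases hm : m ∈ Set.Iic (Finsupp.equivFunOnFinite.symm fun _ : Fin s => N)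
    · exact congrFun hqr ⟨m, hm⟩
    · have key : ∀ t : MvPolynomial (Fin s) (ZMod p), t.totalDegree ≤ N → t.coeff m = 0 := by
        intro t ht
        by_contra hne
        apply hm
        have h1 : m ∈ t.support := MvPolynomial.mem_support_iff.2 hne
        have h2 := MvPolynomial.le_totalDegree h1
        intro i
        have h3 : m i ≤ m.sum fun _ e => e := by
          by_cases hi : i ∈ m.support
          · exact Finset.single_le_sum (f := fun i => m i) (fun _ _ => Nat.zero_le _) hi
          · rw [Finsupp.notMem_support_iff.1 hi]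
            exact Nat.zero_le _
        simp only [Finsupp.equivFunOnFinite_symm_apply_apply]
        omega
      rw [key q hq, key r hr]

theorem exists_graded {p : ℕ} [Fact p.Prime] {A : Type*} [CommRing A] [IsDomain A]
    [Algebra (ZMod p) A] [Algebra.FiniteType (ZMod p) A] (x : ℕ → A) (hx : (Set.range x).Infinite) :
    ∃ (s : ℕ) (g : MvPolynomial (Fin s) (ZMod p) →ₐ[ZMod p] A), Function.Injective g ∧
      g.toRingHom.IsIntegral ∧
      ∀ N : ℕ, ∃ (n : ℕ) (Q : (MvPolynomial (Fin s) (ZMod p))[X]), Q.Monic ∧
        Q.eval₂ g.toRingHom (x n) = 0 ∧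
        (∀ Q' : (MvPolynomial (Fin s) (ZMod p))[X], Q'.Monic → Q'.eval₂ g.toRingHom (x n) = 0 →
          Q ∣ Q') ∧
        ∃ j, N < (Q.coeff j).totalDegree := by
  classical
  obtain ⟨s, g, hinj, hint⟩ := exists_integral_inj_algHom_of_fg (ZMod p) A
  refine ⟨s, g, hinj, hint, ?_⟩
  by_contra hcon
  push Not at hcon
  obtain ⟨N, hN⟩ := hcon
  letI : Algebra (MvPolynomial (Fin s) (ZMod p)) A := g.toRingHom.toAlgebra
  have halg : algebraMap (MvPolynomial (Fin s) (ZMod p)) A = g.toRingHom := rfl
  haveI : IsScalarTower (ZMod p) (MvPolynomial (Fin s) (ZMod p)) A :=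
    IsScalarTower.of_algebraMap_eq fun r => (g.commutes r).symm
  haveI : Algebra.IsIntegral (MvPolynomial (Fin s) (ZMod p)) A := ⟨fun a => hint a⟩
  haveI : Algebra.FiniteType (MvPolynomial (Fin s) (ZMod p)) A :=
    Algebra.FiniteType.of_restrictScalars_finiteType (ZMod p) (MvPolynomial (Fin s) (ZMod p)) A
  haveI : Module.Finite (MvPolynomial (Fin s) (ZMod p)) A := Algebra.IsIntegral.finite
  haveI : FaithfulSMul (MvPolynomial (Fin s) (ZMod p)) A :=
    (faithfulSMul_iff_algebraMap_injective _ _).2 hinj
  haveI : Module.IsTorsionFree (MvPolynomial (Fin s) (ZMod p)) A := inferInstance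
  set d := (⊤ : Submodule (MvPolynomial (Fin s) (ZMod p)) A).spanFinrank with hd
  refine hx ((Polynomial.bUnion_roots_finite g.toRingHom d (eg_finite (p := p) s N)).subset ?_)
  rintro _ ⟨n, rfl⟩
  have hI : IsIntegral (MvPolynomial (Fin s) (ZMod p)) (x n) := hint (x n)
  have hmon := minpoly.monic hI
  have haev : (minpoly (MvPolynomial (Fin s) (ZMod p)) (x n)).eval₂ g.toRingHom (x n) = 0 :=
    minpoly.aeval _ _
  have hdeg : (minpoly (MvPolynomial (Fin s) (ZMod p)) (x n)).natDegree ≤ d := by
    obtain ⟨f, fm, fd, fa⟩ := LinearMap.exists_monic_and_natDegree_eq_and_aeval_eq_zero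
      (MvPolynomial (Fin s) (ZMod p)) (Algebra.lmul (MvPolynomial (Fin s) (ZMod p)) A (x n))
    rw [hd, ← fd]
    refine Polynomial.natDegree_le_natDegree (minpoly.min _ _ fm ?_)
    have h1 := congrArg (fun l : Module.End (MvPolynomial (Fin s) (ZMod p)) A => l 1) fa
    rw [Polynomial.aeval_algHom_apply] at h1
    simpa using h1
  have hc := hN n _ hmon haev (fun Q' _ h0 => minpoly.isIntegrallyClosed_dvd hI h0)
  simp only [Set.mem_iUnion]
  refine ⟨minpoly (MvPolynomial (Fin s) (ZMod p)) (x n), ⟨hdeg, fun i => hc i⟩, ?_⟩
  simp only [Finset.mem_coe, Multiset.mem_toFinset]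
  rw [Polynomial.mem_roots (hmon.map _).ne_zero, Polynomial.IsRoot.def, Polynomial.eval_map]
  exact haev

end Pool.Agent.Helper581_DML
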