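import Mathlib
import Pool.Agent.Helper581_DML.Defs

/-!
Part A4 of the proof (helper581, MP_6ac234_nt): `exists_frobenius_separable`.
-/

set_option autoImplicit false

namespace Pool.Agent.Helper581_DML

lemma exists_pow_separable_aux {p : ℕ} [Fact p.Prime] {K0 Ω : Type*} [Field K0] [Field Ω] [CharP Ω p]
    [Algebra K0 Ω] {x : Ω} (hx : IsAlgebraic K0 x) : ∃ m : ℕ, IsSeparable K0 (x ^ p ^ m) := by
  have hc : CharP K0 p := ((algebraMap K0 Ω).charP_iff_charP p).2 inferInstance
  have : ExpChar K0 p := ExpChar.prime Fact.out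
  have hint : IsIntegral K0 x := hx.isIntegral
  obtain ⟨g, hg, m, hm⟩ := Irreducible.hasSeparableContraction p (minpoly.irreducible hint)
  refine ⟨m, ?_⟩
  have h0 : Polynomial.aeval (x ^ p ^ m) g = 0 := by
    rw [← Polynomial.expand_aeval, hm, minpoly.aeval]
  exact hg.of_dvd (minpoly.dvd K0 _ h0)

theorem exists_frobenius_separable {p : ℕ} [Fact p.Prime] {A K0 Ω : Type*} [CommRing A]
    [Algebra (ZMod p) A] [Algebra.FiniteType (ZMod p) A] [Field K0] [Field Ω] [CharP Ω p]
    [Algebra K0 Ω] (σ : A →+* Ω) (halg : ∀ a, IsAlgebraic K0 (σ a)) :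
    ∃ e : ℕ, ∀ a, IsSeparable K0 (σ a ^ p ^ e) := by
  classical
  have : ExpChar Ω p := ExpChar.prime Fact.out
  obtain ⟨s, hs⟩ := (Algebra.FiniteType.out : (⊤ : Subalgebra (ZMod p) A).FG)
  choose m hm using fun a : A => exists_pow_separable_aux (p := p) (halg a)
  refine ⟨s.sup m, ?_⟩
  set e := s.sup m with he
  let S := separableClosure K0 Ω
  have key : ∀ a ∈ s, σ a ^ p ^ e ∈ S := by
    intro a ha
    have h1 : m a ≤ e := Finset.le_sup ha
    obtain ⟨d, hd⟩ := Nat.exists_eq_add_of_le h1
    rw [hd, pow_add, pow_mul]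
    exact pow_mem (mem_separableClosure_iff.2 (hm a)) _
  have hall : ∀ a : A, σ a ^ p ^ e ∈ S := by
    intro a
    have ha : a ∈ Algebra.adjoin (ZMod p) (s : Set A) := by rw [hs]; exact Algebra.mem_top
    induction ha using Algebra.adjoin_induction with
    | mem x hx => exact key x hx
    | algebraMap r =>
      have hr : algebraMap (ZMod p) A r = ((r.val : ℕ) : A) := by
        conv_lhs => rw [← ZMod.natCast_zmod_val r]
        rw [map_natCast]
      rw [hr, map_natCast]
      exact pow_mem (natCast_mem S _) _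
    | add x y _ _ hx hy =>
      rw [map_add, add_pow_expChar_pow]
      exact add_mem hx hy
    | mul x y _ _ hx hy =>
      rw [map_mul, mul_pow]
      exact mul_mem hx hy
  exact fun a => mem_separableClosure_iff.1 (hall a)

end Pool.Agent.Helper581_DML
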