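import Mathlib
import Pool.Agent.Helper581_DML.Defs
import Pool.Agent.Helper581_DML.A2
import Pool.Agent.Helper581_DML.A4

/-!
Part A3 of the proof (helper581, MP_6ac234_nt): `exists_embedding`: a finitely generated domain over `ZMod p` with an infinite
sequence embeds into the algebraic closure `Ω` of a field `F` of formal Laurent series in `1/t` over an
algebraically closed field `k` such that all its elements become integral over `k[t]` and the sequence becomes
unbounded. `exists_graded` and `exists_frobenius_separable` are given.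

PLAIN PROOF. Take `s, g` from `exists_graded`, `P = MvPolynomial (Fin s) (ZMod p)`,
 `k = AlgebraicClosure (FractionRing P)` and `ρ : P → k[X]` the ring homomorphism with `ρ (X_i) = C (X_i) * X`
 (`MvPolynomial.aeval` or `eval₂Hom`), so that `ρ q = ∑_m (q_m) X^m` with `q_m` the homogeneous component of degree `m`. It is
 injective (put `X = 1`) and `natDegree (ρ q) = totalDegree q`. Compose with `k[X] → RatFunc k → Ω`, `X ↦ t`: an
 injective ring homomorphism `r : P → Ω` with `‖r q‖ = ‖t‖ ^ totalDegree q` for `q ≠ 0` (`LF.norm_poly`). As `A` is a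
 domain integral over `P`, the field `K0 = FractionRing A` is algebraic over `P`, and it is a finitely generated field, so a
 finite extension of `FractionRing P`. There are finitely many ring homomorphisms `σ : A → Ω` extending `r`
 (they extend to `K0`), all injective, and for `x ∈ A` and a monic `Q ∈ P[X]` which is minimal for `x` (divides all monic
 polynomials killing `x`; then `Q` is the minimal polynomial of `x` over `FractionRing P`, `P` being
 integrally closed: `minpoly.isIntegrallyClosed_eq_field_fractions`) every root of `Q` (mapped by `r`) in `Ω` is `σ(x)` for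
 one of the `σ` (`IsAlgClosed.lift` over `FractionRing P (x)`, or `Algebra.IsAlgebraic.range_eval_eq_rootSet_minpoly`).
 Choose one `σ` such that `σ(x n)` is unbounded: if for all `σ` and `n` `‖σ(x n)‖ ≤ B` (`B ≥ 1`), then the coefficients of the
 monic polynomial `Q` (mapped by `r`, split in `Ω` with roots of norm ≤ `B`) are bounded by a constant depending only
 on `B` and `natDegree Q` (ultrametric; or use
 `Polynomial.coeff_bdd_of_roots_le`, in `Mathlib.Topology.Algebra.Polynomial`), where `natDegree Q` is at most the degree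
 `[K0 : FractionRing P]`; but some coefficient has norm `‖t‖ ^ totalDegree` as large as we like.
 So the conclusion holds for `σ` except separability. INTEGRALITY: elements of `A` are integral over `P`, so
 their images are integral over `r(P)`, which is contained in the image of `k[X]`. SEPARABILITY: take `e` from
 `exists_frobenius_separable` and let `ι a = σ(a)^(p^e)`, i.e. `ι = (iterateFrobenius Ω p e).comp σ`. It is an injective ring
 homomorphism, its values are integral over `k[X]` and separable over `RatFunc k`, and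
 `‖ι (x n)‖ = ‖σ (x n)‖ ^ (p^e)` is unbounded. (`CharP Ω p` because `Ω` is an algebra over `F`, over `k`.)
-/

set_option autoImplicit false

namespace Pool.Agent.Helper581_DML

open Polynomial


theorem a3_bound {P A Ω : Type*} [CommRing P] [IsDomain P] [IsIntegrallyClosed P] [CommRing A]
    [IsDomain A] [Algebra P A] [FaithfulSMul P A] [Module.Finite P A] [NontriviallyNormedField Ω]
    [IsAlgClosed Ω] [Algebra P Ω] [FaithfulSMul P Ω] (x : ℕ → A)
    (h : ∀ σ : A →ₐ[P] Ω, ∃ B : ℝ, ∀ n, ‖σ (x n)‖ ≤ B) :
    ∃ C : ℝ, ∀ n j, ‖algebraMap P Ω ((minpoly P (x n)).coeff j)‖ ≤ C := by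
  classical
  let K := FractionRing P
  let L := FractionRing A
  let _i1 : Algebra K L := FractionRing.liftAlgebra P L
  have _ : IsScalarTower P K L := FractionRing.isScalarTower_liftAlgebra P L
  let _i2 : Algebra K Ω := FractionRing.liftAlgebra P Ω
  have _ : IsScalarTower P K Ω := FractionRing.isScalarTower_liftAlgebra P Ω
  have _ : Algebra.IsAlgebraic K L := isAlgebraic_of_isFractionRing P A K L
  have _ : FiniteDimensional K L := .of_isLocalization P A (nonZeroDivisors P)
  have _ : Finite (L →ₐ[K] Ω) := inferInstance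
  have _ : Nonempty (L →ₐ[K] Ω) := ⟨IsAlgClosed.lift⟩
  let res : (L →ₐ[K] Ω) → (A →ₐ[P] Ω) := fun σ =>
    (σ.restrictScalars P).comp (IsScalarTower.toAlgHom P A L)
  choose B hB using fun σ : L →ₐ[K] Ω => h (res σ)
  obtain ⟨σ0, hσ0⟩ := Finite.exists_max B
  refine ⟨max (B σ0) 1 ^ (Module.finrank K L) *
    ((Module.finrank K L).choose (Module.finrank K L / 2) : ℕ), fun n j => ?_⟩
  have hint : IsIntegral P (x n) := Algebra.IsIntegral.isIntegral (x n)
  have hmin : minpoly K (algebraMap A L (x n)) = (minpoly P (x n)).map (algebraMap P K) :=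
    minpoly.isIntegrallyClosed_eq_field_fractions K L hint
  have hintK : IsIntegral K (algebraMap A L (x n)) := Algebra.IsIntegral.isIntegral _
  have key := coeff_bdd_of_roots_le (B := B σ0) (d := Module.finrank K L) (algebraMap K Ω)
    (p := minpoly K (algebraMap A L (x n))) (minpoly.monic hintK) (IsAlgClosed.splits _)
    (minpoly.natDegree_le _) (fun z hz => by
      have h1 : z ∈ (minpoly K (algebraMap A L (x n))).rootSet Ω := by
        rw [Polynomial.mem_rootSet']
        rw [Polynomial.mem_roots'] at hz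
        refine ⟨hz.1, ?_⟩
        have := hz.2
        rwa [Polynomial.IsRoot.def, Polynomial.eval_map_algebraMap] at this
      rw [← Algebra.IsAlgebraic.range_eval_eq_rootSet_minpoly Ω] at h1
      obtain ⟨σ, rfl⟩ := h1
      exact (hB σ n).trans (hσ0 σ)) j
  have e1 : (map (algebraMap K Ω) (minpoly K (algebraMap A L (x n)))).coeff j =
      algebraMap P Ω ((minpoly P (x n)).coeff j) := by
    rw [hmin, Polynomial.map_map, Polynomial.coeff_map, ← IsScalarTower.algebraMap_eq P K Ω]
  rw [e1] at key
  exact key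


/-- homogenisation with the new variable -/
noncomputable def a3_rho (p s : ℕ) (k : Type) [Field k]
    [Algebra (MvPolynomial (Fin s) (ZMod p)) k] : MvPolynomial (Fin s) (ZMod p) →+* k[X] :=
  MvPolynomial.eval₂Hom ((C : k →+* k[X]).comp
    ((algebraMap (MvPolynomial (Fin s) (ZMod p)) k).comp MvPolynomial.C))
    (fun i => C (algebraMap (MvPolynomial (Fin s) (ZMod p)) k (MvPolynomial.X i)) * X)

theorem a3_rho_monomial (p s : ℕ) (k : Type) [Field k]
    [Algebra (MvPolynomial (Fin s) (ZMod p)) k] (u : Fin s →₀ ℕ) (a : ZMod p) :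
    a3_rho p s k (MvPolynomial.monomial u a) =
      C (algebraMap (MvPolynomial (Fin s) (ZMod p)) k (MvPolynomial.monomial u a)) *
        X ^ u.degree := by
  unfold a3_rho
  rw [MvPolynomial.coe_eval₂Hom, MvPolynomial.eval₂_monomial, MvPolynomial.monomial_eq]
  simp only [mul_pow, RingHom.comp_apply, map_mul, Finsupp.prod, map_prod, map_pow,
    Finset.prod_mul_distrib, Finset.prod_pow_eq_pow_sum]
  rw [mul_assoc]
  rfl

theorem a3_rho_coeff (p s : ℕ) (k : Type) [Field k]
    [Algebra (MvPolynomial (Fin s) (ZMod p)) k] (q : MvPolynomial (Fin s) (ZMod p)) (d : ℕ) :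
    (a3_rho p s k q).coeff d = algebraMap (MvPolynomial (Fin s) (ZMod p)) k
      (MvPolynomial.homogeneousComponent d q) := by
  induction q using MvPolynomial.induction_on' with
  | monomial u a =>
    rw [a3_rho_monomial, coeff_C_mul_X_pow, MvPolynomial.homogeneousComponent_of_mem
      (n := u.degree) ((MvPolynomial.mem_homogeneousSubmodule _ _).2
        (MvPolynomial.isHomogeneous_monomial a rfl))]
    split_ifs
    · rfl
    · rw [map_zero]
  | add q1 q2 h1 h2 => rw [map_add, coeff_add, h1, h2, map_add, map_add]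

theorem a3_rho_natDegree (p s : ℕ) (k : Type) [Field k]
    [Algebra (MvPolynomial (Fin s) (ZMod p)) k]
    (hk : Function.Injective (algebraMap (MvPolynomial (Fin s) (ZMod p)) k))
    {q : MvPolynomial (Fin s) (ZMod p)} (hq : q ≠ 0) :
    (a3_rho p s k q).natDegree = q.totalDegree ∧ a3_rho p s k q ≠ 0 := by
  have h0 : (a3_rho p s k q).coeff q.totalDegree ≠ 0 := by
    rw [a3_rho_coeff]
    intro h
    have h1 : MvPolynomial.homogeneousComponent q.totalDegree q = 0 := by
      apply hk
      rw [h, map_zero]
    obtain ⟨m, hm, hm2⟩ := Finset.exists_mem_eq_sup q.support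
      (MvPolynomial.support_nonempty.2 hq) (fun s => s.sum fun _ e => e)
    have h2 := MvPolynomial.coeff_homogeneousComponent q.totalDegree q m
    rw [h1] at h2
    have h3 : m.degree = q.totalDegree := hm2.symm
    rw [if_pos h3, MvPolynomial.coeff_zero] at h2
    exact (MvPolynomial.mem_support_iff.1 hm) h2.symm
  refine ⟨natDegree_eq_of_le_of_coeff_ne_zero ?_ h0, fun h => h0 (by rw [h, coeff_zero])⟩
  rw [natDegree_le_iff_coeff_eq_zero]
  intro N hN
  rw [a3_rho_coeff, MvPolynomial.homogeneousComponent_eq_zero N q hN, map_zero]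

theorem exists_embedding {p : ℕ} [Fact p.Prime] {A : Type*} [CommRing A] [IsDomain A]
    [Algebra (ZMod p) A] [Algebra.FiniteType (ZMod p) A] (x : ℕ → A) (hx : (Set.range x).Infinite) :
    ∃ (k : Type) (_ : Field k) (_ : IsAlgClosed k) (_ : CharP k p),
      ∀ (F Ω : Type) [NontriviallyNormedField F] [IsUltrametricDist F] [CompleteSpace F]
        [Algebra k F] (t : F) (_ : LF p k F t) [NontriviallyNormedField Ω] [IsUltrametricDist Ω]
        [NormedAlgebra F Ω] [IsAlgClosed Ω] [Algebra.IsAlgebraic F Ω] [Algebra (RatFunc k) Ω]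
        [Algebra k[X] Ω] [IsScalarTower k[X] (RatFunc k) Ω]
        (_ : algebraMap (RatFunc k) Ω RatFunc.X = algebraMap F Ω t)
        (_ : ∀ c, algebraMap (RatFunc k) Ω (RatFunc.C c) = algebraMap F Ω (algebraMap k F c)),
        ∃ ι : A →+* Ω, Function.Injective ι ∧ (∀ a, IsIntegral k[X] (ι a)) ∧
          (∀ a, IsSeparable (RatFunc k) (ι a)) ∧ ∀ B : ℝ, ∃ n, B < ‖ι (x n)‖ := by
  classical
  obtain ⟨s, g, hg, hgi, hN⟩ := exists_graded (p := p) x hx
  let P := MvPolynomial (Fin s) (ZMod p)
  let k := AlgebraicClosure (FractionRing P)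
  have hk : Function.Injective (algebraMap P k) := by
    rw [IsScalarTower.algebraMap_eq P (FractionRing P) k]
    exact (algebraMap (FractionRing P) k).injective.comp (IsFractionRing.injective P _)
  have hchar : CharP k p := charP_of_injective_ringHom
    (f := (algebraMap P k).comp (MvPolynomial.C : ZMod p →+* P)) (RingHom.injective _) p
  refine ⟨k, inferInstance, inferInstance, hchar, ?_⟩
  intro F Ω _ _ _ _ t hLF _ _ _ _ _ _ _ _ hX hC
  have hchΩ : CharP Ω p := charP_of_injective_ringHom
    (f := (algebraMap F Ω).comp (algebraMap k F)) (RingHom.injective _) p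
  have hexp : ExpChar Ω p := ExpChar.prime Fact.out
  -- the two maps from `k[X]` agree
  have hmap : algebraMap k[X] Ω = (algebraMap F Ω).comp (aeval t : k[X] →ₐ[k] F).toRingHom := by
    apply Polynomial.ringHom_ext
    · intro c
      rw [IsScalarTower.algebraMap_apply k[X] (RatFunc k) Ω, RatFunc.algebraMap_C, hC]
      simp
    · rw [IsScalarTower.algebraMap_apply k[X] (RatFunc k) Ω, RatFunc.algebraMap_X, hX]
      simp
  let r : P →+* Ω := (algebraMap k[X] Ω).comp (a3_rho p s k)
  have hr : ∀ q : P, q ≠ 0 → ‖r q‖ = ‖t‖ ^ q.totalDegree := by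
    intro q hq
    obtain ⟨h1, h2⟩ := a3_rho_natDegree p s k hk hq
    show ‖algebraMap k[X] Ω (a3_rho p s k q)‖ = _
    rw [hmap]
    show ‖algebraMap F Ω (aeval t (a3_rho p s k q))‖ = _
    rw [norm_algebraMap', hLF.norm_poly _ h2, h1]
  have ht0 : (0 : ℝ) < ‖t‖ := zero_lt_one.trans hLF.one_lt
  have hri : Function.Injective r := by
    rw [injective_iff_map_eq_zero]
    intro q hq
    by_contra hne
    have h1 := hr q hne
    rw [hq, norm_zero] at h1
    have h2 : 0 < ‖t‖ ^ q.totalDegree := pow_pos ht0 _
    exact h2.ne h1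
  let _i1 : Algebra P A := g.toRingHom.toAlgebra
  let _i2 : Algebra P Ω := r.toAlgebra
  have _i3 : FaithfulSMul P A := (faithfulSMul_iff_algebraMap_injective P A).2 hg
  have _i4 : FaithfulSMul P Ω := (faithfulSMul_iff_algebraMap_injective P Ω).2 hri
  have _i5 : IsScalarTower (ZMod p) P A :=
    IsScalarTower.of_algebraMap_eq fun a => (g.commutes a).symm
  have _i6 : Algebra.FiniteType P A := Algebra.FiniteType.of_restrictScalars_finiteType (ZMod p) P A
  have _i7 : Algebra.IsIntegral P A := ⟨hgi⟩
  have _i8 : Module.Finite P A := Algebra.IsIntegral.finite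
  have hσ : ∃ σ : A →ₐ[P] Ω, ∀ B : ℝ, ∃ n, B < ‖σ (x n)‖ := by
    by_contra hcon
    push Not at hcon
    obtain ⟨B, hB⟩ := a3_bound x hcon
    obtain ⟨N, hN1⟩ := pow_unbounded_of_one_lt B hLF.one_lt
    obtain ⟨n, Q, hQ1, hQ2, hQ3, j, hj⟩ := hN N
    have hint : IsIntegral P (x n) := Algebra.IsIntegral.isIntegral (x n)
    have hQ4 : Q ∣ minpoly P (x n) := hQ3 _ (minpoly.monic hint) (minpoly.aeval P (x n))
    have hQ5 : minpoly P (x n) = Q := by
      refine eq_of_monic_of_dvd_of_natDegree_le hQ1 (minpoly.monic hint) hQ4 ?_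
      exact natDegree_le_natDegree (minpoly.min P (x n) hQ1 hQ2)
    have h1 := hB n j
    rw [hQ5] at h1
    have h2 : ‖r (Q.coeff j)‖ ≤ B := h1
    have h3 : Q.coeff j ≠ 0 := by
      intro h
      rw [h, MvPolynomial.totalDegree_zero] at hj
      exact absurd hj (Nat.not_lt_zero _)
    rw [hr _ h3] at h2
    have h4 : ‖t‖ ^ N ≤ ‖t‖ ^ (Q.coeff j).totalDegree := pow_le_pow_right₀ hLF.one_lt.le hj.le
    linarith
  obtain ⟨σ, hσ⟩ := hσ
  have hσg : (σ : A →+* Ω).comp g.toRingHom = r := σ.comp_algebraMap
  have hσi : Function.Injective σ := by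
    -- `A` is a domain integral over `P`, and `σ` is injective on `P`
    rw [injective_iff_map_eq_zero]
    intro a ha
    by_contra hne
    obtain ⟨q, hq0, hq⟩ := (Algebra.IsIntegral.isIntegral (R := P) a).isAlgebraic.exists_nonzero_dvd
      (mem_nonZeroDivisors_of_ne_zero hne)
    obtain ⟨c, hc⟩ := hq
    have h1 : σ (algebraMap P A q) = 0 := by rw [hc, map_mul, ha, zero_mul]
    rw [AlgHom.commutes] at h1
    exact hq0 (hri (by rw [map_zero]; exact h1))
  have hint : ∀ a, IsIntegral k[X] (σ a) := by
    intro a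
    obtain ⟨f, hf1, hf2⟩ := hgi a
    refine ⟨f.map (a3_rho p s k), hf1.map _, ?_⟩
    rw [eval₂_map]
    have h1 : (σ : A →+* Ω) (f.eval₂ g.toRingHom a) = 0 := by rw [hf2, map_zero]
    rw [hom_eval₂, hσg] at h1
    exact h1
  have halg : ∀ a, IsAlgebraic (RatFunc k) ((σ : A →+* Ω) a) := fun a =>
    (IsIntegral.tower_top (R := k[X]) (hint a)).isAlgebraic
  obtain ⟨e, he⟩ := exists_frobenius_separable (p := p) (σ : A →+* Ω) halg
  refine ⟨(iterateFrobenius Ω p e).comp (σ : A →+* Ω), ?_, fun a => ?_, fun a => ?_, fun B => ?_⟩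
  · exact (iterateFrobenius Ω p e).injective.comp hσi
  · show IsIntegral k[X] (iterateFrobenius Ω p e (σ a))
    rw [iterateFrobenius_def]
    exact (hint a).pow _
  · show IsSeparable (RatFunc k) (iterateFrobenius Ω p e (σ a))
    rw [iterateFrobenius_def]
    exact he a
  · obtain ⟨n, hn⟩ := hσ (max B 1)
    refine ⟨n, ?_⟩
    show B < ‖iterateFrobenius Ω p e (σ (x n))‖
    rw [iterateFrobenius_def, norm_pow]
    have h1 : 1 ≤ ‖σ (x n)‖ := (le_max_right B 1).trans hn.le
    have h2 : B < ‖σ (x n)‖ := (le_max_left B 1).trans_lt hn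
    have h3 : 1 ≤ p ^ e := Nat.one_le_pow _ _ (Fact.out : p.Prime).pos
    exact h2.trans_le (le_self_pow₀ h1 (by omega))

end Pool.Agent.Helper581_DML
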