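import Mathlib
import Pool.Agent.Helper581_DML.Defs

/-!
Part D1 of the proof (helper581, MP_6ac234_nt): `formal_bottcher`, the formal Böttcher series of a monic
polynomial of degree `d` over an ultrametric normed field in which `d` has norm one.

PLAIN PROOF. Put `Ψ = ∑ ψ_l T^l`. We need `ψ_0 = 1` and, for every `l`,
 `coeff_l (∑_{j ≤ d} a_j Ψ^j T^(d-j)) = (if d ∣ l then ψ_(l/d) else 0)`, `a_j = f.coeff j`, `a_d = 1`.
For `l = 0` it is `ψ_0^d = ψ_0`, true for `ψ_0 = 1` (terms with `j < d` have the factor `T`).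
For `l ≥ 1` let `P = ∑_{i<l} ψ_i T^i`. Then `Ψ = P + T^l (ψ_l + T …)`, so
 `coeff_l (Ψ^d) = coeff_l (P^d) + d ψ_l` (`(P+Q)^d = P^d + d P^(d-1) Q + Q^2 …`, see
 `Polynomial.powAddExpansion`, and `P(0) = 1`, `Q` divisible by `T^l`, `2 l > l`), and for `j < d` the
 coefficient of `T^l` in `a_j Ψ^j T^(d-j)` is the one in `a_j P^j T^(d-j)`. Hence the equation at `l` says
 `ψ_l = d⁻¹ ((if d ∣ l then ψ_(l/d) else 0) - coeff_l (∑_{j ≤ d} a_j P^j T^(d-j)))`,
 which defines `ψ` by strong recursion (`l/d < l`).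
BOUND: the power series with `‖coeff_l‖ ≤ R^l` for all `l` are closed under sums and products (ultrametric
 inequality: `IsUltrametricDist.norm_sum_le` and similar), contain `T` (as `R ≥ 1`) and contain
 `a_j T^(d-j)` as `‖a_j‖ ≤ R^(d-j)`; `‖d⁻¹‖ = 1`; and `‖ψ_(l/d)‖ ≤ R^(l/d) ≤ R^l`. Strong induction.
-/

set_option autoImplicit false

namespace Pool.Agent.Helper581_DML

open Polynomial

/-- the left hand side as a function of the series -/
noncomputable def GG {L : Type*} [Field L] (a : ℕ → L) (d : ℕ) (Φ : PowerSeries L) :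
    PowerSeries L :=
  ∑ j ∈ Finset.range (d + 1), PowerSeries.C (a j) * Φ ^ j * PowerSeries.X ^ (d - j)

/-- the coefficients, by strong recursion -/
noncomputable def psi {L : Type*} [Field L] (a : ℕ → L) (d : ℕ) : ℕ → L
  | l => if l = 0 then 1 else (d : L)⁻¹ *
      ((if h : d ∣ l ∧ l / d < l then psi a d (l / d) else 0) -
        PowerSeries.coeff l (GG a d (PowerSeries.mk (fun i => if h : i < l then psi a d i else 0))))
termination_by l => l
decreasing_by
  · exact h.2
  · exact h

theorem coeffG {L : Type*} [Field L] (a : ℕ → L) (d : ℕ) (hd : 2 ≤ d) (had : a d = 1) (ψ : ℕ → L)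
    (h0 : ψ 0 = 1) (l : ℕ) (hl : 1 ≤ l) :
    PowerSeries.coeff l (GG a d (PowerSeries.mk ψ)) =
      PowerSeries.coeff l (GG a d (PowerSeries.mk (fun i => if i < l then ψ i else 0))) +
        d * ψ l := by
  set Φ := PowerSeries.mk ψ with hΦ
  set P := PowerSeries.mk (fun i => if i < l then ψ i else 0) with hP
  set T := PowerSeries.mk (fun i => ψ (i + l)) with hT
  have hdec : Φ = P + PowerSeries.X ^ l * T := by
    ext m
    rw [map_add, PowerSeries.coeff_X_pow_mul', hΦ, hP, hT]
    simp only [PowerSeries.coeff_mk]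
    by_cases hm : m < l
    · rw [if_pos hm, if_neg (not_le.2 hm), add_zero]
    · rw [if_neg hm, if_pos (not_lt.1 hm), zero_add, Nat.sub_add_cancel (not_lt.1 hm)]
  have hdvd : (PowerSeries.X : PowerSeries L) ^ l ∣ Φ - P := ⟨T, by rw [hdec]; ring⟩
  have hP0 : PowerSeries.constantCoeff P = 1 := by
    rw [← PowerSeries.coeff_zero_eq_constantCoeff_apply, hP, PowerSeries.coeff_mk,
      if_pos (by omega), h0]
  have hlow : ∀ j < d, PowerSeries.coeff l (PowerSeries.C (a j) * Φ ^ j * PowerSeries.X ^ (d - j)) =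
      PowerSeries.coeff l (PowerSeries.C (a j) * P ^ j * PowerSeries.X ^ (d - j)) := by
    intro j hj
    rw [← sub_eq_zero, ← map_sub]
    have h1 : (PowerSeries.X : PowerSeries L) ^ (l + 1) ∣
        PowerSeries.C (a j) * Φ ^ j * PowerSeries.X ^ (d - j) -
          PowerSeries.C (a j) * P ^ j * PowerSeries.X ^ (d - j) := by
      have h2 : (PowerSeries.X : PowerSeries L) ^ l ∣ Φ ^ j - P ^ j :=
        hdvd.trans (sub_dvd_pow_sub_pow Φ P j)
      have h3 : (PowerSeries.X : PowerSeries L) ∣ PowerSeries.X ^ (d - j) :=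
        dvd_pow_self _ (by omega)
      have h4 : (PowerSeries.X : PowerSeries L) ^ (l + 1) ∣
          (Φ ^ j - P ^ j) * PowerSeries.X ^ (d - j) := by
        rw [pow_succ]
        exact mul_dvd_mul h2 h3
      have h5 : PowerSeries.C (a j) * Φ ^ j * PowerSeries.X ^ (d - j) -
          PowerSeries.C (a j) * P ^ j * PowerSeries.X ^ (d - j) =
          PowerSeries.C (a j) * ((Φ ^ j - P ^ j) * PowerSeries.X ^ (d - j)) := by ring
      rw [h5]
      exact h4.mul_left _
    exact PowerSeries.X_pow_dvd_iff.1 h1 l (Nat.lt_succ_self l)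
  have htop : PowerSeries.coeff l (Φ ^ d) = PowerSeries.coeff l (P ^ d) + d * ψ l := by
    obtain ⟨q, hq⟩ := Polynomial.powAddExpansion P (PowerSeries.X ^ l * T) d
    rw [hdec, hq, map_add, map_add]
    have e1 : (d : PowerSeries L) * P ^ (d - 1) * (PowerSeries.X ^ l * T) =
        PowerSeries.X ^ l * (PowerSeries.C (d : L) * (P ^ (d - 1) * T)) := by
      rw [map_natCast]
      ring
    have e2 : q * (PowerSeries.X ^ l * T) ^ 2 =
        PowerSeries.X ^ (l + l) * (q * T ^ 2) := by ring
    rw [e1, e2, PowerSeries.coeff_X_pow_mul', PowerSeries.coeff_X_pow_mul', if_pos le_rfl,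
      if_neg (by omega), Nat.sub_self, add_zero, PowerSeries.coeff_zero_eq_constantCoeff_apply]
    have e3 : PowerSeries.constantCoeff (PowerSeries.C (d : L) * (P ^ (d - 1) * T)) = d * ψ l := by
      rw [map_mul, map_mul, map_pow, hP0, one_pow, one_mul, PowerSeries.constantCoeff_C]
      congr 1
      rw [← PowerSeries.coeff_zero_eq_constantCoeff_apply, hT, PowerSeries.coeff_mk, zero_add]
    rw [e3]
  unfold GG
  rw [Finset.sum_range_succ, Finset.sum_range_succ, map_add, map_add, map_sum, map_sum,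
    Finset.sum_congr rfl (fun j hj => hlow j (Finset.mem_range.1 hj)), had, map_one, one_mul,
    one_mul, Nat.sub_self, pow_zero, mul_one, mul_one, htop, add_assoc]

/-- bounded coefficients -/
def BdR {L : Type*} [NormedField L] (R : ℝ) (φ : PowerSeries L) : Prop :=
  ∀ l, ‖PowerSeries.coeff l φ‖ ≤ R ^ l

theorem BdR.mul {L : Type*} [NormedField L] [IsUltrametricDist L] {R : ℝ} (hR : 1 ≤ R)
    {φ χ : PowerSeries L} (h : BdR R φ) (h' : BdR R χ) : BdR R (φ * χ) := by
  intro l
  rw [PowerSeries.coeff_mul]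
  refine IsUltrametricDist.norm_sum_le_of_forall_le_of_nonneg (by positivity) ?_
  intro p hp
  have hp' : p.1 + p.2 = l := Finset.HasAntidiagonal.mem_antidiagonal.1 hp
  rw [norm_mul, ← hp', pow_add]
  exact mul_le_mul (h _) (h' _) (norm_nonneg _) (by positivity)

theorem BdR.sum {L : Type*} [NormedField L] [IsUltrametricDist L] {R : ℝ} (hR : 1 ≤ R)
    (s : Finset ℕ) (φ : ℕ → PowerSeries L) (h : ∀ i ∈ s, BdR R (φ i)) :
    BdR R (∑ i ∈ s, φ i) := by
  intro l
  rw [map_sum]
  exact IsUltrametricDist.norm_sum_le_of_forall_le_of_nonneg (by positivity) fun i hi => h i hi l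

theorem BdR.one {L : Type*} [NormedField L] {R : ℝ} (hR : 1 ≤ R) :
    BdR R (1 : PowerSeries L) := by
  intro l
  rw [PowerSeries.coeff_one]
  split_ifs with h
  · rw [h, norm_one, pow_zero]
  · rw [norm_zero]
    positivity

theorem BdR.pow {L : Type*} [NormedField L] [IsUltrametricDist L] {R : ℝ} (hR : 1 ≤ R)
    {φ : PowerSeries L} (h : BdR R φ) (n : ℕ) : BdR R (φ ^ n) := by
  induction n with
  | zero => rw [pow_zero]; exact BdR.one hR
  | succ n ih => rw [pow_succ]; exact ih.mul hR h

theorem BdR.GG {L : Type*} [NormedField L] [IsUltrametricDist L] {R : ℝ} (hR : 1 ≤ R)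
    (a : ℕ → L) (d : ℕ) (ha : ∀ j ≤ d, ‖a j‖ ≤ R ^ (d - j)) {φ : PowerSeries L} (h : BdR R φ) :
    BdR R (GG a d φ) := by
  unfold Helper581_DML.GG
  refine BdR.sum hR _ _ fun j hj => ?_
  have hj' : j ≤ d := Nat.lt_succ_iff.1 (Finset.mem_range.1 hj)
  have e : PowerSeries.C (a j) * φ ^ j * PowerSeries.X ^ (d - j) =
      φ ^ j * (PowerSeries.C (a j) * PowerSeries.X ^ (d - j)) := by ring
  rw [e]
  refine (h.pow hR j).mul hR ?_
  intro l
  rw [PowerSeries.coeff_C_mul, PowerSeries.coeff_X_pow]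
  split_ifs with hl
  · rw [mul_one, hl]
    exact ha j hj'
  · rw [mul_zero, norm_zero]
    positivity

theorem formal_bottcher {L : Type*} [NormedField L] [IsUltrametricDist L] (f : L[X])
    (hf : f.Monic) (d : ℕ) (hd : f.natDegree = d) (hd2 : 2 ≤ d) (hdn : ‖(d : L)‖ = 1)
    (R : ℝ) (hR : 1 ≤ R) (hcoeff : ∀ j ≤ d, ‖f.coeff j‖ ≤ R ^ (d - j)) :
    ∃ ψ : ℕ → L, ψ 0 = 1 ∧ (∀ l, ‖ψ l‖ ≤ R ^ l) ∧
      ∑ j ∈ Finset.range (d + 1), PowerSeries.C (f.coeff j) * (PowerSeries.mk ψ) ^ j *
        PowerSeries.X ^ (d - j) =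
      PowerSeries.mk (fun l => if d ∣ l then ψ (l / d) else 0) := by
  have hd0 : (d : L) ≠ 0 := by
    intro h
    rw [h, norm_zero] at hdn
    exact zero_ne_one hdn
  have had : f.coeff d = 1 := by rw [← hd]; exact hf
  set ψ := psi f.coeff d with hψ
  have h0 : ψ 0 = 1 := by
    rw [hψ, psi, if_pos rfl]
  have hstep : ∀ l, 1 ≤ l → ψ l = (d : L)⁻¹ * ((if d ∣ l then ψ (l / d) else 0) -
      PowerSeries.coeff l (GG f.coeff d (PowerSeries.mk (fun i => if i < l then ψ i else 0)))) := by
    intro l hl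
    rw [hψ, psi, if_neg (by omega)]
    have hlt : l / d < l := Nat.div_lt_self (by omega) (by omega)
    congr 2
    by_cases h : d ∣ l
    · rw [dif_pos ⟨h, hlt⟩, if_pos h]
    · rw [dif_neg (fun h' => h h'.1), if_neg h]
  refine ⟨ψ, h0, ?_, ?_⟩
  · intro l
    induction l using Nat.strong_induction_on with
    | _ l ih =>
      rcases Nat.eq_zero_or_pos l with rfl | hl
      · rw [h0, norm_one, pow_zero]
      · rw [hstep l hl, norm_mul, norm_inv, hdn, inv_one, one_mul]
        have hlt : l / d < l := Nat.div_lt_self hl (by omega)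
        rw [sub_eq_add_neg]
        refine (IsUltrametricDist.norm_add_le_max _ _).trans (max_le ?_ ?_)
        · split_ifs
          · exact (ih _ hlt).trans (pow_le_pow_right₀ hR hlt.le)
          · rw [norm_zero]
            positivity
        · rw [norm_neg]
          refine BdR.GG hR f.coeff d hcoeff ?_ l
          intro i
          rw [PowerSeries.coeff_mk]
          split_ifs with hi
          · exact ih i hi
          · rw [norm_zero]
            positivity
  · ext l
    rw [PowerSeries.coeff_mk]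
    change PowerSeries.coeff l (GG f.coeff d (PowerSeries.mk ψ)) = _
    rcases Nat.eq_zero_or_pos l with rfl | hl
    · rw [if_pos (dvd_zero d), Nat.zero_div, h0]
      unfold GG
      rw [map_sum, Finset.sum_range_succ, Finset.sum_eq_zero, zero_add, Nat.sub_self, pow_zero,
        mul_one, had, map_one, one_mul, PowerSeries.coeff_zero_eq_constantCoeff_apply, map_pow,
        ← PowerSeries.coeff_zero_eq_constantCoeff_apply, PowerSeries.coeff_mk, h0, one_pow]
      intro j hj
      rw [Finset.mem_range] at hj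
      rw [PowerSeries.coeff_zero_eq_constantCoeff_apply, map_mul, map_pow,
        PowerSeries.constantCoeff_X, zero_pow (by omega), mul_zero]
    · rw [coeffG f.coeff d hd2 had ψ h0 l hl, hstep l hl, mul_inv_cancel_left₀ hd0]
      ring

end Pool.Agent.Helper581_DML

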