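import Mathlib
import Pool.Agent.Helper581_DML.Defs
import Pool.Agent.Helper581_DML.D1

/-!
Part D2 of the proof (helper581, MP_6ac234_nt): `bottcher`, the Böttcher coordinate of a monic polynomial of
degree `d` prime to the characteristic at infinity, over a complete ultrametric field; from the formal
series (`formal_bottcher`, given). 
PLAIN PROOF. `‖(d : L)‖ = 1`: the norm of a nonzero natural number in characteristic `p` is one, since
 its image lies in the finite prime field (a nonzero element of finite multiplicative order has norm 1).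
 Choose `R ≥ 1` with `‖f.coeff j‖ ≤ R^(d-j)` for all `j ≤ d` (for example `R = max 1 (max of the norms)`)
 and take `ψ` from `formal_bottcher`.
 EVALUATION. For a power series `φ` with `‖coeff_l φ‖ ≤ C R^l` and `T` with `‖T‖ R < 1` the sum
 `ev T φ = ∑' l, coeff_l φ * T^l` converges absolutely (norms bounded by a geometric series) and is
 additive and multiplicative (Cauchy product: `tsum_mul_tsum_eq_tsum_sum_antidiagonal_of_summable_norm`),
 `ev T (C a) = a`, `ev T X = T`. Write `W(T) = ∑' l, ψ l * T^l`. Evaluating the identity of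
 `formal_bottcher` at `T` gives `∑_{j ≤ d} a_j W(T)^j T^(d-j) = W(T^d)` (the right side is the sum over
 the multiples of `d`; `‖T^d‖ R < 1` as `‖T‖ < 1`). For `X ≠ 0` with `‖X‖ > R` and `T = X⁻¹`, multiplying
 by `X^d`: `f.eval (X * W(X⁻¹)) = X^d * W((X^d)⁻¹)`. By induction on `n` (note `‖X^d‖ ≥ ‖X‖ > R`)
 `f^[n] (X * W(X⁻¹)) = X^(d^n) * W((X^(d^n))⁻¹)`.
 SURJECTIVITY. Given `x` with `‖x‖ > R` find `X` with `‖X‖ = ‖x‖` and `X * W(X⁻¹) = x`: on the closed ball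
 `B = {X : ‖X - x‖ ≤ R}` (all its elements have norm `‖x‖`) the map
 `G(X) = x - ∑_{l ≥ 1} ψ_l X^(1-l) = x - X * (W(X⁻¹) - 1)` maps `B` to itself
 (`‖ψ_l X^(1-l)‖ ≤ R^l ‖x‖^(1-l) ≤ R`) and is a contraction: for `m = l - 1 ≥ 1` and `X, X' ∈ B`
 `‖X^(-m) - X'^(-m)‖ ≤ ‖X - X'‖ ‖x‖^(-m-1)`, so the difference of the terms is at most
 `(R/‖x‖)^(m+1) ‖X - X'‖ ≤ (R/‖x‖)^2 ‖X - X'‖` (ultrametric), and `R/‖x‖ < 1`. Its fixed point (the limit
 of the iterates of `G` from `x`; `L` is complete) is the required `X`.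
-/

set_option autoImplicit false

namespace Pool.Agent.Helper581_DML

open Polynomial

/-! ### Evaluation of power series -/

/-- `φ` converges absolutely at `T` with sum `a` -/
def Ev {L : Type*} [NormedField L] (T : L) (φ : PowerSeries L) (a : L) : Prop :=
  Summable (fun l => ‖PowerSeries.coeff l φ * T ^ l‖) ∧ ∑' l, PowerSeries.coeff l φ * T ^ l = a

namespace Ev

variable {L : Type*} [NormedField L] [CompleteSpace L] {T : L} {φ χ : PowerSeries L} {a b : L}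

theorem hasSum (h : Ev T φ a) : HasSum (fun l => PowerSeries.coeff l φ * T ^ l) a := by
  rw [← h.2]
  exact h.1.of_norm.hasSum

theorem unique (h : Ev T φ a) (h' : Ev T φ b) : a = b := h.2.symm.trans h'.2

theorem add (h : Ev T φ a) (h' : Ev T χ b) : Ev T (φ + χ) (a + b) := by
  have h1 := h.hasSum.add h'.hasSum
  refine ⟨?_, ?_⟩
  · refine Summable.of_nonneg_of_le (fun l => norm_nonneg _) (fun l => ?_) (h.1.add h'.1)
    rw [map_add, add_mul]
    exact norm_add_le _ _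
  · simp only [map_add, add_mul]
    exact h1.tsum_eq

theorem mul (h : Ev T φ a) (h' : Ev T χ b) : Ev T (φ * χ) (a * b) := by
  have hc : ∀ n, ∑ kl ∈ Finset.HasAntidiagonal.antidiagonal n, (PowerSeries.coeff kl.1 φ * T ^ kl.1) * (PowerSeries.coeff kl.2 χ * T ^ kl.2)
      = PowerSeries.coeff n (φ * χ) * T ^ n := by
    intro n
    rw [PowerSeries.coeff_mul, Finset.sum_mul]
    apply Finset.sum_congr rfl
    intro kl hkl
    rw [Finset.HasAntidiagonal.mem_antidiagonal] at hkl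
    rw [← hkl, pow_add]
    ring
  refine ⟨?_, ?_⟩
  · have := summable_norm_sum_mul_antidiagonal_of_summable_norm h.1 h'.1
    simpa only [hc] using this
  · have := tsum_mul_tsum_eq_tsum_sum_antidiagonal_of_summable_norm h.1 h'.1
    rw [h.2, h'.2] at this
    rw [this]
    simp only [hc]

theorem of_single (n : ℕ) (c : L) : Ev T (PowerSeries.monomial n c) (c * T ^ n) := by
  have h1 : ∀ l, l ≠ n → PowerSeries.coeff l (PowerSeries.monomial n c) * T ^ l = 0 := by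
    intro l hl
    rw [PowerSeries.coeff_monomial, if_neg hl, zero_mul]
  refine ⟨?_, ?_⟩
  · apply summable_of_ne_finset_zero (s := {n})
    intro l hl
    rw [Finset.mem_singleton] at hl
    rw [h1 l hl, norm_zero]
  · rw [tsum_eq_single n h1, PowerSeries.coeff_monomial, if_pos rfl]

theorem C (c : L) : Ev T (PowerSeries.C c) c := by
  have := of_single (T := T) 0 c
  rwa [PowerSeries.monomial_zero_eq_C_apply, pow_zero, mul_one] at this

theorem X : Ev T PowerSeries.X T := by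
  have := of_single (T := T) 1 1
  rwa [pow_one, one_mul, ← PowerSeries.X_eq] at this

theorem pow (h : Ev T φ a) (n : ℕ) : Ev T (φ ^ n) (a ^ n) := by
  induction n with
  | zero =>
    rw [pow_zero, pow_zero]
    have := C (T := T) (1 : L)
    rwa [map_one] at this
  | succ n ih =>
    rw [pow_succ, pow_succ]
    exact ih.mul h

theorem sum {ι : Type*} (s : Finset ι) (Φ : ι → PowerSeries L) (A : ι → L) (h : ∀ i ∈ s, Ev T (Φ i) (A i)) :
    Ev T (∑ i ∈ s, Φ i) (∑ i ∈ s, A i) := by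
  classical
  induction s using Finset.induction_on with
  | empty =>
    have := C (T := T) (0 : L)
    rw [map_zero] at this
    simpa using this
  | insert i s his ih =>
    rw [Finset.sum_insert his, Finset.sum_insert his]
    exact (h i (Finset.mem_insert_self i s)).add (ih fun j hj => h j (Finset.mem_insert_of_mem hj))

end Ev

section

variable {L : Type*} [NormedField L]

theorem summable_psi {ψ : ℕ → L} {R : ℝ} (hR : 1 ≤ R) (hψ : ∀ l, ‖ψ l‖ ≤ R ^ l) {T : L} (hT : ‖T‖ * R < 1) :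
    Summable (fun l => ‖ψ l * T ^ l‖) := by
  have h0 : 0 ≤ ‖T‖ * R := mul_nonneg (norm_nonneg _) (by linarith)
  refine Summable.of_nonneg_of_le (fun l => norm_nonneg _) (fun l => ?_) (summable_geometric_of_lt_one h0 hT)
  rw [norm_mul, norm_pow, mul_pow, mul_comm]
  exact mul_le_mul_of_nonneg_left (hψ l) (by positivity)

theorem ev_psi {ψ : ℕ → L} {R : ℝ} (hR : 1 ≤ R) (hψ : ∀ l, ‖ψ l‖ ≤ R ^ l) {T : L} (hT : ‖T‖ * R < 1) :
    Ev T (PowerSeries.mk ψ) (∑' l, ψ l * T ^ l) := by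
  refine ⟨?_, ?_⟩
  · simpa only [PowerSeries.coeff_mk] using summable_psi hR hψ hT
  · simp only [PowerSeries.coeff_mk]

theorem ev_psi_d [CompleteSpace L] {ψ : ℕ → L} {R : ℝ} (hR : 1 ≤ R) (hψ : ∀ l, ‖ψ l‖ ≤ R ^ l) {T : L} (hT : ‖T‖ * R < 1)
    {d : ℕ} (hd : 0 < d) :
    Ev T (PowerSeries.mk (fun l => if d ∣ l then ψ (l / d) else 0)) (∑' l, ψ l * (T ^ d) ^ l) := by
  have hT1 : ‖T‖ ≤ 1 := by nlinarith [norm_nonneg T]
  have hTd : ‖T ^ d‖ * R < 1 := by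
    rw [norm_pow]
    refine lt_of_le_of_lt (mul_le_mul_of_nonneg_right ?_ (by linarith)) hT
    calc ‖T‖ ^ d ≤ ‖T‖ ^ 1 := pow_le_pow_of_le_one (norm_nonneg _) hT1 hd
      _ = ‖T‖ := pow_one _
  have hs := summable_psi hR hψ hTd
  have hinj : Function.Injective (fun l : ℕ => d * l) := fun a b hab => Nat.eq_of_mul_eq_mul_left hd hab
  have hz : ∀ l ∉ Set.range (fun l : ℕ => d * l),
      PowerSeries.coeff l (PowerSeries.mk (fun l => if d ∣ l then ψ (l / d) else 0)) * T ^ l = 0 := by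
    intro l hl
    rw [PowerSeries.coeff_mk, if_neg, zero_mul]
    rintro ⟨k, rfl⟩
    exact hl ⟨k, rfl⟩
  have he : ∀ l, PowerSeries.coeff (d * l) (PowerSeries.mk (fun l => if d ∣ l then ψ (l / d) else 0)) * T ^ (d * l)
      = ψ l * (T ^ d) ^ l := by
    intro l
    rw [PowerSeries.coeff_mk, if_pos (Dvd.intro l rfl), Nat.mul_div_cancel_left l hd, pow_mul]
  refine ⟨?_, ?_⟩
  · rw [← hinj.summable_iff]
    · convert! hs using 2 with l
      simp only [Function.comp_apply]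
      rw [he]
    · intro l hl
      rw [hz l hl, norm_zero]
  · have h1 : HasSum (fun l => PowerSeries.coeff l (PowerSeries.mk (fun l => if d ∣ l then ψ (l / d) else 0)) * T ^ l)
        (∑' l, ψ l * (T ^ d) ^ l) := by
      rw [← hinj.hasSum_iff hz]
      convert! hs.of_norm.hasSum using 2 with l
      exact he l
    exact h1.tsum_eq

end

theorem norm_natCast_eq_one {p : ℕ} [Fact p.Prime] {L : Type*} [NormedField L] [CharP L p] {d : ℕ} (hpd : ¬ p ∣ d) :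
    ‖(d : L)‖ = 1 := by
  have hp : p.Prime := Fact.out
  have h1 : (d : ZMod p) ≠ 0 := by
    rw [Ne, ZMod.natCast_eq_zero_iff]
    exact hpd
  have h2 := ZMod.pow_card_sub_one_eq_one h1
  have h3 : (d : L) ^ (p - 1) = 1 := by
    have := congrArg (ZMod.castHom (dvd_refl p) L) h2
    simpa using this
  have h4 : ‖(d : L)‖ ^ (p - 1) = 1 := by
    rw [← norm_pow, h3, norm_one]
  have h5 : p - 1 ≠ 0 := by
    have := hp.two_le
    omega
  exact (pow_eq_one_iff_of_nonneg (norm_nonneg _) h5).1 h4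

theorem exists_R {L : Type*} [NormedField L] (f : L[X]) (hf : f.Monic) (d : ℕ) (hd : f.natDegree = d) :
    ∃ R : ℝ, 1 ≤ R ∧ ∀ j ≤ d, ‖f.coeff j‖ ≤ R ^ (d - j) := by
  refine ⟨1 + ∑ j ∈ Finset.range (d + 1), ‖f.coeff j‖, ?_, ?_⟩
  · have : 0 ≤ ∑ j ∈ Finset.range (d + 1), ‖f.coeff j‖ := Finset.sum_nonneg fun j _ => norm_nonneg _
    linarith
  · intro j hj
    have h0 : 0 ≤ ∑ j ∈ Finset.range (d + 1), ‖f.coeff j‖ := Finset.sum_nonneg fun j _ => norm_nonneg _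
    rcases hj.eq_or_lt with rfl | hlt
    · have : f.coeff j = 1 := by
        rw [← hd]
        exact hf
      rw [this, norm_one, Nat.sub_self, pow_zero]
    · have h1 : ‖f.coeff j‖ ≤ ∑ j ∈ Finset.range (d + 1), ‖f.coeff j‖ :=
        Finset.single_le_sum (f := fun j => ‖f.coeff j‖) (fun j _ => norm_nonneg _) (Finset.mem_range.2 (by omega))
      calc ‖f.coeff j‖ ≤ (1 + ∑ j ∈ Finset.range (d + 1), ‖f.coeff j‖) ^ 1 := by
            rw [pow_one]
            linarith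
        _ ≤ _ := pow_le_pow_right₀ (by linarith) (by omega)

/-- the functional equation -/
theorem func_eq {L : Type*} [NormedField L] [CompleteSpace L] (f : L[X]) (d : ℕ) (hd : f.natDegree = d) (hd0 : 0 < d)
    {ψ : ℕ → L} {R : ℝ} (hR : 1 ≤ R) (hψ : ∀ l, ‖ψ l‖ ≤ R ^ l)
    (hid : ∑ j ∈ Finset.range (d + 1), PowerSeries.C (f.coeff j) * (PowerSeries.mk ψ) ^ j *
        PowerSeries.X ^ (d - j) = PowerSeries.mk (fun l => if d ∣ l then ψ (l / d) else 0))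
    (X : L) (hX : R < ‖X‖) :
    f.eval (X * ∑' l, ψ l * (X⁻¹) ^ l) = X ^ d * ∑' l, ψ l * ((X ^ d)⁻¹) ^ l := by
  have hX0 : 0 < ‖X‖ := by linarith
  have hX0' : X ≠ 0 := norm_pos_iff.1 hX0
  have hT : ‖X⁻¹‖ * R < 1 := by
    rw [norm_inv, inv_mul_lt_iff₀ hX0]
    linarith
  have h1 : Ev (X⁻¹) (∑ j ∈ Finset.range (d + 1), PowerSeries.C (f.coeff j) * (PowerSeries.mk ψ) ^ j *
        PowerSeries.X ^ (d - j)) (∑ j ∈ Finset.range (d + 1), f.coeff j * (∑' l, ψ l * (X⁻¹) ^ l) ^ j * (X⁻¹) ^ (d - j)) := by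
    apply Ev.sum
    intro j _
    exact ((Ev.C _).mul ((ev_psi hR hψ hT).pow j)).mul (Ev.X.pow _)
  rw [hid] at h1
  have h2 := h1.unique (ev_psi_d hR hψ hT hd0)
  rw [← inv_pow, ← h2, Polynomial.eval_eq_sum_range, hd, Finset.mul_sum]
  apply Finset.sum_congr rfl
  intro j hj
  rw [Finset.mem_range] at hj
  have h3 : X ^ d * X⁻¹ ^ (d - j) = X ^ j := by
    rw [inv_pow, ← div_eq_mul_inv, div_eq_iff (pow_ne_zero _ hX0'), ← pow_add]
    congr 1
    omega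
  rw [mul_pow]
  linear_combination (-(f.coeff j * (∑' l, ψ l * (X⁻¹) ^ l) ^ j)) * h3

theorem iter_eq {L : Type*} [NormedField L] [CompleteSpace L] (f : L[X]) (d : ℕ) (hd : f.natDegree = d) (hd0 : 0 < d)
    {ψ : ℕ → L} {R : ℝ} (hR : 1 ≤ R) (hψ : ∀ l, ‖ψ l‖ ≤ R ^ l)
    (hid : ∑ j ∈ Finset.range (d + 1), PowerSeries.C (f.coeff j) * (PowerSeries.mk ψ) ^ j *
        PowerSeries.X ^ (d - j) = PowerSeries.mk (fun l => if d ∣ l then ψ (l / d) else 0))
    (X : L) (hX : R < ‖X‖) (n : ℕ) :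
    (fun z => f.eval z)^[n] (X * ∑' l, ψ l * (X⁻¹) ^ l) = X ^ d ^ n * ∑' l, ψ l * ((X ^ d ^ n)⁻¹) ^ l := by
  induction n with
  | zero => simp
  | succ n ih =>
    rw [Function.iterate_succ_apply', ih]
    have h1 : R < ‖X ^ d ^ n‖ := by
      rw [norm_pow]
      have h2 : ‖X‖ ^ 1 ≤ ‖X‖ ^ d ^ n := pow_le_pow_right₀ (by linarith) (Nat.one_le_pow _ _ hd0)
      rw [pow_one] at h2
      linarith
    have h3 := func_eq f d hd hd0 hR hψ hid (X ^ d ^ n) h1
    rw [← pow_mul, ← pow_succ] at h3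
    exact h3

theorem pow_sub_pow_le {L : Type*} [NormedField L] [IsUltrametricDist L] {a b : L} {r : ℝ} (ha : ‖a‖ ≤ r) (hb : ‖b‖ ≤ r)
    (m : ℕ) : r * ‖a ^ m - b ^ m‖ ≤ ‖a - b‖ * r ^ m := by
  have hr : 0 ≤ r := (norm_nonneg a).trans ha
  induction m with
  | zero => simp
  | succ m ih =>
    have h1 : a ^ (m + 1) - b ^ (m + 1) = a * (a ^ m - b ^ m) + (a - b) * b ^ m := by ring
    have h2 : ‖a ^ (m + 1) - b ^ (m + 1)‖ ≤ max ‖a * (a ^ m - b ^ m)‖ ‖(a - b) * b ^ m‖ := by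
      rw [h1]
      exact IsUltrametricDist.norm_add_le_max _ _
    have h3 : r * ‖a * (a ^ m - b ^ m)‖ ≤ ‖a - b‖ * r ^ (m + 1) := by
      rw [norm_mul]
      calc r * (‖a‖ * ‖a ^ m - b ^ m‖) = ‖a‖ * (r * ‖a ^ m - b ^ m‖) := by ring
        _ ≤ r * (‖a - b‖ * r ^ m) := mul_le_mul ha ih (by positivity) hr
        _ = ‖a - b‖ * r ^ (m + 1) := by ring
    have h4 : r * ‖(a - b) * b ^ m‖ ≤ ‖a - b‖ * r ^ (m + 1) := by
      rw [norm_mul, norm_pow]
      calc r * (‖a - b‖ * ‖b‖ ^ m) = (r * ‖a - b‖) * ‖b‖ ^ m := by ring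
        _ ≤ (r * ‖a - b‖) * r ^ m := by gcongr
        _ = ‖a - b‖ * r ^ (m + 1) := by ring
    calc r * ‖a ^ (m + 1) - b ^ (m + 1)‖ ≤ r * max ‖a * (a ^ m - b ^ m)‖ ‖(a - b) * b ^ m‖ := by gcongr
      _ = max (r * ‖a * (a ^ m - b ^ m)‖) (r * ‖(a - b) * b ^ m‖) := mul_max_of_nonneg _ _ hr
      _ ≤ _ := max_le h3 h4

theorem surj {L : Type*} [NormedField L] [IsUltrametricDist L] [CompleteSpace L]
    {ψ : ℕ → L} {R : ℝ} (hR : 1 ≤ R) (hψ0 : ψ 0 = 1) (hψ : ∀ l, ‖ψ l‖ ≤ R ^ l) (x : L) (hx : R < ‖x‖) :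
    ∃ X : L, ‖X‖ = ‖x‖ ∧ X * ∑' l, ψ l * (X⁻¹) ^ l = x := by
  have hR0 : 0 < R := by linarith
  have hx0 : 0 < ‖x‖ := by linarith
  have hnorm : ∀ X ∈ Metric.closedBall x R, ‖X‖ = ‖x‖ := by
    intro X hX
    rw [mem_closedBall_iff_norm] at hX
    have h1 : ‖(X - x) + x‖ = max ‖X - x‖ ‖x‖ :=
      IsUltrametricDist.norm_add_eq_max_of_norm_ne_norm (by linarith : ‖X - x‖ < ‖x‖).ne
    rw [sub_add_cancel, max_eq_right (by linarith)] at h1
    exact h1
  have hsum : ∀ X : L, ‖X‖ = ‖x‖ → Summable (fun l => ψ l * (X⁻¹) ^ l) := by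
    intro X hX
    refine (summable_psi hR hψ ?_).of_norm
    rw [norm_inv, hX, inv_mul_lt_iff₀ hx0]
    linarith
  have hsum' : ∀ X : L, ‖X‖ = ‖x‖ → Summable (fun m => ψ (m + 1) * (X⁻¹) ^ m) := by
    intro X hX
    have hX0 : X ≠ 0 := norm_pos_iff.1 (by rw [hX]; exact hx0)
    have h1 := ((summable_nat_add_iff 1).2 (hsum X hX)).mul_left X
    refine h1.congr ?_
    intro m
    rw [pow_succ]
    field_simp
  have hW : ∀ X : L, ‖X‖ = ‖x‖ → X * ∑' l, ψ l * (X⁻¹) ^ l = X + ∑' m, ψ (m + 1) * (X⁻¹) ^ m := by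
    intro X hX
    have hX0 : X ≠ 0 := norm_pos_iff.1 (by rw [hX]; exact hx0)
    rw [(hsum X hX).tsum_eq_zero_add, pow_zero, hψ0, mul_add, ← tsum_mul_left]
    congr 1
    · ring
    · apply tsum_congr
      intro m
      rw [pow_succ]
      field_simp
  have hq : R / ‖x‖ < 1 := (div_lt_one hx0).2 hx
  have hq0 : 0 ≤ R / ‖x‖ := by positivity
  have hbound : ∀ X : L, ‖X‖ = ‖x‖ → ‖∑' m, ψ (m + 1) * (X⁻¹) ^ m‖ ≤ R := by
    intro X hX
    apply IsUltrametricDist.norm_tsum_le_of_forall_le_of_nonneg hR0.le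
    intro m
    rw [norm_mul, norm_pow, norm_inv, hX]
    calc ‖ψ (m + 1)‖ * ‖x‖⁻¹ ^ m ≤ R ^ (m + 1) * ‖x‖⁻¹ ^ m := by gcongr; exact hψ _
      _ = R * (R / ‖x‖) ^ m := by rw [div_eq_mul_inv, mul_pow]; ring
      _ ≤ R * 1 := by gcongr; exact pow_le_one₀ hq0 hq.le
      _ = R := mul_one R
  let G : L → L := fun X => x - ∑' m, ψ (m + 1) * (X⁻¹) ^ m
  have hmaps : Set.MapsTo G (Metric.closedBall x R) (Metric.closedBall x R) := by
    intro X hX
    rw [mem_closedBall_iff_norm]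
    simp only [G]
    rw [sub_sub_cancel_left, norm_neg]
    exact hbound X (hnorm X hX)
  have hlip : ∀ X ∈ Metric.closedBall x R, ∀ Y ∈ Metric.closedBall x R, dist (G X) (G Y) ≤ (R / ‖x‖) * dist X Y := by
    intro X hX Y hY
    have hX1 := hnorm X hX
    have hY1 := hnorm Y hY
    have hX0 : X ≠ 0 := norm_pos_iff.1 (by rw [hX1]; exact hx0)
    have hY0 : Y ≠ 0 := norm_pos_iff.1 (by rw [hY1]; exact hx0)
    rw [dist_eq_norm, dist_eq_norm]
    have h1 : G X - G Y = ∑' m, ψ (m + 1) * ((Y⁻¹) ^ m - (X⁻¹) ^ m) := by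
      simp only [G]
      rw [sub_sub_sub_cancel_left, ← (hsum' Y hY1).tsum_sub (hsum' X hX1)]
      apply tsum_congr
      intro m
      ring
    rw [h1]
    apply IsUltrametricDist.norm_tsum_le_of_forall_le_of_nonneg (by positivity)
    intro m
    have h2 : ‖Y⁻¹ - X⁻¹‖ = ‖X - Y‖ * (‖x‖⁻¹ * ‖x‖⁻¹) := by
      rw [inv_sub_inv hY0 hX0, norm_div, norm_mul, hX1, hY1, div_eq_mul_inv, mul_inv]
    have h3 := pow_sub_pow_le (a := Y⁻¹) (b := X⁻¹) (r := ‖x‖⁻¹) (by rw [norm_inv, hY1]) (by rw [norm_inv, hX1]) m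
    rw [h2] at h3
    have h4 : ‖Y⁻¹ ^ m - X⁻¹ ^ m‖ ≤ ‖X - Y‖ * ‖x‖⁻¹ ^ (m + 1) := by
      have h5 : 0 < ‖x‖⁻¹ := by positivity
      refine le_of_mul_le_mul_left ?_ h5
      calc ‖x‖⁻¹ * ‖Y⁻¹ ^ m - X⁻¹ ^ m‖ ≤ _ := h3
        _ = ‖x‖⁻¹ * (‖X - Y‖ * ‖x‖⁻¹ ^ (m + 1)) := by ring
    rw [norm_mul]
    calc ‖ψ (m + 1)‖ * ‖Y⁻¹ ^ m - X⁻¹ ^ m‖ ≤ R ^ (m + 1) * (‖X - Y‖ * ‖x‖⁻¹ ^ (m + 1)) := by
          gcongr
          exact hψ _
      _ = (R / ‖x‖) * (R / ‖x‖) ^ m * ‖X - Y‖ := by rw [div_eq_mul_inv, mul_pow]; ring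
      _ ≤ (R / ‖x‖) * 1 * ‖X - Y‖ := by gcongr; exact pow_le_one₀ hq0 hq.le
      _ = (R / ‖x‖) * ‖X - Y‖ := by ring
  have hcontr : ContractingWith (Real.toNNReal (R / ‖x‖)) (hmaps.restrict G (Metric.closedBall x R) (Metric.closedBall x R)) := by
    refine ⟨?_, ?_⟩
    · rw [← NNReal.coe_lt_coe, Real.coe_toNNReal _ hq0]
      exact hq
    · apply LipschitzWith.of_dist_le_mul
      rintro ⟨X, hX⟩ ⟨Y, hY⟩
      rw [Real.coe_toNNReal _ hq0]
      exact hlip X hX Y hY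
  obtain ⟨X, hX, hfix, -⟩ := hcontr.exists_fixedPoint' (Metric.isClosed_closedBall.isComplete) hmaps
    (Metric.mem_closedBall_self hR0.le) (edist_ne_top _ _)
  refine ⟨X, hnorm X hX, ?_⟩
  rw [hW X (hnorm X hX)]
  have h1 : G X = X := hfix
  simp only [G] at h1
  linear_combination (-1 : L) * h1

theorem bottcher {p : ℕ} [Fact p.Prime] {L : Type*} [NontriviallyNormedField L]
    [IsUltrametricDist L] [CompleteSpace L] [CharP L p] (f : L[X]) (hf : f.Monic) (d : ℕ)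
    (hd : f.natDegree = d) (hd2 : 2 ≤ d) (hpd : ¬ p ∣ d) :
    ∃ (R : ℝ) (ψ : ℕ → L), 1 ≤ R ∧ ψ 0 = 1 ∧ (∀ l, ‖ψ l‖ ≤ R ^ l) ∧
      ∀ x : L, R < ‖x‖ → ∃ X : L, ‖X‖ = ‖x‖ ∧ ∀ n : ℕ,
        (fun z => f.eval z)^[n] x = X ^ d ^ n * ∑' l, ψ l * ((X ^ d ^ n)⁻¹) ^ l := by
  have hdn : ‖(d : L)‖ = 1 := norm_natCast_eq_one hpd
  obtain ⟨R, hR, hcoeff⟩ := exists_R f hf d hd
  obtain ⟨ψ, hψ0, hψ, hid⟩ := formal_bottcher f hf d hd hd2 hdn R hR hcoeff
  refine ⟨R, ψ, hR, hψ0, hψ, ?_⟩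
  intro x hx
  obtain ⟨X, hX, hXx⟩ := surj hR hψ0 hψ x hx
  refine ⟨X, hX, ?_⟩
  intro n
  have h := iter_eq f d hd (by omega) hR hψ hid X (by rw [hX]; exact hx) n
  rw [hXx] at h
  exact h

end Pool.Agent.Helper581_DML
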