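import Mathlib
import Pool.Agent.Helper581_DML.Defs

set_option autoImplicit false

namespace Pool.Agent.Helper581_DML

open Polynomial
open scoped Polynomial.Bivariate

section D3

variable {L : Type*} [NontriviallyNormedField L]

/-- functions of `(s, z)` given by a power series in `s` with coefficients polynomial in `z` -/
def D3Rep (R : ℝ) (f : L → L → L) : Prop :=
  ∃ (E : ℕ → L[X]) (C : ℝ), 0 ≤ C ∧ (∀ k j, ‖(E k).coeff j‖ ≤ C * R ^ k) ∧
    ∀ s z : L, ‖z‖ = 1 → ‖s‖ * R < 1 → HasSum (fun k => (E k).eval z * s ^ k) (f s z)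

theorem d3_eval_norm [IsUltrametricDist L] (p : L[X]) (z : L) (hz : ‖z‖ = 1) (B : ℝ) (hB : 0 ≤ B)
    (h : ∀ j, ‖p.coeff j‖ ≤ B) : ‖p.eval z‖ ≤ B := by
  rw [Polynomial.eval_eq_sum_range]
  refine IsUltrametricDist.norm_sum_le_of_forall_le_of_nonneg hB fun i _ => ?_
  rw [norm_mul, norm_pow, hz, one_pow, mul_one]
  exact h i

theorem d3_summable [IsUltrametricDist L] {R : ℝ} (hR : 1 ≤ R) (E : ℕ → L[X]) (C : ℝ) (hC : 0 ≤ C)
    (hE : ∀ k j, ‖(E k).coeff j‖ ≤ C * R ^ k) (s z : L) (hz : ‖z‖ = 1) (hs : ‖s‖ * R < 1) :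
    Summable (fun k => ‖(E k).eval z * s ^ k‖) := by
  have hR0 : 0 ≤ R := by linarith
  refine Summable.of_nonneg_of_le (fun k => norm_nonneg _) (fun k => ?_)
    ((summable_geometric_of_lt_one (r := ‖s‖ * R) (by positivity) hs).mul_left C)
  rw [norm_mul, norm_pow, mul_pow]
  have h1 := d3_eval_norm (E k) z hz (C * R ^ k) (by positivity) (hE k)
  calc ‖(E k).eval z‖ * ‖s‖ ^ k ≤ (C * R ^ k) * ‖s‖ ^ k :=
        mul_le_mul_of_nonneg_right h1 (by positivity)
    _ = C * (‖s‖ ^ k * R ^ k) := by ring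

theorem D3Rep.add {R : ℝ} {f g : L → L → L} (hf : D3Rep R f) (hg : D3Rep R g) :
    D3Rep R (fun s z => f s z + g s z) := by
  obtain ⟨E, C, hC, hE, hs⟩ := hf
  obtain ⟨E', C', hC', hE', hs'⟩ := hg
  refine ⟨fun k => E k + E' k, C + C', by positivity, ?_, ?_⟩
  · intro k j
    rw [coeff_add, add_mul]
    exact (norm_add_le _ _).trans (add_le_add (hE k j) (hE' k j))
  · intro s z hz hsR
    have h1 := (hs s z hz hsR).add (hs' s z hz hsR)
    convert h1 using 2 with k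
    simp only [eval_add]
    ring

theorem D3Rep.mul [IsUltrametricDist L] [CompleteSpace L] {R : ℝ} (hR : 1 ≤ R)
    {f g : L → L → L} (hf : D3Rep R f)
    (hg : D3Rep R g) : D3Rep R (fun s z => f s z * g s z) := by
  obtain ⟨E, C, hC, hE, hs⟩ := hf
  obtain ⟨E', C', hC', hE', hs'⟩ := hg
  have hR0 : 0 ≤ R := by linarith
  refine ⟨fun k => ∑ p ∈ Finset.HasAntidiagonal.antidiagonal k, E p.1 * E' p.2, C * C', by positivity, ?_, ?_⟩
  · intro k j
    rw [Polynomial.finsetSum_coeff]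
    refine IsUltrametricDist.norm_sum_le_of_forall_le_of_nonneg (by positivity) fun p hp => ?_
    rw [Polynomial.coeff_mul]
    refine IsUltrametricDist.norm_sum_le_of_forall_le_of_nonneg (by positivity) fun q hq => ?_
    rw [norm_mul]
    calc ‖(E p.1).coeff q.1‖ * ‖(E' p.2).coeff q.2‖ ≤ (C * R ^ p.1) * (C' * R ^ p.2) :=
          mul_le_mul (hE _ _) (hE' _ _) (norm_nonneg _) (by positivity)
      _ = C * C' * R ^ (p.1 + p.2) := by rw [pow_add]; ring
      _ = C * C' * R ^ k := by rw [Finset.HasAntidiagonal.mem_antidiagonal.1 hp]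
  · intro s z hz hsR
    have h1 := d3_summable hR E C hC hE s z hz hsR
    have h2 := d3_summable hR E' C' hC' hE' s z hz hsR
    have h3 := (summable_norm_sum_mul_antidiagonal_of_summable_norm h1 h2).of_norm
    have h4 := tsum_mul_tsum_eq_tsum_sum_antidiagonal_of_summable_norm h1 h2
    rw [(hs s z hz hsR).tsum_eq, (hs' s z hz hsR).tsum_eq] at h4
    dsimp only
    rw [h4]
    have h5 := h3.hasSum
    have e : (fun k => eval z (∑ p ∈ Finset.HasAntidiagonal.antidiagonal k, E p.1 * E' p.2) *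
        s ^ k) = fun k => ∑ kl ∈ Finset.HasAntidiagonal.antidiagonal k,
          eval z (E kl.1) * s ^ kl.1 * (eval z (E' kl.2) * s ^ kl.2) := by
      funext k
      rw [Polynomial.eval_finsetSum, Finset.sum_mul]
      refine Finset.sum_congr rfl fun p hp => ?_
      rw [eval_mul, ← Finset.HasAntidiagonal.mem_antidiagonal.1 hp, pow_add]
      ring
    rw [e]
    exact h5

theorem D3Rep.mono {R : ℝ} (hR : 1 ≤ R) (N b : ℕ) (c : L) :
    D3Rep R (fun s z => c * (s ^ N * z ^ b)) := by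
  have hR0 : 0 ≤ R := by linarith
  refine ⟨fun k => if k = N then C c * X ^ b else 0, ‖c‖, norm_nonneg _, ?_, ?_⟩
  · intro k j
    dsimp only
    have h0 : 0 ≤ ‖c‖ * R ^ k := by positivity
    have h1 : ‖c‖ ≤ ‖c‖ * R ^ k := le_mul_of_one_le_right (norm_nonneg _) (one_le_pow₀ hR)
    split_ifs
    · rw [coeff_C_mul, coeff_X_pow]
      split_ifs
      · rw [mul_one]; exact h1
      · rw [mul_zero, norm_zero]; exact h0
    · rw [coeff_zero, norm_zero]; exact h0
  · intro s z hz hsR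
    have h := hasSum_ite_eq N (c * (s ^ N * z ^ b))
    convert h using 2 with k
    dsimp only
    split_ifs with hk
    · rw [hk, eval_mul, eval_C, eval_pow, eval_X]
      ring
    · rw [eval_zero, zero_mul]

theorem D3Rep.one {R : ℝ} (hR : 1 ≤ R) : D3Rep R (fun _ _ : L => (1 : L)) := by
  have := D3Rep.mono (L := L) hR 0 0 1
  simpa using this

theorem D3Rep.pow [IsUltrametricDist L] [CompleteSpace L] {R : ℝ} (hR : 1 ≤ R) {f : L → L → L}
    (hf : D3Rep R f) (n : ℕ) : D3Rep R (fun s z => f s z ^ n) := by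
  induction n with
  | zero => simpa using D3Rep.one (L := L) hR
  | succ n ih =>
    have := D3Rep.mul hR ih hf
    simpa only [pow_succ] using this

theorem D3Rep.sum {R : ℝ} {A : Type*} (t : Finset A) (f : A → L → L → L)
    (hR : 1 ≤ R) (hf : ∀ a ∈ t, D3Rep R (f a)) : D3Rep R (fun s z => ∑ a ∈ t, f a s z) := by
  classical
  induction t using Finset.induction_on with
  | empty => simpa using D3Rep.mono (L := L) hR 0 0 0
  | insert a t ha ih =>
    have h1 := (hf a (Finset.mem_insert_self a t)).add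
      (ih fun b hb => hf b (Finset.mem_insert_of_mem hb))
    simpa only [Finset.sum_insert ha] using h1

theorem D3Rep.series [CompleteSpace L] {R : ℝ} (hR : 1 ≤ R) (ψ : ℕ → L)
    (hψ : ∀ l, ‖ψ l‖ ≤ R ^ l) (N b : ℕ) (hN : 0 < N) :
    D3Rep R (fun s z => ∑' l, ψ l * (s ^ N * z ^ b) ^ l) := by
  have hR0 : 0 ≤ R := by linarith
  refine ⟨fun k => if N ∣ k then C (ψ (k / N)) * X ^ (b * (k / N)) else 0, 1, zero_le_one, ?_, ?_⟩
  · intro k j
    dsimp only
    rw [one_mul]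
    have h0 : 0 ≤ R ^ k := by positivity
    split_ifs
    · rw [coeff_C_mul, coeff_X_pow]
      split_ifs
      · rw [mul_one]
        exact (hψ _).trans (pow_le_pow_right₀ hR (Nat.div_le_self k N))
      · rw [mul_zero, norm_zero]; exact h0
    · rw [coeff_zero, norm_zero]; exact h0
  · intro s z hz hsR
    have hs1 : ‖s‖ ≤ 1 := by
      have : ‖s‖ * 1 ≤ ‖s‖ * R := mul_le_mul_of_nonneg_left hR (norm_nonneg _)
      linarith
    have hsum : Summable (fun l => ψ l * (s ^ N * z ^ b) ^ l) := by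
      refine Summable.of_norm ?_
      refine Summable.of_nonneg_of_le (fun k => norm_nonneg _) (fun l => ?_)
        (summable_geometric_of_lt_one (r := ‖s‖ * R) (by positivity) hsR)
      rw [norm_mul, norm_pow, norm_mul, norm_pow, norm_pow, hz, one_pow, mul_one, mul_pow]
      have h1 : ‖s‖ ^ N ≤ ‖s‖ := pow_le_of_le_one (norm_nonneg _) hs1 hN.ne'
      calc ‖ψ l‖ * (‖s‖ ^ N) ^ l ≤ R ^ l * ‖s‖ ^ l :=
            mul_le_mul (hψ l) (pow_le_pow_left₀ (by positivity) h1 l) (by positivity)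
              (by positivity)
        _ = ‖s‖ ^ l * R ^ l := mul_comm _ _
    have hinj : Function.Injective (fun l : ℕ => N * l) := fun a b hab =>
      Nat.eq_of_mul_eq_mul_left hN hab
    rw [← hinj.hasSum_iff]
    · convert hsum.hasSum using 2 with l
      simp only [Function.comp_apply]
      rw [if_pos (dvd_mul_right N l), Nat.mul_div_cancel_left l hN, eval_mul, eval_C, eval_pow,
        eval_X, mul_pow, ← pow_mul, ← pow_mul]
      ring
    · intro k hk
      dsimp only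
      rw [if_neg, eval_zero, zero_mul]
      rintro ⟨l, hl⟩
      exact hk ⟨l, hl.symm⟩

end D3

theorem expansion {L : Type*} [NontriviallyNormedField L] [IsUltrametricDist L] [CompleteSpace L]
    (ψ χ : ℕ → L) (R : ℝ) (hR : 1 ≤ R) (hψ : ∀ l, ‖ψ l‖ ≤ R ^ l) (hχ : ∀ l, ‖χ l‖ ≤ R ^ l)
    (h : L[X][Y]) (D1 D2 : ℕ) (hD1 : ∀ j, (h.coeff j).natDegree ≤ D1) (hD2 : h.natDegree ≤ D2)
    (N1 N2 b a : ℕ) (hN1 : 0 < N1) (hN2 : 0 < N2) :
    ∃ (E : ℕ → L[X]) (C : ℝ), (∀ k j, ‖(E k).coeff j‖ ≤ C * R ^ k) ∧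
      ∀ s z : L, s ≠ 0 → ‖z‖ = 1 → ‖s‖ * R < 1 →
        HasSum (fun k => (E k).eval z * s ^ k)
          ((s ^ N1 * z ^ b) ^ D1 * (s ^ N2 * z ^ a) ^ D2 *
            evalEval ((s ^ N1 * z ^ b)⁻¹ * ∑' l, ψ l * (s ^ N1 * z ^ b) ^ l)
              ((s ^ N2 * z ^ a)⁻¹ * ∑' l, χ l * (s ^ N2 * z ^ a) ^ l) h) := by
  have hT : D3Rep R (fun s z : L => s ^ N1 * z ^ b) := by
    simpa only [one_mul] using D3Rep.mono (L := L) hR N1 b 1
  have hU : D3Rep R (fun s z : L => s ^ N2 * z ^ a) := by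
    simpa only [one_mul] using D3Rep.mono (L := L) hR N2 a 1
  have hP := D3Rep.series hR ψ hψ N1 b hN1
  have hQ := D3Rep.series hR χ hχ N2 a hN2
  have hc : ∀ c : L, D3Rep R (fun _ _ => c) := fun c => by
    simpa using D3Rep.mono (L := L) hR 0 0 c
  have hF : D3Rep R (fun s z : L => ∑ j ∈ Finset.range (D2 + 1), ∑ i ∈ Finset.range (D1 + 1),
      ((h.coeff j).coeff i) * (((s ^ N1 * z ^ b) ^ (D1 - i) *
        (∑' l, ψ l * (s ^ N1 * z ^ b) ^ l) ^ i) * ((s ^ N2 * z ^ a) ^ (D2 - j) *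
        (∑' l, χ l * (s ^ N2 * z ^ a) ^ l) ^ j))) := by
    refine D3Rep.sum _ _ hR fun j _ => D3Rep.sum _ _ hR fun i _ => ?_
    exact D3Rep.mul hR (hc _) (D3Rep.mul hR (D3Rep.mul hR (D3Rep.pow hR hT _) (D3Rep.pow hR hP i))
      (D3Rep.mul hR (D3Rep.pow hR hU _) (D3Rep.pow hR hQ j)))
  obtain ⟨E, C, -, hE, hsum⟩ := hF
  refine ⟨E, C, hE, ?_⟩
  intro s z hs hz hsR
  have hz0 : z ≠ 0 := by
    intro h0
    rw [h0, norm_zero] at hz
    exact zero_ne_one hz
  convert hsum s z hz hsR using 1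
  dsimp only
  have hT0 : s ^ N1 * z ^ b ≠ 0 := mul_ne_zero (pow_ne_zero _ hs) (pow_ne_zero _ hz0)
  have hU0 : s ^ N2 * z ^ a ≠ 0 := mul_ne_zero (pow_ne_zero _ hs) (pow_ne_zero _ hz0)
  generalize s ^ N1 * z ^ b = T at hT0 ⊢
  generalize s ^ N2 * z ^ a = U at hU0 ⊢
  generalize (∑' l, ψ l * T ^ l) = P
  generalize (∑' l, χ l * U ^ l) = Q
  unfold evalEval
  rw [Polynomial.eval_eq_sum_range' (Nat.lt_succ_of_le hD2), Polynomial.eval_finsetSum,
    Finset.mul_sum]
  refine Finset.sum_congr rfl fun j hj => ?_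
  rw [Finset.mem_range] at hj
  rw [eval_mul, ← C_pow, eval_C, Polynomial.eval_eq_sum_range' (Nat.lt_succ_of_le (hD1 j)),
    Finset.sum_mul, Finset.mul_sum]
  refine Finset.sum_congr rfl fun i hi => ?_
  rw [Finset.mem_range] at hi
  have e1 : T ^ D1 = T ^ (D1 - i) * T ^ i := by rw [← pow_add]; congr 1; omega
  have e2 : U ^ D2 = U ^ (D2 - j) * U ^ j := by rw [← pow_add]; congr 1; omega
  rw [e1, e2, mul_pow, mul_pow, inv_pow, inv_pow]
  have h1 : T ^ i ≠ 0 := pow_ne_zero _ hT0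
  have h2 : U ^ j ≠ 0 := pow_ne_zero _ hU0
  field_simp

end Pool.Agent.Helper581_DML
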