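import Mathlib
import Pool.Agent.Helper581_DML.Defs

/-!
Part D4 of the proof (helper581, MP_6ac234_nt): `root_limit`. If the values `P(z_n)` of a nonzero polynomial
over a complete ultrametric field tend to zero along an infinite set of indices, then a root `κ` of `P`
in the field is the limit of the `z_n` along an infinite subset.

The proof avoids extensions: by Lagrange interpolation a set of `deg P + 1` points at mutual distances
`≥ ε` contains a point where `P` is not small, so the sequence is totally bounded.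
-/

set_option autoImplicit false

namespace Pool.Agent.Helper581_DML

open Polynomial Filter Topology

theorem root_limit_sep {L : Type*} [NormedField L] (P : L[X]) (hP : P ≠ 0) (s : Finset L)
    (hs : s.card = P.natDegree + 1) (δ : ℝ) (hδ : 0 < δ)
    (hsep : ∀ x ∈ s, ∀ y ∈ s, x ≠ y → δ ≤ ‖x - y‖) (η : ℝ) (hη0 : 0 ≤ η)
    (hη : ∀ x ∈ s, ‖P.eval x‖ ≤ η) :
    ‖P.leadingCoeff‖ ≤ (P.natDegree + 1) * (η / δ ^ P.natDegree) := by
  classical
  have h1 := Lagrange.leadingCoeff_eq_sum (s := s) (v := id) (Function.injective_id.injOn) (P := P)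
    (by rw [hs, degree_eq_natDegree hP]; rfl)
  rw [h1]
  refine (norm_sum_le _ _).trans ?_
  have h2 : ∀ i ∈ s, ‖P.eval (id i) / ∏ j ∈ s.erase i, (id i - id j)‖ ≤ η / δ ^ P.natDegree := by
    intro i hi
    rw [norm_div, norm_prod]
    apply div_le_div₀ hη0 (hη i hi) (by positivity)
    have hc : (s.erase i).card = P.natDegree := by
      rw [Finset.card_erase_of_mem hi, hs, Nat.add_sub_cancel]
    rw [← hc, ← Finset.prod_const]
    apply Finset.prod_le_prod (fun _ _ => hδ.le)
    intro j hj
    rw [Finset.mem_erase] at hj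
    exact hsep i hi j hj.2 (Ne.symm hj.1)
  refine (Finset.sum_le_card_nsmul _ _ _ h2).trans ?_
  rw [hs, nsmul_eq_mul]
  push_cast
  exact le_rfl

theorem root_limit_tb {L : Type*} [NormedField L] (P : L[X]) (hP : P ≠ 0) (u : ℕ → L)
    (hu : Tendsto (fun k => P.eval (u k)) atTop (𝓝 0)) : TotallyBounded (Set.range u) := by
  classical
  rw [Metric.totallyBounded_iff]
  intro ε hε
  by_contra hcon
  push Not at hcon
  have hlc : 0 < ‖P.leadingCoeff‖ := norm_pos_iff.2 (leadingCoeff_ne_zero.2 hP)
  set η : ℝ := ‖P.leadingCoeff‖ * ε ^ P.natDegree / (2 * (P.natDegree + 1)) with hη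
  have hη0 : 0 < η := by positivity
  obtain ⟨N, hN⟩ := Filter.eventually_atTop.1 ((Metric.tendsto_nhds.1 hu) η hη0)
  have hstep : ∀ m : ℕ, ∃ t : Finset L, t.card = m ∧ (∀ x ∈ t, ∃ k, N ≤ k ∧ x = u k) ∧
      ∀ x ∈ t, ∀ y ∈ t, x ≠ y → ε ≤ ‖x - y‖ := by
    intro m
    induction m with
    | zero => exact ⟨∅, by simp, by simp, by simp⟩
    | succ m ih =>
      obtain ⟨t, ht1, ht2, ht3⟩ := ih
      have h1 := hcon ((t ∪ (Finset.range N).image u : Finset L) : Set L) (Finset.finite_toSet _)
      rw [Set.not_subset] at h1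
      obtain ⟨x, ⟨k, rfl⟩, hx⟩ := h1
      simp only [Set.mem_iUnion, not_exists] at hx
      have hk : N ≤ k := by
        by_contra hlt
        exact hx (u k) (by simp; right; exact ⟨k, by omega, rfl⟩) (Metric.mem_ball_self hε)
      have hd : ∀ y ∈ t, ε ≤ ‖u k - y‖ := by
        intro y hy
        have := hx y (by simp; left; exact hy)
        rw [Metric.mem_ball, not_lt, dist_eq_norm] at this
        exact this
      have hnot : u k ∉ t := by
        intro hmem
        have := hd _ hmem
        rw [sub_self, norm_zero] at this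
        linarith
      refine ⟨insert (u k) t, by rw [Finset.card_insert_of_notMem hnot, ht1], ?_, ?_⟩
      · intro x hx
        rw [Finset.mem_insert] at hx
        rcases hx with rfl | hx
        · exact ⟨k, hk, rfl⟩
        · exact ht2 x hx
      · intro x hx y hy hxy
        rw [Finset.mem_insert] at hx hy
        rcases hx with rfl | hx
        · rcases hy with rfl | hy
          · exact absurd rfl hxy
          · exact hd y hy
        · rcases hy with rfl | hy
          · rw [norm_sub_rev]
            exact hd x hx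
          · exact ht3 x hx y hy hxy
  obtain ⟨t, ht1, ht2, ht3⟩ := hstep (P.natDegree + 1)
  have hfin := root_limit_sep P hP t ht1 ε hε ht3 η hη0.le (by
    intro x hx
    obtain ⟨k, hk, rfl⟩ := ht2 x hx
    have := hN k hk
    rw [dist_zero_right] at this
    exact this.le)
  have : ((P.natDegree : ℝ) + 1) * (η / ε ^ P.natDegree) = ‖P.leadingCoeff‖ / 2 := by
    rw [hη]
    field_simp
  rw [this] at hfin
  linarith

theorem root_limit {L : Type*} [NontriviallyNormedField L] [IsUltrametricDist L] [CompleteSpace L]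
    (P : L[X]) (hP : P ≠ 0) (z : ℕ → L) (S : Set ℕ) (hS : S.Infinite)
    (hlim : Tendsto (fun n => P.eval (z n)) (atTop ⊓ 𝓟 S) (𝓝 0)) :
    ∃ κ : L, P.eval κ = 0 ∧ ∃ S' ⊆ S, S'.Infinite ∧ Tendsto z (atTop ⊓ 𝓟 S') (𝓝 κ) := by
  classical
  obtain ⟨φ, hφm, hφS⟩ : ∃ φ : ℕ → ℕ, StrictMono φ ∧ ∀ k, φ k ∈ S :=
    ⟨Nat.nth (· ∈ S), Nat.nth_strictMono hS, fun k => Nat.nth_mem_of_infinite hS k⟩
  have hφt : Tendsto φ atTop (atTop ⊓ 𝓟 S) := by
    rw [tendsto_inf]
    exact ⟨hφm.tendsto_atTop, tendsto_principal.2 (Eventually.of_forall hφS)⟩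
  have htb := root_limit_tb P hP (fun k => z (φ k)) (hlim.comp hφt)
  have hcomp : IsCompact (closure (Set.range fun k => z (φ k))) :=
    TotallyBounded.isCompact_of_isClosed htb.closure isClosed_closure
  obtain ⟨κ, _, ψ, hψ, hκ⟩ := hcomp.tendsto_subseq (x := fun k => z (φ k))
    (fun k => subset_closure (Set.mem_range_self k))
  refine ⟨κ, ?_, Set.range (φ ∘ ψ), ?_, ?_, ?_⟩
  · have h1 : Tendsto (fun k => P.eval (z (φ (ψ k)))) atTop (𝓝 (P.eval κ)) :=
      (P.continuous.tendsto κ).comp hκ
    have h2 : Tendsto (fun k => P.eval (z (φ (ψ k)))) atTop (𝓝 0) :=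
      (hlim.comp hφt).comp hψ.tendsto_atTop
    exact tendsto_nhds_unique h1 h2
  · rintro _ ⟨k, rfl⟩
    exact hφS _
  · exact Set.infinite_range_of_injective (hφm.comp hψ).injective
  · rw [tendsto_def]
    intro U hU
    obtain ⟨K, hK⟩ := Filter.eventually_atTop.1 (hκ.eventually hU)
    rw [mem_inf_principal, mem_atTop_sets]
    refine ⟨φ (ψ K), ?_⟩
    rintro n hn ⟨k, rfl⟩
    have hk : K ≤ k := by
      by_contra hlt
      exact absurd ((hφm.comp hψ) (not_le.1 hlt)) (not_lt.2 hn)
    exact hK k hk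

end Pool.Agent.Helper581_DML
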