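import Mathlib
import Pool.Agent.Helper581_DML.Defs
import Pool.Agent.Helper581_DML.D4

/-!
Part D5 of the proof (helper581, MP_6ac234_nt): `zeros_near`, a Newton polygon argument for a power series in
`s` whose coefficients are polynomials in `z`; `root_limit` is given.

PLAIN PROOF. WLOG `C > 0`. Let `k0` be the least `k` with `E_k ≠ 0`. For `n ∈ S`
 `E_{k0}(z_n) = -∑_{k>k0} E_k(z_n) s_n^(k-k0)`, and `‖E_k(z_n)‖ ≤ C R^k` (as `‖z_n‖ = 1`, ultrametric), so
 `‖E_{k0}(z_n)‖ ≤ C R^(k0+1) ‖s_n‖` once `R ‖s_n‖ ≤ 1`: it tends to 0 along `S`. By `root_limit` there are `κ` and an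
 infinite `S1 ⊆ S` with `z_n → κ` along `S1`; so `‖κ‖ = 1`.
 CASE 1: `S' = {n ∈ S1 : z_n = κ}` is infinite. If `E_k(κ) ≠ 0` for some `k`, take the least such `k1`; then
 `‖E_{k1}(κ)‖ ≤ C R^(k1+1) ‖s_n‖` for large `n ∈ S'` in the same way, and `s_n → 0`, contradiction. First alternative.
 CASE 2: `S2 = {n ∈ S1 : z_n ≠ κ}` is infinite. Put `E'_k = E_k(X + κ)` (`Polynomial.taylor κ`); its
 coefficients also have norm at most `C R^k` (`‖κ‖ = 1`, ultrametric, natural numbers have norm ≤ 1). Let `μ` be the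
 minimum of the orders of vanishing at `0` of the nonzero `E'_k`; `E'_k = X^μ F_k`, the coefficients of `F_k` are
 bounded by `C R^k` too, and with `u_n = z_n - κ ≠ 0`, `u_n → 0`: `∑_k F_k(u_n) s_n^k = 0` for `n ∈ S2`. Let `k1` be the
 least `k` with `F_k(0) ≠ 0`. For `k ≤ k1` with `F_k ≠ 0` write `F_k = X^(m_k) G_k`, `G_k(0) ≠ 0`, (`m_{k1} = 0`,
 `m_k ≥ 1` for `k < k1`); for large `n ∈ S2` we have `‖F_k(u_n)‖ = ‖G_k(0)‖ ‖u_n‖^(m_k)`. The terms with `k > k1` add up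
 to at most `C R^(k1+1) ‖s_n‖^(k1+1) < ‖G_{k1}(0)‖ ‖s_n‖^k1` for large `n`. So in the vanishing sum the largest of the
 finitely many norms `‖G_k(0)‖ ‖u_n‖^(m_k) ‖s_n‖^k`, `k ≤ k1`, `F_k ≠ 0`, is attained at least twice (otherwise the
 norm of the sum would be this largest norm, not 0). By the pigeonhole principle there are `k < k'` and an infinite
 `S' ⊆ S2` with `‖G_k(0)‖ ‖u_n‖^(m_k) ‖s_n‖^k = ‖G_k'(0)‖ ‖u_n‖^(m_k') ‖s_n‖^k'` for `n ∈ S'`. If `m_k = m_k'` then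
 `‖s_n‖^(k'-k)` is constant on `S'`, impossible as `s_n → 0`, `s_n ≠ 0`. So `m_k ≠ m_k'` and taking logarithms
 `log ‖u_n‖ = B log ‖s_n‖ + B'` on `S'` with `B = (k'-k)/(m_k-m_k') ≠ 0`; as both `log ‖u_n‖` and `log ‖s_n‖` tend to
 `-∞` along `S'`, `B > 0`.
-/

set_option autoImplicit false

namespace Pool.Agent.Helper581_DML

open Polynomial Filter Topology

theorem d5_neBot {S : Set ℕ} (hS : S.Infinite) : (atTop ⊓ 𝓟 S : Filter ℕ).NeBot := by
  rw [Filter.inf_principal_neBot_iff]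
  intro U hU
  obtain ⟨N, hN⟩ := mem_atTop_sets.mp hU
  obtain ⟨n, hn, hn'⟩ := hS.exists_gt N
  exact ⟨n, hN n hn'.le, hn⟩

theorem d5_infinite {S : Set ℕ} (hS : S.Infinite) {p : ℕ → Prop}
    (h : ∀ᶠ n in atTop ⊓ 𝓟 S, p n) : {n | n ∈ S ∧ p n}.Infinite := by
  rw [eventually_inf_principal] at h
  obtain ⟨N, hN⟩ := eventually_atTop.mp h
  refine Set.infinite_of_forall_exists_gt fun a => ?_
  obtain ⟨n, hn, hn'⟩ := hS.exists_gt (max a N)
  exact ⟨n, ⟨hn, hN n (le_of_lt (lt_of_le_of_lt (le_max_right _ _) hn')) hn⟩,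
    lt_of_le_of_lt (le_max_left _ _) hn'⟩

theorem d5_tail {L : Type*} [NontriviallyNormedField L] [IsUltrametricDist L]
    (a : ℕ → L) (C R : ℝ) (s : L) (hC : 0 ≤ C) (hR : 0 ≤ R) (ha : ∀ k, ‖a k‖ ≤ C * R ^ k)
    (hRs : R * ‖s‖ ≤ 1) (h : HasSum (fun k => a k * s ^ k) 0) (m : ℕ) :
    ‖∑ k ∈ Finset.range m, a k * s ^ k‖ ≤ C * (R * ‖s‖) ^ m := by
  have h0 : 0 ≤ R * ‖s‖ := mul_nonneg hR (norm_nonneg _)
  have hB : 0 ≤ C * (R * ‖s‖) ^ m := mul_nonneg hC (pow_nonneg h0 _)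
  have h1 := h.tendsto_sum_nat
  have h2 : Tendsto (fun N => max ‖∑ k ∈ Finset.range N, a k * s ^ k‖ (C * (R * ‖s‖) ^ m)) atTop
      (𝓝 (max ‖(0 : L)‖ (C * (R * ‖s‖) ^ m))) := h1.norm.max tendsto_const_nhds
  rw [norm_zero, max_eq_right hB] at h2
  refine ge_of_tendsto h2 ?_
  filter_upwards [eventually_ge_atTop m] with N hN
  have h3 : ∑ k ∈ Finset.range m, a k * s ^ k =
      ∑ k ∈ Finset.range N, a k * s ^ k - ∑ k ∈ Finset.Ico m N, a k * s ^ k := by
    rw [Finset.sum_Ico_eq_sub _ hN]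
    ring
  rw [h3, sub_eq_add_neg]
  refine (IsUltrametricDist.norm_add_le_max _ _).trans ?_
  rw [norm_neg]
  refine max_le_max le_rfl ?_
  refine IsUltrametricDist.norm_sum_le_of_forall_le_of_nonneg hB fun k hk => ?_
  rw [Finset.mem_Ico] at hk
  rw [norm_mul, norm_pow]
  calc ‖a k‖ * ‖s‖ ^ k ≤ (C * R ^ k) * ‖s‖ ^ k :=
        mul_le_mul_of_nonneg_right (ha k) (by positivity)
    _ = C * (R * ‖s‖) ^ k := by rw [mul_pow]; ring
    _ ≤ C * (R * ‖s‖) ^ m := mul_le_mul_of_nonneg_left (pow_le_pow_of_le_one h0 hRs hk.1) hC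

theorem d5_eval_le {L : Type*} [NontriviallyNormedField L] [IsUltrametricDist L]
    (p : L[X]) (M : ℝ) (hM : 0 ≤ M) (hp : ∀ j, ‖p.coeff j‖ ≤ M) (z : L) (hz : ‖z‖ ≤ 1) :
    ‖p.eval z‖ ≤ M := by
  rw [Polynomial.eval_eq_sum_range]
  refine IsUltrametricDist.norm_sum_le_of_forall_le_of_nonneg hM fun j _ => ?_
  rw [norm_mul, norm_pow]
  calc ‖p.coeff j‖ * ‖z‖ ^ j ≤ M * 1 :=
        mul_le_mul (hp j) (pow_le_one₀ (norm_nonneg _) hz) (by positivity) hM
    _ = M := mul_one M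

theorem d5_div_one {L : Type*} [NontriviallyNormedField L] [IsUltrametricDist L]
    (p q : L[X]) (M : ℝ) (hM : 0 ≤ M) (κ : L) (hκ : ‖κ‖ ≤ 1) (hpq : p = (X - C κ) * q)
    (hp : ∀ j, ‖p.coeff j‖ ≤ M) : ∀ j, ‖q.coeff j‖ ≤ M := by
  have key : ∀ i j, q.natDegree < j + i → ‖q.coeff j‖ ≤ M := by
    intro i
    induction i with
    | zero =>
      intro j hj
      rw [Polynomial.coeff_eq_zero_of_natDegree_lt (by simpa using hj), norm_zero]
      exact hM
    | succ i ih =>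
      intro j hj
      have h1 : q.coeff j = p.coeff (j + 1) + κ * q.coeff (j + 1) := by
        rw [hpq, sub_mul, Polynomial.coeff_sub, Polynomial.coeff_X_mul, Polynomial.coeff_C_mul]
        ring
      rw [h1]
      refine (IsUltrametricDist.norm_add_le_max _ _).trans (max_le (hp _) ?_)
      rw [norm_mul]
      calc ‖κ‖ * ‖q.coeff (j + 1)‖ ≤ 1 * M :=
            mul_le_mul hκ (ih (j + 1) (by omega)) (norm_nonneg _) zero_le_one
        _ = M := one_mul M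
  intro j
  exact key (q.natDegree + 1) j (by omega)

theorem d5_div {L : Type*} [NontriviallyNormedField L] [IsUltrametricDist L]
    (M : ℝ) (hM : 0 ≤ M) (κ : L) (hκ : ‖κ‖ ≤ 1) (μ : ℕ) : ∀ (p q : L[X]),
    p = (X - C κ) ^ μ * q → (∀ j, ‖p.coeff j‖ ≤ M) → ∀ j, ‖q.coeff j‖ ≤ M := by
  induction μ with
  | zero =>
    intro p q h hp
    rw [pow_zero, one_mul] at h
    rwa [← h]
  | succ μ ih =>
    intro p q h hp
    have h1 : p = (X - C κ) ^ μ * ((X - C κ) * q) := by rw [h, pow_succ, mul_assoc]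
    exact d5_div_one _ q M hM κ hκ rfl (ih p _ h1 hp)

theorem d5_near {L : Type*} [NontriviallyNormedField L] [IsUltrametricDist L]
    (P : L[X]) (hP : P ≠ 0) (κ : L) :
    ∃ (m : ℕ) (c : ℝ), 0 < c ∧ ∀ᶠ z in 𝓝 κ, ‖P.eval z‖ = c * ‖z - κ‖ ^ m := by
  obtain ⟨q, hq, hnd⟩ := P.exists_eq_pow_rootMultiplicity_mul_and_not_dvd hP κ
  rw [Polynomial.dvd_iff_isRoot, Polynomial.IsRoot.def] at hnd
  have hc : 0 < ‖q.eval κ‖ := norm_pos_iff.mpr hnd
  refine ⟨P.rootMultiplicity κ, ‖q.eval κ‖, hc, ?_⟩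
  have h1 : Tendsto (fun z => ‖q.eval z - q.eval κ‖) (𝓝 κ) (𝓝 ‖q.eval κ - q.eval κ‖) :=
    ((q.continuous.tendsto κ).sub tendsto_const_nhds).norm
  rw [sub_self, norm_zero] at h1
  filter_upwards [h1.eventually_lt_const hc] with z hz
  have h2 : ‖q.eval z‖ = ‖q.eval κ‖ := by
    have h3 : q.eval z = (q.eval z - q.eval κ) + q.eval κ := by ring
    rw [h3, IsUltrametricDist.norm_add_eq_max_of_norm_ne_norm hz.ne, max_eq_right hz.le]
  conv_lhs => rw [hq]
  rw [Polynomial.eval_mul, norm_mul, Polynomial.eval_pow, norm_pow, Polynomial.eval_sub,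
    Polynomial.eval_X, Polynomial.eval_C, h2, mul_comm]

theorem d5_two_equal {L : Type*} [NontriviallyNormedField L] [IsUltrametricDist L]
    (f : ℕ → L) (k1 : ℕ) (h : ‖∑ k ∈ Finset.range (k1 + 1), f k‖ < ‖f k1‖) :
    ∃ k k', k < k' ∧ k' ≤ k1 ∧ 0 < ‖f k‖ ∧ ‖f k‖ = ‖f k'‖ := by
  obtain ⟨i, hi, hmax⟩ := Finset.exists_max_image (Finset.range (k1 + 1)) (fun k => ‖f k‖) ⟨k1, by simp⟩
  have h1 : ‖f k1‖ ≤ ‖f i‖ := hmax k1 (by simp)
  have hpos : 0 < ‖f i‖ := lt_of_lt_of_le (lt_of_le_of_lt (norm_nonneg _) h) h1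
  by_contra hcon
  push Not at hcon
  have hi' : i ≤ k1 := by
    have := Finset.mem_range.mp hi
    omega
  have hlt : ∀ j ∈ (Finset.range (k1 + 1)).erase i, ‖f j‖ < ‖f i‖ := by
    intro j hj
    rw [Finset.mem_erase, Finset.mem_range] at hj
    refine lt_of_le_of_ne (hmax j (Finset.mem_range.mpr hj.2)) ?_
    intro he
    rcases lt_or_gt_of_ne hj.1 with h2 | h2
    · exact hcon j i h2 hi' (by rw [he]; exact hpos) he
    · exact hcon i j h2 (by omega) hpos he.symm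
  have hsum : ‖∑ j ∈ (Finset.range (k1 + 1)).erase i, f j‖ < ‖f i‖ := by
    rcases ((Finset.range (k1 + 1)).erase i).eq_empty_or_nonempty with he | he
    · rw [he, Finset.sum_empty, norm_zero]
      exact hpos
    · obtain ⟨j, hj, hj'⟩ := IsUltrametricDist.exists_norm_finsetSum_le_of_nonempty he f
      exact lt_of_le_of_lt hj' (hlt j hj)
  have h3 : ‖∑ k ∈ Finset.range (k1 + 1), f k‖ = ‖f i‖ := by
    rw [← Finset.add_sum_erase _ f hi,
      IsUltrametricDist.norm_add_eq_max_of_norm_ne_norm hsum.ne', max_eq_left hsum.le]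
  linarith

theorem d5_lead {L : Type*} [NontriviallyNormedField L] [IsUltrametricDist L]
    (a : ℕ → L) (C R : ℝ) (s : L) (hC : 0 ≤ C) (hR : 0 ≤ R) (ha : ∀ k, ‖a k‖ ≤ C * R ^ k)
    (hRs : R * ‖s‖ ≤ 1) (hs : s ≠ 0) (h : HasSum (fun k => a k * s ^ k) 0) (m : ℕ)
    (hm : ∀ k < m, a k = 0) : ‖a m‖ ≤ C * R ^ (m + 1) * ‖s‖ := by
  have h1 := d5_tail a C R s hC hR ha hRs h (m + 1)
  rw [Finset.sum_range_succ, Finset.sum_eq_zero (fun k hk => by
    rw [hm k (Finset.mem_range.mp hk), zero_mul]), zero_add, norm_mul, norm_pow] at h1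
  have h2 : 0 < ‖s‖ ^ m := pow_pos (norm_pos_iff.mpr hs) m
  refine le_of_mul_le_mul_right (h1.trans (le_of_eq ?_)) h2
  rw [mul_pow, pow_succ ‖s‖]
  ring

theorem zeros_near {L : Type*} [NontriviallyNormedField L] [IsUltrametricDist L] [CompleteSpace L]
    (E : ℕ → L[X]) (C R : ℝ) (hR : 1 ≤ R) (hE : ∀ k j, ‖(E k).coeff j‖ ≤ C * R ^ k)
    (hne : ∃ k, E k ≠ 0) (s z : ℕ → L) (hs : Tendsto s atTop (𝓝 0)) (hs0 : ∀ n, s n ≠ 0)
    (hz : ∀ n, ‖z n‖ = 1) (S : Set ℕ) (hS : S.Infinite)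
    (hzero : ∀ n ∈ S, HasSum (fun k => (E k).eval (z n) * s n ^ k) 0) :
    ∃ (κ : L) (S' : Set ℕ), S' ⊆ S ∧ S'.Infinite ∧ Tendsto z (atTop ⊓ 𝓟 S') (𝓝 κ) ∧
      (((∀ n ∈ S', z n = κ) ∧ ∀ k, (E k).eval κ = 0) ∨
        ((∀ n ∈ S', z n ≠ κ) ∧ ∃ B B' : ℝ, 0 < B ∧
          ∀ n ∈ S', Real.log ‖z n - κ‖ = B * Real.log ‖s n‖ + B')) := by
  classical
  have hC : 0 ≤ C := by
    have := (norm_nonneg _).trans (hE 0 0)
    simpa using this
  have hR0 : 0 ≤ R := by linarith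
  have hsn : Tendsto (fun n => ‖s n‖) atTop (𝓝 0) := by
    simpa using hs.norm
  have hRs : ∀ᶠ n in atTop, R * ‖s n‖ ≤ 1 := by
    have : Tendsto (fun n => R * ‖s n‖) atTop (𝓝 (R * 0)) := hsn.const_mul R
    rw [mul_zero] at this
    exact this.eventually_le_const zero_lt_one
  -- the first point
  let k0 := Nat.find hne
  have hk0 : E k0 ≠ 0 := Nat.find_spec hne
  have hk0' : ∀ k < k0, E k = 0 := fun k hk => not_not.mp (Nat.find_min hne hk)
  have hlim : Tendsto (fun n => (E k0).eval (z n)) (atTop ⊓ 𝓟 S) (𝓝 0) := by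
    rw [tendsto_zero_iff_norm_tendsto_zero]
    have h1 : Tendsto (fun n => C * R ^ (k0 + 1) * ‖s n‖) (atTop ⊓ 𝓟 S) (𝓝 0) := by
      have := (hsn.const_mul (C * R ^ (k0 + 1))).mono_left (inf_le_left : atTop ⊓ 𝓟 S ≤ atTop)
      rwa [mul_zero] at this
    refine squeeze_zero' (Eventually.of_forall fun n => norm_nonneg _) ?_ h1
    rw [eventually_inf_principal]
    filter_upwards [hRs] with n hn hnS
    exact d5_lead (fun k => (E k).eval (z n)) C R (s n) hC hR0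
      (fun k => d5_eval_le _ _ (by positivity) (hE k) _ (hz n).le) hn (hs0 n) (hzero n hnS) k0
      (fun k hk => by simp [hk0' k hk])
  obtain ⟨κ, -, S1, hS1, hS1i, hzκ⟩ := root_limit (E k0) hk0 z S hS hlim
  have := d5_neBot hS1i
  have hκ : ‖κ‖ = 1 := by
    have h1 : Tendsto (fun n => ‖z n‖) (atTop ⊓ 𝓟 S1) (𝓝 ‖κ‖) := hzκ.norm
    have h2 : (fun n => ‖z n‖) = fun _ => (1 : ℝ) := funext hz
    rw [h2] at h1
    exact (tendsto_nhds_unique h1 tendsto_const_nhds)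
  have hmono : ∀ {T : Set ℕ}, T ⊆ S1 → Tendsto z (atTop ⊓ 𝓟 T) (𝓝 κ) := fun hT =>
    hzκ.mono_left (inf_le_inf_left _ (principal_mono.mpr hT))
  by_cases hcase : {n | n ∈ S1 ∧ z n = κ}.Infinite
  · -- first case
    refine ⟨κ, {n | n ∈ S1 ∧ z n = κ}, fun n hn => hS1 hn.1, hcase, hmono fun n hn => hn.1,
      Or.inl ⟨fun n hn => hn.2, ?_⟩⟩
    by_contra hcon
    push Not at hcon
    let k1 := Nat.find hcon
    have hk1 : (E k1).eval κ ≠ 0 := Nat.find_spec hcon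
    have hk1' : ∀ k < k1, (E k).eval κ = 0 := fun k hk => not_not.mp (Nat.find_min hcon hk)
    have := d5_neBot hcase
    have h1 : Tendsto (fun n => C * R ^ (k1 + 1) * ‖s n‖)
        (atTop ⊓ 𝓟 {n | n ∈ S1 ∧ z n = κ}) (𝓝 0) := by
      have := (hsn.const_mul (C * R ^ (k1 + 1))).mono_left
        (inf_le_left : atTop ⊓ 𝓟 {n | n ∈ S1 ∧ z n = κ} ≤ atTop)
      rwa [mul_zero] at this
    have h2 : ‖(E k1).eval κ‖ ≤ 0 := by
      refine ge_of_tendsto h1 ?_
      rw [eventually_inf_principal]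
      filter_upwards [hRs] with n hn hnS
      exact d5_lead (fun k => (E k).eval κ) C R (s n) hC hR0
        (fun k => d5_eval_le _ _ (by positivity) (hE k) _ hκ.le) hn (hs0 n)
        (by
          have := hzero n (hS1 hnS.1)
          rwa [hnS.2] at this) k1 hk1'
    exact hk1 (norm_le_zero_iff.mp h2)
  · -- second case
    have hS2 : {n | n ∈ S1 ∧ z n ≠ κ}.Infinite := by
      intro hfin
      apply hS1i
      refine ((Set.not_infinite.mp hcase).union hfin).subset fun n hn => ?_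
      by_cases h : z n = κ
      · exact Or.inl ⟨hn, h⟩
      · exact Or.inr ⟨hn, h⟩
    have hS2S1 : {n | n ∈ S1 ∧ z n ≠ κ} ⊆ S1 := fun n hn => hn.1
    -- the minimal multiplicity
    have hT : ∃ m, ∃ k, E k ≠ 0 ∧ (E k).rootMultiplicity κ = m := by
      obtain ⟨k, hk⟩ := hne
      exact ⟨_, k, hk, rfl⟩
    let μ := Nat.find hT
    obtain ⟨k1, hk1, hk1m⟩ : ∃ k, E k ≠ 0 ∧ (E k).rootMultiplicity κ = μ := Nat.find_spec hT
    have hμ : ∀ k, E k ≠ 0 → μ ≤ (E k).rootMultiplicity κ := fun k hk =>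
      Nat.find_min' hT ⟨k, hk, rfl⟩
    have hdvd : ∀ k, ∃ q, E k = (X - Polynomial.C κ) ^ μ * q := by
      intro k
      by_cases hk : E k = 0
      · exact ⟨0, by simp [hk]⟩
      · exact (pow_dvd_pow _ (hμ k hk)).trans (Polynomial.pow_rootMultiplicity_dvd (E k) κ)
    choose F hF using hdvd
    have hFb : ∀ k j, ‖(F k).coeff j‖ ≤ C * R ^ k := fun k =>
      d5_div (C * R ^ k) (by positivity) κ hκ.le μ (E k) (F k) (hF k) (hE k)
    have hF1 : (F k1).eval κ ≠ 0 := by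
      obtain ⟨q, hq, hnd⟩ := (E k1).exists_eq_pow_rootMultiplicity_mul_and_not_dvd hk1 κ
      rw [hk1m] at hq
      have hX : (X - Polynomial.C κ) ^ μ ≠ 0 := pow_ne_zero _ (Polynomial.X_sub_C_ne_zero κ)
      have : F k1 = q := mul_left_cancel₀ hX (by rw [← hF k1]; exact hq)
      rw [Polynomial.dvd_iff_isRoot, Polynomial.IsRoot.def] at hnd
      rwa [this]
    have hsumF : ∀ n ∈ {n | n ∈ S1 ∧ z n ≠ κ}, HasSum (fun k => (F k).eval (z n) * s n ^ k) 0 := by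
      intro n hn
      have h1 : (z n - κ) ^ μ ≠ 0 := pow_ne_zero _ (sub_ne_zero.mpr hn.2)
      have h2 := (hzero n (hS1 hn.1)).mul_left ((z n - κ) ^ μ)⁻¹
      rw [mul_zero] at h2
      refine h2.congr_fun ?_
      intro k
      rw [hF k, Polynomial.eval_mul, Polynomial.eval_pow, Polynomial.eval_sub, Polynomial.eval_X,
        Polynomial.eval_C]
      field_simp
    -- two equal terms
    have hev : ∀ᶠ n in atTop ⊓ 𝓟 {n | n ∈ S1 ∧ z n ≠ κ}, ∃ k k', k < k' ∧ k' ≤ k1 ∧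
        0 < ‖(F k).eval (z n) * s n ^ k‖ ∧
        ‖(F k).eval (z n) * s n ^ k‖ = ‖(F k').eval (z n) * s n ^ k'‖ := by
      have hc : 0 < ‖(F k1).eval κ‖ := norm_pos_iff.mpr hF1
      have h1 : Tendsto (fun n => ‖(F k1).eval (z n)‖) (atTop ⊓ 𝓟 {n | n ∈ S1 ∧ z n ≠ κ})
          (𝓝 ‖(F k1).eval κ‖) :=
        (((F k1).continuous.tendsto κ).comp (hmono hS2S1)).norm
      have h2 : Tendsto (fun n => C * R ^ (k1 + 1) * ‖s n‖)
          (atTop ⊓ 𝓟 {n | n ∈ S1 ∧ z n ≠ κ}) (𝓝 0) := by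
        have := (hsn.const_mul (C * R ^ (k1 + 1))).mono_left
          (inf_le_left : atTop ⊓ 𝓟 {n | n ∈ S1 ∧ z n ≠ κ} ≤ atTop)
        rwa [mul_zero] at this
      have h3 := h2.eventually_lt h1 hc
      have h4 : ∀ᶠ n in atTop ⊓ 𝓟 {n | n ∈ S1 ∧ z n ≠ κ}, R * ‖s n‖ ≤ 1 :=
        hRs.filter_mono inf_le_left
      have h5 : ∀ᶠ n in atTop ⊓ 𝓟 {n | n ∈ S1 ∧ z n ≠ κ}, n ∈ {n | n ∈ S1 ∧ z n ≠ κ} := by
        rw [eventually_inf_principal]
        exact Eventually.of_forall fun n hn => hn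
      filter_upwards [h3, h4, h5] with n hn3 hn4 hn5
      refine d5_two_equal (fun k => (F k).eval (z n) * s n ^ k) k1 ?_
      have h6 := d5_tail (fun k => (F k).eval (z n)) C R (s n) hC hR0
        (fun k => d5_eval_le _ _ (by positivity) (hFb k) _ (hz n).le) hn4 (hsumF n hn5) (k1 + 1)
      refine lt_of_le_of_lt h6 ?_
      have h7 : 0 < ‖s n‖ ^ k1 := pow_pos (norm_pos_iff.mpr (hs0 n)) k1
      calc C * (R * ‖s n‖) ^ (k1 + 1) = (C * R ^ (k1 + 1) * ‖s n‖) * ‖s n‖ ^ k1 := by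
            rw [mul_pow, pow_succ ‖s n‖]
            ring
        _ < ‖(F k1).eval (z n)‖ * ‖s n‖ ^ k1 := mul_lt_mul_of_pos_right hn3 h7
        _ = ‖(F k1).eval (z n) * s n ^ k1‖ := by rw [norm_mul, norm_pow]
    have hinf := d5_infinite hS2 hev
    -- pigeonhole
    obtain ⟨k, k', hkk, hS3⟩ : ∃ k k', k < k' ∧ {n | (n ∈ S1 ∧ z n ≠ κ) ∧
        0 < ‖(F k).eval (z n) * s n ^ k‖ ∧
        ‖(F k).eval (z n) * s n ^ k‖ = ‖(F k').eval (z n) * s n ^ k'‖}.Infinite := by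
      by_contra hcon
      push Not at hcon
      apply hinf
      have hfin : (⋃ p ∈ (((Finset.range (k1 + 1)) ×ˢ (Finset.range (k1 + 1))).filter
          (fun p : ℕ × ℕ => p.1 < p.2) : Finset (ℕ × ℕ)), {n | (n ∈ S1 ∧ z n ≠ κ) ∧
        0 < ‖(F p.1).eval (z n) * s n ^ p.1‖ ∧
        ‖(F p.1).eval (z n) * s n ^ p.1‖ = ‖(F p.2).eval (z n) * s n ^ p.2‖}).Finite := by
        refine Set.Finite.biUnion (Finset.finite_toSet _) fun p hp => ?_
        have hp' : p.1 < p.2 := by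
          have := Finset.mem_coe.mp hp
          exact (Finset.mem_filter.mp this).2
        exact hcon p.1 p.2 hp'
      refine hfin.subset ?_
      rintro n ⟨hn, k, k', h1, h2, h3, h4⟩
      rw [Set.mem_iUnion₂]
      refine ⟨(k, k'), ?_, hn, h3, h4⟩
      rw [Finset.mem_filter, Finset.mem_product, Finset.mem_range, Finset.mem_range]
      exact ⟨⟨by show k < k1 + 1; omega, by show k' < k1 + 1; omega⟩, h1⟩
    set S3 := {n | (n ∈ S1 ∧ z n ≠ κ) ∧
        0 < ‖(F k).eval (z n) * s n ^ k‖ ∧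
        ‖(F k).eval (z n) * s n ^ k‖ = ‖(F k').eval (z n) * s n ^ k'‖} with hS3def
    have hS3S1 : S3 ⊆ S1 := fun n hn => hn.1.1
    have hFk : F k ≠ 0 := by
      intro h
      obtain ⟨n, hn⟩ := hS3.nonempty
      have := hn.2.1
      rw [h] at this
      simp at this
    have hFk' : F k' ≠ 0 := by
      intro h
      obtain ⟨n, hn⟩ := hS3.nonempty
      have := hn.2.1
      rw [hn.2.2, h] at this
      simp at this
    obtain ⟨m, c, hc, hmc⟩ := d5_near (F k) hFk κ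
    obtain ⟨m', c', hc', hmc'⟩ := d5_near (F k') hFk' κ
    have hS4 := d5_infinite hS3
      (((hmono hS3S1).eventually hmc).and ((hmono hS3S1).eventually hmc'))
    set S4 := {n | n ∈ S3 ∧ (‖(F k).eval (z n)‖ = c * ‖z n - κ‖ ^ m ∧
      ‖(F k').eval (z n)‖ = c' * ‖z n - κ‖ ^ m')} with hS4def
    have hS4S3 : S4 ⊆ S3 := fun n hn => hn.1
    have hS4S1 : S4 ⊆ S1 := hS4S3.trans hS3S1
    have := d5_neBot hS4
    have hlog : ∀ n ∈ S4, ((m : ℝ) - m') * Real.log ‖z n - κ‖ =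
        ((k' : ℝ) - k) * Real.log ‖s n‖ + (Real.log c' - Real.log c) := by
      intro n hn
      have h1 := hn.1.2.2
      rw [norm_mul, norm_mul, norm_pow, norm_pow, hn.2.1, hn.2.2] at h1
      have hu : 0 < ‖z n - κ‖ := norm_pos_iff.mpr (sub_ne_zero.mpr hn.1.1.2)
      have hsn0 : 0 < ‖s n‖ := norm_pos_iff.mpr (hs0 n)
      have h2 := congrArg Real.log h1
      rw [Real.log_mul (by positivity) (by positivity), Real.log_mul (by positivity) (by positivity),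
        Real.log_mul (by positivity) (by positivity), Real.log_mul (by positivity) (by positivity),
        Real.log_pow, Real.log_pow, Real.log_pow, Real.log_pow] at h2
      linarith
    have hls : Tendsto (fun n => Real.log ‖s n‖) (atTop ⊓ 𝓟 S4) atBot := by
      refine Real.tendsto_log_nhdsGT_zero.comp ?_
      rw [tendsto_nhdsWithin_iff]
      exact ⟨hsn.mono_left inf_le_left, Eventually.of_forall fun n => norm_pos_iff.mpr (hs0 n)⟩
    have hlu : Tendsto (fun n => Real.log ‖z n - κ‖) (atTop ⊓ 𝓟 S4) atBot := by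
      refine Real.tendsto_log_nhdsGT_zero.comp ?_
      rw [tendsto_nhdsWithin_iff]
      constructor
      · have h1 : Tendsto (fun n => ‖z n - κ‖) (atTop ⊓ 𝓟 S4) (𝓝 ‖κ - κ‖) :=
          ((hmono hS4S1).sub tendsto_const_nhds).norm
        rwa [sub_self, norm_zero] at h1
      · rw [eventually_inf_principal]
        exact Eventually.of_forall fun n hn => norm_pos_iff.mpr (sub_ne_zero.mpr hn.1.1.2)
    have hkk' : (0 : ℝ) < (k' : ℝ) - k := by
      have : (k : ℝ) < k' := by exact_mod_cast hkk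
      linarith
    have hmem : ∀ᶠ n in atTop ⊓ 𝓟 S4, n ∈ S4 := by
      rw [eventually_inf_principal]
      exact Eventually.of_forall fun n hn => hn
    have hmm : (m : ℝ) - m' ≠ 0 := by
      intro h0
      have h1 := hls.eventually (eventually_lt_atBot ((Real.log c - Real.log c') / ((k' : ℝ) - k)))
      obtain ⟨n, hn1, hn2⟩ := (h1.and hmem).exists
      have h2 := hlog n hn2
      rw [h0, zero_mul] at h2
      rw [lt_div_iff₀ hkk'] at hn1
      linarith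
    have hB : 0 < ((k' : ℝ) - k) / ((m : ℝ) - m') := by
      rcases lt_or_gt_of_ne hmm with h | h
      · exfalso
        have h1 := hls.eventually (eventually_lt_atBot ((Real.log c - Real.log c') / ((k' : ℝ) - k)))
        have h2 := hlu.eventually (eventually_lt_atBot 0)
        obtain ⟨n, ⟨hn1, hn2⟩, hn3⟩ := ((h1.and h2).and hmem).exists
        have h3 := hlog n hn3
        rw [lt_div_iff₀ hkk'] at hn1
        have h4 : 0 < ((m : ℝ) - m') * Real.log ‖z n - κ‖ := mul_pos_of_neg_of_neg h hn2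
        linarith
      · exact div_pos hkk' h
    refine ⟨κ, S4, hS4S1.trans hS1, hS4, hmono hS4S1, Or.inr ⟨fun n hn => hn.1.1.2,
      ((k' : ℝ) - k) / ((m : ℝ) - m'), (Real.log c' - Real.log c) / ((m : ℝ) - m'), hB, ?_⟩⟩
    intro n hn
    have h1 := hlog n hn
    field_simp
    linarith

end Pool.Agent.Helper581_DML
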