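import Mathlib
import Pool.Agent.Helper581_DML.Defs

/-!
Part D6 of the proof (helper581, MP_6ac234_nt): `ratio_norm`. Over an ultrametric field of characteristic `p`:
if `z^(d^n) → κ` along an infinite set `S` and `z^(d^n) ≠ κ` on `S`, then `-log ‖z^(d^n) - κ‖` is
`A * p^e` with a fixed `A > 0` for all large `n ∈ S`.

PLAIN PROOF. Write `z_n = z^(d^n)`, `‖z_n‖ = 1`.
 (1) For `M ≥ 1` write `M = p^v M'` with `p ∤ M'`. In characteristic `p`: `z^M - 1 = (z^(M') - 1)^(p^v)`, so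
 `‖z^M - 1‖ = ‖z^(M') - 1‖^(p^v)`.
 (2) Suppose some `M1 ≥ 1` has `‖z^(M1) - 1‖ < 1`. Let `Q` be the least `M ≥ 1` with `‖z^M - 1‖ < 1` (it is the
 order of the residue of `z`; the set of integers `M` with `‖z^M - 1‖ < 1` is closed under differences and
 under multiples since `‖z‖ = 1`, so it is the set of multiples of `Q`). By (1) `p ∤ Q` (otherwise `Q/p` would be
 smaller). Put `u = z^Q - 1`, `‖u‖ < 1`. If `Q ∣ M'`, `p ∤ M'` then `z^(M') - 1 = (1+u)^(M'/Q) - 1 = (M'/Q) u + u^2 (…)`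
 has norm `‖u‖`, since `M'/Q` is prime to `p` and so has norm one in `L` (a nonzero element of the prime field) and
 natural numbers have norm ≤ 1. So for every `M ≥ 1` with `‖z^M - 1‖ < 1`: `‖z^M - 1‖ = ‖u‖^(p^v)` for some `v`.
 (3) Let `n ∈ S` be large. Choose `m ∈ S`, `m > n` with `‖z_m - κ‖ < ‖z_n - κ‖` (possible: `z_m → κ` along the infinite
 set `S` and `z_n ≠ κ`). Then `‖z_m - z_n‖ = ‖z_n - κ‖` (ultrametric), and
 `z_m - z_n = z_n (z_n^(d^(m-n) - 1) - 1) = z_n (z^(M) - 1)`, `M = d^n (d^(m-n) - 1) ≥ 1`, so `‖z_n - κ‖ = ‖z^M - 1‖`,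
 which is `< 1` for large `n`. By (2) `‖z_n - κ‖ = ‖u‖^(p^v)` with `‖u‖ < 1` independent of `n`; `u ≠ 0` because
 `z_n ≠ κ`. So `A = -log ‖u‖ > 0` works.
-/

set_option autoImplicit false

namespace Pool.Agent.Helper581_DML

open Filter Topology


/-- sums with a strictly smaller second term -/
theorem ratio_norm_add {L : Type*} [NontriviallyNormedField L] [IsUltrametricDist L] {x y : L}
    (h : ‖y‖ < ‖x‖) : ‖x + y‖ = ‖x‖ := by
  rw [IsUltrametricDist.norm_add_eq_max_of_norm_ne_norm (ne_of_gt h)]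
  exact max_eq_left h.le

theorem ratio_norm_natCast {p : ℕ} [Fact p.Prime] {L : Type*} [NontriviallyNormedField L]
    [CharP L p] (c : ℕ) (hc : ¬ p ∣ c) : ‖(c : L)‖ = 1 := by
  have hp : p.Prime := Fact.out
  have h1 : c ^ (p - 1) ≡ 1 [MOD p] := by
    rw [← Nat.totient_prime hp]
    exact Nat.ModEq.pow_totient ((Nat.Prime.coprime_iff_not_dvd hp).2 hc).symm
  have h2 : ((c ^ (p - 1) : ℕ) : L) = ((1 : ℕ) : L) := CharP.natCast_eq_natCast' L p h1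
  have h3 : ‖(c : L)‖ ^ (p - 1) = 1 := by
    rw [← norm_pow, ← Nat.cast_pow, h2]
    simp
  exact (pow_eq_one_iff_of_nonneg (norm_nonneg _) (by have := hp.two_le; omega)).1 h3

theorem ratio_norm_pow_sub_le {L : Type*} [NontriviallyNormedField L] [IsUltrametricDist L] (w : L)
    (hw : ‖w‖ = 1) (q : ℕ) : ‖w ^ q - 1‖ ≤ ‖w - 1‖ := by
  rw [← mul_geom_sum w q, norm_mul]
  have h1 : ‖∑ i ∈ Finset.range q, w ^ i‖ ≤ 1 := by
    refine IsUltrametricDist.norm_sum_le_of_forall_le_of_nonneg zero_le_one fun i _ => ?_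
    rw [norm_pow, hw, one_pow]
  calc ‖w - 1‖ * ‖∑ i ∈ Finset.range q, w ^ i‖ ≤ ‖w - 1‖ * 1 :=
        mul_le_mul_of_nonneg_left h1 (norm_nonneg _)
    _ = ‖w - 1‖ := mul_one _

theorem ratio_norm_pow_sub_eq {p : ℕ} [Fact p.Prime] {L : Type*} [NontriviallyNormedField L]
    [IsUltrametricDist L] [CharP L p] (w : L) (hw : ‖w‖ = 1) (hw1 : ‖w - 1‖ < 1) (c : ℕ)
    (hc : ¬ p ∣ c) : ‖w ^ c - 1‖ = ‖w - 1‖ := by
  rw [← mul_geom_sum w c, norm_mul]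
  have h1 : ∑ i ∈ Finset.range c, w ^ i = (c : L) + ∑ i ∈ Finset.range c, (w ^ i - 1) := by
    rw [Finset.sum_sub_distrib]
    simp
  have h2 : ‖∑ i ∈ Finset.range c, (w ^ i - 1)‖ ≤ ‖w - 1‖ :=
    IsUltrametricDist.norm_sum_le_of_forall_le_of_nonneg (norm_nonneg _) fun i _ =>
      ratio_norm_pow_sub_le w hw i
  have h3 := ratio_norm_natCast (p := p) (L := L) c hc
  rw [h1, ratio_norm_add (by rw [h3]; exact h2.trans_lt hw1), h3, mul_one]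

/-- structure of the numbers `M` with `‖z ^ M - 1‖ < 1` -/
theorem ratio_norm_struct {p : ℕ} [Fact p.Prime] {L : Type*} [NontriviallyNormedField L]
    [IsUltrametricDist L] [CharP L p] (z : L) (hz : ‖z‖ = 1)
    (hex : ∃ M : ℕ, 1 ≤ M ∧ ‖z ^ M - 1‖ < 1) :
    ∃ u : L, ‖u‖ < 1 ∧ ∀ M : ℕ, 1 ≤ M → ‖z ^ M - 1‖ < 1 → ∃ v : ℕ, ‖z ^ M - 1‖ = ‖u‖ ^ p ^ v := by
  classical
  have hp : p.Prime := Fact.out
  set Q := Nat.find hex with hQ
  obtain ⟨hQ1, hQ2⟩ : 1 ≤ Q ∧ ‖z ^ Q - 1‖ < 1 := Nat.find_spec hex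
  have hmin : ∀ r : ℕ, 1 ≤ r → r < Q → ¬ ‖z ^ r - 1‖ < 1 := fun r hr hrQ h =>
    Nat.find_min hex hrQ ⟨hr, h⟩
  have hzQ : ‖z ^ Q‖ = 1 := by rw [norm_pow, hz, one_pow]
  refine ⟨z ^ Q - 1, hQ2, fun M hM hM1 => ?_⟩
  have hdvd : ∀ N : ℕ, ‖z ^ N - 1‖ < 1 → Q ∣ N := by
    intro N hN
    by_contra hnd
    have hr1 : 1 ≤ N % Q := by
      rcases Nat.eq_zero_or_pos (N % Q) with h | h
      · exact absurd (Nat.dvd_of_mod_eq_zero h) hnd
      · exact h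
    have hr2 : N % Q < Q := Nat.mod_lt _ hQ1
    refine hmin _ hr1 hr2 ?_
    have h1 : z ^ (N % Q) - 1 = (z ^ N - 1) - ((z ^ Q) ^ (N / Q) - 1) * z ^ (N % Q) := by
      have h2 : z ^ N = (z ^ Q) ^ (N / Q) * z ^ (N % Q) := by
        rw [← pow_mul, ← pow_add, Nat.div_add_mod]
      rw [h2]; ring
    rw [h1]
    have h3 : ‖((z ^ Q) ^ (N / Q) - 1) * z ^ (N % Q)‖ < 1 := by
      rw [norm_mul, norm_pow z, hz, one_pow, mul_one]
      exact (ratio_norm_pow_sub_le _ hzQ _).trans_lt hQ2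
    rw [sub_eq_add_neg]
    refine (IsUltrametricDist.norm_add_le_max _ _).trans_lt (max_lt hN ?_)
    rwa [norm_neg]
  obtain ⟨v, M', hM', hMe⟩ := Nat.exists_eq_pow_mul_and_not_dvd (n := M) (by omega) p hp.ne_one
  have h1 : z ^ M - 1 = (z ^ M' - 1) ^ p ^ v := by
    rw [sub_pow_char_pow, one_pow, ← pow_mul, hMe, mul_comm M']
  have h2 : ‖z ^ M' - 1‖ < 1 := by
    by_contra h
    push Not at h
    rw [h1, norm_pow] at hM1
    exact absurd (one_le_pow₀ h) (not_le.2 hM1)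
  obtain ⟨c, hc⟩ := hdvd M' h2
  have hc' : ¬ p ∣ c := fun h => hM' (hc ▸ h.mul_left Q)
  refine ⟨v, ?_⟩
  rw [h1, norm_pow, hc, pow_mul, ratio_norm_pow_sub_eq (z ^ Q) hzQ hQ2 c hc']

theorem ratio_norm {p : ℕ} [Fact p.Prime] {L : Type*} [NontriviallyNormedField L]
    [IsUltrametricDist L] [CharP L p] (d : ℕ) (hd : 2 ≤ d) (z : L) (hz : ‖z‖ = 1) (κ : L)
    (S : Set ℕ) (hS : S.Infinite) (hne : ∀ n ∈ S, z ^ d ^ n ≠ κ)
    (hlim : Tendsto (fun n => z ^ d ^ n) (atTop ⊓ 𝓟 S) (𝓝 κ)) :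
    ∃ A : ℝ, 0 < A ∧ ∀ᶠ n in atTop ⊓ 𝓟 S, ∃ e : ℕ, -Real.log ‖z ^ d ^ n - κ‖ = A * (p : ℝ) ^ e := by
  have hNB : (atTop ⊓ 𝓟 S : Filter ℕ).NeBot := by
    rw [← Filter.frequently_mem_iff_neBot]
    exact Nat.frequently_atTop_iff_infinite.2 hS
  have hS' : ∀ᶠ n in atTop ⊓ 𝓟 S, n ∈ S := Filter.mem_inf_of_right (Filter.mem_principal_self S)
  have hsmall : ∀ ε : ℝ, 0 < ε → ∀ᶠ n in atTop ⊓ 𝓟 S, ‖z ^ d ^ n - κ‖ < ε := by
    intro ε hε
    have h1 := (Metric.tendsto_nhds.1 hlim) ε hε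
    filter_upwards [h1] with n hn
    rwa [dist_eq_norm] at hn
  have key : ∀ n ∈ S, ‖z ^ d ^ n - κ‖ < 1 →
      ∃ M : ℕ, 1 ≤ M ∧ ‖z ^ d ^ n - κ‖ = ‖z ^ M - 1‖ := by
    intro n hn _
    have hpos : 0 < ‖z ^ d ^ n - κ‖ := norm_pos_iff.2 (sub_ne_zero.2 (hne n hn))
    have h1 : ∀ᶠ m in atTop ⊓ 𝓟 S, n < m :=
      Filter.Eventually.filter_mono inf_le_left (eventually_gt_atTop n)
    obtain ⟨m, hm1, hm2⟩ := ((hsmall _ hpos).and h1).exists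
    have hlt : d ^ n < d ^ m := Nat.pow_lt_pow_right (by omega) hm2
    refine ⟨d ^ m - d ^ n, by omega, ?_⟩
    have h2 : z ^ d ^ m - z ^ d ^ n = z ^ d ^ n * (z ^ (d ^ m - d ^ n) - 1) := by
      rw [mul_sub, mul_one, ← pow_add]
      congr 2
      omega
    have h3 : ‖z ^ d ^ m - z ^ d ^ n‖ = ‖z ^ (d ^ m - d ^ n) - 1‖ := by
      rw [h2, norm_mul, norm_pow, hz, one_pow, one_mul]
    rw [← h3]
    have h4 : z ^ d ^ m - z ^ d ^ n = -(z ^ d ^ n - κ) + (z ^ d ^ m - κ) := by ring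
    rw [h4, ratio_norm_add (by rw [norm_neg]; exact hm1), norm_neg]
  obtain ⟨n0, hn0, hn0S⟩ := ((hsmall 1 one_pos).and hS').exists
  obtain ⟨M0, hM0, hM0e⟩ := key n0 hn0S hn0
  obtain ⟨u, hu, hstr⟩ := ratio_norm_struct (p := p) z hz ⟨M0, hM0, hM0e ▸ hn0⟩
  have hu0 : 0 < ‖u‖ := by
    obtain ⟨v, hv⟩ := hstr M0 hM0 (hM0e ▸ hn0)
    rcases eq_or_lt_of_le (norm_nonneg u) with h | h
    · exfalso
      rw [← h, zero_pow (pow_ne_zero _ (Fact.out : p.Prime).ne_zero), ← hM0e] at hv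
      exact hne n0 hn0S (sub_eq_zero.1 (norm_eq_zero.1 hv))
    · exact h
  refine ⟨-Real.log ‖u‖, neg_pos.2 (Real.log_neg hu0 hu), ?_⟩
  filter_upwards [hsmall 1 one_pos, hS'] with n hn hnS
  obtain ⟨M, hM, hMe⟩ := key n hnS hn
  obtain ⟨v, hv⟩ := hstr M hM (hMe ▸ hn)
  refine ⟨v, ?_⟩
  rw [hMe, hv, Real.log_pow]
  push_cast
  ring

end Pool.Agent.Helper581_DML

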