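import Mathlib
import Pool.Agent.Helper581_DML.Defs

/-!
JOB D8 (helper581, MP_6ac234_nt). A nonzero polynomial in two variables
does not vanish on a product of two spheres of a nontrivially normed field.
-/

set_option autoImplicit false

namespace Pool.Agent.Helper581_DML

open Polynomial
open scoped Polynomial.Bivariate

theorem d8_sphere_infinite {L : Type*} [NontriviallyNormedField L] [IsUltrametricDist L]
    (x0 : L) (hx0 : x0 ≠ 0) : Set.Infinite {x : L | ‖x‖ = ‖x0‖} := by
  obtain ⟨c, hc0, hc1⟩ := NormedField.exists_norm_lt_one L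
  refine Set.infinite_of_injective_forall_mem (f := fun j : ℕ => x0 * (1 + c ^ (j + 1))) ?_ ?_
  · intro i j hij
    have h1 : x0 * (1 + c ^ (i + 1)) = x0 * (1 + c ^ (j + 1)) := hij
    have h2 := mul_left_cancel₀ hx0 h1
    have h3 : c ^ (i + 1) = c ^ (j + 1) := add_left_cancel h2
    have h4 : ‖c‖ ^ (i + 1) = ‖c‖ ^ (j + 1) := by rw [← norm_pow, ← norm_pow, h3]
    have h5 := pow_right_injective₀ hc0 hc1.ne h4
    omega
  · intro j
    show ‖x0 * (1 + c ^ (j + 1))‖ = ‖x0‖
    have h1 : ‖c ^ (j + 1)‖ < 1 := by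
      rw [norm_pow]
      exact pow_lt_one₀ hc0.le hc1 (by omega)
    have h2 : ‖(1 : L) + c ^ (j + 1)‖ = 1 := by
      rw [IsUltrametricDist.norm_add_eq_max_of_norm_ne_norm (by rw [norm_one]; exact h1.ne'),
        norm_one]
      exact max_eq_left h1.le
    rw [norm_mul, h2, mul_one]

theorem exists_ne_zero_on_spheres {L : Type*} [NontriviallyNormedField L] [IsUltrametricDist L]
    (h : L[X][Y]) (hh : h ≠ 0) (x0 y0 : L) (hx0 : x0 ≠ 0) (hy0 : y0 ≠ 0) :
    ∃ x y : L, ‖x‖ = ‖x0‖ ∧ ‖y‖ = ‖y0‖ ∧ evalEval x y h ≠ 0 := by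
  by_contra hcon
  push Not at hcon
  apply hh
  have h1 : ∀ x : L, ‖x‖ = ‖x0‖ → h.map (evalRingHom x) = 0 := by
    intro x hx
    refine Polynomial.eq_zero_of_infinite_isRoot _ ((d8_sphere_infinite y0 hy0).mono ?_)
    intro y hy
    show (h.map (evalRingHom x)).eval y = 0
    rw [Polynomial.map_evalRingHom_eval]
    exact hcon x y hx hy
  ext1 j
  rw [Polynomial.coeff_zero]
  refine Polynomial.eq_zero_of_infinite_isRoot _ ((d8_sphere_infinite x0 hx0).mono ?_)
  intro x hx
  have h2 := congrArg (fun p => Polynomial.coeff p j) (h1 x hx)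
  simp only [Polynomial.coeff_map, Polynomial.coeff_zero, Polynomial.coe_evalRingHom] at h2
  exact h2

end Pool.Agent.Helper581_DML
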