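import Mathlib
import Pool.Agent.TH526.ZL.N

/-!
# Pillai's equation with fixed coefficients

For a prime `p`, a natural number `d ≥ 2` that is not a power of `p`, and real `A, B, C` with `A ≠ 0`, `B ≠ 0`, the equation
`A p ^ e = B d ^ n + C` has solutions `(e, n)` for finitely many `n` only. It follows from the
theorem on `S`-unit equations over the rationals.
-/

set_option autoImplicit false

namespace Pool.Agent.Helper581_DML

open Pool.Agent.TH551.SU Pool.Agent.TH526.ZL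

/-- the rational form with nonzero constant term -/
theorem pillai_rat (p d : ℕ) (hp : p.Prime) (hd : 2 ≤ d) (A B C : ℚ) (hA : A ≠ 0) (hB : B ≠ 0)
    (hC : C ≠ 0) : {n : ℕ | ∃ e : ℕ, A * (p : ℚ) ^ e = B * (d : ℚ) ^ n + C}.Finite := by
  classical
  set D : ℕ := p * d with hD
  have hpp : 2 ≤ p := hp.two_le
  let b : Fin (D + 1) → ℕ := fun v => Nat.nth Nat.Prime v
  have hb : ∀ v, (b v).Prime := fun v => Nat.prime_nth_prime v
  have hbi : Function.Injective b := by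
    intro v w h
    apply Fin.ext
    exact Nat.nth_injective Nat.infinite_setOf_prime h
  have hbD : ∀ q : ℕ, q.Prime → q ≤ D → ∃ v, b v = q := by
    intro q hq hqD
    have h1 : Nat.count Nat.Prime q < D + 1 :=
      lt_of_le_of_lt (Nat.count_le (p := Nat.Prime) (n := q)) (by omega)
    exact ⟨⟨Nat.count Nat.Prime q, h1⟩, Nat.nth_count hq⟩
  have hSU : ∀ z : ℤ, z ≠ 0 → (∀ q : ℕ, q.Prime → D < q → ¬ (q : ℤ) ∣ z) → IsSU b (z : ℚ) :=
    fun z hz h => isSU_of hbD (fun v => (hb v).ne_zero) z hz h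
  have hpS : ∀ e : ℕ, IsSU b ((p : ℚ) ^ e) := by
    intro e
    have h1 := hSU ((p : ℤ) ^ e) (pow_ne_zero _ (by exact_mod_cast hp.ne_zero)) ?_
    · simpa using h1
    · intro q hq hDq hdv
      have h2 : q ∣ p ^ e := by exact_mod_cast hdv
      have h3 : q ∣ p := hq.dvd_of_dvd_pow h2
      have h4 : q ≤ p := Nat.le_of_dvd (by omega) h3
      nlinarith
  have hdS : ∀ e : ℕ, IsSU b ((d : ℚ) ^ e) := by
    intro e
    have h1 := hSU ((d : ℤ) ^ e) (pow_ne_zero _ (by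
      have : d ≠ 0 := by omega
      exact_mod_cast this)) ?_
    · simpa using h1
    · intro q hq hDq hdv
      have h2 : q ∣ d ^ e := by exact_mod_cast hdv
      have h3 : q ∣ d := hq.dvd_of_dvd_pow h2
      have h4 : q ≤ d := Nat.le_of_dvd (by omega) h3
      nlinarith
  have h1S : IsSU b (1 : ℚ) := by simpa using hpS 0
  obtain ⟨H, hH⟩ := sunit b hb hbi (m := 3) ![C, A, B] (by
    intro i
    fin_cases i <;> simp [hA, hB, hC]) 0
  -- every solution has `d ^ n ≤ H` or `p ^ e ≤ H`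
  have hkey : ∀ n e : ℕ, A * (p : ℚ) ^ e = B * (d : ℚ) ^ n + C → d ^ n ≤ H ∨ p ^ e ≤ H := by
    intro n e h
    obtain ⟨j, hj, -, hj2⟩ := hH ![-1, (p : ℚ) ^ e, -(d : ℚ) ^ n] (by
      intro i
      fin_cases i
      · obtain ⟨σ, f, hσ, hf⟩ := h1S
        refine ⟨-σ, f, by rcases hσ with h | h <;> simp [h], ?_⟩
        simp only [Fin.zero_eta, Matrix.cons_val_zero]
        rw [hf]; push_cast; ring
      · exact hpS e
      · obtain ⟨σ, f, hσ, hf⟩ := hdS n
        refine ⟨-σ, f, by rcases hσ with h | h <;> simp [h], ?_⟩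
        simp only [Fin.reduceFinMk, Matrix.cons_val]
        rw [hf]; push_cast; ring) (by
      simp only [Fin.sum_univ_three, Matrix.cons_val_zero, Matrix.cons_val_one, Matrix.cons_val]
      linarith)
    fin_cases j
    · exact absurd rfl hj
    · right
      simp only [Fin.isValue, Matrix.cons_val_zero, Fin.mk_one, Matrix.cons_val_one] at hj2
      have h5 : (-1 : ℚ) / (p : ℚ) ^ e = -(((p ^ e : ℕ) : ℚ))⁻¹ := by
        push_cast; field_simp
      rw [h5, Rat.neg_den, Rat.inv_natCast_den_of_pos (Nat.pos_of_ne_zero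
        (pow_ne_zero _ hp.ne_zero))] at hj2
      exact hj2
    · left
      simp only [Fin.isValue, Matrix.cons_val_zero, Fin.reduceFinMk, Matrix.cons_val] at hj2
      have hd0 : d ≠ 0 := by omega
      have h5 : (-1 : ℚ) / (-(d : ℚ) ^ n) = (((d ^ n : ℕ) : ℚ))⁻¹ := by
        push_cast; field_simp
      rw [h5, Rat.inv_natCast_den_of_pos (Nat.pos_of_ne_zero (pow_ne_zero _ hd0))] at hj2
      exact hj2
  -- so `n` is in a finite set
  have hfin1 : {n : ℕ | d ^ n ≤ H}.Finite := by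
    refine (Set.finite_Iic H).subset fun n hn => ?_
    exact ((Nat.lt_pow_self (by omega : 1 < d)).le).trans hn
  have hfin2 : {n : ℕ | ∃ e : ℕ, p ^ e ≤ H ∧ A * (p : ℚ) ^ e = B * (d : ℚ) ^ n + C}.Finite := by
    have : {n : ℕ | ∃ e : ℕ, p ^ e ≤ H ∧ A * (p : ℚ) ^ e = B * (d : ℚ) ^ n + C} ⊆
        ⋃ e ∈ Set.Iic H, {n : ℕ | A * (p : ℚ) ^ e = B * (d : ℚ) ^ n + C} := by
      rintro n ⟨e, he, h⟩
      simp only [Set.mem_iUnion]
      exact ⟨e, ((Nat.lt_pow_self (by omega : 1 < p)).le).trans he, h⟩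
    refine Set.Finite.subset (Set.Finite.biUnion (Set.finite_Iic H) fun e _ => ?_) this
    refine Set.Subsingleton.finite fun n hn m hm => ?_
    have h1 : B * (d : ℚ) ^ n = B * (d : ℚ) ^ m := by
      have := hn.symm.trans hm
      linarith
    have h2 : (d : ℚ) ^ n = (d : ℚ) ^ m := mul_left_cancel₀ hB h1
    have h3 : d ^ n = d ^ m := by exact_mod_cast h2
    exact Nat.pow_right_injective hd h3
  refine (hfin1.union hfin2).subset fun n hn => ?_
  obtain ⟨e, he⟩ := hn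
  rcases hkey n e he with h | h
  · exact Or.inl h
  · exact Or.inr ⟨e, h, he⟩

/-- the equation `A p ^ e = B d ^ n + C` has solutions for finitely many `n` only -/
theorem pillai (p d : ℕ) (hp : p.Prime) (hd : 2 ≤ d) (hpd : ∀ a : ℕ, d ≠ p ^ a) (A B C : ℝ)
    (hA : A ≠ 0) (hB : B ≠ 0) : {n : ℕ | ∃ e : ℕ, A * (p : ℝ) ^ e = B * (d : ℝ) ^ n + C}.Finite := by
  classical
  by_contra hinf
  have hinf : {n : ℕ | ∃ e : ℕ, A * (p : ℝ) ^ e = B * (d : ℝ) ^ n + C}.Infinite := hinf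
  have hpp : 2 ≤ p := hp.two_le
  have hdn : ∀ n m : ℕ, n < m → (d : ℝ) ^ n < (d : ℝ) ^ m := by
    intro n m h
    exact pow_lt_pow_right₀ (by exact_mod_cast (by omega : 1 < d)) h
  obtain ⟨n, hn⟩ := hinf.nonempty
  obtain ⟨m, hm, hnm⟩ := hinf.exists_gt n
  obtain ⟨e, he⟩ := hn
  obtain ⟨f, hf⟩ := hm
  -- two solutions determine the ratios
  have hp0 : (p : ℝ) ≠ 0 := by exact_mod_cast hp.ne_zero
  have h1 : A * ((p : ℝ) ^ f - (p : ℝ) ^ e) = B * ((d : ℝ) ^ m - (d : ℝ) ^ n) := by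
    linarith
  have h2 : ((d : ℝ) ^ m - (d : ℝ) ^ n) ≠ 0 := by linarith [hdn n m hnm]
  have h3 : ((p : ℝ) ^ f - (p : ℝ) ^ e) ≠ 0 := by
    intro h
    rw [h, mul_zero] at h1
    exact (mul_ne_zero hB h2) h1.symm
  -- `B = r A`, `C = s A` with rational `r`, `s`
  set r : ℚ := ((p : ℚ) ^ f - (p : ℚ) ^ e) / ((d : ℚ) ^ m - (d : ℚ) ^ n) with hr
  set s : ℚ := (p : ℚ) ^ e - r * (d : ℚ) ^ n with hs
  have hrB : B = A * (r : ℝ) := by
    rw [hr]; push_cast; field_simp; linarith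
  have hsC : C = A * (s : ℝ) := by
    rw [hs]; push_cast
    have : C = A * (p : ℝ) ^ e - B * (d : ℝ) ^ n := by linarith
    rw [this, hrB]; ring
  have hr0 : r ≠ 0 := by
    intro h
    apply hB
    rw [hrB, h]; simp
  have hiff : ∀ k l : ℕ, A * (p : ℝ) ^ l = B * (d : ℝ) ^ k + C ↔
      (1 : ℚ) * (p : ℚ) ^ l = r * (d : ℚ) ^ k + s := by
    intro k l
    rw [hrB, hsC]
    have : A * (p : ℝ) ^ l = A * (r : ℝ) * (d : ℝ) ^ k + A * (s : ℝ) ↔
        A * (p : ℝ) ^ l = A * ((r : ℝ) * (d : ℝ) ^ k + (s : ℝ)) := by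
      rw [mul_add, mul_assoc]
    rw [this, mul_right_inj' hA, one_mul]
    exact_mod_cast Iff.rfl
  by_cases hs0 : s = 0
  · -- then `p ^ f d ^ n = p ^ e d ^ m`
    have h4 := (hiff n e).1 he
    have h5 := (hiff m f).1 hf
    rw [hs0, add_zero, one_mul] at h4 h5
    have h6 : (p : ℚ) ^ f * (d : ℚ) ^ n = (p : ℚ) ^ e * (d : ℚ) ^ m := by
      rw [h4, h5]; ring
    have h7 : p ^ f * d ^ n = p ^ e * d ^ m := by exact_mod_cast h6
    -- so `d` divides a power of `p`
    obtain ⟨k, rfl⟩ := Nat.exists_eq_add_of_lt hnm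
    have h8 : p ^ f = p ^ e * d ^ (k + 1) := by
      have h9 : d ^ n * p ^ f = d ^ n * (p ^ e * d ^ (k + 1)) := by
        rw [mul_comm, h7, show n + k + 1 = n + (k + 1) by ring, pow_add]
        ring
      exact Nat.eq_of_mul_eq_mul_left (by positivity) h9
    have h10 : d ∣ p ^ f := by
      rw [h8, pow_succ]
      exact ⟨p ^ e * d ^ k, by ring⟩
    obtain ⟨a, -, ha⟩ := (Nat.dvd_prime_pow hp).1 h10
    exact hpd a ha
  · refine hinf ((pillai_rat p d hp hd 1 r s one_ne_zero hr0 hs0).subset fun k hk => ?_)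
    obtain ⟨l, hl⟩ := hk
    exact ⟨l, (hiff k l).1 hl⟩

/-- a number `d ≥ 2` prime to `p` is not a power of `p` -/
theorem ne_pow_of_not_dvd (p d : ℕ) (hd : 2 ≤ d) (hpd : ¬ p ∣ d) (a : ℕ) : d ≠ p ^ a := by
  rintro rfl
  rcases Nat.eq_zero_or_pos a with rfl | ha
  · rw [pow_zero] at hd
    omega
  · exact hpd (dvd_pow_self p ha.ne')

end Pool.Agent.Helper581_DML
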