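import Mathlib
import Pool.Agent.Helper581_DML.Defs
import Pool.Agent.Helper581_DML.D2
import Pool.Agent.Helper581_DML.D3
import Pool.Agent.Helper581_DML.D5
import Pool.Agent.Helper581_DML.D6
import Pool.Agent.Helper581_DML.D8
import Pool.Agent.Helper581_DML.Pillai

/-!
Part D7 of the proof (helper581, MP_6ac234_nt): `escape_pair`, the main local theorem for two escaping orbits, from
the lemmas stated (proved in the imported files).

PLAIN PROOF. Let `ρ_f ≥ 1` be a bound for the norms of the coefficients of `f`; if `‖x‖ > ρ_f` then `‖f(x)‖ = ‖x‖^d`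
 (the leading term dominates, ultrametric). As `(x_n)` is unbounded, `‖x_n‖ > ρ_f` from some index on (once it holds it
 holds forever, `‖x_{n+1}‖ = ‖x_n‖^d`), so `‖x_n‖ → ∞`; the same for `y`.
 (1) By `hval` and positivity of norms we may divide `N1, N2` by their gcd: assume they are coprime. Choose
 naturals `b ≥ 1`, `a ≥ 0` with `N2 * b = N1 * a + 1`.
 (2) `bottcher` for `f` and `g`: `R_f, ψ` and `R_g, χ`; let `R = max R_f R_g`. Choose `n1` so large that for all `n ≥ n1`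
 `‖x_n‖ > R^(N1) * R`, `‖y_n‖ > R`, `‖y_n‖^N1 = ‖x_n‖^N2`, `‖x_{n+1}‖ = ‖x_n‖^d`. Get `X, Y` for `x_{n1}, y_{n1}`:
 `x_{n1+n} = X_n ∑' ψ_l (X_n⁻¹)^l`, `X_n = X^(d^n)`, and similarly `y_{n1+n}` with `Y_n = Y^(d^n)`.
 (3) Put `s = X^a / Y^b`, `z = Y^N1 / X^N2`: `‖z‖ = 1`, `s^N1 z^b = X⁻¹`, `s^N2 z^a = Y⁻¹` (use `N2 b = N1 a + 1`), so
 `‖s‖^N1 = ‖X‖⁻¹ < R^(-N1)` and `‖s‖ R < 1`, `‖s‖ < 1`. With `s_n = s^(d^n)`, `z_n = z^(d^n)`:
 `s_n^N1 z_n^b = X_n⁻¹`, `s_n^N2 z_n^a = Y_n⁻¹`. Apply `expansion` (with any `D1, D2` large): `E, C`. So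
 `h(x_{n1+n}, y_{n1+n}) = 0` iff `HasSum (fun k => (E k).eval z_n * s_n^k) 0`.
 (4) Some `E_k ≠ 0`: otherwise `h(x,y) = 0` for all `(x,y)` of the form in `expansion`; by `bottcher` (with `n = 0`) every
 pair `(x', y')` with `‖x'‖ = ‖x_{n1}‖`, `‖y'‖ = ‖y_{n1}‖` is of this form (take `X', Y'` for it and `s', z'` as in (3)),
 contradicting `exists_ne_zero_on_spheres`.
 (5) Apply `zeros_near` with `S = {n : h(x_{n1+n}, y_{n1+n}) = 0}` (infinite since only finitely many indices are lost).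
 FIRST CASE: `z_n = κ` on an infinite `S' ⊆ S` and `E_k(κ) = 0` for all `k`. Take `n < m` in `S'`, `k = m - n`; then
 `κ^(d^k) = z_n^(d^k) = z_m = κ`. For every `n ∈ S'`: `z_{n+k} = z_n^(d^k) = κ`, so all terms `(E_j).eval z_{n+k} * …`
 vanish and `h(x_{n1+n+k}, y_{n1+n+k}) = 0`. So `k` works.
 SECOND CASE: impossible. `log ‖s_n‖ = d^n log ‖s‖`, so `-log ‖z_n - κ‖ = β d^n + γ` on `S'`, with
 `β = -B log ‖s‖ > 0`; by `ratio_norm` `-log ‖z_n - κ‖ = A p^e` for large `n ∈ S'`; so `A p^e = β d^n + γ` for infinitely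
 many `n`, contradicting `pillai`.
-/

set_option autoImplicit false

namespace Pool.Agent.Helper581_DML

open Polynomial Filter Topology
open scoped Polynomial.Bivariate

theorem escape_pair_growth {L : Type*} [NontriviallyNormedField L] [IsUltrametricDist L]
    (f : L[X]) (hf : f.Monic) (d : ℕ) (hfd : f.natDegree = d) (hd2 : 2 ≤ d) :
    ∃ ρ : ℝ, 1 ≤ ρ ∧ ∀ x : L, ρ < ‖x‖ → ‖f.eval x‖ = ‖x‖ ^ d := by
  have hM0 : 0 ≤ ∑ i ∈ Finset.range d, ‖f.coeff i‖ :=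
    Finset.sum_nonneg fun i _ => norm_nonneg _
  refine ⟨1 + ∑ i ∈ Finset.range d, ‖f.coeff i‖, by linarith, fun x hx => ?_⟩
  set M := ∑ i ∈ Finset.range d, ‖f.coeff i‖ with hM
  have hx1 : 1 ≤ ‖x‖ := by linarith
  have hx0 : 0 < ‖x‖ := by linarith
  have h1 : f.eval x = (∑ i ∈ Finset.range d, f.coeff i * x ^ i) + x ^ d := by
    rw [eval_eq_sum_range, hfd, Finset.sum_range_succ]
    have : f.coeff d = 1 := by rw [← hfd]; exact hf.coeff_natDegree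
    rw [this, one_mul]
  have h2 : ‖∑ i ∈ Finset.range d, f.coeff i * x ^ i‖ ≤ M * ‖x‖ ^ (d - 1) := by
    refine (norm_sum_le _ _).trans ?_
    rw [hM, Finset.sum_mul]
    refine Finset.sum_le_sum fun i hi => ?_
    rw [norm_mul, norm_pow]
    refine mul_le_mul_of_nonneg_left ?_ (norm_nonneg _)
    exact pow_le_pow_right₀ hx1 (by have := Finset.mem_range.1 hi; omega)
  have h3 : ‖x ^ d‖ = ‖x‖ * ‖x‖ ^ (d - 1) := by
    rw [norm_pow, ← pow_succ']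
    congr 1; omega
  have h4 : ‖∑ i ∈ Finset.range d, f.coeff i * x ^ i‖ < ‖x ^ d‖ := by
    rw [h3]
    refine h2.trans_lt (mul_lt_mul_of_pos_right (by linarith) (pow_pos hx0 _))
  rw [h1, IsUltrametricDist.norm_add_eq_max_of_norm_ne_norm h4.ne, max_eq_right h4.le, norm_pow]

theorem escape_pair_orbit {L : Type*} [NontriviallyNormedField L] [IsUltrametricDist L]
    (f : L[X]) (hf : f.Monic) (d : ℕ) (hfd : f.natDegree = d) (hd2 : 2 ≤ d)
    (x : ℕ → L) (hx : ∀ n, x (n + 1) = f.eval (x n)) (hxu : ∀ B : ℝ, ∃ n, B < ‖x n‖) (B : ℝ) :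
    ∃ n, ∀ m ≥ n, B < ‖x m‖ := by
  obtain ⟨ρ, hρ1, hρ⟩ := escape_pair_growth f hf d hfd hd2
  obtain ⟨n, hn⟩ := hxu (max B ρ)
  refine ⟨n, fun m hm => ?_⟩
  obtain ⟨k, rfl⟩ := Nat.exists_eq_add_of_le hm
  have h1 : ∀ k, ‖x n‖ ≤ ‖x (n + k)‖ := by
    intro k
    induction k with
    | zero => exact le_rfl
    | succ k ih =>
      have h2 : ρ < ‖x (n + k)‖ := ((le_max_right B ρ).trans_lt hn).trans_le ih
      rw [← add_assoc, hx, hρ _ h2]
      exact ih.trans (le_self_pow₀ (hρ1.trans h2.le) (by omega))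
  exact ((le_max_left B ρ).trans_lt hn).trans_le (h1 k)

theorem escape_pair_iter {L : Type*} [NontriviallyNormedField L]
    (f : L[X]) (x : ℕ → L) (hx : ∀ n, x (n + 1) = f.eval (x n)) (m n : ℕ) :
    (fun z => f.eval z)^[n] (x m) = x (m + n) := by
  induction n with
  | zero => rfl
  | succ n ih => rw [Function.iterate_succ_apply', ih, ← add_assoc, hx]

theorem escape_pair_param {L : Type*} [NontriviallyNormedField L] (U V : L) (R : ℝ) (hR : 1 ≤ R)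
    (N1 N2 a b : ℕ) (hN1 : 0 < N1) (hab : N2 * b = N1 * a + 1) (hX : R ^ N1 < ‖U‖)
    (hX0 : U ≠ 0) (hY0 : V ≠ 0) (hXY : ‖V‖ ^ N1 = ‖U‖ ^ N2) :
    U ^ a / V ^ b ≠ 0 ∧ ‖V ^ N1 / U ^ N2‖ = 1 ∧ ‖U ^ a / V ^ b‖ * R < 1 ∧
      (U ^ a / V ^ b) ^ N1 * (V ^ N1 / U ^ N2) ^ b = U⁻¹ ∧
      (U ^ a / V ^ b) ^ N2 * (V ^ N1 / U ^ N2) ^ a = V⁻¹ := by
  have hs0 : U ^ a / V ^ b ≠ 0 := div_ne_zero (pow_ne_zero _ hX0) (pow_ne_zero _ hY0)
  have hz1 : ‖V ^ N1 / U ^ N2‖ = 1 := by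
    rw [norm_div, norm_pow, norm_pow, hXY]
    exact div_self (pow_ne_zero _ (norm_ne_zero_iff.2 hX0))
  have h1 : (U ^ a / V ^ b) ^ N1 * (V ^ N1 / U ^ N2) ^ b = U⁻¹ := by
    rw [div_pow, div_pow, ← pow_mul, ← pow_mul, ← pow_mul, ← pow_mul, div_mul_div_comm,
      inv_eq_one_div, div_eq_div_iff (mul_ne_zero (pow_ne_zero _ hY0) (pow_ne_zero _ hX0)) hX0,
      hab]
    ring
  have h2 : (U ^ a / V ^ b) ^ N2 * (V ^ N1 / U ^ N2) ^ a = V⁻¹ := by
    rw [div_pow, div_pow, ← pow_mul, ← pow_mul, ← pow_mul, ← pow_mul, div_mul_div_comm,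
      inv_eq_one_div, div_eq_div_iff (mul_ne_zero (pow_ne_zero _ hY0) (pow_ne_zero _ hX0)) hY0,
      mul_comm b N2, hab]
    ring
  refine ⟨hs0, hz1, ?_, h1, h2⟩
  have h3 : ‖U ^ a / V ^ b‖ ^ N1 = ‖U‖⁻¹ := by
    have := congrArg norm h1
    rw [norm_mul, norm_pow, norm_pow, hz1, one_pow, mul_one, norm_inv] at this
    exact this
  have hXn : 0 < ‖U‖ := norm_pos_iff.2 hX0
  have h4 : (‖U ^ a / V ^ b‖ * R) ^ N1 < 1 := by
    rw [mul_pow, h3, inv_mul_eq_div, div_lt_one hXn]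
    exact hX
  exact (pow_lt_one_iff_of_nonneg (mul_nonneg (norm_nonneg _) (by linarith)) hN1.ne').1 h4

theorem escape_pair_coprime (N1 N2 : ℕ) (hN1 : 0 < N1) (hN2 : 0 < N2) (h : Nat.Coprime N2 N1) :
    ∃ a b : ℕ, N2 * b = N1 * a + 1 := by
  rcases Nat.lt_or_ge 1 N1 with h1 | h1
  · obtain ⟨m, hm⟩ := Nat.exists_mul_mod_eq_one_of_coprime h h1
    refine ⟨N2 * m / N1, m, ?_⟩
    have := Nat.div_add_mod (N2 * m) N1
    omega
  · have : N1 = 1 := by omega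
    subst this
    exact ⟨N2 - 1, 1, by omega⟩

theorem escape_pair {p : ℕ} [Fact p.Prime] {L : Type*} [NontriviallyNormedField L]
    [IsUltrametricDist L] [CompleteSpace L] [CharP L p] (f g : L[X]) (hf : f.Monic) (hg : g.Monic)
    (d : ℕ) (hfd : f.natDegree = d) (hgd : g.natDegree = d) (hd2 : 2 ≤ d) (hpd : ¬ p ∣ d)
    (x y : ℕ → L) (hx : ∀ n, x (n + 1) = f.eval (x n)) (hy : ∀ n, y (n + 1) = g.eval (y n))
    (hxu : ∀ B : ℝ, ∃ n, B < ‖x n‖) (hyu : ∀ B : ℝ, ∃ n, B < ‖y n‖)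
    (hval : ∃ N1 N2 : ℕ, 0 < N1 ∧ 0 < N2 ∧ ∀ᶠ n in atTop, ‖y n‖ ^ N1 = ‖x n‖ ^ N2)
    (h : L[X][Y]) (hh : h ≠ 0) (hinf : {n | evalEval (x n) (y n) h = 0}.Infinite) :
    ∃ k, 0 < k ∧ {n | evalEval (x n) (y n) h = 0 ∧
      evalEval (x (n + k)) (y (n + k)) h = 0}.Infinite := by
  classical
  -- coprime exponents
  obtain ⟨N1, N2, hN1, hN2, hcop, hv⟩ : ∃ N1 N2 : ℕ, 0 < N1 ∧ 0 < N2 ∧ Nat.Coprime N2 N1 ∧
      ∀ᶠ n in atTop, ‖y n‖ ^ N1 = ‖x n‖ ^ N2 := by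
    obtain ⟨M1, M2, hM1, hM2, hv⟩ := hval
    have hg : 0 < Nat.gcd M1 M2 := Nat.gcd_pos_of_pos_left _ hM1
    obtain ⟨N1, N2, hc, hN1, hN2⟩ := Nat.exists_coprime M1 M2
    generalize Nat.gcd M1 M2 = G at hg hN1 hN2
    subst hN1 hN2
    refine ⟨N1, N2, Nat.pos_of_mul_pos_right hM1, Nat.pos_of_mul_pos_right hM2, hc.symm, ?_⟩
    filter_upwards [hv] with n hn
    rw [pow_mul, pow_mul] at hn
    exact (pow_left_inj₀ (by positivity) (by positivity) hg.ne').1 hn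
  obtain ⟨a, b, hab⟩ := escape_pair_coprime N1 N2 hN1 hN2 hcop
  obtain ⟨Rf, ψ, hRf1, hψ0, hψ, hψx⟩ := bottcher (p := p) f hf d hfd hd2 hpd
  obtain ⟨Rg, χ, hRg1, hχ0, hχ, hχy⟩ := bottcher (p := p) g hg d hgd hd2 hpd
  set R := max Rf Rg with hRdef
  have hR1 : 1 ≤ R := hRf1.trans (le_max_left _ _)
  have hψR : ∀ l, ‖ψ l‖ ≤ R ^ l := fun l =>
    (hψ l).trans (pow_le_pow_left₀ (by linarith) (le_max_left _ _) l)
  have hχR : ∀ l, ‖χ l‖ ≤ R ^ l := fun l =>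
    (hχ l).trans (pow_le_pow_left₀ (by linarith) (le_max_right _ _) l)
  -- the starting index
  obtain ⟨n1, hn1⟩ : ∃ n1, ∀ n ≥ n1, R ^ N1 < ‖x n‖ ∧ R < ‖x n‖ ∧ R < ‖y n‖ ∧
      ‖y n‖ ^ N1 = ‖x n‖ ^ N2 := by
    obtain ⟨m1, hm1⟩ := escape_pair_orbit f hf d hfd hd2 x hx hxu (R ^ N1)
    obtain ⟨m2, hm2⟩ := escape_pair_orbit f hf d hfd hd2 x hx hxu R
    obtain ⟨m3, hm3⟩ := escape_pair_orbit g hg d hgd hd2 y hy hyu R
    obtain ⟨m4, hm4⟩ := eventually_atTop.1 hv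
    refine ⟨max (max m1 m2) (max m3 m4), fun n hn => ⟨hm1 n ?_, hm2 n ?_, hm3 n ?_, hm4 n ?_⟩⟩
    all_goals
      simp only [ge_iff_le, max_le_iff] at hn
      omega
  -- the expansion
  obtain ⟨D1, hD1⟩ : ∃ D1 : ℕ, ∀ j, (h.coeff j).natDegree ≤ D1 := by
    refine ⟨(Finset.range (h.natDegree + 1)).sup fun j => (h.coeff j).natDegree, fun j => ?_⟩
    by_cases hj : j ∈ Finset.range (h.natDegree + 1)
    · exact Finset.le_sup (f := fun j => (h.coeff j).natDegree) hj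
    · have : h.coeff j = 0 := by
        refine coeff_eq_zero_of_natDegree_lt ?_
        simp only [Finset.mem_range] at hj
        omega
      rw [this, natDegree_zero]
      exact Nat.zero_le _
  obtain ⟨E, C, hEC, hE⟩ := expansion ψ χ R hR1 hψR hχR h D1 h.natDegree hD1 le_rfl N1 N2 b a
    hN1 hN2
  have key : ∀ U V : L, R ^ N1 < ‖U‖ → U ≠ 0 → V ≠ 0 → ‖V‖ ^ N1 = ‖U‖ ^ N2 → ∀ (n : ℕ) (x' y' : L),
      x' = U ^ d ^ n * ∑' l, ψ l * ((U ^ d ^ n)⁻¹) ^ l →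
      y' = V ^ d ^ n * ∑' l, χ l * ((V ^ d ^ n)⁻¹) ^ l →
      ∃ c : L, c ≠ 0 ∧ HasSum (fun k => (E k).eval ((V ^ N1 / U ^ N2) ^ d ^ n) *
        ((U ^ a / V ^ b) ^ d ^ n) ^ k) (c * evalEval x' y' h) := by
    intro U V hX hX0 hY0 hXY n x' y' hx' hy'
    obtain ⟨hs0, hz1, hsR, h1, h2⟩ := escape_pair_param U V R hR1 N1 N2 a b hN1 hab hX hX0 hY0 hXY
    generalize U ^ a / V ^ b = s at hs0 hsR h1 h2 ⊢
    generalize V ^ N1 / U ^ N2 = z at hz1 h1 h2 ⊢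
    have hs1 : ‖s‖ ≤ 1 := by
      by_contra hc
      push Not at hc
      have : 1 < ‖s‖ * R := by nlinarith
      linarith
    have hd0 : d ^ n ≠ 0 := pow_ne_zero _ (by omega)
    have h3 : (s ^ d ^ n) ^ N1 * (z ^ d ^ n) ^ b = (U ^ d ^ n)⁻¹ := by
      rw [← inv_pow, ← h1, mul_pow]
      congr 1
      · rw [← pow_mul, ← pow_mul, mul_comm]
      · rw [← pow_mul, ← pow_mul, mul_comm]
    have h4 : (s ^ d ^ n) ^ N2 * (z ^ d ^ n) ^ a = (V ^ d ^ n)⁻¹ := by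
      rw [← inv_pow, ← h2, mul_pow]
      congr 1
      · rw [← pow_mul, ← pow_mul, mul_comm]
      · rw [← pow_mul, ← pow_mul, mul_comm]
    have h5 := hE (s ^ d ^ n) (z ^ d ^ n) (pow_ne_zero _ hs0) (by rw [norm_pow, hz1, one_pow]) (by
      rw [norm_pow]
      refine lt_of_le_of_lt ?_ hsR
      refine mul_le_mul_of_nonneg_right ?_ (by linarith)
      exact pow_le_of_le_one (norm_nonneg _) hs1 hd0)
    rw [h3, h4, inv_inv, inv_inv, ← hx', ← hy'] at h5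
    exact ⟨_, mul_ne_zero (pow_ne_zero _ (inv_ne_zero (pow_ne_zero _ hX0)))
      (pow_ne_zero _ (inv_ne_zero (pow_ne_zero _ hY0))), h5⟩
  -- Boettcher coordinates of the base points
  have hR0 : 0 < R := by linarith
  have hbase : ∀ x' y' : L, ‖x'‖ = ‖x n1‖ → ‖y'‖ = ‖y n1‖ → ∃ U V : L, R ^ N1 < ‖U‖ ∧ U ≠ 0 ∧
      V ≠ 0 ∧ ‖V‖ ^ N1 = ‖U‖ ^ N2 ∧
      (∀ n, (fun z => f.eval z)^[n] x' = U ^ d ^ n * ∑' l, ψ l * ((U ^ d ^ n)⁻¹) ^ l) ∧
      (∀ n, (fun z => g.eval z)^[n] y' = V ^ d ^ n * ∑' l, χ l * ((V ^ d ^ n)⁻¹) ^ l) := by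
    intro x' y' hx' hy'
    obtain ⟨h1, h2, h3, h4⟩ := hn1 n1 le_rfl
    obtain ⟨U, hX, hXn⟩ := hψx x' (by rw [hx']; exact (le_max_left Rf Rg).trans_lt h2)
    obtain ⟨V, hY, hYn⟩ := hχy y' (by rw [hy']; exact (le_max_right Rf Rg).trans_lt h3)
    refine ⟨U, V, by rw [hX, hx']; exact h1, ?_, ?_, ?_, hXn, hYn⟩
    · rw [← norm_pos_iff, hX, hx']; linarith
    · rw [← norm_pos_iff, hY, hy']; linarith
    · rw [hX, hY, hx', hy']; exact h4
  -- some coefficient does not vanish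
  have hne : ∃ k, E k ≠ 0 := by
    by_contra hc
    push Not at hc
    obtain ⟨h1, h2, h3, h4⟩ := hn1 n1 le_rfl
    obtain ⟨x', y', hx', hy', hxy⟩ := exists_ne_zero_on_spheres h hh (x n1) (y n1)
      (norm_pos_iff.1 (by linarith)) (norm_pos_iff.1 (by linarith))
    obtain ⟨U, V, hX, hX0, hY0, hXY, hXn, hYn⟩ := hbase x' y' hx' hy'
    obtain ⟨c, hc0, hc1⟩ := key U V hX hX0 hY0 hXY 0 x' y' (hXn 0) (hYn 0)
    have h5 : HasSum (fun _ : ℕ => (0 : L)) (c * evalEval x' y' h) := by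
      simpa [hc] using hc1
    have h6 := h5.unique hasSum_zero
    exact (mul_ne_zero hc0 hxy) h6
  obtain ⟨U, V, hX, hX0, hY0, hXY, hXn, hYn⟩ := hbase (x n1) (y n1) rfl rfl
  obtain ⟨hs0, hz1, hsR, -, -⟩ := escape_pair_param U V R hR1 N1 N2 a b hN1 hab hX hX0 hY0 hXY
  have key2 : ∀ n, ∃ c : L, c ≠ 0 ∧ HasSum (fun k => (E k).eval ((V ^ N1 / U ^ N2) ^ d ^ n) *
        ((U ^ a / V ^ b) ^ d ^ n) ^ k) (c * evalEval (x (n1 + n)) (y (n1 + n)) h) := by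
    intro n
    refine key U V hX hX0 hY0 hXY n _ _ ?_ ?_
    · rw [← hXn n, escape_pair_iter f x hx]
    · rw [← hYn n, escape_pair_iter g y hy]
  clear key
  generalize U ^ a / V ^ b = s at hs0 hsR key2
  generalize V ^ N1 / U ^ N2 = z at hz1 key2
  have hs1 : ‖s‖ < 1 := by
    by_contra hc
    push Not at hc
    have : 1 ≤ ‖s‖ * R := by nlinarith
    linarith
  have hd1 : 1 < d := by omega
  set S : Set ℕ := {n | evalEval (x (n1 + n)) (y (n1 + n)) h = 0} with hS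
  have hSinf : S.Infinite := by
    intro hfin
    apply hinf
    refine ((Set.finite_lt_nat n1).union (hfin.image fun n => n1 + n)).subset ?_
    intro n hn
    rcases Nat.lt_or_ge n n1 with h1 | h1
    · exact Or.inl h1
    · obtain ⟨k, rfl⟩ := Nat.exists_eq_add_of_le h1
      exact Or.inr ⟨k, hn, rfl⟩
  have hs_lim : Tendsto (fun n : ℕ => s ^ d ^ n) atTop (𝓝 0) :=
    (tendsto_pow_atTop_nhds_zero_of_norm_lt_one hs1).comp
      (tendsto_pow_atTop_atTop_of_one_lt hd1)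
  obtain ⟨κ, S', hS'S, hS'inf, hlim, hcase⟩ := zeros_near E C R hR1 hEC hne (fun n => s ^ d ^ n)
    (fun n => z ^ d ^ n) hs_lim (fun n => pow_ne_zero _ hs0)
    (fun n => by rw [norm_pow, hz1, one_pow]) S hSinf (by
      intro n hn
      obtain ⟨c, hc0, hc1⟩ := key2 n
      have hn' : evalEval (x (n1 + n)) (y (n1 + n)) h = 0 := hn
      rw [hn', mul_zero] at hc1
      exact hc1)
  rcases hcase with ⟨hκ, hEκ⟩ | ⟨hκ, B, B', hB, hlog⟩
  · -- first case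
    obtain ⟨n, hn⟩ := hS'inf.nonempty
    obtain ⟨m, hm, hnm⟩ := hS'inf.exists_gt n
    obtain ⟨k, rfl⟩ := Nat.exists_eq_add_of_lt hnm
    have h1 : κ ^ d ^ (k + 1) = κ := by
      have h2 := hκ n hn
      have h3 := hκ _ hm
      rw [← h2, ← pow_mul, ← pow_add]
      rw [h2, ← h3]
      rfl
    refine ⟨k + 1, by omega, ?_⟩
    refine (hS'inf.image (f := fun n => n1 + n) (by
      intro a _ b _ hab'
      simpa using hab')).mono ?_
    rintro _ ⟨j, hj, rfl⟩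
    refine ⟨hS'S hj, ?_⟩
    have h4 : z ^ d ^ (j + (k + 1)) = κ := by
      rw [pow_add, pow_mul]
      have h5 := hκ j hj
      rw [h5, h1]
    obtain ⟨c, hc0, hc1⟩ := key2 (j + (k + 1))
    rw [h4] at hc1
    simp only [hEκ, zero_mul] at hc1
    have h6 := hc1.unique hasSum_zero
    have h7 := (mul_eq_zero.1 h6).resolve_left hc0
    show evalEval (x (n1 + j + (k + 1))) (y (n1 + j + (k + 1))) h = 0
    rw [add_assoc n1 j (k + 1)]
    exact h7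
  · -- second case
    exfalso
    obtain ⟨A, hA, hev⟩ := ratio_norm (p := p) d hd2 z hz1 κ S' hS'inf hκ hlim
    have hlogs : Real.log ‖s‖ < 0 := Real.log_neg (norm_pos_iff.2 hs0) hs1
    have hfin := pillai p d Fact.out hd2 (ne_pow_of_not_dvd p d hd2 hpd) A (-(B * Real.log ‖s‖)) (-B') hA.ne'
      (by
        have : B * Real.log ‖s‖ < 0 := mul_neg_of_pos_of_neg hB hlogs
        intro h0
        linarith)
    rw [Filter.eventually_inf_principal, eventually_atTop] at hev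
    obtain ⟨n0, hn0⟩ := hev
    apply hS'inf
    refine ((Set.finite_lt_nat n0).union hfin).subset ?_
    intro n hn
    rcases Nat.lt_or_ge n n0 with h1 | h1
    · exact Or.inl h1
    · refine Or.inr ?_
      obtain ⟨e, he⟩ := hn0 n h1 hn
      refine ⟨e, ?_⟩
      have h2 := hlog n hn
      rw [← he, h2, norm_pow, Real.log_pow]
      push_cast
      ring

end Pool.Agent.Helper581_DML
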