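import Mathlib
import Pool.Agent.Helper581_DML.Defs

set_option autoImplicit false

namespace Pool.Agent.Helper581_DML

theorem pow_indep {p : ℕ} [Fact p.Prime] {N M : Type*} [Field N] [Field M] [Algebra N M]
    [CharP N p] [Algebra.IsSeparable N M] (t : N) (ht : ∀ u : N, u ^ p ≠ t) (a : Fin p → M)
    (h : ∑ i, a i ^ p * algebraMap N M t ^ (i : ℕ) = 0) : ∀ i, a i = 0 := by
  classical
  have hp : p.Prime := Fact.out
  haveI : CharP M p := charP_of_injective_algebraMap (algebraMap N M).injective p
  haveI : ExpChar N p := ExpChar.prime hp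
  haveI : ExpChar M p := ExpChar.prime hp
  -- step 1
  have h1 : ∀ u : M, u ^ p ≠ algebraMap N M t := by
    intro u hu
    have hmem : u ∈ perfectClosure N M := by
      rw [mem_perfectClosure_iff_pow_mem p]
      exact ⟨1, t, by rw [pow_one, hu]⟩
    rw [perfectClosure.eq_bot_of_isSeparable] at hmem
    obtain ⟨v, hv⟩ := IntermediateField.mem_bot.1 hmem
    apply ht v
    apply (algebraMap N M).injective
    rw [map_pow, hv, hu]
  set T : M := algebraMap N M t with hT
  let K := (frobenius M p).fieldRange
  let c : K := ⟨T ^ p, ⟨T, by simp [frobenius_def]⟩⟩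
  have h2 : ∀ b : K, b ^ p ≠ c := by
    intro b hb
    have hb' : (b : M) ^ p = T ^ p := by
      have := congrArg Subtype.val hb
      simpa [c] using this
    have hbT : (b : M) = T := by
      have h3 : frobenius M p (b : M) = frobenius M p T := by simpa [frobenius_def] using hb'
      exact frobenius_inj M p h3
    obtain ⟨u, hu⟩ := b.2
    apply h1 u
    rw [← hbT, ← hu, frobenius_def]
  have hirr : Irreducible (Polynomial.X ^ p - Polynomial.C c : Polynomial K) :=
    X_pow_sub_C_irreducible_of_prime hp h2
  have hmonic : (Polynomial.X ^ p - Polynomial.C c : Polynomial K).Monic :=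
    Polynomial.monic_X_pow_sub_C c hp.ne_zero
  have hroot : Polynomial.aeval T (Polynomial.X ^ p - Polynomial.C c : Polynomial K) = 0 := by
    simp only [map_sub, map_pow, Polynomial.aeval_X, Polynomial.aeval_C]
    rw [sub_eq_zero]
    rfl
  have hmin : (Polynomial.X ^ p - Polynomial.C c : Polynomial K) = minpoly K T :=
    minpoly.eq_of_irreducible_of_monic hirr hroot hmonic
  let d : Fin p → K := fun i => ⟨a i ^ p, ⟨a i, by simp [frobenius_def]⟩⟩
  let Q : Polynomial K := ∑ i : Fin p, Polynomial.C (d i) * Polynomial.X ^ (i : ℕ)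
  have hQroot : Polynomial.aeval T Q = 0 := by
    simp only [Q, map_sum, map_mul, map_pow, Polynomial.aeval_X, Polynomial.aeval_C]
    rw [← h]
    rfl
  have hdvd : minpoly K T ∣ Q := minpoly.dvd K T hQroot
  have hQdeg : Q.degree < p := by
    refine lt_of_le_of_lt (Polynomial.degree_sum_le _ _) ?_
    rw [Finset.sup_lt_iff (by exact WithBot.bot_lt_coe p)]
    intro i _
    refine lt_of_le_of_lt (Polynomial.degree_C_mul_X_pow_le _ _) ?_
    exact_mod_cast i.2
  have hQ0 : Q = 0 := by
    refine Polynomial.eq_zero_of_dvd_of_degree_lt hdvd ?_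
    rw [← hmin, Polynomial.degree_X_pow_sub_C hp.pos]
    exact hQdeg
  intro i
  have hcoef : Q.coeff (i : ℕ) = d i := by
    simp only [Q, Polynomial.finset_sum_coeff, Polynomial.coeff_C_mul, Polynomial.coeff_X_pow]
    rw [Finset.sum_eq_single i]
    · simp
    · intro j _ hj
      rw [if_neg (fun hh => hj (Fin.ext hh.symm)), mul_zero]
    · intro hh
      exact absurd (Finset.mem_univ _) hh
  rw [hQ0, Polynomial.coeff_zero] at hcoef
  have : a i ^ p = 0 := by
    have := congrArg Subtype.val hcoef
    simpa [d] using this.symm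
  exact pow_eq_zero_iff hp.ne_zero |>.1 this

end Pool.Agent.Helper581_DML
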