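import Mathlib
import Pool.Agent.Helper581_DML.Defs

/-!
Part E9 of the proof (helper581, MP_6ac234_nt): `ext_res` and `ext_val`: residues and values in an ultrametric normed algebraic extension of
the field `F` of formal Laurent series in `1/t` over an algebraically closed field `k`.

PLAIN PROOF. `F` is complete, so the norm of `E` is the spectral norm: `NormedAlgebra.norm_eq_spectralNorm` (in
 `Mathlib.Analysis.Normed.Unbundled.SpectralNorm`).
 `ext_val`: for `x ≠ 0` in `E` with minimal polynomial `P` over `F` of degree `n`, `‖x‖ = ‖P.coeff 0‖^(1/n)`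
 (`spectralNorm_eq_norm_coeff_zero_rpow`), so `‖x‖^n = ‖t‖^m`, `m ∈ ℤ` (`LF.val`). The degrees `n ≤ finrank F E` divide `M = (finrank F E)!`.
 `ext_res`: let `‖x‖ ≤ 1`, `P` as before. All coefficients of `P` have norm ≤ 1 (`‖P.coeff i‖^(1/(n-i)) ≤ spectralNorm x ≤ 1`,
 `spectralValue_le_one_iff`). By `LF.res` there are `c_i ∈ k` with `‖P.coeff i - c_i‖ < 1`, `c_n = 1`. Let `Q = ∑ c_i X^i ∈ k[X]`, monic of
 degree `n ≥ 1`. Then `‖Q(x)‖ = ‖Q(x) - P(x)‖ < 1`. As `k` is algebraically closed `Q = ∏ (X - r_l)`, so `∏ ‖x - r_l‖ < 1` and some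
 `‖x - r_l‖ < 1`.
-/

set_option autoImplicit false

namespace Pool.Agent.Helper581_DML

open Polynomial


theorem e9_sum_lt {E ι : Type*} [NormedField E] [IsUltrametricDist E] (s : Finset ι) (f : ι → E)
    (h : ∀ i ∈ s, ‖f i‖ < 1) : ‖∑ i ∈ s, f i‖ < 1 := by
  classical
  induction s using Finset.induction_on with
  | empty => simp
  | insert a s ha ih =>
    rw [Finset.sum_insert ha]
    refine (IsUltrametricDist.norm_add_le_max _ _).trans_lt (max_lt ?_ ?_)
    · exact h a (Finset.mem_insert_self a s)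
    · exact ih (fun i hi => h i (Finset.mem_insert_of_mem hi))

theorem e9_prod_ge {E k : Type*} [NormedField E] (f : k → E) (s : Multiset k)
    (h : ∀ r ∈ s, 1 ≤ ‖f r‖) : 1 ≤ ‖(s.map f).prod‖ := by
  induction s using Multiset.induction_on with
  | empty => simp
  | cons a s ih =>
    rw [Multiset.map_cons, Multiset.prod_cons, norm_mul]
    have h1 := h a (Multiset.mem_cons_self a s)
    have h2 := ih (fun r hr => h r (Multiset.mem_cons_of_mem hr))
    nlinarith [norm_nonneg (f a)]

theorem ext_res {p : ℕ} [Fact p.Prime] {k F E : Type} [Field k] [IsAlgClosed k] [CharP k p]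
    [NontriviallyNormedField F] [IsUltrametricDist F] [CompleteSpace F] [Algebra k F] (t : F)
    (hF : LF p k F t) [NontriviallyNormedField E] [IsUltrametricDist E] [NormedAlgebra F E]
    [Algebra.IsAlgebraic F E] (x : E) (hx : ‖x‖ ≤ 1) :
    ∃ c : k, ‖x - algebraMap F E (algebraMap k F c)‖ < 1 := by
  have hint : IsIntegral F x := (Algebra.IsAlgebraic.isAlgebraic x).isIntegral
  have hmon : (minpoly F x).Monic := minpoly.monic hint
  have hpos : 0 < (minpoly F x).natDegree := minpoly.natDegree_pos hint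
  have hcoef : ∀ i, ‖(minpoly F x).coeff i‖ ≤ 1 := by
    rw [← spectralValue_le_one_iff hmon]
    rw [NormedAlgebra.norm_eq_spectralNorm F x] at hx
    exact hx
  obtain ⟨n, hn⟩ : ∃ n, n = (minpoly F x).natDegree := ⟨_, rfl⟩
  choose c hc using fun i => hF.res _ (hcoef i)
  let φ : k →+* E := (algebraMap F E).comp (algebraMap k F)
  let Q0 : k[X] := ∑ i ∈ Finset.range n, C (c i) * X ^ i
  have hQ0 : Q0.degree < n := by
    refine lt_of_le_of_lt (degree_sum_le _ _) ((Finset.sup_lt_iff (WithBot.bot_lt_coe n)).2 ?_)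
    intro i hi
    exact lt_of_le_of_lt (degree_C_mul_X_pow_le i (c i))
      (WithBot.coe_lt_coe.2 (Finset.mem_range.1 hi))
  have hQmon : (X ^ n + Q0).Monic := monic_X_pow_add hQ0
  have hQx : ‖eval₂ φ x (X ^ n + Q0)‖ < 1 := by
    have h1 : eval₂ φ x (X ^ n + Q0) = x ^ n + ∑ i ∈ Finset.range n, φ (c i) * x ^ i := by
      rw [eval₂_add, eval₂_X_pow, eval₂_finsetSum]
      congr 1
      apply Finset.sum_congr rfl
      intro i _
      rw [eval₂_mul, eval₂_C, eval₂_X_pow]
    have h2 : x ^ n + ∑ i ∈ Finset.range n, algebraMap F E ((minpoly F x).coeff i) * x ^ i = 0 := by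
      have h3 := minpoly.aeval F x
      rw [aeval_eq_sum_range, Finset.sum_range_succ, hmon.coeff_natDegree, one_smul, ← hn] at h3
      rw [← h3, add_comm]
      congr 1
      apply Finset.sum_congr rfl
      intro i _
      rw [Algebra.smul_def]
    have h3 : eval₂ φ x (X ^ n + Q0) =
        ∑ i ∈ Finset.range n, (φ (c i) - algebraMap F E ((minpoly F x).coeff i)) * x ^ i := by
      rw [h1]
      have h4 : x ^ n = -∑ i ∈ Finset.range n, algebraMap F E ((minpoly F x).coeff i) * x ^ i :=
        eq_neg_of_add_eq_zero_left h2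
      rw [h4, neg_add_eq_sub, ← Finset.sum_sub_distrib]
      apply Finset.sum_congr rfl
      intro i _
      ring
    rw [h3]
    apply e9_sum_lt
    intro i _
    rw [norm_mul, norm_pow]
    have h5 : ‖φ (c i) - algebraMap F E ((minpoly F x).coeff i)‖ < 1 := by
      have h6 : φ (c i) - algebraMap F E ((minpoly F x).coeff i) =
          -algebraMap F E ((minpoly F x).coeff i - algebraMap k F (c i)) := by
        rw [map_sub, neg_sub]
        rfl
      rw [h6, norm_neg, norm_algebraMap']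
      exact hc i
    have h6 : ‖x‖ ^ i ≤ 1 := pow_le_one₀ (norm_nonneg x) hx
    calc ‖φ (c i) - algebraMap F E ((minpoly F x).coeff i)‖ * ‖x‖ ^ i
        ≤ ‖φ (c i) - algebraMap F E ((minpoly F x).coeff i)‖ * 1 :=
          mul_le_mul_of_nonneg_left h6 (norm_nonneg _)
      _ < 1 := by rwa [mul_one]
  have hsplit : (X ^ n + Q0) = ((X ^ n + Q0).roots.map fun r => X - C r).prod :=
    (IsAlgClosed.splits (X ^ n + Q0)).eq_prod_roots_of_monic hQmon
  by_contra hcon
  have hcon' : ∀ r : k, 1 ≤ ‖x - φ r‖ := by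
    intro r
    by_contra h
    exact hcon ⟨r, not_le.1 h⟩
  have h7 : eval₂ φ x (X ^ n + Q0) = ((X ^ n + Q0).roots.map fun r => x - φ r).prod := by
    conv_lhs => rw [hsplit]
    rw [← coe_eval₂RingHom, map_multiset_prod, Multiset.map_map]
    congr 1
    apply Multiset.map_congr rfl
    intro r _
    simp
  rw [h7] at hQx
  exact absurd hQx (not_lt.2 (e9_prod_ge _ _ fun r _ => hcon' r))

theorem ext_val {p : ℕ} [Fact p.Prime] {k F E : Type} [Field k] [IsAlgClosed k] [CharP k p]
    [NontriviallyNormedField F] [IsUltrametricDist F] [CompleteSpace F] [Algebra k F] (t : F)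
    (hF : LF p k F t) [NontriviallyNormedField E] [IsUltrametricDist E] [NormedAlgebra F E]
    [FiniteDimensional F E] :
    ∃ M : ℕ, 0 < M ∧ ∀ x : E, x ≠ 0 → ∃ m : ℤ, ‖x‖ ^ M = ‖t‖ ^ m := by
  refine ⟨(Module.finrank F E).factorial, Nat.factorial_pos _, ?_⟩
  intro x hx
  have hint : IsIntegral F x := (Algebra.IsAlgebraic.isAlgebraic x).isIntegral
  have hpos : 0 < (minpoly F x).natDegree := minpoly.natDegree_pos hint
  have h0 : (minpoly F x).coeff 0 ≠ 0 := minpoly.coeff_zero_ne_zero hint hx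
  obtain ⟨m, hm⟩ := hF.val _ h0
  have h1 : ‖x‖ = ‖(minpoly F x).coeff 0‖ ^ (1 / (minpoly F x).natDegree : ℝ) := by
    rw [NormedAlgebra.norm_eq_spectralNorm F x]
    exact spectralNorm.spectralNorm_eq_norm_coeff_zero_rpow F E x
  have h2 : ‖x‖ ^ (minpoly F x).natDegree = ‖t‖ ^ m := by
    rw [h1, ← Real.rpow_natCast, ← Real.rpow_mul (norm_nonneg _), one_div,
      inv_mul_cancel₀ (by exact_mod_cast hpos.ne'), Real.rpow_one, hm]
  obtain ⟨j, hj⟩ := Nat.dvd_factorial hpos (minpoly.natDegree_le (A := F) x)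
  refine ⟨m * j, ?_⟩
  rw [hj, pow_mul, h2, zpow_mul, zpow_natCast]

end Pool.Agent.Helper581_DML
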