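import Mathlib
import Pool.Agent.Helper581_DML.Defs
import Pool.Agent.Helper581_DML.E9

/-!
Part E10 of the proof (helper581, MP_6ac234_nt): `val_pow_sum`: the size of `∑ a_i l_i^(p^e)` with fixed `a_i` and bounded `l_i`.
`ext_res` and `ext_val` are given. 
PLAIN PROOF. Constants of `k` (through `k → F → E`) have norm one if nonzero (`LF.norm_poly` for constants). WLOG `C ≥ 1`.
 (1) The set of the values `‖x‖`, `x ∈ E`, with `1 ≤ ‖x‖ ≤ C` is finite (`ext_val`: `‖x‖^M` is an integral power of `‖t‖ > 1` in `[1, C^M]`). Let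
 `g_1, …, g_s` be these values and choose `π_r ∈ E` with `‖π_r‖ = g_r`.
 (2) Every `l ∈ E` with `‖l‖ ≤ C` is `∑_r c_r π_r + ρ` with `c_r ∈ k`, `‖ρ‖ < 1`: if `‖l‖ < 1` take `ρ = l`; else `‖l‖ = g_r`, by `ext_res` for
 `l/π_r` there is `c ∈ k` with `‖l - c π_r‖ < g_r`; continue (finitely many values; induction on the number of values ≤ `‖l‖`).
 (3) Let `V` be the `k`-span of `a_1, …, a_n` in `E` (`n` = number of the `a_i`). The nonzero elements of `V` have finitely many values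
 (at most `dim V`: nonzero elements with pairwise distinct norms are linearly independent over `k` because constants have norm one).
 Let `W` be this finite set of positive values, `w⁺ ≥ 1`, `0 < w⁻ ≤ 1` bounds with `w⁻ ≤ w ≤ w⁺` for `w ∈ W`.
 (4) With `q = p^e` and `l_i = ∑_r c_ir π_r + ρ_i`: `l_i^q = ∑_r c_ir^q π_r^q + ρ_i^q` (characteristic `p`), so
 `∑_i a_i l_i^q = ∑_r π_r^q v_r + ρ`, `v_r = ∑_i c_ir^q a_i ∈ V`, `‖ρ‖ ≤ A := max ‖a_i‖`. For `q` large the numbers `g_r^q w`, `w ∈ W`, are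
 different for different `r` (`g_r/g_r' > 1` implies `(g_r/g_r')^q > w⁺/w⁻` for large `q`, finitely many pairs). So the norm of
 `∑_r π_r^q v_r` is the largest of the numbers `g_r^q ‖v_r‖` with `v_r ≠ 0` (or the sum is 0). If this is `> max A w⁺ =: C5`, then it is the norm
 of `∑_i a_i l_i^q` and `g_r > 1` (if `g_r = 1` it is in `W`), and its logarithm is `q log g_r + log ‖v_r‖`. Otherwise
 `‖∑_i a_i l_i^q‖ ≤ C5`. So `S = {(log g_r, log w) : g_r > 1, w ∈ W}`.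
-/

set_option autoImplicit false

namespace Pool.Agent.Helper581_DML

open Polynomial


theorem e10_fin_values {k E I : Type} [Field k] [NormedField E] [IsUltrametricDist E] (κ : k →+* E)
    (hκ : ∀ c : k, c ≠ 0 → ‖κ c‖ = 1) (a : I → E) (s : Finset I) :
    {x : ℝ | x ≠ 0 ∧ ∃ c : I → k, x = ‖∑ i ∈ s, κ (c i) * a i‖}.Finite := by
  classical
  induction s using Finset.induction_on with
  | empty =>
    refine Set.Finite.subset Set.finite_empty ?_
    rintro x ⟨h1, c, rfl⟩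
    simp at h1
  | insert j s hj ih =>
    set W := {x : ℝ | x ≠ 0 ∧ ∃ c : I → k, x = ‖∑ i ∈ s, κ (c i) * a i‖} with hW
    set U := {x : ℝ | x ≠ 0 ∧ ∃ c : I → k, x = ‖a j + ∑ i ∈ s, κ (c i) * a i‖} with hU
    have key : ∀ c c' : I → k, ‖a j + ∑ i ∈ s, κ (c' i) * a i‖ < ‖a j + ∑ i ∈ s, κ (c i) * a i‖ →
        ‖a j + ∑ i ∈ s, κ (c i) * a i‖ ∈ W := by
      intro c c' hlt
      refine ⟨((norm_nonneg _).trans_lt hlt).ne', fun i => c i - c' i, ?_⟩
      have e1 : ∑ i ∈ s, κ (c i - c' i) * a i =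
          (a j + ∑ i ∈ s, κ (c i) * a i) + -(a j + ∑ i ∈ s, κ (c' i) * a i) := by
        simp only [map_sub, sub_mul, Finset.sum_sub_distrib]
        ring
      have h9 : ‖(a j + ∑ i ∈ s, κ (c i) * a i) + -(a j + ∑ i ∈ s, κ (c' i) * a i)‖ =
          max ‖a j + ∑ i ∈ s, κ (c i) * a i‖ ‖-(a j + ∑ i ∈ s, κ (c' i) * a i)‖ :=
        IsUltrametricDist.norm_add_eq_max_of_norm_ne_norm (by rw [norm_neg]; exact hlt.ne')
      rw [e1, h9, norm_neg, max_eq_left hlt.le]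
    have hUf : U.Finite := by
      by_cases h : U ⊆ W
      · exact ih.subset h
      · obtain ⟨x0, hx0, hx0W⟩ := Set.not_subset.1 h
        refine (ih.union (Set.finite_singleton x0)).subset ?_
        intro x hx
        by_cases hxx : x = x0
        · right; exact hxx
        left
        obtain ⟨h1, c, rfl⟩ := hx
        obtain ⟨h2, c0, rfl⟩ := hx0
        rcases lt_or_gt_of_ne hxx with h | h
        · exact absurd (key _ _ h) hx0W
        · exact key _ _ h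
    refine (ih.union hUf).subset ?_
    rintro x ⟨h1, c, rfl⟩
    rw [Finset.sum_insert hj] at h1 ⊢
    by_cases hc : c j = 0
    · left
      rw [hc, map_zero, zero_mul, zero_add] at h1 ⊢
      exact ⟨h1, c, rfl⟩
    · right
      have e2 : κ (c j) * a j + ∑ i ∈ s, κ (c i) * a i =
          κ (c j) * (a j + ∑ i ∈ s, κ (c i / c j) * a i) := by
        rw [mul_add, Finset.mul_sum]
        congr 1
        refine Finset.sum_congr rfl fun i _ => ?_
        rw [map_div₀]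
        have : κ (c j) ≠ 0 := by
          rw [Ne, map_eq_zero]; exact hc
        field_simp
      rw [e2, norm_mul, hκ _ hc, one_mul] at h1 ⊢
      exact ⟨h1, fun i => c i / c j, rfl⟩

theorem e10_eventually {p : ℕ} (hp : 2 ≤ p) (Γ W : Finset ℝ) (hΓ : ∀ g ∈ Γ, 1 ≤ g)
    (hW : ∀ w ∈ W, 0 < w) : ∀ᶠ e : ℕ in Filter.atTop, ∀ g ∈ Γ, ∀ g' ∈ Γ, g' < g → ∀ w ∈ W,
      ∀ w' ∈ W, g' ^ p ^ e * w' < g ^ p ^ e * w := by
  rw [Filter.eventually_all_finset]
  intro g hg
  rw [Filter.eventually_all_finset]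
  intro g' hg'
  by_cases hlt : g' < g
  swap
  · exact Filter.Eventually.of_forall fun e h => absurd h hlt
  have h1 : ∀ᶠ e : ℕ in Filter.atTop, ∀ w ∈ W, ∀ w' ∈ W, g' ^ p ^ e * w' < g ^ p ^ e * w := by
    rw [Filter.eventually_all_finset]
    intro w hw
    rw [Filter.eventually_all_finset]
    intro w' hw'
    have hg'0 : 0 < g' := by linarith [hΓ g' hg']
    have h2 : 1 < g / g' := by rw [lt_div_iff₀ hg'0]; linarith
    have h3 : Filter.Tendsto (fun e : ℕ => (g / g') ^ p ^ e) Filter.atTop Filter.atTop :=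
      (tendsto_pow_atTop_atTop_of_one_lt h2).comp (tendsto_pow_atTop_atTop_of_one_lt (by omega))
    filter_upwards [h3.eventually (Filter.eventually_gt_atTop (w' / w))] with e he
    rw [div_lt_iff₀ (hW w hw), div_pow, div_mul_eq_mul_div, lt_div_iff₀ (by positivity)] at he
    linarith
  filter_upwards [h1] with e he _ w hw w' hw' using he w hw w' hw'

theorem val_pow_sum {p : ℕ} [Fact p.Prime] {k F E : Type} [Field k] [IsAlgClosed k] [CharP k p]
    [NontriviallyNormedField F] [IsUltrametricDist F] [CompleteSpace F] [Algebra k F] (t : F)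
    (hF : LF p k F t) [NontriviallyNormedField E] [IsUltrametricDist E] [NormedAlgebra F E]
    [FiniteDimensional F E] {I : Type} [Fintype I] (a : I → E) (C : ℝ) :
    ∃ (C5 : ℝ) (S : Finset (ℝ × ℝ)) (e0 : ℕ), (∀ s ∈ S, 0 < s.1) ∧
      ∀ e ≥ e0, ∀ l : I → E, (∀ i, ‖l i‖ ≤ C) →
        ‖∑ i, a i * l i ^ p ^ e‖ ≤ C5 ∨
          ∃ s ∈ S, Real.log ‖∑ i, a i * l i ^ p ^ e‖ = s.1 * (p : ℝ) ^ e + s.2 := by
  classical
  obtain ⟨κ, hκd⟩ : ∃ κ : k →+* E, ∀ c, κ c = algebraMap F E (algebraMap k F c) :=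
    ⟨(algebraMap F E).comp (algebraMap k F), fun c => rfl⟩
  have hκ : ∀ c : k, c ≠ 0 → ‖κ c‖ = 1 := by
    intro c hc
    rw [hκd, norm_algebraMap']
    have h1 := hF.norm_poly (Polynomial.C c) (Polynomial.C_ne_zero.2 hc)
    rwa [Polynomial.aeval_C, Polynomial.natDegree_C, pow_zero] at h1
  haveI : CharP E p := charP_of_injective_ringHom κ.injective p
  have hp : p.Prime := Fact.out
  -- the values
  obtain ⟨M, hM, hval⟩ := ext_val (E := E) t hF
  have ht := hF.one_lt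
  have hΓf : {x : ℝ | 1 ≤ x ∧ x ≤ C ∧ ∃ y : E, ‖y‖ = x}.Finite := by
    obtain ⟨N, hN⟩ := pow_unbounded_of_one_lt (C ^ M) ht
    refine Set.Finite.of_finite_image (f := fun x : ℝ => x ^ M) ?_ ?_
    · refine (Set.finite_range (fun m : Fin (N + 1) => ‖t‖ ^ (m : ℕ))).subset ?_
      rintro _ ⟨x, ⟨h1, h2, y, rfl⟩, rfl⟩
      have hy : y ≠ 0 := by
        intro h
        rw [h, norm_zero] at h1
        linarith
      obtain ⟨m, hm⟩ := hval y hy
      have h3 : (1 : ℝ) ≤ ‖t‖ ^ m := by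
        rw [← hm]; exact one_le_pow₀ h1
      have h4 : 0 ≤ m := by
        by_contra hneg
        push Not at hneg
        have := zpow_lt_one_of_neg₀ ht hneg
        linarith
      obtain ⟨n, rfl⟩ := Int.eq_ofNat_of_zero_le h4
      have h5 : ‖t‖ ^ n < ‖t‖ ^ N := by
        have h6 : ‖y‖ ^ M ≤ C ^ M := pow_le_pow_left₀ (norm_nonneg _) h2 M
        have h7 : ‖y‖ ^ M = ‖t‖ ^ n := by rw [hm]; exact zpow_natCast _ _
        rw [← h7]
        exact h6.trans_lt hN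
      have h8 : n < N := (pow_lt_pow_iff_right₀ ht).1 h5
      refine ⟨⟨n, by omega⟩, ?_⟩
      show ‖t‖ ^ n = ‖y‖ ^ M
      rw [hm]; exact (zpow_natCast _ _).symm
    · intro x hx y hy hxy
      exact (pow_left_inj₀ (by linarith [hx.1]) (by linarith [hy.1]) hM.ne').1 hxy
  set Γ := hΓf.toFinset with hΓ
  have hΓm : ∀ g, g ∈ Γ ↔ 1 ≤ g ∧ g ≤ C ∧ ∃ y : E, ‖y‖ = g := by
    intro g; rw [hΓ, Set.Finite.mem_toFinset]; rfl
  have hΓπ : ∀ g ∈ Γ, ∃ y : E, ‖y‖ = g := fun g hg => ((hΓm g).1 hg).2.2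
  choose! π hπ using hΓπ
  -- decomposition
  have decomp : ∀ n : ℕ, ∀ l : E, ‖l‖ ≤ C → (Γ.filter (fun g => g ≤ ‖l‖)).card ≤ n →
      ∃ (c : ℝ → k) (ρ : E), l = ∑ g ∈ Γ, κ (c g) * π g + ρ ∧ ‖ρ‖ < 1 := by
    intro n
    induction n with
    | zero =>
      intro l hl hn
      refine ⟨fun _ => 0, l, by simp, ?_⟩
      by_contra hcon
      push Not at hcon
      have h1 : ‖l‖ ∈ Γ.filter (fun g => g ≤ ‖l‖) :=
        Finset.mem_filter.2 ⟨(hΓm _).2 ⟨hcon, hl, l, rfl⟩, le_rfl⟩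
      have := Finset.card_pos.2 ⟨_, h1⟩
      omega
    | succ n ih =>
      intro l hl hn
      by_cases hl1 : ‖l‖ < 1
      · exact ⟨fun _ => 0, l, by simp, hl1⟩
      push Not at hl1
      have hg : ‖l‖ ∈ Γ := (hΓm _).2 ⟨hl1, hl, l, rfl⟩
      have hπl := hπ _ hg
      have hπ0 : π ‖l‖ ≠ 0 := by
        intro h
        rw [h, norm_zero] at hπl
        linarith
      have hlpos : 0 < ‖l‖ := by linarith
      obtain ⟨c0, hc0⟩ := ext_res (E := E) t hF (l / π ‖l‖) (by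
        rw [norm_div, hπl, div_self hlpos.ne'])
      rw [← hκd] at hc0
      have hl' : ‖l - κ c0 * π ‖l‖‖ < ‖l‖ := by
        have e1 : l - κ c0 * π ‖l‖ = (l / π ‖l‖ - κ c0) * π ‖l‖ := by
          field_simp
        rw [e1, norm_mul, hπl]
        calc _ < 1 * ‖l‖ := mul_lt_mul_of_pos_right hc0 hlpos
          _ = ‖l‖ := one_mul _
      obtain ⟨c', ρ, h1, h2⟩ := ih (l - κ c0 * π ‖l‖) (hl'.le.trans hl) (by
        have h3 : (Γ.filter (fun g => g ≤ ‖l - κ c0 * π ‖l‖‖)) ⊂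
            (Γ.filter (fun g => g ≤ ‖l‖)) := by
          rw [Finset.ssubset_iff_of_subset (by
            intro g hg'
            obtain ⟨g1, g2⟩ := Finset.mem_filter.1 hg'
            exact Finset.mem_filter.2 ⟨g1, g2.trans hl'.le⟩)]
          refine ⟨‖l‖, Finset.mem_filter.2 ⟨hg, le_rfl⟩, fun hmem => ?_⟩
          exact absurd (Finset.mem_filter.1 hmem).2 (not_le.2 hl')
        have := Finset.card_lt_card h3
        omega)
      refine ⟨fun g => c' g + if g = ‖l‖ then c0 else 0, ρ, ?_, h2⟩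
      have e2 : ∑ g ∈ Γ, κ (c' g + if g = ‖l‖ then c0 else 0) * π g =
          ∑ g ∈ Γ, κ (c' g) * π g + κ c0 * π ‖l‖ := by
        simp only [map_add, add_mul, Finset.sum_add_distrib]
        congr 1
        rw [Finset.sum_eq_single_of_mem ‖l‖ hg (fun b _ hb => by simp [hb])]
        simp
      rw [e2]
      linear_combination h1
  -- the values of the span
  have hWf := e10_fin_values κ hκ a Finset.univ
  set W := hWf.toFinset with hW
  have hWm : ∀ w, w ∈ W ↔ w ≠ 0 ∧ ∃ c : I → k, w = ‖∑ i ∈ Finset.univ, κ (c i) * a i‖ := by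
    intro w; rw [hW, Set.Finite.mem_toFinset]; rfl
  have hWpos : ∀ w ∈ W, 0 < w := by
    intro w hw
    obtain ⟨h1, c, rfl⟩ := (hWm w).1 hw
    exact lt_of_le_of_ne (norm_nonneg _) h1.symm
  set B := ∑ w ∈ W, w with hB
  have hWB : ∀ w ∈ W, w ≤ B := fun w hw =>
    Finset.single_le_sum (f := fun w => w) (fun w hw => (hWpos w hw).le) hw
  set A := ∑ i, ‖a i‖ with hA
  obtain ⟨e0, he0⟩ := Filter.eventually_atTop.1
    (e10_eventually hp.two_le Γ W (fun g hg => ((hΓm g).1 hg).1) hWpos)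
  refine ⟨max A B, ((Γ.filter (fun g => 1 < g)) ×ˢ W).image
    (fun x => (Real.log x.1, Real.log x.2)), e0, ?_, ?_⟩
  · intro s hs
    obtain ⟨x, hx, rfl⟩ := Finset.mem_image.1 hs
    have h1 := (Finset.mem_filter.1 (Finset.mem_product.1 hx).1).2
    exact Real.log_pos h1
  intro e he l hl
  have hdec : ∀ i, ∃ (c : ℝ → k) (ρ : E), l i = ∑ g ∈ Γ, κ (c g) * π g + ρ ∧ ‖ρ‖ < 1 :=
    fun i => decomp _ (l i) (hl i) le_rfl
  choose c ρ hcρ hρ using hdec
  obtain ⟨v, hv⟩ : ∃ v : ℝ → E, ∀ g, v g = ∑ i, κ (c i g ^ p ^ e) * a i := ⟨_, fun _ => rfl⟩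
  obtain ⟨R, hR⟩ : ∃ R : E, R = ∑ i, a i * ρ i ^ p ^ e := ⟨_, rfl⟩
  have hsum : ∑ i, a i * l i ^ p ^ e = ∑ g ∈ Γ, π g ^ p ^ e * v g + R := by
    have h1 : ∀ i, l i ^ p ^ e = ∑ g ∈ Γ, (κ (c i g ^ p ^ e)) * π g ^ p ^ e + ρ i ^ p ^ e := by
      intro i
      rw [hcρ i, add_pow_char_pow, sum_pow_char_pow]
      congr 1
      refine Finset.sum_congr rfl fun g _ => ?_
      rw [mul_pow, map_pow]
    rw [hR]
    simp only [h1, mul_add, Finset.sum_add_distrib]
    congr 1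
    simp only [hv, Finset.mul_sum]
    rw [Finset.sum_comm]
    refine Finset.sum_congr rfl fun g _ => Finset.sum_congr rfl fun i _ => ?_
    ring
  have hRA : ‖R‖ ≤ A := by
    rw [hR]
    refine (norm_sum_le _ _).trans (Finset.sum_le_sum fun i _ => ?_)
    rw [norm_mul, norm_pow]
    have h1 : ‖ρ i‖ ^ p ^ e ≤ 1 := pow_le_one₀ (norm_nonneg _) (hρ i).le
    calc ‖a i‖ * ‖ρ i‖ ^ p ^ e ≤ ‖a i‖ * 1 := mul_le_mul_of_nonneg_left h1 (norm_nonneg _)
      _ = ‖a i‖ := mul_one _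
  have hvW : ∀ g, v g ≠ 0 → ‖v g‖ ∈ W := fun g hg =>
    (hWm _).2 ⟨(norm_ne_zero_iff.2 hg), fun i => c i g ^ p ^ e, by rw [hv]⟩
  rw [hsum]
  set T := Γ.filter (fun g => v g ≠ 0) with hT
  have hsumT : ∑ g ∈ Γ, π g ^ p ^ e * v g = ∑ g ∈ T, π g ^ p ^ e * v g := by
    rw [hT, Finset.sum_filter_of_ne]
    intro g _ hg h0
    exact hg (by rw [h0, mul_zero])
  rcases T.eq_empty_or_nonempty with hTe | hTne
  · left
    rw [hsumT, hTe, Finset.sum_empty, zero_add]
    exact hRA.trans (le_max_left _ _)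
  set g0 := T.max' hTne with hg0
  have hg0T : g0 ∈ T := T.max'_mem hTne
  obtain ⟨hg0Γ, hg0v⟩ := Finset.mem_filter.1 hg0T
  have hg01 := ((hΓm g0).1 hg0Γ).1
  have hnorm : ∀ g ∈ Γ, ‖π g ^ p ^ e * v g‖ = g ^ p ^ e * ‖v g‖ := by
    intro g hg
    rw [norm_mul, norm_pow, hπ g hg]
  have hsm : ∀ g ∈ T.erase g0, ‖π g ^ p ^ e * v g‖ < ‖π g0 ^ p ^ e * v g0‖ := by
    intro g hg
    obtain ⟨h1, h2⟩ := Finset.mem_erase.1 hg
    obtain ⟨h3, h4⟩ := Finset.mem_filter.1 h2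
    rw [hnorm g h3, hnorm g0 hg0Γ]
    exact he0 e he g0 hg0Γ g h3 (lt_of_le_of_ne (T.le_max' g h2) h1) _ (hvW g0 hg0v) _ (hvW g h4)
  have hbig : ‖∑ g ∈ T, π g ^ p ^ e * v g‖ = g0 ^ p ^ e * ‖v g0‖ := by
    rw [← Finset.add_sum_erase T _ hg0T, ← hnorm g0 hg0Γ]
    have hv0 : 0 < ‖π g0 ^ p ^ e * v g0‖ := by
      rw [hnorm g0 hg0Γ]
      have := norm_pos_iff.2 hg0v
      positivity
    have h5 : ‖∑ g ∈ T.erase g0, π g ^ p ^ e * v g‖ < ‖π g0 ^ p ^ e * v g0‖ := by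
      rcases (T.erase g0).eq_empty_or_nonempty with h6 | h6
      · rw [h6, Finset.sum_empty, norm_zero]; exact hv0
      · obtain ⟨g, hg, hgle⟩ := IsUltrametricDist.exists_norm_finsetSum_le_of_nonempty h6
          (fun g => π g ^ p ^ e * v g)
        exact hgle.trans_lt (hsm g hg)
    rw [IsUltrametricDist.norm_add_eq_max_of_norm_ne_norm h5.ne', max_eq_left h5.le]
  rw [hsumT]
  by_cases hN : g0 ^ p ^ e * ‖v g0‖ ≤ max A B
  · left
    refine (IsUltrametricDist.norm_add_le_max _ _).trans (max_le ?_ (hRA.trans (le_max_left _ _)))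
    rw [hbig]
    exact hN
  · right
    push Not at hN
    have h7 : ‖∑ g ∈ T, π g ^ p ^ e * v g + R‖ = g0 ^ p ^ e * ‖v g0‖ := by
      have h8 : ‖R‖ < ‖∑ g ∈ T, π g ^ p ^ e * v g‖ := by
        rw [hbig]
        exact hRA.trans_lt ((le_max_left _ _).trans_lt hN)
      rw [IsUltrametricDist.norm_add_eq_max_of_norm_ne_norm h8.ne', max_eq_left h8.le, hbig]
    have hg0gt : 1 < g0 := by
      refine lt_of_le_of_ne hg01 fun h => ?_
      have h1 : g0 ^ p ^ e = 1 := by rw [← h, one_pow]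
      rw [h1, one_mul] at hN
      exact absurd ((hWB _ (hvW g0 hg0v)).trans (le_max_right A B)) (not_le.2 hN)
    refine ⟨(Real.log g0, Real.log ‖v g0‖), Finset.mem_image.2 ⟨(g0, ‖v g0‖),
      Finset.mem_product.2 ⟨Finset.mem_filter.2 ⟨hg0Γ, hg0gt⟩, hvW g0 hg0v⟩, rfl⟩, ?_⟩
    rw [h7, Real.log_mul (by positivity) (norm_ne_zero_iff.2 hg0v), Real.log_pow]
    push_cast
    ring

end Pool.Agent.Helper581_DML
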