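import Mathlib
import Pool.Agent.Helper581_DML.Defs

/-!
Part E2 of the proof (helper581, MP_6ac234_nt): `dig_exists`. Every element of a finite separable extension `L` of the field of
rational functions over an algebraically closed field `k` of characteristic `p` is `∑_{i<p} a_i^p T^i` with `a_i ∈ L`,
`T` the image of the variable.
-/

set_option autoImplicit false
set_option linter.unusedSectionVars false

namespace Pool.Agent.Helper581_DML

/-- elements with digits -/
def dig_existsS {K : Type*} [Field K] (p : ℕ) (T x : K) : Prop :=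
  ∃ a : Fin p → K, x = ∑ i, a i ^ p * T ^ (i : ℕ)

section

variable {p : ℕ} [Fact p.Prime] {K : Type*} [Field K] [CharP K p] (T : K)

theorem dig_existsS_zero : dig_existsS p T 0 := by
  refine ⟨fun _ => 0, ?_⟩
  simp [(Fact.out : p.Prime).ne_zero]

theorem dig_existsS_add {x y : K} (hx : dig_existsS p T x) (hy : dig_existsS p T y) : dig_existsS p T (x + y) := by
  obtain ⟨a, rfl⟩ := hx
  obtain ⟨b, rfl⟩ := hy
  refine ⟨fun i => a i + b i, ?_⟩
  rw [← Finset.sum_add_distrib]
  refine Finset.sum_congr rfl fun i _ => ?_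
  rw [add_pow_char, add_mul]

theorem dig_existsS_mul {x : K} (hx : dig_existsS p T x) (c : K) : dig_existsS p T (x * c ^ p) := by
  obtain ⟨a, rfl⟩ := hx
  refine ⟨fun i => a i * c, ?_⟩
  rw [Finset.sum_mul]
  refine Finset.sum_congr rfl fun i _ => ?_
  rw [mul_pow]
  ring

theorem dig_existsS_pow (i : ℕ) (hi : i < p) : dig_existsS p T (T ^ i) := by
  refine ⟨fun j => if j = ⟨i, hi⟩ then 1 else 0, ?_⟩
  have hp : p ≠ 0 := (Fact.out : p.Prime).ne_zero
  rw [Finset.sum_eq_single (⟨i, hi⟩ : Fin p)]
  · simp
  · intro j _ hj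
    dsimp only
    rw [if_neg hj, zero_pow hp, zero_mul]
  · simp

theorem dig_existsS_sum {J : Type*} (s : Finset J) (f : J → K) (h : ∀ j ∈ s, dig_existsS p T (f j)) :
    dig_existsS p T (∑ j ∈ s, f j) := by
  classical
  induction s using Finset.induction_on with
  | empty => simpa using dig_existsS_zero (p := p) T
  | insert a s ha ih =>
    rw [Finset.sum_insert ha]
    exact dig_existsS_add T (h a (Finset.mem_insert_self _ _)) (ih fun j hj => h j (Finset.mem_insert_of_mem hj))

theorem dig_existsS_mulT {x : K} (hx : dig_existsS p T x) : dig_existsS p T (x * T) := by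
  obtain ⟨a, rfl⟩ := hx
  rw [Finset.sum_mul]
  refine dig_existsS_sum T _ _ fun i _ => ?_
  have e : a i ^ p * T ^ (i : ℕ) * T = T ^ ((i : ℕ) + 1) * a i ^ p := by ring
  rw [e]
  refine dig_existsS_mul T ?_ _
  rcases lt_or_eq_of_le (Nat.succ_le_of_lt i.2) with h | h
  · exact dig_existsS_pow T _ h
  · have h' : (i : ℕ) + 1 = p := h
    rw [h']
    have := dig_existsS_mul T (dig_existsS_pow (p := p) T 0 (Fact.out : p.Prime).pos) T
    simpa using this

end

theorem dig_exists_poly {p : ℕ} [Fact p.Prime] {k : Type*} [Field k] [IsAlgClosed k] [CharP k p]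
    [CharP (RatFunc k) p] (q : Polynomial k) :
    dig_existsS p (RatFunc.X : RatFunc k) (algebraMap (Polynomial k) (RatFunc k) q) := by
  induction q using Polynomial.induction_on with
  | C a =>
    obtain ⟨b, hb⟩ := IsAlgClosed.exists_pow_nat_eq a (Fact.out : p.Prime).pos
    have := dig_existsS_mul (RatFunc.X : RatFunc k) (dig_existsS_pow (p := p) (RatFunc.X : RatFunc k) 0
      (Fact.out : p.Prime).pos) (algebraMap (Polynomial k) (RatFunc k) (Polynomial.C b))
    rw [← map_pow, ← map_pow, hb, pow_zero, one_mul] at this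
    exact this
  | add q r hq hr =>
    rw [map_add]
    exact dig_existsS_add _ hq hr
  | monomial n a h =>
    have := dig_existsS_mulT _ h
    rw [← RatFunc.algebraMap_X, ← map_mul, mul_assoc, ← pow_succ] at this
    rw [← RatFunc.algebraMap_X]
    exact this

theorem dig_exists_ratFunc {p : ℕ} [Fact p.Prime] {k : Type*} [Field k] [IsAlgClosed k] [CharP k p]
    [CharP (RatFunc k) p] (c : RatFunc k) : dig_existsS p (RatFunc.X : RatFunc k) c := by
  induction c using RatFunc.induction_on with
  | f a b hb =>
    have hb' : algebraMap (Polynomial k) (RatFunc k) b ≠ 0 := RatFunc.algebraMap_ne_zero hb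
    have h := dig_existsS_mul (RatFunc.X : RatFunc k) (dig_exists_poly (p := p) (a * b ^ (p - 1)))
      (algebraMap (Polynomial k) (RatFunc k) b)⁻¹
    have e : algebraMap (Polynomial k) (RatFunc k) (a * b ^ (p - 1)) *
        (algebraMap (Polynomial k) (RatFunc k) b)⁻¹ ^ p =
        algebraMap (Polynomial k) (RatFunc k) a / algebraMap (Polynomial k) (RatFunc k) b := by
      rw [map_mul, map_pow]
      have hp : p = p - 1 + 1 := (Nat.sub_add_cancel (Fact.out : p.Prime).one_le).symm
      conv_lhs => rw [show (algebraMap (Polynomial k) (RatFunc k) b)⁻¹ ^ p =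
        (algebraMap (Polynomial k) (RatFunc k) b)⁻¹ ^ (p - 1 + 1) by rw [← hp]]
      rw [pow_succ, inv_pow]
      field_simp
    rw [e] at h
    exact h

theorem dig_exists {p : ℕ} [Fact p.Prime] {k L : Type*} [Field k] [IsAlgClosed k] [CharP k p]
    [Field L] [Algebra (RatFunc k) L] [FiniteDimensional (RatFunc k) L]
    [Algebra.IsSeparable (RatFunc k) L] (x : L) :
    ∃ a : Fin p → L, x = ∑ i, a i ^ p * algebraMap (RatFunc k) L RatFunc.X ^ (i : ℕ) := by
  have hcR : CharP (RatFunc k) p := charP_of_injective_algebraMap (algebraMap k (RatFunc k)).injective p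
  have hcL : CharP L p := charP_of_injective_algebraMap (algebraMap (RatFunc k) L).injective p
  have hexp : ExpChar (RatFunc k) p := ExpChar.prime (Fact.out : p.Prime)
  let b := Module.finBasis (RatFunc k) L
  have hli : LinearIndependent (RatFunc k) (fun i => b i ^ p ^ 1) :=
    b.linearIndependent.map_pow_expChar_pow_of_isSeparable p 1
  have hspan : Submodule.span (RatFunc k) (Set.range fun i => b i ^ p ^ 1) = ⊤ :=
    hli.span_eq_top_of_card_eq_finrank' (by simp)
  have hx : x ∈ Submodule.span (RatFunc k) (Set.range fun i => b i ^ p ^ 1) := by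
    rw [hspan]; exact Submodule.mem_top
  obtain ⟨c, hc⟩ := (Submodule.mem_span_range_iff_exists_fun _).1 hx
  show dig_existsS p (algebraMap (RatFunc k) L RatFunc.X) x
  rw [← hc]
  refine dig_existsS_sum _ _ _ fun i _ => ?_
  rw [Algebra.smul_def, pow_one]
  refine dig_existsS_mul _ ?_ _
  obtain ⟨a, ha⟩ := dig_exists_ratFunc (p := p) (c i)
  refine ⟨fun j => algebraMap (RatFunc k) L (a j), ?_⟩
  rw [ha, map_sum]
  refine Finset.sum_congr rfl fun j _ => ?_
  rw [map_mul, map_pow, map_pow]

end Pool.Agent.Helper581_DML
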