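import Mathlib
import Pool.Agent.Helper581_DML.E1

/-!
Uniqueness of the `p`-digits in a separable extension of the field of rational functions.
-/

set_option autoImplicit false

namespace Pool.Agent.Helper581_DML

theorem dig_unique {p : ℕ} [Fact p.Prime] {k L : Type*} [Field k] [CharP k p]
    [Field L] [Algebra (RatFunc k) L] [Algebra.IsSeparable (RatFunc k) L] (a : Fin p → L)
    (h : ∑ i, a i ^ p * algebraMap (RatFunc k) L RatFunc.X ^ (i : ℕ) = 0) : ∀ i, a i = 0 := by
  have hchar : CharP (RatFunc k) p := charP_of_injective_algebraMap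
    (algebraMap k (RatFunc k)).injective p
  refine pow_indep (RatFunc.X : RatFunc k) ?_ a h
  intro u hu
  have hu0 : u ≠ 0 := by
    rintro rfl
    rw [zero_pow (Fact.out : p.Prime).ne_zero] at hu
    exact RatFunc.X_ne_zero hu.symm
  have h1 : (p : ℤ) * RatFunc.intDegree u = 1 := by
    have h2 : ∀ n : ℕ, RatFunc.intDegree (u ^ n) = n * RatFunc.intDegree u := by
      intro n
      induction n with
      | zero => simp
      | succ n ih =>
        rw [pow_succ, RatFunc.intDegree_mul (pow_ne_zero _ hu0) hu0, ih]
        push_cast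
        ring
    rw [← h2 p, hu, RatFunc.intDegree_X]
  have h3 : (p : ℤ) ∣ 1 := ⟨_, h1.symm⟩
  have h4 : p ∣ 1 := by exact_mod_cast h3
  exact (Fact.out : p.Prime).one_lt.ne' (Nat.dvd_one.1 h4)

end Pool.Agent.Helper581_DML
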