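import Mathlib
import Pool.Agent.Helper581_DML.Defs
import Pool.Agent.Helper581_DML.E2
import Pool.Agent.Helper581_DML.E3u

/-!
Part E3 of the proof (helper581, MP_6ac234_nt): `dig_integral`. There is a fixed nonzero polynomial `D` such that `D • a_i` is
integral over `k[X]` for the digits `a_i` of every integral element `x = ∑_{i<p} a_i^p T^i` of `L`.
`dig_exists` and `dig_unique` are given. 
PLAIN PROOF. The integral closure `O` of `k[X]` in `L` is a finite module over `k[X]` (`IsIntegralClosure.finite`, `L` is finite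
 separable over the fraction field `RatFunc k`); let `b_1, …, b_m` generate it. Let `β_rji ∈ L` be the digits of `T^j b_r`,
 `j < p`: `T^j b_r = ∑_i β_rji^p T^i`. Every element of `L` is algebraic over `k[X]`, so there is one nonzero `D ∈ k[X]` with
 `D • β_rji` integral for all `r, j, i` (`exists_integral_multiple`, take the product). If `x ∈ O`, write
 `x = ∑_r q_r • b_r` with `q_r ∈ k[X]`, `q_r = ∑_{j<p} q_rj^p X^j` with `q_rj ∈ k[X]` (`k` is perfect, coefficientwise). Then
 `x = ∑_i T^i (∑_{r,j} q_rj • β_rji)^p`, so by uniqueness `a_i = ∑_{r,j} q_rj • β_rji` and `D • a_i` is integral.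
-/

set_option autoImplicit false

namespace Pool.Agent.Helper581_DML

open Polynomial

theorem dig_integral_poly {p : ℕ} [Fact p.Prime] {k : Type*} [Field k] [IsAlgClosed k] [CharP k p]
    (q : k[X]) : ∃ a : Fin p → k[X], q = ∑ j, a j ^ p * X ^ (j : ℕ) := by
  classical
  have hp : p.Prime := Fact.out
  induction q using Polynomial.induction_on' with
  | add f g hf hg =>
    obtain ⟨a, ha⟩ := hf
    obtain ⟨b, hb⟩ := hg
    refine ⟨fun j => a j + b j, ?_⟩
    simp only [add_pow_char, add_mul, Finset.sum_add_distrib]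
    rw [← ha, ← hb]
  | monomial n c =>
    obtain ⟨d, hd⟩ := IsAlgClosed.exists_pow_nat_eq c hp.pos
    refine ⟨fun j => if (j : ℕ) = n % p then C d * X ^ (n / p) else 0, ?_⟩
    rw [Finset.sum_eq_single (⟨n % p, Nat.mod_lt n hp.pos⟩ : Fin p)]
    · simp only [if_true]
      rw [mul_pow, ← C_pow, hd, ← pow_mul, mul_assoc, ← pow_add, C_mul_X_pow_eq_monomial]
      have h1 := Nat.div_add_mod n p
      rw [mul_comm] at h1
      rw [h1]
    · intro j _ hj
      have hj' : (j : ℕ) ≠ n % p := fun h => hj (Fin.ext h)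
      simp only [if_neg hj', zero_pow hp.ne_zero, zero_mul]
    · intro h
      exact absurd (Finset.mem_univ _) h

theorem dig_integral {p : ℕ} [Fact p.Prime] {k L : Type*} [Field k] [IsAlgClosed k] [CharP k p]
    [Field L] [Algebra (RatFunc k) L] [Algebra k[X] L] [IsScalarTower k[X] (RatFunc k) L]
    [FiniteDimensional (RatFunc k) L] [Algebra.IsSeparable (RatFunc k) L] :
    ∃ D : k[X], D ≠ 0 ∧ ∀ (x : L), IsIntegral k[X] x → ∀ a : Fin p → L,
      x = ∑ i, a i ^ p * algebraMap (RatFunc k) L RatFunc.X ^ (i : ℕ) →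
      ∀ i, IsIntegral k[X] (D • a i) := by
  classical
  have : CharP (RatFunc k) p := charP_of_injective_algebraMap (algebraMap k (RatFunc k)).injective p
  have : CharP L p := charP_of_injective_algebraMap (algebraMap (RatFunc k) L).injective p
  have hfin : Module.Finite k[X] (integralClosure k[X] L) :=
    IsIntegralClosure.finite k[X] (RatFunc k) L (integralClosure k[X] L)
  obtain ⟨m, b, hb⟩ := Module.Finite.exists_fin (R := k[X]) (M := integralClosure k[X] L)
  set T : L := algebraMap (RatFunc k) L RatFunc.X with hT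
  have hTX : T = algebraMap k[X] L X := by
    rw [IsScalarTower.algebraMap_apply k[X] (RatFunc k) L, RatFunc.algebraMap_X]
  choose β hβ using fun (r : Fin m) (j : Fin p) => dig_exists (p := p) (k := k) (T ^ (j : ℕ) * (b r : L))
  obtain ⟨D, hD0, hD⟩ := _root_.exists_integral_multiples k[X] (RatFunc k)
    (Finset.univ.image fun q : Fin m × Fin p × Fin p => β q.1 q.2.1 q.2.2)
  refine ⟨D, hD0, ?_⟩
  intro x hx a ha i
  obtain ⟨q, hq⟩ : ∃ q : Fin m → k[X], ∑ r, q r • b r = (⟨x, hx⟩ : integralClosure k[X] L) := by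
    have h : (⟨x, hx⟩ : integralClosure k[X] L) ∈ Submodule.span k[X] (Set.range b) := by
      rw [hb]; exact Submodule.mem_top
    exact (Submodule.mem_span_range_iff_exists_fun k[X]).1 h
  choose qq hqq using fun r => dig_integral_poly (p := p) (q r)
  have hx1 : x = ∑ r, algebraMap k[X] L (q r) * (b r : L) := by
    have h := congrArg (fun y : integralClosure k[X] L => (y : L)) hq
    simp only [AddSubmonoidClass.coe_finsetSum, Algebra.smul_def] at h
    exact h.symm
  have hx2 : x = ∑ i : Fin p, (∑ r, ∑ j : Fin p, algebraMap k[X] L (qq r j) * β r j i) ^ p * T ^ (i : ℕ) := by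
    have e1 : ∀ r, algebraMap k[X] L (q r) * (b r : L) =
        ∑ i : Fin p, (∑ j : Fin p, algebraMap k[X] L (qq r j) ^ p * β r j i ^ p) * T ^ (i : ℕ) := by
      intro r
      conv_lhs => rw [hqq r]
      rw [map_sum, Finset.sum_mul]
      simp only [Finset.sum_mul]
      rw [Finset.sum_comm]
      refine Finset.sum_congr rfl fun j _ => ?_
      rw [map_mul, map_pow, map_pow, ← hTX, mul_assoc, hβ r j, Finset.mul_sum]
      refine Finset.sum_congr rfl fun i _ => ?_
      ring
    rw [hx1]
    simp only [e1]
    rw [Finset.sum_comm]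
    refine Finset.sum_congr rfl fun i _ => ?_
    rw [← Finset.sum_mul, sum_pow_char]
    congr 1
    refine Finset.sum_congr rfl fun r _ => ?_
    rw [sum_pow_char]
    refine Finset.sum_congr rfl fun j _ => ?_
    rw [mul_pow]
  have hu := dig_unique (p := p) (k := k) (L := L)
    (fun i => a i - ∑ r, ∑ j : Fin p, algebraMap k[X] L (qq r j) * β r j i) (by
      simp only [sub_pow_char, sub_mul, Finset.sum_sub_distrib]
      rw [← ha, ← hx2, sub_self]) i
  have hai : a i = ∑ r, ∑ j : Fin p, algebraMap k[X] L (qq r j) * β r j i := sub_eq_zero.1 hu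
  rw [hai, Finset.smul_sum]
  refine IsIntegral.sum _ fun r _ => ?_
  rw [Finset.smul_sum]
  refine IsIntegral.sum _ fun j _ => ?_
  have e2 : D • (algebraMap k[X] L (qq r j) * β r j i) = algebraMap k[X] L (qq r j) * (D • β r j i) := by
    rw [Algebra.smul_def, Algebra.smul_def]
    ring
  rw [e2]
  refine IsIntegral.mul isIntegral_algebraMap ?_
  exact hD _ (Finset.mem_image.2 ⟨(r, j, i), Finset.mem_univ _, rfl⟩)

end Pool.Agent.Helper581_DML
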