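import Mathlib
import Pool.Agent.Helper581_DML.Defs
import Pool.Agent.Helper581_DML.E1
import Pool.Agent.Helper581_DML.E2

/-!
Part E4 of the proof (helper581, MP_6ac234_nt): `dig_norm`. Local bound for the digits: if `L` is embedded by `ι` in a finite
extension `E` of the field `F` of formal Laurent series in `1/t` such that `E` is spanned by `ι(L)` over `F`, then the digits
of `x` satisfy `‖ι (a_i)‖^p ≤ C^p ‖ι x‖` with a constant `C`. `dig_exists` and `pow_indep` are given.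

PLAIN PROOF. Choose `b_1, …, b_m ∈ L` such that the `ι(b_l)` are a basis of `E` over `F` (from the spanning set `ι(L)`). The
 coordinates with respect to a basis are continuous on a finite-dimensional space over the complete field `F`, so there is
 `C1 ≥ 1` with `‖c_l‖ ≤ C1 ‖x‖` for `x = ∑ c_l ι(b_l)` in `E` (`LinearMap.toContinuousLinearMap`, `Module.Basis.exists_opNorm_le`
 and similar). By `dig_exists` let `T^j b_l = ∑_i β_lji^p T^i` in `L`, `j < p`. For `x ∈ L`: `ι x = ∑_l c_l ι(b_l)`,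
 `c_l = ∑_j c_lj^p t^j` with `‖c_lj‖^p ≤ ‖c_l‖` (`LF.dig`), so (as `ι T = t`) `ι x = ∑_i t^i (∑_{l,j} c_lj ι(β_lji))^p`. Also
 `ι x = ∑_i ι(a_i)^p t^i`. By `pow_indep` for `E/F` (`t` is not a `p`-th power in `F` by `LF.val`: `‖u‖^p = ‖t‖^(p m) ≠ ‖t‖`)
 applied to the differences, `ι(a_i) = ∑_{l,j} c_lj ι(β_lji)`, so
 `‖ι(a_i)‖ ≤ C2 max ‖c_lj‖` with `C2` the largest `‖ι(β_lji)‖` (or 1), `‖ι(a_i)‖^p ≤ C2^p C1 ‖ι x‖ ≤ (C1 C2)^p ‖ι x‖`.
-/

set_option autoImplicit false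

namespace Pool.Agent.Helper581_DML

open Polynomial


theorem dig_norm {p : ℕ} [Fact p.Prime] {k F E L : Type} [Field k] [IsAlgClosed k] [CharP k p]
    [NontriviallyNormedField F] [IsUltrametricDist F] [CompleteSpace F] [Algebra k F] (t : F)
    (hF : LF p k F t) [NontriviallyNormedField E] [IsUltrametricDist E] [NormedAlgebra F E]
    [FiniteDimensional F E] [Algebra.IsSeparable F E]
    [Field L] [Algebra (RatFunc k) L] [FiniteDimensional (RatFunc k) L]
    [Algebra.IsSeparable (RatFunc k) L] (ι : L →+* E)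
    (hιX : ι (algebraMap (RatFunc k) L RatFunc.X) = algebraMap F E t)
    (hspan : Submodule.span F (Set.range ι) = ⊤) :
    ∃ C : ℝ, 1 ≤ C ∧ ∀ (x : L) (a : Fin p → L),
      x = ∑ i, a i ^ p * algebraMap (RatFunc k) L RatFunc.X ^ (i : ℕ) →
      ∀ i, ‖ι (a i)‖ ^ p ≤ C ^ p * ‖ι x‖ := by
  classical
  have hp : 0 < p := (Fact.out : p.Prime).pos
  have : CharP F p := charP_of_injective_algebraMap (algebraMap k F).injective p
  have : CharP E p := charP_of_injective_algebraMap (algebraMap F E).injective p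
  -- `t` is not a `p`-th power
  have ht0 : t ≠ 0 := by
    intro h0
    have h1 := hF.one_lt
    rw [h0, norm_zero] at h1
    linarith
  have htp : ∀ u : F, u ^ p ≠ t := by
    intro u hu
    have hu0 : u ≠ 0 := by
      intro h0
      rw [h0, zero_pow hp.ne'] at hu
      exact ht0 hu.symm
    obtain ⟨m, hm⟩ := hF.val u hu0
    have h1 : ‖t‖ ^ (m * (p : ℤ)) = ‖t‖ ^ (1 : ℤ) := by
      rw [zpow_mul, ← hm, zpow_natCast, ← norm_pow, hu, zpow_one]
    have h2 : m * (p : ℤ) = 1 := zpow_right_injective₀ (by linarith [hF.one_lt]) hF.one_lt.ne' h1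
    have h3 : (p : ℤ) ∣ 1 := ⟨m, by rw [mul_comm]; exact h2.symm⟩
    have h4 : p ∣ 1 := by exact_mod_cast h3
    exact (Fact.out : p.Prime).one_lt.ne' (Nat.dvd_one.1 h4)
  -- a basis
  obtain ⟨I, hI, B, b, hB⟩ : ∃ (I : Type) (_ : Fintype I) (B : Module.Basis I F E) (b : I → L), ∀ l, B l = ι (b l) := by
    have hs : ∀ l, ∃ x : L, ι x = Module.Basis.ofSpan (K := F) hspan.ge l := fun l =>
      Module.Basis.ofSpan_subset (K := F) hspan.ge (Set.mem_range_self l)
    choose b hb using hs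
    exact ⟨_, FiniteDimensional.fintypeBasisIndex (Module.Basis.ofSpan (K := F) hspan.ge), Module.Basis.ofSpan (K := F) hspan.ge, b, fun l => (hb l).symm⟩
  have : Nonempty I := B.index_nonempty
  have : NeZero p := ⟨hp.ne'⟩
  -- coordinates are bounded
  obtain ⟨C1, hC1, hco⟩ : ∃ C1 : ℝ, 1 ≤ C1 ∧ ∀ (x : E) (l : I), ‖B.repr x l‖ ≤ C1 * ‖x‖ := by
    refine ⟨1 + ∑ l, ‖LinearMap.toContinuousLinearMap (B.coord l)‖, ?_, ?_⟩
    · have : 0 ≤ ∑ l, ‖LinearMap.toContinuousLinearMap (B.coord l)‖ := Finset.sum_nonneg fun _ _ => norm_nonneg _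
      linarith
    · intro x l
      have h1 : ‖B.repr x l‖ ≤ ‖LinearMap.toContinuousLinearMap (B.coord l)‖ * ‖x‖ :=
        (LinearMap.toContinuousLinearMap (B.coord l)).le_opNorm x
      have h2 : ‖LinearMap.toContinuousLinearMap (B.coord l)‖ ≤ ∑ l, ‖LinearMap.toContinuousLinearMap (B.coord l)‖ :=
        Finset.single_le_sum (f := fun l => ‖LinearMap.toContinuousLinearMap (B.coord l)‖) (fun _ _ => norm_nonneg _) (Finset.mem_univ l)
      refine h1.trans (mul_le_mul_of_nonneg_right (by linarith) (norm_nonneg _))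
  -- digits of the `T ^ j * b l`
  have hbeta : ∀ (l : I) (j : Fin p), ∃ a : Fin p → L, algebraMap (RatFunc k) L RatFunc.X ^ (j : ℕ) * b l =
      ∑ i, a i ^ p * algebraMap (RatFunc k) L RatFunc.X ^ (i : ℕ) := fun l j => dig_exists _
  choose β hβ using hbeta
  obtain ⟨C2, hC2, hβC⟩ : ∃ C2 : ℝ, 1 ≤ C2 ∧ ∀ (l : I) (j i : Fin p), ‖ι (β l j i)‖ ≤ C2 := by
    refine ⟨1 + ∑ q : I × Fin p × Fin p, ‖ι (β q.1 q.2.1 q.2.2)‖, ?_, ?_⟩
    · have : 0 ≤ ∑ q : I × Fin p × Fin p, ‖ι (β q.1 q.2.1 q.2.2)‖ := Finset.sum_nonneg fun _ _ => norm_nonneg _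
      linarith
    · intro l j i
      have h2 : ‖ι (β l j i)‖ ≤ ∑ q : I × Fin p × Fin p, ‖ι (β q.1 q.2.1 q.2.2)‖ :=
        Finset.single_le_sum (f := fun q : I × Fin p × Fin p => ‖ι (β q.1 q.2.1 q.2.2)‖) (fun _ _ => norm_nonneg _) (Finset.mem_univ (l, j, i))
      linarith
  refine ⟨C1 * C2, one_le_mul_of_one_le_of_one_le hC1 hC2, ?_⟩
  intro x a hx i
  -- digits of the coordinates
  have hc : ∀ l : I, ∃ c : Fin p → F, B.repr (ι x) l = ∑ j, c j ^ p * t ^ (j : ℕ) ∧ ∀ j, ‖c j‖ ^ p ≤ ‖B.repr (ι x) l‖ :=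
    fun l => hF.dig _
  choose c hc1 hc2 using hc
  obtain ⟨e, he⟩ : ∃ e : Fin p → E, ∀ i, e i = ∑ q : I × Fin p, algebraMap F E (c q.1 q.2) * ι (β q.1 q.2 i) := ⟨_, fun _ => rfl⟩
  have hex : ι x = ∑ i, e i ^ p * algebraMap F E t ^ (i : ℕ) := by
    have h1 : ι x = ∑ l, B.repr (ι x) l • B l := (B.sum_repr (ι x)).symm
    have h2 : ∀ l, B.repr (ι x) l • B l = ∑ j, ∑ i, (algebraMap F E (c l j) * ι (β l j i)) ^ p * algebraMap F E t ^ (i : ℕ) := by
      intro l
      rw [hc1 l, hB l, Algebra.smul_def, map_sum, Finset.sum_mul]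
      refine Finset.sum_congr rfl fun j _ => ?_
      have h3 := congrArg ι (hβ l j)
      rw [map_mul, map_pow, hιX, map_sum] at h3
      rw [map_mul, map_pow, map_pow, mul_assoc, h3, Finset.mul_sum]
      refine Finset.sum_congr rfl fun i _ => ?_
      rw [map_mul, map_pow, map_pow, hιX, mul_pow]
      ring
    rw [h1]
    have h4 : ∀ i, e i ^ p * algebraMap F E t ^ (i : ℕ) =
        ∑ l, ∑ j, (algebraMap F E (c l j) * ι (β l j i)) ^ p * algebraMap F E t ^ (i : ℕ) := by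
      intro i
      rw [he i, sum_pow_char, Finset.sum_mul, Fintype.sum_prod_type]
    rw [Finset.sum_congr rfl fun l _ => h2 l, Finset.sum_congr rfl fun i _ => h4 i,
      Finset.sum_congr rfl fun l _ => Finset.sum_comm]
    exact Finset.sum_comm
  have hax : ι x = ∑ i, ι (a i) ^ p * algebraMap F E t ^ (i : ℕ) := by
    rw [hx, map_sum]
    refine Finset.sum_congr rfl fun i _ => ?_
    rw [map_mul, map_pow, map_pow, hιX]
  have hdiff : ∑ i, (ι (a i) - e i) ^ p * algebraMap F E t ^ (i : ℕ) = 0 := by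
    have h5 : ∀ i, (ι (a i) - e i) ^ p * algebraMap F E t ^ (i : ℕ) =
        ι (a i) ^ p * algebraMap F E t ^ (i : ℕ) - e i ^ p * algebraMap F E t ^ (i : ℕ) := by
      intro i
      rw [sub_pow_char, sub_mul]
    rw [Finset.sum_congr rfl fun i _ => h5 i, Finset.sum_sub_distrib, ← hax, ← hex, sub_self]
  have hae : ι (a i) = e i := sub_eq_zero.1 (pow_indep t htp _ hdiff i)
  obtain ⟨q, _, hq⟩ := IsUltrametricDist.exists_norm_finsetSum_le (Finset.univ : Finset (I × Fin p))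
    (fun q => algebraMap F E (c q.1 q.2) * ι (β q.1 q.2 i))
  rw [hae, he i]
  have h6 : ‖∑ q : I × Fin p, algebraMap F E (c q.1 q.2) * ι (β q.1 q.2 i)‖ ≤ ‖c q.1 q.2‖ * C2 := by
    refine hq.trans ?_
    rw [norm_mul, norm_algebraMap']
    exact mul_le_mul_of_nonneg_left (hβC _ _ _) (norm_nonneg _)
  have hC20 : 0 ≤ C2 := by linarith
  have hC10 : 0 ≤ C1 := by linarith
  calc ‖∑ q : I × Fin p, algebraMap F E (c q.1 q.2) * ι (β q.1 q.2 i)‖ ^ p ≤ (‖c q.1 q.2‖ * C2) ^ p :=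
        pow_le_pow_left₀ (norm_nonneg _) h6 p
    _ = ‖c q.1 q.2‖ ^ p * C2 ^ p := mul_pow _ _ _
    _ ≤ (C1 * ‖ι x‖) * C2 ^ p := mul_le_mul_of_nonneg_right ((hc2 q.1 q.2).trans (hco _ _)) (pow_nonneg hC20 p)
    _ ≤ (C1 ^ p * ‖ι x‖) * C2 ^ p := by
        refine mul_le_mul_of_nonneg_right (mul_le_mul_of_nonneg_right ?_ (norm_nonneg _)) (pow_nonneg hC20 p)
        exact le_self_pow₀ hC1 hp.ne'
    _ = (C1 * C2) ^ p * ‖ι x‖ := by rw [mul_pow]; ring

end Pool.Agent.Helper581_DML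

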