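import Mathlib
import Pool.Agent.Helper581_DML.Defs

/-!
Part E5 of the proof (helper581, MP_6ac234_nt): `iterate_digits`: from `p`-digits to `p^e`-digits with uniform bounds.
-/

set_option autoImplicit false

namespace Pool.Agent.Helper581_DML

lemma iterate_digits_sum_range_mul {M : Type*} [AddCommMonoid M] (f : ℕ → M) (m n : ℕ) :
    ∑ j ∈ Finset.range (m * n), f j =
      ∑ i ∈ Finset.range n, ∑ j ∈ Finset.range m, f (m * i + j) := by
  induction n with
  | zero => simp
  | succ n ih =>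
    rw [Nat.mul_succ, Finset.sum_range_add, ih, Finset.sum_range_succ]

lemma iterate_digits_group {p : ℕ} [Fact p.Prime] {L : Type*} [Field L] [CharP L p] (T : L)
    (e : ℕ) (a : ℕ → L) :
    ∑ j ∈ Finset.range (p ^ (e + 1)), a j ^ p ^ (e + 1) * T ^ j =
      ∑ j ∈ Finset.range (p ^ e),
        (∑ i : Fin p, a (p ^ e * (i : ℕ) + j) ^ p * T ^ (i : ℕ)) ^ p ^ e * T ^ j := by
  rw [pow_succ p e, iterate_digits_sum_range_mul, Finset.sum_comm]
  refine Finset.sum_congr rfl fun j _ => ?_
  rw [← Finset.sum_range (fun i : ℕ => a (p ^ e * i + j) ^ p * T ^ i), sum_pow_char_pow,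
    Finset.sum_mul]
  refine Finset.sum_congr rfl fun i _ => ?_
  rw [mul_pow, ← pow_mul, ← pow_mul, mul_assoc, ← pow_add, mul_comm p (p ^ e), mul_comm i (p ^ e)]

theorem iterate_digits {p : ℕ} [Fact p.Prime] {L : Type*} [Field L] [CharP L p] (T : L)
    (nu : L → ℝ) (hnu0 : ∀ x, 0 ≤ nu x) (O : Subring L) (D : L) (hD : D ∈ O) (C : ℝ) (hC : 1 ≤ C)
    (huniq : ∀ a : Fin p → L, ∑ i, a i ^ p * T ^ (i : ℕ) = 0 → ∀ i, a i = 0)
    (hex : ∀ x : L, ∃ a : Fin p → L, x = ∑ i, a i ^ p * T ^ (i : ℕ) ∧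
      (∀ i, nu (a i) ^ p ≤ C ^ p * nu x) ∧ (x ∈ O → ∀ i, D * a i ∈ O)) (e : ℕ) :
    (∀ a : ℕ → L, ∑ j ∈ Finset.range (p ^ e), a j ^ p ^ e * T ^ j = 0 → ∀ j < p ^ e, a j = 0) ∧
      ∀ x : L, ∃ a : ℕ → L, x = ∑ j ∈ Finset.range (p ^ e), a j ^ p ^ e * T ^ j ∧
        (∀ j < p ^ e, nu (a j) ^ p ^ e ≤ (C ^ 2) ^ p ^ e * nu x) ∧
        (x ∈ O → ∀ j < p ^ e, D ^ 2 * a j ∈ O) := by
  have hp : 2 ≤ p := (Fact.out : p.Prime).two_le
  have hC0 : (0 : ℝ) ≤ C := le_trans zero_le_one hC
  have huniq2 : ∀ a b : Fin p → L, ∑ i, a i ^ p * T ^ (i : ℕ) = ∑ i, b i ^ p * T ^ (i : ℕ) →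
      ∀ i, a i = b i := by
    intro a b h i
    have h1 : ∑ i, (a i - b i) ^ p * T ^ (i : ℕ) = 0 := by
      have h2 : ∀ i, (a i - b i) ^ p * T ^ (i : ℕ) =
          a i ^ p * T ^ (i : ℕ) - b i ^ p * T ^ (i : ℕ) := by
        intro i
        rw [sub_pow_char, sub_mul]
      rw [Finset.sum_congr rfl fun i _ => h2 i, Finset.sum_sub_distrib, h, sub_self]
    exact sub_eq_zero.mp (huniq (fun i => a i - b i) h1 i)
  induction e with
  | zero =>
    refine ⟨?_, ?_⟩
    · intro a ha j hj
      have hj0 : j = 0 := by simpa using hj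
      subst hj0
      simpa using ha
    · intro x
      refine ⟨fun _ => x, by simp, ?_, ?_⟩
      · intro j _
        have : (1 : ℝ) ≤ C ^ 2 := one_le_pow₀ hC
        simpa using le_mul_of_one_le_left (hnu0 x) this
      · intro hx j _
        exact O.mul_mem (O.pow_mem hD 2) hx
  | succ e ih =>
    obtain ⟨ihu, ihe⟩ := ih
    have hpe : 0 < p ^ e := pow_pos (by omega) e
    refine ⟨?_, ?_⟩
    · intro a ha j hj
      rw [iterate_digits_group] at ha
      have h1 := ihu (fun j => ∑ i : Fin p, a (p ^ e * (i : ℕ) + j) ^ p * T ^ (i : ℕ)) ha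
      have hjm : j % p ^ e < p ^ e := Nat.mod_lt _ hpe
      have hjd : j / p ^ e < p := by
        rw [Nat.div_lt_iff_lt_mul hpe, mul_comm, ← pow_succ]
        exact hj
      have h2 := huniq (fun i : Fin p => a (p ^ e * (i : ℕ) + j % p ^ e)) (h1 _ hjm) ⟨_, hjd⟩
      simpa [Nat.div_add_mod] using h2
    · intro x
      obtain ⟨b, hbx, hbn, hbO⟩ := ihe x
      choose c hc hcn hcO using hex
      refine ⟨fun j => if h : j / p ^ e < p then c (b (j % p ^ e)) ⟨j / p ^ e, h⟩ else 0,
        ?_, ?_, ?_⟩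
      · rw [iterate_digits_group]
        conv_lhs => rw [hbx]
        refine Finset.sum_congr rfl fun j hj => ?_
        rw [Finset.mem_range] at hj
        congr 2
        conv_lhs => rw [hc (b j)]
        refine Finset.sum_congr rfl fun i _ => ?_
        have h1 : (p ^ e * (i : ℕ) + j) / p ^ e = i := by
          rw [Nat.mul_add_div hpe, Nat.div_eq_of_lt hj, add_zero]
        have h2 : (p ^ e * (i : ℕ) + j) % p ^ e = j := by
          rw [Nat.mul_add_mod, Nat.mod_eq_of_lt hj]
        have h3 : (p ^ e * (i : ℕ) + j) / p ^ e < p := by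
          rw [h1]; exact i.2
        rw [dif_pos h3]
        congr 2
        simp only [h1, h2]
      · intro j hj
        have hjm : j % p ^ e < p ^ e := Nat.mod_lt _ hpe
        have hjd : j / p ^ e < p := by
          rw [Nat.div_lt_iff_lt_mul hpe, mul_comm, ← pow_succ]
          exact hj
        simp only [dif_pos hjd]
        have h1 := hcn (b (j % p ^ e)) ⟨j / p ^ e, hjd⟩
        have h2 := hbn (j % p ^ e) hjm
        set cc := c (b (j % p ^ e)) ⟨j / p ^ e, hjd⟩
        set bb := b (j % p ^ e)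
        have hx0 := hnu0 x
        have hb0 := hnu0 bb
        calc nu cc ^ p ^ (e + 1) = (nu cc ^ p) ^ p ^ e := by
              rw [← pow_mul, pow_succ, mul_comm]
          _ ≤ (C ^ p * nu bb) ^ p ^ e := by
              exact pow_le_pow_left₀ (pow_nonneg (hnu0 _) _) h1 _
          _ = (C ^ p) ^ p ^ e * nu bb ^ p ^ e := by rw [mul_pow]
          _ ≤ (C ^ p) ^ p ^ e * ((C ^ 2) ^ p ^ e * nu x) := by
              exact mul_le_mul_of_nonneg_left h2 (pow_nonneg (pow_nonneg hC0 _) _)
          _ = C ^ (p ^ (e + 1) + 2 * p ^ e) * nu x := by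
              rw [← mul_assoc, ← pow_mul, ← pow_mul, ← pow_add, pow_succ, mul_comm p (p ^ e)]
          _ ≤ C ^ (2 * p ^ (e + 1)) * nu x := by
              refine mul_le_mul_of_nonneg_right (pow_le_pow_right₀ hC ?_) hx0
              have : 2 * p ^ e ≤ p ^ (e + 1) := by
                rw [pow_succ, mul_comm]
                exact Nat.mul_le_mul_left _ hp
              omega
          _ = (C ^ 2) ^ p ^ (e + 1) * nu x := by rw [← pow_mul]
      · intro hxO j hj
        have hjm : j % p ^ e < p ^ e := Nat.mod_lt _ hpe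
        have hjd : j / p ^ e < p := by
          rw [Nat.div_lt_iff_lt_mul hpe, mul_comm, ← pow_succ]
          exact hj
        simp only [dif_pos hjd]
        have hz := hbO hxO (j % p ^ e) hjm
        set bb := b (j % p ^ e)
        set z := D ^ 2 * bb * D ^ (p - 2) with hzdef
        have hzO : z ∈ O := O.mul_mem hz (O.pow_mem hD _)
        have hw := hcO z hzO ⟨j / p ^ e, hjd⟩
        have key : ∑ i : Fin p, (D ^ 2 * c bb i) ^ p * T ^ (i : ℕ) =
            ∑ i : Fin p, (D * c z i) ^ p * T ^ (i : ℕ) := by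
          have h1 : ∑ i : Fin p, (D ^ 2 * c bb i) ^ p * T ^ (i : ℕ) = (D ^ 2) ^ p * bb := by
            conv_rhs => rw [hc bb]
            rw [Finset.mul_sum]
            refine Finset.sum_congr rfl fun i _ => ?_
            rw [mul_pow, mul_assoc]
          have h2 : ∑ i : Fin p, (D * c z i) ^ p * T ^ (i : ℕ) = D ^ p * z := by
            conv_rhs => rw [hc z]
            rw [Finset.mul_sum]
            refine Finset.sum_congr rfl fun i _ => ?_
            rw [mul_pow, mul_assoc]
          rw [h1, h2, hzdef]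
          have h3 : D ^ p = D ^ 2 * D ^ (p - 2) := by
            rw [← pow_add]; congr 1; omega
          calc (D ^ 2) ^ p * bb = D ^ p * D ^ p * bb := by
                rw [← pow_mul, ← pow_add]; congr 2; omega
            _ = D ^ p * (D ^ 2 * D ^ (p - 2)) * bb := by rw [← h3]
            _ = D ^ p * (D ^ 2 * bb * D ^ (p - 2)) := by ring
        have h4 := huniq2 _ _ key ⟨j / p ^ e, hjd⟩
        have h5 : D ^ 2 * c bb ⟨j / p ^ e, hjd⟩ = D * c z ⟨j / p ^ e, hjd⟩ := h4
        rw [h5]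
        exact hw

end Pool.Agent.Helper581_DML
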