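import Mathlib
import Pool.Agent.Helper581_DML.Defs
import Pool.Agent.Helper581_DML.E2
import Pool.Agent.Helper581_DML.E3
import Pool.Agent.Helper581_DML.E3u
import Pool.Agent.Helper581_DML.E4
import Pool.Agent.Helper581_DML.E5

/-!
Part E11a of the proof (helper581, MP_6ac234_nt): `digits`, the package of `p^e`-digits in a finite Galois extension of `RatFunc k`, with
bounds for all conjugates, from the lemmas proved in the imported files.

PLAIN PROOF. Let `T` be the image of `RatFunc.X` in `L`. For `σ : L ≃ₐ[RatFunc k] L` the embedding `ι.comp σ` satisfies the hypotheses of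
 `dig_norm` too (`σ T = T`, same range), so there is `C_σ ≥ 1`. Let `D0` be as in `dig_integral`, `O` the integral closure of
 `k[X]` in `L` as a subring. Apply `iterate_digits` for each `σ` with `nu x = ‖ι (σ x)‖`, `D = algebraMap k[X] L D0`, `C = C_σ`
 (the hypothesis `hex`: `dig_exists`, `dig_norm`, `dig_integral`; `D0 • a = algebraMap D0 * a`; `huniq`: `dig_unique`). This gives
 the uniqueness statement for every `e`, and for every `x` and `σ` digits `a^σ` with the bound for `σ`. By the uniqueness (applied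
 to the difference, `(a - b)^(p^e) = a^(p^e) - b^(p^e)`) the digits `a^σ_j`, `j < p^e`, do not depend on `σ`. So one `a` (for
 `σ = 1`) satisfies all the bounds, with `C = max_σ C_σ^2` (or the product of all `C_σ^2`), and `D = D0^2`.
-/

set_option autoImplicit false

namespace Pool.Agent.Helper581_DML

open Polynomial


theorem digits {p : ℕ} [Fact p.Prime] {k F E L : Type} [Field k] [IsAlgClosed k] [CharP k p]
    [NontriviallyNormedField F] [IsUltrametricDist F] [CompleteSpace F] [Algebra k F] (t : F)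
    (hF : LF p k F t) [NontriviallyNormedField E] [IsUltrametricDist E] [NormedAlgebra F E]
    [FiniteDimensional F E] [Algebra.IsSeparable F E]
    [Field L] [Algebra (RatFunc k) L] [Algebra k[X] L] [IsScalarTower k[X] (RatFunc k) L]
    [FiniteDimensional (RatFunc k) L] [IsGalois (RatFunc k) L] (ι : L →+* E)
    (hιX : ι (algebraMap (RatFunc k) L RatFunc.X) = algebraMap F E t)
    (hspan : Submodule.span F (Set.range ι) = ⊤) :
    ∃ (C : ℝ) (D : k[X]), 1 ≤ C ∧ D ≠ 0 ∧ ∀ e : ℕ,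
      (∀ a : ℕ → L, ∑ j ∈ Finset.range (p ^ e), a j ^ p ^ e *
          algebraMap (RatFunc k) L RatFunc.X ^ j = 0 → ∀ j < p ^ e, a j = 0) ∧
      ∀ x : L, ∃ a : ℕ → L, x = ∑ j ∈ Finset.range (p ^ e), a j ^ p ^ e *
          algebraMap (RatFunc k) L RatFunc.X ^ j ∧
        (∀ j < p ^ e, ∀ σ : L ≃ₐ[RatFunc k] L,
          ‖ι (σ (a j))‖ ^ p ^ e ≤ C ^ p ^ e * ‖ι (σ x)‖) ∧
        (IsIntegral k[X] x → ∀ j < p ^ e, IsIntegral k[X] (D • a j)) := by
  classical
  haveI hsep : Algebra.IsSeparable (RatFunc k) L := IsGalois.to_isSeparable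
  haveI hcR : CharP (RatFunc k) p :=
    charP_of_injective_algebraMap (algebraMap k (RatFunc k)).injective p
  haveI hcL : CharP L p :=
    charP_of_injective_algebraMap (algebraMap (RatFunc k) L).injective p
  obtain ⟨D0, hD0, hint⟩ := dig_integral (p := p) (k := k) (L := L)
  set T : L := algebraMap (RatFunc k) L RatFunc.X with hT
  let O : Subring L := (integralClosure k[X] L).toSubring
  have hO : ∀ x : L, x ∈ O ↔ IsIntegral k[X] x := fun x => Iff.rfl
  have hn : ∀ σ : L ≃ₐ[RatFunc k] L, ∃ C : ℝ, 1 ≤ C ∧ ∀ (x : L) (a : Fin p → L),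
      x = ∑ i, a i ^ p * algebraMap (RatFunc k) L RatFunc.X ^ (i : ℕ) →
      ∀ i, ‖ι (σ (a i))‖ ^ p ≤ C ^ p * ‖ι (σ x)‖ := by
    intro σ
    have hr : Set.range (ι.comp (σ : L →+* L)) = Set.range ι := by
      ext y
      constructor
      · rintro ⟨x, rfl⟩
        exact ⟨σ x, rfl⟩
      · rintro ⟨x, rfl⟩
        exact ⟨σ.symm x, by simp⟩
    obtain ⟨C, hC, h⟩ := dig_norm (p := p) (k := k) t hF (ι.comp (σ : L →+* L))
      (by
        have : (σ : L →+* L) (algebraMap (RatFunc k) L RatFunc.X) =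
            algebraMap (RatFunc k) L RatFunc.X := σ.commutes _
        rw [RingHom.comp_apply, this, hιX])
      (by rw [hr, hspan])
    exact ⟨C, hC, h⟩
  choose Cs hCs1 hCs using hn
  have hit : ∀ (σ : L ≃ₐ[RatFunc k] L) (e : ℕ),
      (∀ a : ℕ → L, ∑ j ∈ Finset.range (p ^ e), a j ^ p ^ e * T ^ j = 0 → ∀ j < p ^ e, a j = 0) ∧
      ∀ x : L, ∃ a : ℕ → L, x = ∑ j ∈ Finset.range (p ^ e), a j ^ p ^ e * T ^ j ∧
        (∀ j < p ^ e, ‖ι (σ (a j))‖ ^ p ^ e ≤ (Cs σ ^ 2) ^ p ^ e * ‖ι (σ x)‖) ∧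
        (x ∈ O → ∀ j < p ^ e, (algebraMap k[X] L D0) ^ 2 * a j ∈ O) := by
    intro σ e
    refine iterate_digits (p := p) T (fun x => ‖ι (σ x)‖) (fun x => norm_nonneg _) O
      (algebraMap k[X] L D0) ?_ (Cs σ) (hCs1 σ) ?_ ?_ e
    · rw [hO]; exact isIntegral_algebraMap
    · intro a ha
      exact dig_unique (k := k) a ha
    · intro x
      obtain ⟨a, ha⟩ := dig_exists (p := p) (k := k) x
      refine ⟨a, ha, hCs σ x a ha, ?_⟩
      intro hx i
      rw [hO] at hx ⊢
      have := hint x hx a ha i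
      rwa [Algebra.smul_def] at this
  haveI : Finite (L ≃ₐ[RatFunc k] L) := inferInstance
  obtain ⟨B, hB⟩ := (Set.finite_range (fun σ : L ≃ₐ[RatFunc k] L => Cs σ ^ 2)).bddAbove
  refine ⟨max 1 B, D0 ^ 2, le_max_left _ _, pow_ne_zero _ hD0, ?_⟩
  intro e
  refine ⟨(hit 1 e).1, ?_⟩
  intro x
  obtain ⟨a, hax, _, hai⟩ := (hit 1 e).2 x
  refine ⟨a, hax, ?_, ?_⟩
  · intro j hj σ
    obtain ⟨b, hbx, hbn, _⟩ := (hit σ e).2 x
    have hab : a j = b j := by
      have h0 : ∑ j ∈ Finset.range (p ^ e), (a j - b j) ^ p ^ e * T ^ j = 0 := by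
        have : ∀ j ∈ Finset.range (p ^ e), (a j - b j) ^ p ^ e * T ^ j =
            a j ^ p ^ e * T ^ j - b j ^ p ^ e * T ^ j := by
          intro j _
          rw [sub_pow_char_pow, sub_mul]
        rw [Finset.sum_congr rfl this, Finset.sum_sub_distrib, ← hax, ← hbx, sub_self]
      have := (hit 1 e).1 (fun j => a j - b j) h0 j hj
      exact sub_eq_zero.mp this
    rw [hab]
    refine (hbn j hj).trans ?_
    have h1 : Cs σ ^ 2 ≤ max 1 B := (hB ⟨σ, rfl⟩).trans (le_max_right _ _)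
    have h2 : (Cs σ ^ 2) ^ p ^ e ≤ (max 1 B) ^ p ^ e :=
      pow_le_pow_left₀ (sq_nonneg _) h1 _
    exact mul_le_mul_of_nonneg_right h2 (norm_nonneg _)
  · intro hx j hj
    have := hai ((hO x).2 hx) j hj
    rw [hO] at this
    rw [Algebra.smul_def, map_pow]
    exact this

end Pool.Agent.Helper581_DML
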