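import Mathlib
import Pool.Agent.Helper581_DML.Defs

set_option autoImplicit false

namespace Pool.Agent.Helper581_DML

open Polynomial

theorem prod_norm_ge {k L E : Type*} [Field k] [Field L] [Algebra (RatFunc k) L]
    [Algebra k[X] L] [IsScalarTower k[X] (RatFunc k) L] [FiniteDimensional (RatFunc k) L]
    [IsGalois (RatFunc k) L] [NormedField E] (ι : L →+* E)
    (hι : ∀ q : k[X], q ≠ 0 → 1 ≤ ‖ι (algebraMap k[X] L q)‖) (x : L) (hx : IsIntegral k[X] x)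
    (hx0 : x ≠ 0) : 1 ≤ ∏ σ : L ≃ₐ[RatFunc k] L, ‖ι (σ x)‖ := by
  have h1 : algebraMap (RatFunc k) L (Algebra.norm (RatFunc k) x) =
      ∏ σ : L ≃ₐ[RatFunc k] L, σ x := Algebra.norm_eq_prod_automorphisms (RatFunc k) x
  have h2 : IsIntegral k[X] (Algebra.norm (RatFunc k) x) := Algebra.isIntegral_norm (RatFunc k) hx
  obtain ⟨q, hq⟩ := IsIntegrallyClosed.isIntegral_iff.mp h2
  have h3 : Algebra.norm (RatFunc k) x ≠ 0 := Algebra.norm_ne_zero_iff.mpr hx0
  have hq0 : q ≠ 0 := by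
    rintro rfl
    exact h3 (by rw [← hq, map_zero])
  have h4 : ∏ σ : L ≃ₐ[RatFunc k] L, ‖ι (σ x)‖ = ‖ι (algebraMap k[X] L q)‖ := by
    rw [← norm_prod, ← map_prod, ← h1, ← hq, ← IsScalarTower.algebraMap_apply]
  rw [h4]
  exact hι q hq0

end Pool.Agent.Helper581_DML
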