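import Mathlib
import Pool.Agent.Helper581_DML.Defs

/-!
Part E7 of the proof (helper581, MP_6ac234_nt): `linalg`: approximate linear relations between elements of bounded height are exact
relations (Cramer's rule and the product formula).
Setting: `L` a field with the finite group `G = (L ≃ₐ[F0] L)`, `H ≤ G`, `K` the elements fixed by `H`, `ι` an embedding of `L` in an
ultrametric normed field; `O ⊆ L` a subring, stable under `G`, such that `∏_{σ ∈ G} ‖ι(σ x)‖ ≥ 1` for `x ∈ O`, `x ≠ 0`.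

PLAIN PROOF. Write `N(x) = ‖ι x‖` (multiplicative, ultrametric) and `m0 = H.index`, `|G| = m0 |H|`.
 (0) LIOUVILLE: if `x ∈ O`, `x ≠ 0` is fixed by `H` and `N(σ x) ≤ B` for all `σ`, then `N(x)^|H| B^(|G|-|H|) ≥ 1`, so
 `N(x) ≥ B^(-(m0-1))`, i.e. `N(x) * B^(m0-1) ≥ 1`; applied to `σ' x`? only `x` itself and, for the lower bound in (2), also: for every `σ`,
 `N(σ x) ≥ 1 / B^(|G|-1)` (if `B ≥ 1`; from the product over all of `G`).
 (1) CHOICE OF ROWS. Let `λ_j = (λ_j1, …, λ_jm) ∈ K^m` (`j < q`) be the rows. Choose indices `j_1, …, j_r` such that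
 `λ_{j_1}, …, λ_{j_r}` is a basis of the span (over the field `K`, or over `L`, it does not matter) of all rows, and complete it by
 standard basis vectors `e_i` to a basis of the row space `L^m` (Steinitz, e.g. extend a linearly independent family inside
 the family of all rows and all standard vectors). Let `P` be the `m × m` matrix with these rows (entries in `K`); `det P ≠ 0`.
 (2) BOUNDS. `N(σ P_ij) ≤ max C1 1`, so `N(σ det P) ≤ (max C1 1)^m`, the same for the entries of the adjugate (minors);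
 `D * P_ij ∈ O`, so `D^m det P ∈ O` and `D^m adj P` has entries in `O` (`D ∈ O`). By (0) `N(σ (D^m det P)) ≥ c > 0` with `c` depending only on
 `C1`, `m`, `D`, so `N(σ det P) ≥ c'`.
 (3) THE SOLUTION. Let `v ∈ K^m` be the vector with entry `y_{j_a}` in the place of the row `λ_{j_a}` and `0` in the places of the
 standard vectors; `c = P⁻¹ v = (det P)⁻¹ adj(P) v`. Its entries are fixed by `H` and `N(σ c_i) ≤ C' Y`. And `λ_{j_a} · c = y_{j_a}`.
 (4) ALL ROWS. Let `j < q`; `μ = λ_j adj(P)` (a row vector, entries in `K`), so `det P λ_j = ∑_a μ_a P_a`. As `λ_j` is in the span of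
 the `λ_{j_a}` and the rows of `P` are independent, `μ_a = 0` at the standard vectors. So `det P (λ_j · c) = ∑_a μ_a y_{j_a}`
 (sum over the rows of the first kind) and `δ = det P y_j - ∑_a μ_a y_{j_a}` is, since `det P (λ_j · ω) = ∑_a μ_a (λ_{j_a} · ω)`, also
 `δ = det P (y_j - λ_j · ω) - ∑_a μ_a (y_{j_a} - λ_{j_a} · ω)`, so `N(δ) ≤ C'' ε`, `N(σ δ) ≤ C'' Y`, and
 `D^(m+2) δ ∈ O` (`D^(m+1)` clears `μ_a`, `D` clears `y`). `δ` is fixed by `H`. If `δ ≠ 0`, (0) for `D^(m+2) δ` gives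
 `C''' ε (C''' Y)^(m0-1) ≥ 1`, contradicting `C4 Y^(m0-1) ε < 1` if `C4` is large. So `δ = 0` and `y_j = λ_j · c`.
 All constants depend only on `m, C1, D, G, ι`, not on `q, λ, y, Y, ε`.
-/

set_option autoImplicit false

namespace Pool.Agent.Helper581_DML


section helpers
variable {L E : Type*} [Field L] [NormedField E] [IsUltrametricDist E]

theorem E7.ultra_sum {κ : Type*} (f : L →+* E) (s : Finset κ) (g : κ → L) (B : ℝ) (hB : 0 ≤ B)
    (h : ∀ i ∈ s, ‖f (g i)‖ ≤ B) : ‖f (∑ i ∈ s, g i)‖ ≤ B := by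
  rw [map_sum]
  exact IsUltrametricDist.norm_sum_le_of_forall_le_of_nonneg hB h

theorem E7.ultra_sub (f : L →+* E) (x y : L) (B : ℝ) 
    (hx : ‖f x‖ ≤ B) (hy : ‖f y‖ ≤ B) : ‖f (x - y)‖ ≤ B := by
  rw [map_sub, sub_eq_add_neg]
  refine (IsUltrametricDist.norm_add_le_max _ _).trans ?_
  rw [norm_neg]
  exact max_le hx hy

theorem E7.det_bound (f : L →+* E) {m : ℕ} (M : Matrix (Fin m) (Fin m) L) (B : ℝ) (hB : 1 ≤ B)
    (h : ∀ i j, ‖f (M i j)‖ ≤ B) : ‖f M.det‖ ≤ B ^ m := by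
  have hB0 : 0 ≤ B := by linarith
  rw [Matrix.det_apply']
  refine E7.ultra_sum f _ _ _ (by positivity) ?_
  intro s _
  rw [map_mul, norm_mul, map_prod, norm_prod]
  have h1 : ‖f (((Equiv.Perm.sign s : ℤˣ) : ℤ) : L)‖ = 1 := by
    rcases Int.units_eq_one_or (Equiv.Perm.sign s) with h | h <;> simp [h]
  rw [h1, one_mul]
  calc ∏ i, ‖f (M (s i) i)‖ ≤ ∏ _i : Fin m, B :=
        Finset.prod_le_prod (fun i _ => norm_nonneg _) (fun i _ => h _ _)
    _ = B ^ m := by simp

theorem E7.adj_bound (f : L →+* E) {m : ℕ} (M : Matrix (Fin m) (Fin m) L) (B : ℝ) (hB : 1 ≤ B)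
    (h : ∀ i j, ‖f (M i j)‖ ≤ B) (i j : Fin m) : ‖f (M.adjugate i j)‖ ≤ B ^ m := by
  rw [Matrix.adjugate_apply]
  refine E7.det_bound f _ B hB ?_
  intro a b
  rw [Matrix.updateRow_apply]
  split_ifs
  · by_cases hb : b = i
    · subst hb; simpa using hB
    · rw [Pi.single_eq_of_ne hb, map_zero, norm_zero]; linarith
  · exact h a b

theorem E7.det_mem (O : Subring L) {m : ℕ} (M : Matrix (Fin m) (Fin m) L)
    (h : ∀ i j, M i j ∈ O) : M.det ∈ O := by
  rw [Matrix.det_apply']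
  refine Subring.sum_mem _ fun s _ => ?_
  refine Subring.mul_mem _ (intCast_mem O _) (Subring.prod_mem _ fun i _ => h _ _)

theorem E7.adj_mem (O : Subring L) {m : ℕ} (M : Matrix (Fin m) (Fin m) L)
    (h : ∀ i j, M i j ∈ O) (i j : Fin m) : M.adjugate i j ∈ O := by
  rw [Matrix.adjugate_apply]
  refine E7.det_mem O _ ?_
  intro a b
  rw [Matrix.updateRow_apply]
  split_ifs
  · by_cases hb : b = i
    · subst hb; simp
    · rw [Pi.single_eq_of_ne hb]; exact O.zero_mem
  · exact h a b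

/-- Linear algebra: completing the rows to a basis. -/
theorem E7.rows {m q : ℕ} (lam : Fin q → Fin m → L) :
    ∃ (P : Matrix (Fin m) (Fin m) L) (A : Fin m → Option (Fin q)), P.det ≠ 0 ∧
      (∀ a j, A a = some j → P a = lam j) ∧
      (∀ a, A a = none → ∃ i, P a = Pi.single i 1) ∧
      ∀ j, lam j ∈ Submodule.span L (P '' {a | A a ≠ none}) := by
  classical
  obtain ⟨b1, hb1, hspan1, hli1⟩ := exists_linearIndependent L (Set.range lam)
  have hli1' : LinearIndepOn L id b1 := hli1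
  obtain ⟨b, hb, hb1b, hspan, hli⟩ := exists_linearIndepOn_id_extension hli1'
    (t := b1 ∪ Set.range (fun i : Fin m => (Pi.single i 1 : Fin m → L))) Set.subset_union_left
  have htop : ⊤ ≤ Submodule.span L (Set.range (Subtype.val : b → (Fin m → L))) := by
    rw [Subtype.range_coe]
    have : (⊤ : Submodule L (Fin m → L)) =
        Submodule.span L (Set.range (fun i : Fin m => (Pi.single i 1 : Fin m → L))) := by
      have := (Pi.basisFun L (Fin m)).span_eq
      rw [← this]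
      congr 1
      ext x
      simp
    rw [this]
    refine Submodule.span_le.mpr ?_
    exact fun x hx => hspan (Or.inr hx)
  let Bs : Module.Basis b L (Fin m → L) := Module.Basis.mk hli htop
  have hfb : Finite b := Module.Finite.finite_basis Bs
  have : Fintype b := Fintype.ofFinite b
  have hcard : Fintype.card b = m := by
    have := Module.finrank_eq_card_basis Bs
    rw [Module.finrank_fin_fun] at this
    exact this.symm
  let e : Fin m ≃ b := (Fintype.equivFinOfCardEq hcard).symm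
  let P : Matrix (Fin m) (Fin m) L := fun a => (e a : Fin m → L)
  have hPli : LinearIndependent L P := by
    have : P = (fun x : b => (x : Fin m → L)) ∘ e := rfl
    rw [this]
    exact LinearIndependent.comp hli e e.injective
  let A : Fin m → Option (Fin q) := fun a =>
    if h : (e a : Fin m → L) ∈ b1 then some (Classical.choose (hb1 h)) else none
  refine ⟨P, A, ?_, ?_, ?_, ?_⟩
  · have := (Matrix.linearIndependent_rows_iff_isUnit (A := P)).mp hPli
    exact ((Matrix.isUnit_iff_isUnit_det P).mp this).ne_zero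
  · intro a j ha
    simp only [A] at ha
    split_ifs at ha with h
    have := Option.some.inj ha
    subst this
    exact (Classical.choose_spec (hb1 h)).symm
  · intro a ha
    simp only [A] at ha
    split_ifs at ha with h
    rcases hb (e a).2 with h' | ⟨i, hi⟩
    · exact absurd h' h
    · exact ⟨i, hi.symm⟩
  · intro j
    have h1 : lam j ∈ Submodule.span L b1 := by
      rw [hspan1]; exact Submodule.subset_span ⟨j, rfl⟩
    refine Submodule.span_mono ?_ h1
    intro x hx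
    refine ⟨e.symm ⟨x, hb1b hx⟩, ?_, ?_⟩
    · simp only [Set.mem_ofPred_eq, A]
      rw [dif_pos (by simpa using hx)]
      simp
    · simp [P]


omit [IsUltrametricDist E] in
/-- Liouville inequality. -/
theorem E7.liou {F0 : Type*} [Field F0] [Algebra F0 L] [FiniteDimensional F0 L]
    (ι : L →+* E) (H : Subgroup (L ≃ₐ[F0] L)) (x : L) (B : ℝ) (hB : 1 ≤ B)
    (hx : 1 ≤ ∏ σ : L ≃ₐ[F0] L, ‖ι (σ x)‖) (hH : ∀ τ ∈ H, τ x = x)
    (hb : ∀ σ : L ≃ₐ[F0] L, ‖ι (σ x)‖ ≤ B) : 1 ≤ ‖ι x‖ * B ^ (H.index - 1) := by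
  classical
  have hB0 : 0 < B := by linarith
  have h1 : ∏ σ : L ≃ₐ[F0] L, ‖ι (σ x)‖ ≤ ∏ σ : L ≃ₐ[F0] L, (if σ ∈ H then ‖ι x‖ else B) := by
    refine Finset.prod_le_prod (fun i _ => norm_nonneg _) (fun σ _ => ?_)
    split_ifs with h
    · rw [hH σ h]
    · exact hb σ
  rw [Finset.prod_ite] at h1
  simp only [Finset.prod_const] at h1
  set k := (Finset.univ.filter (fun σ : L ≃ₐ[F0] L => σ ∈ H)).card with hk
  have hkH : k = Nat.card H := by
    rw [hk, Nat.card_eq_fintype_card, Fintype.card_subtype]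
  have hkpos : 0 < k := by rw [hkH]; exact Nat.card_pos
  have hsum : k + (Finset.univ.filter (fun σ : L ≃ₐ[F0] L => ¬ σ ∈ H)).card =
      Fintype.card (L ≃ₐ[F0] L) := by
    rw [hk, Finset.card_filter_add_card_filter_not]
    rfl
  have hidx : k * H.index = Fintype.card (L ≃ₐ[F0] L) := by
    rw [hkH, Subgroup.card_mul_index, Nat.card_eq_fintype_card]
  have hidx0 : H.index ≠ 0 := by
    intro h0
    rw [h0, mul_zero] at hidx
    exact absurd hidx.symm (Fintype.card_ne_zero)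
  obtain ⟨t, ht⟩ : ∃ t, H.index = t + 1 := ⟨H.index - 1, by omega⟩
  have hc : (Finset.univ.filter (fun σ : L ≃ₐ[F0] L => ¬ σ ∈ H)).card = k * t := by
    rw [ht] at hidx
    have : k * (t + 1) = k + k * t := by ring
    omega
  rw [hc] at h1
  have h2 : ‖ι x‖ ^ k * B ^ (k * t) = (‖ι x‖ * B ^ t) ^ k := by
    rw [mul_pow, ← pow_mul, mul_comm k t]
  rw [h2] at h1
  have h3 : 1 ≤ (‖ι x‖ * B ^ t) ^ k := hx.trans h1
  have h4 : H.index - 1 = t := by omega
  rw [h4]
  by_contra hlt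
  push Not at hlt
  have h5 : (‖ι x‖ * B ^ t) ^ k < 1 := pow_lt_one₀ (by positivity) hlt hkpos.ne'
  linarith

omit [IsUltrametricDist E] in
theorem E7.inv_bound {F0 : Type*} [Field F0] [Algebra F0 L] [FiniteDimensional F0 L]
    (ι : L →+* E) (x : L) (B : ℝ) (hB : 1 ≤ B)
    (hx : 1 ≤ ∏ σ : L ≃ₐ[F0] L, ‖ι (σ x)‖) 
    (hb : ∀ σ : L ≃ₐ[F0] L, ‖ι (σ x)‖ ≤ B) (σ : L ≃ₐ[F0] L) :
    ‖ι (σ x⁻¹)‖ ≤ B ^ (Fintype.card (L ≃ₐ[F0] L) - 1) := by
  classical
  have hB0 : 0 < B := by linarith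
  have h1 : ∏ τ : L ≃ₐ[F0] L, ‖ι (τ x)‖ ≤
      ‖ι (σ x)‖ * B ^ (Fintype.card (L ≃ₐ[F0] L) - 1) := by
    rw [← Finset.mul_prod_erase Finset.univ _ (Finset.mem_univ σ)]
    refine mul_le_mul_of_nonneg_left ?_ (norm_nonneg _)
    calc ∏ τ ∈ Finset.univ.erase σ, ‖ι (τ x)‖ ≤ ∏ _τ ∈ Finset.univ.erase σ, B :=
          Finset.prod_le_prod (fun i _ => norm_nonneg _) (fun i _ => hb _)
      _ = _ := by
        rw [Finset.prod_const, Finset.card_erase_of_mem (Finset.mem_univ σ)]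
        rfl
  have h2 := hx.trans h1
  have h3 : ‖ι (σ x)‖ ≠ 0 := by
    intro h0
    rw [h0, zero_mul] at h2
    linarith
  have h4 : 0 < ‖ι (σ x)‖ := lt_of_le_of_ne (norm_nonneg _) (Ne.symm h3)
  rw [map_inv₀, map_inv₀, norm_inv, inv_le_iff_one_le_mul₀ h4]
  rwa [mul_comm] at h2

end helpers

open Matrix

theorem linalg {F0 L E : Type*} [Field F0] [Field L] [Algebra F0 L] [FiniteDimensional F0 L]
    [NormedField E] [IsUltrametricDist E] (ι : L →+* E) (H : Subgroup (L ≃ₐ[F0] L))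
    (O : Subring L) (hO : ∀ (σ : L ≃ₐ[F0] L), ∀ x ∈ O, σ x ∈ O)
    (hliou : ∀ x ∈ O, x ≠ 0 → 1 ≤ ∏ σ : L ≃ₐ[F0] L, ‖ι (σ x)‖)
    (m : ℕ) (ω : Fin m → L) (D : L) (hD : D ∈ O) (hD0 : D ≠ 0) (hDH : ∀ τ ∈ H, τ D = D)
    (C1 : ℝ) :
    ∃ C4 : ℝ, 1 ≤ C4 ∧ ∀ (q : ℕ) (lam : Fin q → Fin m → L) (y : Fin q → L) (Y ε : ℝ),
      1 ≤ Y → 0 ≤ ε →
      (∀ j i, ∀ τ ∈ H, τ (lam j i) = lam j i) → (∀ j, ∀ τ ∈ H, τ (y j) = y j) →
      (∀ j i, D * lam j i ∈ O) → (∀ j, D * y j ∈ O) →
      (∀ j i, ∀ σ : L ≃ₐ[F0] L, ‖ι (σ (lam j i))‖ ≤ C1) →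
      (∀ j, ∀ σ : L ≃ₐ[F0] L, ‖ι (σ (y j))‖ ≤ Y) →
      (∀ j, ‖ι (y j - ∑ i, lam j i * ω i)‖ ≤ ε) →
      C4 * Y ^ (H.index - 1) * ε < 1 →
      ∃ c : Fin m → L, (∀ i, ∀ τ ∈ H, τ (c i) = c i) ∧ (∀ j, y j = ∑ i, lam j i * c i) ∧
        ∀ i, ∀ σ : L ≃ₐ[F0] L, ‖ι (σ (c i))‖ ≤ C4 * Y := by
  classical
  obtain ⟨B0, hB0, hDB⟩ : ∃ B0 : ℝ, 1 ≤ B0 ∧ ∀ σ : L ≃ₐ[F0] L, ‖ι (σ D)‖ ≤ B0 := by
    refine ⟨max 1 (∑ σ : L ≃ₐ[F0] L, ‖ι (σ D)‖), le_max_left _ _, fun σ => ?_⟩
    exact (Finset.single_le_sum (f := fun σ : L ≃ₐ[F0] L => ‖ι (σ D)‖)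
      (fun i _ => norm_nonneg _) (Finset.mem_univ σ)).trans (le_max_right _ _)
  set C2 : ℝ := B0 * max 1 C1 with hC2
  have hC21 : 1 ≤ C2 := by
    rw [hC2]
    exact one_le_mul_of_one_le_of_one_le hB0 (le_max_left _ _)
  set K1 : ℝ := C2 ^ (m + 1) * B0 with hK1
  have hK11 : 1 ≤ K1 := one_le_mul_of_one_le_of_one_le (one_le_pow₀ hC21) hB0
  set K2 : ℝ := (C2 ^ m) ^ (Fintype.card (L ≃ₐ[F0] L) - 1) * (C2 ^ m * B0) with hK2
  refine ⟨max (K1 ^ H.index) K2, (one_le_pow₀ hK11).trans (le_max_left _ _), ?_⟩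
  intro q lam y Y ε hY hε hlamH hyH hlamO hyO hlamB hyB happ hsmall
  set lam' : Fin q → Fin m → L := fun j i => D * lam j i with hlam'
  set y' : Fin q → L := fun j => D * y j with hy'
  have hlam'H : ∀ j i, ∀ τ ∈ H, τ (lam' j i) = lam' j i := by
    intro j i τ hτ
    simp only [hlam', map_mul, hDH τ hτ, hlamH j i τ hτ]
  have hy'H : ∀ j, ∀ τ ∈ H, τ (y' j) = y' j := by
    intro j τ hτ
    simp only [hy', map_mul, hDH τ hτ, hyH j τ hτ]
  have hlam'B : ∀ j i, ∀ σ : L ≃ₐ[F0] L, ‖ι (σ (lam' j i))‖ ≤ C2 := by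
    intro j i σ
    simp only [hlam', map_mul, norm_mul]
    exact mul_le_mul (hDB σ) ((hlamB j i σ).trans (le_max_right _ _)) (norm_nonneg _) (by linarith)
  have hy'B : ∀ j, ∀ σ : L ≃ₐ[F0] L, ‖ι (σ (y' j))‖ ≤ B0 * Y := by
    intro j σ
    simp only [hy', map_mul, norm_mul]
    exact mul_le_mul (hDB σ) (hyB j σ) (norm_nonneg _) (by linarith)
  obtain ⟨P, A, hdet, hPs, hPn, hspan⟩ := E7.rows lam'
  have hPO : ∀ a i, P a i ∈ O := by
    intro a i
    rcases hA : A a with _ | j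
    · obtain ⟨k, hk⟩ := hPn a hA
      rw [hk]
      by_cases h : i = k
      · subst h; simp
      · rw [Pi.single_eq_of_ne h]; exact O.zero_mem
    · rw [hPs a j hA]; exact hlamO j i
  have hPH : ∀ a i, ∀ τ ∈ H, τ (P a i) = P a i := by
    intro a i τ hτ
    rcases hA : A a with _ | j
    · obtain ⟨k, hk⟩ := hPn a hA
      rw [hk]
      by_cases h : i = k
      · subst h; simp
      · rw [Pi.single_eq_of_ne h, map_zero]
    · rw [hPs a j hA]; exact hlam'H j i τ hτ
  have hPB : ∀ (σ : L ≃ₐ[F0] L) a i, ‖ι (σ (P a i))‖ ≤ C2 := by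
    intro σ a i
    rcases hA : A a with _ | j
    · obtain ⟨k, hk⟩ := hPn a hA
      rw [hk]
      by_cases h : i = k
      · subst h; simpa using hC21
      · rw [Pi.single_eq_of_ne h, map_zero, map_zero, norm_zero]; linarith
    · rw [hPs a j hA]; exact hlam'B j i σ
  let fσ : (L ≃ₐ[F0] L) → (L →+* E) := fun σ => ι.comp (σ : L →+* L)
  have hfσ : ∀ σ x, fσ σ x = ι (σ x) := fun σ x => rfl
  have hdetO : P.det ∈ O := E7.det_mem O P hPO
  have hadjO : ∀ i j, P.adjugate i j ∈ O := E7.adj_mem O P hPO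
  have hdetB : ∀ σ : L ≃ₐ[F0] L, ‖ι (σ P.det)‖ ≤ C2 ^ m := fun σ =>
    E7.det_bound (fσ σ) P C2 hC21 (hPB σ)
  have hadjB : ∀ (σ : L ≃ₐ[F0] L) i j, ‖ι (σ (P.adjugate i j))‖ ≤ C2 ^ m := fun σ i j =>
    E7.adj_bound (fσ σ) P C2 hC21 (hPB σ) i j
  have hPmap : ∀ τ ∈ H, (τ : L →+* L).mapMatrix P = P := by
    intro τ hτ
    ext a i
    exact hPH a i τ hτ
  have hdetH : ∀ τ ∈ H, τ P.det = P.det := by
    intro τ hτ
    have := RingHom.map_det (τ : L →+* L) P
    rw [hPmap τ hτ] at this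
    exact this
  have hadjH : ∀ i j, ∀ τ ∈ H, τ (P.adjugate i j) = P.adjugate i j := by
    intro i j τ hτ
    have := RingHom.map_adjugate (τ : L →+* L) P
    rw [hPmap τ hτ] at this
    exact congrFun (congrFun this i) j
  let v : Fin m → L := fun a => match A a with
    | none => 0
    | some j => y' j
  have hvO : ∀ a, v a ∈ O := by
    intro a
    rcases hA : A a with _ | j
    · simp only [v, hA]; exact O.zero_mem
    · simp only [v, hA]; exact hyO j
  have hvH : ∀ a, ∀ τ ∈ H, τ (v a) = v a := by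
    intro a τ hτ
    rcases hA : A a with _ | j
    · simp only [v, hA]; exact map_zero _
    · simp only [v, hA]; exact hy'H j τ hτ
  have hBY : 0 ≤ B0 * Y := by positivity
  have hvB : ∀ a, ∀ σ : L ≃ₐ[F0] L, ‖ι (σ (v a))‖ ≤ B0 * Y := by
    intro a σ
    rcases hA : A a with _ | j
    · simp only [v, hA, map_zero, norm_zero]; exact hBY
    · simp only [v, hA]; exact hy'B j σ
  -- the solution
  let c : Fin m → L := fun i => P.det⁻¹ * ∑ a, P.adjugate i a * v a
  have hcP : ∀ a, ∑ i, P a i * c i = v a := by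
    intro a
    have h1 : P *ᵥ (P.adjugate *ᵥ v) = P.det • v := by
      rw [Matrix.mulVec_mulVec, Matrix.mul_adjugate, Matrix.smul_mulVec, Matrix.one_mulVec]
    have h2 : c = P.det⁻¹ • (P.adjugate *ᵥ v) := by
      ext i
      simp [c, Matrix.mulVec, dotProduct]
    have h3 : ∑ i, P a i * c i = (P *ᵥ c) a := rfl
    rw [h3, h2, Matrix.mulVec_smul, h1, smul_smul, inv_mul_cancel₀ hdet, one_smul]
  have hcH : ∀ i, ∀ τ ∈ H, τ (c i) = c i := by
    intro i τ hτ
    simp only [c, map_mul, map_inv₀, map_sum, hdetH τ hτ]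
    congr 1
    refine Finset.sum_congr rfl fun a _ => ?_
    rw [hadjH i a τ hτ, hvH a τ hτ]
  have hcB : ∀ i, ∀ σ : L ≃ₐ[F0] L, ‖ι (σ (c i))‖ ≤ K2 * Y := by
    intro i σ
    simp only [c, map_mul, norm_mul]
    have h1 := E7.inv_bound ι P.det (C2 ^ m) (one_le_pow₀ hC21) (hliou _ hdetO hdet) hdetB σ
    have h2 : ‖ι (σ (∑ a, P.adjugate i a * v a))‖ ≤ C2 ^ m * (B0 * Y) := by
      refine E7.ultra_sum (fσ σ) _ _ _ (by positivity) ?_
      intro a _
      rw [map_mul, norm_mul]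
      exact mul_le_mul (hadjB σ i a) (hvB a σ) (norm_nonneg _) (by positivity)
    calc ‖ι (σ P.det⁻¹)‖ * ‖ι (σ (∑ a, P.adjugate i a * v a))‖
        ≤ (C2 ^ m) ^ (Fintype.card (L ≃ₐ[F0] L) - 1) * (C2 ^ m * (B0 * Y)) :=
          mul_le_mul h1 h2 (norm_nonneg _) (by positivity)
      _ = K2 * Y := by rw [hK2]; ring
  -- the coefficients of the rows
  let μ : Fin q → Fin m → L := fun j => lam' j ᵥ* P.adjugate
  have hμd : ∀ j a, μ j a = ∑ i, lam' j i * P.adjugate i a := fun _ _ => rfl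
  have hμ0 : ∀ j a, A a = none → μ j a = 0 := by
    intro j a ha
    have : ∀ x ∈ Submodule.span L (P '' {a | A a ≠ none}), (x ᵥ* P.adjugate) a = 0 := by
      intro x hx
      induction hx using Submodule.span_induction with
      | mem x hx =>
        obtain ⟨a', ha', rfl⟩ := hx
        have h1 : (P a' ᵥ* P.adjugate) a = (P * P.adjugate) a' a := rfl
        rw [h1, Matrix.mul_adjugate]
        have h2 : a' ≠ a := by
          rintro rfl
          exact ha' ha
        simp [Matrix.one_apply_ne h2]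
      | zero => simp
      | add x y _ _ hx hy => rw [Matrix.add_vecMul, Pi.add_apply, hx, hy, add_zero]
      | smul c x _ hx => rw [Matrix.smul_vecMul, Pi.smul_apply, hx, smul_zero]
    exact this _ (hspan j)
  have hμO : ∀ j a, μ j a ∈ O := by
    intro j a
    rw [hμd]
    exact Subring.sum_mem _ fun i _ => Subring.mul_mem _ (hlamO j i) (hadjO i a)
  have hμH : ∀ j a, ∀ τ ∈ H, τ (μ j a) = μ j a := by
    intro j a τ hτ
    simp only [μ, Matrix.vecMul, dotProduct, map_sum, map_mul]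
    refine Finset.sum_congr rfl fun i _ => ?_
    rw [hlam'H j i τ hτ, hadjH i a τ hτ]
  have hμB : ∀ j a, ∀ σ : L ≃ₐ[F0] L, ‖ι (σ (μ j a))‖ ≤ C2 ^ (m + 1) := by
    intro j a σ
    rw [hμd, ← hfσ]
    refine E7.ultra_sum (fσ σ) _ _ _ (by positivity) ?_
    intro i _
    rw [map_mul, norm_mul, pow_succ, mul_comm]
    exact mul_le_mul (hadjB σ i a) (hlam'B j i σ) (norm_nonneg _) (by positivity)
  have hμP : ∀ j (z : Fin m → L), ∑ a, μ j a * (∑ i, P a i * z i) =
      P.det * ∑ i, lam' j i * z i := by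
    intro j z
    have h1 : ∑ a, μ j a * (∑ i, P a i * z i) = μ j ⬝ᵥ (P *ᵥ z) := rfl
    have h2 : μ j ⬝ᵥ (P *ᵥ z) = (μ j ᵥ* P) ⬝ᵥ z := Matrix.dotProduct_mulVec _ _ _
    have h3 : μ j ᵥ* P = P.det • lam' j := by
      simp only [μ]
      rw [Matrix.vecMul_vecMul, Matrix.adjugate_mul, Matrix.vecMul_smul, Matrix.vecMul_one]
    rw [h1, h2, h3, smul_dotProduct]
    rfl
  have hkey : ∀ j, P.det * y' j = ∑ a, μ j a * v a := by
    intro j
    by_contra hne
    set δ : L := P.det * y' j - ∑ a, μ j a * v a with hδ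
    have hδ0 : δ ≠ 0 := sub_ne_zero.mpr hne
    have hδO : δ ∈ O := Subring.sub_mem _ (Subring.mul_mem _ hdetO (hyO j))
      (Subring.sum_mem _ fun a _ => Subring.mul_mem _ (hμO j a) (hvO a))
    have hδH : ∀ τ ∈ H, τ δ = δ := by
      intro τ hτ
      rw [hδ, map_sub, map_mul, map_sum, hdetH τ hτ, hy'H j τ hτ]
      congr 1
      refine Finset.sum_congr rfl fun a _ => ?_
      rw [map_mul, hμH j a τ hτ, hvH a τ hτ]
    have hCm : C2 ^ m ≤ C2 ^ (m + 1) := pow_le_pow_right₀ hC21 (by omega)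
    have hC2p : 0 ≤ C2 ^ m := by positivity
    have hδB : ∀ σ : L ≃ₐ[F0] L, ‖ι (σ δ)‖ ≤ K1 * Y := by
      intro σ
      refine E7.ultra_sub (fσ σ) _ _ _ ?_ ?_
      · rw [map_mul, norm_mul, hK1, mul_assoc]
        exact mul_le_mul ((hdetB σ).trans hCm) (hy'B j σ) (norm_nonneg _) (by positivity)
      · refine E7.ultra_sum (fσ σ) _ _ _ (by positivity) ?_
        intro a _
        rw [map_mul, norm_mul, hK1, mul_assoc]
        exact mul_le_mul (hμB j a σ) (hvB a σ) (norm_nonneg _) (by positivity)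
    have hone : ‖ι (1 : L)‖ = 1 := by simp
    have happ' : ∀ j, ‖ι (y' j - ∑ i, lam' j i * ω i)‖ ≤ B0 * ε := by
      intro j
      have h1 : y' j - ∑ i, lam' j i * ω i = D * (y j - ∑ i, lam j i * ω i) := by
        simp only [hy', hlam', mul_sub, Finset.mul_sum, mul_assoc]
      rw [h1, map_mul, norm_mul]
      have h2 := hDB (AlgEquiv.refl)
      exact mul_le_mul h2 (happ j) (norm_nonneg _) (by positivity)
    have hδε : ‖ι δ‖ ≤ K1 * ε := by
      have h1 : δ = P.det * (y' j - ∑ i, lam' j i * ω i) -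
          ∑ a, μ j a * (v a - ∑ i, P a i * ω i) := by
        have h2 : ∑ a, μ j a * (v a - ∑ i, P a i * ω i) =
            ∑ a, μ j a * v a - P.det * ∑ i, lam' j i * ω i := by
          rw [← hμP j ω, ← Finset.sum_sub_distrib]
          refine Finset.sum_congr rfl fun a _ => ?_
          ring
        rw [h2, hδ]
        ring
      rw [h1]
      refine E7.ultra_sub ι _ _ _ ?_ ?_
      · rw [map_mul, norm_mul, hK1, mul_assoc]
        have := hdetB AlgEquiv.refl
        exact mul_le_mul (this.trans hCm) (happ' j) (norm_nonneg _) (by positivity)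
      · refine E7.ultra_sum ι _ _ _ (by positivity) ?_
        intro a _
        rcases hA : A a with _ | j'
        · rw [hμ0 j a hA, zero_mul, map_zero, norm_zero]; positivity
        · rw [map_mul, norm_mul, hK1, mul_assoc]
          have h3 : v a - ∑ i, P a i * ω i = y' j' - ∑ i, lam' j' i * ω i := by
            rw [hPs a j' hA]
            simp only [v, hA]
          rw [h3]
          have := hμB j a AlgEquiv.refl
          exact mul_le_mul this (happ' j') (norm_nonneg _) (by positivity)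
    have hKY : 1 ≤ K1 * Y := one_le_mul_of_one_le_of_one_le hK11 hY
    have hL := E7.liou ι H δ (K1 * Y) hKY (hliou δ hδO hδ0) hδH hδB
    have hidx0 : H.index ≠ 0 := Subgroup.FiniteIndex.index_ne_zero
    obtain ⟨t, ht⟩ : ∃ t, H.index = t + 1 := ⟨H.index - 1, by omega⟩
    have ht' : H.index - 1 = t := by omega
    rw [ht'] at hL hsmall
    have h5 : ‖ι δ‖ * (K1 * Y) ^ t ≤ K1 * ε * (K1 * Y) ^ t :=
      mul_le_mul_of_nonneg_right hδε (by positivity)
    have h6 : K1 * ε * (K1 * Y) ^ t = K1 ^ H.index * Y ^ t * ε := by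
      rw [ht]; ring
    have h7 : K1 ^ H.index * Y ^ t * ε ≤ max (K1 ^ H.index) K2 * Y ^ t * ε := by
      gcongr
      exact le_max_left _ _
    linarith
  refine ⟨c, hcH, ?_, ?_⟩
  · intro j
    have h1 := hμP j c
    simp only [hcP] at h1
    rw [← hkey j] at h1
    have h2 : y' j = ∑ i, lam' j i * c i := mul_left_cancel₀ hdet h1
    have h3 : D * y j = D * ∑ i, lam j i * c i := by
      have : ∑ i, lam' j i * c i = D * ∑ i, lam j i * c i := by
        simp only [hlam', Finset.mul_sum, mul_assoc]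
      rw [← this, ← h2]
    exact mul_left_cancel₀ hD0 h3
  · intro i σ
    refine (hcB i σ).trans ?_
    exact mul_le_mul_of_nonneg_right (le_max_right _ _) (by linarith)

end Pool.Agent.Helper581_DML
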