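import Mathlib
import Pool.Agent.Helper581_DML.Defs

set_option autoImplicit false

namespace Pool.Agent.Helper581_DML

theorem dual_system {F0 L : Type*} [Field F0] [Field L] [Algebra F0 L] [FiniteDimensional F0 L]
    (H : Subgroup (L ≃ₐ[F0] L)) :
    ∃ (m : ℕ) (ω ω' : Fin m → L), ∑ i, ω i * ω' i = 1 ∧
      ∀ τ ∈ H, τ ≠ 1 → ∑ i, ω i * τ (ω' i) = 0 := by
  classical
  have hfin : Fintype H := Fintype.ofFinite H
  let ev : L → (H → L) := fun x τ => (τ : L ≃ₐ[F0] L) x
  have htop : Submodule.span L (Set.range ev) = ⊤ := by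
    by_contra hne
    obtain ⟨f, hf0, hf⟩ := Submodule.exists_le_ker_of_lt_top _ (lt_top_iff_ne_top.2 hne)
    apply hf0
    have hsum : ∀ v : H → L, f v = ∑ τ : H, v τ * f (Pi.single τ 1) := by
      intro v
      conv_lhs => rw [← Finset.univ_sum_single v]
      rw [map_sum]
      refine Finset.sum_congr rfl fun τ _ => ?_
      have : (Pi.single τ (v τ) : H → L) = v τ • (Pi.single τ 1 : H → L) := by
        rw [← Pi.single_smul, smul_eq_mul, mul_one]
      rw [this, map_smul, smul_eq_mul]
    have hli := linearIndependent_toLinearMap F0 L L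
    let emb : H → (L →ₐ[F0] L) := fun τ => ((τ : L ≃ₐ[F0] L) : L →ₐ[F0] L)
    have hemb : Function.Injective emb := by
      intro a b hab
      apply Subtype.ext
      apply AlgEquiv.ext
      intro x
      exact congrArg (fun g : L →ₐ[F0] L => g x) hab
    have hli2 := hli.comp emb hemb
    rw [Fintype.linearIndependent_iff] at hli2
    have hc := hli2 (fun τ => f (Pi.single τ 1)) (by
      apply LinearMap.ext
      intro x
      have h1 : f (ev x) = 0 := hf (Submodule.subset_span ⟨x, rfl⟩)
      rw [hsum] at h1
      simp only [LinearMap.sum_apply, LinearMap.smul_apply, Function.comp, LinearMap.zero_apply,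
        smul_eq_mul]
      rw [← h1]
      refine Finset.sum_congr rfl fun τ _ => ?_
      rw [mul_comm]
      rfl)
    apply LinearMap.ext
    intro v
    rw [hsum]
    simp [hc]
  have hmem : (Pi.single (1 : H) (1 : L) : H → L) ∈ Submodule.span L (Set.range ev) := by
    rw [htop]; trivial
  obtain ⟨c, hc⟩ := (Finsupp.mem_span_range_iff_exists_finsupp).1 hmem
  have e := c.support.equivFin
  refine ⟨c.support.card, fun i => c (e.symm i), fun i => (e.symm i : L), ?_, ?_⟩
  · have h1 := congrFun hc (1 : H)
    rw [Pi.single_eq_same] at h1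
    rw [← h1, Finsupp.sum, Finset.sum_apply]
    rw [← Finset.sum_coe_sort c.support]
    exact e.symm.sum_comp (fun i : c.support => c (i : L) * (i : L))
  · intro τ hτ hne
    have h1 := congrFun hc (⟨τ, hτ⟩ : H)
    rw [Pi.single_eq_of_ne (by intro h; exact hne (congrArg Subtype.val h))] at h1
    rw [← h1, Finsupp.sum, Finset.sum_apply]
    rw [← Finset.sum_coe_sort c.support]
    exact e.symm.sum_comp (fun i : c.support => c (i : L) * τ (i : L))

end Pool.Agent.Helper581_DML
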