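import Mathlib
import Pool.Agent.Helper581_DML.Defs
import Pool.Agent.Helper581_DML.E11a
import Pool.Agent.Helper581_DML.E6
import Pool.Agent.Helper581_DML.E7
import Pool.Agent.Helper581_DML.E8

/-!
Part E11b of the proof (helper581, MP_6ac234_nt): `repr_close`: elements `y` of the field `K = L^H`, integral over `k[X]`, that are very close to a
fixed `α ∈ L`, have a representation `σ y = ∑_{τ ∈ H} σ τ α * l_τ^(p^e)` with bounded `l_τ`, from the lemmas stated
(proved in the imported files).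

PLAIN PROOF. Write `T` for the image of `RatFunc.X` in `L`, `N(x) = ‖ι x‖`, `G` the group of automorphisms, `m0 = H.index`.
 `‖ι (algebraMap k[X] L q)‖ = ‖t‖^(natDegree q) ≥ 1` for `q ≠ 0` by `hιX`, `hιC`, `LF.norm_poly`. Let `O` be the subring of elements
 integral over `k[X]`; `hliou` of `linalg` is `prod_norm_ge`.
 DATA. `(C, D)` from `digits`; `(m, ω, ω')` from `dual_system`; nonzero polynomials `D1`, `D2` with `D1 • α`, `D2 • ω'_i` integral
 (`exists_integral_multiple`; common). Let `Dtot = D * D1 * D2` (its image in `L` is fixed by `G`), `C1` a bound with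
 `C1 ≥ C * max(1, N(σ α)) * N(σ ω'_i)` for all `σ, i`. `C4` from `linalg` for these data (`ω`, `Dtot`, `C1`).
 DIGITS OF `α`. Fix `e`, `q = p^e`. Let `b_j`, `j < q`, be the digits of `α`, `N(σ b_j) ≤ C max(1, N(σ α))`. Since `D1 α` is integral, so is
 `D1^q α` and `D1^q α = ∑ (D1 b_j)^q T^j` has the digits `D1 b_j` (uniqueness), so `D D1 b_j` is integral.
 `λ_ji := ∑_{τ ∈ H} τ(ω'_i b_j)`: fixed by `H`, `N(σ λ_ji) ≤ C1`, `Dtot λ_ji` integral, and
 `∑_i λ_ji ω_i = ∑_{τ ∈ H} τ(b_j) ∑_i ω_i τ(ω'_i) = b_j` (`dual_system`).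
 DIGITS OF `y`. Let `y` be integral, fixed by `H`, `N(σ y) ≤ B^q` for all `σ`, `B ≥ 1`, and `N(y - α) ≤ δ^q`, `δ > 0`. Let `y_j` be the
 digits of `y`: fixed by `H` (uniqueness: `τ y_j` are also digits of `τ y = y`), `N(σ y_j) ≤ C B` , `D y_j` integral, and
 `y_j - b_j` are the digits of `y - α`, so `N(y_j - b_j) ≤ C δ`. If `C4 (C B)^(m0-1) (C δ) < 1`, `linalg` (with `Y = C B`, `ε = C δ`) gives
 `c_i`, fixed by `H`, `N(σ c_i) ≤ C4 C B`, with `y_j = ∑_i λ_ji c_i`. Then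
 `y = ∑_j T^j y_j^q = ∑_i c_i^q ∑_j T^j λ_ji^q = ∑_i c_i^q ∑_{τ ∈ H} τ(ω'_i)^q τ(∑_j T^j b_j^q) = ∑_{τ ∈ H} τ(α) (∑_i c_i τ(ω'_i))^q`
 (`q`-th powers are additive, `τ T = T`). Apply `σ`: `σ y = ∑_{τ ∈ H} σ τ α * (σ (∑_i c_i τ(ω'_i)))^q`, and the norms of the images of
 `l_τ = σ (∑_i c_i τ(ω'_i))` are at most `C4 C B max N(σ τ ω'_i)`. So take `C5` a large constant times: condition
 `C5 * B^(m0-1) * δ < 1` implies the needed inequality, and `‖ι l_τ‖ ≤ C5 * B`.
-/

set_option autoImplicit false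

namespace Pool.Agent.Helper581_DML

open Polynomial


theorem rc_iota {k F E L : Type} [Field k]
    [NontriviallyNormedField F] [Algebra k F] (t : F)
    [NontriviallyNormedField E] [NormedAlgebra F E]
    [Field L] [Algebra (RatFunc k) L] [Algebra k[X] L] [IsScalarTower k[X] (RatFunc k) L]
    (ι : L →+* E)
    (hιX : ι (algebraMap (RatFunc k) L RatFunc.X) = algebraMap F E t)
    (hιC : ∀ c, ι (algebraMap (RatFunc k) L (RatFunc.C c)) = algebraMap F E (algebraMap k F c))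
    (q : k[X]) : ι (algebraMap k[X] L q) = algebraMap F E (aeval t q) := by
  have h : (ι.comp (algebraMap k[X] L)) = (algebraMap F E).comp (aeval t : k[X] →ₐ[k] F).toRingHom := by
    apply Polynomial.ringHom_ext
    · intro c
      simp only [RingHom.comp_apply, AlgHom.toRingHom_eq_coe, RingHom.coe_coe, aeval_C]
      rw [← hιC, IsScalarTower.algebraMap_apply k[X] (RatFunc k) L, RatFunc.algebraMap_C]
    · simp only [RingHom.comp_apply, AlgHom.toRingHom_eq_coe, RingHom.coe_coe, aeval_X]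
      rw [← hιX, IsScalarTower.algebraMap_apply k[X] (RatFunc k) L, RatFunc.algebraMap_X]
  exact congrArg (fun f : k[X] →+* E => f q) h

theorem rc_fix {k L : Type} [Field k] [Field L] [Algebra (RatFunc k) L] [Algebra k[X] L]
    [IsScalarTower k[X] (RatFunc k) L] (σ : L ≃ₐ[RatFunc k] L) (q : k[X]) :
    σ (algebraMap k[X] L q) = algebraMap k[X] L q := by
  rw [IsScalarTower.algebraMap_apply k[X] (RatFunc k) L, σ.commutes]

theorem rc_int {k L : Type} [Field k] [Field L] [Algebra (RatFunc k) L] [Algebra k[X] L]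
    [IsScalarTower k[X] (RatFunc k) L] (σ : L ≃ₐ[RatFunc k] L) {x : L} (hx : IsIntegral k[X] x) :
    IsIntegral k[X] (σ x) :=
  hx.map (AlgEquiv.restrictScalars k[X] σ)

theorem rc_mult {k L : Type} [Field k] [Field L] [Algebra (RatFunc k) L] [Algebra k[X] L]
    [IsScalarTower k[X] (RatFunc k) L] [FiniteDimensional (RatFunc k) L] (x : L) :
    ∃ q : k[X], q ≠ 0 ∧ IsIntegral k[X] (q • x) := by
  have h1 : IsAlgebraic (RatFunc k) x := Algebra.IsAlgebraic.isAlgebraic x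
  have h2 : IsAlgebraic k[X] x := (IsFractionRing.isAlgebraic_iff k[X] (RatFunc k) L).2 h1
  obtain ⟨y, hy, h⟩ := h2.exists_integral_multiple
  exact ⟨y, hy, h⟩

theorem rc_char {p : ℕ} {k L : Type} [Field k] [CharP k p] [Field L] [Algebra (RatFunc k) L] : CharP L p := by
  have h : Function.Injective ((algebraMap (RatFunc k) L).comp (RatFunc.C : k →+* RatFunc k)) := RingHom.injective _
  exact charP_of_injective_ringHom h p

theorem repr_close {p : ℕ} [Fact p.Prime] {k F E L : Type} [Field k] [IsAlgClosed k] [CharP k p]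
    [NontriviallyNormedField F] [IsUltrametricDist F] [CompleteSpace F] [Algebra k F] (t : F)
    (hF : LF p k F t) [NontriviallyNormedField E] [IsUltrametricDist E] [NormedAlgebra F E]
    [FiniteDimensional F E] [Algebra.IsSeparable F E]
    [Field L] [Algebra (RatFunc k) L] [Algebra k[X] L] [IsScalarTower k[X] (RatFunc k) L]
    [FiniteDimensional (RatFunc k) L] [IsGalois (RatFunc k) L] (ι : L →+* E)
    (hιX : ι (algebraMap (RatFunc k) L RatFunc.X) = algebraMap F E t)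
    (hιC : ∀ c, ι (algebraMap (RatFunc k) L (RatFunc.C c)) = algebraMap F E (algebraMap k F c))
    (hspan : Submodule.span F (Set.range ι) = ⊤) (H : Subgroup (L ≃ₐ[RatFunc k] L)) [Fintype H]
    (α : L) :
    ∃ C5 : ℝ, 1 ≤ C5 ∧ ∀ (e : ℕ) (y : L) (B δ : ℝ), IsIntegral k[X] y → (∀ τ ∈ H, τ y = y) →
      1 ≤ B → 0 < δ → (∀ σ : L ≃ₐ[RatFunc k] L, ‖ι (σ y)‖ ≤ B ^ p ^ e) →
      ‖ι (y - α)‖ ≤ δ ^ p ^ e → C5 * B ^ (H.index - 1) * δ < 1 →
      ∀ σ : L ≃ₐ[RatFunc k] L, ∃ l : H → L, (∀ τ, ‖ι (l τ)‖ ≤ C5 * B) ∧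
        σ y = ∑ τ : H, σ ((τ : L ≃ₐ[RatFunc k] L) α) * l τ ^ p ^ e := by
  classical
  have hchar : CharP L p := rc_char (p := p) (k := k) (L := L)
  have hexp : ExpChar L p := ExpChar.prime (Fact.out : p.Prime)
  have hp0 : 0 < p := (Fact.out : p.Prime).pos
  obtain ⟨C, D, hC1, hD0, hdig⟩ := digits t hF ι hιX hspan
  obtain ⟨m, ω, ω', hω1, hω0⟩ := dual_system H
  obtain ⟨D1, hD10, hD1⟩ := rc_mult (k := k) α
  choose D2 hD20 hD2 using fun i => rc_mult (k := k) (ω' i)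
  set T : L := algebraMap (RatFunc k) L RatFunc.X with hT
  let im : k[X] → L := fun q => algebraMap k[X] L q
  have hinj : Function.Injective (algebraMap k[X] L) := by
    rw [IsScalarTower.algebraMap_eq k[X] (RatFunc k) L]
    exact (algebraMap (RatFunc k) L).injective.comp (IsFractionRing.injective k[X] (RatFunc k))
  let O : Subring L := (integralClosure k[X] L).toSubring
  have memO : ∀ x, x ∈ O ↔ IsIntegral k[X] x := fun x => Iff.rfl
  set Dt : k[X] := D * D1 * ∏ i, D2 i with hDt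
  have hDt0 : Dt ≠ 0 := mul_ne_zero (mul_ne_zero hD0 hD10) (Finset.prod_ne_zero_iff.2 fun i _ => hD20 i)
  have hnorm1 : ∀ q : k[X], q ≠ 0 → 1 ≤ ‖ι (algebraMap k[X] L q)‖ := by
    intro q hq
    rw [rc_iota t ι hιX hιC q, norm_algebraMap', hF.norm_poly q hq]
    exact one_le_pow₀ hF.one_lt.le
  -- the constants
  let N : L → ℝ := fun x => ‖ι x‖
  have hN0 : ∀ x, 0 ≤ N x := fun x => norm_nonneg _
  have hNmul : ∀ x y, N (x * y) = N x * N y := fun x y => by simp only [N, map_mul, norm_mul]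
  set W : ℝ := 1 + ∑ i, ∑ σ : L ≃ₐ[RatFunc k] L, N (σ (ω' i)) with hW
  set V : ℝ := 1 + ∑ σ : L ≃ₐ[RatFunc k] L, N (σ α) with hV
  have hWle : ∀ i (σ : L ≃ₐ[RatFunc k] L), N (σ (ω' i)) ≤ W := by
    intro i σ
    have h1 : N (σ (ω' i)) ≤ ∑ σ : L ≃ₐ[RatFunc k] L, N (σ (ω' i)) :=
      Finset.single_le_sum (f := fun σ : L ≃ₐ[RatFunc k] L => N (σ (ω' i))) (fun _ _ => hN0 _) (Finset.mem_univ σ)
    have h2 : ∑ σ : L ≃ₐ[RatFunc k] L, N (σ (ω' i)) ≤ ∑ i, ∑ σ : L ≃ₐ[RatFunc k] L, N (σ (ω' i)) :=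
      Finset.single_le_sum (f := fun i => ∑ σ : L ≃ₐ[RatFunc k] L, N (σ (ω' i)))
        (fun _ _ => Finset.sum_nonneg fun _ _ => hN0 _) (Finset.mem_univ i)
    linarith
  have hVle : ∀ (σ : L ≃ₐ[RatFunc k] L), N (σ α) ≤ V := by
    intro σ
    have h1 : N (σ α) ≤ ∑ σ : L ≃ₐ[RatFunc k] L, N (σ α) :=
      Finset.single_le_sum (f := fun σ : L ≃ₐ[RatFunc k] L => N (σ α)) (fun _ _ => hN0 _) (Finset.mem_univ σ)
    linarith
  have hW1 : 1 ≤ W := by
    have : 0 ≤ ∑ i, ∑ σ : L ≃ₐ[RatFunc k] L, N (σ (ω' i)) :=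
      Finset.sum_nonneg fun _ _ => Finset.sum_nonneg fun _ _ => hN0 _
    linarith
  have hV1 : 1 ≤ V := by
    have : 0 ≤ ∑ σ : L ≃ₐ[RatFunc k] L, N (σ α) := Finset.sum_nonneg fun _ _ => hN0 _
    linarith
  obtain ⟨C4, hC41, hlin⟩ := linalg ι H O (fun σ x hx => rc_int σ hx)
    (fun x hx hx0 => prod_norm_ge ι hnorm1 x hx hx0) m ω (algebraMap k[X] L Dt) isIntegral_algebraMap
    (fun h => hDt0 (hinj (by rw [h, map_zero]))) (fun τ _ => rc_fix τ Dt) (W * (C * V))
  refine ⟨C4 * C ^ (H.index - 1) * C * W, ?_, ?_⟩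
  · have h1 : 1 ≤ C ^ (H.index - 1) := one_le_pow₀ hC1
    exact one_le_mul_of_one_le_of_one_le (one_le_mul_of_one_le_of_one_le (one_le_mul_of_one_le_of_one_le hC41 h1) hC1) hW1
  intro e y B δ hyint hyH hB1 hδ hyB hyα hsmall σ
  set q := p ^ e with hq
  have hq0 : 0 < q := pow_pos hp0 e
  have hB0 : 0 < B := by linarith
  have hC0 : 0 < C := by linarith
  obtain ⟨huniq, hex⟩ := hdig e
  have hsubp : ∀ a b : L, (a - b) ^ q = a ^ q - b ^ q := fun a b => sub_pow_expChar_pow a b e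
  have huniq' : ∀ a b : ℕ → L, ∑ j ∈ Finset.range q, a j ^ q * T ^ j = ∑ j ∈ Finset.range q, b j ^ q * T ^ j →
      ∀ j < q, a j = b j := by
    intro a b hab j hj
    have := huniq (fun j => a j - b j) (by
      rw [← sub_eq_zero.2 hab, ← Finset.sum_sub_distrib]
      refine Finset.sum_congr rfl fun j _ => ?_
      rw [hsubp]; ring) j hj
    exact sub_eq_zero.1 this
  have hroot : ∀ a b : ℝ, 0 ≤ a → 0 ≤ b → a ^ q ≤ b ^ q → a ≤ b := fun a b ha hb h =>
    le_of_pow_le_pow_left₀ hq0.ne' hb h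
  have hpow1 : ∀ x : ℝ, 1 ≤ x → x ≤ x ^ q := fun x hx => le_self_pow₀ hx hq0.ne'
  -- digits of α
  obtain ⟨b, hb, hbN, -⟩ := hex α
  have hbN' : ∀ j < q, ∀ σ : L ≃ₐ[RatFunc k] L, N (σ (b j)) ≤ C * V := by
    intro j hj σ
    refine hroot _ _ (hN0 _) (by positivity) ?_
    refine (hbN j hj σ).trans ?_
    rw [mul_pow]
    exact mul_le_mul_of_nonneg_left ((hVle σ).trans (hpow1 V hV1)) (by positivity)
  have hD1b : ∀ j < q, IsIntegral k[X] ((D * D1) • b j) := by
    obtain ⟨a, ha, -, haI⟩ := hex ((D1 ^ q) • α)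
    have hint : IsIntegral k[X] ((D1 ^ q) • α) := by
      have h1 : (D1 ^ q) • α = algebraMap k[X] L (D1 ^ (q - 1)) * (D1 • α) := by
        rw [Algebra.smul_def, Algebra.smul_def, ← mul_assoc, ← map_mul, ← pow_succ, Nat.sub_add_cancel hq0]
      rw [h1]
      exact isIntegral_algebraMap.mul hD1
    have h2 : ∀ j < q, a j = D1 • b j := by
      apply huniq' a (fun j => D1 • b j)
      rw [← ha, hb, Finset.smul_sum]
      refine Finset.sum_congr rfl fun j _ => ?_
      rw [Algebra.smul_def, Algebra.smul_def, mul_pow, map_pow, mul_assoc]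
    intro j hj
    have h3 := haI hint j hj
    rw [h2 j hj, smul_smul] at h3
    exact h3
  -- digits of y
  obtain ⟨yd, hyd, hydN, hydI⟩ := hex y
  have hydI' := hydI hyint
  have hydN' : ∀ j < q, ∀ σ : L ≃ₐ[RatFunc k] L, N (σ (yd j)) ≤ C * B := by
    intro j hj σ
    refine hroot _ _ (hN0 _) (by positivity) ?_
    refine (hydN j hj σ).trans ?_
    rw [mul_pow]
    exact mul_le_mul_of_nonneg_left (hyB σ) (by positivity)
  have hTσ : ∀ τ : L ≃ₐ[RatFunc k] L, τ T = T := fun τ => τ.commutes _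
  have hydH : ∀ j < q, ∀ τ ∈ H, τ (yd j) = yd j := by
    intro j hj τ hτ
    refine huniq' (fun j => τ (yd j)) yd ?_ j hj
    rw [← hyd]
    conv_rhs => rw [← hyH τ hτ, hyd]
    rw [map_sum]
    refine Finset.sum_congr rfl fun j _ => ?_
    rw [map_mul, map_pow, map_pow, hTσ]
  have hclose : ∀ j < q, N (yd j - b j) ≤ C * δ := by
    obtain ⟨a, ha, haN, -⟩ := hex (y - α)
    have h2 : ∀ j < q, a j = yd j - b j := by
      apply huniq' a (fun j => yd j - b j)
      rw [← ha, hyd, hb, ← Finset.sum_sub_distrib]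
      refine Finset.sum_congr rfl fun j _ => ?_
      rw [hsubp]; ring
    intro j hj
    refine hroot _ _ (hN0 _) (by positivity) ?_
    have h3 := haN j hj AlgEquiv.refl
    simp only [AlgEquiv.coe_refl, id_eq] at h3
    rw [h2 j hj] at h3
    refine h3.trans ?_
    rw [mul_pow]
    exact mul_le_mul_of_nonneg_left hyα (by positivity)
  -- the coefficients
  let lam : Fin q → Fin m → L := fun j i => ∑ τ : H, (τ : L ≃ₐ[RatFunc k] L) (ω' i * b j)
  have hlamH : ∀ j i, ∀ τ ∈ H, τ (lam j i) = lam j i := by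
    intro j i τ hτ
    simp only [lam]
    rw [map_sum]
    exact Fintype.sum_equiv (Equiv.mulLeft (⟨τ, hτ⟩ : H)) _ _ (fun x => rfl)
  have hlamI : ∀ j i, algebraMap k[X] L Dt * lam j i ∈ O := by
    intro j i
    simp only [lam]
    rw [Finset.mul_sum]
    refine Subring.sum_mem O fun τ _ => ?_
    rw [memO]
    have h1 : algebraMap k[X] L Dt * (τ : L ≃ₐ[RatFunc k] L) (ω' i * b j) =
        (τ : L ≃ₐ[RatFunc k] L) ((algebraMap k[X] L (∏ i' ∈ Finset.univ.erase i, D2 i')) * (D2 i • ω' i) * ((D * D1) • b j)) := by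
      rw [← rc_fix (τ : L ≃ₐ[RatFunc k] L) Dt, ← map_mul]
      congr 1
      rw [hDt, ← Finset.mul_prod_erase Finset.univ D2 (Finset.mem_univ i), Algebra.smul_def, Algebra.smul_def]
      simp only [map_mul]
      ring
    rw [h1]
    exact rc_int _ ((isIntegral_algebraMap.mul (hD2 i)).mul (hD1b j j.2))
  have hlamN : ∀ j i, ∀ σ : L ≃ₐ[RatFunc k] L, ‖ι (σ (lam j i))‖ ≤ W * (C * V) := by
    intro j i σ
    simp only [lam]
    rw [map_sum, map_sum]
    refine IsUltrametricDist.norm_sum_le_of_forall_le_of_nonneg (by positivity) fun τ _ => ?_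
    have h1 : N (σ ((τ : L ≃ₐ[RatFunc k] L) (ω' i * b j))) = N ((σ * (τ : L ≃ₐ[RatFunc k] L)) (ω' i)) * N ((σ * (τ : L ≃ₐ[RatFunc k] L)) (b j)) := by
      rw [map_mul, map_mul, hNmul]; rfl
    change N (σ ((τ : L ≃ₐ[RatFunc k] L) (ω' i * b j))) ≤ _
    rw [h1]
    exact mul_le_mul (hWle i _) (hbN' j j.2 _) (hN0 _) (by linarith)
  have hlamb : ∀ j : Fin q, ∑ i, lam j i * ω i = b j := by
    intro j
    simp only [lam]
    have h1 : ∑ i, (∑ τ : H, (τ : L ≃ₐ[RatFunc k] L) (ω' i * b j)) * ω i =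
        ∑ τ : H, (τ : L ≃ₐ[RatFunc k] L) (b j) * ∑ i, ω i * (τ : L ≃ₐ[RatFunc k] L) (ω' i) := by
      simp only [Finset.sum_mul, Finset.mul_sum]
      rw [Finset.sum_comm]
      refine Finset.sum_congr rfl fun τ _ => Finset.sum_congr rfl fun i _ => ?_
      rw [map_mul]; ring
    rw [h1, Finset.sum_eq_single (1 : H)]
    · have : ∑ i, ω i * ((1 : H) : L ≃ₐ[RatFunc k] L) (ω' i) = 1 := by
        simpa using hω1
      rw [this, mul_one]; rfl
    · intro τ _ hτ
      rw [hω0 τ τ.2 (fun h => hτ (Subtype.ext h)), mul_zero]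
    · intro h; exact absurd (Finset.mem_univ _) h
  obtain ⟨c, hcH, hyc, hcN⟩ := hlin q lam (fun j => yd j) (C * B) (C * δ)
    (one_le_mul_of_one_le_of_one_le hC1 hB1) (by positivity) hlamH (fun j => hydH j j.2) hlamI
    (fun j => by
      rw [memO]
      have h1 : algebraMap k[X] L Dt * yd j = algebraMap k[X] L (D1 * ∏ i, D2 i) * (D • yd j) := by
        rw [Algebra.smul_def, hDt]; simp only [map_mul]; ring
      rw [h1]
      exact isIntegral_algebraMap.mul (hydI' j j.2)) hlamN (fun j => hydN' j j.2)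
    (fun j => by rw [hlamb j]; exact hclose j j.2)
    (by
      refine lt_of_le_of_lt ?_ hsmall
      have h1 : C4 * (C * B) ^ (H.index - 1) * (C * δ) = (C4 * C ^ (H.index - 1) * C) * B ^ (H.index - 1) * δ := by
        rw [mul_pow]; ring
      rw [h1]
      have h2 : (C4 * C ^ (H.index - 1) * C) ≤ C4 * C ^ (H.index - 1) * C * W :=
        le_mul_of_one_le_right (by positivity) hW1
      have h3 : (0 : ℝ) ≤ B ^ (H.index - 1) := by positivity
      exact mul_le_mul_of_nonneg_right (mul_le_mul_of_nonneg_right h2 h3) hδ.le)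
  refine ⟨fun τ => σ (∑ i, c i * (τ : L ≃ₐ[RatFunc k] L) (ω' i)), ?_, ?_⟩
  · intro τ
    change ‖ι (σ (∑ i, c i * (τ : L ≃ₐ[RatFunc k] L) (ω' i)))‖ ≤ _
    rw [map_sum, map_sum]
    have hCW : 0 ≤ C4 * C ^ (H.index - 1) * C * W * B := by positivity
    refine IsUltrametricDist.norm_sum_le_of_forall_le_of_nonneg hCW fun i _ => ?_
    change N (σ (c i * (τ : L ≃ₐ[RatFunc k] L) (ω' i))) ≤ _
    rw [map_mul, hNmul]
    have h1 : N (σ ((τ : L ≃ₐ[RatFunc k] L) (ω' i))) ≤ W := hWle i (σ * (τ : L ≃ₐ[RatFunc k] L))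
    have h2 : N (σ (c i)) ≤ C4 * (C * B) := hcN i σ
    have h3 : (1 : ℝ) ≤ C ^ (H.index - 1) := one_le_pow₀ hC1
    calc N (σ (c i)) * N (σ ((τ : L ≃ₐ[RatFunc k] L) (ω' i))) ≤ (C4 * (C * B)) * W :=
          mul_le_mul h2 h1 (hN0 _) (by positivity)
      _ = (C4 * 1 * C * W) * B := by ring
      _ ≤ (C4 * C ^ (H.index - 1) * C * W) * B := by gcongr
  · have hsump : ∀ {ι' : Type} (s : Finset ι') (f : ι' → L), (∑ i ∈ s, f i) ^ q = ∑ i ∈ s, f i ^ q :=
      fun s f => sum_pow_char_pow p e s f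
    have hmain : y = ∑ τ : H, (τ : L ≃ₐ[RatFunc k] L) α * (∑ i, c i * (τ : L ≃ₐ[RatFunc k] L) (ω' i)) ^ q := by
      have hα : ∀ τ : H, (τ : L ≃ₐ[RatFunc k] L) α = ∑ j : Fin q, ((τ : L ≃ₐ[RatFunc k] L) (b j)) ^ q * T ^ (j : ℕ) := by
        intro τ
        conv_lhs => rw [hb]
        rw [map_sum, Fin.sum_univ_eq_sum_range (fun j => ((τ : L ≃ₐ[RatFunc k] L) (b j)) ^ q * T ^ j) q]
        refine Finset.sum_congr rfl fun j _ => ?_
        rw [map_mul, map_pow, map_pow, hTσ]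
      have hy1 : y = ∑ j : Fin q, (∑ i, lam j i * c i) ^ q * T ^ (j : ℕ) := by
        conv_lhs => rw [hyd]
        rw [← Fin.sum_univ_eq_sum_range (fun j => yd j ^ q * T ^ j) q]
        refine Finset.sum_congr rfl fun j _ => ?_
        rw [hyc j]
      have hy2 : ∀ j : Fin q, (∑ i, lam j i * c i) ^ q * T ^ (j : ℕ) =
          ∑ τ : H, ∑ i, (((τ : L ≃ₐ[RatFunc k] L) (b j)) ^ q * T ^ (j : ℕ)) *
            ((c i) ^ q * ((τ : L ≃ₐ[RatFunc k] L) (ω' i)) ^ q) := by
        intro j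
        rw [hsump, Finset.sum_mul, Finset.sum_comm]
        refine Finset.sum_congr rfl fun i _ => ?_
        simp only [lam]
        rw [mul_pow, hsump, Finset.sum_mul, Finset.sum_mul]
        refine Finset.sum_congr rfl fun τ _ => ?_
        rw [map_mul, mul_pow]; ring
      have hy3 : ∀ τ : H, (τ : L ≃ₐ[RatFunc k] L) α * (∑ i, c i * (τ : L ≃ₐ[RatFunc k] L) (ω' i)) ^ q =
          ∑ j : Fin q, ∑ i, (((τ : L ≃ₐ[RatFunc k] L) (b j)) ^ q * T ^ (j : ℕ)) *
            ((c i) ^ q * ((τ : L ≃ₐ[RatFunc k] L) (ω' i)) ^ q) := by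
        intro τ
        rw [hα τ, hsump, Finset.sum_mul_sum]
        refine Finset.sum_congr rfl fun j _ => Finset.sum_congr rfl fun i _ => ?_
        rw [mul_pow]
      rw [hy1, Finset.sum_congr rfl (fun j _ => hy2 j), Finset.sum_congr rfl (fun τ _ => hy3 τ), Finset.sum_comm]
    conv_lhs => rw [hmain]
    rw [map_sum]
    refine Finset.sum_congr rfl fun τ _ => ?_
    rw [map_mul, map_pow]

end Pool.Agent.Helper581_DML
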