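import Mathlib
import Pool.Agent.Helper581_DML.Defs
import Pool.Agent.Helper581_DML.E10
import Pool.Agent.Helper581_DML.E11b
import Pool.Agent.Helper581_DML.Pillai

/-!
Part E11c of the proof (helper581, MP_6ac234_nt): `core`: integral elements `y_n` of `K = L^H` whose conjugates have size at most `exp(A d^n)`, one
of them exactly `exp(B d^n)`, do not come closer to a fixed `α ∈ L` than `exp(-M d^n)`, `M > H.index * A`, infinitely often;
from the lemmas proved in the imported files.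

PLAIN PROOF. Let `C5` be the constant of `repr_close`, `m0 = H.index ≥ 1`, `S0` the infinite set of `happ`. Choose `T0 > 0` so large that
 `C5 * exp(-A T0) < 1`. For `n` with `d^n ≥ T0` let `e = e_n` be the largest `e` with `p^e T0 ≤ d^n`, so `T0 ≤ d^n/p^e < p T0`, and put
 `B_n = exp(A d^n/p^e)`, `δ_n = exp(-M d^n/p^e)`. Then `C5 B_n^(m0-1) δ_n ≤ C5 exp(((m0-1) A - M) d^n/p^e) ≤ C5 exp(-A T0) < 1`. So with the
 `σ` of `hesc` for `n ∈ S0` large: `σ y_n = ∑_{τ ∈ H} σ τ α * l_τ^(p^e)`, `‖ι l_τ‖ ≤ C5 B_n ≤ C5 exp(A p T0) =: C6`. Apply `val_pow_sum` with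
 `I = H`, `a_τ = ι (σ τ α)`, `C = C6`: `C7, S, e0`. As `e_n → ∞` and `‖ι (σ y_n)‖ = exp(B d^n) > C7` for large `n`, for all large `n ∈ S0`
 there is `s ∈ S` with `B d^n = log ‖ι (σ y_n)‖ = s.1 p^(e_n) + s.2`, `s.1 > 0`. Pigeonhole: one `s ∈ S` for infinitely many `n`:
 `s.1 p^e = B d^n + (-s.2)` for infinitely many `n`, contradicting `pillai`.
-/

set_option autoImplicit false

namespace Pool.Agent.Helper581_DML

open Polynomial Filter


theorem core {p : ℕ} [Fact p.Prime] {k F E L : Type} [Field k] [IsAlgClosed k] [CharP k p]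
    [NontriviallyNormedField F] [IsUltrametricDist F] [CompleteSpace F] [Algebra k F] (t : F)
    (hF : LF p k F t) [NontriviallyNormedField E] [IsUltrametricDist E] [NormedAlgebra F E]
    [FiniteDimensional F E] [Algebra.IsSeparable F E]
    [Field L] [Algebra (RatFunc k) L] [Algebra k[X] L] [IsScalarTower k[X] (RatFunc k) L]
    [FiniteDimensional (RatFunc k) L] [IsGalois (RatFunc k) L] (ι : L →+* E)
    (hιX : ι (algebraMap (RatFunc k) L RatFunc.X) = algebraMap F E t)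
    (hιC : ∀ c, ι (algebraMap (RatFunc k) L (RatFunc.C c)) = algebraMap F E (algebraMap k F c))
    (hspan : Submodule.span F (Set.range ι) = ⊤) (H : Subgroup (L ≃ₐ[RatFunc k] L)) (α : L)
    (d : ℕ) (hd : 2 ≤ d) (hpd : ∀ a : ℕ, d ≠ p ^ a) (y : ℕ → L) (hyH : ∀ n, ∀ τ ∈ H, τ (y n) = y n)
    (hyO : ∀ n, IsIntegral k[X] (y n)) (A M : ℝ) (hA : 0 < A) (hM : H.index * A < M)
    (hgrow : ∀ n, ∀ σ : L ≃ₐ[RatFunc k] L, ‖ι (σ (y n))‖ ≤ Real.exp (A * (d : ℝ) ^ n))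
    (hesc : ∃ σ : L ≃ₐ[RatFunc k] L, ∃ B : ℝ, 0 < B ∧
      ∀ᶠ n in atTop, ‖ι (σ (y n))‖ = Real.exp (B * (d : ℝ) ^ n))
    (happ : {n | ‖ι (y n - α)‖ ≤ Real.exp (-M * (d : ℝ) ^ n)}.Infinite) : False := by
  classical
  have hp : p.Prime := Fact.out
  have hp2 : (2 : ℝ) ≤ p := by exact_mod_cast hp.two_le
  have : Finite (L ≃ₐ[RatFunc k] L) := inferInstance
  haveI : Fintype H := Fintype.ofFinite H
  have hm0 : 1 ≤ H.index := Nat.one_le_iff_ne_zero.2 Subgroup.index_ne_zero_of_finite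
  obtain ⟨C5, hC5, hrep⟩ := repr_close t hF ι hιX hιC hspan H α
  obtain ⟨σ, B, hB, hσ⟩ := hesc
  have hC50 : 0 < C5 := by linarith
  obtain ⟨T0, hT0, hCT⟩ : ∃ T0 : ℝ, 0 < T0 ∧ C5 * Real.exp (-(A * T0)) < 1 := by
    refine ⟨(Real.log C5 + 1) / A, div_pos (by linarith [Real.log_nonneg hC5]) hA, ?_⟩
    have e1 : A * ((Real.log C5 + 1) / A) = Real.log C5 + 1 := by field_simp
    rw [e1]
    have e2 : C5 * Real.exp (-(Real.log C5 + 1)) = Real.exp (-1) := by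
      nth_rewrite 1 [← Real.exp_log hC50]
      rw [← Real.exp_add]; congr 1; ring
    rw [e2]
    exact Real.exp_lt_one_iff.2 (by norm_num)
  set C6 : ℝ := C5 * Real.exp (A * (p * T0)) with hC6
  obtain ⟨C7, S, e0, hS, hval⟩ := val_pow_sum t hF (fun τ : H =>
    ι (σ ((τ : L ≃ₐ[RatFunc k] L) α))) C6
  -- growth of d ^ n
  have hd1 : (1 : ℝ) < d := by exact_mod_cast (by omega : 1 < d)
  have htend : Tendsto (fun n : ℕ => (d : ℝ) ^ n) atTop atTop :=
    tendsto_pow_atTop_atTop_of_one_lt hd1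
  have hev1 : ∀ᶠ n in atTop, T0 * (p : ℝ) ^ e0 ≤ (d : ℝ) ^ n := htend.eventually_ge_atTop _
  have hev1' : ∀ᶠ n in atTop, T0 ≤ (d : ℝ) ^ n := htend.eventually_ge_atTop _
  have hev2 : ∀ᶠ n in atTop, |C7| / B < (d : ℝ) ^ n := htend.eventually_gt_atTop _
  obtain ⟨N, hN⟩ := eventually_atTop.1 (((hσ.and hev1).and hev1').and hev2)
  have hfin : (⋃ s ∈ S, {n : ℕ | ∃ e : ℕ, s.1 * (p : ℝ) ^ e = B * (d : ℝ) ^ n + (-s.2)}).Finite := by
    apply Set.Finite.biUnion (Finset.finite_toSet S)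
    intro s hs
    exact pillai p d hp hd hpd s.1 B (-s.2) (hS s hs).ne' hB.ne'
  apply happ
  refine ((Set.finite_lt_nat N).union hfin).subset ?_
  intro n hn
  by_cases hnN : n < N
  · exact Or.inl hnN
  right
  obtain ⟨⟨⟨h1, h2⟩, h3⟩, h4⟩ := hN n (not_lt.1 hnN)
  have hDpos : (0 : ℝ) < (d : ℝ) ^ n := by positivity
  -- the exponent
  obtain ⟨e, he1, he2⟩ := exists_nat_pow_near (x := (d : ℝ) ^ n / T0) (y := (p : ℝ))
    (by rw [le_div_iff₀ hT0]; linarith) (by linarith)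
  have hpe : (0 : ℝ) < (p : ℝ) ^ e := by positivity
  set q : ℝ := (d : ℝ) ^ n / (p : ℝ) ^ e with hq
  have hqpe : q * ((p ^ e : ℕ) : ℝ) = (d : ℝ) ^ n := by
    rw [hq]; push_cast; field_simp
  have hq1 : T0 ≤ q := by
    rw [hq, le_div_iff₀ hpe]
    rw [le_div_iff₀ hT0] at he1
    linarith
  have hq2 : q ≤ p * T0 := by
    rw [hq, div_le_iff₀ hpe]
    rw [div_lt_iff₀ hT0, pow_succ] at he2
    linarith
  have hee0 : e0 ≤ e := by
    have h5 : (p : ℝ) ^ e0 ≤ (d : ℝ) ^ n / T0 := by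
      rw [le_div_iff₀ hT0]; linarith
    have h6 : (p : ℝ) ^ e0 < (p : ℝ) ^ (e + 1) := lt_of_le_of_lt h5 he2
    have h7 := (pow_lt_pow_iff_right₀ (by linarith : (1 : ℝ) < p)).1 h6
    omega
  have hq0 : 0 ≤ q := by linarith
  have hBn : 1 ≤ Real.exp (A * q) := Real.one_le_exp (by positivity)
  have hgr : ∀ σ : L ≃ₐ[RatFunc k] L, ‖ι (σ (y n))‖ ≤ Real.exp (A * q) ^ p ^ e := by
    intro σ'
    rw [← Real.exp_nat_mul]
    have e1 : ((p ^ e : ℕ) : ℝ) * (A * q) = A * (d : ℝ) ^ n := by rw [← hqpe]; ring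
    rw [e1]
    exact hgrow n σ'
  have hap : ‖ι (y n - α)‖ ≤ Real.exp (-M * q) ^ p ^ e := by
    rw [← Real.exp_nat_mul]
    have e1 : ((p ^ e : ℕ) : ℝ) * (-M * q) = -M * (d : ℝ) ^ n := by rw [← hqpe]; ring
    rw [e1]
    exact hn
  have hlt : C5 * Real.exp (A * q) ^ (H.index - 1) * Real.exp (-M * q) < 1 := by
    rw [← Real.exp_nat_mul, mul_assoc, ← Real.exp_add]
    refine lt_of_le_of_lt ?_ hCT
    refine mul_le_mul_of_nonneg_left ?_ hC50.le
    apply Real.exp_le_exp.2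
    have e1 : ((H.index - 1 : ℕ) : ℝ) = (H.index : ℝ) - 1 := by
      rw [Nat.cast_sub hm0]; simp
    rw [e1]
    have h5 : (H.index : ℝ) * A * q ≤ M * q := mul_le_mul_of_nonneg_right hM.le hq0
    have h6 : A * T0 ≤ A * q := mul_le_mul_of_nonneg_left hq1 hA.le
    nlinarith
  obtain ⟨l, hl1, hl2⟩ := hrep e (y n) (Real.exp (A * q)) (Real.exp (-M * q)) (hyO n) (hyH n)
    hBn (Real.exp_pos _) hgr hap hlt σ
  have hl3 : ∀ τ : H, ‖ι (l τ)‖ ≤ C6 := by
    intro τ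
    refine (hl1 τ).trans ?_
    rw [hC6]
    refine mul_le_mul_of_nonneg_left ?_ hC50.le
    exact Real.exp_le_exp.2 (mul_le_mul_of_nonneg_left hq2 hA.le)
  have hsum : ι (σ (y n)) = ∑ τ : H, ι (σ ((τ : L ≃ₐ[RatFunc k] L) α)) * (ι (l τ)) ^ p ^ e := by
    rw [hl2, map_sum]
    refine Finset.sum_congr rfl fun τ _ => ?_
    rw [map_mul, map_pow]
  have hv := hval e hee0 (fun τ => ι (l τ)) hl3
  rw [← hsum, h1] at hv
  rcases hv with hv | ⟨s, hs, hv⟩
  · exfalso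
    have h5 : |C7| < B * (d : ℝ) ^ n := by
      rw [div_lt_iff₀ hB] at h4
      linarith
    have h6 : B * (d : ℝ) ^ n < Real.exp (B * (d : ℝ) ^ n) := by
      have := Real.add_one_le_exp (B * (d : ℝ) ^ n)
      linarith
    have h7 := le_abs_self C7
    linarith
  · rw [Real.log_exp] at hv
    simp only [Set.mem_iUnion]
    exact ⟨s, hs, e, by rw [hv]; ring⟩

end Pool.Agent.Helper581_DML
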