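import Mathlib
import Pool.Agent.Helper581_DML.Defs

/-!
JOB E12 (helper581, MP_6ac234_nt). If an orbit of a monic polynomial `g` of degree `d`, not a power of `p`, comes close to `b` at
the rate `exp(-c d^n)` infinitely often, then either `g = (X - b)^d + b` or for every `M` it comes close to some
`α` at the rate `exp(-M d^n)` infinitely often.
-/

set_option autoImplicit false

namespace Pool.Agent.Helper581_DML

open Polynomial

/-- shifting an infinite set of indices -/
theorem amp_shift {P : ℕ → Prop} (h : {n | P n}.Infinite) : {n | P (n + 1)}.Infinite := by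
  intro hfin
  apply h
  refine Set.Finite.subset ((hfin.image (fun n => n + 1)).union (Set.finite_singleton 0)) ?_
  intro n hn
  rcases Nat.eq_zero_or_pos n with rfl | hpos
  · right; rfl
  · left
    obtain ⟨m, rfl⟩ : ∃ m, n = m + 1 := ⟨n - 1, by omega⟩
    exact ⟨m, hn, rfl⟩

/-- one step back -/
theorem amp_step {W : Type*} [NormedField W] [IsAlgClosed W]
    (g : W[X]) (hg : g.Monic) (d : ℕ) (hd : g.natDegree = d) (hd2 : 2 ≤ d)
    (y : ℕ → W) (hy : ∀ n, y (n + 1) = g.eval (y n)) (b : W) (c : ℝ)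
    (hinf : {n | ‖y n - b‖ ≤ Real.exp (-c * (d : ℝ) ^ n)}.Infinite) :
    ∃ α : W, g.eval α = b ∧ 1 ≤ rootMultiplicity α (g - C b) ∧ rootMultiplicity α (g - C b) ≤ d ∧
      ∀ c' : ℝ, c' * rootMultiplicity α (g - C b) < c * d →
        {n | ‖y n - α‖ ≤ Real.exp (-c' * (d : ℝ) ^ n)}.Infinite := by
  classical
  set h : W[X] := g - C b with hh
  have hdeg : 0 < g.natDegree := by omega
  have hmon : h.Monic := by
    rw [hh]
    apply Monic.sub_of_left hg
    rw [degree_eq_natDegree hg.ne_zero]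
    refine lt_of_le_of_lt degree_C_le ?_
    exact_mod_cast hdeg
  have hnd : h.natDegree = d := by rw [hh, natDegree_sub_C, hd]
  have hne : h ≠ 0 := hmon.ne_zero
  have hsplit : h = (h.roots.map (fun a => X - C a)).prod := by
    have := (IsAlgClosed.splits h).eq_prod_roots
    rw [hmon.leadingCoeff, C_1, one_mul] at this
    exact this
  have hev : ∀ x : W, ‖h.eval x‖ = ∏ α ∈ h.roots.toFinset, ‖x - α‖ ^ rootMultiplicity α h := by
    intro x
    conv_lhs => rw [hsplit]
    rw [eval_multiset_prod, Multiset.map_map, Finset.prod_multiset_map_count, norm_prod]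
    refine Finset.prod_congr rfl fun α _ => ?_
    rw [norm_pow, count_roots]
    simp
  have hroots : h.roots.toFinset.Nonempty := by
    have hc : h.roots.card = d := by rw [← hnd]; exact (IsAlgClosed.splits h).natDegree_eq_card_roots.symm
    have : h.roots ≠ 0 := by
      intro h0
      rw [h0, Multiset.card_zero] at hc
      omega
    obtain ⟨a, ha⟩ := Multiset.exists_mem_of_ne_zero this
    exact ⟨a, Multiset.mem_toFinset.2 ha⟩
  -- the infinite set of indices
  set S : Set ℕ := {n | ‖y (n + 1) - b‖ ≤ Real.exp (-c * (d : ℝ) ^ (n + 1))} with hS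
  have hSinf : S.Infinite := amp_shift hinf
  -- nearest roots
  have hnear : ∀ x : W, ∃ α ∈ h.roots.toFinset, ∀ α' ∈ h.roots.toFinset, ‖x - α‖ ≤ ‖x - α'‖ := fun x =>
    Finset.exists_min_image _ (fun α => ‖x - α‖) hroots
  obtain ⟨α, hα, hSα⟩ : ∃ α ∈ h.roots.toFinset, {n | n ∈ S ∧ ∀ α' ∈ h.roots.toFinset, ‖y n - α‖ ≤ ‖y n - α'‖}.Infinite := by
    by_contra hcon
    push Not at hcon
    apply hSinf
    refine Set.Finite.subset (Set.Finite.biUnion (Finset.finite_toSet h.roots.toFinset) (t := fun α => {n | n ∈ S ∧ ∀ α' ∈ h.roots.toFinset, ‖y n - α‖ ≤ ‖y n - α'‖}) ?_) ?_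
    · intro α hα
      exact hcon α hα
    · intro n hn
      obtain ⟨α, hα, hmin⟩ := hnear (y n)
      exact Set.mem_biUnion hα ⟨hn, hmin⟩
  have hαroot : h.IsRoot α := (mem_roots hne).1 (Multiset.mem_toFinset.1 hα)
  set e : ℕ := rootMultiplicity α h with he
  have he1 : 1 ≤ e := (rootMultiplicity_pos hne).2 hαroot
  have hed : e ≤ d := by
    rw [← hnd, he, ← count_roots]
    exact (Multiset.count_le_card _ _).trans (card_roots' h)
  refine ⟨α, ?_, he1, hed, ?_⟩
  · have := hαroot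
    rw [hh, IsRoot.def, eval_sub, eval_C] at this
    exact sub_eq_zero.1 this
  intro c' hc'
  -- the lower bound for the other factors
  set δ : ℝ := ∏ α' ∈ h.roots.toFinset.erase α, (‖α - α'‖ / 2) ^ rootMultiplicity α' h with hδ
  have hδ0 : 0 < δ := by
    refine Finset.prod_pos fun α' hα' => ?_
    have : α - α' ≠ 0 := sub_ne_zero.2 (Finset.ne_of_mem_erase hα').symm
    have := norm_pos_iff.2 this
    positivity
  have hκ : 0 < c * d - c' * e := by linarith
  have hd1 : (1 : ℝ) < d := by exact_mod_cast (by omega : 1 < d)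
  have hlim : Filter.Tendsto (fun n : ℕ => Real.exp ((c * d - c' * e) * (d : ℝ) ^ n)) Filter.atTop Filter.atTop :=
    Real.tendsto_exp_atTop.comp ((tendsto_pow_atTop_atTop_of_one_lt hd1).const_mul_atTop hκ)
  obtain ⟨N, hN⟩ := (hlim.eventually_ge_atTop (1 / δ)).exists_forall_of_atTop
  have hbig : ({n | n ∈ S ∧ ∀ α' ∈ h.roots.toFinset, ‖y n - α‖ ≤ ‖y n - α'‖} \ (Finset.range N : Set ℕ)).Infinite :=
    hSα.sdiff (Finset.finite_toSet _)
  refine hbig.mono ?_
  rintro n ⟨⟨hnS, hmin⟩, hnN⟩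
  have hnN' : N ≤ n := by
    by_contra hcon
    exact hnN (Finset.mem_coe.2 (Finset.mem_range.2 (by omega)))
  have h1 : ‖h.eval (y n)‖ ≤ Real.exp (-c * (d : ℝ) ^ (n + 1)) := by
    have : h.eval (y n) = y (n + 1) - b := by rw [hh, eval_sub, eval_C, hy n]
    rw [this]
    exact hnS
  rw [hev, ← Finset.mul_prod_erase _ _ hα] at h1
  have h2 : δ ≤ ∏ α' ∈ h.roots.toFinset.erase α, ‖y n - α'‖ ^ rootMultiplicity α' h := by
    refine Finset.prod_le_prod (fun α' _ => by positivity) fun α' hα' => ?_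
    refine pow_le_pow_left₀ (by positivity) ?_ _
    have h3 := hmin α' (Finset.mem_of_mem_erase hα')
    have h4 : ‖α - α'‖ ≤ ‖y n - α‖ + ‖y n - α'‖ := by
      have : α - α' = (y n - α') - (y n - α) := by ring
      rw [this]
      calc ‖(y n - α') - (y n - α)‖ ≤ ‖y n - α'‖ + ‖y n - α‖ := norm_sub_le _ _
        _ = _ := by ring
    linarith
  have h5 : ‖y n - α‖ ^ e * δ ≤ Real.exp (-c * (d : ℝ) ^ (n + 1)) :=
    (mul_le_mul_of_nonneg_left h2 (by positivity)).trans h1
  have h6 := hN n hnN'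
  have h7 : ‖y n - α‖ ^ e ≤ (Real.exp (-c' * (d : ℝ) ^ n)) ^ e := by
    rw [← Real.exp_nat_mul]
    have h8 : ‖y n - α‖ ^ e ≤ Real.exp (-c * (d : ℝ) ^ (n + 1)) * (1 / δ) := by
      rw [mul_one_div, le_div_iff₀ hδ0]
      exact h5
    refine h8.trans ((mul_le_mul_of_nonneg_left h6 (Real.exp_pos _).le).trans (le_of_eq ?_))
    rw [← Real.exp_add]
    congr 1
    rw [pow_succ]
    ring
  exact le_of_pow_le_pow_left₀ (by omega) (Real.exp_pos _).le h7

/-- a root of full multiplicity -/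
theorem amp_full {W : Type*} [Field W] (g : W[X]) (hg : g.Monic) (d : ℕ) (hd : g.natDegree = d) (hd2 : 2 ≤ d) (b α : W)
    (h : rootMultiplicity α (g - C b) = d) : g = (X - C α) ^ d + C b := by
  have hdeg : 0 < g.natDegree := by omega
  have hmon : (g - C b).Monic := by
    apply Monic.sub_of_left hg
    rw [degree_eq_natDegree hg.ne_zero]
    refine lt_of_le_of_lt degree_C_le ?_
    exact_mod_cast hdeg
  have hnd : (g - C b).natDegree = d := by rw [natDegree_sub_C, hd]
  have hdvd : (X - C α) ^ d ∣ g - C b := by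
    rw [← h]; exact pow_rootMultiplicity_dvd _ _
  have : g - C b = (X - C α) ^ d := by
    refine eq_of_monic_of_dvd_of_natDegree_le ((monic_X_sub_C α).pow d) hmon hdvd ?_
    rw [hnd, natDegree_pow, natDegree_X_sub_C, mul_one]
  rw [← this]; ring

/-- the centre of a translated power map is unique, degree prime to `p` -/
theorem amp_unique_tame {p : ℕ} [Fact p.Prime] {W : Type*} [Field W] [CharP W p] (d : ℕ)
    (hd2 : 2 ≤ d) (hpd : ¬ p ∣ d)
    (α α' b b' : W) (h : (X - C α) ^ d + C b = (X - C α') ^ d + C b') : α = α' := by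
  have h1 := congrArg derivative h
  simp only [derivative_add, derivative_C, add_zero, derivative_X_sub_C_pow] at h1
  have h2 := congrArg (eval α') h1
  have hd0 : (d : W) ≠ 0 := by
    intro h0
    exact hpd ((CharP.cast_eq_zero_iff W p d).1 h0)
  simp only [eval_mul, eval_pow, eval_sub, eval_X, eval_C, sub_self] at h2
  rw [zero_pow (by omega : d - 1 ≠ 0), mul_zero] at h2
  have h3 : (α' - α) ^ (d - 1) = 0 := (mul_eq_zero.1 h2).resolve_left hd0
  have h4 : α' - α = 0 := pow_eq_zero_iff (by omega : d - 1 ≠ 0) |>.1 h3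
  exact (sub_eq_zero.1 h4).symm

/-- the centre of a translated power map is unique, degree not a power of `p` -/
theorem amp_unique {p : ℕ} [Fact p.Prime] {W : Type*} [Field W] [CharP W p] (d : ℕ) (hd2 : 2 ≤ d)
    (hpd : ∀ a : ℕ, d ≠ p ^ a)
    (α α' b b' : W) (h : (X - C α) ^ d + C b = (X - C α') ^ d + C b') : α = α' := by
  have hp : p.Prime := Fact.out
  obtain ⟨s, d', hpd', hd⟩ := Nat.exists_eq_pow_mul_and_not_dvd (n := d) (by omega) p hp.ne_one
  have hd'0 : d' ≠ 0 := by
    rintro rfl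
    simp at hpd'
  have hd'1 : d' ≠ 1 := by
    rintro rfl
    exact hpd s (by rw [hd, mul_one])
  have key : ∀ α b : W, (X - C α) ^ d + C b =
      expand W (p ^ s) ((X - C (α ^ p ^ s)) ^ d' + C b) := by
    intro α b
    rw [map_add, map_pow, map_sub, expand_X, expand_C, expand_C, hd, pow_mul, C_pow,
      sub_pow_char_pow]
  rw [key, key] at h
  have h2 := expand_injective (R := W) (pow_pos hp.pos s) h
  have h3 := amp_unique_tame (p := p) d' (by omega) hpd' _ _ b b' h2
  exact iterateFrobenius_inj W p s (by simpa [iterateFrobenius_def] using h3)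

theorem amplify {p : ℕ} [Fact p.Prime] {W : Type*} [NormedField W] [IsAlgClosed W] [CharP W p]
    (g : W[X]) (hg : g.Monic) (d : ℕ) (hd : g.natDegree = d) (hd2 : 2 ≤ d) (hpd : ∀ a : ℕ, d ≠ p ^ a)
    (y : ℕ → W) (hy : ∀ n, y (n + 1) = g.eval (y n)) (b : W) (c : ℝ) (hc : 0 < c)
    (hinf : {n | ‖y n - b‖ ≤ Real.exp (-c * (d : ℝ) ^ n)}.Infinite) :
    g = (X - C b) ^ d + C b ∨
      ∀ M : ℝ, ∃ α : W, {n | ‖y n - α‖ ≤ Real.exp (-M * (d : ℝ) ^ n)}.Infinite := by
  by_cases hgood : g = (X - C b) ^ d + C b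
  · exact Or.inl hgood
  right
  have hd0 : d ≠ 0 := by omega
  have hdR : (2 : ℝ) ≤ d := by exact_mod_cast hd2
  -- preimages of good points are good
  have hback : ∀ β α : W, ¬ (g = (X - C β) ^ d + C β) → g.eval α = β → ¬ (g = (X - C α) ^ d + C α) := by
    intro β α hβ hα hbad
    have h1 : g.eval α = α := by
      conv_lhs => rw [hbad]
      simp [hd0]
    rw [h1] at hα
    exact hβ (hα ▸ hbad)
  obtain ⟨ρ, hρ⟩ : ∃ ρ : ℝ, ρ = (2 * (d : ℝ) - 1) ^ 2 / (4 * d * (d - 1)) := ⟨_, rfl⟩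
  have hρ1 : 1 < ρ := by
    rw [hρ, one_lt_div (by nlinarith)]
    nlinarith
  -- two steps back
  have hstep : ∀ β : W, ∀ c : ℝ, 0 < c → ¬ (g = (X - C β) ^ d + C β) →
      {n | ‖y n - β‖ ≤ Real.exp (-c * (d : ℝ) ^ n)}.Infinite →
      ∃ α : W, ¬ (g = (X - C α) ^ d + C α) ∧ {n | ‖y n - α‖ ≤ Real.exp (-(ρ * c) * (d : ℝ) ^ n)}.Infinite := by
    intro β c hc hβ hinf
    obtain ⟨α₁, hα₁, he1, he1d, h1⟩ := amp_step g hg d hd hd2 y hy β c hinf
    set e₁ := rootMultiplicity α₁ (g - C β) with he₁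
    have he1R : (1 : ℝ) ≤ e₁ := by exact_mod_cast he1
    have hα₁g := hback β α₁ hβ hα₁
    obtain ⟨θ, hθ⟩ : ∃ θ : ℝ, θ = (2 * (d : ℝ) - 1) / (2 * d) := ⟨_, rfl⟩
    have hθ0 : 0 < θ := by rw [hθ]; apply div_pos <;> linarith
    have hθ1 : θ < 1 := by rw [hθ, div_lt_one (by linarith)]; linarith
    have h1' := h1 (θ * c * d / e₁) (by
      rw [div_mul_cancel₀ _ (by linarith)]
      have : 0 < c * d := by positivity
      nlinarith)
    obtain ⟨α₂, hα₂, he2, he2d, h2⟩ := amp_step g hg d hd hd2 y hy α₁ _ h1'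
    set e₂ := rootMultiplicity α₂ (g - C α₁) with he₂
    have he2R : (1 : ℝ) ≤ e₂ := by exact_mod_cast he2
    refine ⟨α₂, hback α₁ α₂ hα₁g hα₂, h2 _ ?_⟩
    -- not both multiplicities are `d`
    have hprod : e₁ * e₂ ≤ d * (d - 1) := by
      by_cases hd1 : e₁ = d
      · by_cases hd2' : e₂ = d
        · exfalso
          have g1 := amp_full g hg d hd hd2 β α₁ hd1
          have g2 := amp_full g hg d hd hd2 α₁ α₂ hd2'
          have hu := amp_unique (p := p) d hd2 hpd α₁ α₂ β α₁ (g1.symm.trans g2)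
          rw [← hu] at hα₂
          have hβα : β = α₁ := hα₁.symm.trans hα₂
          apply hβ
          rw [← hβα] at g1
          exact g1
        · rw [hd1]
          exact Nat.mul_le_mul_left _ (by omega)
      · calc e₁ * e₂ ≤ (d - 1) * d := Nat.mul_le_mul (by omega) he2d
          _ = d * (d - 1) := mul_comm _ _
    have hprodR : (e₁ : ℝ) * e₂ ≤ d * (d - 1) := by
      have h3 : ((e₁ * e₂ : ℕ) : ℝ) ≤ ((d * (d - 1) : ℕ) : ℝ) := by exact_mod_cast hprod
      rw [Nat.cast_mul, Nat.cast_mul, Nat.cast_sub (by omega), Nat.cast_one] at h3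
      exact h3
    have hgoal : ρ * c * e₂ * e₁ < θ * c * d * d → ρ * c * e₂ < θ * c * d / e₁ * d := by
      intro h
      have h5 : (0 : ℝ) < e₁ := by linarith
      have h6 : θ * c * d / e₁ * d = θ * c * d * d / e₁ := by ring
      rw [h6]
      exact (lt_div_iff₀ h5).2 h
    apply hgoal
    have hρθ : ρ * (d * (d - 1)) = θ ^ 2 * d ^ 2 := by
      rw [hρ, hθ]
      have : (d : ℝ) - 1 ≠ 0 := by linarith
      have : (d : ℝ) ≠ 0 := by linarith
      field_simp
      ring
    have hρ0 : 0 < ρ := by linarith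
    calc ρ * c * e₂ * e₁ = ρ * (e₁ * e₂) * c := by ring
      _ ≤ ρ * (d * (d - 1)) * c := by
          refine mul_le_mul_of_nonneg_right ?_ hc.le
          exact mul_le_mul_of_nonneg_left hprodR hρ0.le
      _ = θ ^ 2 * d ^ 2 * c := by rw [hρθ]
      _ < θ * d ^ 2 * c := by
          have h4 : θ ^ 2 < θ := by nlinarith
          have h5 : (0 : ℝ) < d ^ 2 * c := by positivity
          nlinarith
      _ = θ * c * d * d := by ring
  -- iteration
  have hiter : ∀ j : ℕ, ∃ α : W, ¬ (g = (X - C α) ^ d + C α) ∧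
      {n | ‖y n - α‖ ≤ Real.exp (-(ρ ^ j * c) * (d : ℝ) ^ n)}.Infinite := by
    intro j
    induction j with
    | zero => exact ⟨b, hgood, by simpa using hinf⟩
    | succ j ih =>
      obtain ⟨α, hα, h1⟩ := ih
      obtain ⟨α', hα', h2⟩ := hstep α (ρ ^ j * c) (by positivity) hα h1
      refine ⟨α', hα', ?_⟩
      have : ρ * (ρ ^ j * c) = ρ ^ (j + 1) * c := by rw [pow_succ]; ring
      rw [this] at h2
      exact h2
  intro M
  obtain ⟨j, hj⟩ := pow_unbounded_of_one_lt (M / c) hρ1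
  obtain ⟨α, _, hα⟩ := hiter j
  refine ⟨α, hα.mono ?_⟩
  intro n hn
  refine le_trans hn (Real.exp_le_exp.2 ?_)
  have h1 : M ≤ ρ ^ j * c := by
    rw [div_lt_iff₀ hc] at hj
    exact hj.le
  have h2 : (0 : ℝ) < (d : ℝ) ^ n := by positivity
  nlinarith

end Pool.Agent.Helper581_DML
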