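import Mathlib
import Pool.Agent.Helper581_DML.Defs
import Pool.Agent.Helper581_DML.E11c

/-!
Part E13 of the proof (helper581, MP_6ac234_nt): `approx_false`: the theorem `core` for a finite separable extension `K` of `RatFunc k` inside the
algebraically closed field `Ω`, with `α` any element algebraic over `RatFunc k`; `core` is given.

PLAIN PROOF. (1) Choose `r` with `α' = α^(p^r)` separable over `K0 = RatFunc k` (purely inseparable part of the algebraic closure).
 (2) Let `L` be an intermediate field of `Ω/K0`, finite Galois over `K0`, containing `K` and `α'`: e.g. the normal closure in `Ω` of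
 `K ⊔ K0⟮α'⟯` (finite separable over `K0`; the normal closure of a separable extension is separable).
 (3) Let `E = IntermediateField.adjoin F (L : Set Ω)`, an intermediate field of `Ω/F` with the norm of `Ω`. It is the `F`-span of `L`
 (`L` is closed under products and algebraic over `F`), finite over `F` (generated by a `K0`-basis of `L`: as `K0 → Ω` factors through
 `F` — the map `k[X] → F`, `X ↦ t`, is injective by `LF.norm_poly` and extends to `K0 → F`, compatible by `hX`, `hC` —
 a `K0`-basis of `L` spans `E` over `F`), and separable over `F` (generated by elements separable over `K0`, so over `F`).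
 `ι : L →+* E` the inclusion; `hspan` after restricting to `E`.
 (4) `H = {τ ∈ Gal(L/K0) : τ = id on K}` (`IntermediateField.fixingSubgroup` of `K` as an intermediate field of `L/K0`); `H.index = finrank K0 K`
 (`IntermediateField.finrank_eq_fixingSubgroup_index` or `card_fixingSubgroup_eq_finrank` with the tower formula).
 (5) Apply `core` with `y'_n = (y_n)^(p^r) ∈ L`, `α'`, `A' = p^r A`, `M' = p^r M`, the same `d`. For `σ ∈ Gal(L/K0)` the restriction to `K`
 followed by `L → Ω` is an embedding of `K`, so `‖σ y'_n‖ = ‖σ y_n‖^(p^r) ≤ exp(A' d^n)`. The embedding `σ` of `hesc` extends to an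
 automorphism of `L` (`L/K0` is normal), with `B' = p^r B`. And `‖y'_n - α'‖ = ‖(y_n - α)^(p^r)‖ = ‖y_n - α‖^(p^r)`. Integrality over
 `k[X]` of powers. (`k[X]` acts on `L` and `Ω` compatibly.)
-/

set_option autoImplicit false

namespace Pool.Agent.Helper581_DML

open Polynomial Filter


/-- the map `k(X) → F` -/
private theorem e13_phi {p : ℕ} {k F Ω : Type} [Field k]
    [NontriviallyNormedField F] [Algebra k F] (t : F)
    (hF : LF p k F t) [Field Ω] [Algebra F Ω] [Algebra (RatFunc k) Ω]
    (hX : algebraMap (RatFunc k) Ω RatFunc.X = algebraMap F Ω t)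
    (hC : ∀ c, algebraMap (RatFunc k) Ω (RatFunc.C c) = algebraMap F Ω (algebraMap k F c)) :
    ∃ φ : RatFunc k →+* F, (algebraMap F Ω).comp φ = algebraMap (RatFunc k) Ω := by
  have hinj : Function.Injective (aeval t : k[X] →ₐ[k] F) := by
    rw [injective_iff_map_eq_zero]
    intro q hq
    by_contra hne
    have h := hF.norm_poly q hne
    rw [hq, norm_zero] at h
    have h1 := hF.one_lt
    have : 0 < ‖t‖ ^ q.natDegree := pow_pos (by linarith) _
    linarith
  have hφ : nonZeroDivisors k[X] ≤ (nonZeroDivisors F).comap (aeval t : k[X] →ₐ[k] F).toRingHom := by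
    intro q hq
    rw [Submonoid.mem_comap]
    apply mem_nonZeroDivisors_of_ne_zero
    intro h
    exact nonZeroDivisors.ne_zero hq (hinj (by rw [map_zero]; exact h))
  refine ⟨RatFunc.liftRingHom (aeval t : k[X] →ₐ[k] F).toRingHom hφ, ?_⟩
  apply IsFractionRing.ringHom_ext (A := k[X])
  intro q
  rw [RingHom.comp_apply, RatFunc.liftRingHom_algebraMap]
  have h : ((algebraMap (RatFunc k) Ω).comp (algebraMap k[X] (RatFunc k))) =
      (algebraMap F Ω).comp (aeval t : k[X] →ₐ[k] F).toRingHom := by
    apply Polynomial.ringHom_ext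
    · intro c
      have h1 := hC c
      simp only [RingHom.comp_apply, RatFunc.algebraMap_C]
      rw [h1]
      simp
    · simp only [RingHom.comp_apply, RatFunc.algebraMap_X]
      rw [hX]
      simp
  exact (RingHom.congr_fun h q).symm

private theorem e13_pow {p : ℕ} [Fact p.Prime] {K0 Ω : Type} [Field K0] [CharP K0 p] [Field Ω]
    [Algebra K0 Ω] {α : Ω} (hα : IsAlgebraic K0 α) : ∃ r : ℕ, IsSeparable K0 (α ^ p ^ r) := by
  obtain ⟨n, g, hg, hgf⟩ := exists_separable_of_irreducible p (minpoly.irreducible hα.isIntegral)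
    (Fact.out : p.Prime).ne_zero
  refine ⟨n, ?_⟩
  have h : aeval (α ^ p ^ n) g = 0 := by
    rw [← expand_aeval, hgf, minpoly.aeval]
  exact hg.of_dvd (minpoly.dvd _ _ h)

private theorem e13_struct {K0 F Ω : Type} [Field K0] [Field F] [Field Ω] [Algebra K0 Ω]
    [Algebra F Ω] (φ : K0 →+* F) (hφ : (algebraMap F Ω).comp φ = algebraMap K0 Ω) (S : Set Ω)
    (hfin : S.Finite) (hS : ∀ s ∈ S, IsSeparable K0 s) :
    FiniteDimensional F (IntermediateField.adjoin F S) ∧
    Algebra.IsSeparable F (IntermediateField.adjoin F S) ∧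
    (∀ x ∈ IntermediateField.adjoin K0 S, x ∈ IntermediateField.adjoin F S) ∧
    ∀ e ∈ IntermediateField.adjoin F S,
      e ∈ Submodule.span F ((IntermediateField.adjoin K0 S : IntermediateField K0 Ω) : Set Ω) := by
  have hSF : ∀ s ∈ S, IsSeparable F s := by
    intro s hs
    have h0 : aeval s ((minpoly K0 s).map φ) = 0 := by
      rw [aeval_def, eval₂_map, hφ, ← aeval_def, minpoly.aeval]
    exact (Polynomial.Separable.map (hS s hs)).of_dvd (minpoly.dvd F s h0)
  have : Finite S := hfin
  refine ⟨IntermediateField.finiteDimensional_adjoin fun x hx => (hSF x hx).isIntegral,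
    (IntermediateField.isSeparable_adjoin_iff_isSeparable _ _).2 hSF, ?_, ?_⟩
  · have hle : IntermediateField.adjoin K0 S ≤
        (IntermediateField.adjoin F S).toSubfield.toIntermediateField (K := K0) (by
          intro x
          rw [← hφ]
          exact (IntermediateField.adjoin F S).algebraMap_mem (φ x)) := by
      rw [IntermediateField.adjoin_le_iff]
      intro s hs
      exact IntermediateField.subset_adjoin F S hs
    intro x hx
    exact hle hx
  · intro e he
    have h1 : (IntermediateField.adjoin F S).toSubalgebra = Algebra.adjoin F S :=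
      IntermediateField.adjoin_toSubalgebra_of_isAlgebraic fun x hx =>
        (hSF x hx).isIntegral.isAlgebraic
    have h2 : e ∈ Subalgebra.toSubmodule (Algebra.adjoin F S) := by
      rw [← h1]
      exact he
    rw [Algebra.adjoin_eq_span] at h2
    refine Submodule.span_mono ?_ h2
    have h3 : Submonoid.closure S ≤
        (IntermediateField.adjoin K0 S).toSubalgebra.toSubring.toSubmonoid := by
      rw [Submonoid.closure_le]
      intro s hs
      exact IntermediateField.subset_adjoin K0 S hs
    exact h3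

theorem approx_false {p : ℕ} [Fact p.Prime] {k F Ω : Type} [Field k] [IsAlgClosed k] [CharP k p]
    [NontriviallyNormedField F] [IsUltrametricDist F] [CompleteSpace F] [Algebra k F] (t : F)
    (hF : LF p k F t) [NontriviallyNormedField Ω] [IsUltrametricDist Ω] [NormedAlgebra F Ω]
    [IsAlgClosed Ω] [Algebra.IsAlgebraic F Ω] [Algebra (RatFunc k) Ω]
    [Algebra k[X] Ω] [IsScalarTower k[X] (RatFunc k) Ω]
    (hX : algebraMap (RatFunc k) Ω RatFunc.X = algebraMap F Ω t)
    (hC : ∀ c, algebraMap (RatFunc k) Ω (RatFunc.C c) = algebraMap F Ω (algebraMap k F c))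
    (K : IntermediateField (RatFunc k) Ω) [FiniteDimensional (RatFunc k) K]
    [Algebra.IsSeparable (RatFunc k) K] (d : ℕ) (hd : 2 ≤ d) (hpd : ∀ a : ℕ, d ≠ p ^ a) (y : ℕ → K)
    (hyO : ∀ n, IsIntegral k[X] (y n : Ω)) (A M : ℝ) (hA : 0 < A)
    (hM : Module.finrank (RatFunc k) K * A < M)
    (hgrow : ∀ n, ∀ σ : K →ₐ[RatFunc k] Ω, ‖σ (y n)‖ ≤ Real.exp (A * (d : ℝ) ^ n))
    (hesc : ∃ σ : K →ₐ[RatFunc k] Ω, ∃ B : ℝ, 0 < B ∧
      ∀ᶠ n in atTop, ‖σ (y n)‖ = Real.exp (B * (d : ℝ) ^ n))
    (α : Ω) (hα : IsAlgebraic (RatFunc k) α)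
    (happ : {n | ‖(y n : Ω) - α‖ ≤ Real.exp (-M * (d : ℝ) ^ n)}.Infinite) : False := by
  classical
  obtain ⟨φ, hφ⟩ := e13_phi t hF hX hC
  have hcK : CharP (RatFunc k) p :=
    charP_of_injective_algebraMap (RatFunc.C_injective (K := k)) p
  have hcΩ : CharP Ω p := charP_of_injective_algebraMap (algebraMap (RatFunc k) Ω).injective p
  obtain ⟨r, hr⟩ := e13_pow (p := p) hα
  obtain ⟨β, hβ⟩ := Field.exists_primitive_element (RatFunc k) K
  have hβs : IsSeparable (RatFunc k) (β : Ω) := by
    have h := Algebra.IsSeparable.isSeparable (RatFunc k) β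
    unfold IsSeparable at h ⊢
    rwa [← minpoly.algebraMap_eq (B' := Ω) (algebraMap K Ω).injective β] at h
  set f : (RatFunc k)[X] := minpoly (RatFunc k) (β : Ω) * minpoly (RatFunc k) (α ^ p ^ r) with hf
  have hf0 : f ≠ 0 := mul_ne_zero (minpoly.ne_zero hβs.isIntegral) (minpoly.ne_zero hr.isIntegral)
  have hβf : (β : Ω) ∈ f.rootSet Ω := by
    rw [mem_rootSet]
    refine ⟨hf0, ?_⟩
    rw [hf, map_mul, minpoly.aeval, zero_mul]
  have hαf : α ^ p ^ r ∈ f.rootSet Ω := by
    rw [mem_rootSet]
    refine ⟨hf0, ?_⟩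
    rw [hf, map_mul, minpoly.aeval, mul_zero]
  have hsep : ∀ s ∈ f.rootSet Ω, IsSeparable (RatFunc k) s := by
    intro s hs
    have h := (mem_rootSet.1 hs).2
    rw [hf, map_mul, mul_eq_zero] at h
    rcases h with h | h
    · exact hβs.of_dvd (minpoly.dvd _ _ h)
    · exact hr.of_dvd (minpoly.dvd _ _ h)
  obtain ⟨hfd, hse, hLE, hsp⟩ := e13_struct φ hφ (f.rootSet Ω) (rootSet_finite f Ω) hsep
  set L : IntermediateField (RatFunc k) Ω := IntermediateField.adjoin (RatFunc k) (f.rootSet Ω)
    with hL
  set E : IntermediateField F Ω := IntermediateField.adjoin F (f.rootSet Ω) with hE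
  have hsf : f.IsSplittingField (RatFunc k) L :=
    IntermediateField.adjoin_rootSet_isSplittingField (IsAlgClosed.splits _)
  have : Normal (RatFunc k) L := Normal.of_isSplittingField f
  have : Algebra.IsSeparable (RatFunc k) L :=
    (IntermediateField.isSeparable_adjoin_iff_isSeparable _ _).2 hsep
  have : IsGalois (RatFunc k) L := ⟨⟩
  have : FiniteDimensional (RatFunc k) L := IsSplittingField.finiteDimensional L f
  have hKL : K ≤ L := by
    have h := IntermediateField.lift_adjoin_simple (RatFunc k) K β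
    rw [hβ, IntermediateField.lift_top] at h
    rw [h, IntermediateField.adjoin_simple_le_iff]
    exact IntermediateField.subset_adjoin _ _ hβf
  have hαL : α ^ p ^ r ∈ L := IntermediateField.subset_adjoin _ _ hαf
  -- the inclusion of `L` in `E`
  let ι : L →+* E :=
    { toFun := fun x => ⟨(x : Ω), hLE x x.2⟩
      map_one' := rfl
      map_zero' := rfl
      map_add' := fun _ _ => rfl
      map_mul' := fun _ _ => rfl }
  have hιv : ∀ x : L, ((ι x : E) : Ω) = (x : Ω) := fun _ => rfl
  have hιn : ∀ x : L, ‖ι x‖ = ‖(x : Ω)‖ := fun _ => rfl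
  have hspan : Submodule.span F (Set.range ι) = ⊤ := by
    rw [eq_top_iff]
    rintro e -
    have h1 := hsp (e : Ω) e.2
    have h2 : ((L : IntermediateField (RatFunc k) Ω) : Set Ω) = E.val.toLinearMap '' Set.range ι := by
      ext x
      constructor
      · intro hx
        exact ⟨ι ⟨x, hx⟩, ⟨⟨x, hx⟩, rfl⟩, rfl⟩
      · rintro ⟨_, ⟨y, rfl⟩, rfl⟩
        exact y.2
    rw [h2, Submodule.span_image] at h1
    obtain ⟨e', he', hee⟩ := h1
    have : e' = e := Subtype.ext hee
    rw [← this]
    exact he'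
  -- the subgroup
  let K' : IntermediateField (RatFunc k) L := IntermediateField.restrict hKL
  have hidx : K'.fixingSubgroup.index = Module.finrank (RatFunc k) K := by
    have h := IntermediateField.finrank_eq_fixingSubgroup_index (F := RatFunc k) (E' := L) K'
    have h2 := (IntermediateField.restrictAlgEquiv hKL).toLinearEquiv.finrank_eq
    exact (h2.trans h).symm
  have hpr : (0 : ℝ) < (p : ℝ) ^ r := pow_pos (by exact_mod_cast (Fact.out : p.Prime).pos) _
  have hexp : ∀ x : ℝ, Real.exp x ^ p ^ r = Real.exp ((p : ℝ) ^ r * x) := by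
    intro x
    rw [← Real.exp_nat_mul]
    push_cast
    rfl
  let inc : K → L := fun x => ⟨(x : Ω), hKL x.2⟩
  refine core t hF ι ?_ ?_ hspan K'.fixingSubgroup ⟨α ^ p ^ r, hαL⟩ d hd hpd
    (fun n => (inc (y n)) ^ p ^ r) ?_ ?_ ((p : ℝ) ^ r * A) ((p : ℝ) ^ r * M) (mul_pos hpr hA) ?_
    ?_ ?_ ?_
  · apply Subtype.ext
    exact hX
  · intro c
    apply Subtype.ext
    exact hC c
  · intro n τ hτ
    rw [map_pow]
    congr 1
    have h := (IntermediateField.mem_fixingSubgroup_iff K' τ).1 hτ (inc (y n))
    apply h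
    exact (IntermediateField.mem_restrict hKL _).2 (y n).2
  · intro n
    apply IsIntegral.pow
    have hst : IsScalarTower k[X] L Ω := IsScalarTower.of_algebraMap_eq (fun q => rfl)
    have h : IsIntegral k[X] (algebraMap L Ω (inc (y n))) := hyO n
    exact (isIntegral_algebraMap_iff (algebraMap L Ω).injective).1 h
  · rw [hidx]
    have := mul_lt_mul_of_pos_left hM hpr
    calc ((Module.finrank (RatFunc k) K : ℕ) : ℝ) * ((p : ℝ) ^ r * A)
        = (p : ℝ) ^ r * ((Module.finrank (RatFunc k) K : ℕ) * A) := by ring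
      _ < _ := this
  · intro n σ
    let σ' : K →ₐ[RatFunc k] Ω := (L.val.comp σ.toAlgHom).comp (IntermediateField.inclusion hKL)
    have h := hgrow n σ'
    rw [hιn, map_pow]
    have h2 : ((((σ (inc (y n))) ^ p ^ r : L)) : Ω) = (σ' (y n)) ^ p ^ r := rfl
    rw [h2, norm_pow]
    calc ‖σ' (y n)‖ ^ p ^ r ≤ Real.exp (A * (d : ℝ) ^ n) ^ p ^ r :=
          pow_le_pow_left₀ (norm_nonneg _) h _
      _ = Real.exp ((p : ℝ) ^ r * A * (d : ℝ) ^ n) := by
          rw [hexp]
          congr 1
          ring
  · obtain ⟨σ, B, hB, hev⟩ := hesc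
    let σ1 : K' →ₐ[RatFunc k] Ω := σ.comp (IntermediateField.restrictAlgEquiv hKL).symm.toAlgHom
    obtain ⟨ψ, hψ⟩ := IntermediateField.exists_algHom_of_splits (F := RatFunc k) (E := L) (K := Ω)
      (fun s => ⟨Algebra.IsIntegral.isIntegral s, IsAlgClosed.splits _⟩) σ1
    have hψ1 : ∀ x : K, ψ (inc x) = σ x := by
      intro x
      have h := DFunLike.congr_fun hψ (IntermediateField.restrictAlgEquiv hKL x)
      have h2 : σ1 (IntermediateField.restrictAlgEquiv hKL x) = σ x := by
        show σ ((IntermediateField.restrictAlgEquiv hKL).symm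
          (IntermediateField.restrictAlgEquiv hKL x)) = σ x
        rw [AlgEquiv.symm_apply_apply]
      rw [h2] at h
      exact h
    refine ⟨ψ.restrictNormal' L, (p : ℝ) ^ r * B, mul_pos hpr hB, ?_⟩
    filter_upwards [hev] with n hn
    have h := ψ.restrictNormal_commutes L (inc (y n))
    have h2 : (((ψ.restrictNormal' L) (inc (y n)) : L) : Ω) = σ (y n) := by
      rw [← hψ1]
      exact h
    rw [hιn, map_pow]
    have h3 : (((((ψ.restrictNormal' L) (inc (y n))) ^ p ^ r : L)) : Ω) =
        (((ψ.restrictNormal' L) (inc (y n)) : L) : Ω) ^ p ^ r := rfl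
    rw [h3, h2, norm_pow, hn, hexp]
    congr 1
    ring
  · refine happ.mono ?_
    intro n hn
    rw [Set.mem_ofPred_eq] at hn ⊢
    rw [hιn]
    have h3 : (((inc (y n)) ^ p ^ r - ⟨α ^ p ^ r, hαL⟩ : L) : Ω) = ((y n : Ω) - α) ^ p ^ r := by
      rw [sub_pow_char_pow]
      rfl
    rw [h3, norm_pow]
    calc ‖(y n : Ω) - α‖ ^ p ^ r ≤ Real.exp (-M * (d : ℝ) ^ n) ^ p ^ r :=
          pow_le_pow_left₀ (norm_nonneg _) hn _
      _ = Real.exp (-((p : ℝ) ^ r * M) * (d : ℝ) ^ n) := by
          rw [hexp]
          congr 1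
          ring

end Pool.Agent.Helper581_DML
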