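import Mathlib
import Pool.Agent.Helper581_DML.Defs

/-!
Part P2 of the proof (helper581, MP_6ac234_nt): `near_root`. If `x n` escapes, `y n` is bounded and `h(y n, x n) = 0` for infinitely many `n`, then `y n`
comes close to a root `b` of the leading coefficient of `h` in `x`, at a rate `exp(-c d^n)`, infinitely often.

PLAIN PROOF. In `h : W[X][Y]` the inner variable stands for `y`, the outer for `x`: `h = ∑_{i ≤ m} ℓ_i(y) x^i`, `ℓ = ℓ_m = h.leadingCoeff ≠ 0`.
 Let `S` be the infinite set of zeros. As `f` is monic of degree `d` and `x` is unbounded, from some `n1` on `‖x (n+1)‖ = ‖x n‖^d`, `‖x n‖ > 1`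
 (`‖f(z)‖ = ‖z‖^d` when `‖z‖` is larger than 1 and than the norms of the coefficients, ultrametric), so `‖x n‖ = exp(A d^n)` for `n ≥ n1`,
 `A > 0`. As `‖y n‖ ≤ B0` the numbers `‖ℓ_i(y n)‖` are bounded by a constant `C0`. If `m ≥ 1`, for `n ∈ S`, `n ≥ n1`:
 `‖ℓ(y n)‖ ‖x n‖^m = ‖∑_{i<m} ℓ_i(y n) (x n)^i‖ ≤ C0 ‖x n‖^(m-1)`, so `‖ℓ(y n)‖ ≤ C0 exp(-A d^n)`; if `m = 0` then `ℓ(y n) = 0`. So in all cases
 `‖ℓ(y n)‖ ≤ C0 exp(-A d^n)` for infinitely many `n`. `ℓ` is not constant (`ℓ ≠ 0` and the bound tends to 0), and it splits: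
 `ℓ = a ∏ (X - b_i)` with `e ≥ 1` factors: `∏ ‖y n - b_i‖ ≤ (C0/‖a‖) exp(-A d^n)`, so the nearest root `b_i` satisfies
 `‖y n - b_i‖^e ≤ (C0/‖a‖) exp(-A d^n)`; by the pigeonhole principle one root `b` is nearest for infinitely many `n`, and
 `‖y n - b‖ ≤ exp(-c d^n)` for large such `n` with `c = A/(2e)`.
-/

set_option autoImplicit false

namespace Pool.Agent.Helper581_DML

open Polynomial Filter
open scoped Polynomial.Bivariate

/-- values of a polynomial on a bounded set are bounded -/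
theorem nr_bdd {W : Type*} [NormedField W] (p : W[X]) (B : ℝ) :
    ∃ C : ℝ, 0 ≤ C ∧ ∀ z : W, ‖z‖ ≤ B → ‖p.eval z‖ ≤ C := by
  refine ⟨∑ i ∈ Finset.range (p.natDegree + 1), ‖p.coeff i‖ * |B| ^ i, ?_, ?_⟩
  · exact Finset.sum_nonneg (fun i _ => mul_nonneg (norm_nonneg _) (pow_nonneg (abs_nonneg _) _))
  · intro z hz
    rw [eval_eq_sum_range]
    refine (norm_sum_le _ _).trans (Finset.sum_le_sum (fun i _ => ?_))
    rw [norm_mul, norm_pow]
    exact mul_le_mul_of_nonneg_left (pow_le_pow_left₀ (norm_nonneg _) (hz.trans (le_abs_self B)) i)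
      (norm_nonneg _)

/-- escape: `‖f z‖ = ‖z‖ ^ d` for large `z` -/
theorem nr_escape {W : Type*} [NormedField W] [IsUltrametricDist W]
    (f : W[X]) (hf : f.Monic) (d : ℕ) (hfd : f.natDegree = d) (hd2 : 2 ≤ d) :
    ∃ R : ℝ, 1 ≤ R ∧ ∀ z : W, R < ‖z‖ → ‖f.eval z‖ = ‖z‖ ^ d := by
  refine ⟨1 + ∑ i ∈ Finset.range d, ‖f.coeff i‖, ?_, ?_⟩
  · have : 0 ≤ ∑ i ∈ Finset.range d, ‖f.coeff i‖ := Finset.sum_nonneg (fun i _ => norm_nonneg _)
    linarith
  · intro z hz
    have hS : 0 ≤ ∑ i ∈ Finset.range d, ‖f.coeff i‖ := Finset.sum_nonneg (fun i _ => norm_nonneg _)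
    have hz1 : 1 < ‖z‖ := by linarith
    have hz0 : 0 < ‖z‖ := by linarith
    rw [eval_eq_sum_range, hfd, Finset.sum_range_succ]
    have hlc : f.coeff d = 1 := by rw [← hfd]; exact hf
    rw [hlc, one_mul]
    have hsm : ‖∑ i ∈ Finset.range d, f.coeff i * z ^ i‖ < ‖z ^ d‖ := by
      have h1 : ‖∑ i ∈ Finset.range d, f.coeff i * z ^ i‖ ≤
          (∑ i ∈ Finset.range d, ‖f.coeff i‖) * ‖z‖ ^ (d - 1) := by
        rw [Finset.sum_mul]
        refine (norm_sum_le _ _).trans (Finset.sum_le_sum (fun i hi => ?_))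
        rw [norm_mul, norm_pow]
        have hi' : i ≤ d - 1 := by
          have := Finset.mem_range.mp hi
          omega
        exact mul_le_mul_of_nonneg_left (pow_le_pow_right₀ hz1.le hi') (norm_nonneg _)
      have h2 : ‖z ^ d‖ = ‖z‖ * ‖z‖ ^ (d - 1) := by
        rw [norm_pow, ← pow_succ', show d - 1 + 1 = d by omega]
      rw [h2]
      refine h1.trans_lt (mul_lt_mul_of_pos_right (by linarith) (pow_pos hz0 _))
    rw [IsUltrametricDist.norm_add_eq_max_of_norm_ne_norm hsm.ne, max_eq_right hsm.le, norm_pow]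

/-- exact growth of an escaping orbit -/
theorem nr_growth {W : Type*} [NormedField W] [IsUltrametricDist W]
    (f : W[X]) (hf : f.Monic) (d : ℕ) (hfd : f.natDegree = d) (hd2 : 2 ≤ d)
    (x : ℕ → W) (hx : ∀ n, x (n + 1) = f.eval (x n)) (hxu : ∀ B : ℝ, ∃ n, B < ‖x n‖) :
    ∃ A : ℝ, 0 < A ∧ ∃ n1 : ℕ, ∀ n ≥ n1, ‖x n‖ = Real.exp (A * (d : ℝ) ^ n) := by
  obtain ⟨R, hR, hesc⟩ := nr_escape f hf d hfd hd2
  obtain ⟨n1, hn1⟩ := hxu R
  have hd0 : (0 : ℝ) < (d : ℝ) := by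
    have : 0 < d := by omega
    exact_mod_cast this
  have h1 : 1 < ‖x n1‖ := by linarith
  have hlog : 0 < Real.log ‖x n1‖ := Real.log_pos h1
  have hk : ∀ k : ℕ, R < ‖x (n1 + k)‖ ∧
      ‖x (n1 + k)‖ = Real.exp (Real.log ‖x n1‖ / (d : ℝ) ^ n1 * (d : ℝ) ^ (n1 + k)) := by
    intro k
    induction k with
    | zero =>
      refine ⟨by simpa using hn1, ?_⟩
      rw [add_zero, div_mul_cancel₀ _ (pow_pos hd0 n1).ne', Real.exp_log (by linarith)]
    | succ k ih =>
      obtain ⟨ihR, ihe⟩ := ih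
      have hstep : ‖x (n1 + (k + 1))‖ = ‖x (n1 + k)‖ ^ d := by
        rw [← add_assoc, hx, hesc _ ihR]
      have h1' : 1 ≤ ‖x (n1 + k)‖ := by linarith
      refine ⟨?_, ?_⟩
      · rw [hstep]
        exact ihR.trans_le (le_self_pow₀ h1' (by omega))
      · rw [hstep, ihe, ← Real.exp_nat_mul]
        congr 1
        rw [← add_assoc, pow_succ]
        ring
  refine ⟨Real.log ‖x n1‖ / (d : ℝ) ^ n1, div_pos hlog (pow_pos hd0 n1), n1, ?_⟩
  intro n hn
  obtain ⟨k, rfl⟩ := Nat.exists_eq_add_of_le hn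
  exact (hk k).2

/-- the leading coefficient is exponentially small at the zeros -/
theorem nr_small {W : Type*} [NormedField W] (h : W[X][Y]) (B0 : ℝ) :
    ∃ C : ℝ, 0 ≤ C ∧ ∀ y x : W, ‖y‖ ≤ B0 → 1 ≤ ‖x‖ → evalEval y x h = 0 →
      ‖h.leadingCoeff.eval y‖ * ‖x‖ ≤ C := by
  choose C hC0 hC using (fun i : ℕ => nr_bdd (h.coeff i) B0)
  refine ⟨∑ i ∈ Finset.range h.natDegree, C i,
    Finset.sum_nonneg (fun i _ => hC0 i), ?_⟩
  intro y x hy hx hz
  have hx0 : 0 < ‖x‖ := by linarith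
  have hev : evalEval y x h = ∑ i ∈ Finset.range (h.natDegree + 1), (h.coeff i).eval y * x ^ i := by
    unfold evalEval
    rw [eval_eq_sum_range (p := h), eval_finsetSum]
    refine Finset.sum_congr rfl (fun i _ => ?_)
    rw [eval_mul, eval_pow, eval_C]
  rw [hev, Finset.sum_range_succ] at hz
  have hl : (h.coeff h.natDegree).eval y * x ^ h.natDegree =
      -∑ i ∈ Finset.range h.natDegree, (h.coeff i).eval y * x ^ i := by
    linear_combination hz
  have hl2 : ‖h.leadingCoeff.eval y‖ * ‖x‖ ^ h.natDegree ≤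
      ∑ i ∈ Finset.range h.natDegree, C i * ‖x‖ ^ i := by
    have : ‖h.leadingCoeff.eval y‖ * ‖x‖ ^ h.natDegree =
        ‖∑ i ∈ Finset.range h.natDegree, (h.coeff i).eval y * x ^ i‖ := by
      rw [← norm_neg (∑ i ∈ Finset.range h.natDegree, (h.coeff i).eval y * x ^ i), ← hl, norm_mul,
        norm_pow]
      rfl
    rw [this]
    refine (norm_sum_le _ _).trans (Finset.sum_le_sum (fun i _ => ?_))
    rw [norm_mul, norm_pow]
    exact mul_le_mul_of_nonneg_right (hC i y hy) (pow_nonneg (norm_nonneg _) _)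
  rcases Nat.eq_zero_or_pos h.natDegree with h0 | hpos
  · rw [h0] at hl2 ⊢
    simp only [pow_zero, mul_one, Finset.range_zero, Finset.sum_empty] at hl2 ⊢
    have : ‖h.leadingCoeff.eval y‖ = 0 := le_antisymm hl2 (norm_nonneg _)
    rw [this, zero_mul]
  · have h3 : ‖h.leadingCoeff.eval y‖ * ‖x‖ ^ h.natDegree =
        (‖h.leadingCoeff.eval y‖ * ‖x‖) * ‖x‖ ^ (h.natDegree - 1) := by
      rw [mul_assoc, ← pow_succ', show h.natDegree - 1 + 1 = h.natDegree by omega]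
    have h4 : ∑ i ∈ Finset.range h.natDegree, C i * ‖x‖ ^ i ≤
        (∑ i ∈ Finset.range h.natDegree, C i) * ‖x‖ ^ (h.natDegree - 1) := by
      rw [Finset.sum_mul]
      refine Finset.sum_le_sum (fun i hi => ?_)
      have hi' : i ≤ h.natDegree - 1 := by
        have := Finset.mem_range.mp hi
        omega
      exact mul_le_mul_of_nonneg_left (pow_le_pow_right₀ hx hi') (hC0 i)
    rw [h3] at hl2
    exact le_of_mul_le_mul_right (hl2.trans h4) (pow_pos hx0 _)

/-- a small product has a small factor -/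
theorem nr_factor {W : Type*} [NormedField W] (s : Multiset W) (z : W) (t : ℝ) (ht : 0 ≤ t)
    (h : ‖(s.map (z - ·)).prod‖ < t ^ (Multiset.card s)) : ∃ b ∈ s, ‖z - b‖ ≤ t := by
  by_contra hcon
  push Not at hcon
  have : t ^ (Multiset.card s) ≤ ‖(s.map (z - ·)).prod‖ := by
    clear h
    induction s using Multiset.induction_on with
    | empty => simp
    | cons a s ih =>
      rw [Multiset.map_cons, Multiset.prod_cons, norm_mul, Multiset.card_cons, pow_succ']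
      exact mul_le_mul (hcon a (Multiset.mem_cons_self a s)).le
        (ih (fun b hb => hcon b (Multiset.mem_cons_of_mem hb))) (pow_nonneg ht _) (norm_nonneg _)
  linarith

theorem near_root {W : Type*} [NormedField W] [IsUltrametricDist W] [IsAlgClosed W]
    (f : W[X]) (hf : f.Monic) (d : ℕ) (hfd : f.natDegree = d) (hd2 : 2 ≤ d)
    (x y : ℕ → W) (hx : ∀ n, x (n + 1) = f.eval (x n))
    (hxu : ∀ B : ℝ, ∃ n, B < ‖x n‖) (hyb : ∃ B : ℝ, ∀ n, ‖y n‖ ≤ B)
    (h : W[X][Y]) (hh : h ≠ 0) (hinf : {n | evalEval (y n) (x n) h = 0}.Infinite) :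
    ∃ b : W, h.leadingCoeff.eval b = 0 ∧ ∃ c : ℝ, 0 < c ∧
      {n | ‖y n - b‖ ≤ Real.exp (-c * (d : ℝ) ^ n)}.Infinite := by
  classical
  obtain ⟨A, hA, n1, hgr⟩ := nr_growth f hf d hfd hd2 x hx hxu
  obtain ⟨B0, hB0⟩ := hyb
  obtain ⟨C, hC0, hC⟩ := nr_small h B0
  have hd1 : (1 : ℝ) < (d : ℝ) := by
    have : 1 < d := by omega
    exact_mod_cast this
  have hℓ : h.leadingCoeff ≠ 0 := leadingCoeff_ne_zero.mpr hh
  set ℓ := h.leadingCoeff with hℓdef
  have ha : 0 < ‖ℓ.leadingCoeff‖ := norm_pos_iff.mpr (leadingCoeff_ne_zero.mpr hℓ)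
  set e := Multiset.card ℓ.roots with he
  -- a threshold
  have htend : Tendsto (fun n : ℕ => Real.exp (A / 2 * (d : ℝ) ^ n)) atTop atTop := by
    refine Real.tendsto_exp_atTop.comp ?_
    exact (tendsto_pow_atTop_atTop_of_one_lt hd1).const_mul_atTop (by positivity)
  obtain ⟨n2, hn2⟩ := (htend.eventually_gt_atTop (C / ‖ℓ.leadingCoeff‖)).exists_forall_of_atTop
  have hkey : ∀ n, n1 ≤ n → n2 ≤ n → evalEval (y n) (x n) h = 0 →
      ‖(ℓ.roots.map (y n - ·)).prod‖ < Real.exp (-(A / 2) * (d : ℝ) ^ n) := by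
    intro n h1 h2 hz
    have hxn := hgr n h1
    have hx1 : 1 ≤ ‖x n‖ := by
      rw [hxn]
      exact Real.one_le_exp (by positivity)
    have hb := hC (y n) (x n) (hB0 n) hx1 hz
    rw [hxn, (IsAlgClosed.splits ℓ).eval_eq_prod_roots, norm_mul] at hb
    have h3 := hn2 n h2
    rw [div_lt_iff₀ ha] at h3
    have h4 : ‖ℓ.leadingCoeff‖ * ‖(ℓ.roots.map (y n - ·)).prod‖ * Real.exp (A * (d : ℝ) ^ n) <
        Real.exp (A / 2 * (d : ℝ) ^ n) * ‖ℓ.leadingCoeff‖ := hb.trans_lt h3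
    have h5 : ‖(ℓ.roots.map (y n - ·)).prod‖ * Real.exp (A * (d : ℝ) ^ n) <
        Real.exp (A / 2 * (d : ℝ) ^ n) := by
      by_contra hcon
      push Not at hcon
      have := mul_le_mul_of_nonneg_left hcon ha.le
      nlinarith
    have h6 : Real.exp (-(A / 2) * (d : ℝ) ^ n) =
        Real.exp (A / 2 * (d : ℝ) ^ n) * (Real.exp (A * (d : ℝ) ^ n))⁻¹ := by
      rw [← Real.exp_neg, ← Real.exp_add]
      congr 1
      ring
    rw [h6]
    exact (lt_mul_inv_iff₀ (Real.exp_pos _)).mpr h5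
  have hinf' : {n | n1 ≤ n ∧ n2 ≤ n ∧ evalEval (y n) (x n) h = 0}.Infinite := by
    have hfin : {n : ℕ | n < n1 ∨ n < n2}.Finite :=
      (Set.finite_lt_nat (max n1 n2)).subset (fun n hn => by
        rcases hn with hn | hn
        · exact lt_of_lt_of_le hn (le_max_left _ _)
        · exact lt_of_lt_of_le hn (le_max_right _ _))
    refine (hinf.sdiff hfin).mono ?_
    rintro n ⟨hn, hn'⟩
    have hn'' : ¬ (n < n1 ∨ n < n2) := hn'
    push Not at hn''
    exact ⟨hn''.1, hn''.2, hn⟩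
  -- there is a root
  have he1 : 1 ≤ e := by
    by_contra hcon
    have he0 : e = 0 := by omega
    obtain ⟨n, hn⟩ := hinf'.nonempty
    have h1 := hkey n hn.1 hn.2.1 hn.2.2
    have h2 : ℓ.roots = 0 := Multiset.card_eq_zero.mp he0
    rw [h2, Multiset.map_zero, Multiset.prod_zero, norm_one] at h1
    have h3 : Real.exp (-(A / 2) * (d : ℝ) ^ n) ≤ 1 := by
      rw [Real.exp_le_one_iff]
      have : 0 < A / 2 * (d : ℝ) ^ n := by positivity
      linarith
    linarith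
  have he0 : (0 : ℝ) < (e : ℝ) := by exact_mod_cast he1
  set c : ℝ := A / (2 * e) with hc
  have hcpos : 0 < c := by positivity
  have hcover : {n | n1 ≤ n ∧ n2 ≤ n ∧ evalEval (y n) (x n) h = 0} ⊆
      ⋃ b ∈ (ℓ.roots.toFinset : Set W), {n | ‖y n - b‖ ≤ Real.exp (-c * (d : ℝ) ^ n)} := by
    rintro n ⟨h1, h2, h3⟩
    have h4 := hkey n h1 h2 h3
    have h5 : Real.exp (-(A / 2) * (d : ℝ) ^ n) = Real.exp (-c * (d : ℝ) ^ n) ^ e := by
      rw [← Real.exp_nat_mul]
      congr 1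
      rw [hc]
      field_simp
    rw [h5] at h4
    obtain ⟨b, hb, hb'⟩ := nr_factor ℓ.roots (y n) _ (Real.exp_pos _).le h4
    simp only [Set.mem_iUnion]
    exact ⟨b, by simpa using hb, hb'⟩
  have hex : ∃ b ∈ (ℓ.roots.toFinset : Set W),
      {n | ‖y n - b‖ ≤ Real.exp (-c * (d : ℝ) ^ n)}.Infinite := by
    by_contra hcon
    push Not at hcon
    exact hinf' ((Set.Finite.biUnion (Finset.finite_toSet _) (fun b hb => by
      simpa using hcon b hb)).subset hcover)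
  obtain ⟨b, hb, hbinf⟩ := hex
  refine ⟨b, ?_, c, hcpos, hbinf⟩
  have : b ∈ ℓ.roots := by simpa using hb
  exact (mem_roots hℓ).mp this

end Pool.Agent.Helper581_DML
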