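import Mathlib
import Pool.Agent.Helper581_DML.Defs

/-!
Part P3 of the proof (helper581, MP_6ac234_nt): `growth` and `exists_escape`.
Setting: `K` a finite separable extension of `RatFunc k` inside `W`, `y` an orbit in `K` of a monic polynomial over `K`, of degree `d`.

PLAIN PROOF. There are finitely many embeddings `σ : K →ₐ W` (`K` is finite over `RatFunc k`).
 `growth`: let `ρ ≥ 1` bound the norms of `σ` of the coefficients of `g` and of `σ (y 0)`, for all `σ`. Then `‖σ (y n)‖ ≤ ρ^(2 d^n - 1)`-like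
 bound: by induction `‖σ (y (n+1))‖ ≤ ρ * max(1, ‖σ (y n)‖)^d`, so `max(1, ‖σ (y n)‖) ≤ exp(A d^n)` with e.g. `A = 2 log ρ + 1`
 (if `u_(n+1) ≤ log ρ + d u_n`, `u_0 ≤ log ρ`, then `u_n + log ρ ≤ (2 log ρ) d^n`).
 `exists_escape`: first, if `‖σ (y n)‖` is unbounded for some `σ`, then from some `n1` on `‖σ (y (n+1))‖ = ‖σ (y n)‖^d > 1` (leading term
 dominates, `g` monic), so `‖σ (y n)‖ = exp(B d^n)`, `B = log ‖σ (y n1)‖ / d^n1 > 0`. So suppose all `‖σ (y n)‖` are bounded. Then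
 `‖σ (q.eval (y n))‖ ≤ C` for all `n` and `σ`. Put `z n = q.eval (y n)`. By hypothesis `‖z n‖` (identity embedding) is as small as we like for
 infinitely many `n`. LIOUVILLE: if `z ∈ K` is integral over `k[X]`, `z ≠ 0`, then `∏_σ ‖σ z‖ = ‖algebraMap (norm z)‖ ≥ 1`
 (`Algebra.norm_eq_prod_embeddings`, the norm is integral over `k[X]` and in `RatFunc k`, so it is a nonzero polynomial, `hnorm`). So
 `‖z n‖ ≥ C^(-(number of σ))` if `z n ≠ 0` (`C ≥ 1`). Hence `z n = 0` for infinitely many `n`; `q ≠ 0` has finitely many roots, so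
 `y n = y m` for some `n < m`, and then the orbit is eventually periodic and has finite range, contradiction.
-/

set_option autoImplicit false

namespace Pool.Agent.Helper581_DML

open Polynomial Filter

lemma p3_eval_le {W : Type} [NormedField W] [IsUltrametricDist W] (p : W[X]) {ρ : ℝ} (hρ : 0 ≤ ρ)
    (h : ∀ i, ‖p.coeff i‖ ≤ ρ) (x : W) : ‖p.eval x‖ ≤ ρ * (max 1 ‖x‖) ^ p.natDegree := by
  rw [eval_eq_sum_range]
  refine IsUltrametricDist.norm_sum_le_of_forall_le_of_nonneg (by positivity) fun i hi => ?_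
  rw [norm_mul, norm_pow]
  have h1 : ‖x‖ ^ i ≤ (max 1 ‖x‖) ^ p.natDegree :=
    (pow_le_pow_left₀ (norm_nonneg _) (le_max_right _ _) i).trans
      (pow_le_pow_right₀ (le_max_left _ _) (Nat.lt_succ_iff.1 (Finset.mem_range.1 hi)))
  exact mul_le_mul (h i) h1 (by positivity) hρ

lemma p3_eval_eq {W : Type} [NormedField W] [IsUltrametricDist W] (p : W[X]) (hp : p.Monic)
    (hd : 1 ≤ p.natDegree) {ρ : ℝ} (hρ : 1 ≤ ρ) (h : ∀ i, ‖p.coeff i‖ ≤ ρ) (x : W)
    (hx : ρ < ‖x‖) : ‖p.eval x‖ = ‖x‖ ^ p.natDegree := by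
  have hx1 : 1 ≤ ‖x‖ := hρ.trans hx.le
  rw [eval_eq_sum_range, Finset.sum_range_succ]
  have h1 : p.coeff p.natDegree = 1 := hp
  rw [h1, one_mul]
  have h2 : ‖∑ i ∈ Finset.range p.natDegree, p.coeff i * x ^ i‖ ≤ ρ * ‖x‖ ^ (p.natDegree - 1) := by
    refine IsUltrametricDist.norm_sum_le_of_forall_le_of_nonneg (by positivity) fun i hi => ?_
    rw [norm_mul, norm_pow]
    exact mul_le_mul (h i) (pow_le_pow_right₀ hx1 (by have := Finset.mem_range.1 hi; omega))
      (by positivity) (by linarith)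
  have h3 : ρ * ‖x‖ ^ (p.natDegree - 1) < ‖x ^ p.natDegree‖ := by
    rw [norm_pow]
    obtain ⟨m, hm⟩ : ∃ m, p.natDegree = m + 1 := ⟨p.natDegree - 1, by omega⟩
    rw [hm, Nat.add_sub_cancel, pow_succ, mul_comm]
    exact mul_lt_mul_of_pos_left hx (by positivity)
  have h4 := lt_of_le_of_lt h2 h3
  rw [IsUltrametricDist.norm_add_eq_max_of_norm_ne_norm h4.ne, max_eq_right h4.le, norm_pow]

/-- A bound for the coefficients under all embeddings. -/
lemma p3_bound {k W : Type} [Field k] [NormedField W]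
    [Algebra (RatFunc k) W] (K : IntermediateField (RatFunc k) W)
    [FiniteDimensional (RatFunc k) K] (g : K[X]) (x : K) :
    ∃ ρ : ℝ, 1 ≤ ρ ∧ (∀ σ : K →ₐ[RatFunc k] W, ‖σ x‖ ≤ ρ) ∧
      ∀ σ : K →ₐ[RatFunc k] W, ∀ i, ‖(g.map (σ : K →+* W)).coeff i‖ ≤ ρ := by
  obtain ⟨M, hM⟩ := Finite.exists_le fun σ : K →ₐ[RatFunc k] W =>
    ‖σ x‖ + ∑ i ∈ g.support, ‖σ (g.coeff i)‖
  refine ⟨max 1 M, le_max_left _ _, fun σ => ?_, fun σ i => ?_⟩
  · refine le_trans ?_ (le_max_right _ _)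
    refine le_trans ?_ (hM σ)
    have : 0 ≤ ∑ i ∈ g.support, ‖σ (g.coeff i)‖ := Finset.sum_nonneg fun _ _ => norm_nonneg _
    linarith
  · rw [coeff_map]
    show ‖σ (g.coeff i)‖ ≤ _
    by_cases hi : i ∈ g.support
    · refine le_trans ?_ (le_max_right _ _)
      refine le_trans ?_ (hM σ)
      have h1 := Finset.single_le_sum (f := fun i => ‖σ (g.coeff i)‖)
        (fun _ _ => norm_nonneg _) hi
      have h2 := norm_nonneg (σ x)
      have h1' : ‖σ (g.coeff i)‖ ≤ ∑ i ∈ g.support, ‖σ (g.coeff i)‖ := h1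
      linarith
    · rw [notMem_support_iff.1 hi, map_zero, norm_zero]
      positivity

lemma p3_map {k W : Type} [Field k] [NormedField W]
    [Algebra (RatFunc k) W] (K : IntermediateField (RatFunc k) W) (g : K[X]) (x : K)
    (σ : K →ₐ[RatFunc k] W) : σ (g.eval x) = (g.map (σ : K →+* W)).eval (σ x) := by
  rw [eval_map]
  exact (eval₂_at_apply (σ : K →+* W) x).symm

/-- Liouville inequality. -/
lemma p3_liou {k W : Type} [Field k] [NormedField W]
    [IsAlgClosed W] [Algebra (RatFunc k) W] [Algebra k[X] W] [IsScalarTower k[X] (RatFunc k) W]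
    (hnorm : ∀ q : k[X], q ≠ 0 → 1 ≤ ‖algebraMap k[X] W q‖)
    (K : IntermediateField (RatFunc k) W)
    [FiniteDimensional (RatFunc k) K] [Algebra.IsSeparable (RatFunc k) K] (z : K)
    (hz : IsIntegral k[X] ((z : K) : W)) (hz0 : z ≠ 0) :
    1 ≤ ∏ σ : K →ₐ[RatFunc k] W, ‖σ z‖ := by
  have h1 : IsIntegral k[X] z := by
    refine (isIntegral_algHom_iff (K.val.restrictScalars k[X]) ?_).1 hz
    exact K.val.injective
  have h2 : IsIntegral k[X] (Algebra.norm (RatFunc k) z) := Algebra.isIntegral_norm _ h1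
  obtain ⟨p, hp⟩ := IsIntegrallyClosed.isIntegral_iff.1 h2
  have hp0 : p ≠ 0 := by
    rintro rfl
    rw [map_zero] at hp
    exact Algebra.norm_ne_zero_iff.2 hz0 hp.symm
  have h3 := hnorm p hp0
  have h4 := Algebra.norm_eq_prod_embeddings (RatFunc k) W z
  rw [← hp, ← IsScalarTower.algebraMap_apply] at h4
  rw [h4, norm_prod] at h3
  exact h3

theorem growth {k W : Type} [Field k] [NormedField W] [IsUltrametricDist W]
    [Algebra (RatFunc k) W] (K : IntermediateField (RatFunc k) W)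
    [FiniteDimensional (RatFunc k) K] (g : K[X]) (hg : g.Monic) (d : ℕ) (hgd : g.natDegree = d)
    (hd2 : 2 ≤ d) (y : ℕ → K) (hy : ∀ n, y (n + 1) = g.eval (y n)) :
    ∃ A : ℝ, 0 < A ∧ ∀ n, ∀ σ : K →ₐ[RatFunc k] W, ‖σ (y n)‖ ≤ Real.exp (A * (d : ℝ) ^ n) := by
  obtain ⟨ρ, hρ, hρ0, hρg⟩ := p3_bound K g (y 0)
  have key : ∀ σ : K →ₐ[RatFunc k] W, ∀ n, ρ * max 1 ‖σ (y n)‖ ≤ ρ ^ (2 * d ^ n) := by
    intro σ n
    induction n with
    | zero =>
      rw [pow_zero, mul_one, pow_two]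
      exact mul_le_mul_of_nonneg_left (max_le hρ (hρ0 σ)) (by linarith)
    | succ n ih =>
      have hM : 1 ≤ max 1 ‖σ (y n)‖ := le_max_left _ _
      have h1 : ‖σ (y (n + 1))‖ ≤ ρ * (max 1 ‖σ (y n)‖) ^ d := by
        rw [hy, p3_map]
        refine (p3_eval_le _ (by linarith) (hρg σ) _).trans ?_
        rw [natDegree_map, hgd]
      have h2 : max 1 ‖σ (y (n + 1))‖ ≤ ρ * (max 1 ‖σ (y n)‖) ^ d := by
        refine max_le ?_ h1
        have := one_le_pow₀ hM (n := d)
        nlinarith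
      calc ρ * max 1 ‖σ (y (n + 1))‖ ≤ ρ * (ρ * (max 1 ‖σ (y n)‖) ^ d) :=
            mul_le_mul_of_nonneg_left h2 (by linarith)
        _ = ρ ^ 2 * (max 1 ‖σ (y n)‖) ^ d := by ring
        _ ≤ ρ ^ d * (max 1 ‖σ (y n)‖) ^ d :=
            mul_le_mul_of_nonneg_right (pow_le_pow_right₀ hρ hd2) (by positivity)
        _ = (ρ * max 1 ‖σ (y n)‖) ^ d := (mul_pow _ _ _).symm
        _ ≤ (ρ ^ (2 * d ^ n)) ^ d := pow_le_pow_left₀ (by positivity) ih d
        _ = ρ ^ (2 * d ^ (n + 1)) := by rw [← pow_mul]; congr 1; ring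
  refine ⟨2 * Real.log ρ + 1, by have := Real.log_nonneg hρ; linarith, fun n σ => ?_⟩
  have h1 : ‖σ (y n)‖ ≤ ρ ^ (2 * d ^ n) := by
    refine le_trans ?_ (key σ n)
    refine (le_max_right 1 _).trans ?_
    have : (0 : ℝ) ≤ max 1 ‖σ (y n)‖ := by positivity
    nlinarith
  refine h1.trans ?_
  have hρ0 : 0 < ρ := by linarith
  rw [← Real.exp_log (pow_pos hρ0 (2 * d ^ n)), Real.log_pow]
  refine Real.exp_le_exp.2 ?_
  push_cast
  have : (0 : ℝ) < (d : ℝ) ^ n := by positivity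
  nlinarith

theorem exists_escape {k W : Type} [Field k] [NormedField W] [IsUltrametricDist W]
    [IsAlgClosed W] [Algebra (RatFunc k) W] [Algebra k[X] W] [IsScalarTower k[X] (RatFunc k) W]
    (hnorm : ∀ q : k[X], q ≠ 0 → 1 ≤ ‖algebraMap k[X] W q‖)
    (K : IntermediateField (RatFunc k) W)
    [FiniteDimensional (RatFunc k) K] [Algebra.IsSeparable (RatFunc k) K]
    (g : K[X]) (hg : g.Monic) (d : ℕ) (hgd : g.natDegree = d)
    (hd2 : 2 ≤ d) (y : ℕ → K) (hy : ∀ n, y (n + 1) = g.eval (y n))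
    (hyi : (Set.range y).Infinite) (q : K[X]) (hq : q ≠ 0)
    (hqO : ∀ n, IsIntegral k[X] ((q.eval (y n) : K) : W))
    (hsmall : ∀ ε : ℝ, 0 < ε → {n | ‖((q.eval (y n) : K) : W)‖ < ε}.Infinite) :
    ∃ σ : K →ₐ[RatFunc k] W, ∃ B : ℝ, 0 < B ∧
      ∀ᶠ n in atTop, ‖σ (y n)‖ = Real.exp (B * (d : ℝ) ^ n) := by
  by_cases hub : ∃ σ : K →ₐ[RatFunc k] W, ¬ ∃ C : ℝ, ∀ n, ‖σ (y n)‖ ≤ C
  · obtain ⟨σ, hσ⟩ := hub
    obtain ⟨ρ, hρ, -, hρg⟩ := p3_bound K g (y 0)
    push Not at hσ
    obtain ⟨n1, hn1⟩ := hσ ρ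
    have hdeg : (g.map (σ : K →+* W)).natDegree = d := by rw [natDegree_map, hgd]
    have hstep : ∀ n, ρ < ‖σ (y n)‖ → ‖σ (y (n + 1))‖ = ‖σ (y n)‖ ^ d := by
      intro n hn
      rw [hy, p3_map, p3_eval_eq _ (hg.map _) (by rw [hdeg]; omega) hρ (hρg σ) _ hn, hdeg]
    have h1 : ∀ m, ρ < ‖σ (y (n1 + m))‖ ∧ ‖σ (y (n1 + m))‖ = ‖σ (y n1)‖ ^ d ^ m := by
      intro m
      induction m with
      | zero => exact ⟨hn1, by simp⟩
      | succ m ih =>
        obtain ⟨ih1, ih2⟩ := ih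
        have h2 := hstep _ ih1
        refine ⟨?_, ?_⟩
        · rw [← add_assoc, h2]
          have h3 : 1 ≤ ‖σ (y (n1 + m))‖ := hρ.trans ih1.le
          exact ih1.trans_le (le_self_pow₀ h3 (by omega))
        · rw [← add_assoc, h2, ih2, ← pow_mul, pow_succ]
    have hL : 0 < Real.log ‖σ (y n1)‖ := Real.log_pos (hρ.trans_lt hn1)
    have hd0 : (0 : ℝ) < (d : ℝ) := by positivity
    refine ⟨σ, Real.log ‖σ (y n1)‖ / (d : ℝ) ^ n1, by positivity, ?_⟩
    filter_upwards [eventually_ge_atTop n1] with n hn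
    obtain ⟨m, rfl⟩ := Nat.exists_eq_add_of_le hn
    have hpos : 0 < ‖σ (y n1)‖ := by linarith
    rw [(h1 m).2, ← Real.exp_log (pow_pos hpos (d ^ m)), Real.log_pow]
    congr 1
    push_cast
    rw [pow_add]
    field_simp
  · exfalso
    push Not at hub
    choose C hC using hub
    obtain ⟨C0, hC0⟩ := Finite.exists_le C
    obtain ⟨ρ, hρ, -, hρq⟩ := p3_bound K q (y 0)
    set D : ℝ := ρ * (max 1 C0) ^ q.natDegree with hD
    have hD1 : 1 ≤ D := by
      have : (1 : ℝ) ≤ (max 1 C0) ^ q.natDegree := one_le_pow₀ (le_max_left _ _)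
      nlinarith
    have hDb : ∀ n (σ : K →ₐ[RatFunc k] W), ‖σ (q.eval (y n))‖ ≤ D := by
      intro n σ
      rw [p3_map]
      refine (p3_eval_le _ (by linarith) (hρq σ) _).trans ?_
      rw [natDegree_map, hD]
      refine mul_le_mul_of_nonneg_left ?_ (by linarith)
      refine pow_le_pow_left₀ (by positivity) ?_ _
      exact max_le_max le_rfl ((hC σ n).trans (hC0 σ))
    have h1 : ∀ n, q.eval (y n) ≠ 0 →
        1 ≤ ‖((q.eval (y n) : K) : W)‖ * D ^ Fintype.card (K →ₐ[RatFunc k] W) := by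
      intro n hn
      refine (p3_liou hnorm K _ (hqO n) hn).trans ?_
      classical
      rw [← Finset.mul_prod_erase Finset.univ _ (Finset.mem_univ K.val)]
      refine mul_le_mul_of_nonneg_left ?_ (norm_nonneg _)
      refine (Finset.prod_le_prod (fun _ _ => norm_nonneg _) fun σ _ => hDb n σ).trans ?_
      rw [Finset.prod_const]
      exact pow_le_pow_right₀ hD1 (Finset.card_le_univ _)
    set N := Fintype.card (K →ₐ[RatFunc k] W) with hN
    have hDN : 0 < D ^ N := by positivity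
    have h2 := hsmall (1 / D ^ N) (by positivity)
    have h3 : {n | ‖((q.eval (y n) : K) : W)‖ < 1 / D ^ N} ⊆ {n | q.eval (y n) = 0} := by
      intro n hn
      by_contra h
      have h4 := h1 n h
      have hn' : ‖((q.eval (y n) : K) : W)‖ < 1 / D ^ N := hn
      rw [lt_div_iff₀ hDN] at hn'
      linarith
    have h4 : {n | q.eval (y n) = 0}.Infinite := h2.mono h3
    -- two equal values
    have h5 : ∃ n m, n < m ∧ y n = y m := by
      by_contra hne
      push Not at hne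
      have hinj : Function.Injective y := by
        intro a b hab
        rcases lt_trichotomy a b with h | h | h
        · exact absurd hab (hne a b h)
        · exact h
        · exact absurd hab.symm (hne b a h)
      have h6 : (y '' {n | q.eval (y n) = 0}).Infinite := h4.image hinj.injOn
      classical
      refine h6 ((q.roots.toFinset.finite_toSet).subset ?_)
      rintro _ ⟨n, hn, rfl⟩
      simp only [Finset.mem_coe, Multiset.mem_toFinset, mem_roots hq]
      exact hn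
    obtain ⟨n, m, hnm, hyn⟩ := h5
    have h6 : ∀ i, y i ∈ y '' {j | j < m} := by
      intro i
      induction i using Nat.strong_induction_on with
      | _ i ih =>
        by_cases hi : i < m
        · exact ⟨i, hi, rfl⟩
        · have h7 : ∀ t, y (n + t) = y (m + t) := by
            intro t
            induction t with
            | zero => exact hyn
            | succ t iht => rw [← add_assoc, ← add_assoc, hy, hy, iht]
          obtain ⟨t, rfl⟩ := Nat.exists_eq_add_of_le (not_lt.1 hi)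
          rw [← h7]
          exact ih (n + t) (by omega)
    refine hyi (((Set.finite_lt_nat m).image y).subset ?_)
    rintro _ ⟨i, rfl⟩
    exact h6 i

end Pool.Agent.Helper581_DML
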