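import Mathlib
import Pool.Agent.Helper581_DML.Defs
import Pool.Agent.Helper581_DML.D7
import Pool.Agent.Helper581_DML.E9

/-!
Part P1 of the proof (helper581, MP_6ac234_nt): `escape_pair_closure`: the theorem `escape_pair` over the algebraically closed field `W`
(algebraic over the complete field `F` of Laurent series); `escape_pair` and `ext_val` are given.

PLAIN PROOF. Let `E` be the intermediate field of `W/F` generated by the coefficients of `f`, `g`, `h` (finitely many) and `x 0`, `y 0`, with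
 the norm of `W` (a subfield of a normed field; it is nontrivially normed since it contains `F`, a normed algebra over `F`). It is finite
 over `F` (algebraic and finitely generated), so complete (`FiniteDimensional.complete F E`). All `x n`, `y n` are in `E`. `CharP E p` since
 `k → F → E`. Descend `f, g, h` and the sequences to `E` and apply `escape_pair`; norms and evaluations are compatible with `E → W`.
 HYPOTHESIS `hval`: if `ρ ≥ 1` bounds the norms of the coefficients of `f`, then `‖f(x)‖ = ‖x‖^d` for `‖x‖ > ρ`, so, as `x` is unbounded, from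
 some `n1` on `‖x (n+1)‖ = ‖x n‖^d` and `‖x n‖ > 1`; the same for `y`. By `ext_val` `‖x n1‖^M = ‖t‖^m1`, `‖y n1‖^M = ‖t‖^m2` with `m1, m2 > 0` (norms
 > 1), so `‖y n1‖^(M m1) = ‖x n1‖^(M m2)` (with `m1, m2` as naturals), and by induction `‖y n‖^(M m1) = ‖x n‖^(M m2)` for `n ≥ n1`.
-/

set_option autoImplicit false

namespace Pool.Agent.Helper581_DML

open Polynomial Filter
open scoped Polynomial.Bivariate


theorem escape_pair_closure_norm {W : Type} [NontriviallyNormedField W] [IsUltrametricDist W]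
    (f : W[X]) (hf : f.Monic) (d : ℕ) (hfd : f.natDegree = d) (hd : 1 ≤ d) :
    ∃ ρ : ℝ, 1 ≤ ρ ∧ ∀ z : W, ρ < ‖z‖ → ‖f.eval z‖ = ‖z‖ ^ d := by
  set s : ℝ := ∑ i ∈ Finset.range d, ‖f.coeff i‖ with hs
  have hs0 : 0 ≤ s := Finset.sum_nonneg fun _ _ => norm_nonneg _
  refine ⟨1 + s, by linarith, ?_⟩
  intro z hz
  have hz1 : 1 < ‖z‖ := by linarith
  have hz0 : 0 < ‖z‖ := by linarith
  have hsum : f.eval z = (∑ i ∈ Finset.range d, f.coeff i * z ^ i) + z ^ d := by
    rw [Polynomial.eval_eq_sum_range, hfd, Finset.sum_range_succ]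
    have : f.coeff d = 1 := by rw [← hfd]; exact hf
    rw [this, one_mul]
  have hle : ‖∑ i ∈ Finset.range d, f.coeff i * z ^ i‖ ≤ s * ‖z‖ ^ (d - 1) := by
    apply IsUltrametricDist.norm_sum_le_of_forall_le_of_nonneg (by positivity)
    intro i hi
    rw [norm_mul, norm_pow]
    have h1 : ‖f.coeff i‖ ≤ s :=
      Finset.single_le_sum (f := fun i => ‖f.coeff i‖) (fun _ _ => norm_nonneg _) hi
    have h2 : i ≤ d - 1 := by
      have := Finset.mem_range.mp hi
      omega
    exact mul_le_mul h1 (pow_le_pow_right₀ hz1.le h2) (by positivity) hs0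
  have hlt : ‖∑ i ∈ Finset.range d, f.coeff i * z ^ i‖ < ‖z ^ d‖ := by
    refine lt_of_le_of_lt hle ?_
    rw [norm_pow]
    have e : ‖z‖ ^ d = ‖z‖ * ‖z‖ ^ (d - 1) := by
      rw [← pow_succ']; congr 1; omega
    rw [e]
    apply mul_lt_mul_of_pos_right _ (by positivity)
    linarith
  rw [hsum, IsUltrametricDist.norm_add_eq_max_of_norm_ne_norm hlt.ne, max_eq_right hlt.le, norm_pow]

theorem escape_pair_closure_orbit {W : Type} [NontriviallyNormedField W] [IsUltrametricDist W]
    (f : W[X]) (hf : f.Monic) (d : ℕ) (hfd : f.natDegree = d) (hd : 1 ≤ d) (x : ℕ → W)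
    (hx : ∀ n, x (n + 1) = f.eval (x n)) (hxu : ∀ B : ℝ, ∃ n, B < ‖x n‖) :
    ∃ n0, ∀ n, n0 ≤ n → 1 < ‖x n‖ ∧ ‖x (n + 1)‖ = ‖x n‖ ^ d := by
  obtain ⟨ρ, hρ, h⟩ := escape_pair_closure_norm f hf d hfd hd
  obtain ⟨n0, hn0⟩ := hxu ρ
  have key : ∀ n, n0 ≤ n → ρ < ‖x n‖ := by
    intro n hn
    induction n, hn using Nat.le_induction with
    | base => exact hn0
    | succ n hn ih =>
      rw [hx, h _ ih]
      have h1 : 1 ≤ ‖x n‖ := by linarith
      calc ρ < ‖x n‖ := ih
        _ = ‖x n‖ ^ 1 := (pow_one _).symm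
        _ ≤ ‖x n‖ ^ d := pow_le_pow_right₀ h1 hd
  refine ⟨n0, fun n hn => ⟨?_, ?_⟩⟩
  · have := key n hn
    linarith
  · rw [hx, h _ (key n hn)]

theorem escape_pair_closure_core {p : ℕ} [Fact p.Prime] {k F W : Type} [Field k] [IsAlgClosed k]
    [CharP k p] [NontriviallyNormedField F] [IsUltrametricDist F] [CompleteSpace F] [Algebra k F]
    (t : F) (hF : LF p k F t) [NontriviallyNormedField W] [IsUltrametricDist W]
    (E : Type) [NontriviallyNormedField E] [IsUltrametricDist E] [NormedAlgebra F E]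
    [FiniteDimensional F E] [CompleteSpace E] [CharP E p] (ι : E →+* W) (hι : ∀ e, ‖ι e‖ = ‖e‖)
    (f g : E[X]) (hf : (f.map ι).Monic) (hg : (g.map ι).Monic)
    (d : ℕ) (hfd : (f.map ι).natDegree = d) (hgd : (g.map ι).natDegree = d) (hd2 : 2 ≤ d)
    (hpd : ¬ p ∣ d)
    (x y : ℕ → W) (hx : ∀ n, x (n + 1) = (f.map ι).eval (x n))
    (hy : ∀ n, y (n + 1) = (g.map ι).eval (y n))
    (x0 y0 : E) (hx0 : ι x0 = x 0) (hy0 : ι y0 = y 0)
    (hxu : ∀ B : ℝ, ∃ n, B < ‖x n‖) (hyu : ∀ B : ℝ, ∃ n, B < ‖y n‖)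
    (h : E[X][Y]) (hh : h.map (mapRingHom ι) ≠ 0)
    (hinf : {n | evalEval (x n) (y n) (h.map (mapRingHom ι)) = 0}.Infinite) :
    ∃ k, 0 < k ∧ {n | evalEval (x n) (y n) (h.map (mapRingHom ι)) = 0 ∧
      evalEval (x (n + k)) (y (n + k)) (h.map (mapRingHom ι)) = 0}.Infinite := by
  have hinj : Function.Injective ι := ι.injective
  let x' : ℕ → E := fun n => Nat.rec x0 (fun _ a => f.eval a) n
  let y' : ℕ → E := fun n => Nat.rec y0 (fun _ a => g.eval a) n
  have hx's : ∀ n, x' (n + 1) = f.eval (x' n) := fun _ => rfl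
  have hy's : ∀ n, y' (n + 1) = g.eval (y' n) := fun _ => rfl
  have ex : ∀ n, ι (x' n) = x n := by
    intro n
    induction n with
    | zero => exact hx0
    | succ n ih => rw [hx's, hx, ← ih, Polynomial.eval_map_apply]
  have ey : ∀ n, ι (y' n) = y n := by
    intro n
    induction n with
    | zero => exact hy0
    | succ n ih => rw [hy's, hy, ← ih, Polynomial.eval_map_apply]
  have nx : ∀ n, ‖x' n‖ = ‖x n‖ := fun n => by rw [← hι, ex]
  have ny : ∀ n, ‖y' n‖ = ‖y n‖ := fun n => by rw [← hι, ey]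
  have eh : ∀ n m, evalEval (x n) (y m) (h.map (mapRingHom ι)) = 0 ↔
      evalEval (x' n) (y' m) h = 0 := by
    intro n m
    rw [← ex, ← ey, Polynomial.map_mapRingHom_evalEval]
    constructor
    · intro h0
      apply hinj
      rw [h0, map_zero]
    · intro h0
      rw [h0, map_zero]
  obtain ⟨n1, hn1⟩ := escape_pair_closure_orbit (f.map ι) hf d hfd (by omega) x hx hxu
  obtain ⟨n2, hn2⟩ := escape_pair_closure_orbit (g.map ι) hg d hgd (by omega) y hy hyu
  obtain ⟨M, hM, hext⟩ := ext_val (E := E) t hF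
  set n0 := max n1 n2 with hn0
  have a1 := (hn1 n0 (le_max_left _ _)).1
  have a2 := (hn2 n0 (le_max_right _ _)).1
  have b1 : x' n0 ≠ 0 := by
    intro h0
    have := nx n0
    rw [h0, norm_zero] at this
    linarith
  have b2 : y' n0 ≠ 0 := by
    intro h0
    have := ny n0
    rw [h0, norm_zero] at this
    linarith
  obtain ⟨m1, hm1⟩ := hext _ b1
  obtain ⟨m2, hm2⟩ := hext _ b2
  rw [nx] at hm1
  rw [ny] at hm2
  have c1 : 0 < m1 := by
    rw [← one_lt_zpow_iff_right₀ hF.one_lt, ← hm1]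
    exact one_lt_pow₀ a1 hM.ne'
  have c2 : 0 < m2 := by
    rw [← one_lt_zpow_iff_right₀ hF.one_lt, ← hm2]
    exact one_lt_pow₀ a2 hM.ne'
  obtain ⟨a, rfl⟩ := Int.eq_ofNat_of_zero_le c1.le
  obtain ⟨b, rfl⟩ := Int.eq_ofNat_of_zero_le c2.le
  have ha : 0 < a := by exact_mod_cast c1
  have hb : 0 < b := by exact_mod_cast c2
  have hval : ∃ N1 N2 : ℕ, 0 < N1 ∧ 0 < N2 ∧ ∀ᶠ n in atTop, ‖y' n‖ ^ N1 = ‖x' n‖ ^ N2 := by
    refine ⟨M * a, M * b, Nat.mul_pos hM ha, Nat.mul_pos hM hb, ?_⟩
    rw [Filter.eventually_atTop]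
    refine ⟨n0, fun n hn => ?_⟩
    rw [nx, ny]
    induction n, hn using Nat.le_induction with
    | base =>
      rw [pow_mul, pow_mul, hm1, hm2, zpow_natCast, zpow_natCast, ← pow_mul, ← pow_mul, mul_comm]
    | succ n hn ih =>
      rw [(hn1 n ((le_max_left _ _).trans hn)).2, (hn2 n ((le_max_right _ _).trans hn)).2,
        ← pow_mul, ← pow_mul, mul_comm d, mul_comm d, pow_mul, pow_mul ‖x n‖, ih]
  have hres := escape_pair f g (hinj.monic_map_iff.mpr hf) (hinj.monic_map_iff.mpr hg) d
    (by rw [← hfd, Polynomial.natDegree_map_eq_of_injective hinj])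
    (by rw [← hgd, Polynomial.natDegree_map_eq_of_injective hinj]) hd2 hpd x' y' hx's hy's
    (fun B => by simpa only [nx] using hxu B) (fun B => by simpa only [ny] using hyu B) hval h
    (fun h0 => hh (by rw [h0, Polynomial.map_zero]))
    (by
      have e : {n | evalEval (x' n) (y' n) h = 0} =
          {n | evalEval (x n) (y n) (h.map (mapRingHom ι)) = 0} := by
        ext n; exact (eh n n).symm
      rw [e]; exact hinf)
  obtain ⟨q, hq, hinf'⟩ := hres
  refine ⟨q, hq, ?_⟩
  have e : {n | evalEval (x n) (y n) (h.map (mapRingHom ι)) = 0 ∧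
      evalEval (x (n + q)) (y (n + q)) (h.map (mapRingHom ι)) = 0} =
      {n | evalEval (x' n) (y' n) h = 0 ∧ evalEval (x' (n + q)) (y' (n + q)) h = 0} := by
    ext n
    exact and_congr (eh n n) (eh (n + q) (n + q))
  rw [e]
  exact hinf'

theorem escape_pair_closure_core2 {p : ℕ} [Fact p.Prime] {k F W : Type} [Field k] [IsAlgClosed k]
    [CharP k p] [NontriviallyNormedField F] [IsUltrametricDist F] [CompleteSpace F] [Algebra k F]
    (t : F) (hF : LF p k F t) [NontriviallyNormedField W] [IsUltrametricDist W]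
    (E : Type) [NontriviallyNormedField E] [IsUltrametricDist E] [NormedAlgebra F E]
    [FiniteDimensional F E] [CompleteSpace E] [CharP E p] (ι : E →+* W) (hι : ∀ e, ‖ι e‖ = ‖e‖)
    (f g : E[X]) (fW gW : W[X]) (efW : f.map ι = fW) (egW : g.map ι = gW)
    (hf : fW.Monic) (hg : gW.Monic)
    (d : ℕ) (hfd : fW.natDegree = d) (hgd : gW.natDegree = d) (hd2 : 2 ≤ d)
    (hpd : ¬ p ∣ d)
    (x y : ℕ → W) (hx : ∀ n, x (n + 1) = fW.eval (x n))
    (hy : ∀ n, y (n + 1) = gW.eval (y n))
    (x0 y0 : E) (hx0 : ι x0 = x 0) (hy0 : ι y0 = y 0)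
    (hxu : ∀ B : ℝ, ∃ n, B < ‖x n‖) (hyu : ∀ B : ℝ, ∃ n, B < ‖y n‖)
    (h : E[X][Y]) (hW : W[X][Y]) (ehW : h.map (mapRingHom ι) = hW) (hh : hW ≠ 0)
    (hinf : {n | evalEval (x n) (y n) hW = 0}.Infinite) :
    ∃ k, 0 < k ∧ {n | evalEval (x n) (y n) hW = 0 ∧
      evalEval (x (n + k)) (y (n + k)) hW = 0}.Infinite := by
  subst efW egW ehW
  exact escape_pair_closure_core t hF E ι hι f g hf hg d hfd hgd hd2
    hpd x y hx hy x0 y0 hx0 hy0 hxu hyu h hh hinf

theorem escape_pair_closure_lift {F W : Type} [Field F] [Field W] [Algebra F W]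
    (E : IntermediateField F W) (f : W[X]) (hf : ∀ n, f.coeff n ∈ E) :
    ∃ f' : E[X], f'.map (algebraMap E W) = f := by
  have h : f ∈ Polynomial.lifts (algebraMap E W) := by
    rw [Polynomial.lifts_iff_coeff_lifts]
    intro n
    exact ⟨⟨f.coeff n, hf n⟩, rfl⟩
  rw [Polynomial.mem_lifts] at h
  exact h

theorem escape_pair_closure_lift2 {F W : Type} [Field F] [Field W] [Algebra F W]
    (E : IntermediateField F W) (f : W[X][Y]) (hf : ∀ n m, (f.coeff n).coeff m ∈ E) :
    ∃ f' : E[X][Y], f'.map (mapRingHom (algebraMap E W)) = f := by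
  have h : f ∈ Polynomial.lifts (mapRingHom (algebraMap E W)) := by
    rw [Polynomial.lifts_iff_coeff_lifts]
    intro n
    obtain ⟨q, hq⟩ := escape_pair_closure_lift E (f.coeff n) (hf n)
    exact ⟨q, by rw [← hq]; rfl⟩
  rw [Polynomial.mem_lifts] at h
  exact h

theorem escape_pair_closure {p : ℕ} [Fact p.Prime] {k F W : Type} [Field k] [IsAlgClosed k]
    [CharP k p] [NontriviallyNormedField F] [IsUltrametricDist F] [CompleteSpace F] [Algebra k F]
    (t : F) (hF : LF p k F t) [NontriviallyNormedField W] [IsUltrametricDist W] [NormedAlgebra F W]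
    [IsAlgClosed W] [Algebra.IsAlgebraic F W] (f g : W[X]) (hf : f.Monic) (hg : g.Monic)
    (d : ℕ) (hfd : f.natDegree = d) (hgd : g.natDegree = d) (hd2 : 2 ≤ d) (hpd : ¬ p ∣ d)
    (x y : ℕ → W) (hx : ∀ n, x (n + 1) = f.eval (x n)) (hy : ∀ n, y (n + 1) = g.eval (y n))
    (hxu : ∀ B : ℝ, ∃ n, B < ‖x n‖) (hyu : ∀ B : ℝ, ∃ n, B < ‖y n‖)
    (h : W[X][Y]) (hh : h ≠ 0) (hinf : {n | evalEval (x n) (y n) h = 0}.Infinite) :
    ∃ k, 0 < k ∧ {n | evalEval (x n) (y n) h = 0 ∧
      evalEval (x (n + k)) (y (n + k)) h = 0}.Infinite := by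
  classical
  -- the generators
  let S : Finset W := (Finset.range (f.natDegree + 1)).image f.coeff ∪
    ((Finset.range (g.natDegree + 1)).image g.coeff ∪
    ({x 0, y 0} ∪ (Finset.range (h.natDegree + 1)).biUnion fun n =>
      (Finset.range ((h.coeff n).natDegree + 1)).image (h.coeff n).coeff))
  let E : IntermediateField F W := IntermediateField.adjoin F (S : Set W)
  have hSE : ∀ s ∈ S, s ∈ E := fun s hs => IntermediateField.subset_adjoin F (S : Set W) hs
  have hfE : ∀ n, f.coeff n ∈ E := by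
    intro n
    by_cases hn : n < f.natDegree + 1
    · apply hSE
      apply Finset.mem_union_left
      exact Finset.mem_image_of_mem _ (Finset.mem_range.mpr hn)
    · rw [Polynomial.coeff_eq_zero_of_natDegree_lt (by omega)]
      exact E.zero_mem
  have hgE : ∀ n, g.coeff n ∈ E := by
    intro n
    by_cases hn : n < g.natDegree + 1
    · apply hSE
      apply Finset.mem_union_right
      apply Finset.mem_union_left
      exact Finset.mem_image_of_mem _ (Finset.mem_range.mpr hn)
    · rw [Polynomial.coeff_eq_zero_of_natDegree_lt (by omega)]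
      exact E.zero_mem
  have hhE : ∀ n m, (h.coeff n).coeff m ∈ E := by
    intro n m
    by_cases hn : n < h.natDegree + 1
    · by_cases hm : m < (h.coeff n).natDegree + 1
      · apply hSE
        apply Finset.mem_union_right
        apply Finset.mem_union_right
        apply Finset.mem_union_right
        apply Finset.mem_biUnion.mpr
        exact ⟨n, Finset.mem_range.mpr hn, Finset.mem_image_of_mem _ (Finset.mem_range.mpr hm)⟩
      · rw [Polynomial.coeff_eq_zero_of_natDegree_lt (show (h.coeff n).natDegree < m by omega)]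
        exact E.zero_mem
    · rw [Polynomial.coeff_eq_zero_of_natDegree_lt (show h.natDegree < n by omega),
        Polynomial.coeff_zero]
      exact E.zero_mem
  have hxE : x 0 ∈ E := by
    apply hSE
    apply Finset.mem_union_right
    apply Finset.mem_union_right
    apply Finset.mem_union_left
    simp
  have hyE : y 0 ∈ E := by
    apply hSE
    apply Finset.mem_union_right
    apply Finset.mem_union_right
    apply Finset.mem_union_left
    simp
  have hfin : FiniteDimensional F E :=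
    IntermediateField.finiteDimensional_adjoin fun z _ =>
      (Algebra.IsAlgebraic.isAlgebraic z).isIntegral
  obtain ⟨f', hf'⟩ := escape_pair_closure_lift E f hfE
  obtain ⟨g', hg'⟩ := escape_pair_closure_lift E g hgE
  obtain ⟨h', hh'⟩ := escape_pair_closure_lift2 E h hhE
  let nE : NontriviallyNormedField E :=
    { (inferInstance : NormedField E) with
      non_trivial := ⟨algebraMap F E t, by
        have h1 : ‖algebraMap F E t‖ = ‖t‖ := norm_algebraMap' E t
        rw [h1]; exact hF.one_lt⟩ }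
  have hcomp : CompleteSpace E := FiniteDimensional.complete F E
  have hcF : CharP F p := charP_of_injective_algebraMap (algebraMap k F).injective p
  have hcE : CharP E p := charP_of_injective_algebraMap (algebraMap F E).injective p
  exact escape_pair_closure_core2 t hF E (algebraMap E W) (fun e => rfl) f' g' f g hf' hg' hf hg
    d hfd hgd hd2 hpd x y hx hy ⟨x 0, hxE⟩ ⟨y 0, hyE⟩ rfl rfl hxu hyu h' h hh' hh hinf

end Pool.Agent.Helper581_DML
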