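import Mathlib

/-!
# Definitions for the case of degrees divisible by `p`
-/

set_option autoImplicit false

namespace Pool.Agent.Helper581_DML.Wild

open Polynomial

/-- relative distance of `g^i(y)^N1` from `κ^(d^i) f^i(x)^N2` -/
noncomputable def Wn {L : Type*} [NormedField L] (f g : L[X]) (d N1 N2 : ℕ) (κ x y : L)
    (i : ℕ) : ℝ :=
  ‖((fun z => g.eval z)^[i] y) ^ N1 - κ ^ d ^ i * ((fun z => f.eval z)^[i] x) ^ N2‖ /
    ‖(fun z => f.eval z)^[i] x‖ ^ N2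

/-- the dichotomy for `Wn` along the orbits of points with large first coordinate -/
def Dich {L : Type*} [NormedField L] (f g : L[X]) (d q N1 N2 : ℕ) (R : ℝ) (M : ℕ) : Prop :=
  1 ≤ R ∧ 0 < M ∧ ∀ κ x y : L, ‖κ‖ = 1 → R < ‖x‖ → ∀ i : ℕ,
    ‖(fun z => f.eval z)^[i] x‖ = ‖x‖ ^ d ^ i ∧
    (Wn f g d N1 N2 κ x y i < 1 →
      Wn f g d N1 N2 κ x y (i + 1) < 1 ∧
      (1 < Wn f g d N1 N2 κ x y i ^ (q * M) * ‖x‖ ^ d ^ i →
        Wn f g d N1 N2 κ x y (i + 1) = Wn f g d N1 N2 κ x y i ^ q) ∧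
      (Wn f g d N1 N2 κ x y i ^ (q * M) * ‖x‖ ^ d ^ i ≤ 1 →
        Wn f g d N1 N2 κ x y (i + 1) ^ M * ‖x‖ ^ d ^ i ≤ 1))

/-- the point `(x, y)` is special at time `i`: `W_i ≤ ‖f^i x‖^(-1/m)` -/
def Sp {L : Type*} [NormedField L] (f g : L[X]) (d m N1 N2 : ℕ) (κ x y : L) (i : ℕ) : Prop :=
  Wn f g d N1 N2 κ x y i ^ m * ‖x‖ ^ d ^ i ≤ 1

end Pool.Agent.Helper581_DML.Wild
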