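import Mathlib
import Pool.Agent.Helper581_DML.WDefs

/-!
Part W1 of the proof (helper581, MP_6ac234_nt): `dich`, the dichotomy for the ratio `y^N1/x^N2` near a unit `κ` along two escaping orbits of
monic polynomials of the same degree `d = p^s d'`.

PLAIN PROOF. Write `x_i = f^[i] x`, `y_i = g^[i] y`, `W_i = Wn f g d N1 N2 κ x y i`. For `‖z‖` large (larger than 1 and all norms of coefficients of `f`)
 `f(z) = z^d (1 + θ)`, `‖θ‖ ≤ C/‖z‖ < 1`; the same for `g`. This gives `‖x_i‖ = ‖x‖^(d^i)`. Suppose `W_i < 1`: then `‖y_i‖^N1 = ‖x_i‖^N2` (`‖κ‖ = 1`), so `‖y_i‖^N1 ≥ ‖x_i‖`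
 is large too (if `R` is large). Put `ζ_i = y_i^N1/x_i^N2`, `κ_i = κ^(d^i)`, `w_i = ζ_i/κ_i - 1`, so `W_i = ‖w_i‖`. Then
 `ζ_{i+1} = ζ_i^d η_i` with `η_i = (1+θ_g)^N1/(1+θ_f)^N2`, `E_i := ‖η_i - 1‖ ≤ C' max(1/‖x_i‖, 1/‖y_i‖)`; with `M = 2 N1` and `R` large `E_i^M ‖x_i‖ ≤ 1` and `E_i < 1`
 (`‖y_i‖^M = ‖x_i‖^(2 N2) ≥ ‖x_i‖^2`). Now `1 + w_{i+1} = (1+w_i)^d η_i` (`κ_{i+1} = κ_i^d`), and `(1+w_i)^d = (1 + w_i^(p^s))^(d')` (characteristic `p`),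
 `‖(1 + w_i^(p^s))^(d') - 1‖ = ‖w_i‖^(p^s)` because `‖w_i‖ < 1` and `d'` is prime to `p` (norm of `d'` is 1: a nonzero element of the prime field). So
 `W_{i+1} ≤ max(W_i^(p^s), E_i) < 1`, with equality `W_{i+1} = W_i^(p^s)` if `W_i^(p^s) > E_i`. If `1 < W_i^(p^s M) ‖x_i‖` then `(W_i^(p^s))^M > 1/‖x_i‖ ≥ E_i^M`, so
 `W_i^(p^s) > E_i`. If `W_i^(p^s M) ‖x_i‖ ≤ 1` then `W_{i+1}^M ‖x_i‖ ≤ max(W_i^(p^s M), E_i^M) ‖x_i‖ ≤ 1`.
-/

set_option autoImplicit false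

namespace Pool.Agent.Helper581_DML.Wild

open Polynomial


section Aux

variable {L : Type*} [NontriviallyNormedField L] [IsUltrametricDist L]

theorem W1_bound (f : L[X]) (hf : f.Monic) (d : ℕ) (hd : 1 ≤ d) (hfd : f.natDegree = d) :
    ∃ C : ℝ, 1 ≤ C ∧ ∀ z : L, 1 ≤ ‖z‖ → ‖f.eval z - z ^ d‖ ≤ C * ‖z‖ ^ (d - 1) := by
  refine ⟨1 + ∑ i ∈ Finset.range d, ‖f.coeff i‖, ?_, ?_⟩
  · have : 0 ≤ ∑ i ∈ Finset.range d, ‖f.coeff i‖ := Finset.sum_nonneg fun i _ => norm_nonneg _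
    linarith
  · intro z hz
    have h1 : f.eval z - z ^ d = ∑ i ∈ Finset.range d, f.coeff i * z ^ i := by
      rw [eval_eq_sum_range, hfd, Finset.sum_range_succ]
      have : f.coeff d = 1 := by rw [← hfd]; exact hf
      rw [this]
      ring
    rw [h1]
    have hnn : 0 ≤ (1 + ∑ i ∈ Finset.range d, ‖f.coeff i‖) * ‖z‖ ^ (d - 1) := by
      have : 0 ≤ ∑ i ∈ Finset.range d, ‖f.coeff i‖ := Finset.sum_nonneg fun i _ => norm_nonneg _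
      positivity
    apply IsUltrametricDist.norm_sum_le_of_forall_le_of_nonneg hnn
    intro i hi
    rw [norm_mul, norm_pow]
    have h2 : ‖f.coeff i‖ ≤ 1 + ∑ i ∈ Finset.range d, ‖f.coeff i‖ := by
      have := Finset.single_le_sum (f := fun i => ‖f.coeff i‖) (fun j _ => norm_nonneg _) hi
      linarith
    have h3 : ‖z‖ ^ i ≤ ‖z‖ ^ (d - 1) :=
      pow_le_pow_right₀ hz (by have := Finset.mem_range.1 hi; omega)
    exact mul_le_mul h2 h3 (by positivity) (by linarith [norm_nonneg (f.coeff i)])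

theorem W1_eq_of_sub_lt {x y : L} (h : ‖x - y‖ < ‖y‖) : ‖x‖ = ‖y‖ := by
  by_contra hne
  have h1 : ‖x‖ ≠ ‖-y‖ := by rwa [norm_neg]
  have h2 := IsUltrametricDist.norm_add_eq_max_of_norm_ne_norm h1
  rw [← sub_eq_add_neg, norm_neg] at h2
  rw [h2] at h
  exact absurd (le_max_right ‖x‖ ‖y‖) (not_le.2 h)

theorem W1_one_add {x : L} (h : ‖x‖ < 1) : ‖1 + x‖ = 1 := by
  have := W1_eq_of_sub_lt (x := 1 + x) (y := (1 : L)) (by simpa using h)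
  simpa using this

theorem W1_pow {x : L} (h : ‖x‖ < 1) (n : ℕ) : ‖(1 + x) ^ n - 1‖ ≤ ‖x‖ := by
  induction n with
  | zero => simp
  | succ n ih =>
    have e : (1 + x) ^ (n + 1) - 1 = ((1 + x) ^ n - 1) * (1 + x) + x := by ring
    rw [e]
    refine (IsUltrametricDist.norm_add_le_max _ _).trans (max_le ?_ le_rfl)
    rw [norm_mul, W1_one_add h, mul_one]
    exact ih

theorem W1_natnorm {p : ℕ} [Fact p.Prime] [CharP L p] (n : ℕ) (hn : ¬ p ∣ n) :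
    ‖(n : L)‖ = 1 := by
  have hp : p.Prime := Fact.out
  have hc : Nat.Coprime n p := ((Nat.Prime.coprime_iff_not_dvd hp).2 hn).symm
  obtain ⟨m, -, hm⟩ := Nat.exists_mul_mod_eq_one_of_coprime hc hp.one_lt
  have h1 : (n : L) * (m : L) = 1 := by
    rw [← Nat.cast_mul, CharP.cast_eq_mod L p (n * m), hm, Nat.cast_one]
  have h2 : ‖(n : L)‖ * ‖(m : L)‖ = 1 := by rw [← norm_mul, h1, norm_one]
  have h3 : ‖(n : L)‖ ≤ 1 := IsUltrametricDist.norm_natCast_le_one L n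
  have h4 : ‖(m : L)‖ ≤ 1 := IsUltrametricDist.norm_natCast_le_one L m
  have h5 : 0 ≤ ‖(n : L)‖ := norm_nonneg _
  nlinarith

theorem W1_pow_eq {p : ℕ} [Fact p.Prime] [CharP L p] {x : L} (h : ‖x‖ < 1) (n : ℕ)
    (hn : ¬ p ∣ n) : ‖(1 + x) ^ n - 1‖ = ‖x‖ := by
  have e : (1 + x) ^ n - 1 = x * ∑ i ∈ Finset.range n, (1 + x) ^ i := by
    have := mul_geom_sum (1 + x) n
    rw [← this]
    ring
  have h1 : ‖∑ i ∈ Finset.range n, (1 + x) ^ i‖ = 1 := by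
    rw [← W1_natnorm (L := L) n hn]
    apply W1_eq_of_sub_lt
    rw [W1_natnorm (L := L) n hn]
    have e2 : ∑ i ∈ Finset.range n, (1 + x) ^ i - (n : L) =
        ∑ i ∈ Finset.range n, ((1 + x) ^ i - 1) := by
      rw [Finset.sum_sub_distrib]
      simp
    rw [e2]
    refine lt_of_le_of_lt ?_ h
    exact IsUltrametricDist.norm_sum_le_of_forall_le_of_nonneg (norm_nonneg _)
      fun i _ => W1_pow h i
  rw [e, norm_mul, h1, mul_one]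

theorem W1_step {p : ℕ} [Fact p.Prime] [CharP L p] (d s d' : ℕ) (hd : d = p ^ s * d')
    (hpd' : ¬ p ∣ d') (N1 N2 : ℕ) (a b k θ φ : L) (ε : ℝ) (ha : a ≠ 0) (hk : ‖k‖ = 1)
    (hε : ε < 1) (hθ : ‖θ‖ ≤ ε) (hφ : ‖φ‖ ≤ ε)
    (hW : ‖b ^ N1 - k * a ^ N2‖ / ‖a‖ ^ N2 < 1) :
    ‖(b ^ d * (1 + φ)) ^ N1 - k ^ d * (a ^ d * (1 + θ)) ^ N2‖ / ‖a ^ d * (1 + θ)‖ ^ N2 ≤
      max ((‖b ^ N1 - k * a ^ N2‖ / ‖a‖ ^ N2) ^ p ^ s) ε ∧
    (ε < (‖b ^ N1 - k * a ^ N2‖ / ‖a‖ ^ N2) ^ p ^ s →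
      ‖(b ^ d * (1 + φ)) ^ N1 - k ^ d * (a ^ d * (1 + θ)) ^ N2‖ / ‖a ^ d * (1 + θ)‖ ^ N2 =
        (‖b ^ N1 - k * a ^ N2‖ / ‖a‖ ^ N2) ^ p ^ s) := by
  have hk0 : k ≠ 0 := by
    intro h
    rw [h, norm_zero] at hk
    exact zero_ne_one hk
  set u : L := k * a ^ N2 with hu
  have hu0 : u ≠ 0 := mul_ne_zero hk0 (pow_ne_zero _ ha)
  have hun : ‖u‖ = ‖a‖ ^ N2 := by rw [hu, norm_mul, hk, one_mul, norm_pow]
  set w : L := b ^ N1 / u - 1 with hw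
  have hb : b ^ N1 = u * (1 + w) := by
    rw [hw]
    field_simp
    ring
  have hWw : ‖b ^ N1 - u‖ / ‖a‖ ^ N2 = ‖w‖ := by
    rw [← hun, ← norm_div]
    congr 1
    rw [hw]
    field_simp
  rw [hWw] at hW ⊢
  have hθ1 : ‖θ‖ < 1 := lt_of_le_of_lt hθ hε
  have hφ1 : ‖φ‖ < 1 := lt_of_le_of_lt hφ hε
  have hun0 : 0 < ‖u‖ ^ d := by
    have := norm_pos_iff.2 hu0
    positivity
  -- rewrite the new quantity
  have key : ‖(b ^ d * (1 + φ)) ^ N1 - k ^ d * (a ^ d * (1 + θ)) ^ N2‖ /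
      ‖a ^ d * (1 + θ)‖ ^ N2 = ‖(1 + w) ^ d * (1 + φ) ^ N1 - (1 + θ) ^ N2‖ := by
    have e1 : (b ^ d * (1 + φ)) ^ N1 = u ^ d * ((1 + w) ^ d * (1 + φ) ^ N1) := by
      rw [mul_pow, ← pow_mul, mul_comm d N1, pow_mul, hb, mul_pow]
      ring
    have e2 : k ^ d * (a ^ d * (1 + θ)) ^ N2 = u ^ d * (1 + θ) ^ N2 := by
      rw [hu, mul_pow, mul_pow k, ← pow_mul, ← pow_mul, mul_comm d N2]
      ring
    have e3 : ‖a ^ d * (1 + θ)‖ ^ N2 = ‖u‖ ^ d := by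
      rw [norm_mul, W1_one_add hθ1, mul_one, norm_pow, hun, ← pow_mul, ← pow_mul, mul_comm]
    rw [e1, e2, e3, ← mul_sub, norm_mul, norm_pow]
    field_simp
  rw [key]
  set P : L := (1 + w) ^ d - 1 with hP
  set Q : L := (1 + φ) ^ N1 - 1 with hQ
  set S : L := (1 + θ) ^ N2 - 1 with hS
  have hPn : ‖P‖ = ‖w‖ ^ p ^ s := by
    have e : (1 + w) ^ d = (1 + w ^ p ^ s) ^ d' := by
      rw [hd, pow_mul, add_pow_char_pow, one_pow]
    have h1 : ‖w ^ p ^ s‖ < 1 := by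
      rw [norm_pow]
      exact pow_lt_one₀ (norm_nonneg _) hW (pow_pos (Fact.out : p.Prime).pos s).ne'
    rw [hP, e, W1_pow_eq h1 d' hpd', norm_pow]
  have hQn : ‖Q‖ ≤ ε := (W1_pow hφ1 N1).trans hφ
  have hSn : ‖S‖ ≤ ε := (W1_pow hθ1 N2).trans hθ
  have hQ1 : ‖1 + Q‖ = 1 := W1_one_add (lt_of_le_of_lt hQn hε)
  have hQS : ‖Q - S‖ ≤ ε := by
    rw [sub_eq_add_neg]
    refine (IsUltrametricDist.norm_add_le_max _ _).trans (max_le hQn ?_)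
    rwa [norm_neg]
  have e4 : (1 + w) ^ d * (1 + φ) ^ N1 - (1 + θ) ^ N2 = P * (1 + Q) + (Q - S) := by
    rw [hP, hQ, hS]
    ring
  have hPQ : ‖P * (1 + Q)‖ = ‖w‖ ^ p ^ s := by rw [norm_mul, hQ1, mul_one, hPn]
  rw [e4]
  constructor
  · refine (IsUltrametricDist.norm_add_le_max _ _).trans ?_
    rw [hPQ]
    exact max_le_max le_rfl hQS
  · intro hlt
    have hne : ‖P * (1 + Q)‖ ≠ ‖Q - S‖ := by
      rw [hPQ]
      exact (lt_of_le_of_lt hQS hlt).ne'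
    rw [IsUltrametricDist.norm_add_eq_max_of_norm_ne_norm hne, hPQ]
    exact max_eq_left (hQS.trans hlt.le)

end Aux

theorem dich {p : ℕ} [Fact p.Prime] {L : Type*} [NontriviallyNormedField L] [IsUltrametricDist L]
    [CharP L p] (f g : L[X]) (hf : f.Monic) (hg : g.Monic) (d s d' : ℕ) (hd : d = p ^ s * d')
    (hd' : 2 ≤ d') (hpd' : ¬ p ∣ d') (hfd : f.natDegree = d) (hgd : g.natDegree = d) (N1 N2 : ℕ)
    (hN1 : 0 < N1) (hN2 : 0 < N2) :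
    ∃ (R : ℝ) (M : ℕ), 1 ≤ R ∧ 0 < M ∧ ∀ κ x y : L, ‖κ‖ = 1 → R < ‖x‖ → ∀ i : ℕ,
      ‖(fun z => f.eval z)^[i] x‖ = ‖x‖ ^ d ^ i ∧
      (Wn f g d N1 N2 κ x y i < 1 →
        Wn f g d N1 N2 κ x y (i + 1) < 1 ∧
        (1 < Wn f g d N1 N2 κ x y i ^ (p ^ s * M) * ‖x‖ ^ d ^ i →
          Wn f g d N1 N2 κ x y (i + 1) = Wn f g d N1 N2 κ x y i ^ p ^ s) ∧
        (Wn f g d N1 N2 κ x y i ^ (p ^ s * M) * ‖x‖ ^ d ^ i ≤ 1 →
          Wn f g d N1 N2 κ x y (i + 1) ^ M * ‖x‖ ^ d ^ i ≤ 1)) := by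
  have hps : 0 < p ^ s := pow_pos (Fact.out : p.Prime).pos s
  have hd1 : 1 ≤ d := by rw [hd]; exact Nat.succ_le_of_lt (Nat.mul_pos hps (by omega))
  obtain ⟨C1, hC1, hf1⟩ := W1_bound f hf d hd1 hfd
  obtain ⟨C2, hC2, hg1⟩ := W1_bound g hg d hd1 hgd
  set C : ℝ := max C1 C2 with hC
  have hC1' : 1 ≤ C := hC1.trans (le_max_left _ _)
  have hC0 : 0 < C := by linarith
  have hcl : ∀ (h : L[X]) (C' : ℝ), C' ≤ C →
      (∀ z : L, 1 ≤ ‖z‖ → ‖h.eval z - z ^ d‖ ≤ C' * ‖z‖ ^ (d - 1)) →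
      ∀ z : L, C < ‖z‖ → ∃ θ : L, h.eval z = z ^ d * (1 + θ) ∧ ‖θ‖ ≤ C / ‖z‖ := by
    intro h C' hC' hh z hz
    have hz0 : 0 < ‖z‖ := by linarith
    have hz0' : z ≠ 0 := norm_pos_iff.1 hz0
    have hzd : z ^ d ≠ 0 := pow_ne_zero _ hz0'
    refine ⟨(h.eval z - z ^ d) / z ^ d, ?_, ?_⟩
    · field_simp
      ring
    · rw [norm_div, norm_pow]
      have h1 := hh z (by linarith)
      have h2 : ‖z‖ ^ d = ‖z‖ ^ (d - 1) * ‖z‖ := by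
        rw [← pow_succ]
        congr 1
        omega
      rw [h2]
      have h3 : 0 < ‖z‖ ^ (d - 1) := by positivity
      rw [div_le_div_iff₀ (by positivity) hz0]
      calc ‖eval z h - z ^ d‖ * ‖z‖ ≤ (C' * ‖z‖ ^ (d - 1)) * ‖z‖ :=
            mul_le_mul_of_nonneg_right h1 hz0.le
        _ ≤ (C * ‖z‖ ^ (d - 1)) * ‖z‖ := by
            apply mul_le_mul_of_nonneg_right _ hz0.le
            exact mul_le_mul_of_nonneg_right hC' h3.le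
        _ = C * (‖z‖ ^ (d - 1) * ‖z‖) := by ring
  have hfc := hcl f C1 (le_max_left _ _) hf1
  have hgc := hcl g C2 (le_max_right _ _) hg1
  refine ⟨C ^ (2 * N1), 2 * N1, one_le_pow₀ hC1', by omega, ?_⟩
  intro κ x y hκ hx i
  have hRC : C ≤ C ^ (2 * N1) := by
    calc C = C ^ 1 := (pow_one C).symm
      _ ≤ C ^ (2 * N1) := pow_le_pow_right₀ hC1' (by omega)
  have hRN : C ^ N1 ≤ C ^ (2 * N1) := pow_le_pow_right₀ hC1' (by omega)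
  have hxC : C < ‖x‖ := lt_of_le_of_lt hRC hx
  have hx1 : 1 ≤ ‖x‖ := by linarith
  have hpow : ∀ j : ℕ, ‖x‖ ≤ ‖x‖ ^ d ^ j := by
    intro j
    calc ‖x‖ = ‖x‖ ^ 1 := (pow_one _).symm
      _ ≤ ‖x‖ ^ d ^ j := pow_le_pow_right₀ hx1 (Nat.one_le_pow _ _ (by omega))
  have hnorm : ∀ j : ℕ, ‖(fun z => f.eval z)^[j] x‖ = ‖x‖ ^ d ^ j := by
    intro j
    induction j with
    | zero => simp
    | succ j ih =>
      rw [Function.iterate_succ_apply']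
      obtain ⟨θ, h1, h2⟩ := hfc ((fun z => f.eval z)^[j] x) (by
        rw [ih]
        exact lt_of_lt_of_le hxC (hpow j))
      have h3 : ‖θ‖ < 1 := by
        refine lt_of_le_of_lt h2 ?_
        rw [ih, div_lt_one (by linarith [hpow j])]
        exact lt_of_lt_of_le hxC (hpow j)
      simp only [h1]
      rw [norm_mul, W1_one_add h3, mul_one, norm_pow, ih, ← pow_mul, pow_succ]
  refine ⟨hnorm i, ?_⟩
  intro hW
  set a : L := (fun z => f.eval z)^[i] x with ha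
  set b : L := (fun z => g.eval z)^[i] y with hb
  have hA : ‖a‖ = ‖x‖ ^ d ^ i := hnorm i
  have haR : C ^ (2 * N1) < ‖a‖ := by rw [hA]; exact lt_of_lt_of_le hx (hpow i)
  have haC : C < ‖a‖ := lt_of_le_of_lt hRC haR
  have ha1 : 1 < ‖a‖ := by linarith
  have ha0 : a ≠ 0 := norm_pos_iff.1 (by linarith)
  have hk : ‖κ ^ d ^ i‖ = 1 := by rw [norm_pow, hκ, one_pow]
  have hWi : Wn f g d N1 N2 κ x y i = ‖b ^ N1 - κ ^ d ^ i * a ^ N2‖ / ‖a‖ ^ N2 := rfl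
  -- the norm of `b`
  have hbN : ‖b‖ ^ N1 = ‖a‖ ^ N2 := by
    have h1 : ‖b ^ N1 - κ ^ d ^ i * a ^ N2‖ < ‖κ ^ d ^ i * a ^ N2‖ := by
      rw [hWi, div_lt_one (by positivity)] at hW
      rwa [norm_mul, hk, one_mul, norm_pow]
    have h2 := W1_eq_of_sub_lt h1
    rwa [norm_mul, hk, one_mul, norm_pow, norm_pow] at h2
  have haN : ‖a‖ ≤ ‖a‖ ^ N2 := by
    calc ‖a‖ = ‖a‖ ^ 1 := (pow_one _).symm
      _ ≤ ‖a‖ ^ N2 := pow_le_pow_right₀ ha1.le (by omega)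
  have hbC : C < ‖b‖ := by
    by_contra hcon
    push Not at hcon
    have h1 : ‖b‖ ^ N1 ≤ C ^ N1 := pow_le_pow_left₀ (norm_nonneg _) hcon N1
    rw [hbN] at h1
    linarith
  obtain ⟨θ, hθ, hθn⟩ := hfc a haC
  obtain ⟨φ, hφ, hφn⟩ := hgc b hbC
  set ε : ℝ := max (C / ‖a‖) (C / ‖b‖) with hε
  have hb0 : 0 < ‖b‖ := by linarith
  have hε1 : ε < 1 := by
    apply max_lt
    · rw [div_lt_one (by linarith)]; exact haC
    · rw [div_lt_one hb0]; exact hbC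
  have hε0 : 0 ≤ ε := le_trans (by positivity) (le_max_left _ _)
  have hεM : ε ^ (2 * N1) * ‖a‖ ≤ 1 := by
    have h1 : (C / ‖a‖) ^ (2 * N1) * ‖a‖ ≤ 1 := by
      rw [div_pow, div_mul_eq_mul_div, div_le_one (by positivity)]
      have h2 : ‖a‖ ^ 2 ≤ ‖a‖ ^ (2 * N1) := pow_le_pow_right₀ ha1.le (by omega)
      nlinarith
    have h2 : (C / ‖b‖) ^ (2 * N1) * ‖a‖ ≤ 1 := by
      rw [div_pow, div_mul_eq_mul_div, div_le_one (by positivity)]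
      have h3 : ‖b‖ ^ (2 * N1) = (‖a‖ ^ N2) ^ 2 := by rw [mul_comm 2 N1, pow_mul, hbN]
      rw [h3]
      nlinarith
    rcases le_total (C / ‖a‖) (C / ‖b‖) with h | h
    · rw [hε, max_eq_right h]; exact h2
    · rw [hε, max_eq_left h]; exact h1
  have hWs : Wn f g d N1 N2 κ x y (i + 1) =
      ‖(b ^ d * (1 + φ)) ^ N1 - (κ ^ d ^ i) ^ d * (a ^ d * (1 + θ)) ^ N2‖ /
        ‖a ^ d * (1 + θ)‖ ^ N2 := by
    unfold Wn
    rw [Function.iterate_succ_apply', Function.iterate_succ_apply', ← ha, ← hb]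
    simp only [hθ, hφ]
    rw [pow_succ, pow_mul]
  obtain ⟨hs1, hs2⟩ := W1_step (p := p) d s d' hd hpd' N1 N2 a b (κ ^ d ^ i) θ φ ε ha0 hk hε1
    (hθn.trans (le_max_left _ _)) (hφn.trans (le_max_right _ _)) hW
  rw [← hWs, ← hWi] at hs1 hs2
  have hW0 : 0 ≤ Wn f g d N1 N2 κ x y i := by rw [hWi]; positivity
  have hW1 : 0 ≤ Wn f g d N1 N2 κ x y (i + 1) := by unfold Wn; positivity
  refine ⟨?_, ?_, ?_⟩
  · refine lt_of_le_of_lt hs1 (max_lt ?_ hε1)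
    exact pow_lt_one₀ hW0 hW hps.ne'
  · intro h1
    apply hs2
    by_contra hcon
    push Not at hcon
    have h2 : (Wn f g d N1 N2 κ x y i ^ p ^ s) ^ (2 * N1) ≤ ε ^ (2 * N1) :=
      pow_le_pow_left₀ (by positivity) hcon _
    rw [← pow_mul] at h2
    have h3 : Wn f g d N1 N2 κ x y i ^ (p ^ s * (2 * N1)) * ‖a‖ ≤ ε ^ (2 * N1) * ‖a‖ :=
      mul_le_mul_of_nonneg_right h2 (by linarith)
    rw [← hA] at h1
    linarith
  · intro h1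
    rw [← hA] at h1 ⊢
    have h2 : Wn f g d N1 N2 κ x y (i + 1) ^ (2 * N1) ≤
        (max (Wn f g d N1 N2 κ x y i ^ p ^ s) ε) ^ (2 * N1) :=
      pow_le_pow_left₀ hW1 hs1 _
    have h3 := mul_le_mul_of_nonneg_right h2 (norm_nonneg a)
    refine h3.trans ?_
    rcases le_total (Wn f g d N1 N2 κ x y i ^ p ^ s) ε with h | h
    · rw [max_eq_right h]; exact hεM
    · rw [max_eq_left h, ← pow_mul]; exact h1

end Pool.Agent.Helper581_DML.Wild
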