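import Mathlib
import Pool.Agent.Helper581_DML.WDefs

/-!
Part W10a of the proof (helper581, MP_6ac234_nt): `edge`.

PLAIN PROOF. Let `w(a,b) = a N1 + b N2` for the monomial `X^a Y^b` (`X` the inner variable, for `x`; `Y` the outer one, for `y`), `E` the largest weight of a monomial of `h` with nonzero coefficient `c_ab = (h.coeff b).coeff a`. If `‖y‖^N1 = ‖x‖^N2`, `‖x‖ = μ^N1`, `‖y‖ = μ^N2`
 with `μ = ‖x‖^(1/N1) > 1` (real root), so `‖x^a y^b‖ = μ^(w(a,b))`. `h(x,y) = 0` gives: the sum over the monomials of weight `E` has norm `≤ C μ^(E-1)`. Let `g = gcd(N1,N2)`, `n1 = N1/g`, `n2 = N2/g`. The monomials of weight `E`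
 are of the form `(a0 - j n2, b0 + j n1)`, `j ≥ 0`, where `(a0,b0)` is the one with the least `b`; so the sum is `x^a0 y^b0 q(ζ)`, `ζ = y^n1/x^n2`, `‖ζ‖ = 1`, `q = ∑ c_j Z^j ∈ L[Z]`, `q ≠ 0` (`q(0) ≠ 0`). So `‖q(ζ)‖ ≤ C/μ`. `q = c ∏ (Z - κ_i)`: if `R` is large,
 `‖q(ζ)‖ < ‖c‖` and so `‖ζ - κ_i‖ < 1` for some `i` (in particular `q` is not constant), hence `‖κ_i‖ = 1` and `‖ζ^g - κ_i^g‖ < 1`, `ζ^g = y^N1/x^N2`. Let `Z` be the set of the `κ_i^g` with `‖κ_i‖ = 1`.
-/

set_option autoImplicit false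

namespace Pool.Agent.Helper581_DML.Wild

open Polynomial Filter
open scoped Polynomial.Bivariate

/-- the polynomial `h(S^N1, ζ S^N2)`, outer variable `S`, inner variable `ζ` -/
noncomputable def edge_P {L : Type*} [Field L] (h : L[X][Y]) (N1 N2 : ℕ) : L[X][Y] :=
  ∑ b ∈ h.support, ∑ a ∈ (h.coeff b).support, monomial (a * N1 + b * N2) (monomial b ((h.coeff b).coeff a))

theorem edge_P_ne {L : Type*} [Field L] (h : L[X][Y]) (hh : h ≠ 0) (N1 N2 : ℕ) (hN1 : 0 < N1) :
    edge_P h N1 N2 ≠ 0 := by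
  classical
  obtain ⟨b0, hb0⟩ : ∃ b, h.coeff b ≠ 0 := by
    by_contra hcon
    push Not at hcon
    exact hh (Polynomial.ext (by simpa using hcon))
  obtain ⟨a0, ha0⟩ : ∃ a, (h.coeff b0).coeff a ≠ 0 := by
    by_contra hcon
    push Not at hcon
    exact hb0 (Polynomial.ext (by simpa using hcon))
  intro h0
  have h1 : ((edge_P h N1 N2).coeff (a0 * N1 + b0 * N2)).coeff b0 = (h.coeff b0).coeff a0 := by
    unfold edge_P
    simp only [finsetSum_coeff, coeff_monomial]
    rw [Finset.sum_eq_single b0]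
    · rw [Finset.sum_eq_single a0]
      · simp
      · intro a _ hne
        rw [if_neg]
        · simp
        · intro he
          apply hne
          have : a * N1 = a0 * N1 := by omega
          exact Nat.eq_of_mul_eq_mul_right hN1 this
      · intro hn
        simp [notMem_support_iff.mp hn]
    · intro b _ hne
      apply Finset.sum_eq_zero
      intro a _
      split_ifs
      · rw [coeff_monomial, if_neg hne]
      · simp
    · intro hn
      exact absurd (notMem_support_iff.mp hn) hb0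
  rw [h0] at h1
  simp only [coeff_zero] at h1
  exact ha0 h1.symm

theorem edge_P_eval {L : Type*} [Field L] (h : L[X][Y]) (N1 N2 : ℕ) (s t : L) :
    evalEval t s (edge_P h N1 N2) = evalEval (s ^ N1) (t * s ^ N2) h := by
  classical
  have h1 : evalEval t s (edge_P h N1 N2) =
      ∑ b ∈ h.support, ∑ a ∈ (h.coeff b).support, (h.coeff b).coeff a * t ^ b * s ^ (a * N1 + b * N2) := by
    unfold edge_P evalEval
    simp only [eval_finsetSum, eval_monomial, eval_mul, eval_pow, eval_C]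
  rw [h1]
  unfold evalEval
  rw [eval_eq_sum (p := h), Polynomial.sum, eval_finsetSum]
  apply Finset.sum_congr rfl
  intro b _
  simp only [eval_mul, eval_pow, eval_C]
  rw [eval_eq_sum, Polynomial.sum, Finset.sum_mul]
  apply Finset.sum_congr rfl
  intro a _
  rw [pow_add, pow_mul', pow_mul', mul_pow]
  ring

theorem edge_eval_le {L : Type*} [NormedField L] (q : L[X]) (t : L) (ht : ‖t‖ = 1) :
    ‖eval t q‖ ≤ ∑ i ∈ q.support, ‖q.coeff i‖ := by
  rw [eval_eq_sum, Polynomial.sum]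
  refine (norm_sum_le _ _).trans (Finset.sum_le_sum ?_)
  intro i _
  rw [norm_mul, norm_pow, ht, one_pow, mul_one]

theorem edge_top {L : Type*} [NormedField L] (P : L[X][Y]) :
    ∃ C : ℝ, 0 ≤ C ∧ ∀ s t : L, 1 ≤ ‖s‖ → ‖t‖ = 1 → evalEval t s P = 0 →
      ‖eval t P.leadingCoeff‖ * ‖s‖ ≤ C := by
  classical
  refine ⟨∑ e ∈ Finset.range P.natDegree, ∑ i ∈ (P.coeff e).support, ‖(P.coeff e).coeff i‖, by positivity, ?_⟩
  intro s t hs ht h0
  have hs0 : (0 : ℝ) < ‖s‖ := lt_of_lt_of_le one_pos hs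
  have h1 : evalEval t s P = ∑ e ∈ Finset.range P.natDegree, eval t (P.coeff e) * s ^ e +
      eval t P.leadingCoeff * s ^ P.natDegree := by
    unfold evalEval
    rw [eval_eq_sum_range (p := P), Finset.sum_range_succ, eval_add, eval_finsetSum]
    simp only [eval_mul, eval_pow, eval_C, coeff_natDegree]
  rw [h1] at h0
  have h2 : eval t P.leadingCoeff * s ^ P.natDegree = -∑ e ∈ Finset.range P.natDegree, eval t (P.coeff e) * s ^ e := by
    linear_combination h0
  have h3 : ‖eval t P.leadingCoeff‖ * ‖s‖ ^ P.natDegree ≤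
      ∑ e ∈ Finset.range P.natDegree, (∑ i ∈ (P.coeff e).support, ‖(P.coeff e).coeff i‖) * ‖s‖ ^ e := by
    rw [← norm_pow, ← norm_mul, h2, norm_neg]
    refine (norm_sum_le _ _).trans (Finset.sum_le_sum ?_)
    intro e _
    rw [norm_mul, norm_pow]
    exact mul_le_mul_of_nonneg_right (edge_eval_le _ _ ht) (by positivity)
  rcases Nat.eq_zero_or_pos P.natDegree with hd | hd
  · rw [hd] at h3 ⊢
    simp only [pow_zero, mul_one, Finset.range_zero, Finset.sum_empty] at h3 ⊢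
    have : ‖eval t P.leadingCoeff‖ = 0 := le_antisymm h3 (norm_nonneg _)
    rw [this, zero_mul]
  · obtain ⟨m, hm⟩ : ∃ m, P.natDegree = m + 1 := ⟨P.natDegree - 1, by omega⟩
    have h4 : ∑ e ∈ Finset.range P.natDegree, (∑ i ∈ (P.coeff e).support, ‖(P.coeff e).coeff i‖) * ‖s‖ ^ e ≤
        (∑ e ∈ Finset.range P.natDegree, ∑ i ∈ (P.coeff e).support, ‖(P.coeff e).coeff i‖) * ‖s‖ ^ m := by
      rw [Finset.sum_mul]
      apply Finset.sum_le_sum
      intro e he
      apply mul_le_mul_of_nonneg_left _ (by positivity)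
      apply pow_le_pow_right₀ hs
      rw [Finset.mem_range] at he
      omega
    have h5 := h3.trans h4
    have h6 : ‖s‖ ^ P.natDegree = ‖s‖ * ‖s‖ ^ m := by rw [hm, pow_succ]; ring
    rw [h6, ← mul_assoc] at h5
    exact le_of_mul_le_mul_right h5 (by positivity)

theorem edge_pow_sub {L : Type*} [NormedField L] [IsUltrametricDist L] (u v : L) (hu : ‖u‖ = 1) (hv : ‖v‖ = 1)
    (n : ℕ) : ‖u ^ n - v ^ n‖ ≤ ‖u - v‖ := by
  induction n with
  | zero => simp
  | succ n ih =>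
    have h1 : u ^ (n + 1) - v ^ (n + 1) = u ^ n * (u - v) + (u ^ n - v ^ n) * v := by ring
    rw [h1]
    refine (IsUltrametricDist.norm_add_le_max _ _).trans ?_
    rw [norm_mul, norm_mul, norm_pow, hu, hv, one_pow, one_mul, mul_one]
    exact max_le le_rfl ih

theorem edge_prod {L : Type*} [NormedField L] (S : Multiset L) (t : L)
    (h : ‖(S.map fun k => t - k).prod‖ < 1) : ∃ k ∈ S, ‖t - k‖ < 1 := by
  induction S using Multiset.induction_on with
  | empty => simp at h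
  | cons a S ih =>
    by_cases ha : ‖t - a‖ < 1
    · exact ⟨a, Multiset.mem_cons_self _ _, ha⟩
    · push Not at ha
      rw [Multiset.map_cons, Multiset.prod_cons, norm_mul] at h
      have h1 : ‖(S.map fun k => t - k).prod‖ < 1 := by
        have h2 : ‖(S.map fun k => t - k).prod‖ ≤ ‖t - a‖ * ‖(S.map fun k => t - k).prod‖ :=
          le_mul_of_one_le_left (norm_nonneg _) ha
        linarith
      obtain ⟨k, hk, hk1⟩ := ih h1
      exact ⟨k, Multiset.mem_cons_of_mem hk, hk1⟩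

theorem edge {L : Type*} [NontriviallyNormedField L] [IsUltrametricDist L] [IsAlgClosed L]
    (h : L[X][Y]) (hh : h ≠ 0) (N1 N2 : ℕ) (hN1 : 0 < N1) (hN2 : 0 < N2) :
    ∃ (R : ℝ) (Z : Finset L), (∀ z ∈ Z, ‖z‖ = 1) ∧ ∀ x y : L, R < ‖x‖ → ‖y‖ ^ N1 = ‖x‖ ^ N2 →
      evalEval x y h = 0 → ∃ z ∈ Z, ‖y ^ N1 - z * x ^ N2‖ < ‖x‖ ^ N2 := by
  classical
  have hP := edge_P_ne h hh N1 N2 hN1
  set P := edge_P h N1 N2 with hPdef
  have hq : P.leadingCoeff ≠ 0 := leadingCoeff_ne_zero.mpr hP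
  set q := P.leadingCoeff with hqdef
  have hc : q.leadingCoeff ≠ 0 := leadingCoeff_ne_zero.mpr hq
  have hcn : 0 < ‖q.leadingCoeff‖ := norm_pos_iff.mpr hc
  obtain ⟨C, hC0, hC⟩ := edge_top P
  refine ⟨(max 1 (C / ‖q.leadingCoeff‖)) ^ N1, (q.roots.toFinset.filter (fun k => ‖k‖ = 1)).image (fun k => k ^ N1),
    ?_, ?_⟩
  · intro z hz
    rw [Finset.mem_image] at hz
    obtain ⟨k, hk, rfl⟩ := hz
    rw [Finset.mem_filter] at hk
    rw [norm_pow, hk.2, one_pow]
  · intro x y hx hxy h0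
    obtain ⟨s, hs⟩ := IsAlgClosed.exists_pow_nat_eq x hN1
    have hsx : ‖x‖ = ‖s‖ ^ N1 := by rw [← hs, norm_pow]
    rw [hsx] at hx
    have hs1 : max 1 (C / ‖q.leadingCoeff‖) < ‖s‖ := lt_of_pow_lt_pow_left₀ N1 (norm_nonneg _) hx
    have hs2 : 1 < ‖s‖ := lt_of_le_of_lt (le_max_left _ _) hs1
    have hs3 : C / ‖q.leadingCoeff‖ < ‖s‖ := lt_of_le_of_lt (le_max_right _ _) hs1
    have hs0 : s ≠ 0 := by
      intro h
      rw [h, norm_zero] at hs2
      linarith
    have hsp : (0 : ℝ) < ‖s‖ := by linarith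
    have hy : ‖y‖ = ‖s‖ ^ N2 := by
      rw [hsx, ← pow_mul, mul_comm N1 N2, pow_mul] at hxy
      exact (pow_left_inj₀ (norm_nonneg _) (by positivity) hN1.ne').mp hxy
    set t := y / s ^ N2 with ht
    have ht1 : ‖t‖ = 1 := by
      rw [ht, norm_div, norm_pow, hy, div_self]
      positivity
    have hty : t * s ^ N2 = y := by
      rw [ht, div_mul_cancel₀]
      exact pow_ne_zero _ hs0
    have h1 : evalEval t s P = 0 := by
      rw [hPdef, edge_P_eval, hs, hty, h0]
    have h2 := hC s t hs2.le ht1 h1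
    have h3 : ‖eval t q‖ < ‖q.leadingCoeff‖ := by
      rw [div_lt_iff₀ hcn] at hs3
      by_contra hcon
      push Not at hcon
      have h4 : ‖q.leadingCoeff‖ * ‖s‖ ≤ ‖eval t q‖ * ‖s‖ := mul_le_mul_of_nonneg_right hcon hsp.le
      rw [← hqdef] at h2
      nlinarith
    have hsplit := (IsAlgClosed.splits q).eq_prod_roots
    have h5 : ‖(q.roots.map fun k => t - k).prod‖ < 1 := by
      have h6 : eval t q = q.leadingCoeff * (q.roots.map fun k => t - k).prod := by
        conv_lhs => rw [hsplit]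
        rw [eval_mul, eval_C, eval_multiset_prod, Multiset.map_map]
        simp
      rw [h6, norm_mul] at h3
      by_contra hcon
      push Not at hcon
      nlinarith
    obtain ⟨k, hk, hk1⟩ := edge_prod _ _ h5
    have hkn : ‖k‖ = 1 := by
      have h7 : k = t + (k - t) := by ring
      have h8 : ‖k - t‖ < ‖t‖ := by rw [norm_sub_rev, ht1]; exact hk1
      rw [h7, IsUltrametricDist.norm_add_eq_max_of_norm_ne_norm h8.ne', max_eq_left h8.le, ht1]
    refine ⟨k ^ N1, ?_, ?_⟩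
    · rw [Finset.mem_image]
      refine ⟨k, ?_, rfl⟩
      rw [Finset.mem_filter, Multiset.mem_toFinset]
      exact ⟨hk, hkn⟩
    · have h9 : y ^ N1 - k ^ N1 * x ^ N2 = (t ^ N1 - k ^ N1) * x ^ N2 := by
        rw [← hty, ← hs]
        ring
      rw [h9, norm_mul, norm_pow]
      have h10 : ‖t ^ N1 - k ^ N1‖ < 1 := lt_of_le_of_lt (edge_pow_sub t k ht1 hkn N1) hk1
      have hx0 : 0 < ‖x‖ ^ N2 := by rw [hsx]; positivity
      calc ‖t ^ N1 - k ^ N1‖ * ‖x‖ ^ N2 < 1 * ‖x‖ ^ N2 := mul_lt_mul_of_pos_right h10 hx0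
        _ = ‖x‖ ^ N2 := one_mul _

end Pool.Agent.Helper581_DML.Wild
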