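import Mathlib
import Pool.Agent.Helper581_DML.WDefs
import Pool.Agent.Helper581_DML.W10a

/-!
Part W10b of the proof (helper581, MP_6ac234_nt): `step_A` from `edge` (proved in the imported files).

PLAIN PROOF. Let `R_e, Z` be from `edge` for `h`, and the given `n1, n2` (the exponents of `hval`). Let `ρ ≥ 1` be such that for `‖z‖ > ρ`: `‖f(z)‖ = ‖z‖^d` and `‖f(z) - z^d‖ < ‖z‖^d`, the same for `g`. (Bound for the norms of the coefficients.) So if `‖z‖ > ρ` then by induction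
 `‖f^[i] z‖ = ‖z‖^(d^i)` and `‖f^[i] z - z^(d^i)‖ < ‖z‖^(d^i)`; the orbit `x n` escapes to infinity: from some `n1` on `‖x n‖ > ρ`, `‖x (n+1)‖ = ‖x n‖^d`. For `u, v` of norm 1 write `u ~ v` if `‖u - v‖ < 1`: an equivalence relation compatible with products and powers.
 (1) For `n ≥ n0` put `ζ_n = (y n)^n1/(x n)^n2`, norm 1, `ζ_(n+1) ~ ζ_n^d` (if `‖x n‖, ‖y n‖ > ρ`, true for large `n` as `‖y n‖^n1 = ‖x n‖^n2 → ∞`). For large `n` with `h(x n, y n) = 0` we have `ζ_n ~ z` for some `z ∈ Z`; choose `z ∈ Z` with `ζ_n ~ z` for infinitely many such `n`; call this set `S` (keeping only large `n`).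
 For `n < m` in `S`: `z ~ ζ_m ~ ζ_n^(d^(m-n)) ~ z^(d^(m-n))`. Take one such pair, `k0 = m - n`, `D = d^k0 - 1 > 0`: `z^D ~ 1`. Here `D` is prime to `p` if `p ∣ d`; in general write `D = p^a D'` with `p ∤ D'` (`d^k0 - 1` may be divisible by `p` when `p ∤ d`): `z^D ~ 1` gives `‖(z^(D') - 1)^(p^a)‖ < 1`, so `z^(D') ~ 1`.
 `X^(D') - 1 = ∏ (X - ω)` over the `D'`-th roots of unity, so some `ω0 ~ z`; `κ0 = ω0`, `κ0^(D') = 1`. Distinct `D'`-th roots of unity are not `~` (`∏_{ω ≠ 1} (1 - ω) = D'` has norm 1 and all factors have norm `≤ 1`). For `n < m` in `S`: `κ0^(d^(m-n)) ~ z^(d^(m-n)) ~ z ~ κ0`, both are `D'`-th roots of unity,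
 so `κ0^(d^(m-n)) = κ0`.
 (2) For `z' ∈ Z` let `j(z')` be some `j` with `z'^(d^j) ~ κ0^(d^j)` if there is one, `I` the maximum of these `j(z')`. Let `N1 = n1 d^I`, `N2 = n2 d^I`, `κ = κ0^(d^I)`. Then `κ^(d^(m-n)) = κ` for `n < m` in `S`; `Wn f g d N1 N2 κ (x n) (y n) 0 = ‖ζ_n^(d^I) - κ‖ < 1` for `n ∈ S` (as `ζ_n ~ z ~ κ0`).
 (3) Let `h(a,b) = 0`, `‖a‖ > R`, `R` large, and `Wn f g d N1 N2 κ a b i < 1`. Let `a_i = f^[i] a`, `b_i = g^[i] b`. Then `‖b_i‖^N1 = ‖a_i‖^N2`, so `‖b_i‖^n1 = ‖a_i‖^n2 = ‖a‖^(n2 d^i)`. If `‖b‖ ≤ ρ` then `‖b_i‖ ≤ ρ'^(d^i)` with `ρ' = ρ^2`-like constant (by induction: `‖g(z)‖ ≤ max(ρ', ‖z‖)^d`-type bounds), impossible if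
 `R^n2 > ρ'^n1`. So `‖b‖ > ρ` and `‖b_i‖ = ‖b‖^(d^i)`, `‖b‖^n1 = ‖a‖^n2`, and `ζ = b^n1/a^n2 ~ z'` for some `z' ∈ Z` by `edge`. `b_i^n1/a_i^n2 ~ ζ^(d^i)`, so `Wn … i < 1` says `z'^(d^(i+I)) ~ κ0^(d^(I+i))`, so `j(z')` exists, and `z'^(d^I) ~ κ0^(d^I)`, i.e. `Wn … 0 = ‖ζ^(d^I) - κ‖ < 1`.
-/

set_option autoImplicit false

namespace Pool.Agent.Helper581_DML.Wild

open Polynomial Filter
open scoped Polynomial.Bivariate


section AuxA

variable {L : Type*} [NormedField L]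

theorem A_bd (F : L[X]) (hF : F.Monic) (d : ℕ) (hd : 1 ≤ d) (hFd : F.natDegree = d) :
    ∃ C : ℝ, 1 ≤ C ∧ (∀ z : L, C < ‖z‖ → ‖F.eval z - z ^ d‖ < ‖z‖ ^ d) ∧
      ∀ z : L, ‖F.eval z‖ ≤ C * (max 1 ‖z‖) ^ d := by
  set C0 : ℝ := ∑ i ∈ Finset.range d, ‖F.coeff i‖ with hC0
  have hC0n : 0 ≤ C0 := Finset.sum_nonneg fun _ _ => norm_nonneg _
  have hlead : F.coeff d = 1 := by rw [← hFd]; exact hF.coeff_natDegree
  have hev : ∀ z : L, F.eval z = ∑ i ∈ Finset.range d, F.coeff i * z ^ i + z ^ d := by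
    intro z
    rw [Polynomial.eval_eq_sum_range, hFd, Finset.sum_range_succ, hlead, one_mul]
  have hsum : ∀ (z : L) (r : ℝ), 1 ≤ r → ‖z‖ ≤ r → ∀ e : ℕ, d ≤ e + 1 →
      ‖∑ i ∈ Finset.range d, F.coeff i * z ^ i‖ ≤ C0 * r ^ e := by
    intro z r hr hz e he
    calc ‖∑ i ∈ Finset.range d, F.coeff i * z ^ i‖
        ≤ ∑ i ∈ Finset.range d, ‖F.coeff i * z ^ i‖ := norm_sum_le _ _
      _ ≤ ∑ i ∈ Finset.range d, ‖F.coeff i‖ * r ^ e := by
          apply Finset.sum_le_sum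
          intro i hi
          rw [norm_mul, norm_pow]
          apply mul_le_mul_of_nonneg_left _ (norm_nonneg _)
          have hi' := Finset.mem_range.1 hi
          calc ‖z‖ ^ i ≤ r ^ i := pow_le_pow_left₀ (norm_nonneg _) hz i
            _ ≤ r ^ e := pow_le_pow_right₀ hr (by omega)
      _ = C0 * r ^ e := by rw [← Finset.sum_mul]
  refine ⟨1 + C0, by linarith, ?_, ?_⟩
  · intro z hz
    have h1 : 1 ≤ ‖z‖ := by linarith
    have hp : 0 < ‖z‖ ^ (d - 1) := by positivity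
    rw [hev, add_sub_cancel_right]
    calc ‖∑ i ∈ Finset.range d, F.coeff i * z ^ i‖ ≤ C0 * ‖z‖ ^ (d - 1) :=
          hsum z _ h1 le_rfl _ (by omega)
      _ < ‖z‖ * ‖z‖ ^ (d - 1) := by
          apply mul_lt_mul_of_pos_right _ hp
          linarith
      _ = ‖z‖ ^ d := by rw [← pow_succ']; congr 1; omega
  · intro z
    have h1 : (1 : ℝ) ≤ max 1 ‖z‖ := le_max_left _ _
    rw [hev]
    calc ‖∑ i ∈ Finset.range d, F.coeff i * z ^ i + z ^ d‖
        ≤ ‖∑ i ∈ Finset.range d, F.coeff i * z ^ i‖ + ‖z ^ d‖ := norm_add_le _ _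
      _ ≤ C0 * (max 1 ‖z‖) ^ d + (max 1 ‖z‖) ^ d := by
          apply add_le_add (hsum z _ h1 (le_max_right _ _) _ (by omega))
          rw [norm_pow]
          exact pow_le_pow_left₀ (norm_nonneg _) (le_max_right _ _) _
      _ = (1 + C0) * (max 1 ‖z‖) ^ d := by ring

/-- crude bound for all orbits -/
theorem A_orb (g : L[X]) (d : ℕ) (hd : 2 ≤ d) (B : ℝ) (hB : 1 ≤ B)
    (h : ∀ z : L, ‖g.eval z‖ ≤ B * (max 1 ‖z‖) ^ d) (b : L) (K : ℝ) (hK : B ≤ K)
    (hb : B * ‖b‖ ≤ K) (i : ℕ) : B * ‖(fun z => g.eval z)^[i] b‖ ≤ K ^ d ^ i := by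
  have hK1 : 1 ≤ K := hB.trans hK
  induction i with
  | zero => simpa using hb
  | succ i ih =>
    rw [Function.iterate_succ_apply']
    set c := (fun z => g.eval z)^[i] b with hc
    have hm : (0 : ℝ) ≤ max 1 ‖c‖ := le_trans zero_le_one (le_max_left _ _)
    have h1 : B * max 1 ‖c‖ ≤ K ^ d ^ i := by
      rw [mul_max_of_nonneg _ _ (by linarith)]
      apply max_le _ ih
      rw [mul_one]
      calc B ≤ K := hK
        _ = K ^ 1 := (pow_one K).symm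
        _ ≤ K ^ d ^ i := pow_le_pow_right₀ hK1 (Nat.one_le_pow _ _ (by omega))
    have hB2 : B * B ≤ B ^ d := by
      calc B * B = B ^ 2 := by ring
        _ ≤ B ^ d := pow_le_pow_right₀ hB hd
    calc B * ‖g.eval c‖ ≤ B * (B * (max 1 ‖c‖) ^ d) :=
          mul_le_mul_of_nonneg_left (h c) (by linarith)
      _ = (B * B) * (max 1 ‖c‖) ^ d := by ring
      _ ≤ B ^ d * (max 1 ‖c‖) ^ d := mul_le_mul_of_nonneg_right hB2 (pow_nonneg hm _)
      _ = (B * max 1 ‖c‖) ^ d := by rw [mul_pow]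
      _ ≤ (K ^ d ^ i) ^ d := pow_le_pow_left₀ (by positivity) h1 _
      _ = K ^ d ^ (i + 1) := by rw [← pow_mul, pow_succ]

/-- `u` and `v` agree to first order -/
def EA (u v : L) : Prop := ‖u - v‖ < ‖v‖

theorem EA.pos {u v : L} (h : EA u v) : 0 < ‖v‖ := lt_of_le_of_lt (norm_nonneg _) h

theorem EA.refl {v : L} (h : 0 < ‖v‖) : EA v v := by
  unfold EA; rw [sub_self, norm_zero]; exact h

variable [IsUltrametricDist L]

theorem EA.norm_eq {u v : L} (h : EA u v) : ‖u‖ = ‖v‖ := by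
  have h1 : ‖u - v‖ ≠ ‖v‖ := ne_of_lt h
  have h2 := IsUltrametricDist.norm_add_eq_max_of_norm_ne_norm h1
  rw [sub_add_cancel, max_eq_right (le_of_lt h)] at h2
  exact h2

theorem EA.symm {u v : L} (h : EA u v) : EA v u := by
  unfold EA
  rw [norm_sub_rev, h.norm_eq]; exact h

theorem EA.trans {u v w : L} (h : EA u v) (h' : EA v w) : EA u w := by
  unfold EA
  have e : u - w = (u - v) + (v - w) := by ring
  rw [e]
  refine lt_of_le_of_lt (IsUltrametricDist.norm_add_le_max _ _) (max_lt ?_ h')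
  rw [← h'.norm_eq]; exact h

theorem EA.mul {u v u' v' : L} (h : EA u v) (h' : EA u' v') : EA (u * u') (v * v') := by
  unfold EA
  have e : u * u' - v * v' = (u - v) * u' + v * (u' - v') := by ring
  rw [e]
  refine lt_of_le_of_lt (IsUltrametricDist.norm_add_le_max _ _) (max_lt ?_ ?_)
  · rw [norm_mul, norm_mul, h'.norm_eq]
    exact mul_lt_mul_of_pos_right h h'.pos
  · rw [norm_mul, norm_mul]
    exact mul_lt_mul_of_pos_left h' h.pos

theorem EA.pow {u v : L} (h : EA u v) (n : ℕ) : EA (u ^ n) (v ^ n) := by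
  induction n with
  | zero => simp only [pow_zero]; exact EA.refl (by simp)
  | succ n ih => rw [pow_succ, pow_succ]; exact ih.mul h

omit [IsUltrametricDist L] in
theorem EA.cancel {u v w : L} (h : EA (u * w) (v * w)) : EA u v := by
  unfold EA at h ⊢
  rw [← sub_mul, norm_mul, norm_mul] at h
  exact lt_of_mul_lt_mul_right h (norm_nonneg _)

theorem A_orb_f (f : L[X]) (d : ℕ) (hd : 2 ≤ d) (C : ℝ) (hC : 1 ≤ C)
    (h : ∀ z : L, C < ‖z‖ → ‖f.eval z - z ^ d‖ < ‖z‖ ^ d) (a : L) (ha : C < ‖a‖) (i : ℕ) :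
    C < ‖(fun z => f.eval z)^[i] a‖ ∧ EA ((fun z => f.eval z)^[i] a) (a ^ d ^ i) := by
  induction i with
  | zero =>
    refine ⟨ha, ?_⟩
    simp only [pow_zero, pow_one]
    exact EA.refl (by simp; intro h0; rw [h0, norm_zero] at ha; linarith)
  | succ i ih =>
    obtain ⟨h1, h2⟩ := ih
    rw [Function.iterate_succ_apply']
    set c := (fun z => f.eval z)^[i] a with hc
    have h3 : EA (f.eval c) (c ^ d) := by
      unfold EA
      rw [norm_pow]; exact h c h1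
    have h4 : EA (f.eval c) (a ^ d ^ (i + 1)) := by
      have := h3.trans (h2.pow d)
      rwa [← pow_mul, ← pow_succ] at this
    refine ⟨?_, h4⟩
    show C < ‖f.eval c‖
    rw [h3.norm_eq, norm_pow]
    calc C < ‖c‖ := h1
      _ = ‖c‖ ^ 1 := (pow_one _).symm
      _ ≤ ‖c‖ ^ d := pow_le_pow_right₀ (by linarith) (by omega)

/-- roots of unity of order prime to `p` are separated -/
theorem A_sep {p : ℕ} [Fact p.Prime] [CharP L p] (D : ℕ) (hD : ¬ p ∣ D) (u v : L)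
    (hu : u ^ D = 1) (hv : v ^ D = 1) (h : EA u v) : u = v := by
  have hD0 : D ≠ 0 := by rintro rfl; exact hD (dvd_zero p)
  have hv0 : v ≠ 0 := by
    intro h0; rw [h0, zero_pow hD0] at hv; exact zero_ne_one hv
  -- reduce to w = u / v
  set w := u / v with hw
  have hwD : w ^ D = 1 := by rw [hw, div_pow, hu, hv, div_one]
  have hw1 : EA w 1 := by
    apply EA.cancel (w := v)
    rw [hw, div_mul_cancel₀ _ hv0, one_mul]; exact h
  by_contra hne
  have hwne : w ≠ 1 := by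
    intro h1; apply hne
    rw [hw, div_eq_one_iff_eq hv0] at h1; exact h1
  have hgeom : (∑ i ∈ Finset.range D, w ^ i) * (w - 1) = w ^ D - 1 := geom_sum_mul w D
  rw [hwD, sub_self] at hgeom
  have hsum : ∑ i ∈ Finset.range D, w ^ i = 0 := by
    rcases mul_eq_zero.1 hgeom with h0 | h0
    · exact h0
    · exact absurd (sub_eq_zero.1 h0) hwne
  have h2 : ∑ i ∈ Finset.range D, (w ^ i - 1) = - (D : L) := by
    rw [Finset.sum_sub_distrib, hsum]; simp
  have hnD : ‖(D : L)‖ = 1 := by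
    have hp : p.Prime := Fact.out
    have h3 : (D : L) ^ (p - 1) = 1 := by
      have h4 : ((D : ZMod p)) ^ (p - 1) = 1 := by
        apply ZMod.pow_card_sub_one_eq_one
        rw [Ne, ZMod.natCast_eq_zero_iff]; exact hD
      have h5 := congrArg (ZMod.castHom (dvd_refl p) L) h4
      rw [map_pow, map_natCast, map_one] at h5
      exact h5
    have h6 : ‖(D : L)‖ ^ (p - 1) = 1 := by rw [← norm_pow, h3, norm_one]
    exact (pow_eq_one_iff_of_nonneg (norm_nonneg _) (by have := hp.two_le; omega)).1 h6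
  -- the norm of the sum is less than one
  have h7 : ∀ i ∈ Finset.range D, ‖w ^ i - 1‖ ≤ ‖w - 1‖ := by
    intro i _
    have h8 : (∑ j ∈ Finset.range i, w ^ j) * (w - 1) = w ^ i - 1 := geom_sum_mul w i
    rw [← h8, norm_mul]
    have h9 : ‖∑ j ∈ Finset.range i, w ^ j‖ ≤ 1 := by
      apply IsUltrametricDist.norm_sum_le_of_forall_le_of_nonneg zero_le_one
      intro j _
      rw [norm_pow, hw1.norm_eq, norm_one, one_pow]
    calc ‖∑ j ∈ Finset.range i, w ^ j‖ * ‖w - 1‖ ≤ 1 * ‖w - 1‖ :=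
          mul_le_mul_of_nonneg_right h9 (norm_nonneg _)
      _ = ‖w - 1‖ := one_mul _
  have h10 : ‖∑ i ∈ Finset.range D, (w ^ i - 1)‖ ≤ ‖w - 1‖ :=
    IsUltrametricDist.norm_sum_le_of_forall_le_of_nonneg (norm_nonneg _) h7
  rw [h2, norm_neg, hnD] at h10
  unfold EA at hw1
  rw [norm_one] at hw1
  linarith

/-- an element congruent to a root of `X^D - 1` has a true root of unity near it -/
theorem A_root {p : ℕ} [Fact p.Prime] [CharP L p] [IsAlgClosed L] (D : ℕ) (hD : 0 < D) (z : L)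
    (hz : ‖z‖ = 1) (h : EA (z ^ D) 1) :
    ∃ D' : ℕ, ¬ p ∣ D' ∧ ∃ ω : L, ω ^ D' = 1 ∧ EA z ω ∧ ‖ω‖ = 1 := by
  have hp : p.Prime := Fact.out
  obtain ⟨a, D', hD', rfl⟩ := Nat.exists_eq_pow_mul_and_not_dvd (Nat.pos_iff_ne_zero.1 hD) p hp.ne_one
  have hD0 : D' ≠ 0 := by rintro rfl; exact hD' (dvd_zero p)
  refine ⟨D', hD', ?_⟩
  have h1 : (z ^ D' - 1) ^ p ^ a = z ^ (p ^ a * D') - 1 := by
    rw [sub_pow_expChar_pow, one_pow, ← pow_mul, mul_comm D']
  have h2 : ‖z ^ D' - 1‖ < 1 := by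
    unfold EA at h
    rw [norm_one, ← h1, norm_pow] at h
    by_contra hcon
    push Not at hcon
    exact absurd h (not_lt.2 (one_le_pow₀ hcon))
  have hmon : (X ^ D' - C 1 : L[X]).Monic := monic_X_pow_sub_C 1 hD0
  have hspl : (X ^ D' - C 1 : L[X]).Splits := IsAlgClosed.splits _
  have hprod : (X ^ D' - C 1 : L[X]) = ((X ^ D' - C 1 : L[X]).roots.map fun a => X - C a).prod := by
    exact hspl.eq_prod_roots_of_monic hmon
  have hev : z ^ D' - 1 = ((X ^ D' - C 1 : L[X]).roots.map fun a => z - a).prod := by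
    have h3 := congrArg (Polynomial.eval z) hprod
    rw [Polynomial.eval_multiset_prod, Multiset.map_map] at h3
    simpa using h3
  have hex : ∃ ω ∈ (X ^ D' - C 1 : L[X]).roots, ‖z - ω‖ < 1 := by
    by_contra hcon
    push Not at hcon
    have h4 : (1 : ℝ) ≤ ‖((X ^ D' - C 1 : L[X]).roots.map fun a => z - a).prod‖ := by
      generalize (X ^ D' - C 1 : L[X]).roots = s at hcon
      induction s using Multiset.induction_on with
      | empty => simp
      | cons b s ih =>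
        rw [Multiset.map_cons, Multiset.prod_cons, norm_mul]
        have h5 := hcon b (Multiset.mem_cons_self b s)
        have h6 := ih fun ω hω => hcon ω (Multiset.mem_cons_of_mem hω)
        calc (1 : ℝ) = 1 * 1 := by ring
          _ ≤ _ := mul_le_mul h5 h6 zero_le_one (by linarith)
    rw [← hev] at h4
    linarith
  obtain ⟨ω, hω, h5⟩ := hex
  have hω1 : ω ^ D' = 1 := by
    have := (Polynomial.mem_roots (hmon.ne_zero)).1 hω
    simp [Polynomial.IsRoot, sub_eq_zero] at this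
    exact this
  have hnω : ‖ω‖ = 1 := by
    have : ‖ω‖ ^ D' = 1 := by rw [← norm_pow, hω1, norm_one]
    exact (pow_eq_one_iff_of_nonneg (norm_nonneg _) hD0).1 this
  exact ⟨ω, hω1, by unfold EA; rw [hnω]; exact h5, hnω⟩

end AuxA


theorem A_Wn {L : Type*} [NormedField L] (f g : L[X]) (d N1 N2 : ℕ) (κ x y : L) (i : ℕ)
    (hκ : ‖κ‖ = 1) (hx : 0 < ‖(fun z => f.eval z)^[i] x‖) :
    Wn f g d N1 N2 κ x y i < 1 ↔
      EA (((fun z => g.eval z)^[i] y) ^ N1) (κ ^ d ^ i * ((fun z => f.eval z)^[i] x) ^ N2) := by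
  unfold Wn EA
  rw [div_lt_one (pow_pos hx _), norm_mul, norm_pow, norm_pow, hκ, one_pow, one_mul]

theorem step_A {p : ℕ} [Fact p.Prime] {L : Type*} [NontriviallyNormedField L]
    [IsUltrametricDist L] [IsAlgClosed L] [CharP L p] (f g : L[X]) (hf : f.Monic) (hg : g.Monic)
    (d : ℕ) (hd2 : 2 ≤ d) (hfd : f.natDegree = d) (hgd : g.natDegree = d) (x y : ℕ → L)
    (hx : ∀ n, x (n + 1) = f.eval (x n)) (hy : ∀ n, y (n + 1) = g.eval (y n))
    (hxu : ∀ B : ℝ, ∃ n, B < ‖x n‖)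
    (hval : ∃ N1 N2 : ℕ, 0 < N1 ∧ 0 < N2 ∧ ∀ᶠ n in atTop, ‖y n‖ ^ N1 = ‖x n‖ ^ N2)
    (h : L[X][Y]) (hh : h ≠ 0) (hinf : {n | evalEval (x n) (y n) h = 0}.Infinite) :
    ∃ (N1 N2 : ℕ) (κ : L), 0 < N1 ∧ 0 < N2 ∧ ‖κ‖ = 1 ∧
      (∃ R : ℝ, ∀ a b : L, R < ‖a‖ → evalEval a b h = 0 →
        (∃ i, Wn f g d N1 N2 κ a b i < 1) → Wn f g d N1 N2 κ a b 0 < 1) ∧
      ∃ S : Set ℕ, S.Infinite ∧
        (∀ n ∈ S, evalEval (x n) (y n) h = 0 ∧ Wn f g d N1 N2 κ (x n) (y n) 0 < 1) ∧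
        ∀ n ∈ S, ∀ m ∈ S, n < m → κ ^ d ^ (m - n) = κ := by
  classical
  obtain ⟨n1, n2, hn1, hn2, hval'⟩ := hval
  obtain ⟨nv, hnv⟩ := Filter.eventually_atTop.1 hval'
  obtain ⟨Re, Z, hZ1, hZ⟩ := edge h hh n1 n2 hn1 hn2
  obtain ⟨Cf, hCf1, hCf2, -⟩ := A_bd f hf d (by omega) hfd
  obtain ⟨Cg, hCg1, hCg2, hCg3⟩ := A_bd g hg d (by omega) hgd
  set ρ : ℝ := max Cf Cg with hρ
  have hρ1 : 1 ≤ ρ := hCf1.trans (le_max_left _ _)
  have hfρ : ∀ z : L, ρ < ‖z‖ → ‖f.eval z - z ^ d‖ < ‖z‖ ^ d := fun z hz =>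
    hCf2 z (lt_of_le_of_lt (le_max_left _ _) hz)
  have hgρ : ∀ z : L, ρ < ‖z‖ → ‖g.eval z - z ^ d‖ < ‖z‖ ^ d := fun z hz =>
    hCg2 z (lt_of_le_of_lt (le_max_right _ _) hz)
  have hBρ : ∀ z : L, ‖g.eval z‖ ≤ ρ * (max 1 ‖z‖) ^ d := fun z =>
    (hCg3 z).trans (mul_le_mul_of_nonneg_right (le_max_right _ _) (by positivity))
  -- the threshold
  set B : ℝ := max (ρ ^ n1) Re with hB
  have hρB : ρ ≤ ρ ^ n1 := by
    calc ρ = ρ ^ 1 := (pow_one _).symm
      _ ≤ ρ ^ n1 := pow_le_pow_right₀ hρ1 hn1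
  have hB1 : 1 ≤ B := hρ1.trans (hρB.trans (le_max_left _ _))
  obtain ⟨nb, hnb⟩ := hxu B
  have hxB : ∀ k, B < ‖x (nb + k)‖ := by
    intro k
    induction k with
    | zero => exact hnb
    | succ k ih =>
      have h1 : ρ < ‖x (nb + k)‖ := lt_of_le_of_lt (hρB.trans (le_max_left _ _)) ih
      have h2 : EA (f.eval (x (nb + k))) (x (nb + k) ^ d) := by
        unfold EA; rw [norm_pow]; exact hfρ _ h1
      rw [← add_assoc, hx, h2.norm_eq, norm_pow]
      calc B < ‖x (nb + k)‖ := ih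
        _ = ‖x (nb + k)‖ ^ 1 := (pow_one _).symm
        _ ≤ ‖x (nb + k)‖ ^ d := pow_le_pow_right₀ (by linarith) (by omega)
  set ns : ℕ := max nv nb with hns
  have hlarge : ∀ n, ns ≤ n → B < ‖x n‖ ∧ ‖y n‖ ^ n1 = ‖x n‖ ^ n2 ∧ ρ < ‖y n‖ := by
    intro n hn
    have h1 : B < ‖x n‖ := by
      have := hxB (n - nb)
      rwa [show nb + (n - nb) = n by omega] at this
    have h2 : ‖y n‖ ^ n1 = ‖x n‖ ^ n2 := hnv n (by omega)
    refine ⟨h1, h2, ?_⟩
    by_contra hcon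
    push Not at hcon
    have h3 : ‖y n‖ ^ n1 ≤ ρ ^ n1 := pow_le_pow_left₀ (norm_nonneg _) hcon _
    have h4 : ‖x n‖ ≤ ‖x n‖ ^ n2 := by
      calc ‖x n‖ = ‖x n‖ ^ 1 := (pow_one _).symm
        _ ≤ _ := pow_le_pow_right₀ (by linarith) hn2
    have h5 : ρ ^ n1 ≤ B := le_max_left _ _
    linarith
  have hxE : ∀ n, ns ≤ n → ∀ k, EA (x (n + k)) (x n ^ d ^ k) := by
    intro n hn k
    induction k with
    | zero =>
      simp only [add_zero, pow_zero, pow_one]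
      exact EA.refl (by linarith [(hlarge n hn).1])
    | succ k ih =>
      have h1 : ρ < ‖x (n + k)‖ :=
        lt_of_le_of_lt (hρB.trans (le_max_left _ _)) (hlarge (n + k) (by omega)).1
      have h2 : EA (f.eval (x (n + k))) (x (n + k) ^ d) := by
        unfold EA; rw [norm_pow]; exact hfρ _ h1
      rw [← add_assoc, hx]
      have h3 := h2.trans (ih.pow d)
      rwa [← pow_mul, ← pow_succ] at h3
  have hyE : ∀ n, ns ≤ n → ∀ k, EA (y (n + k)) (y n ^ d ^ k) := by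
    intro n hn k
    induction k with
    | zero =>
      simp only [add_zero, pow_zero, pow_one]
      exact EA.refl (by linarith [(hlarge n hn).2.2])
    | succ k ih =>
      have h1 : ρ < ‖y (n + k)‖ := (hlarge (n + k) (by omega)).2.2
      have h2 : EA (g.eval (y (n + k))) (y (n + k) ^ d) := by
        unfold EA; rw [norm_pow]; exact hgρ _ h1
      rw [← add_assoc, hy]
      have h3 := h2.trans (ih.pow d)
      rwa [← pow_mul, ← pow_succ] at h3
  -- pigeonhole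
  have hS0 : {n | evalEval (x n) (y n) h = 0 ∧ ns ≤ n}.Infinite := by
    intro hfin
    apply hinf
    apply (hfin.union (Set.finite_lt_nat ns)).subset
    intro n hn
    by_cases h1 : ns ≤ n
    · exact Or.inl ⟨hn, h1⟩
    · exact Or.inr (not_le.1 h1)
  have hcov : ∀ n, evalEval (x n) (y n) h = 0 → ns ≤ n →
      ∃ z ∈ Z, EA (y n ^ n1) (z * x n ^ n2) := by
    intro n h0 hn
    obtain ⟨h1, h2, h3⟩ := hlarge n hn
    obtain ⟨z, hz, hlt⟩ := hZ (x n) (y n) (lt_of_le_of_lt (le_max_right _ _) h1) h2 h0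
    refine ⟨z, hz, ?_⟩
    unfold EA
    rw [norm_mul, hZ1 z hz, one_mul, norm_pow]; exact hlt
  obtain ⟨z, hzZ, hzinf⟩ : ∃ z ∈ Z,
      {n | evalEval (x n) (y n) h = 0 ∧ ns ≤ n ∧ EA (y n ^ n1) (z * x n ^ n2)}.Infinite := by
    by_contra hcon
    push Not at hcon
    apply hS0
    have hfin : (⋃ z ∈ (Z : Set L), {n | evalEval (x n) (y n) h = 0 ∧ ns ≤ n ∧
        EA (y n ^ n1) (z * x n ^ n2)}).Finite := by
      apply Set.Finite.biUnion Z.finite_toSet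
      intro z hz
      have := hcon z hz
      simpa [Set.not_infinite] using this
    apply hfin.subset
    intro n hn
    obtain ⟨z, hz, h1⟩ := hcov n hn.1 hn.2
    simp only [Set.mem_iUnion]
    exact ⟨z, hz, hn.1, hn.2, h1⟩
  set S : Set ℕ := {n | evalEval (x n) (y n) h = 0 ∧ ns ≤ n ∧ EA (y n ^ n1) (z * x n ^ n2)} with hS
  have hz1 : ‖z‖ = 1 := hZ1 z hzZ
  have hpair : ∀ n ∈ S, ∀ m ∈ S, n < m → EA (z ^ d ^ (m - n)) z := by
    intro n hn m hm hnm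
    obtain ⟨-, hn2', hn3⟩ := hn
    obtain ⟨-, -, hm3⟩ := hm
    set k := m - n with hk
    have hmk : m = n + k := by omega
    have hx' := hxE n hn2' k
    have hy' := hyE n hn2' k
    rw [← hmk] at hx' hy'
    have h1 : EA (y m ^ n1) ((z * x n ^ n2) ^ d ^ k) := by
      have h2 := hy'.pow n1
      have h3 := hn3.pow (d ^ k)
      rw [← pow_mul, mul_comm n1, pow_mul] at h3
      exact h2.trans h3
    have h4 : EA ((z * x n ^ n2) ^ d ^ k) (z ^ d ^ k * x m ^ n2) := by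
      have h5 := (hx'.pow n2).symm
      rw [mul_pow]
      have h6 : EA (z ^ d ^ k) (z ^ d ^ k) := EA.refl (by rw [norm_pow, hz1, one_pow]; exact one_pos)
      have h7 := h6.mul h5
      rwa [← pow_mul, mul_comm (d ^ k) n2, pow_mul] at h7
    exact ((h1.trans h4).symm.trans hm3).cancel
  obtain ⟨s1, hs1⟩ := hzinf.nonempty
  obtain ⟨s2, hs2, hs12⟩ := hzinf.exists_gt s1
  have hk0 : 0 < d ^ (s2 - s1) - 1 := by
    have : 2 ≤ d ^ (s2 - s1) := by
      calc 2 ≤ d := hd2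
        _ = d ^ 1 := (pow_one _).symm
        _ ≤ d ^ (s2 - s1) := Nat.pow_le_pow_right (by omega) (by omega)
    omega
  have hzD : EA (z ^ (d ^ (s2 - s1) - 1)) 1 := by
    have h1 := hpair s1 hs1 s2 hs2 hs12
    apply EA.cancel (w := z)
    rw [← pow_succ, one_mul, Nat.sub_add_cancel (by omega)]
    exact h1
  obtain ⟨D', hD', κ0, hκD, hzκ, hκn⟩ := A_root (p := p) _ hk0 z hz1 hzD
  have hκfix : ∀ n ∈ S, ∀ m ∈ S, n < m → κ0 ^ d ^ (m - n) = κ0 := by
    intro n hn m hm hnm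
    apply A_sep (p := p) D' hD'
    · rw [← pow_mul, mul_comm, pow_mul, hκD, one_pow]
    · exact hκD
    · exact ((hzκ.pow _).symm.trans (hpair n hn m hm hnm)).trans hzκ
  -- the uniform exponent
  obtain ⟨I, hI⟩ : ∃ I : ℕ, ∀ z' ∈ Z, (∃ j, EA (z' ^ d ^ j) (κ0 ^ d ^ j)) →
      EA (z' ^ d ^ I) (κ0 ^ d ^ I) := by
    have hch : ∀ z' : L, ∃ j0 : ℕ, (∃ j, EA (z' ^ d ^ j) (κ0 ^ d ^ j)) →
        ∀ j ≥ j0, EA (z' ^ d ^ j) (κ0 ^ d ^ j) := by
      intro z'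
      by_cases hj : ∃ j, EA (z' ^ d ^ j) (κ0 ^ d ^ j)
      · obtain ⟨j0, hj0⟩ := hj
        refine ⟨j0, fun _ j hj => ?_⟩
        have h1 := hj0.pow (d ^ (j - j0))
        rwa [← pow_mul, ← pow_mul, ← pow_add, Nat.add_sub_cancel' hj] at h1
      · exact ⟨0, fun h => absurd h hj⟩
    choose J hJ using hch
    refine ⟨Z.sup J, fun z' hz' hex => hJ z' hex _ (Finset.le_sup hz')⟩
  have hdI : 0 < d ^ I := pow_pos (by omega) _
  refine ⟨n1 * d ^ I, n2 * d ^ I, κ0 ^ d ^ I, Nat.mul_pos hn1 hdI, Nat.mul_pos hn2 hdI,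
    by rw [norm_pow, hκn, one_pow], ?_, S, hzinf, ?_, ?_⟩
  · -- the dichotomy at time zero
    refine ⟨max (max ρ Re) ((ρ * ρ) ^ n1), fun a b ha hab => ?_⟩
    rintro ⟨i, hi⟩
    have haρ : ρ < ‖a‖ := lt_of_le_of_lt ((le_max_left _ _).trans (le_max_left _ _)) ha
    have haR : Re < ‖a‖ := lt_of_le_of_lt ((le_max_right _ _).trans (le_max_left _ _)) ha
    have haK : (ρ * ρ) ^ n1 < ‖a‖ := lt_of_le_of_lt (le_max_right _ _) ha
    have hκI : ‖κ0 ^ d ^ I‖ = 1 := by rw [norm_pow, hκn, one_pow]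
    obtain ⟨hfa1, hfa2⟩ := A_orb_f f d hd2 ρ hρ1 hfρ a haρ i
    rw [A_Wn _ _ _ _ _ _ _ _ _ hκI (by linarith)] at hi
    set ai := (fun z => f.eval z)^[i] a with hai
    set bi := (fun z => g.eval z)^[i] b with hbi
    have hnorm1 : ‖bi‖ ^ n1 = ‖ai‖ ^ n2 := by
      have h1 := hi.norm_eq
      simp only [norm_mul, norm_pow, hκn, one_pow, one_mul, pow_mul] at h1
      exact (pow_left_inj₀ (by positivity) (by positivity) hdI.ne').1 h1
    have hnorm2 : ‖ai‖ = ‖a‖ ^ d ^ i := by rw [hfa2.norm_eq, norm_pow]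
    have hdi : 0 < d ^ i := pow_pos (by omega) _
    have hbρ : ρ < ‖b‖ := by
      by_contra hcon
      push Not at hcon
      have h1 := A_orb g d hd2 ρ hρ1 hBρ b (ρ * ρ) (by nlinarith) (by nlinarith) i
      rw [← hbi] at h1
      have h2 : ‖bi‖ ≤ (ρ * ρ) ^ d ^ i := by
        have h3 : ‖bi‖ ≤ ρ * ‖bi‖ := by nlinarith [norm_nonneg bi]
        exact h3.trans h1
      have h4 : ‖bi‖ ^ n1 ≤ ((ρ * ρ) ^ n1) ^ d ^ i := by
        calc ‖bi‖ ^ n1 ≤ ((ρ * ρ) ^ d ^ i) ^ n1 := pow_le_pow_left₀ (norm_nonneg _) h2 _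
          _ = ((ρ * ρ) ^ n1) ^ d ^ i := by rw [← pow_mul, ← pow_mul, mul_comm (d ^ i) n1]
      have h5 : ‖bi‖ ^ n1 = (‖a‖ ^ n2) ^ d ^ i := by
        rw [hnorm1, hnorm2, ← pow_mul, ← pow_mul, mul_comm (d ^ i) n2]
      have h6 : (ρ * ρ) ^ n1 < ‖a‖ ^ n2 := by
        calc (ρ * ρ) ^ n1 < ‖a‖ := haK
          _ = ‖a‖ ^ 1 := (pow_one _).symm
          _ ≤ ‖a‖ ^ n2 := pow_le_pow_right₀ (by linarith) hn2
      have h7 := pow_lt_pow_left₀ h6 (by positivity) hdi.ne'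
      linarith
    obtain ⟨hgb1, hgb2⟩ := A_orb_f g d hd2 ρ hρ1 hgρ b hbρ i
    rw [← hbi] at hgb1 hgb2
    have hnorm3 : ‖b‖ ^ n1 = ‖a‖ ^ n2 := by
      have h1 : ‖bi‖ = ‖b‖ ^ d ^ i := by rw [hgb2.norm_eq, norm_pow]
      rw [h1, hnorm2, ← pow_mul, ← pow_mul, mul_comm (d ^ i), mul_comm (d ^ i), pow_mul,
        pow_mul] at hnorm1
      exact (pow_left_inj₀ (by positivity) (by positivity) hdi.ne').1 hnorm1
    obtain ⟨z', hz'Z, hz'⟩ := hZ a b haR hnorm3 hab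
    have hz'E : EA (b ^ n1) (z' * a ^ n2) := by
      unfold EA
      rw [norm_mul, hZ1 z' hz'Z, one_mul, norm_pow]; exact hz'
    -- compare
    have h1 : EA (bi ^ (n1 * d ^ I)) (z' ^ d ^ (i + I) * (a ^ (n2 * d ^ (i + I)))) := by
      have h2 := hgb2.pow (n1 * d ^ I)
      have h3 := hz'E.pow (d ^ (i + I))
      have e1 : (b ^ d ^ i) ^ (n1 * d ^ I) = (b ^ n1) ^ d ^ (i + I) := by
        rw [← pow_mul, ← pow_mul]; congr 1; rw [pow_add]; ring
      have e2 : (z' * a ^ n2) ^ d ^ (i + I) = z' ^ d ^ (i + I) * (a ^ (n2 * d ^ (i + I))) := by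
        rw [mul_pow, ← pow_mul]
      rw [e1] at h2
      rw [e2] at h3
      exact h2.trans h3
    have h4 : EA ((κ0 ^ d ^ I) ^ d ^ i * ai ^ (n2 * d ^ I))
        (κ0 ^ d ^ (i + I) * (a ^ (n2 * d ^ (i + I)))) := by
      have h5 := hfa2.pow (n2 * d ^ I)
      have e1 : (a ^ d ^ i) ^ (n2 * d ^ I) = a ^ (n2 * d ^ (i + I)) := by
        rw [← pow_mul]; congr 1; rw [pow_add]; ring
      have e2 : (κ0 ^ d ^ I) ^ d ^ i = κ0 ^ d ^ (i + I) := by
        rw [← pow_mul]; congr 1; rw [pow_add]; ring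
      rw [e1] at h5
      rw [e2]
      exact (EA.refl (by rw [norm_pow, hκn, one_pow]; exact one_pos)).mul h5
    have h6 : EA (z' ^ d ^ (i + I)) (κ0 ^ d ^ (i + I)) :=
      ((h1.symm.trans hi).trans h4).cancel
    have h7 := hI z' hz'Z ⟨_, h6⟩
    have ha0 : 0 < ‖a‖ := by linarith
    rw [A_Wn _ _ _ _ _ _ _ _ _ hκI (by simpa using ha0)]
    simp only [Function.iterate_zero, id_eq, pow_zero, pow_one]
    have h8 := hz'E.pow (d ^ I)
    rw [mul_pow, ← pow_mul, ← pow_mul] at h8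
    refine h8.trans (h7.mul (EA.refl ?_))
    rw [norm_pow]; positivity
  · intro n hn
    have hκI : ‖κ0 ^ d ^ I‖ = 1 := by rw [norm_pow, hκn, one_pow]
    refine ⟨hn.1, ?_⟩
    have hxn : 0 < ‖x n‖ := by linarith [(hlarge n hn.2.1).1]
    rw [A_Wn _ _ _ _ _ _ _ _ _ hκI (by simpa using hxn)]
    simp only [Function.iterate_zero, id_eq, pow_zero, pow_one]
    have h8 := hn.2.2.pow (d ^ I)
    rw [mul_pow, ← pow_mul, ← pow_mul] at h8
    refine h8.trans ((hzκ.pow _).mul (EA.refl ?_))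
    rw [norm_pow]; positivity
  · intro n hn m hm hnm
    have h1 := hκfix n hn m hm hnm
    rw [← pow_mul, mul_comm, pow_mul, h1]

end Pool.Agent.Helper581_DML.Wild
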