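import Mathlib
import Pool.Agent.Helper581_DML.WDefs

/-!
Part W2 of the proof (helper581, MP_6ac234_nt): `elim`, `tie_inf`, `tie_near`.

PLAIN PROOF. `elim`: `h` is irreducible of positive degree in the outer variable, so it is irreducible over the fraction field `K = L(X)`
 (Gauss's lemma) and `K[Y]/(h)` is a field, finite over `K`, in which the class of `u` is not zero (Gauss again: `h ∤ u` over `L[X]` implies
 `h ∤ u` over `K`, as `h` is primitive). Its minimal polynomial `q` over `K` has nonzero constant coefficient; clear denominators: `Q0 ∈ L[X][Y]`,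
 `Q0.coeff 0 ≠ 0`, with `h ∣ Q0.comp u` over `K`; since `h` is primitive it divides over `L[X]` (again Gauss, or multiply `Q0` by another
 nonzero element of `L[X]`).
 `tie_inf`: for nonzero `q ∈ L[X]` there is `R` with `‖q(x)‖ = ‖q.leadingCoeff‖ ‖x‖^(natDegree q)` for `‖x‖ > R`. Let `R` be good for all nonzero coefficients
 `Q_j` of `Q`. If `Q(x, v) = ∑ Q_j(x) v^j = 0`, then `v ≠ 0` (`Q_0(x) ≠ 0`), and the largest of the numbers `‖Q_j(x) v^j‖` (`Q_j ≠ 0`) is attained for two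
 indices `j < j'` (ultrametric inequality), so `(j - j') log ‖v‖ = log ‖Q_j'(x)‖ - log ‖Q_j(x)‖` is an affine function of `log ‖x‖` from a finite list.
 `tie_near`: the same with `‖q(x)‖ = c ‖x - x0‖^o` for `x ≠ x0` close to `x0`: `q = (X - x0)^o q1`, `q1(x0) ≠ 0`, `‖q1(x)‖ = ‖q1(x0)‖` near `x0`.
-/

set_option autoImplicit false

namespace Pool.Agent.Helper581_DML.Wild

open Polynomial
open scoped Polynomial.Bivariate

theorem elim {L : Type*} [Field L] (h u : L[X][Y]) (hirr : Irreducible h)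
    (hdeg : 0 < h.natDegree) (hu : ¬ h ∣ u) : ∃ Q : L[X][Y], Q.coeff 0 ≠ 0 ∧ h ∣ Q.comp u := by
  have hp : Prime h := hirr.prime
  have := AdjoinRoot.isDomain_of_prime hp
  have hne : h ≠ 0 := hirr.ne_zero
  have hroot : IsAlgebraic L[X] (AdjoinRoot.root h) := by
    refine ⟨h, hne, ?_⟩
    rw [AdjoinRoot.aeval_eq, AdjoinRoot.mk_self]
  have hmem : AdjoinRoot.mk h u ∈ Subalgebra.algebraicClosure L[X] (AdjoinRoot h) := by
    rw [← AdjoinRoot.aeval_eq]
    have h1 : Algebra.adjoin L[X] {AdjoinRoot.root h} ≤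
        Subalgebra.algebraicClosure L[X] (AdjoinRoot h) := by
      apply Algebra.adjoin_le
      intro y hy
      rw [Set.mem_singleton_iff] at hy
      rw [hy]
      exact hroot
    exact h1 (aeval_mem_adjoin_singleton L[X] _)
  have halg : IsAlgebraic L[X] (AdjoinRoot.mk h u) := hmem
  have hu0 : AdjoinRoot.mk h u ≠ 0 := by
    rw [Ne, AdjoinRoot.mk_eq_zero]
    exact hu
  obtain ⟨Q, hQ0, hQ⟩ := halg.exists_nonzero_coeff_and_aeval_eq_zero
    (mem_nonZeroDivisors_of_ne_zero hu0)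
  refine ⟨Q, hQ0, ?_⟩
  rw [← AdjoinRoot.mk_eq_zero, Polynomial.comp, Polynomial.hom_eval₂]
  rw [Polynomial.aeval_def] at hQ
  exact hQ

/-- The ultrametric tie: a vanishing finite sum whose terms are not all zero has two terms of
the same nonzero norm. -/
theorem exists_tie {L ι : Type*} [NormedAddCommGroup L] [IsUltrametricDist L] (s : Finset ι)
    (f : ι → L) (h0 : ∑ i ∈ s, f i = 0) (hne : ∃ i ∈ s, f i ≠ 0) :
    ∃ i ∈ s, ∃ j ∈ s, i ≠ j ∧ f i ≠ 0 ∧ ‖f i‖ = ‖f j‖ := by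
  classical
  obtain ⟨a, ha, hfa⟩ := hne
  obtain ⟨i, hi, hmax⟩ := s.exists_max_image (fun i => ‖f i‖) ⟨a, ha⟩
  have hfi : 0 < ‖f i‖ := lt_of_lt_of_le (norm_pos_iff.2 hfa) (hmax a ha)
  have hsum : ∑ j ∈ s.erase i, f j = - f i := by
    have := Finset.add_sum_erase s f hi
    rw [h0] at this
    exact (neg_eq_of_add_eq_zero_right this).symm
  have hne2 : (s.erase i).Nonempty := by
    by_contra hc
    rw [Finset.not_nonempty_iff_eq_empty] at hc
    rw [hc, Finset.sum_empty] at hsum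
    have : f i = 0 := by
      rw [← neg_eq_zero, ← hsum]
    rw [this, norm_zero] at hfi
    exact lt_irrefl _ hfi
  obtain ⟨j, hj, hle⟩ := IsUltrametricDist.exists_norm_finsetSum_le_of_nonempty hne2 f
  rw [hsum, norm_neg] at hle
  have hj' := Finset.mem_erase.1 hj
  exact ⟨i, hi, j, hj'.2, hj'.1.symm, norm_pos_iff.1 hfi, le_antisymm hle (hmax j hj'.2)⟩

/-- The abstract form of the two results below. -/
theorem tie_gen {L : Type*} [NontriviallyNormedField L] [IsUltrametricDist L] (Q : L[X][Y])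
    (hQ : Q.coeff 0 ≠ 0) (c : ℕ → ℝ) (d : ℕ → ℕ) :
    ∃ F : Finset (ℝ × ℝ), ∀ (x v : L) (s : ℝ), 0 < s →
      (∀ j ∈ Q.support, 0 < c j ∧ ‖(Q.coeff j).eval x‖ = c j * s ^ d j) →
      evalEval x v Q = 0 → v ≠ 0 ∧ ∃ q ∈ F, Real.log ‖v‖ = q.1 * Real.log s + q.2 := by
  classical
  refine ⟨(Q.support ×ˢ Q.support).image (fun p =>
    (((d p.2 : ℝ) - d p.1) / ((p.1 : ℝ) - p.2),
      (Real.log (c p.2) - Real.log (c p.1)) / ((p.1 : ℝ) - p.2))), ?_⟩
  intro x v s hs hc hev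
  have hsum : ∑ j ∈ Q.support, (Q.coeff j).eval x * v ^ j = 0 := by
    have h1 : evalEval x v Q = ∑ j ∈ Q.support, (Q.coeff j).eval x * v ^ j := by
      rw [evalEval, eval_eq_sum (p := Q), Polynomial.sum_def, eval_finsetSum]
      apply Finset.sum_congr rfl
      intro j _
      rw [eval_mul, eval_pow, eval_C]
    rw [← h1, hev]
  have h0mem : 0 ∈ Q.support := Polynomial.mem_support_iff.2 hQ
  have hpos : ∀ j ∈ Q.support, 0 < ‖(Q.coeff j).eval x‖ := by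
    intro j hj
    rw [(hc j hj).2]
    exact mul_pos (hc j hj).1 (pow_pos hs _)
  obtain ⟨i, hi, j, hj, hij, hfi, hn⟩ := exists_tie Q.support
    (fun j => (Q.coeff j).eval x * v ^ j) hsum
    ⟨0, h0mem, by
      have := hpos 0 h0mem
      rw [pow_zero, mul_one]
      exact norm_pos_iff.1 this⟩
  have hv : v ≠ 0 := by
    intro hv0
    have hi0 : i = 0 := by
      by_contra hne
      apply hfi
      rw [hv0, zero_pow hne, mul_zero]
    have hj0 : j = 0 := by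
      by_contra hne
      have h2 : (Q.coeff j).eval x * v ^ j = 0 := by rw [hv0, zero_pow hne, mul_zero]
      rw [h2, norm_zero, norm_eq_zero] at hn
      exact hfi hn
    exact hij (hi0.trans hj0.symm)
  refine ⟨hv, _, Finset.mem_image.2 ⟨(i, j), Finset.mem_product.2 ⟨hi, hj⟩, rfl⟩, ?_⟩
  have hvp : 0 < ‖v‖ := norm_pos_iff.2 hv
  simp only [norm_mul, norm_pow] at hn
  rw [(hc i hi).2, (hc j hj).2] at hn
  have hl := congrArg Real.log hn
  rw [Real.log_mul (mul_pos (hc i hi).1 (pow_pos hs _)).ne' (pow_pos hvp _).ne',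
    Real.log_mul (mul_pos (hc j hj).1 (pow_pos hs _)).ne' (pow_pos hvp _).ne',
    Real.log_mul (hc i hi).1.ne' (pow_pos hs _).ne', Real.log_mul (hc j hj).1.ne' (pow_pos hs _).ne',
    Real.log_pow, Real.log_pow, Real.log_pow, Real.log_pow] at hl
  have hne : (i : ℝ) - j ≠ 0 := by
    rw [sub_ne_zero]
    exact_mod_cast hij
  simp only
  field_simp
  linarith

theorem norm_eval_near {L : Type*} [NontriviallyNormedField L] [IsUltrametricDist L] (q : L[X])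
    (x0 : L) (hq : q.eval x0 ≠ 0) :
    ∃ ε : ℝ, 0 < ε ∧ ∀ x : L, ‖x - x0‖ < ε → ‖q.eval x‖ = ‖q.eval x0‖ := by
  have hc : ContinuousAt (fun x => q.eval x) x0 := q.continuous.continuousAt
  obtain ⟨ε, hε, h⟩ := Metric.continuousAt_iff.1 hc ‖q.eval x0‖ (norm_pos_iff.2 hq)
  refine ⟨ε, hε, fun x hx => ?_⟩
  have h1 := h (x := x) (by rwa [dist_eq_norm])
  rw [dist_eq_norm] at h1
  have h2 : q.eval x = (q.eval x - q.eval x0) + q.eval x0 := by ring
  rw [h2, IsUltrametricDist.norm_add_eq_max_of_norm_ne_norm h1.ne]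
  exact max_eq_right h1.le

theorem norm_near {L : Type*} [NontriviallyNormedField L] [IsUltrametricDist L] (q : L[X])
    (x0 : L) (hq : q ≠ 0) :
    ∃ (ε c : ℝ) (o : ℕ), 0 < ε ∧ 0 < c ∧ ∀ x : L, ‖x - x0‖ < ε →
      ‖q.eval x‖ = c * ‖x - x0‖ ^ o := by
  obtain ⟨q1, hq1, hnd⟩ := exists_eq_pow_rootMultiplicity_mul_and_not_dvd q hq x0
  have h1 : q1.eval x0 ≠ 0 := by
    intro h
    exact hnd (dvd_iff_isRoot.2 h)
  obtain ⟨ε, hε, h⟩ := norm_eval_near q1 x0 h1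
  refine ⟨ε, ‖q1.eval x0‖, rootMultiplicity x0 q, hε, norm_pos_iff.2 h1, fun x hx => ?_⟩
  conv_lhs => rw [hq1]
  rw [eval_mul, eval_pow, eval_sub, eval_X, eval_C, norm_mul, norm_pow, h x hx, mul_comm]

theorem norm_inf {L : Type*} [NontriviallyNormedField L] [IsUltrametricDist L] (q : L[X])
    (hq : q ≠ 0) :
    ∃ (R c : ℝ) (o : ℕ), 0 < R ∧ 0 < c ∧ ∀ x : L, R < ‖x‖ → ‖q.eval x‖ = c * ‖x‖ ^ o := by
  have h1 : q.reverse.eval 0 ≠ 0 := by
    rw [← coeff_zero_eq_eval_zero, coeff_zero_reverse]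
    exact leadingCoeff_ne_zero.2 hq
  obtain ⟨ε, hε, h⟩ := norm_eval_near q.reverse 0 h1
  refine ⟨ε⁻¹, ‖q.reverse.eval 0‖, q.natDegree, inv_pos.2 hε, norm_pos_iff.2 h1, fun x hx => ?_⟩
  have hxp : 0 < ‖x‖ := lt_trans (inv_pos.2 hε) hx
  have hx0 : x ≠ 0 := norm_pos_iff.1 hxp
  letI : Invertible x := invertibleOfNonzero hx0
  have h2 := eval₂_reverse_mul_pow (RingHom.id L) x q
  rw [invOf_eq_inv] at h2
  simp only [eval₂_id] at h2
  rw [← h2, norm_mul, norm_pow, h x⁻¹ (by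
    rw [sub_zero, norm_inv]
    exact inv_lt_of_inv_lt₀ hε hx)]

theorem tie_inf {L : Type*} [NontriviallyNormedField L] [IsUltrametricDist L] (Q : L[X][Y])
    (hQ : Q.coeff 0 ≠ 0) :
    ∃ (R : ℝ) (F : Finset (ℝ × ℝ)), ∀ x v : L, R < ‖x‖ → evalEval x v Q = 0 →
      v ≠ 0 ∧ ∃ q ∈ F, Real.log ‖v‖ = q.1 * Real.log ‖x‖ + q.2 := by
  classical
  have hall : ∀ j : ℕ, ∃ (R c : ℝ) (o : ℕ), Q.coeff j ≠ 0 → 0 < R ∧ 0 < c ∧
      ∀ x : L, R < ‖x‖ → ‖(Q.coeff j).eval x‖ = c * ‖x‖ ^ o := by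
    intro j
    by_cases hj : Q.coeff j = 0
    · exact ⟨0, 0, 0, fun h => absurd hj h⟩
    · obtain ⟨R, c, o, h⟩ := norm_inf (Q.coeff j) hj
      exact ⟨R, c, o, fun _ => h⟩
  choose R c o hRco using hall
  obtain ⟨F, hF⟩ := tie_gen Q hQ c o
  have hs0 : 0 ∈ Q.support := Polynomial.mem_support_iff.2 hQ
  refine ⟨Q.support.sup' ⟨0, hs0⟩ R, F, fun x v hx hev => ?_⟩
  have hRx : ∀ j ∈ Q.support, R j < ‖x‖ := fun j hj =>
    lt_of_le_of_lt (Finset.le_sup' R hj) hx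
  have hxp : 0 < ‖x‖ := lt_trans (hRco 0 hQ).1 (hRx 0 hs0)
  refine hF x v ‖x‖ hxp (fun j hj => ?_) hev
  have h1 := hRco j (Polynomial.mem_support_iff.1 hj)
  exact ⟨h1.2.1, h1.2.2 x (hRx j hj)⟩

theorem tie_near {L : Type*} [NontriviallyNormedField L] [IsUltrametricDist L] (Q : L[X][Y])
    (hQ : Q.coeff 0 ≠ 0) (x0 : L) :
    ∃ (ε : ℝ) (F : Finset (ℝ × ℝ)), 0 < ε ∧ ∀ x v : L, x ≠ x0 → ‖x - x0‖ < ε →
      evalEval x v Q = 0 → v ≠ 0 ∧ ∃ q ∈ F, Real.log ‖v‖ = q.1 * Real.log ‖x - x0‖ + q.2 := by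
  classical
  have hall : ∀ j : ℕ, ∃ (ε c : ℝ) (o : ℕ), Q.coeff j ≠ 0 → 0 < ε ∧ 0 < c ∧
      ∀ x : L, ‖x - x0‖ < ε → ‖(Q.coeff j).eval x‖ = c * ‖x - x0‖ ^ o := by
    intro j
    by_cases hj : Q.coeff j = 0
    · exact ⟨0, 0, 0, fun h => absurd hj h⟩
    · obtain ⟨R, c, o, h⟩ := norm_near (Q.coeff j) x0 hj
      exact ⟨R, c, o, fun _ => h⟩
  choose R c o hRco using hall
  obtain ⟨F, hF⟩ := tie_gen Q hQ c o
  have hs0 : 0 ∈ Q.support := Polynomial.mem_support_iff.2 hQ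
  have hsn : Q.support.Nonempty := ⟨0, hs0⟩
  refine ⟨Q.support.inf' hsn R, F, ?_, fun x v hne hx hev => ?_⟩
  · apply (Finset.lt_inf'_iff hsn).2
    intro j hj
    exact (hRco j (Polynomial.mem_support_iff.1 hj)).1
  have hRx : ∀ j ∈ Q.support, ‖x - x0‖ < R j := fun j hj =>
    lt_of_lt_of_le hx (Finset.inf'_le R hj)
  have hxp : 0 < ‖x - x0‖ := norm_pos_iff.2 (sub_ne_zero.2 hne)
  refine hF x v ‖x - x0‖ hxp (fun j hj => ?_) hev
  have h1 := hRco j (Polynomial.mem_support_iff.1 hj)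
  exact ⟨h1.2.1, h1.2.2 x (hRx j hj)⟩

end Pool.Agent.Helper581_DML.Wild
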