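import Mathlib
import Pool.Agent.Helper581_DML.WDefs

/-!
Part W6c of the proof (helper581, MP_6ac234_nt): `Wn_lt_one`, `not_sp`, `sp_mono`, `sep`, `special_of_half`: consequences of the dichotomy `Dich`.

PLAIN PROOF. Write `W_i = Wn f g d N1 N2 κ x y i ≥ 0`, `m = q M ≥ 1`, `ξ = ‖x‖ > R ≥ 1`, `Sp i` : `W_i^m ξ^(d^i) ≤ 1`. `Wn_lt_one`: induction. `not_sp`: `¬ Sp i` means `1 < W_i^m ξ^(d^i)`, so `W_i > 0`,
 `W_(i+1) = W_i^q`, and `W_(i+1)^m ξ^(d^(i+1)) = (W_i^m)^q ξ^(d^i d) ≥ (W_i^m ξ^(d^i))^q > 1`, i.e. `¬ Sp (i+1)`; induction on `j`.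
 `sp_mono`: `Sp j` implies `W_j < 1` (as `ξ > 1`), so `W_0 < 1` by `hnj`, and if `¬ Sp i` then `¬ Sp j` by `not_sp`.
 `sep`: if `W_0 ≥ 1` then all `W_i ≥ 1` by `hnj`, and both sides are false (`ξ > 1`, exponents positive: `d ≥ q ≥ 1`). Let `W_0 < 1`, so all `W_i < 1`. If `¬ Sp J`:
 `W_(J+j) = W_J^(q^j)` and `W_(J+j)^m ξ^(d^J q^j) = (W_J^m ξ^(d^J))^(q^j) > 1`. If `Sp J`, induction on `j`: `W_(J+j)^m ξ^(d^J q^j) ≤ 1`. Step: if `¬ Sp (J+j)`: `W_(J+j+1) = W_(J+j)^q`, raise to the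
 power `q`. If `Sp (J+j)`: `W_(J+j+1)^M ξ^(d^(J+j)) ≤ 1`, raise to the power `q`: `W_(J+j+1)^m ξ^(d^(J+j) q) ≤ 1` and `d^(J+j) q ≥ d^J q^(j+1)`.
 `special_of_half`: if `¬ Sp i`, then (by `not_sp`; `W_0 < 1` by `hnj`: `hh` gives some `W_i < 1`) `¬ Sp i1` for `i1 = max i J`, `W_(i1+j) = W_(i1)^(q^j)`, `0 < W_(i1) < 1`, and
 `hh` gives `W_(i1)^(2 m q^j) ξ^(d^i1 d^j) ≤ 1` for all `j`; but `d^j ≥ 2^j q^j`, so `(W_(i1)^(2m) ξ^(2^j))^(q^j) ≤ 1`, `W_(i1)^(2m) ξ^(2^j) ≤ 1` for all `j`, impossible since `W_(i1) > 0`, `ξ > 1`.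
-/

set_option autoImplicit false

namespace Pool.Agent.Helper581_DML.Wild

open Polynomial Filter
open scoped Polynomial.Bivariate


/-- the facts about the sequence of distances that are used -/
structure w6c_AB (W : ℕ → ℝ) (ξ : ℝ) (d q M : ℕ) : Prop where
  nn : ∀ i, 0 ≤ W i
  lt : ∀ i, W i < 1 → W (i + 1) < 1
  eq : ∀ i, W i < 1 → 1 < W i ^ (q * M) * ξ ^ d ^ i → W (i + 1) = W i ^ q
  le : ∀ i, W i < 1 → W i ^ (q * M) * ξ ^ d ^ i ≤ 1 → W (i + 1) ^ M * ξ ^ d ^ i ≤ 1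
  hξ : 1 < ξ
  hM : 0 < M

theorem w6c_of_dich {L : Type*} [NormedField L] (f g : L[X]) (d q N1 N2 : ℕ) (R : ℝ) (M : ℕ)
    (hD : Dich f g d q N1 N2 R M) (κ x y : L) (hκ : ‖κ‖ = 1) (hx : R < ‖x‖) :
    w6c_AB (fun i => Wn f g d N1 N2 κ x y i) ‖x‖ d q M := by
  obtain ⟨hR, hM, h⟩ := hD
  refine ⟨fun i => ?_, fun i hi => ((h κ x y hκ hx i).2 hi).1,
    fun i hi => ((h κ x y hκ hx i).2 hi).2.1, fun i hi => ((h κ x y hκ hx i).2 hi).2.2,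
    lt_of_le_of_lt hR hx, hM⟩
  unfold Wn
  positivity

section abs

variable {W : ℕ → ℝ} {ξ : ℝ} {d q M : ℕ}

theorem w6c_lt (h : w6c_AB W ξ d q M) (h0 : W 0 < 1) (i : ℕ) : W i < 1 := by
  induction i with
  | zero => exact h0
  | succ i ih => exact h.lt i ih

theorem w6c_pos (h : w6c_AB W ξ d q M) (hq : 1 ≤ q) (i : ℕ)
    (hi : 1 < W i ^ (q * M) * ξ ^ d ^ i) : 0 < W i := by
  rcases (h.nn i).lt_or_eq with h1 | h1
  · exact h1
  · exfalso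
    rw [← h1, zero_pow (Nat.mul_pos hq h.hM).ne', zero_mul] at hi
    linarith

theorem w6c_step (h : w6c_AB W ξ d q M) (hq : 1 ≤ q) (hqd : q ≤ d) (i : ℕ) (h1 : W i < 1)
    (hi : 1 < W i ^ (q * M) * ξ ^ d ^ i) :
    1 < W (i + 1) ^ (q * M) * ξ ^ d ^ (i + 1) := by
  have hξ := h.hξ
  have hW := h.nn i
  rw [h.eq i h1 hi]
  have e1 : (W i ^ (q * M) * ξ ^ d ^ i) ^ q ≤ (W i ^ q) ^ (q * M) * ξ ^ d ^ (i + 1) := by
    rw [mul_pow, ← pow_mul, ← pow_mul, ← pow_mul, mul_comm (q * M) q]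
    refine mul_le_mul_of_nonneg_left ?_ (pow_nonneg hW _)
    refine pow_le_pow_right₀ hξ.le ?_
    rw [pow_succ]
    exact Nat.mul_le_mul_left _ hqd
  exact lt_of_lt_of_le (one_lt_pow₀ hi (by omega)) e1

theorem w6c_not (h : w6c_AB W ξ d q M) (hq : 1 ≤ q) (hqd : q ≤ d) (h0 : W 0 < 1) (i : ℕ)
    (hi : 1 < W i ^ (q * M) * ξ ^ d ^ i) (j : ℕ) :
    1 < W (i + j) ^ (q * M) * ξ ^ d ^ (i + j) ∧ W (i + j) = W i ^ q ^ j := by
  induction j with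
  | zero => exact ⟨hi, by simp⟩
  | succ j ih =>
    have h1 := w6c_lt h h0 (i + j)
    refine ⟨w6c_step h hq hqd (i + j) h1 ih.1, ?_⟩
    have h2 := h.eq (i + j) h1 ih.1
    rw [← add_assoc, h2, ih.2, ← pow_mul, pow_succ]

theorem w6c_big (h : w6c_AB W ξ d q M) (i a b : ℕ) (hb : b ≠ 0) (hW : 1 ≤ W i) :
    1 < W i ^ a * ξ ^ b := by
  have h1 : 1 ≤ W i ^ a := one_le_pow₀ hW
  have h2 : 1 < ξ ^ b := one_lt_pow₀ h.hξ hb
  nlinarith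

theorem w6c_mono (h : w6c_AB W ξ d q M) (hq : 1 ≤ q) (hqd : q ≤ d)
    (hnj : (∃ i, W i < 1) → W 0 < 1) (i j : ℕ) (hij : i ≤ j)
    (hj : W j ^ (q * M) * ξ ^ d ^ j ≤ 1) : W i ^ (q * M) * ξ ^ d ^ i ≤ 1 := by
  have hd : d ≠ 0 := by omega
  by_contra hi
  push Not at hi
  have h1 : W j < 1 := by
    by_contra h2
    push Not at h2
    exact absurd hj (not_le.2 (w6c_big h j _ _ (pow_ne_zero _ hd) h2))
  have h0 := hnj ⟨j, h1⟩
  obtain ⟨k, rfl⟩ := Nat.exists_eq_add_of_le hij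
  exact absurd hj (not_le.2 (w6c_not h hq hqd h0 i hi k).1)

theorem w6c_sep (h : w6c_AB W ξ d q M) (hq : 1 ≤ q) (hqd : q ≤ d)
    (hnj : (∃ i, W i < 1) → W 0 < 1) (J j : ℕ) :
    W J ^ (q * M) * ξ ^ d ^ J ≤ 1 ↔ W (J + j) ^ (q * M) * ξ ^ (d ^ J * q ^ j) ≤ 1 := by
  have hd : d ≠ 0 := by omega
  have hq0 : q ≠ 0 := by omega
  have hξ := h.hξ
  by_cases h0 : W 0 < 1
  · constructor
    · intro hJ
      induction j with
      | zero => simpa using hJ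
      | succ j ih =>
        have h1 := w6c_lt h h0 (J + j)
        rw [← add_assoc]
        by_cases h2 : W (J + j) ^ (q * M) * ξ ^ d ^ (J + j) ≤ 1
        · have h3 := h.le (J + j) h1 h2
          have h4 : (W (J + j + 1) ^ M * ξ ^ d ^ (J + j)) ^ q ≤ 1 :=
            pow_le_one₀ (mul_nonneg (pow_nonneg (h.nn _) _) (pow_nonneg (by linarith) _)) h3
          rw [mul_pow, ← pow_mul, ← pow_mul, mul_comm M q] at h4
          refine le_trans (mul_le_mul_of_nonneg_left ?_ (pow_nonneg (h.nn _) _)) h4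
          refine pow_le_pow_right₀ hξ.le ?_
          rw [pow_succ, ← mul_assoc, pow_add]
          exact Nat.mul_le_mul_right _ (Nat.mul_le_mul_left _ (Nat.pow_le_pow_left hqd _))
        · push Not at h2
          rw [h.eq (J + j) h1 h2]
          have h4 : (W (J + j) ^ (q * M) * ξ ^ (d ^ J * q ^ j)) ^ q ≤ 1 :=
            pow_le_one₀ (mul_nonneg (pow_nonneg (h.nn _) _) (pow_nonneg (by linarith) _)) ih
          rw [mul_pow, ← pow_mul, ← pow_mul] at h4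
          have e1 : q * M * q = q * (q * M) := by ring
          have e2 : d ^ J * q ^ j * q = d ^ J * q ^ (j + 1) := by ring
          rw [e1, e2] at h4
          rw [← pow_mul]
          exact h4
    · intro hj
      by_contra hJ
      push Not at hJ
      have h2 := (w6c_not h hq hqd h0 J hJ j).2
      rw [h2] at hj
      have h3 : 1 < (W J ^ (q * M) * ξ ^ d ^ J) ^ q ^ j := one_lt_pow₀ hJ (pow_ne_zero _ hq0)
      rw [mul_pow, ← pow_mul, ← pow_mul] at h3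
      rw [← pow_mul, mul_comm (q ^ j) (q * M)] at hj
      exact absurd hj (not_le.2 h3)
  · have hall : ∀ i, 1 ≤ W i := by
      intro i
      by_contra h2
      push Not at h2
      exact h0 (hnj ⟨i, h2⟩)
    constructor
    · intro h1
      exact absurd h1 (not_le.2 (w6c_big h J _ _ (pow_ne_zero _ hd) (hall J)))
    · intro h1
      exact absurd h1 (not_le.2 (w6c_big h (J + j) _ _
        (mul_ne_zero (pow_ne_zero _ hd) (pow_ne_zero _ hq0)) (hall _)))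

theorem w6c_half (h : w6c_AB W ξ d q M) (hq : 1 ≤ q) (hqd : 2 * q ≤ d)
    (hnj : (∃ i, W i < 1) → W 0 < 1) (J : ℕ)
    (hh : ∀ i, J ≤ i → W i ^ (2 * (q * M)) * ξ ^ d ^ i ≤ 1) (i : ℕ) :
    W i ^ (q * M) * ξ ^ d ^ i ≤ 1 := by
  have hd : d ≠ 0 := by omega
  have hq0 : q ≠ 0 := by omega
  have hξ := h.hξ
  by_contra hi
  push Not at hi
  have h1 : W J < 1 := by
    by_contra h2
    push Not at h2
    exact absurd (hh J le_rfl) (not_le.2 (w6c_big h J _ _ (pow_ne_zero _ hd) h2))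
  have h0 := hnj ⟨J, h1⟩
  have h2 := (w6c_not h hq (by omega) h0 i hi J).1
  have h3 := w6c_pos h hq (i + J) h2
  have key : ∀ j, W (i + J) ^ (2 * (q * M)) * ξ ^ 2 ^ j ≤ 1 := by
    intro j
    have h4 := (w6c_not h hq (by omega) h0 (i + J) h2 j).2
    have h5 := hh (i + J + j) (by omega)
    rw [h4, ← pow_mul, mul_comm (q ^ j) _] at h5
    have h6 : (W (i + J) ^ (2 * (q * M)) * ξ ^ 2 ^ j) ^ q ^ j ≤ 1 := by
      refine le_trans ?_ h5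
      rw [mul_pow, ← pow_mul, ← pow_mul]
      refine mul_le_mul_of_nonneg_left ?_ (pow_nonneg h3.le _)
      refine pow_le_pow_right₀ hξ.le ?_
      calc 2 ^ j * q ^ j = (2 * q) ^ j := (mul_pow _ _ _).symm
        _ ≤ d ^ j := Nat.pow_le_pow_left hqd j
        _ ≤ d ^ (i + J + j) := Nat.pow_le_pow_right (by omega) (by omega)
    by_contra h7
    push Not at h7
    exact absurd h6 (not_le.2 (one_lt_pow₀ h7 (pow_ne_zero _ hq0)))
  have h8 : 0 < W (i + J) ^ (2 * (q * M)) := pow_pos h3 _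
  obtain ⟨j, hj⟩ := pow_unbounded_of_one_lt (1 / W (i + J) ^ (2 * (q * M))) hξ
  have h9 : ξ ^ j ≤ ξ ^ 2 ^ j := pow_le_pow_right₀ hξ.le (Nat.lt_two_pow_self).le
  have h10 := key j
  have h11 : 1 < W (i + J) ^ (2 * (q * M)) * ξ ^ 2 ^ j := by
    rw [div_lt_iff₀ h8] at hj
    calc (1 : ℝ) < ξ ^ j * W (i + J) ^ (2 * (q * M)) := hj
      _ ≤ ξ ^ 2 ^ j * W (i + J) ^ (2 * (q * M)) := mul_le_mul_of_nonneg_right h9 h8.le
      _ = _ := mul_comm _ _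
  linarith

end abs

theorem Wn_lt_one {L : Type*} [NormedField L] (f g : L[X]) (d q N1 N2 : ℕ) (R : ℝ) (M : ℕ)
    (hD : Dich f g d q N1 N2 R M) (κ x y : L) (hκ : ‖κ‖ = 1) (hx : R < ‖x‖)
    (h0 : Wn f g d N1 N2 κ x y 0 < 1) (i : ℕ) : Wn f g d N1 N2 κ x y i < 1 :=
  w6c_lt (w6c_of_dich f g d q N1 N2 R M hD κ x y hκ hx) h0 i

theorem not_sp {L : Type*} [NormedField L] (f g : L[X]) (d q N1 N2 : ℕ) (hq : 1 ≤ q) (hqd : q ≤ d)
    (R : ℝ) (M : ℕ) (hD : Dich f g d q N1 N2 R M) (κ x y : L) (hκ : ‖κ‖ = 1) (hx : R < ‖x‖)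
    (h0 : Wn f g d N1 N2 κ x y 0 < 1) (i : ℕ) (hi : ¬ Sp f g d (q * M) N1 N2 κ x y i) :
    0 < Wn f g d N1 N2 κ x y i ∧ ∀ j, ¬ Sp f g d (q * M) N1 N2 κ x y (i + j) ∧
      Wn f g d N1 N2 κ x y (i + j) = Wn f g d N1 N2 κ x y i ^ q ^ j := by
  have h := w6c_of_dich f g d q N1 N2 R M hD κ x y hκ hx
  have hi' := not_le.1 hi
  exact ⟨w6c_pos h hq i hi', fun j => ⟨not_le.2 (w6c_not h hq hqd h0 i hi' j).1,
    (w6c_not h hq hqd h0 i hi' j).2⟩⟩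

theorem sp_mono {L : Type*} [NormedField L] (f g : L[X]) (d q N1 N2 : ℕ) (hq : 1 ≤ q)
    (hqd : q ≤ d) (R : ℝ) (M : ℕ) (hD : Dich f g d q N1 N2 R M) (κ x y : L) (hκ : ‖κ‖ = 1)
    (hx : R < ‖x‖)
    (hnj : (∃ i, Wn f g d N1 N2 κ x y i < 1) → Wn f g d N1 N2 κ x y 0 < 1) (i j : ℕ) (hij : i ≤ j)
    (hj : Sp f g d (q * M) N1 N2 κ x y j) : Sp f g d (q * M) N1 N2 κ x y i :=
  w6c_mono (w6c_of_dich f g d q N1 N2 R M hD κ x y hκ hx) hq hqd hnj i j hij hj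

theorem sep {L : Type*} [NormedField L] (f g : L[X]) (d q N1 N2 : ℕ) (hq : 1 ≤ q)
    (hqd : q ≤ d) (R : ℝ) (M : ℕ) (hD : Dich f g d q N1 N2 R M) (κ x y : L) (hκ : ‖κ‖ = 1)
    (hx : R < ‖x‖)
    (hnj : (∃ i, Wn f g d N1 N2 κ x y i < 1) → Wn f g d N1 N2 κ x y 0 < 1) (J j : ℕ) :
    Sp f g d (q * M) N1 N2 κ x y J ↔
      Wn f g d N1 N2 κ x y (J + j) ^ (q * M) * ‖x‖ ^ (d ^ J * q ^ j) ≤ 1 :=
  w6c_sep (w6c_of_dich f g d q N1 N2 R M hD κ x y hκ hx) hq hqd hnj J j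

theorem special_of_half {L : Type*} [NormedField L] (f g : L[X]) (d q N1 N2 : ℕ) (hq : 1 ≤ q)
    (hqd : 2 * q ≤ d) (R : ℝ) (M : ℕ) (hD : Dich f g d q N1 N2 R M) (κ x y : L) (hκ : ‖κ‖ = 1)
    (hx : R < ‖x‖)
    (hnj : (∃ i, Wn f g d N1 N2 κ x y i < 1) → Wn f g d N1 N2 κ x y 0 < 1) (J : ℕ)
    (hh : ∀ i, J ≤ i → Wn f g d N1 N2 κ x y i ^ (2 * (q * M)) * ‖x‖ ^ d ^ i ≤ 1) (i : ℕ) :
    Sp f g d (q * M) N1 N2 κ x y i :=
  w6c_half (w6c_of_dich f g d q N1 N2 R M hD κ x y hκ hx) hq hqd hnj J hh i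

end Pool.Agent.Helper581_DML.Wild
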