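import Mathlib
import Pool.Agent.Helper581_DML.WDefs
import Pool.Agent.Helper581_DML.W2
import Pool.Agent.Helper581_DML.W6c

/-!
Part W12 of the proof (helper581, MP_6ac234_nt): `step_B` from `Wn_lt_one`, `not_sp`, `elim`, `tie_inf` (proved in the imported files).

PLAIN PROOF. `B = R0` works. Let `q = p^s ≥ 2`, `n ∈ S`, `‖x n‖ > R0`, and suppose that `Sp i0` fails at `P_n = (x n, y n)`. By `not_sp` `W_(i0+j)(P_n) = w^(q^j)`, `w = W_(i0)(P_n)`, `0 < w < 1` (`Wn_lt_one`). For `l ∈ S`, `l ≥ n + i0`, `l > n`: `x l = f^[l-n] (x n)`, `y l = g^[l-n] (y n)`, and `κ^(d^(l-n)) = κ`, so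
 `W_0(P_l) = W_(l-n)(P_n) = w^(q^(l-n-i0)) > 0`. Let `u = Y^N1 - C(C κ * X^N2) ∈ L[X][Y]`; `W_0(P_l) = ‖u(x l, y l)‖ / ‖x l‖^N2`, so `u(x l, y l) ≠ 0` although `h(x l, y l) = 0`: `¬ h ∣ u`. `elim` gives `Q`, `Q(x l, u(x l, y l)) = 0`, and `tie_inf` gives `R, F`: for `‖x l‖ > R`
 `log ‖u(x l, y l)‖ = q1 log ‖x l‖ + q2`, `(q1,q2) ∈ F`. `log ‖x l‖ = d^(l-n) λ`, `λ = log ‖x n‖ > 0` (`Dich`). So for infinitely many `l ∈ S` with the same `(q1,q2)`: `q^(l-n-i0) log w = (q1 - N2) λ d^(l-n) + q2`. As `d = q d' ≥ 2 q`, dividing by `d^(l-n)` and letting `l → ∞` gives `q1 = N2`; then the left side would be constant, but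
 it tends to `-∞` (`q ≥ 2`, `log w < 0`). Contradiction.
-/

set_option autoImplicit false

namespace Pool.Agent.Helper581_DML.Wild

open Polynomial Filter
open scoped Polynomial.Bivariate


theorem sB_finite (a b c : ℝ) (hc : c < 0) (q d i0 : ℕ) (hq : 2 ≤ q) (hd : 2 * q ≤ d) :
    {k : ℕ | i0 ≤ k ∧ ((q ^ (k - i0) : ℕ) : ℝ) * c = a * ((d ^ k : ℕ) : ℝ) + b}.Finite := by
  by_cases ha : a = 0
  · refine Set.Subsingleton.finite ?_
    rintro k ⟨hk, h1⟩ l ⟨hl, h2⟩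
    rw [ha, zero_mul, zero_add] at h1 h2
    have h3 : ((q ^ (k - i0) : ℕ) : ℝ) = ((q ^ (l - i0) : ℕ) : ℝ) :=
      mul_right_cancel₀ hc.ne (h1.trans h2.symm)
    have h4 : q ^ (k - i0) = q ^ (l - i0) := by exact_mod_cast h3
    have h5 := Nat.pow_right_injective hq h4
    omega
  · obtain ⟨K, hK⟩ := pow_unbounded_of_one_lt ((|b| + |c|) / |a|) (by norm_num : (1 : ℝ) < 2)
    refine (Set.finite_Iic K).subset ?_
    rintro k ⟨hk, h1⟩
    rw [Set.mem_Iic]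
    by_contra hlt
    push Not at hlt
    have ha' : 0 < |a| := abs_pos.2 ha
    have hqr : (1 : ℝ) ≤ (q : ℝ) ^ k := one_le_pow₀ (by exact_mod_cast (by omega : 1 ≤ q))
    have h2 : |a| * ((d ^ k : ℕ) : ℝ) ≤ (|b| + |c|) * (q : ℝ) ^ k := by
      have h3 : a * ((d ^ k : ℕ) : ℝ) = ((q ^ (k - i0) : ℕ) : ℝ) * c - b := by linarith
      have h4 : |a| * ((d ^ k : ℕ) : ℝ) = |((q ^ (k - i0) : ℕ) : ℝ) * c - b| := by
        rw [← h3, abs_mul, abs_of_nonneg (Nat.cast_nonneg (d ^ k) : (0 : ℝ) ≤ ((d ^ k : ℕ) : ℝ))]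
      rw [h4]
      refine (abs_sub _ _).trans ?_
      rw [abs_mul, abs_of_nonneg
        (Nat.cast_nonneg (q ^ (k - i0)) : (0 : ℝ) ≤ ((q ^ (k - i0) : ℕ) : ℝ))]
      have h5 : ((q ^ (k - i0) : ℕ) : ℝ) ≤ (q : ℝ) ^ k := by
        push_cast
        exact pow_le_pow_right₀ (by exact_mod_cast (by omega : 1 ≤ q)) (by omega)
      have h6 := mul_le_mul_of_nonneg_right h5 (abs_nonneg c)
      have h7 := mul_le_mul_of_nonneg_left hqr (abs_nonneg b)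
      nlinarith [h6, h7]
    have h3 : (2 : ℝ) ^ k * (q : ℝ) ^ k ≤ ((d ^ k : ℕ) : ℝ) := by
      rw [← mul_pow]
      push_cast
      exact pow_le_pow_left₀ (by positivity) (by exact_mod_cast hd) k
    have h4 : |a| * ((2 : ℝ) ^ k * (q : ℝ) ^ k) ≤ (|b| + |c|) * (q : ℝ) ^ k :=
      (mul_le_mul_of_nonneg_left h3 ha'.le).trans h2
    have h5 : |a| * (2 : ℝ) ^ k ≤ |b| + |c| := by
      rw [← mul_assoc] at h4
      exact le_of_mul_le_mul_right h4 (by linarith)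
    have h6 : (2 : ℝ) ^ k ≤ (|b| + |c|) / |a| := by
      rw [le_div_iff₀ ha']
      linarith
    have h7 : (2 : ℝ) ^ K ≤ (2 : ℝ) ^ k := pow_le_pow_right₀ (by norm_num) hlt.le
    linarith

theorem sB_comp {L : Type*} [Field L] (Q u : L[X][Y]) (x y : L) :
    evalEval x y (Q.comp u) = evalEval x (evalEval x y u) Q := by
  have h1 : ∀ (P : L[X]) (Q : L[X][Y]), eval x (eval P Q) = evalEval x (eval x P) Q := by
    intro P Q
    have h2 : (evalRingHom x) (eval P Q) = eval ((evalRingHom x) P) (Q.map (evalRingHom x)) := by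
      rw [eval_map, eval₂_at_apply]
    rw [coe_evalRingHom] at h2
    rw [h2, map_evalRingHom_eval]
  rw [evalEval, eval_comp, h1]

theorem sB_orbit {L : Type*} [Field L] (f : L[X]) (x : ℕ → L) (hx : ∀ n, x (n + 1) = f.eval (x n))
    (n k : ℕ) : x (n + k) = (fun z => f.eval z)^[k] (x n) := by
  induction k with
  | zero => rfl
  | succ k ih => rw [Function.iterate_succ_apply', ← ih, ← hx]; rfl

theorem step_B {p : ℕ} [Fact p.Prime] {L : Type*} [NontriviallyNormedField L]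
    [IsUltrametricDist L] [CharP L p] (f g : L[X]) (d s d' : ℕ)
    (hd : d = p ^ s * d') (hs : 1 ≤ s) (hd' : 2 ≤ d') (N1 N2 : ℕ) (hN1 : 0 < N1) (hN2 : 0 < N2)
    (R0 : ℝ) (M : ℕ) (hD : Dich f g d (p ^ s) N1 N2 R0 M) (κ : L) (hκ : ‖κ‖ = 1) (h : L[X][Y])
    (hirr : Irreducible h) (hdeg : 0 < h.natDegree) (x y : ℕ → L)
    (hx : ∀ n, x (n + 1) = f.eval (x n)) (hy : ∀ n, y (n + 1) = g.eval (y n))
    (hxu : ∀ B : ℝ, ∃ n, B < ‖x n‖) (S : Set ℕ) (hS : S.Infinite)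
    (hS1 : ∀ n ∈ S, evalEval (x n) (y n) h = 0 ∧ Wn f g d N1 N2 κ (x n) (y n) 0 < 1)
    (hS2 : ∀ n ∈ S, ∀ m ∈ S, n < m → κ ^ d ^ (m - n) = κ) :
    ∃ B : ℝ, ∀ n ∈ S, B < ‖x n‖ → ∀ i, Sp f g d (p ^ s * M) N1 N2 κ (x n) (y n) i := by
  refine ⟨R0, fun n hn hxn => ?_⟩
  by_contra hcon
  push Not at hcon
  obtain ⟨i0, hi0⟩ := hcon
  have hp : 2 ≤ p := (Fact.out : p.Prime).two_le
  have hq2 : 2 ≤ p ^ s := hp.trans (Nat.le_self_pow (by omega) p)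
  have hdq : 2 * p ^ s ≤ d := by
    rw [hd, mul_comm 2]
    exact Nat.mul_le_mul_left _ hd'
  have hn0 := (hS1 n hn).2
  obtain ⟨hw0, hw⟩ := not_sp f g d (p ^ s) N1 N2 (by omega) (by omega) R0 M hD κ (x n) (y n) hκ hxn
    hn0 i0 hi0
  have hw1 := Wn_lt_one f g d (p ^ s) N1 N2 R0 M hD κ (x n) (y n) hκ hxn hn0 i0
  set w := Wn f g d N1 N2 κ (x n) (y n) i0 with hwdef
  have hlw : Real.log w < 0 := Real.log_neg hw0 hw1
  have hx1 : 1 < ‖x n‖ := lt_of_le_of_lt hD.1 hxn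
  have hlam : 0 < Real.log ‖x n‖ := Real.log_pos hx1
  have hnorm : ∀ k, ‖x (n + k)‖ = ‖x n‖ ^ d ^ k := fun k => by
    rw [sB_orbit f x hx]
    exact (hD.2.2 κ (x n) (y n) hκ hxn k).1
  -- the distance along the orbit
  have hW : ∀ k, i0 ≤ k → 0 < k → n + k ∈ S →
      ‖y (n + k) ^ N1 - κ * x (n + k) ^ N2‖ / ‖x (n + k)‖ ^ N2 = w ^ (p ^ s) ^ (k - i0) := by
    intro k hk hk0 hkS
    have h1 := (hw (k - i0)).2
    rw [Nat.add_sub_cancel' hk] at h1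
    rw [← h1, Wn, ← sB_orbit f x hx, ← sB_orbit g y hy]
    have h2 := hS2 n hn (n + k) hkS (by omega)
    rw [Nat.add_sub_cancel_left] at h2
    rw [h2]
  set u : L[X][Y] := X ^ N1 - C (C κ * X ^ N2) with hu
  have hev : ∀ a b : L, evalEval a b u = b ^ N1 - κ * a ^ N2 := by
    intro a b
    simp [hu, evalEval]
  have hne : ∀ k, i0 ≤ k → 0 < k → n + k ∈ S → y (n + k) ^ N1 - κ * x (n + k) ^ N2 ≠ 0 := by
    intro k hk hk0 hkS h0
    have h1 := hW k hk hk0 hkS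
    rw [h0, norm_zero, zero_div] at h1
    exact (pow_pos hw0 ((p ^ s) ^ (k - i0))).ne h1
  have hdvd : ¬ h ∣ u := by
    intro hdv
    obtain ⟨l, hl, hl2⟩ := hS.exists_gt (n + i0)
    obtain ⟨k, rfl⟩ : ∃ k, l = n + k := ⟨l - n, by omega⟩
    refine hne k (by omega) (by omega) hl ?_
    rw [← hev]
    obtain ⟨v, hv⟩ := hdv
    rw [hv, evalEval_mul, (hS1 _ hl).1, zero_mul]
  obtain ⟨Q, hQ0, hQ⟩ := elim h u hirr hdeg hdvd
  obtain ⟨R, F, hF⟩ := tie_inf Q hQ0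
  obtain ⟨K2, hK2⟩ := pow_unbounded_of_one_lt R hx1
  have hfin : (⋃ q ∈ F, {k : ℕ | i0 ≤ k ∧ (((p ^ s) ^ (k - i0) : ℕ) : ℝ) * Real.log w =
      (q.1 - N2) * Real.log ‖x n‖ * ((d ^ k : ℕ) : ℝ) + q.2}).Finite :=
    F.finite_toSet.biUnion fun q _ => sB_finite _ _ _ hlw _ _ _ hq2 hdq
  obtain ⟨K1, hK1⟩ := hfin.bddAbove
  obtain ⟨l, hl, hl2⟩ := hS.exists_gt (n + i0 + K1 + K2)
  obtain ⟨k, rfl⟩ : ∃ k, l = n + k := ⟨l - n, by omega⟩
  have hki : i0 ≤ k := by omega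
  have hk0 : 0 < k := by omega
  have hRx : R < ‖x (n + k)‖ := by
    rw [hnorm]
    refine lt_of_lt_of_le hK2 (pow_le_pow_right₀ hx1.le ?_)
    have : k < d ^ k := Nat.lt_pow_self (by omega)
    omega
  have hQv : evalEval (x (n + k)) (y (n + k) ^ N1 - κ * x (n + k) ^ N2) Q = 0 := by
    rw [← hev, ← sB_comp]
    obtain ⟨v, hv⟩ := hQ
    rw [hv, evalEval_mul, (hS1 _ hl).1, zero_mul]
  obtain ⟨hv0, q, hqF, hq⟩ := hF _ _ hRx hQv
  have hkU : k ≤ K1 := by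
    refine hK1 ?_
    refine Set.mem_biUnion hqF ⟨hki, ?_⟩
    have h1 := hW k hki hk0 hl
    have hxpos : 0 < ‖x (n + k)‖ := by
      rw [hnorm]
      exact pow_pos (by linarith) _
    have h2 := congrArg Real.log h1
    rw [Real.log_div (norm_ne_zero_iff.2 hv0) (pow_pos hxpos _).ne', hq, Real.log_pow, Real.log_pow,
      hnorm, Real.log_pow] at h2
    rw [← h2]
    ring
  omega

end Pool.Agent.Helper581_DML.Wild
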