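import Mathlib
import Pool.Agent.Helper581_DML.WDefs

/-!
Part W3 of the proof (helper581, MP_6ac234_nt): `charpoly_family`: the values of a polynomial `u(x, y)` at the roots `y` of `h(x, ·)` are the roots of a polynomial
whose coefficients are polynomials in `x`.

PLAIN PROOF. Let `D = h.natDegree`, `ℓ = h.leadingCoeff`. One way: the resultant. Over the ring `B = L[X][U]` let `h` (coefficients in `L[X]`) and
 `U - u` be polynomials in `Y`; with fixed formal degrees `D` and `m = u.natDegree` (`m ≥ 1`, or any bound) the resultant `Res_Y(h, U - u) ∈ L[X][U]` is a determinant,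
 so it commutes with `X ↦ x` (as ring homomorphism), and for a polynomial that splits, `h(x, ·) = ℓ(x) ∏ (Y - y_j)`, it is
 `ℓ(x)^m ∏_j (U - u(x, y_j))` (`Polynomial.resultant`, lemmas in `Mathlib.RingTheory.Polynomial.Resultant.Basic`). Another way: the companion matrix `A` of `h/ℓ` has
 entries in `L[X][1/ℓ]`; `ℓ^N • (charpoly of u(X, A))` has coefficients in `L[X]` for a large `N`, and at `x` with `ℓ(x) ≠ 0` the matrix `A(x)` has
 eigenvalues `y_j`, so `u(x, A(x))` has the characteristic polynomial `∏ (U - u(x, y_j))` (triangularize; or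
 `Matrix.IsHermitian`-free statements such as `Matrix.charpoly` of `aeval`). A third way: symmetric functions: `MvPolynomial` fundamental theorem:
 the coefficients of `∏_j (U - u(X, Y_j))` are symmetric polynomials in `Y_1, …, Y_D` over `L[X]`, so polynomials in the elementary symmetric polynomials, which
 at the roots are `± h.coeff (D-i)/ℓ`; multiply by a power of `ℓ`.
-/

set_option autoImplicit false

namespace Pool.Agent.Helper581_DML.Wild

open Polynomial
open scoped Polynomial.Bivariate

theorem w3_spec {L : Type*} [Field L] [IsAlgClosed L] (h u : L[X][Y]) (x : L)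
    (hx : h.leadingCoeff.eval x ≠ 0) :
    (resultant (h.map (C : L[X] →+* L[X][X])) (C (X : L[X][X]) - u.map (C : L[X] →+* L[X][X]))
        h.natDegree u.natDegree).map (evalRingHom x) =
      C (h.leadingCoeff.eval x ^ u.natDegree) *
        (((h.map (evalRingHom x)).roots.map (fun y => X - C (evalEval x y u))).prod) := by
  set φ : L[X] →+* L := evalRingHom x with hφ
  have hlc : φ h.leadingCoeff ≠ 0 := hx
  have hdeg : (h.map φ).natDegree = h.natDegree := natDegree_map_of_leadingCoeff_ne_zero φ hlc
  have hlead : (h.map φ).leadingCoeff = h.leadingCoeff.eval x :=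
    leadingCoeff_map_of_leadingCoeff_ne_zero φ hlc
  have hs : (h.map φ).Splits := IsAlgClosed.splits _
  have e1 : ∀ p : L[X][Y], (p.map (C : L[X] →+* L[X][X])).map (mapRingHom φ) =
      (p.map φ).map (C : L →+* L[X]) := by
    intro p
    rw [Polynomial.map_map, Polynomial.map_map]
    congr 1
    ext a <;> simp
  have e2 : (C (X : L[X][X]) - u.map (C : L[X] →+* L[X][X])).map (mapRingHom φ) =
      C (X : L[X]) - (u.map φ).map (C : L →+* L[X]) := by
    rw [Polynomial.map_sub, e1, map_C, coe_mapRingHom, map_X]
  have e3 : (resultant (h.map (C : L[X] →+* L[X][X]))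
      (C (X : L[X][X]) - u.map (C : L[X] →+* L[X][X])) h.natDegree u.natDegree).map φ =
      resultant ((h.map φ).map (C : L →+* L[X])) (C (X : L[X]) - (u.map φ).map (C : L →+* L[X]))
        h.natDegree u.natDegree := by
    have := resultant_map_map (h.map (C : L[X] →+* L[X][X]))
      (C (X : L[X][X]) - u.map (C : L[X] →+* L[X][X])) h.natDegree u.natDegree (mapRingHom φ)
    rw [e1, e2, coe_mapRingHom] at this
    exact this.symm
  rw [e3]
  have hdeg2 : ((h.map φ).map (C : L →+* L[X])).natDegree = h.natDegree := by
    rw [natDegree_map_eq_of_injective C_injective, hdeg]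
  have hn : (C (X : L[X]) - (u.map φ).map (C : L →+* L[X])).natDegree ≤ u.natDegree := by
    refine (natDegree_sub_le _ _).trans (max_le ?_ ?_)
    · rw [natDegree_C]; exact Nat.zero_le _
    · exact natDegree_map_le.trans natDegree_map_le
  have hs2 : ((h.map φ).map (C : L →+* L[X])).Splits := hs.map _
  have h1 := resultant_eq_prod_eval ((h.map φ).map (C : L →+* L[X]))
    (C (X : L[X]) - (u.map φ).map (C : L →+* L[X])) u.natDegree hn hs2
  rw [hdeg2] at h1
  rw [h1, leadingCoeff_map_of_injective C_injective, hlead, ← C_pow]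
  congr 1
  have hroots : ((h.map φ).map (C : L →+* L[X])).roots = (h.map φ).roots.map C := by
    refine (roots_map_of_injective_of_card_eq_natDegree C_injective ?_).symm
    exact hs.natDegree_eq_card_roots.symm
  rw [hroots, Multiset.map_map]
  congr 1
  refine Multiset.map_congr rfl fun y _ => ?_
  rw [Function.comp_apply, eval_sub, eval_C, eval_map, eval₂_at_apply, eval_map, hφ,
    eval₂_evalRingHom]

theorem charpoly_family {L : Type*} [Field L] [IsAlgClosed L] (h u : L[X][Y])
    (hdeg : 0 < h.natDegree) :
    ∃ G : L[X][Y], G ≠ 0 ∧ ∀ x : L, h.leadingCoeff.eval x ≠ 0 → ∃ c : L, c ≠ 0 ∧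
      G.map (evalRingHom x) =
        C c * (((h.map (evalRingHom x)).roots.map (fun y => X - C (evalEval x y u))).prod) := by
  refine ⟨resultant (h.map (C : L[X] →+* L[X][X])) (C (X : L[X][X]) - u.map (C : L[X] →+* L[X][X]))
        h.natDegree u.natDegree, ?_, ?_⟩
  · have h0 : h.leadingCoeff ≠ 0 := by
      rw [Ne, leadingCoeff_eq_zero]
      rintro rfl
      simp at hdeg
    have : Infinite L := IsAlgClosed.instInfinite
    obtain ⟨x, hx⟩ : ∃ x : L, h.leadingCoeff.eval x ≠ 0 := by
      by_contra hcon
      push Not at hcon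
      exact h0 (Polynomial.funext fun r => by rw [hcon r, eval_zero])
    intro hG
    have h1 := w3_spec h u x hx
    rw [hG, Polynomial.map_zero] at h1
    have h2 : C (h.leadingCoeff.eval x ^ u.natDegree) ≠ (0 : L[X]) := by
      rw [Ne, C_eq_zero]
      exact pow_ne_zero _ hx
    have h3 : (((h.map (evalRingHom x)).roots.map
        (fun y => X - C (evalEval x y u))).prod) ≠ (0 : L[X]) := by
      apply Multiset.prod_ne_zero
      rw [Multiset.mem_map]
      rintro ⟨y, -, hy⟩
      exact X_sub_C_ne_zero _ hy
    exact mul_ne_zero h2 h3 h1.symm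
  · intro x hx
    exact ⟨_, pow_ne_zero _ hx, w3_spec h u x hx⟩

end Pool.Agent.Helper581_DML.Wild

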