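import Mathlib
import Pool.Agent.Helper581_DML.WDefs

/-!
Part W4 of the proof (helper581, MP_6ac234_nt): `root_count`: Newton polygon facts about the roots of norm at most `T` of a polynomial `c ∏_{U ∈ S} (X - U)` over
an ultrametric field. 
PLAIN PROOF. Let `A = ∏ (X - U)` over the `U ∈ S` with `‖U‖ ≤ T`, monic of degree `b`, and `B = ∏ (X - U)` over the others. If `0 < τ ≤ T` and all the small `U` have
 `‖U‖ ≤ τ`, then `‖A.coeff l‖ ≤ τ^(b-l)` for `l ≤ b` (induction on the number of factors, ultrametric), `A.coeff b = 1`. For `B`: `β_0 = B.coeff 0` has norm `∏ ‖U‖ > 0` and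
 `‖B.coeff j‖ T^j < ‖β_0‖` for `j ≥ 1` (induction on the number of factors: each factor is `-U (1 - X/U)` with `‖1/U‖ T < 1`).
 `a_l = c ∑_{j} A.coeff (l-j) B.coeff j`.
 (1) `l = b`: the term `j = 0` has norm `‖c β_0‖`, the terms `j ≥ 1`: `‖A.coeff (b-j)‖ ‖B.coeff j‖ ≤ T^j ‖B.coeff j‖ < ‖β_0‖`. So `‖a_b‖ = ‖c β_0‖ > 0`.
 (2) `l > b`: only `j ≥ l - b ≥ 1` contribute, `‖A.coeff (l-j)‖ ‖B.coeff j‖ T^l ≤ T^(b-l+j) ‖B.coeff j‖ T^l = T^b T^j ‖B.coeff j‖ < T^b ‖β_0‖`.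
 (3) `a_(b-l)`, `l ≤ b`: `‖A.coeff (b-l-j)‖ ‖B.coeff j‖ ≤ τ^(l+j) ‖B.coeff j‖ ≤ τ^l ‖β_0‖`.
 (4) Let `U ∈ S`, `‖U‖ ≤ T`, `U ≠ 0`: `∑ a_l U^l = 0`. By (2) `‖a_l U^l‖ < ‖a_b U^b‖` for `l > b` (`‖U‖^(l-b) ≤ T^(l-b)`). If also `‖a_l U^l‖ < ‖a_b U^b‖` for all `l < b` the sum
 would have norm `‖a_b U^b‖ ≠ 0`. So some `l' = b - l < b` has `‖a_(b-l)‖ ‖U‖^(b-l) ≥ ‖a_b‖ ‖U‖^b`.
-/

set_option autoImplicit false

namespace Pool.Agent.Helper581_DML.Wild

open Polynomial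

theorem w4_norm_sub {L : Type*} [NormedField L] [IsUltrametricDist L] (x y : L) :
    ‖x - y‖ ≤ max ‖x‖ ‖y‖ := by
  have h := IsUltrametricDist.norm_add_le_max x (-y)
  rwa [norm_neg, ← sub_eq_add_neg] at h

theorem w4_norm_dom {L ι : Type*} [NormedField L] [IsUltrametricDist L] [DecidableEq ι]
    (s : Finset ι) (f : ι → L) (i0 : ι) (hi0 : i0 ∈ s) (h : ∀ i ∈ s, i ≠ i0 → ‖f i‖ < ‖f i0‖) :
    ‖∑ i ∈ s, f i‖ = ‖f i0‖ := by
  rw [← Finset.add_sum_erase s f hi0]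
  rcases (s.erase i0).eq_empty_or_nonempty with he | hne
  · rw [he, Finset.sum_empty, add_zero]
  · obtain ⟨i, hi, h1⟩ := IsUltrametricDist.exists_norm_finsetSum_le_of_nonempty hne f
    have h2 := h i (Finset.mem_of_mem_erase hi) (Finset.ne_of_mem_erase hi)
    have h3 : ‖∑ j ∈ s.erase i0, f j‖ < ‖f i0‖ := lt_of_le_of_lt h1 h2
    rw [IsUltrametricDist.norm_add_eq_max_of_norm_ne_norm h3.ne', max_eq_left h3.le]

theorem w4_small {L : Type*} [NormedField L] [IsUltrametricDist L] (τ : ℝ) (hτ : 0 < τ)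
    (S : Multiset L) (hS : ∀ u ∈ S, ‖u‖ ≤ τ) (l : ℕ) :
    ‖((S.map (fun u => X - C u)).prod).coeff l‖ * τ ^ l ≤ τ ^ (Multiset.card S) := by
  induction S using Multiset.induction_on generalizing l with
  | empty =>
    rw [Multiset.map_zero, Multiset.prod_zero, Multiset.card_zero, coeff_one]
    split_ifs with h
    · subst h
      simp
    · simp
  | cons u S ih =>
    have hu : ‖u‖ ≤ τ := hS u (Multiset.mem_cons_self u S)
    have ih' := ih (fun v hv => hS v (Multiset.mem_cons_of_mem hv))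
    rw [Multiset.map_cons, Multiset.prod_cons, Multiset.card_cons]
    set A := (S.map (fun u => X - C u)).prod with hA
    cases l with
    | zero =>
      have h0 := ih' 0
      rw [pow_zero, mul_one] at h0 ⊢
      rw [sub_mul, coeff_sub, coeff_X_mul_zero, coeff_C_mul, zero_sub, norm_neg, norm_mul,
        pow_succ, mul_comm]
      exact mul_le_mul h0 hu (norm_nonneg _) (pow_nonneg hτ.le _)
    | succ l =>
      rw [sub_mul, coeff_sub, coeff_X_mul, coeff_C_mul]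
      have h1 := w4_norm_sub (A.coeff l) (u * A.coeff (l + 1))
      have hp : (0:ℝ) ≤ τ ^ (l + 1) := pow_nonneg hτ.le _
      have h2 : ‖A.coeff l‖ * τ ^ (l + 1) ≤ τ ^ (Multiset.card S + 1) := by
        rw [pow_succ, pow_succ, ← mul_assoc]
        exact mul_le_mul_of_nonneg_right (ih' l) hτ.le
      have h3 : ‖u * A.coeff (l + 1)‖ * τ ^ (l + 1) ≤ τ ^ (Multiset.card S + 1) := by
        rw [norm_mul, pow_succ τ (Multiset.card S), mul_assoc, mul_comm]
        exact mul_le_mul (ih' (l + 1)) hu (norm_nonneg _) (pow_nonneg hτ.le _)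
      rcases le_max_iff.1 h1 with h4 | h4
      · exact le_trans (mul_le_mul_of_nonneg_right h4 hp) h2
      · exact le_trans (mul_le_mul_of_nonneg_right h4 hp) h3

theorem w4_big {L : Type*} [NormedField L] [IsUltrametricDist L] (T : ℝ) (hT : 0 < T)
    (S : Multiset L) (hS : ∀ u ∈ S, T < ‖u‖) :
    0 < ‖((S.map (fun u => X - C u)).prod).coeff 0‖ ∧
    ∀ j, 1 ≤ j → ‖((S.map (fun u => X - C u)).prod).coeff j‖ * T ^ j <
      ‖((S.map (fun u => X - C u)).prod).coeff 0‖ := by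
  induction S using Multiset.induction_on with
  | empty =>
    rw [Multiset.map_zero, Multiset.prod_zero]
    refine ⟨by simp, ?_⟩
    intro j hj
    rw [coeff_one, if_neg (by omega)]
    simp
  | cons u S ih =>
    have hu : T < ‖u‖ := hS u (Multiset.mem_cons_self u S)
    obtain ⟨h0, hj⟩ := ih (fun v hv => hS v (Multiset.mem_cons_of_mem hv))
    rw [Multiset.map_cons, Multiset.prod_cons]
    set B := (S.map (fun u => X - C u)).prod with hB
    have hu0 : 0 < ‖u‖ := lt_trans hT hu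
    have e0 : ‖((X - C u) * B).coeff 0‖ = ‖u‖ * ‖B.coeff 0‖ := by
      rw [sub_mul, coeff_sub, coeff_X_mul_zero, coeff_C_mul, zero_sub, norm_neg, norm_mul]
    rw [e0]
    refine ⟨mul_pos hu0 h0, ?_⟩
    intro j hj1
    obtain ⟨k, rfl⟩ : ∃ k, j = k + 1 := ⟨j - 1, by omega⟩
    rw [sub_mul, coeff_sub, coeff_X_mul, coeff_C_mul]
    have h1 := w4_norm_sub (B.coeff k) (u * B.coeff (k + 1))
    have hp : (0:ℝ) ≤ T ^ (k + 1) := pow_nonneg hT.le _
    have h2 : ‖B.coeff k‖ * T ^ (k + 1) < ‖u‖ * ‖B.coeff 0‖ := by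
      have h3 : ‖B.coeff k‖ * T ^ k ≤ ‖B.coeff 0‖ := by
        rcases Nat.eq_zero_or_pos k with rfl | hk
        · simp
        · exact (hj k hk).le
      calc ‖B.coeff k‖ * T ^ (k + 1) = (‖B.coeff k‖ * T ^ k) * T := by ring
        _ ≤ ‖B.coeff 0‖ * T := mul_le_mul_of_nonneg_right h3 hT.le
        _ < ‖B.coeff 0‖ * ‖u‖ := mul_lt_mul_of_pos_left hu h0
        _ = ‖u‖ * ‖B.coeff 0‖ := mul_comm _ _
    have h3 : ‖u * B.coeff (k + 1)‖ * T ^ (k + 1) < ‖u‖ * ‖B.coeff 0‖ := by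
      rw [norm_mul, mul_assoc]
      exact mul_lt_mul_of_pos_left (hj (k + 1) (by omega)) hu0
    rcases le_max_iff.1 h1 with h4 | h4
    · exact lt_of_le_of_lt (mul_le_mul_of_nonneg_right h4 hp) h2
    · exact lt_of_le_of_lt (mul_le_mul_of_nonneg_right h4 hp) h3

theorem root_count {L : Type*} [NormedField L] [IsUltrametricDist L] (S : Multiset L) (c : L)
    (hc : c ≠ 0) (P : L[X]) (hP : P = C c * (S.map (fun u => X - C u)).prod) (T : ℝ) (hT : 0 < T)
    (b : ℕ) (hb : b = S.countP (fun u => ‖u‖ ≤ T)) :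
    P.coeff b ≠ 0 ∧ (∀ l, ‖P.coeff l‖ * T ^ l ≤ ‖P.coeff b‖ * T ^ b) ∧
      (∀ l, b < l → ‖P.coeff l‖ * T ^ l < ‖P.coeff b‖ * T ^ b) ∧
      (∀ τ : ℝ, 0 < τ → τ ≤ T → (∀ u ∈ S, ‖u‖ ≤ T → ‖u‖ ≤ τ) →
        ∀ l ≤ b, ‖P.coeff (b - l)‖ ≤ ‖P.coeff b‖ * τ ^ l) ∧
      (∀ u ∈ S, ‖u‖ ≤ T → u ≠ 0 →
        ∃ l, 1 ≤ l ∧ l ≤ b ∧ ‖P.coeff b‖ * ‖u‖ ^ l ≤ ‖P.coeff (b - l)‖) := by
  classical
  set S1 := S.filter (fun u => ‖u‖ ≤ T) with hS1
  set S2 := S.filter (fun u => ¬ ‖u‖ ≤ T) with hS2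
  have hb' : b = Multiset.card S1 := by rw [hb, Multiset.countP_eq_card_filter]
  set A := (S1.map (fun u => X - C u)).prod with hA
  set B := (S2.map (fun u => X - C u)).prod with hB
  have hAB : P = C c * (A * B) := by
    rw [hP, hA, hB, ← Multiset.prod_add, ← Multiset.map_add, Multiset.filter_add_not]
  have hAdeg : A.natDegree = b := by rw [hA, natDegree_multiset_prod_X_sub_C_eq_card, hb']
  have hAmon : A.Monic := monic_multiset_prod_of_monic _ _ (fun a _ => monic_X_sub_C a)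
  have hAb : A.coeff b = 1 := by rw [← hAdeg]; exact hAmon.coeff_natDegree
  have hA0 : ∀ l, b < l → A.coeff l = 0 := fun l hl =>
    coeff_eq_zero_of_natDegree_lt (by rw [hAdeg]; exact hl)
  have hS1T : ∀ u ∈ S1, ‖u‖ ≤ T := fun u hu => (Multiset.mem_filter.1 hu).2
  have hS2T : ∀ u ∈ S2, T < ‖u‖ := fun u hu => not_le.1 (Multiset.mem_filter.1 hu).2
  have hAT : ∀ l, ‖A.coeff l‖ * T ^ l ≤ T ^ b := by
    intro l
    rw [hb']
    exact w4_small T hT S1 hS1T l
  obtain ⟨hB0, hBj⟩ := w4_big T hT S2 hS2T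
  rw [← hB] at hB0 hBj
  set β := ‖B.coeff 0‖ with hβ
  have hBj' : ∀ j, ‖B.coeff j‖ * T ^ j ≤ β := by
    intro j
    rcases Nat.eq_zero_or_pos j with rfl | hj
    · rw [pow_zero, mul_one]
    · exact (hBj j hj).le
  have hc0 : 0 < ‖c‖ := norm_pos_iff.2 hc
  -- the terms
  have hterm : ∀ i j, 1 ≤ j → ‖A.coeff i * B.coeff j‖ * T ^ (i + j) < T ^ b * β := by
    intro i j hj
    have e : ‖A.coeff i * B.coeff j‖ * T ^ (i + j) =
        (‖A.coeff i‖ * T ^ i) * (‖B.coeff j‖ * T ^ j) := by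
      rw [norm_mul, pow_add]; ring
    rw [e]
    calc (‖A.coeff i‖ * T ^ i) * (‖B.coeff j‖ * T ^ j)
        ≤ T ^ b * (‖B.coeff j‖ * T ^ j) := mul_le_mul_of_nonneg_right (hAT i)
          (mul_nonneg (norm_nonneg _) (pow_nonneg hT.le _))
      _ < T ^ b * β := mul_lt_mul_of_pos_left (hBj j hj) (pow_pos hT _)
  -- (1)
  have h1 : ‖P.coeff b‖ = ‖c‖ * β := by
    rw [hAB, coeff_C_mul, norm_mul, coeff_mul]
    congr 1
    have e : ‖A.coeff (b, 0).1 * B.coeff (b, 0).2‖ = β := by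
      show ‖A.coeff b * B.coeff 0‖ = β
      rw [hAb, one_mul]
    rw [w4_norm_dom (Finset.HasAntidiagonal.antidiagonal b) (fun x => A.coeff x.1 * B.coeff x.2) (b, 0)
      (by simp)]
    · exact e
    · intro x hx hne
      rw [Finset.HasAntidiagonal.mem_antidiagonal] at hx
      have hx2 : 1 ≤ x.2 := by
        by_contra h
        apply hne
        ext
        · dsimp only; omega
        · dsimp only; omega
      have h2 := hterm x.1 x.2 hx2
      rw [hx, mul_comm (T ^ b) β] at h2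
      rw [e]
      exact lt_of_mul_lt_mul_right h2 (pow_nonneg hT.le _)
  have hPb : 0 < ‖P.coeff b‖ := by rw [h1]; exact mul_pos hc0 hB0
  -- (2)
  have h2 : ∀ l, b < l → ‖P.coeff l‖ * T ^ l < ‖P.coeff b‖ * T ^ b := by
    intro l hl
    rw [h1, hAB, coeff_C_mul, norm_mul, coeff_mul, mul_assoc, mul_assoc]
    refine mul_lt_mul_of_pos_left ?_ hc0
    obtain ⟨x, hx, hle⟩ := IsUltrametricDist.exists_norm_finsetSum_le_of_nonempty
      (t := Finset.HasAntidiagonal.antidiagonal l) ⟨(l, 0), by simp⟩ (fun x => A.coeff x.1 * B.coeff x.2)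
    rw [Finset.HasAntidiagonal.mem_antidiagonal] at hx
    refine lt_of_le_of_lt (mul_le_mul_of_nonneg_right hle (pow_nonneg hT.le _)) ?_
    rcases Nat.eq_zero_or_pos x.2 with h0 | h0
    · have h3 : A.coeff x.1 = 0 := hA0 x.1 (by omega)
      rw [h3, zero_mul, norm_zero, zero_mul]
      exact mul_pos hB0 (pow_pos hT _)
    · have h3 := hterm x.1 x.2 h0
      rw [hx, mul_comm (T ^ b) β] at h3
      exact h3
  -- (3)
  have h3 : ∀ τ : ℝ, 0 < τ → τ ≤ T → (∀ u ∈ S, ‖u‖ ≤ T → ‖u‖ ≤ τ) →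
        ∀ l ≤ b, ‖P.coeff (b - l)‖ ≤ ‖P.coeff b‖ * τ ^ l := by
    intro τ hτ hτT hSτ l hl
    have hAτ : ∀ i, ‖A.coeff i‖ * τ ^ i ≤ τ ^ b := by
      intro i
      rw [hb']
      refine w4_small τ hτ S1 ?_ i
      intro u hu
      rw [hS1, Multiset.mem_filter] at hu
      exact hSτ u hu.1 hu.2
    rw [h1, hAB, coeff_C_mul, norm_mul, coeff_mul, mul_assoc]
    refine mul_le_mul_of_nonneg_left ?_ hc0.le
    obtain ⟨x, hx, hle⟩ := IsUltrametricDist.exists_norm_finsetSum_le_of_nonempty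
      (t := Finset.HasAntidiagonal.antidiagonal (b - l)) ⟨(b - l, 0), by simp⟩
      (fun x => A.coeff x.1 * B.coeff x.2)
    rw [Finset.HasAntidiagonal.mem_antidiagonal] at hx
    refine le_trans hle ?_
    rw [norm_mul]
    have h4 : ‖A.coeff x.1‖ ≤ τ ^ x.2 * τ ^ l := by
      have h5 := hAτ x.1
      have e : b = (x.2 + l) + x.1 := by omega
      have e2 : τ ^ b = (τ ^ x.2 * τ ^ l) * τ ^ x.1 := by rw [← pow_add, ← pow_add, ← e]
      rw [e2] at h5
      exact le_of_mul_le_mul_right h5 (pow_pos hτ _)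
    calc ‖A.coeff x.1‖ * ‖B.coeff x.2‖ ≤ (τ ^ x.2 * τ ^ l) * ‖B.coeff x.2‖ :=
          mul_le_mul_of_nonneg_right h4 (norm_nonneg _)
      _ = (‖B.coeff x.2‖ * τ ^ x.2) * τ ^ l := by ring
      _ ≤ (‖B.coeff x.2‖ * T ^ x.2) * τ ^ l := by
          refine mul_le_mul_of_nonneg_right ?_ (pow_nonneg hτ.le _)
          exact mul_le_mul_of_nonneg_left (pow_le_pow_left₀ hτ.le hτT _) (norm_nonneg _)
      _ ≤ β * τ ^ l := mul_le_mul_of_nonneg_right (hBj' x.2) (pow_nonneg hτ.le _)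
  refine ⟨norm_pos_iff.1 hPb, ?_, h2, h3, ?_⟩
  · intro l
    rcases Nat.lt_or_ge b l with hl | hl
    · exact (h2 l hl).le
    · have h4 := h3 T hT le_rfl (fun u _ hu => hu) (b - l) (by omega)
      rw [Nat.sub_sub_self hl] at h4
      calc ‖P.coeff l‖ * T ^ l ≤ (‖P.coeff b‖ * T ^ (b - l)) * T ^ l :=
            mul_le_mul_of_nonneg_right h4 (pow_nonneg hT.le _)
        _ = ‖P.coeff b‖ * T ^ b := by rw [mul_assoc, ← pow_add, Nat.sub_add_cancel hl]
  · -- (4)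
    intro u hu huT hu0
    by_contra hcon
    push Not at hcon
    have hun : 0 < ‖u‖ := norm_pos_iff.2 hu0
    have hroot : P.eval u = 0 := by
      have hdvd : (X - C u) ∣ P := by
        rw [hP]
        refine Dvd.dvd.mul_left ?_ _
        exact Multiset.dvd_prod (Multiset.mem_map_of_mem (fun u => X - C u) hu)
      exact dvd_iff_isRoot.1 hdvd
    rw [eval_eq_sum_range] at hroot
    have hbn : b ∈ Finset.range (P.natDegree + 1) := by
      rw [Finset.mem_range, Nat.lt_succ_iff]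
      exact le_natDegree_of_ne_zero (norm_pos_iff.1 hPb)
    have hdom := w4_norm_dom (Finset.range (P.natDegree + 1)) (fun i => P.coeff i * u ^ i) b hbn
      (by
        intro i _ hib
        rw [norm_mul, norm_mul, norm_pow, norm_pow]
        rcases lt_or_gt_of_ne hib with hlt | hgt
        · have h4 := hcon (b - i) (by omega) (by omega)
          rw [Nat.sub_sub_self hlt.le] at h4
          calc ‖P.coeff i‖ * ‖u‖ ^ i < (‖P.coeff b‖ * ‖u‖ ^ (b - i)) * ‖u‖ ^ i :=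
                mul_lt_mul_of_pos_right h4 (pow_pos hun _)
            _ = ‖P.coeff b‖ * ‖u‖ ^ b := by rw [mul_assoc, ← pow_add, Nat.sub_add_cancel hlt.le]
        · have h4 := h2 i hgt
          have e : i = (i - b) + b := by omega
          have h5 : ‖P.coeff i‖ * T ^ (i - b) < ‖P.coeff b‖ := by
            have e2 : T ^ i = T ^ (i - b) * T ^ b := by rw [← pow_add, ← e]
            rw [e2, ← mul_assoc] at h4
            exact lt_of_mul_lt_mul_right h4 (pow_nonneg hT.le _)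
          have h6 : ‖P.coeff i‖ * ‖u‖ ^ (i - b) < ‖P.coeff b‖ :=
            lt_of_le_of_lt (mul_le_mul_of_nonneg_left (pow_le_pow_left₀ hun.le huT _)
              (norm_nonneg _)) h5
          have e2 : ‖u‖ ^ i = ‖u‖ ^ (i - b) * ‖u‖ ^ b := by rw [← pow_add, ← e]
          rw [e2, ← mul_assoc]
          exact mul_lt_mul_of_pos_right h6 (pow_pos hun _))
    rw [hroot, norm_zero, norm_mul, norm_pow] at hdom
    have : 0 < ‖P.coeff b‖ * ‖u‖ ^ b := mul_pos hPb (pow_pos hun _)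
    linarith

end Pool.Agent.Helper581_DML.Wild
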