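import Mathlib
import Pool.Agent.Helper581_DML.WDefs
import Pool.Agent.Helper581_DML.W3
import Pool.Agent.Helper581_DML.W4

/-!
Part W6a of the proof (helper581, MP_6ac234_nt): `count_const` from `charpoly_family` and `root_count` (proved in the imported files).

PLAIN PROOF. `G` from `charpoly_family`, `g_l = G.coeff l`. For `l` with `g_l ≠ 0` there are `R, c > 0, m` with `‖g_l(x)‖ = c ‖x‖^m` for `‖x‖ > R` (`c` the norm of the
 leading coefficient, `m` the degree: the leading term dominates). Take `R ≥ 1` good for all `l` and such that `h.leadingCoeff.eval x ≠ 0` for `‖x‖ > R` (nonzero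
 polynomial, finitely many roots). By `root_count` at `x` (`T = ‖x‖^A`, `S` the multiset of the `u(x,y)`; `countP` of a mapped multiset) the count `b(x)` is the largest index `l`
 at which `log (‖g_l(x)‖ T^l) = log c_l + (m_l + l A) log ‖x‖` (over the `l` with `g_l ≠ 0`) is maximal (`P.coeff b ≠ 0`, `≤` for all `l`, `<` for `l > b`). These are finitely many
 affine functions of `log ‖x‖`, so for `‖x‖` large the comparison between any two of them does not depend on `x`, and `b(x)` is constant.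
-/

set_option autoImplicit false

namespace Pool.Agent.Helper581_DML.Wild

open Polynomial Filter
open scoped Polynomial.Bivariate

namespace W6a

theorem dom_aux {L : Type*} [NormedField L] [IsUltrametricDist L] (S : Multiset L) :
    ∃ R : ℝ, ∀ x : L, R < ‖x‖ → ‖(S.map (fun a => x - a)).prod‖ = ‖x‖ ^ (Multiset.card S) := by
  induction S using Multiset.induction_on with
  | empty => exact ⟨0, fun x _ => by simp⟩
  | cons a S ih =>
    obtain ⟨R, hR⟩ := ih
    refine ⟨max R ‖a‖, fun x hx => ?_⟩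
    have h1 := hR x ((le_max_left _ _).trans_lt hx)
    have h2 : ‖a‖ < ‖x‖ := (le_max_right _ _).trans_lt hx
    have h3 : ‖x - a‖ = ‖x‖ := by
      rw [sub_eq_add_neg, IsUltrametricDist.norm_add_eq_max_of_norm_ne_norm (by
        rw [norm_neg]; exact h2.ne'), norm_neg, max_eq_left h2.le]
    rw [Multiset.map_cons, Multiset.prod_cons, norm_mul, h1, h3, Multiset.card_cons, pow_succ]
    ring

theorem dom {L : Type*} [NormedField L] [IsUltrametricDist L] [IsAlgClosed L] (g : L[X]) :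
    ∃ R : ℝ, ∀ x : L, R < ‖x‖ → ‖g.eval x‖ = ‖g.leadingCoeff‖ * ‖x‖ ^ g.natDegree := by
  obtain ⟨R, hR⟩ := dom_aux g.roots
  refine ⟨R, fun x hx => ?_⟩
  have h1 := (IsAlgClosed.splits g).eq_prod_roots
  have h2 : Multiset.card g.roots = g.natDegree := by
    rw [(IsAlgClosed.splits g).natDegree_eq_card_roots]
  have h3 : g.eval x = g.leadingCoeff * (g.roots.map (fun a => x - a)).prod := by
    conv_lhs => rw [h1]
    rw [eval_mul, eval_C, eval_multiset_prod, Multiset.map_map]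
    simp
  rw [h3, norm_mul, hR x hx, h2]

theorem cmp (c c' e e' : ℝ) (hc : 0 < c) (hc' : 0 < c') :
    ∃ R : ℝ, (∀ r : ℝ, R < r → 0 < r → c * r ^ e ≤ c' * r ^ e') ∨
      (∀ r : ℝ, R < r → 0 < r → c' * r ^ e' < c * r ^ e) := by
  rcases lt_trichotomy e e' with h | h | h
  · have h1 := tendsto_rpow_atTop (sub_pos.2 h)
    obtain ⟨R, hR⟩ := Filter.eventually_atTop.1 (h1.eventually_ge_atTop (c / c'))
    refine ⟨R, Or.inl fun r hr hr0 => ?_⟩
    have h2 := hR r hr.le
    rw [Real.rpow_sub hr0, div_le_div_iff₀ hc' (Real.rpow_pos_of_pos hr0 _)] at h2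
    linarith
  · subst h
    rcases le_or_gt c c' with h1 | h1
    · exact ⟨0, Or.inl fun r _ hr0 => mul_le_mul_of_nonneg_right h1 (Real.rpow_nonneg hr0.le _)⟩
    · exact ⟨0, Or.inr fun r _ hr0 => mul_lt_mul_of_pos_right h1 (Real.rpow_pos_of_pos hr0 _)⟩
  · have h1 := tendsto_rpow_atTop (sub_pos.2 h)
    obtain ⟨R, hR⟩ := Filter.eventually_atTop.1 (h1.eventually_gt_atTop (c' / c))
    refine ⟨R, Or.inr fun r hr hr0 => ?_⟩
    have h2 := hR r hr.le
    rw [Real.rpow_sub hr0, div_lt_div_iff₀ hc (Real.rpow_pos_of_pos hr0 _)] at h2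
    linarith

end W6a

theorem count_const {L : Type*} [NontriviallyNormedField L] [IsUltrametricDist L] [IsAlgClosed L]
    (h u : L[X][Y]) (hdeg : 0 < h.natDegree) (A : ℝ) :
    ∃ (b : ℕ) (R : ℝ), ∀ x : L, R < ‖x‖ →
      (h.map (evalRingHom x)).roots.countP (fun y => ‖evalEval x y u‖ ≤ ‖x‖ ^ A) = b := by
  classical
  obtain ⟨G, hG, hfam⟩ := charpoly_family h u hdeg
  have hh0 : h ≠ 0 := by
    rintro rfl
    simp at hdeg
  have hlc : h.leadingCoeff ≠ 0 := leadingCoeff_ne_zero.2 hh0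
  obtain ⟨R0, hR0⟩ := W6a.dom h.leadingCoeff
  choose Rf hRf using fun l : ℕ => W6a.dom (G.coeff l)
  let c : ℕ → ℝ := fun l => ‖(G.coeff l).leadingCoeff‖
  let e : ℕ → ℝ := fun l => (G.coeff l).natDegree + A * l
  have hcpos : ∀ l ∈ G.support, 0 < c l := fun l hl =>
    norm_pos_iff.2 (leadingCoeff_ne_zero.2 (mem_support_iff.1 hl))
  have hcmp : ∀ l l' : ℕ, ∃ R : ℝ, l ∈ G.support → l' ∈ G.support →
      ((∀ r : ℝ, R < r → 0 < r → c l * r ^ e l ≤ c l' * r ^ e l') ∨
      (∀ r : ℝ, R < r → 0 < r → c l' * r ^ e l' < c l * r ^ e l)) := by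
    intro l l'
    by_cases hl : l ∈ G.support
    · by_cases hl' : l' ∈ G.support
      · obtain ⟨R, hR⟩ := W6a.cmp (c l) (c l') (e l) (e l') (hcpos l hl) (hcpos l' hl')
        exact ⟨R, fun _ _ => hR⟩
      · exact ⟨0, fun _ h => absurd h hl'⟩
    · exact ⟨0, fun h => absurd h hl⟩
  choose Rg hRg using hcmp
  let R : ℝ := |R0| + ∑ l ∈ G.support, |Rf l| + ∑ l ∈ G.support, ∑ l' ∈ G.support, |Rg l l'|
  have hs1 : 0 ≤ ∑ l ∈ G.support, |Rf l| := Finset.sum_nonneg fun _ _ => abs_nonneg _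
  have hs2 : ∀ l, 0 ≤ ∑ l' ∈ G.support, |Rg l l'| := fun l =>
    Finset.sum_nonneg fun _ _ => abs_nonneg _
  have hs3 : 0 ≤ ∑ l ∈ G.support, ∑ l' ∈ G.support, |Rg l l'| :=
    Finset.sum_nonneg fun l _ => hs2 l
  have hRR0 : R0 ≤ R := by
    have := le_abs_self R0
    simp only [R]; linarith
  have hR0' : 0 ≤ R := by
    have := abs_nonneg R0
    simp only [R]; linarith
  have hRRf : ∀ l ∈ G.support, Rf l ≤ R := by
    intro l hl
    have h1 : |Rf l| ≤ ∑ l ∈ G.support, |Rf l| :=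
      Finset.single_le_sum (f := fun l => |Rf l|) (fun _ _ => abs_nonneg _) hl
    have := le_abs_self (Rf l)
    have := abs_nonneg R0
    simp only [R]; linarith
  have hRRg : ∀ l ∈ G.support, ∀ l' ∈ G.support, Rg l l' ≤ R := by
    intro l hl l' hl'
    have h1 : |Rg l l'| ≤ ∑ l' ∈ G.support, |Rg l l'| :=
      Finset.single_le_sum (f := fun l' => |Rg l l'|) (fun _ _ => abs_nonneg _) hl'
    have h2 : ∑ l' ∈ G.support, |Rg l l'| ≤ ∑ l ∈ G.support, ∑ l' ∈ G.support, |Rg l l'| :=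
      Finset.single_le_sum (f := fun l => ∑ l' ∈ G.support, |Rg l l'|) (fun l _ => hs2 l) hl
    have := le_abs_self (Rg l l')
    have := abs_nonneg R0
    simp only [R]; linarith
  -- the characterisation of the count
  let cnt : L → ℕ := fun x =>
    (h.map (evalRingHom x)).roots.countP (fun y => ‖evalEval x y u‖ ≤ ‖x‖ ^ A)
  have hval : ∀ x : L, R < ‖x‖ → ∀ l ∈ G.support,
      ‖(G.map (evalRingHom x)).coeff l‖ * (‖x‖ ^ A) ^ l = c l * ‖x‖ ^ e l := by
    intro x hx l hl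
    have hx0 : 0 < ‖x‖ := hR0'.trans_lt hx
    rw [coeff_map, coe_evalRingHom, hRf l x ((hRRf l hl).trans_lt hx)]
    simp only [c, e]
    rw [Real.rpow_add hx0, Real.rpow_natCast, Real.rpow_mul hx0.le, Real.rpow_natCast]
    ring
  have hsupp : ∀ x : L, ∀ l, l ∉ G.support → (G.map (evalRingHom x)).coeff l = 0 := by
    intro x l hl
    rw [coeff_map, notMem_support_iff.1 hl, map_zero]
  have key : ∀ x : L, R < ‖x‖ → cnt x ∈ G.support ∧
      (∀ l ∈ G.support, c l * ‖x‖ ^ e l ≤ c (cnt x) * ‖x‖ ^ e (cnt x)) ∧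
      (∀ l ∈ G.support, cnt x < l → c l * ‖x‖ ^ e l < c (cnt x) * ‖x‖ ^ e (cnt x)) := by
    intro x hx
    have hx0 : 0 < ‖x‖ := hR0'.trans_lt hx
    have hev : h.leadingCoeff.eval x ≠ 0 := by
      rw [← norm_pos_iff, hR0 x (hRR0.trans_lt hx)]
      exact mul_pos (norm_pos_iff.2 (leadingCoeff_ne_zero.2 hlc)) (pow_pos hx0 _)
    obtain ⟨d, hd, hP⟩ := hfam x hev
    obtain ⟨k1, k2, k3, -, -⟩ := root_count
      ((h.map (evalRingHom x)).roots.map (fun y => evalEval x y u)) d hd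
      (G.map (evalRingHom x)) (by rw [hP, Multiset.map_map]; rfl) (‖x‖ ^ A)
      (Real.rpow_pos_of_pos hx0 _) (cnt x) (by
        simp only [cnt]
        rw [Multiset.countP_map, Multiset.countP_eq_card_filter])
    have hmem : cnt x ∈ G.support := by
      by_contra hn
      exact k1 (hsupp x _ hn)
    refine ⟨hmem, fun l hl => ?_, fun l hl hlt => ?_⟩
    · rw [← hval x hx l hl, ← hval x hx _ hmem]
      exact k2 l
    · rw [← hval x hx l hl, ← hval x hx _ hmem]
      exact k3 l hlt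
  have hle : ∀ x y : L, R < ‖x‖ → R < ‖y‖ → ¬ cnt x < cnt y := by
    intro x y hx hy hlt
    obtain ⟨a1, a2, a3⟩ := key x hx
    obtain ⟨b1, b2, b3⟩ := key y hy
    have hx0 : 0 < ‖x‖ := hR0'.trans_lt hx
    have hy0 : 0 < ‖y‖ := hR0'.trans_lt hy
    have h1 := a3 _ b1 hlt
    have h2 := b2 _ a1
    have h3 := hRRg _ a1 _ b1
    rcases hRg (cnt x) (cnt y) a1 b1 with h4 | h4
    · exact absurd (h4 ‖x‖ (h3.trans_lt hx) hx0) (not_le.2 h1)
    · exact absurd h2 (not_le.2 (h4 ‖y‖ (h3.trans_lt hy) hy0))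
  by_cases hex : ∃ x0 : L, R < ‖x0‖
  · obtain ⟨x0, hx0⟩ := hex
    refine ⟨cnt x0, R, fun x hx => ?_⟩
    exact le_antisymm (not_lt.1 (hle x0 x hx0 hx)) (not_lt.1 (hle x x0 hx hx0))
  · push Not at hex
    exact ⟨0, R, fun x hx => absurd hx (not_lt.2 (hex x))⟩

end Pool.Agent.Helper581_DML.Wild
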