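import Mathlib
import Pool.Agent.Helper581_DML.WDefs

set_option autoImplicit false

namespace Pool.Agent.Helper581_DML.Wild

open Polynomial

theorem cauchy_estimate {p : ℕ} [Fact p.Prime] {L : Type*} [NontriviallyNormedField L]
    [IsUltrametricDist L] [IsAlgClosed L] [CharP L p] (P : L[X]) (z : L) (hz : z ≠ 0) (B : ℝ)
    (hB : ∀ x : L, ‖x‖ = ‖z‖ → ‖P.eval x‖ ≤ B) (j : ℕ) : ‖P.coeff j‖ * ‖z‖ ^ j ≤ B := by
  have hB0 : 0 ≤ B := (norm_nonneg _).trans (hB z rfl)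
  by_cases hj : P.natDegree < j
  · rw [Polynomial.coeff_eq_zero_of_natDegree_lt hj]
    simpa using hB0
  rw [not_lt] at hj
  set N : ℕ := p * (P.natDegree + 1) + 1 with hN
  have hNL : (N : L) = 1 := by
    rw [hN]
    push_cast
    rw [CharP.cast_eq_zero L p]
    ring
  have hp : 0 < p := (Fact.out : p.Prime).pos
  have hNd : P.natDegree < N := by
    rw [hN]
    nlinarith
  have : NeZero ((N : ℕ) : L) := ⟨by rw [hNL]; exact one_ne_zero⟩
  obtain ⟨ω, hω⟩ := HasEnoughRootsOfUnity.exists_primitiveRoot L N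
  have hN0 : N ≠ 0 := by rw [hN]; omega
  have hωn : ‖ω‖ = 1 := by
    have h1 : ‖ω‖ ^ N = 1 := by rw [← norm_pow, hω.pow_eq_one, norm_one]
    exact (pow_eq_one_iff_of_nonneg (norm_nonneg _) hN0).1 h1
  have hgs : ∀ i < N, i ≠ j → ∑ a ∈ Finset.range N, (ω ^ (i + (N - j))) ^ a = 0 := by
    intro i hi hij
    have h1 : ω ^ (i + (N - j)) ≠ 1 := by
      intro h
      have h2 := (hω.pow_eq_one_iff_dvd _).1 h
      obtain ⟨c, hc⟩ := h2
      have hc1 : c = 1 := by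
        have : 0 < c := by
          rcases Nat.eq_zero_or_pos c with h0 | h0
          · subst h0; omega
          · exact h0
        have : c < 2 := by
          by_contra h3
          rw [not_lt] at h3
          have : N * 2 ≤ N * c := Nat.mul_le_mul_left _ h3
          omega
        omega
      subst hc1
      omega
    have h2 := geom_sum_mul (ω ^ (i + (N - j))) N
    rw [← pow_mul, mul_comm (i + (N - j)) N, pow_mul, hω.pow_eq_one, one_pow, sub_self] at h2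
    rcases mul_eq_zero.1 h2 with h3 | h3
    · exact h3
    · exact absurd (sub_eq_zero.1 h3) h1
  have hsum : ∑ a ∈ Finset.range N, P.eval (z * ω ^ a) * ω ^ (a * (N - j)) = P.coeff j * z ^ j := by
    have h1 : ∀ a ∈ Finset.range N, P.eval (z * ω ^ a) * ω ^ (a * (N - j)) =
        ∑ i ∈ Finset.range N, P.coeff i * z ^ i * (ω ^ (i + (N - j))) ^ a := by
      intro a _
      rw [Polynomial.eval_eq_sum_range' hNd, Finset.sum_mul]
      refine Finset.sum_congr rfl fun i _ => ?_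
      rw [mul_pow, ← pow_mul, ← pow_mul, add_mul, pow_add, mul_comm i a, mul_comm (N - j) a]
      ring
    rw [Finset.sum_congr rfl h1, Finset.sum_comm]
    rw [Finset.sum_eq_single j]
    · rw [← Finset.mul_sum]
      have h2 : ω ^ (j + (N - j)) = 1 := by
        rw [show j + (N - j) = N by omega, hω.pow_eq_one]
      rw [h2]
      simp [hNL]
    · intro i hi hij
      rw [← Finset.mul_sum, hgs i (Finset.mem_range.1 hi) hij, mul_zero]
    · intro h
      exact absurd (Finset.mem_range.2 (lt_of_le_of_lt hj hNd)) h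
  have h3 : ‖P.coeff j * z ^ j‖ ≤ B := by
    rw [← hsum]
    refine IsUltrametricDist.norm_sum_le_of_forall_le_of_nonneg hB0 fun a _ => ?_
    rw [norm_mul, norm_pow, hωn, one_pow, mul_one]
    apply hB
    rw [norm_mul, norm_pow, hωn, one_pow, mul_one]
  rwa [norm_mul, norm_pow] at h3

theorem norm_eq_of_no_root {L : Type*} [NormedField L] [IsUltrametricDist L] [IsAlgClosed L]
    (Q : L[X]) (R : ℝ) (hQ : ∀ x : L, R < ‖x‖ → Q.eval x ≠ 0) :
    ∀ x : L, R < ‖x‖ → ‖Q.eval x‖ = ‖Q.leadingCoeff‖ * ‖x‖ ^ Q.natDegree := by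
  intro x hx
  have hQ0 : Q ≠ 0 := by
    rintro rfl
    exact hQ x hx (by simp)
  have hs := IsAlgClosed.splits Q
  rw [hs.eval_eq_prod_roots, norm_mul, hs.natDegree_eq_card_roots]
  congr 1
  have h1 : ∀ r ∈ Q.roots, ‖x - r‖ = ‖x‖ := by
    intro r hr
    have hr0 : Q.eval r = 0 := (Polynomial.mem_roots hQ0).1 hr
    have hr1 : ‖r‖ ≤ R := by
      by_contra h
      exact hQ r (not_le.1 h) hr0
    have h2 : ‖r‖ < ‖x‖ := lt_of_le_of_lt hr1 hx
    have h3 := IsUltrametricDist.norm_add_eq_max_of_norm_ne_norm (x := x) (y := -r)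
      (by rw [norm_neg]; exact h2.ne')
    rw [← sub_eq_add_neg, norm_neg, max_eq_left h2.le] at h3
    exact h3
  have h2 : ∀ s : Multiset L, (∀ r ∈ s, ‖x - r‖ = ‖x‖) →
      ‖(s.map (fun r => x - r)).prod‖ = ‖x‖ ^ s.card := by
    intro s
    induction s using Multiset.induction_on with
    | empty => intro _; simp
    | cons a s ih =>
      intro hs
      rw [Multiset.map_cons, Multiset.prod_cons, norm_mul, Multiset.card_cons,
        ih (fun r hr => hs r (Multiset.mem_cons_of_mem hr)), hs a (Multiset.mem_cons_self _ _),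
        pow_succ, mul_comm]
  exact h2 _ h1

theorem schwarz {p : ℕ} [Fact p.Prime] {L : Type*} [NontriviallyNormedField L]
    [IsUltrametricDist L] [IsAlgClosed L] [CharP L p] (P Q : L[X]) (R : ℝ) (hR : 1 ≤ R)
    (hQ : ∀ x : L, R < ‖x‖ → Q.eval x ≠ 0) (A θ : ℝ) (hθ : 0 ≤ θ)
    (h1 : ∀ x : L, R < ‖x‖ → ‖P.eval x‖ ≤ ‖Q.eval x‖ * ‖x‖ ^ A)
    (h2 : ∃ R' : ℝ, ∀ x : L, R' < ‖x‖ → ‖P.eval x‖ ≤ ‖Q.eval x‖ * ‖x‖ ^ (A - θ))
    (z : L) (hz : R < ‖z‖) (x : L) (hx : ‖z‖ ≤ ‖x‖) :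
    ‖P.eval x‖ ≤ ‖Q.eval x‖ * ‖x‖ ^ A * (‖z‖ / ‖x‖) ^ θ := by
  have hz0 : 0 < ‖z‖ := by linarith
  have hx0 : 0 < ‖x‖ := by linarith
  have hRx : R < ‖x‖ := by linarith
  by_cases hP : P = 0
  · subst hP
    simp only [eval_zero, norm_zero]
    positivity
  have hQ0 : Q ≠ 0 := by
    rintro rfl
    exact hQ z hz (by simp)
  have hc : 0 < ‖Q.leadingCoeff‖ := norm_pos_iff.2 (leadingCoeff_ne_zero.2 hQ0)
  have hcP : 0 < ‖P.leadingCoeff‖ := norm_pos_iff.2 (leadingCoeff_ne_zero.2 hP)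
  set c := ‖Q.leadingCoeff‖ with hcdef
  set m := Q.natDegree with hm
  set n := P.natDegree with hn
  have hQn := norm_eq_of_no_root Q R hQ
  -- a bound for the norms of the roots of `P`
  obtain ⟨R0, hR0⟩ : ∃ R0 : ℝ, ∀ y : L, R0 < ‖y‖ → P.eval y ≠ 0 := by
    classical
    refine ⟨∑ r ∈ P.roots.toFinset, ‖r‖, fun y hy h0 => ?_⟩
    have hmem : y ∈ P.roots.toFinset := by
      rw [Multiset.mem_toFinset, mem_roots hP]
      exact h0
    have := Finset.single_le_sum (f := fun r : L => ‖r‖) (fun r _ => norm_nonneg r) hmem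
    linarith
  have hPn := norm_eq_of_no_root P R0 hR0
  obtain ⟨R', h2⟩ := h2
  obtain ⟨y, hy⟩ := NormedField.exists_one_lt_norm L
  have hdeg : (n : ℝ) ≤ m + A - θ := by
    by_contra hcon
    rw [not_le] at hcon
    have hy0 : 0 < ‖y‖ := by linarith
    have hlim : Filter.Tendsto (fun k : ℕ => ‖y‖ ^ k) Filter.atTop Filter.atTop :=
      tendsto_pow_atTop_atTop_of_one_lt hy
    have hlim2 : Filter.Tendsto (fun k : ℕ => (‖y‖ ^ k) ^ (-(n - (m + A - θ)))) Filter.atTop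
        (nhds 0) := (tendsto_rpow_neg_atTop (by linarith)).comp hlim
    have hev : ∀ᶠ k : ℕ in Filter.atTop, ‖P.leadingCoeff‖ / c ≤
        (‖y‖ ^ k) ^ (-(n - (m + A - θ))) := by
      filter_upwards [hlim.eventually_gt_atTop (max (max R0 R') R)] with k hk
      have hk1 : R0 < ‖y ^ k‖ := by
        rw [norm_pow]; exact lt_of_le_of_lt ((le_max_left _ _).trans (le_max_left _ _)) hk
      have hk2 : R' < ‖y ^ k‖ := by
        rw [norm_pow]; exact lt_of_le_of_lt ((le_max_right _ _).trans (le_max_left _ _)) hk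
      have hk3 : R < ‖y ^ k‖ := by
        rw [norm_pow]; exact lt_of_le_of_lt (le_max_right _ _) hk
      have h3 := h2 _ hk2
      rw [hPn _ hk1, hQn _ hk3, norm_pow] at h3
      set t := ‖y‖ ^ k with ht
      have ht0 : 0 < t := pow_pos hy0 k
      rw [← Real.rpow_natCast t n, ← Real.rpow_natCast t m, mul_assoc, ← Real.rpow_add ht0] at h3
      rw [div_le_iff₀ hc]
      have ht1 : 0 < t ^ (n : ℝ) := Real.rpow_pos_of_pos ht0 _
      rw [← le_div_iff₀ ht1, mul_div_assoc, ← Real.rpow_sub ht0] at h3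
      refine h3.trans (le_of_eq ?_)
      rw [mul_comm]
      congr 2
      ring
    have h4 : ‖P.leadingCoeff‖ / c ≤ 0 := ge_of_tendsto hlim2 hev
    have h5 : 0 < ‖P.leadingCoeff‖ / c := div_pos hcP hc
    linarith
  -- the Cauchy estimate on the sphere of radius `‖z‖`
  have hco : ∀ j : ℕ, ‖P.coeff j‖ * ‖z‖ ^ j ≤ c * ‖z‖ ^ m * ‖z‖ ^ A := by
    intro j
    refine cauchy_estimate (p := p) P z (norm_pos_iff.1 hz0) _ (fun w hw => ?_) j
    have h3 := h1 w (by rw [hw]; exact hz)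
    rw [hQn w (by rw [hw]; exact hz), hw] at h3
    exact h3
  have hq1 : 1 ≤ ‖x‖ / ‖z‖ := by rwa [one_le_div hz0]
  have hB0 : 0 ≤ c * ‖z‖ ^ m * ‖z‖ ^ A := by positivity
  have hPx : ‖P.eval x‖ ≤ c * ‖z‖ ^ m * ‖z‖ ^ A * (‖x‖ / ‖z‖) ^ (n : ℝ) := by
    rw [Polynomial.eval_eq_sum_range]
    refine IsUltrametricDist.norm_sum_le_of_forall_le_of_nonneg (by positivity) fun j hj => ?_
    rw [norm_mul, norm_pow]
    have hjn : j ≤ n := Nat.lt_succ_iff.1 (Finset.mem_range.1 hj)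
    calc ‖P.coeff j‖ * ‖x‖ ^ j = ‖P.coeff j‖ * ‖z‖ ^ j * (‖x‖ / ‖z‖) ^ j := by
          rw [div_pow]; field_simp
      _ ≤ c * ‖z‖ ^ m * ‖z‖ ^ A * (‖x‖ / ‖z‖) ^ n :=
          mul_le_mul (hco j) (pow_le_pow_right₀ hq1 hjn) (by positivity) hB0
      _ = c * ‖z‖ ^ m * ‖z‖ ^ A * (‖x‖ / ‖z‖) ^ (n : ℝ) := by rw [Real.rpow_natCast]
  refine hPx.trans ?_
  calc c * ‖z‖ ^ m * ‖z‖ ^ A * (‖x‖ / ‖z‖) ^ (n : ℝ)
      ≤ c * ‖z‖ ^ m * ‖z‖ ^ A * (‖x‖ / ‖z‖) ^ (m + A - θ) :=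
        mul_le_mul_of_nonneg_left (Real.rpow_le_rpow_of_exponent_le hq1 hdeg) hB0
    _ = ‖Q.eval x‖ * ‖x‖ ^ A * (‖z‖ / ‖x‖) ^ θ := by
        rw [hQn x hRx, Real.div_rpow hx0.le hz0.le, Real.div_rpow hz0.le hx0.le,
          Real.rpow_sub hx0, Real.rpow_sub hz0, Real.rpow_add hx0, Real.rpow_add hz0,
          Real.rpow_natCast, Real.rpow_natCast]
        have e1 : ‖x‖ ^ θ ≠ 0 := (Real.rpow_pos_of_pos hx0 _).ne'
        have e2 : ‖z‖ ^ θ ≠ 0 := (Real.rpow_pos_of_pos hz0 _).ne'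
        have e3 : ‖z‖ ^ A ≠ 0 := (Real.rpow_pos_of_pos hz0 _).ne'
        have e4 : ‖z‖ ^ m ≠ 0 := (pow_pos hz0 _).ne'
        rw [← hcdef, ← hm]
        field_simp

end Pool.Agent.Helper581_DML.Wild
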