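import Mathlib
import Pool.Agent.Helper581_DML.WDefs
import Pool.Agent.Helper581_DML.W3
import Pool.Agent.Helper581_DML.W4
import Pool.Agent.Helper581_DML.W5

/-!
Part W6b of the proof (helper581, MP_6ac234_nt): `small_roots` from `charpoly_family`, `root_count`, `schwarz` (proved in the imported files).

PLAIN PROOF. `G` from `charpoly_family`, `g_l = G.coeff l`. For `‖x‖ > R`: `G(x, ·) = c ∏ (X - u(x, y_j))`, `y_j` the roots of `h(x, ·)`, so `root_count` applies with `T = T x`, and `b` the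
 count. So `g_b(x) ≠ 0`, and with `τ = T x`: `‖g_(b-l)(x)‖ ≤ ‖g_b(x)‖ (T x)^l ≤ ‖g_b(x)‖ ‖x‖^(A l)`. If also `‖x‖ > R'`, `τ = min (T x) (‖x‖^(A-θ))` gives
 `‖g_(b-l)(x)‖ ≤ ‖g_b(x)‖ ‖x‖^((A-θ) l)`. `schwarz` with `P = g_(b-l)`, `Q = g_b`, `A l`, `θ l`: `‖g_(b-l)(x)‖ ≤ ‖g_b(x)‖ ‖x‖^(A l) (‖z‖/‖x‖)^(θ l)` for `‖x‖ ≥ ‖z‖`. Now let `u = u(x, y)` be as in the
 statement; `y` is a root of `h(x, ·) ≠ 0`. If `u = 0` the claim is clear. Otherwise the last part of `root_count` gives `1 ≤ l ≤ b` with `‖g_b(x)‖ ‖u‖^l ≤ ‖g_(b-l)(x)‖`, so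
 `‖u‖^l ≤ (‖x‖^A (‖z‖/‖x‖)^θ)^l`.
-/

set_option autoImplicit false

namespace Pool.Agent.Helper581_DML.Wild

open Polynomial Filter
open scoped Polynomial.Bivariate

theorem small_roots {p : ℕ} [Fact p.Prime] {L : Type*} [NontriviallyNormedField L]
    [IsUltrametricDist L] [IsAlgClosed L] [CharP L p] (h u : L[X][Y]) (hdeg : 0 < h.natDegree)
    (R : ℝ) (hR : 1 ≤ R) (hl : ∀ x : L, R < ‖x‖ → h.leadingCoeff.eval x ≠ 0) (T : L → ℝ)
    (A θ : ℝ) (hθ : 0 ≤ θ) (b : ℕ) (hT : ∀ x : L, R < ‖x‖ → 0 < T x ∧ T x ≤ ‖x‖ ^ A)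
    (hb : ∀ x : L, R < ‖x‖ →
      (h.map (evalRingHom x)).roots.countP (fun y => ‖evalEval x y u‖ ≤ T x) = b)
    (hsmall : ∃ R' : ℝ, ∀ x : L, R' < ‖x‖ → ∀ y : L, evalEval x y h = 0 →
      ‖evalEval x y u‖ ≤ T x → ‖evalEval x y u‖ ≤ ‖x‖ ^ (A - θ))
    (z : L) (hz : R < ‖z‖) (x : L) (hx : ‖z‖ ≤ ‖x‖) (y : L) (hy : evalEval x y h = 0)
    (hyT : ‖evalEval x y u‖ ≤ T x) : ‖evalEval x y u‖ ≤ ‖x‖ ^ A * (‖z‖ / ‖x‖) ^ θ := by
  classical
  obtain ⟨G, -, hG⟩ := charpoly_family h u hdeg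
  have hmap0 : ∀ w : L, R < ‖w‖ → h.map (evalRingHom w) ≠ 0 := by
    intro w hw h0
    have h1 : (h.map (evalRingHom w)).coeff h.natDegree = 0 := by rw [h0, coeff_zero]
    rw [coeff_map] at h1
    exact hl w hw h1
  have hroot : ∀ w : L, R < ‖w‖ → ∀ v : L,
      v ∈ (h.map (evalRingHom w)).roots ↔ evalEval w v h = 0 := by
    intro w hw v
    rw [mem_roots (hmap0 w hw), IsRoot.def, ← map_evalRingHom_eval]
  have key : ∀ w : L, R < ‖w‖ →
      (G.coeff b).eval w ≠ 0 ∧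
      (∀ τ : ℝ, 0 < τ → τ ≤ T w → (∀ v : L, evalEval w v h = 0 → ‖evalEval w v u‖ ≤ T w →
        ‖evalEval w v u‖ ≤ τ) →
        ∀ l ≤ b, ‖(G.coeff (b - l)).eval w‖ ≤ ‖(G.coeff b).eval w‖ * τ ^ l) ∧
      (∀ v : L, evalEval w v h = 0 → ‖evalEval w v u‖ ≤ T w → evalEval w v u ≠ 0 →
        ∃ l, 1 ≤ l ∧ l ≤ b ∧
          ‖(G.coeff b).eval w‖ * ‖evalEval w v u‖ ^ l ≤ ‖(G.coeff (b - l)).eval w‖) := by
    intro w hw
    obtain ⟨c, hc, hGc⟩ := hG w (hl w hw)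
    have hP : G.map (evalRingHom w) =
        C c * ((((h.map (evalRingHom w)).roots.map (fun v => evalEval w v u))).map
          (fun t => X - C t)).prod := by
      rw [hGc, Multiset.map_map]
      rfl
    have hb' : b = ((h.map (evalRingHom w)).roots.map (fun v => evalEval w v u)).countP
        (fun t => ‖t‖ ≤ T w) := by
      rw [Multiset.countP_map, ← hb w hw, Multiset.countP_eq_card_filter]
    obtain ⟨k1, -, -, k4, k5⟩ := root_count _ c hc _ hP (T w) (hT w hw).1 b hb'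
    have hco : ∀ n, (G.map (evalRingHom w)).coeff n = (G.coeff n).eval w := by
      intro n
      rw [coeff_map]
      rfl
    simp only [hco] at k1 k4 k5
    refine ⟨k1, ?_, ?_⟩
    · intro τ hτ0 hτ hs l hlb
      refine k4 τ hτ0 hτ ?_ l hlb
      intro t ht htT
      obtain ⟨v, hv, rfl⟩ := Multiset.mem_map.1 ht
      exact hs v ((hroot w hw v).1 hv) htT
    · intro v hv hvT hv0
      exact k5 _ (Multiset.mem_map.2 ⟨v, (hroot w hw v).2 hv, rfl⟩) hvT hv0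
  have hRx : R < ‖x‖ := lt_of_lt_of_le hz hx
  have hR0 : 0 < R := lt_of_lt_of_le one_pos hR
  have hx0 : 0 < ‖x‖ := hR0.trans hRx
  have hz0 : 0 < ‖z‖ := hR0.trans hz
  have hB0 : 0 ≤ ‖x‖ ^ A * (‖z‖ / ‖x‖) ^ θ :=
    mul_nonneg (Real.rpow_nonneg hx0.le _) (Real.rpow_nonneg (div_nonneg hz0.le hx0.le) _)
  by_cases hu0 : evalEval x y u = 0
  · rw [hu0, norm_zero]
    exact hB0
  obtain ⟨l, hl1, hlb, hle⟩ := (key x hRx).2.2 y hy hyT hu0
  have hs := schwarz (p := p) (G.coeff (b - l)) (G.coeff b) R hR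
    (fun w hw => (key w hw).1) (A * l) (θ * l) (mul_nonneg hθ (Nat.cast_nonneg l)) ?_ ?_ z hz x hx
  · have hgb : 0 < ‖(G.coeff b).eval x‖ := norm_pos_iff.2 (key x hRx).1
    have h3 : ‖(G.coeff b).eval x‖ * ‖evalEval x y u‖ ^ l ≤
        ‖(G.coeff b).eval x‖ * (‖x‖ ^ A * (‖z‖ / ‖x‖) ^ θ) ^ l := by
      refine (hle.trans hs).trans (le_of_eq ?_)
      rw [Real.rpow_mul hx0.le, Real.rpow_mul (div_nonneg hz0.le hx0.le), Real.rpow_natCast,
        Real.rpow_natCast, mul_pow, mul_assoc]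
    exact (pow_le_pow_iff_left₀ (norm_nonneg _) hB0 (by omega)).1 (le_of_mul_le_mul_left h3 hgb)
  · intro w hw
    have hw0 : 0 < ‖w‖ := hR0.trans hw
    refine ((key w hw).2.1 (T w) (hT w hw).1 le_rfl (fun v _ h => h) l hlb).trans ?_
    rw [Real.rpow_mul hw0.le, Real.rpow_natCast]
    exact mul_le_mul_of_nonneg_left (pow_le_pow_left₀ (hT w hw).1.le (hT w hw).2 l) (norm_nonneg _)
  · obtain ⟨R', hR'⟩ := hsmall
    refine ⟨max R R', fun w hw => ?_⟩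
    have hwR : R < ‖w‖ := (le_max_left _ _).trans_lt hw
    have hwR' : R' < ‖w‖ := (le_max_right _ _).trans_lt hw
    have hw0 : 0 < ‖w‖ := hR0.trans hwR
    have hA0 : 0 < ‖w‖ ^ (A - θ) := Real.rpow_pos_of_pos hw0 _
    refine ((key w hwR).2.1 (min (T w) (‖w‖ ^ (A - θ))) (lt_min (hT w hwR).1 hA0)
      (min_le_left _ _) (fun v hv h => le_min h (hR' w hwR' v hv h)) l hlb).trans ?_
    rw [← sub_mul, Real.rpow_mul hw0.le, Real.rpow_natCast]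
    exact mul_le_mul_of_nonneg_left
      (pow_le_pow_left₀ (lt_min (hT w hwR).1 hA0).le (min_le_right _ _) l) (norm_nonneg _)

end Pool.Agent.Helper581_DML.Wild
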