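import Mathlib
import Pool.Agent.Helper581_DML.WDefs
import Pool.Agent.Helper581_DML.W6a
import Pool.Agent.Helper581_DML.W6b
import Pool.Agent.Helper581_DML.W6c

/-!
Part W6d of the proof (helper581, MP_6ac234_nt): `special_open` from `count_const`, `small_roots`, `sp_mono`, `sep`, `special_of_half` (proved in the imported files).

PLAIN PROOF. Let `m = q M`, `W_i(x,y) = Wn f g d N1 N2 κ x y i`, and let `u_i ∈ L[X][Y]` be the polynomial `(g^∘i (Y))^N1 - κ^(d^i) (f^∘i (X))^N2`, so that for `‖x‖ > R`: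
 `W_i(x,y) = ‖u_i(x,y)‖ / ‖x‖^(N2 d^i)` (`‖f^[i] x‖ = ‖x‖^(d^i)` by `Dich`), and `Sp i` at `(x,y)` iff `‖u_i(x,y)‖ ≤ ‖x‖^(A_i - θ_i)`, `A_i = N2 d^i`, `θ_i = d^i/m`. By `count_const` the number of roots `y` of
 `h(x,·)` (with multiplicity) with `Sp i` is a constant `b_i` for `‖x‖ > R_i`. By `sp_mono` and `hNJ` (for `‖x‖ > max R R'`), `Sp (i+1)` implies `Sp i` at zeros of `h`, so `b_(i+1) ≤ b_i`; choose `J` with
 `b_i = b_J` for all `i ≥ J` (a decreasing sequence of naturals is eventually constant). Let `R2 ≥ max (R, R', R_J, 1)` be also such that `h.leadingCoeff.eval x ≠ 0` for `‖x‖ > R2`.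
 Fix `i = J + j`. Apply `small_roots` with `u = u_i`, `R2`, `b = b_J`, `A = A_i`, `θ = θ_i`, `T x = ‖x‖^(A_i - d^J q^j / m)`: by `sep` `‖u_i(x,y)‖ ≤ T x` iff `Sp J` at `(x,y)`, for zeros `(x,y)` of `h` with
 `‖x‖ > R2`; this gives `hb` (the count of `Sp J`). `hsmall`: for `‖x‖ > max (R2, R_i)` every root `y` with `Sp J` has `Sp i`, because the two counts are equal and `Sp i` implies `Sp J` (multiset
 filter monotone with equal cardinality), and `Sp i` means `‖u_i(x,y)‖ ≤ ‖x‖^(A_i - θ_i)`. Fix `z` with `‖z‖ > R2` (independent of `i`; the norm is nontrivial) and let `R1 = ‖z‖^2`. If `‖x‖ > R1`, `h(x,y) = 0`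
 and `Sp J` at `(x,y)`, then `‖u_i(x,y)‖ ≤ ‖x‖^(A_i) (‖z‖/‖x‖)^(θ_i) ≤ ‖x‖^(A_i - θ_i/2)` (`‖z‖ ≤ ‖x‖^(1/2)`), i.e. `W_i^(2m) ‖x‖^(d^i) ≤ 1`, for all `i ≥ J`. Conclude with `special_of_half`.
-/

set_option autoImplicit false

namespace Pool.Agent.Helper581_DML.Wild

open Polynomial Filter
open scoped Polynomial.Bivariate


theorem sd_lead {L : Type*} [NormedField L] (p : L[X]) (hp : p ≠ 0) :
    ∃ B : ℝ, ∀ x : L, B < ‖x‖ → p.eval x ≠ 0 := by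
  have hfin : (p.rootSet L).Finite := p.rootSet_finite L
  obtain ⟨B, hB⟩ := (hfin.image (fun x => ‖x‖)).bddAbove
  refine ⟨B, fun x hx h0 => ?_⟩
  have hmem : x ∈ p.rootSet L := by
    rw [Polynomial.mem_rootSet]
    exact ⟨hp, by simpa [Polynomial.aeval_def] using h0⟩
  exact absurd (hB ⟨x, hmem, rfl⟩) (not_le.2 hx)

theorem sd_real {U X : ℝ} (hU : 0 ≤ U) (hX : 1 < X) (a m c : ℕ) (hm : 0 < m) :
    (U / X ^ a) ^ m * X ^ c ≤ 1 ↔ U ≤ X ^ ((a : ℝ) - (c : ℝ) / m) := by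
  have hX0 : 0 < X := by linarith
  have hm' : (m : ℝ) ≠ 0 := by exact_mod_cast hm.ne'
  have e1 : X ^ ((a : ℝ) - (c : ℝ) / m) = X ^ a * X ^ (-((c : ℝ) / m)) := by
    rw [sub_eq_add_neg, Real.rpow_add hX0, Real.rpow_natCast]
  have e2 : (X ^ (-((c : ℝ) / m))) ^ m * X ^ c = 1 := by
    rw [← Real.rpow_natCast (X ^ (-((c : ℝ) / m))) m, ← Real.rpow_mul hX0.le,
      ← Real.rpow_natCast X c, ← Real.rpow_add hX0]
    have : -((c : ℝ) / m) * m + c = 0 := by field_simp; ring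
    rw [this, Real.rpow_zero]
  have hXc : 0 < X ^ c := pow_pos hX0 c
  have hXa : 0 < X ^ a := pow_pos hX0 a
  have hE : 0 < X ^ (-((c : ℝ) / m)) := Real.rpow_pos_of_pos hX0 _
  rw [e1, ← e2]
  constructor
  · intro h
    have h1 : (U / X ^ a) ^ m ≤ (X ^ (-((c : ℝ) / m))) ^ m := le_of_mul_le_mul_right h hXc
    have h2 : U / X ^ a ≤ X ^ (-((c : ℝ) / m)) :=
      le_of_pow_le_pow_left₀ hm.ne' hE.le h1
    rw [div_le_iff₀ hXa] at h2
    linarith [mul_comm (X ^ a) (X ^ (-((c : ℝ) / m)))]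
  · intro h
    have h2 : U / X ^ a ≤ X ^ (-((c : ℝ) / m)) := by
      rw [div_le_iff₀ hXa]
      linarith [mul_comm (X ^ a) (X ^ (-((c : ℝ) / m)))]
    exact mul_le_mul_of_nonneg_right
      (pow_le_pow_left₀ (div_nonneg hU hXa.le) h2 m) hXc.le

theorem sd_count {α : Type*} (s : Multiset α) (p q : α → Prop) [DecidablePred p]
    [DecidablePred q] (h : ∀ x ∈ s, p x → q x) : s.countP p ≤ s.countP q := by
  classical
  have h1 : s.countP p = s.countP (fun x => p x ∧ q x) := by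
    refine Multiset.countP_congr rfl fun x hx => ?_
    exact propext ⟨fun h2 => ⟨h2, h x hx h2⟩, fun h2 => h2.1⟩
  rw [h1, Multiset.countP_eq_card_filter, Multiset.countP_eq_card_filter]
  refine Multiset.card_le_card (Multiset.monotone_filter_right s ?_)
  intro x hx
  exact hx.2

theorem sd_count_eq {α : Type*} (s : Multiset α) (p q : α → Prop) [DecidablePred p]
    [DecidablePred q] (h : ∀ x ∈ s, p x → q x) (he : s.countP p = s.countP q) :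
    ∀ x ∈ s, q x → p x := by
  classical
  intro x hx hq
  by_contra hp
  obtain ⟨t, rfl⟩ := Multiset.exists_cons_of_mem hx
  rw [Multiset.countP_cons_of_neg _ hp, Multiset.countP_cons_of_pos _ hq] at he
  have := sd_count t p q (fun y hy => h y (Multiset.mem_cons_of_mem hy))
  omega


theorem special_open {p : ℕ} [Fact p.Prime] {L : Type*} [NontriviallyNormedField L]
    [IsUltrametricDist L] [IsAlgClosed L] [CharP L p] (f g : L[X]) (d q N1 N2 : ℕ) (hq : 1 ≤ q)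
    (hqd : 2 * q ≤ d) (hN2 : 0 < N2) (R : ℝ) (M : ℕ) (hD : Dich f g d q N1 N2 R M) (κ : L)
    (hκ : ‖κ‖ = 1) (h : L[X][Y]) (hdeg : 0 < h.natDegree)
    (hNJ : ∃ R' : ℝ, ∀ x y : L, R' < ‖x‖ → evalEval x y h = 0 →
      (∃ i, Wn f g d N1 N2 κ x y i < 1) → Wn f g d N1 N2 κ x y 0 < 1) :
    ∃ (J : ℕ) (R1 : ℝ), ∀ x y : L, R1 < ‖x‖ → evalEval x y h = 0 →
      Sp f g d (q * M) N1 N2 κ x y J → ∀ i, Sp f g d (q * M) N1 N2 κ x y i := by
  classical
  obtain ⟨hR1, hM0, hDich⟩ := id hD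
  obtain ⟨R', hNJ'⟩ := hNJ
  have hm0 : 0 < q * M := Nat.mul_pos hq hM0
  set m : ℕ := q * M with hm
  -- the polynomials
  let u : ℕ → L[X][Y] := fun i =>
    ((g.comp^[i] X).map C) ^ N1 - C (C (κ ^ d ^ i) * (f.comp^[i] X) ^ N2)
  have hu : ∀ i x y, evalEval x y (u i) =
      ((fun z => g.eval z)^[i] y) ^ N1 - κ ^ d ^ i * ((fun z => f.eval z)^[i] x) ^ N2 := by
    intro i x y
    simp only [u]
    rw [evalEval_sub, evalEval_pow, evalEval_map_C, evalEval_C, eval_mul, eval_pow, eval_C,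
      iterate_comp_eval, iterate_comp_eval, eval_X, eval_X]
  have hW : ∀ i x y, R < ‖x‖ → Wn f g d N1 N2 κ x y i =
      ‖evalEval x y (u i)‖ / ‖x‖ ^ (N2 * d ^ i) := by
    intro i x y hx
    rw [hu i x y, Wn, (hDich κ x y hκ hx i).1, ← pow_mul, mul_comm (d ^ i) N2]
  have hSp : ∀ i x y, R < ‖x‖ → (Sp f g d m N1 N2 κ x y i ↔
      ‖evalEval x y (u i)‖ ≤ ‖x‖ ^ (((N2 * d ^ i : ℕ) : ℝ) - ((d ^ i : ℕ) : ℝ) / m)) := by
    intro i x y hx
    rw [Sp, hW i x y hx]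
    exact sd_real (norm_nonneg _) (by linarith) _ _ _ hm0
  have hroot : ∀ x : L, h.map (evalRingHom x) ≠ 0 →
      ∀ y, y ∈ (h.map (evalRingHom x)).roots ↔ evalEval x y h = 0 := by
    intro x hx y
    rw [mem_roots hx, IsRoot.def, map_evalRingHom_eval]
  have hh0 : h.leadingCoeff ≠ 0 := by
    rw [leadingCoeff_ne_zero]
    rintro rfl
    simp at hdeg
  obtain ⟨Rl, hRl⟩ := sd_lead h.leadingCoeff hh0
  have hmap : ∀ x : L, Rl < ‖x‖ → h.map (evalRingHom x) ≠ 0 := by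
    intro x hx h0
    have := congrArg (fun p => p.coeff h.natDegree) h0
    simp only [coeff_map, coeff_zero] at this
    exact hRl x hx this
  -- the counts
  choose b Rc hb using fun i => count_const h (u i) hdeg
    (((N2 * d ^ i : ℕ) : ℝ) - ((d ^ i : ℕ) : ℝ) / m)
  have hmono : ∀ i j, i ≤ j → b j ≤ b i := by
    intro i j hij
    obtain ⟨x, hx⟩ := NormedField.exists_lt_norm L
      (max (max (max R R') Rl) (max (Rc i) (Rc j)))
    simp only [max_lt_iff] at hx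
    obtain ⟨⟨⟨hx1, hx2⟩, hx3⟩, hx4, hx5⟩ := hx
    rw [← hb i x hx4, ← hb j x hx5]
    refine sd_count _ _ _ ?_
    intro y hy hyj
    have hy0 := (hroot x (hmap x hx3) y).1 hy
    have h1 := (hSp j x y hx1).2 hyj
    exact (hSp i x y hx1).1 (sp_mono f g d q N1 N2 hq (by omega) R M hD κ x y hκ hx1
      (hNJ' x y hx2 hy0) i j hij h1)
  obtain ⟨J, hJ⟩ : ∃ J, ∀ i, J ≤ i → b i = b J := by
    obtain ⟨J, -, hJ⟩ := WellFounded.has_min (measure b).wf Set.univ ⟨0, trivial⟩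
    refine ⟨J, fun i hi => le_antisymm (hmono J i hi) ?_⟩
    have := hJ i trivial
    exact not_lt.1 this
  let R2 : ℝ := max (max (max R R') (max (Rc J) 1)) Rl
  have hR2 : ∀ x : L, R2 < ‖x‖ → R < ‖x‖ ∧ R' < ‖x‖ ∧ Rc J < ‖x‖ ∧ 1 < ‖x‖ ∧ Rl < ‖x‖ := by
    intro x hx
    simp only [R2, max_lt_iff] at hx
    exact ⟨hx.1.1.1, hx.1.1.2, hx.1.2.1, hx.1.2.2, hx.2⟩
  have hR21 : 1 ≤ R2 := le_max_of_le_left (le_max_of_le_right (le_max_right _ _))
  obtain ⟨z, hz⟩ := NormedField.exists_lt_norm L R2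
  have hz1 := (hR2 z hz).2.2.2.1
  refine ⟨J, ‖z‖ ^ 2, ?_⟩
  intro x y hx hxy hspJ
  have hzx : ‖z‖ ≤ ‖x‖ := by nlinarith
  have hx2 : R2 < ‖x‖ := lt_of_lt_of_le hz hzx
  obtain ⟨x1, x2, x3, x4, x5⟩ := hR2 x hx2
  have hx0 : 0 < ‖x‖ := by linarith
  refine special_of_half f g d q N1 N2 hq hqd R M hD κ x y hκ x1 (hNJ' x y x2 hxy) J ?_
  intro i hi
  obtain ⟨j, rfl⟩ := Nat.exists_eq_add_of_le hi
  have key : ∀ x y : L, R2 < ‖x‖ → evalEval x y h = 0 → (Sp f g d m N1 N2 κ x y J ↔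
      ‖evalEval x y (u (J + j))‖ ≤
        ‖x‖ ^ (((N2 * d ^ (J + j) : ℕ) : ℝ) - ((d ^ J * q ^ j : ℕ) : ℝ) / m)) := by
    intro x y hx hxy
    obtain ⟨x1, x2, x3, x4, x5⟩ := hR2 x hx
    rw [sep f g d q N1 N2 hq (by omega) R M hD κ x y hκ x1 (hNJ' x y x2 hxy) J j,
      hW (J + j) x y x1]
    exact sd_real (norm_nonneg _) x4 _ _ _ hm0
  have hθ : (0 : ℝ) ≤ ((d ^ (J + j) : ℕ) : ℝ) / m := by positivity
  have hsm := small_roots (p := p) h (u (J + j)) hdeg R2 hR21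
    (fun x hx => hRl x (hR2 x hx).2.2.2.2)
    (fun x => ‖x‖ ^ (((N2 * d ^ (J + j) : ℕ) : ℝ) - ((d ^ J * q ^ j : ℕ) : ℝ) / m))
    ((N2 * d ^ (J + j) : ℕ) : ℝ) (((d ^ (J + j) : ℕ) : ℝ) / m) hθ (b J) (by
      intro x hx
      obtain ⟨x1, x2, x3, x4, x5⟩ := hR2 x hx
      refine ⟨Real.rpow_pos_of_pos (by linarith) _, ?_⟩
      refine Real.rpow_le_rpow_of_exponent_le x4.le ?_
      have : (0 : ℝ) ≤ ((d ^ J * q ^ j : ℕ) : ℝ) / m := by positivity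
      linarith) (by
      intro x hx
      obtain ⟨x1, x2, x3, x4, x5⟩ := hR2 x hx
      rw [← hb J x x3]
      refine Multiset.countP_congr rfl fun y hy => ?_
      have hy0 := (hroot x (hmap x x5) y).1 hy
      exact propext ((key x y hx hy0).symm.trans (hSp J x y x1))) (by
      refine ⟨max R2 (Rc (J + j)), ?_⟩
      intro x hx y hxy hT
      obtain ⟨hx1, hx2'⟩ := max_lt_iff.1 hx
      obtain ⟨x1, x2, x3, x4, x5⟩ := hR2 x hx1
      have hJ' := (key x y hx1 hxy).2 hT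
      have hcount := sd_count_eq (h.map (evalRingHom x)).roots
        (fun y => ‖evalEval x y (u (J + j))‖ ≤
          ‖x‖ ^ (((N2 * d ^ (J + j) : ℕ) : ℝ) - ((d ^ (J + j) : ℕ) : ℝ) / m))
        (fun y => ‖evalEval x y (u J)‖ ≤
          ‖x‖ ^ (((N2 * d ^ J : ℕ) : ℝ) - ((d ^ J : ℕ) : ℝ) / m)) (by
          intro y hy hyj
          have hy0 := (hroot x (hmap x x5) y).1 hy
          have h1 := (hSp (J + j) x y x1).2 hyj
          exact (hSp J x y x1).1 (sp_mono f g d q N1 N2 hq (by omega) R M hD κ x y hκ x1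
            (hNJ' x y x2 hy0) J (J + j) (by omega) h1)) (by
          rw [hb J x x3, hb (J + j) x hx2', hJ (J + j) (by omega)])
      exact hcount y ((hroot x (hmap x x5) y).2 hxy) ((hSp J x y x1).1 hJ'))
    z hz x hzx y hxy ((key x y hx2 hxy).1 hspJ)
  rw [hW (J + j) x y x1, sd_real (norm_nonneg _) x4 _ _ _ (by omega)]
  refine hsm.trans ?_
  have hzs : ‖z‖ / ‖x‖ ≤ ‖x‖ ^ (-(1 / 2 : ℝ)) := by
    rw [div_le_iff₀ hx0]
    have e1 : ‖x‖ ^ (-(1 / 2 : ℝ)) * ‖x‖ = ‖x‖ ^ (1 / 2 : ℝ) := by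
      nth_rewrite 2 [← Real.rpow_one ‖x‖]
      rw [← Real.rpow_add hx0]
      norm_num
    rw [e1, ← Real.sqrt_eq_rpow]
    exact Real.le_sqrt_of_sq_le hx.le
  have h1 : (‖z‖ / ‖x‖) ^ (((d ^ (J + j) : ℕ) : ℝ) / m) ≤
      (‖x‖ ^ (-(1 / 2 : ℝ))) ^ (((d ^ (J + j) : ℕ) : ℝ) / m) :=
    Real.rpow_le_rpow (by positivity) hzs hθ
  calc ‖x‖ ^ ((N2 * d ^ (J + j) : ℕ) : ℝ) * (‖z‖ / ‖x‖) ^ (((d ^ (J + j) : ℕ) : ℝ) / m)
      ≤ ‖x‖ ^ ((N2 * d ^ (J + j) : ℕ) : ℝ) *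
        (‖x‖ ^ (-(1 / 2 : ℝ))) ^ (((d ^ (J + j) : ℕ) : ℝ) / m) := by
        exact mul_le_mul_of_nonneg_left h1 (by positivity)
    _ = ‖x‖ ^ (((N2 * d ^ (J + j) : ℕ) : ℝ) - ((d ^ (J + j) : ℕ) : ℝ) / ((2 * m : ℕ) : ℝ)) := by
        rw [← Real.rpow_mul hx0.le, ← Real.rpow_add hx0]
        congr 1
        push_cast
        ring

end Pool.Agent.Helper581_DML.Wild
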