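import Mathlib
import Pool.Agent.Helper581_DML.WDefs

/-!
Part W8 of the proof (helper581, MP_6ac234_nt): `local_factor`.

PLAIN PROOF. Let `H_x = h.map (evalRingHom x)` and `a_l(x)` the coefficients of `H_x(y0 + T)` in `T` (`taylor y0`): polynomials in `x`, so continuous. `H_(x0) ≠ 0`; let `e` be the least `l` with `a_l(x0) ≠ 0`
 (the multiplicity of the root `y0`). Choose `δ0 > 0` with `‖a_l(x0)‖ δ0^(l-e) ≤ ‖a_e(x0)‖` for all `l > e`. Let `0 < δ ≤ δ0`; then `‖a_l(x0)‖ δ^l ≤ ‖a_e(x0)‖ δ^e` for all `l`. Choose `ε` such that for `‖x - x0‖ < ε`: `‖a_e(x)‖ = ‖a_e(x0)‖ > 0`,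
 `‖a_l(x)‖ δ^l < ‖a_e(x0)‖ δ^e` for `l < e`, and `‖a_l(x)‖ δ^l ≤ ‖a_e(x0)‖ δ^e` for `l > e` (ultrametric, finitely many `l`). Fix such `x`; `H_x ≠ 0`. Write `H_x(y0 + T) = c ∏_{near} (T - t_j) ∏_{far} (T - s_j)` with
 `‖t_j‖ < δ ≤ ‖s_j‖`; `S` = the multiset of the near roots `y0 + t_j`. For `‖T‖ < δ`: `‖T - s_j‖ = ‖s_j‖`, so `‖H_x(y0+T)‖ = C_x ∏ ‖T - t_j‖`, `C_x = ‖c‖ ∏ ‖s_j‖ > 0`. It remains to see that the number `n` of near roots is `e`
 and `C_x = ‖a_e(x0)‖`. With `A(T) = ∏_{near} (T - t_j)` (monic of degree `n`, `‖A_(n-j)‖ < δ^j` for `j ≥ 1`) and `B(T) = c ∏_{far} (T - s_j)` (`‖B_0‖ = C_x`, `‖B_j‖ δ^j ≤ C_x`): the coefficient of `T^n` in `A B` has norm `C_x`, so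
 `‖a_n(x)‖ = C_x`, and for `l < n` `‖a_l(x)‖ δ^l < C_x δ^n`, for all `l` `‖a_l(x)‖ δ^l ≤ C_x δ^n`. So `n` is the least index where `‖a_l(x)‖ δ^l` is maximal, and `e` is it too; `n = e` and `C_x = ‖a_e(x)‖ = ‖a_e(x0)‖`.
-/

set_option autoImplicit false

namespace Pool.Agent.Helper581_DML.Wild

open Polynomial Filter
open scoped Polynomial.Bivariate

theorem lf_sub_eq {L : Type*} [NontriviallyNormedField L] [IsUltrametricDist L] {a b : L}
    (h : ‖b‖ < ‖a‖) : ‖a - b‖ = ‖a‖ := by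
  rw [sub_eq_add_neg, IsUltrametricDist.norm_add_eq_max_of_norm_ne_norm (by rw [norm_neg]; exact h.ne'),
    norm_neg, max_eq_left h.le]

theorem lf_sub_eq' {L : Type*} [NontriviallyNormedField L] [IsUltrametricDist L] {a b : L}
    (h : ‖b‖ < ‖a‖) : ‖b - a‖ = ‖a‖ := by
  rw [norm_sub_rev]
  exact lf_sub_eq h

theorem lf_sub_le {L : Type*} [NontriviallyNormedField L] [IsUltrametricDist L] (a b : L) :
    ‖a - b‖ ≤ max ‖a‖ ‖b‖ := by
  rw [sub_eq_add_neg]
  exact (IsUltrametricDist.norm_add_le_max a (-b)).trans (by rw [norm_neg])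

/-- the coefficient of index `n` is the first dominant one -/
def LfDom {L : Type*} [NontriviallyNormedField L] (δ : ℝ) (P : L[X]) (n : ℕ) (c : ℝ) : Prop :=
  ‖P.coeff n‖ = c ∧ (∀ l, l < n → ‖P.coeff l‖ * δ ^ l < c * δ ^ n) ∧
    ∀ l, ‖P.coeff l‖ * δ ^ l ≤ c * δ ^ n

theorem lf_uniq {L : Type*} [NontriviallyNormedField L] {δ : ℝ} {P : L[X]} {n m : ℕ}
    {c d : ℝ} (h1 : LfDom δ P n c) (h2 : LfDom δ P m d) : n = m ∧ c = d := by
  have key : ∀ {n m : ℕ} {c d : ℝ}, LfDom δ P n c → LfDom δ P m d → ¬ n < m := by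
    intro n m c d h1 h2 hlt
    have a1 := h2.2.1 n hlt
    have a2 := h1.2.2 m
    rw [h1.1] at a1
    rw [h2.1] at a2
    linarith
  have hnm : n = m := le_antisymm (not_lt.1 (key h2 h1)) (not_lt.1 (key h1 h2))
  subst hnm
  exact ⟨rfl, h1.1.symm.trans h2.1⟩

theorem lf_near {L : Type*} [NontriviallyNormedField L] [IsUltrametricDist L] {δ : ℝ} (hδ : 0 < δ)
    {P : L[X]} {n : ℕ} {c : ℝ} (hc : 0 < c) (h : LfDom δ P n c) {r : L} (hr : ‖r‖ < δ) :
    LfDom δ ((X - C r) * P) (n + 1) c := by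
  have hco0 : ((X - C r) * P).coeff 0 = - (r * P.coeff 0) := by
    rw [sub_mul, coeff_sub, coeff_C_mul, mul_coeff_zero, coeff_X_zero, zero_mul, zero_sub]
  have hcoS : ∀ k, ((X - C r) * P).coeff (k + 1) = P.coeff k - r * P.coeff (k + 1) := by
    intro k
    rw [sub_mul, coeff_sub, coeff_C_mul, coeff_X_mul]
  have hr0 : 0 ≤ ‖r‖ := norm_nonneg r
  have hpn : 0 < δ ^ n := pow_pos hδ n
  have hB : ∀ l, ‖r * P.coeff l‖ * δ ^ l < c * δ ^ (n + 1) := by
    intro l
    rw [norm_mul, mul_assoc]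
    have h1 := h.2.2 l
    calc ‖r‖ * (‖P.coeff l‖ * δ ^ l) ≤ ‖r‖ * (c * δ ^ n) := mul_le_mul_of_nonneg_left h1 hr0
      _ < δ * (c * δ ^ n) := mul_lt_mul_of_pos_right hr (mul_pos hc hpn)
      _ = c * δ ^ (n + 1) := by ring
  have hA : ∀ k, ‖P.coeff k‖ * δ ^ (k + 1) ≤ c * δ ^ (n + 1) := by
    intro k
    have h1 := mul_le_mul_of_nonneg_right (h.2.2 k) hδ.le
    calc ‖P.coeff k‖ * δ ^ (k + 1) = ‖P.coeff k‖ * δ ^ k * δ := by ring
      _ ≤ c * δ ^ n * δ := h1
      _ = c * δ ^ (n + 1) := by ring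
  have hA' : ∀ k, k < n → ‖P.coeff k‖ * δ ^ (k + 1) < c * δ ^ (n + 1) := by
    intro k hk
    have h1 := mul_lt_mul_of_pos_right (h.2.1 k hk) hδ
    calc ‖P.coeff k‖ * δ ^ (k + 1) = ‖P.coeff k‖ * δ ^ k * δ := by ring
      _ < c * δ ^ n * δ := h1
      _ = c * δ ^ (n + 1) := by ring
  refine ⟨?_, ?_, ?_⟩
  · rw [hcoS, lf_sub_eq, h.1]
    rw [h.1]
    have h1 := hB (n + 1)
    exact lt_of_mul_lt_mul_right h1 (pow_pos hδ (n + 1)).le
  · intro l hl
    rcases l with _ | k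
    · rw [hco0, norm_neg]
      exact hB 0
    · rw [hcoS]
      have h1 := mul_le_mul_of_nonneg_right (lf_sub_le (P.coeff k) (r * P.coeff (k + 1)))
        (pow_pos hδ (k + 1)).le
      refine h1.trans_lt ?_
      rw [max_mul_of_nonneg _ _ (pow_pos hδ (k + 1)).le]
      exact max_lt (hA' k (by omega)) (hB (k + 1))
  · intro l
    rcases l with _ | k
    · rw [hco0, norm_neg]
      exact (hB 0).le
    · rw [hcoS]
      have h1 := mul_le_mul_of_nonneg_right (lf_sub_le (P.coeff k) (r * P.coeff (k + 1)))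
        (pow_pos hδ (k + 1)).le
      refine h1.trans ?_
      rw [max_mul_of_nonneg _ _ (pow_pos hδ (k + 1)).le]
      exact max_le (hA k) (hB (k + 1)).le

theorem lf_far {L : Type*} [NontriviallyNormedField L] [IsUltrametricDist L] {δ : ℝ} (hδ : 0 < δ)
    {P : L[X]} {n : ℕ} {c : ℝ} (hc : 0 < c) (h : LfDom δ P n c) {r : L} (hr : δ ≤ ‖r‖) :
    LfDom δ ((X - C r) * P) n (‖r‖ * c) := by
  have hco0 : ((X - C r) * P).coeff 0 = - (r * P.coeff 0) := by
    rw [sub_mul, coeff_sub, coeff_C_mul, mul_coeff_zero, coeff_X_zero, zero_mul, zero_sub]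
  have hcoS : ∀ k, ((X - C r) * P).coeff (k + 1) = P.coeff k - r * P.coeff (k + 1) := by
    intro k
    rw [sub_mul, coeff_sub, coeff_C_mul, coeff_X_mul]
  have hr0 : 0 < ‖r‖ := hδ.trans_le hr
  have hpn : 0 < δ ^ n := pow_pos hδ n
  have hB : ∀ l, ‖r * P.coeff l‖ * δ ^ l ≤ ‖r‖ * c * δ ^ n := by
    intro l
    rw [norm_mul, mul_assoc, mul_assoc]
    exact mul_le_mul_of_nonneg_left (h.2.2 l) hr0.le
  have hB' : ∀ l, l < n → ‖r * P.coeff l‖ * δ ^ l < ‖r‖ * c * δ ^ n := by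
    intro l hl
    rw [norm_mul, mul_assoc, mul_assoc]
    exact mul_lt_mul_of_pos_left (h.2.1 l hl) hr0
  have hA : ∀ k, ‖P.coeff k‖ * δ ^ (k + 1) ≤ ‖r‖ * c * δ ^ n := by
    intro k
    have h1 := mul_le_mul_of_nonneg_left (h.2.2 k) hδ.le
    calc ‖P.coeff k‖ * δ ^ (k + 1) = δ * (‖P.coeff k‖ * δ ^ k) := by ring
      _ ≤ δ * (c * δ ^ n) := h1
      _ ≤ ‖r‖ * (c * δ ^ n) := mul_le_mul_of_nonneg_right hr (mul_pos hc hpn).le
      _ = ‖r‖ * c * δ ^ n := by ring
  have hA' : ∀ k, k < n → ‖P.coeff k‖ * δ ^ (k + 1) < ‖r‖ * c * δ ^ n := by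
    intro k hk
    have h1 := mul_lt_mul_of_pos_left (h.2.1 k hk) hδ
    calc ‖P.coeff k‖ * δ ^ (k + 1) = δ * (‖P.coeff k‖ * δ ^ k) := by ring
      _ < δ * (c * δ ^ n) := h1
      _ ≤ ‖r‖ * (c * δ ^ n) := mul_le_mul_of_nonneg_right hr (mul_pos hc hpn).le
      _ = ‖r‖ * c * δ ^ n := by ring
  refine ⟨?_, ?_, ?_⟩
  · rcases n with _ | k
    · rw [hco0, norm_neg, norm_mul, h.1]
    · rw [hcoS, lf_sub_eq', norm_mul, h.1]
      rw [norm_mul, h.1]
      have h1 := hA' k (by omega)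
      exact lt_of_mul_lt_mul_right h1 hpn.le
  · intro l hl
    rcases l with _ | k
    · rw [hco0, norm_neg]
      exact hB' 0 hl
    · rw [hcoS]
      have h1 := mul_le_mul_of_nonneg_right (lf_sub_le (P.coeff k) (r * P.coeff (k + 1)))
        (pow_pos hδ (k + 1)).le
      refine h1.trans_lt ?_
      rw [max_mul_of_nonneg _ _ (pow_pos hδ (k + 1)).le]
      exact max_lt (hA' k (by omega)) (hB' (k + 1) hl)
  · intro l
    rcases l with _ | k
    · rw [hco0, norm_neg]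
      exact hB 0
    · rw [hcoS]
      have h1 := mul_le_mul_of_nonneg_right (lf_sub_le (P.coeff k) (r * P.coeff (k + 1)))
        (pow_pos hδ (k + 1)).le
      refine h1.trans ?_
      rw [max_mul_of_nonneg _ _ (pow_pos hδ (k + 1)).le]
      exact max_le (hA k) (hB (k + 1))

/-- factorised polynomials -/
theorem lf_prod {L : Type*} [NontriviallyNormedField L] [IsUltrametricDist L] {δ : ℝ} (hδ : 0 < δ)
    {a : L} (ha : a ≠ 0) (R : Multiset L) :
    ∃ (c : ℝ) (S : Multiset L), 0 < c ∧ S ≤ R ∧ (∀ r ∈ S, ‖r‖ < δ) ∧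
      LfDom δ (C a * (R.map fun r => X - C r).prod) (Multiset.card S) c ∧
      ∀ T : L, ‖T‖ < δ → ‖(C a * (R.map fun r => X - C r).prod).eval T‖ =
        c * (S.map fun r => ‖T - r‖).prod := by
  induction R using Multiset.induction_on with
  | empty =>
    refine ⟨‖a‖, 0, norm_pos_iff.2 ha, le_refl _, ?_, ?_, ?_⟩
    · intro r hr
      exact absurd hr (Multiset.notMem_zero r)
    · rw [Multiset.map_zero, Multiset.prod_zero, mul_one, Multiset.card_zero]
      refine ⟨by rw [coeff_C_zero], fun l hl => absurd hl (Nat.not_lt_zero l), fun l => ?_⟩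
      rcases l with _ | k
      · rw [coeff_C_zero]
      · rw [coeff_C_succ, norm_zero, zero_mul]
        exact mul_nonneg (norm_nonneg a) (pow_pos hδ 0).le
    · intro T _
      simp
  | cons r R ih =>
    obtain ⟨c, S, hc, hS, hS1, hD, hE⟩ := ih
    have e1 : C a * (Multiset.map (fun r => X - C r) (r ::ₘ R)).prod =
        (X - C r) * (C a * (Multiset.map (fun r => X - C r) R).prod) := by
      rw [Multiset.map_cons, Multiset.prod_cons]
      ring
    rw [e1]
    by_cases hr : ‖r‖ < δ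
    · refine ⟨c, r ::ₘ S, hc, (Multiset.cons_le_cons_iff r).2 hS, ?_, ?_, ?_⟩
      · intro s hs
        rcases Multiset.mem_cons.1 hs with rfl | hs
        · exact hr
        · exact hS1 s hs
      · rw [Multiset.card_cons]
        exact lf_near hδ hc hD hr
      · intro T hT
        rw [eval_mul, norm_mul, hE T hT, Multiset.map_cons, Multiset.prod_cons, eval_sub, eval_X,
          eval_C]
        ring
    · rw [not_lt] at hr
      refine ⟨‖r‖ * c, S, mul_pos (hδ.trans_le hr) hc, hS.trans (Multiset.le_cons_self R r), hS1,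
        lf_far hδ hc hD hr, ?_⟩
      intro T hT
      rw [eval_mul, norm_mul, hE T hT, eval_sub, eval_X, eval_C, lf_sub_eq' (hT.trans_le hr)]
      ring

theorem local_factor {L : Type*} [NontriviallyNormedField L] [IsUltrametricDist L]
    [IsAlgClosed L] (h : L[X][Y]) (x0 y0 : L) (hx0 : h.map (evalRingHom x0) ≠ 0) :
    ∃ δ0 : ℝ, 0 < δ0 ∧ ∀ δ : ℝ, 0 < δ → δ ≤ δ0 → ∃ (ε C : ℝ) (e : ℕ), 0 < ε ∧ 0 < C ∧
      ∀ x : L, ‖x - x0‖ < ε → ∃ S : Multiset L, Multiset.card S = e ∧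
        (∀ z ∈ S, ‖z - y0‖ < δ ∧ evalEval x z h = 0) ∧
        ∀ y : L, ‖y - y0‖ < δ → ‖evalEval x y h‖ = C * (S.map (fun z => ‖y - z‖)).prod := by
  classical
  set g : L[X][Y] := h.comp (X + C (C y0)) with hg
  set a : L → ℕ → L := fun x l => (g.coeff l).eval x with ha
  set P : L → L[X] := fun x => g.map (evalRingHom x) with hP
  have hPa : ∀ x l, (P x).coeff l = a x l := by
    intro x l
    rw [hP, ha]
    simp only [coeff_map, coe_evalRingHom]
  have hPH : ∀ x, P x = (h.map (evalRingHom x)).comp (X + C y0) := by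
    intro x
    rw [hP, hg]
    simp only [Polynomial.map_comp, Polynomial.map_add, map_X, map_C, coe_evalRingHom, eval_C]
  have hPe : ∀ x y, evalEval x y h = (P x).eval (y - y0) := by
    intro x y
    rw [hPH, eval_comp, eval_add, eval_X, eval_C, sub_add_cancel, map_evalRingHom_eval]
  have hne : P x0 ≠ 0 := by
    intro h0
    apply hx0
    have h1 : (h.map (evalRingHom x0)) = (P x0).comp (X - C y0) := by
      rw [hPH, comp_assoc, add_comp, X_comp, C_comp, sub_add_cancel, comp_X]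
    rw [h1, h0, zero_comp]
  have hex : ∃ l, a x0 l ≠ 0 := by
    by_contra hcon
    push Not at hcon
    apply hne
    ext l
    rw [hPa, hcon l, coeff_zero]
  set e := Nat.find hex with he
  have he1 : a x0 e ≠ 0 := Nat.find_spec hex
  have he2 : ∀ l, l < e → a x0 l = 0 := fun l hl => by
    have := Nat.find_min hex hl
    push Not at this
    exact this
  set N := g.natDegree with hN
  have hbig : ∀ x l, N < l → a x l = 0 := by
    intro x l hl
    rw [ha]
    simp only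
    rw [coeff_eq_zero_of_natDegree_lt hl, eval_zero]
  set M : ℝ := 1 + ∑ l ∈ Finset.range (N + 1), ‖a x0 l‖ with hM
  have hM1 : 1 ≤ M := by
    rw [hM]
    have : 0 ≤ ∑ l ∈ Finset.range (N + 1), ‖a x0 l‖ := Finset.sum_nonneg fun _ _ => norm_nonneg _
    linarith
  have hMl : ∀ l, ‖a x0 l‖ ≤ M := by
    intro l
    by_cases hl : l ≤ N
    · have : ‖a x0 l‖ ≤ ∑ l ∈ Finset.range (N + 1), ‖a x0 l‖ :=
        Finset.single_le_sum (f := fun l => ‖a x0 l‖) (fun _ _ => norm_nonneg _)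
          (Finset.mem_range.2 (by omega))
      rw [hM]
      linarith
    · rw [hbig x0 l (by omega), norm_zero]
      linarith
  have hae : 0 < ‖a x0 e‖ := norm_pos_iff.2 he1
  refine ⟨min 1 (‖a x0 e‖ / M), lt_min one_pos (div_pos hae (by linarith)), ?_⟩
  intro δ hδ hδ0
  have hδ1 : δ ≤ 1 := hδ0.trans (min_le_left _ _)
  have hδ2 : M * δ ≤ ‖a x0 e‖ := by
    have := hδ0.trans (min_le_right _ _)
    rw [le_div_iff₀ (by linarith)] at this
    linarith
  set η : ℝ := ‖a x0 e‖ * δ ^ e with hη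
  have hη0 : 0 < η := mul_pos hae (pow_pos hδ e)
  have hpow1 : ∀ l : ℕ, δ ^ l ≤ 1 := fun l => pow_le_one₀ hδ.le hδ1
  have hη1 : η ≤ ‖a x0 e‖ := by
    rw [hη]
    exact mul_le_of_le_one_right hae.le (hpow1 e)
  have hcont : ∀ᶠ x in nhds x0, ∀ l ∈ Finset.range (N + 1), ‖a x l - a x0 l‖ < η := by
    rw [Filter.eventually_all_finset]
    intro l _
    have h1 : Continuous fun x => a x l := (g.coeff l).continuous
    have h2 := (Metric.tendsto_nhds.1 (h1.tendsto x0)) η hη0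
    filter_upwards [h2] with x hx
    rw [dist_eq_norm] at hx
    exact hx
  obtain ⟨ε, hε, hε1⟩ := Metric.eventually_nhds_iff.1 hcont
  refine ⟨ε, ‖a x0 e‖, e, hε, hae, ?_⟩
  intro x hx
  have hclose : ∀ l, ‖a x l - a x0 l‖ < η := by
    intro l
    by_cases hl : l ≤ N
    · exact hε1 (by rw [dist_eq_norm]; exact hx) l (Finset.mem_range.2 (by omega))
    · rw [hbig x l (by omega), hbig x0 l (by omega), sub_zero, norm_zero]
      exact hη0
  have hDx : LfDom δ (P x) e ‖a x0 e‖ := by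
    have hA : ∀ l, l < e → ‖(P x).coeff l‖ * δ ^ l < ‖a x0 e‖ * δ ^ e := by
      intro l hl
      rw [hPa]
      have h1 := hclose l
      rw [he2 l hl, sub_zero] at h1
      exact (mul_le_of_le_one_right (norm_nonneg _) (hpow1 l)).trans_lt h1
    have hEq : ‖(P x).coeff e‖ = ‖a x0 e‖ := by
      rw [hPa]
      have h1 : a x e = a x0 e - (a x0 e - a x e) := by ring
      rw [h1, lf_sub_eq]
      rw [norm_sub_rev]
      exact (hclose e).trans_le hη1
    refine ⟨hEq, hA, ?_⟩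
    intro l
    rcases lt_trichotomy l e with hl | hl | hl
    · exact (hA l hl).le
    · rw [hl, hEq]
    · rw [hPa]
      have h1 : a x l = a x0 l - (a x0 l - a x l) := by ring
      have h2 : ‖a x l‖ ≤ max ‖a x0 l‖ ‖a x0 l - a x l‖ := by
        conv_lhs => rw [h1]
        exact lf_sub_le _ _
      have h3 := mul_le_mul_of_nonneg_right h2 (pow_pos hδ l).le
      refine h3.trans ?_
      rw [max_mul_of_nonneg _ _ (pow_pos hδ l).le]
      refine max_le ?_ ?_
      · obtain ⟨k, rfl⟩ := Nat.exists_eq_add_of_lt hl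
        calc ‖a x0 (e + k + 1)‖ * δ ^ (e + k + 1) ≤ M * δ ^ (e + k + 1) :=
              mul_le_mul_of_nonneg_right (hMl _) (pow_pos hδ _).le
          _ = (M * δ) * δ ^ e * δ ^ k := by ring
          _ ≤ (M * δ) * δ ^ e * 1 := by
              apply mul_le_mul_of_nonneg_left (hpow1 k)
              have : 0 ≤ M := by linarith
              positivity
          _ = (M * δ) * δ ^ e := by ring
          _ ≤ ‖a x0 e‖ * δ ^ e := mul_le_mul_of_nonneg_right hδ2 (pow_pos hδ e).le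
      · rw [norm_sub_rev]
        exact (mul_le_of_le_one_right (norm_nonneg _) (hpow1 l)).trans (hclose l).le
  have hPx : P x ≠ 0 := by
    intro h0
    have := hDx.1
    rw [h0, coeff_zero, norm_zero] at this
    exact hae.ne this
  have hfac : P x = C (P x).leadingCoeff * ((P x).roots.map fun r => X - C r).prod :=
    (IsAlgClosed.splits (P x)).eq_prod_roots
  obtain ⟨c, S, hc, hS, hS1, hD, hE⟩ := lf_prod hδ (leadingCoeff_ne_zero.2 hPx) (P x).roots
  rw [← hfac] at hD hE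
  obtain ⟨hcard, hcc⟩ := lf_uniq hD hDx
  refine ⟨S.map fun r => y0 + r, ?_, ?_, ?_⟩
  · rw [Multiset.card_map]
    exact hcard
  · intro z hz
    obtain ⟨r, hr, rfl⟩ := Multiset.mem_map.1 hz
    rw [add_sub_cancel_left]
    refine ⟨hS1 r hr, ?_⟩
    rw [hPe, add_sub_cancel_left]
    exact isRoot_of_mem_roots (Multiset.mem_of_le hS hr)
  · intro y hy
    rw [hPe, hE _ hy, hcc, Multiset.map_map]
    congr 2
    refine Multiset.map_congr rfl fun r _ => ?_
    simp only [Function.comp]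
    congr 1
    ring

end Pool.Agent.Helper581_DML.Wild
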