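import Mathlib
import Pool.Agent.Helper581_DML.WDefs

/-!
Part W7 of the proof (helper581, MP_6ac234_nt): `contract`, `pair_discrete`.
-/

set_option autoImplicit false

namespace Pool.Agent.Helper581_DML.Wild

open Polynomial Filter
open scoped Polynomial.Bivariate

section aux

variable {L : Type*} [NontriviallyNormedField L] [IsUltrametricDist L]

theorem um_sum_lt {ι : Type*} (s : Finset ι) (f : ι → L) {M : ℝ} (hM : 0 < M)
    (h : ∀ i ∈ s, ‖f i‖ < M) : ‖∑ i ∈ s, f i‖ < M := by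
  refine Finset.sum_induction f (fun x => ‖x‖ < M) ?_ (by simpa using hM) h
  intro a b ha hb
  exact lt_of_le_of_lt (IsUltrametricDist.norm_add_le_max a b) (max_lt ha hb)

theorem um_add_eq {a b : L} (h : ‖b‖ < ‖a‖) : ‖a + b‖ = ‖a‖ := by
  rw [IsUltrametricDist.norm_add_eq_max_of_norm_ne_norm h.ne', max_eq_left h.le]

theorem poly_norm (P : L[X]) : ∃ R : ℝ, 1 ≤ R ∧ ∀ y : L, R < ‖y‖ →
    ‖P.eval y‖ = ‖P.leadingCoeff‖ * ‖y‖ ^ P.natDegree := by
  by_cases hP : P = 0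
  · exact ⟨1, le_rfl, fun y _ => by simp [hP]⟩
  have hlc : 0 < ‖P.leadingCoeff‖ := norm_pos_iff.2 (leadingCoeff_ne_zero.2 hP)
  obtain ⟨B, hB⟩ : ∃ B : ℝ, B = ∑ k ∈ Finset.range P.natDegree, ‖P.coeff k‖ := ⟨_, rfl⟩
  have hB0 : 0 ≤ B := by rw [hB]; exact Finset.sum_nonneg fun _ _ => norm_nonneg _
  have hBd : 0 ≤ B / ‖P.leadingCoeff‖ := div_nonneg hB0 hlc.le
  refine ⟨1 + B / ‖P.leadingCoeff‖, by linarith, fun y hY => ?_⟩
  have hY1 : 1 < ‖y‖ := by linarith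
  have hYB : B < ‖P.leadingCoeff‖ * ‖y‖ := by
    have h1 : B / ‖P.leadingCoeff‖ < ‖y‖ := by linarith
    rwa [div_lt_iff₀' hlc] at h1
  have hlast : ‖P.coeff P.natDegree * y ^ P.natDegree‖
      = ‖P.leadingCoeff‖ * ‖y‖ ^ P.natDegree := by
    rw [norm_mul, norm_pow]; rfl
  rw [eval_eq_sum_range, Finset.sum_range_succ, add_comm, um_add_eq, hlast]
  rw [hlast]
  apply um_sum_lt _ _ (by positivity)
  intro k hk
  rw [norm_mul, norm_pow]
  have hk' := Finset.mem_range.1 hk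
  have h1 : ‖P.coeff k‖ ≤ B := by
    rw [hB]
    exact Finset.single_le_sum (f := fun k => ‖P.coeff k‖) (fun _ _ => norm_nonneg _) hk
  calc ‖P.coeff k‖ * ‖y‖ ^ k ≤ B * ‖y‖ ^ k := by gcongr
    _ < (‖P.leadingCoeff‖ * ‖y‖) * ‖y‖ ^ k := by gcongr
    _ = ‖P.leadingCoeff‖ * ‖y‖ ^ (k + 1) := by ring
    _ ≤ ‖P.leadingCoeff‖ * ‖y‖ ^ P.natDegree := by
        gcongr
        · exact hY1.le
        · exact hk'

theorem norm_eq_of_close {y y' : L} (h : ‖y' - y‖ < ‖y‖) : ‖y'‖ = ‖y‖ := by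
  have : y' = y + (y' - y) := by ring
  rw [this, um_add_eq h]

theorem pow_sub_lt {y y' : L} (h : ‖y' - y‖ < ‖y‖) (k : ℕ) : ‖y' ^ k - y ^ k‖ < ‖y‖ ^ k := by
  have hY : 0 < ‖y‖ := (norm_nonneg _).trans_lt h
  induction k with
  | zero => simp
  | succ k ih =>
    have e : y' ^ (k + 1) - y ^ (k + 1) = y' * (y' ^ k - y ^ k) + (y' - y) * y ^ k := by ring
    rw [e]
    refine lt_of_le_of_lt (IsUltrametricDist.norm_add_le_max _ _) (max_lt ?_ ?_)
    · rw [norm_mul, norm_eq_of_close h, pow_succ']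
      gcongr
    · rw [norm_mul, norm_pow, pow_succ']
      gcongr

theorem step (g : L[X]) (hg : g.Monic) (d : ℕ) (hgd : g.natDegree = d) :
    ∃ R : ℝ, 1 ≤ R ∧ ∀ y y' : L, R < ‖y‖ → ‖y' - y‖ < ‖y‖ →
      ‖g.eval y‖ = ‖y‖ ^ d ∧ ‖g.eval y' - g.eval y‖ < ‖g.eval y‖ := by
  obtain ⟨R0, hR0, hn⟩ := poly_norm g
  obtain ⟨B, hB⟩ : ∃ B : ℝ, B = ∑ k ∈ Finset.range d, ‖g.coeff k‖ := ⟨_, rfl⟩
  have hB0 : 0 ≤ B := by rw [hB]; exact Finset.sum_nonneg fun _ _ => norm_nonneg _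
  refine ⟨R0 + B, by linarith, fun y y' hY hYY => ?_⟩
  have h1 : ‖g.eval y‖ = ‖y‖ ^ d := by
    rw [hn y (by linarith), hg.leadingCoeff, hgd, norm_one, one_mul]
  have hY0 : 0 < ‖y‖ := by linarith
  refine ⟨h1, ?_⟩
  rw [h1, eval_eq_sum_range, eval_eq_sum_range, ← Finset.sum_sub_distrib, hgd]
  apply um_sum_lt _ _ (by positivity)
  intro k hk
  rw [← mul_sub, norm_mul]
  rcases Nat.lt_succ_iff_lt_or_eq.1 (Finset.mem_range.1 hk) with hk' | rfl
  · have h2 : ‖g.coeff k‖ ≤ B := by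
      rw [hB]
      exact Finset.single_le_sum (f := fun k => ‖g.coeff k‖) (fun _ _ => norm_nonneg _)
        (Finset.mem_range.2 hk')
    calc ‖g.coeff k‖ * ‖y' ^ k - y ^ k‖ ≤ B * ‖y‖ ^ k := by
          gcongr
          exact (pow_sub_lt hYY k).le
      _ < ‖y‖ * ‖y‖ ^ k := by gcongr; linarith
      _ = ‖y‖ ^ (k + 1) := by ring
      _ ≤ ‖y‖ ^ d := by
        gcongr
        · linarith
        · exact hk'
  · have h3 : g.coeff k = 1 := by rw [← hgd]; exact hg.leadingCoeff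
    rw [h3, norm_one, one_mul]
    exact pow_sub_lt hYY k

end aux

theorem contract {p : ℕ} [Fact p.Prime] {L : Type*} [NontriviallyNormedField L]
    [IsUltrametricDist L] [CharP L p] (g : L[X]) (hg : g.Monic) (d : ℕ) (hd2 : 2 ≤ d)
    (hgd : g.natDegree = d) :
    ∃ R : ℝ, 1 ≤ R ∧ ∀ v v' : L, R < ‖v‖ → ‖v' - v‖ < ‖v‖ → ∀ i : ℕ,
      ‖(fun z => g.eval z)^[i] v‖ = ‖v‖ ^ d ^ i ∧
      ‖(fun z => g.eval z)^[i] v' - (fun z => g.eval z)^[i] v‖ <
        ‖(fun z => g.eval z)^[i] v‖ := by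
  obtain ⟨R, hR, hs⟩ := step g hg d hgd
  refine ⟨R, hR, fun v v' hv hvv i => ?_⟩
  induction i with
  | zero => simpa using hvv
  | succ i ih =>
    obtain ⟨ih1, ih2⟩ := ih
    have h1 : R < ‖(fun z => g.eval z)^[i] v‖ := by
      rw [ih1]
      refine hv.trans_le ?_
      have h2 : 1 ≤ d ^ i := Nat.one_le_pow _ _ (by omega)
      calc ‖v‖ = ‖v‖ ^ 1 := (pow_one _).symm
        _ ≤ ‖v‖ ^ d ^ i := pow_le_pow_right₀ (by linarith) h2
    obtain ⟨h3, h4⟩ := hs _ _ h1 ih2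
    rw [Function.iterate_succ_apply', Function.iterate_succ_apply']
    refine ⟨?_, h4⟩
    rw [h3, ih1, ← pow_mul, pow_succ]

section taylor

theorem choose_prime_pow (p : ℕ) [Fact p.Prime] (s d' : ℕ) :
    (((p ^ s * d').choose (p ^ s) : ℕ) : ZMod p) = (d' : ZMod p) := by
  induction s with
  | zero => simp
  | succ s ih =>
    have h := Choose.choose_modEq_choose_mod_mul_choose_div (n := p ^ (s + 1) * d')
      (k := p ^ (s + 1)) (p := p)
    have hp : 0 < p := (Fact.out : p.Prime).pos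
    have e1 : p ^ (s + 1) * d' = p * (p ^ s * d') := by ring
    have e2 : p ^ (s + 1) = p * p ^ s := by ring
    have e3 : (p ^ (s + 1) * d') % p = 0 := by rw [e1, Nat.mul_mod_right]
    have e4 : p ^ (s + 1) % p = 0 := by rw [e2, Nat.mul_mod_right]
    have e5 : (p ^ (s + 1) * d') / p = p ^ s * d' := by rw [e1, Nat.mul_div_cancel_left _ hp]
    have e6 : p ^ (s + 1) / p = p ^ s := by rw [e2, Nat.mul_div_cancel_left _ hp]
    rw [e3, e4, e5, e6, Nat.choose_self, Nat.cast_one, one_mul] at h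
    have h' := (ZMod.intCast_eq_intCast_iff _ _ _).2 h
    rw [Int.cast_natCast, Int.cast_natCast] at h'
    rw [h', ih]

variable {L : Type*} [NontriviallyNormedField L] [IsUltrametricDist L]

theorem norm_natCast_eq_one (p : ℕ) [Fact p.Prime] [CharP L p] (n : ℕ) (hn : (n : ZMod p) ≠ 0) :
    ‖(n : L)‖ = 1 := by
  have h1 : (n : ZMod p) ^ (p - 1) = 1 := ZMod.pow_card_sub_one_eq_one hn
  have h2 : (n : L) ^ (p - 1) = 1 := by
    have := congrArg (ZMod.castHom (dvd_refl p) L) h1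
    simpa using this
  have h3 : ‖(n : L)‖ ^ (p - 1) = 1 := by rw [← norm_pow, h2, norm_one]
  have hp := (Fact.out : p.Prime).two_le
  exact (pow_eq_one_iff_of_nonneg (norm_nonneg _) (by omega)).1 h3

/-- the Taylor expansion with norms of the coefficients -/
theorem expand (p : ℕ) [Fact p.Prime] [CharP L p] (g : L[X]) (hg : g.Monic) (d s d' : ℕ)
    (hd : d = p ^ s * d') (hd' : 2 ≤ d') (hpd' : ¬ p ∣ d') (hgd : g.natDegree = d) :
    ∃ (R : ℝ) (α : ℕ → ℝ → ℝ), 1 ≤ R ∧ (∀ j r, 0 ≤ r → 0 ≤ α j r) ∧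
      (∀ j r, R < r → α j r ≤ 1) ∧ (∀ r, R < r → α (p ^ s) r = 1) ∧
      ∀ y : L, R < ‖y‖ → ‖g.eval y‖ ≠ 0 ∧ ∃ a : ℕ → L, (∀ j, ‖a j‖ = α j ‖y‖) ∧
        ∀ y' : L, g.eval y' - g.eval y
          = g.eval y * ∑ j ∈ Finset.Icc 1 d, a j * ((y' - y) / y) ^ j := by
  have hp := (Fact.out : p.Prime)
  choose Rj hRj1 hRj using fun j => poly_norm (hasseDeriv j g)
  obtain ⟨R0, hR0, hn0⟩ := poly_norm g
  obtain ⟨R, hR⟩ : ∃ R : ℝ, R = R0 + ∑ j ∈ Finset.range (d + 1),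
    (Rj j + ‖(hasseDeriv j g).leadingCoeff‖) := ⟨_, rfl⟩
  have hterm : ∀ j, 0 ≤ Rj j + ‖(hasseDeriv j g).leadingCoeff‖ := fun j => by
    have := hRj1 j
    have := norm_nonneg (hasseDeriv j g).leadingCoeff
    linarith
  have hsum : ∀ j ∈ Finset.range (d + 1), Rj j + ‖(hasseDeriv j g).leadingCoeff‖ ≤ R - R0 := by
    intro j hj
    rw [hR, add_sub_cancel_left]
    exact Finset.single_le_sum (f := fun j => Rj j + ‖(hasseDeriv j g).leadingCoeff‖)
      (fun j _ => hterm j) hj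
  have hRR0 : R0 ≤ R := by
    rw [hR]
    have := Finset.sum_nonneg (s := Finset.range (d + 1)) (fun j _ => hterm j)
    linarith
  have hbig : ∀ j, d < j → hasseDeriv j g = 0 := fun j hj =>
    hasseDeriv_eq_zero_of_lt_natDegree g j (by rw [hgd]; exact hj)
  have hcoef : ∀ j, j ≤ d → (hasseDeriv j g).coeff (d - j) = (d.choose j : L) := by
    intro j hj
    rw [hasseDeriv_coeff, Nat.sub_add_cancel hj]
    have : g.coeff d = 1 := by rw [← hgd]; exact hg.leadingCoeff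
    rw [this, mul_one]
  have hdeg : ∀ j, (hasseDeriv j g).natDegree ≤ d - j := fun j => by
    rw [← hgd]; exact natDegree_hasseDeriv_le g j
  refine ⟨R, fun j r => ‖(hasseDeriv j g).leadingCoeff‖ * r ^ (hasseDeriv j g).natDegree * r ^ j
    / r ^ d, by linarith, ?_, ?_, ?_, ?_⟩
  · intro j r hr
    positivity
  · intro j r hr
    beta_reduce
    have hr1 : 1 < r := by linarith
    have hr0 : 0 < r := by linarith
    rcases lt_or_ge d j with hj | hj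
    · rw [hbig j hj]; simp
    rw [div_le_one (by positivity)]
    rcases (hdeg j).lt_or_eq with hlt | heq
    · have h1 : ‖(hasseDeriv j g).leadingCoeff‖ ≤ r := by
        have h2 := hsum j (Finset.mem_range.2 (by omega))
        have h3 := hRj1 j
        linarith
      calc ‖(hasseDeriv j g).leadingCoeff‖ * r ^ (hasseDeriv j g).natDegree * r ^ j
          ≤ r * r ^ (hasseDeriv j g).natDegree * r ^ j := by gcongr
        _ = r ^ ((hasseDeriv j g).natDegree + j + 1) := by ring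
        _ ≤ r ^ d := pow_le_pow_right₀ hr1.le (by omega)
    · have h1 : (hasseDeriv j g).leadingCoeff = (d.choose j : L) := by
        rw [leadingCoeff, heq, hcoef j hj]
      have h2 : ‖(hasseDeriv j g).leadingCoeff‖ ≤ 1 := by
        rw [h1]; exact IsUltrametricDist.norm_natCast_le_one L _
      calc ‖(hasseDeriv j g).leadingCoeff‖ * r ^ (hasseDeriv j g).natDegree * r ^ j
          ≤ 1 * r ^ (d - j) * r ^ j := by rw [heq]; gcongr
        _ = r ^ d := by rw [one_mul, ← pow_add, Nat.sub_add_cancel hj]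
  · intro r hr
    have hr0 : 0 < r := by linarith
    have hpd : p ^ s ≤ d := by
      rw [hd]; exact Nat.le_mul_of_pos_right _ (by omega)
    have hne : ((d.choose (p ^ s) : ℕ) : ZMod p) ≠ 0 := by
      rw [hd, choose_prime_pow]
      intro h0
      exact hpd' ((ZMod.natCast_eq_zero_iff _ _).1 h0)
    have h1 := norm_natCast_eq_one (L := L) p _ hne
    have h2 : (hasseDeriv (p ^ s) g).coeff (d - p ^ s) ≠ 0 := by
      rw [hcoef _ hpd]
      intro h0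
      rw [h0, norm_zero] at h1
      exact zero_ne_one h1
    have h3 : (hasseDeriv (p ^ s) g).natDegree = d - p ^ s :=
      le_antisymm (hdeg _) (le_natDegree_of_ne_zero h2)
    have h4 : (hasseDeriv (p ^ s) g).leadingCoeff = (d.choose (p ^ s) : L) := by
      rw [leadingCoeff, h3, hcoef _ hpd]
    show ‖(hasseDeriv (p ^ s) g).leadingCoeff‖ * r ^ (hasseDeriv (p ^ s) g).natDegree
      * r ^ (p ^ s) / r ^ d = 1
    rw [h4, h1, h3, one_mul, ← pow_add, Nat.sub_add_cancel hpd, div_self (by positivity)]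
  · intro y hY
    have hY0 : 0 < ‖y‖ := by linarith
    have hYne : y ≠ 0 := norm_pos_iff.1 hY0
    have hgY : ‖g.eval y‖ = ‖y‖ ^ d := by
      rw [hn0 y (by linarith), hg.leadingCoeff, hgd, norm_one, one_mul]
    have hgne : ‖g.eval y‖ ≠ 0 := by rw [hgY]; positivity
    have hgne' : g.eval y ≠ 0 := norm_ne_zero_iff.1 hgne
    refine ⟨hgne, fun j => (hasseDeriv j g).eval y * y ^ j / g.eval y, ?_, ?_⟩
    · intro j
      beta_reduce
      rw [norm_div, norm_mul, norm_pow, hgY]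
      rcases lt_or_ge d j with hj | hj
      · rw [hbig j hj]; simp
      · have h2 := hsum j (Finset.mem_range.2 (by omega))
        have h3 := norm_nonneg (hasseDeriv j g).leadingCoeff
        rw [hRj j y (by linarith)]
    · intro y'
      have h1 : g.eval y' = (taylor y g).eval (y' - y) := by rw [taylor_eval]; congr 1; ring
      have h2 : (taylor y g).eval (y' - y) = ∑ j ∈ Finset.range (d + 1),
          (hasseDeriv j g).eval y * (y' - y) ^ j := by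
        rw [eval_eq_sum_range, natDegree_taylor, hgd]
        refine Finset.sum_congr rfl fun j _ => ?_
        rw [taylor_coeff]
      have h3 : Finset.range (d + 1) = insert 0 (Finset.Icc 1 d) := by
        ext j
        simp only [Finset.mem_range, Finset.mem_insert, Finset.mem_Icc]
        omega
      rw [h1, h2, h3, Finset.sum_insert (by simp)]
      simp only [hasseDeriv_zero, LinearMap.id_coe, id_eq, pow_zero, mul_one]
      rw [add_sub_cancel_left, Finset.mul_sum]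
      refine Finset.sum_congr rfl fun j _ => ?_
      rw [div_pow]
      field_simp

end taylor

section tie

/-- the largest term -/
noncomputable def FF (α : ℕ → ℝ → ℝ) (q : ℕ) (r t : ℝ) : ℝ :=
  ⨆ j : Fin q, α (j.1 + 1) r * t ^ (j.1 + 1)

/-- ties -/
def Tie (α : ℕ → ℝ → ℝ) (q : ℕ) (r : ℝ) : Set ℝ :=
  {t | 0 < t ∧ ∃ j l : ℕ, j < l ∧ l ≤ q ∧ α j r * t ^ j = α l r * t ^ l ∧ α l r * t ^ l ≠ 0}

theorem tie_finite (α : ℕ → ℝ → ℝ) (q : ℕ) (r : ℝ) : (Tie α q r).Finite := by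
  have h1 : Tie α q r ⊆ ⋃ j ∈ Finset.range (q + 1), ⋃ l ∈ Finset.range (q + 1),
      {t : ℝ | 0 < t ∧ j < l ∧ α j r * t ^ j = α l r * t ^ l ∧ α l r * t ^ l ≠ 0} := by
    rintro t ⟨ht, j, l, hjl, hl, he, hne⟩
    simp only [Set.mem_iUnion, Finset.mem_range]
    exact ⟨j, by omega, l, by omega, ht, hjl, he, hne⟩
  refine Set.Finite.subset ?_ h1
  refine Set.Finite.biUnion (Finset.finite_toSet _) fun j _ => ?_
  refine Set.Finite.biUnion (Finset.finite_toSet _) fun l _ => ?_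
  apply Set.Subsingleton.finite
  rintro t ⟨ht, hjl, he, hne⟩ t' ⟨ht', -, he', -⟩
  have hαl : α l r ≠ 0 := fun h0 => hne (by rw [h0, zero_mul])
  have key : ∀ u : ℝ, 0 < u → α j r * u ^ j = α l r * u ^ l → u ^ (l - j) = α j r / α l r := by
    intro u hu h
    rw [eq_div_iff hαl]
    have h2 : u ^ l = u ^ (l - j) * u ^ j := by rw [← pow_add, Nat.sub_add_cancel hjl.le]
    rw [h2, ← mul_assoc] at h
    have h3 := mul_right_cancel₀ (pow_pos hu j).ne' h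
    rw [h3]; ring
  have h4 : t ^ (l - j) = t' ^ (l - j) := by rw [key t ht he, key t' ht' he']
  exact (pow_left_inj₀ ht.le ht'.le (by omega)).1 h4

variable {α : ℕ → ℝ → ℝ} {q : ℕ} {r : ℝ}

theorem FF_le (j : ℕ) (hj1 : 1 ≤ j) (hj : j ≤ q) (t : ℝ) : α j r * t ^ j ≤ FF α q r t := by
  have h := le_ciSup (f := fun j : Fin q => α (j.1 + 1) r * t ^ (j.1 + 1))
    (Set.finite_range _).bddAbove ⟨j - 1, by omega⟩
  simp only [Nat.sub_add_cancel hj1] at h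
  exact h

theorem FF_att (hq : 1 ≤ q) (t : ℝ) : ∃ j, 1 ≤ j ∧ j ≤ q ∧ FF α q r t = α j r * t ^ j := by
  have : Nonempty (Fin q) := ⟨⟨0, hq⟩⟩
  obtain ⟨i, hi⟩ := exists_eq_ciSup_of_finite (f := fun j : Fin q => α (j.1 + 1) r * t ^ (j.1 + 1))
  exact ⟨i.1 + 1, by omega, i.2, hi.symm⟩

theorem FF_ge (hq : 1 ≤ q) (h1 : α q r = 1) (t : ℝ) : t ^ q ≤ FF α q r t := by
  have := FF_le (α := α) (r := r) q hq le_rfl t
  rwa [h1, one_mul] at this

theorem FF_pos (hq : 1 ≤ q) (h1 : α q r = 1) {t : ℝ} (ht : 0 < t) : 0 < FF α q r t :=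
  (pow_pos ht q).trans_le (FF_ge hq h1 t)

theorem FF_strict (hq : 1 ≤ q) (h1 : α q r = 1) (h0 : ∀ j, 0 ≤ α j r) {t t' : ℝ} (ht : 0 < t)
    (htt : t < t') : FF α q r t < FF α q r t' := by
  obtain ⟨j, hj1, hj, he⟩ := FF_att (α := α) (r := r) hq t
  have hp := FF_pos hq h1 ht
  rw [he] at hp ⊢
  have hα : 0 < α j r := by
    rcases (h0 j).lt_or_eq with h | h
    · exact h
    · rw [← h, zero_mul] at hp; exact absurd hp (lt_irrefl _)
  refine lt_of_lt_of_le ?_ (FF_le j hj1 hj t')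
  have : t ^ j < t' ^ j := pow_lt_pow_left₀ htt ht.le (by omega)
  gcongr

theorem FF_inj (hq : 1 ≤ q) (h1 : α q r = 1) (h0 : ∀ j, 0 ≤ α j r) :
    Set.InjOn (FF α q r) (Set.Ioi 0) := by
  intro t ht t' ht' he
  rcases lt_trichotomy t t' with h | h | h
  · exact absurd he (FF_strict hq h1 h0 ht h).ne
  · exact h
  · exact absurd he (FF_strict hq h1 h0 ht' h).ne'

/-- the compositions -/
noncomputable def GG (α : ℕ → ℝ → ℝ) (q : ℕ) (ri : ℕ → ℝ) : ℕ → ℝ → ℝ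
  | 0, t => t
  | i + 1, t => FF α q (ri i) (GG α q ri i t)

theorem GG_facts (hq : 1 ≤ q) (ri : ℕ → ℝ) (h1 : ∀ i, α q (ri i) = 1)
    (h0 : ∀ i j, 0 ≤ α j (ri i)) (i : ℕ) :
    (∀ t, 0 < t → 0 < GG α q ri i t ∧ t ^ q ^ i ≤ GG α q ri i t) ∧
      Set.InjOn (GG α q ri i) (Set.Ioi 0) := by
  induction i with
  | zero =>
    refine ⟨fun t ht => ⟨ht, by simp [GG]⟩, fun t _ t' _ h => h⟩
  | succ i ih =>
    refine ⟨fun t ht => ?_, fun t ht t' ht' h => ?_⟩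
    · obtain ⟨g1, g2⟩ := ih.1 t ht
      refine ⟨FF_pos hq (h1 i) g1, ?_⟩
      calc t ^ q ^ (i + 1) = (t ^ q ^ i) ^ q := by rw [← pow_mul, pow_succ]
        _ ≤ (GG α q ri i t) ^ q := pow_le_pow_left₀ (by positivity) g2 q
        _ ≤ _ := FF_ge hq (h1 i) _
    · exact ih.2 ht ht' (FF_inj hq (h1 i) (h0 i) (ih.1 t ht).1 (ih.1 t' ht').1 h)

end tie

section rec

variable {L : Type*} [NontriviallyNormedField L] [IsUltrametricDist L]

/-- one step without tie -/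
theorem rec_step {α : ℕ → ℝ → ℝ} {q d : ℕ} (hq : 1 ≤ q) (hqd : q ≤ d) (y y' : L) (g g' : L)
    (hg : ‖g‖ ≠ 0) (h0 : ∀ j, 0 ≤ α j ‖y‖) (hle : ∀ j, α j ‖y‖ ≤ 1) (h1 : α q ‖y‖ = 1)
    (a : ℕ → L) (ha : ∀ j, ‖a j‖ = α j ‖y‖)
    (hgg : g' - g = g * ∑ j ∈ Finset.Icc 1 d, a j * ((y' - y) / y) ^ j)
    (ht0 : 0 < ‖y' - y‖ / ‖y‖) (ht1 : ‖y' - y‖ / ‖y‖ < 1)
    (hnt : ‖y' - y‖ / ‖y‖ ∉ Tie α q ‖y‖) :
    ‖g' - g‖ / ‖g‖ = FF α q ‖y‖ (‖y' - y‖ / ‖y‖) := by
  obtain ⟨t, ht⟩ : ∃ t : ℝ, t = ‖y' - y‖ / ‖y‖ := ⟨_, rfl⟩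
  rw [← ht] at ht0 ht1 hnt ⊢
  have hterm : ∀ j, ‖a j * ((y' - y) / y) ^ j‖ = α j ‖y‖ * t ^ j := fun j => by
    rw [norm_mul, norm_pow, norm_div, ha, ht]
  obtain ⟨j0, hj1, hj2, hj3⟩ := FF_att (α := α) (r := ‖y‖) hq t
  have hpos := FF_pos (α := α) (r := ‖y‖) hq h1 ht0
  rw [hgg, norm_mul, mul_div_cancel_left₀ _ hg]
  rw [← Finset.add_sum_erase _ _ (Finset.mem_Icc.2 ⟨hj1, hj2.trans hqd⟩ : j0 ∈ Finset.Icc 1 d),
    um_add_eq, hterm, hj3]
  rw [hterm, ← hj3]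
  apply um_sum_lt _ _ hpos
  intro j hj
  rw [Finset.mem_erase, Finset.mem_Icc] at hj
  obtain ⟨hjne, hjge, hjd⟩ := hj
  rw [hterm]
  rcases le_or_gt j q with hjq | hjq
  · refine lt_of_le_of_ne (FF_le j hjge hjq t) fun heq => hnt ⟨ht0, ?_⟩
    rw [hj3] at heq hpos
    rcases lt_or_gt_of_ne hjne with h | h
    · exact ⟨j, j0, h, hj2, heq, hpos.ne'⟩
    · exact ⟨j0, j, h, hjq, heq.symm, by rw [heq]; exact hpos.ne'⟩
  · calc α j ‖y‖ * t ^ j ≤ 1 * t ^ j := by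
          have := hle j
          gcongr
      _ = t ^ j := one_mul _
      _ < t ^ q := pow_lt_pow_right_of_lt_one₀ ht0 ht1 hjq
      _ ≤ _ := FF_ge hq h1 t

end rec

theorem pair_discrete {p : ℕ} [Fact p.Prime] {L : Type*} [NontriviallyNormedField L]
    [IsUltrametricDist L] [CharP L p] (g : L[X]) (hg : g.Monic) (d s d' : ℕ) (hd : d = p ^ s * d')
    (hd' : 2 ≤ d') (hpd' : ¬ p ∣ d') (hgd : g.natDegree = d) :
    ∃ R : ℝ, 1 ≤ R ∧ ∀ r : ℝ, R < r → ∀ (A : ℕ) (ε : ℝ), 0 < ε → ∃ V : Finset ℝ, ∀ v v' : L,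
      ‖v‖ = r → ‖v' - v‖ < ‖v‖ → v' ≠ v →
      (∀ i : ℕ, ‖(fun z => g.eval z)^[i] v' - (fun z => g.eval z)^[i] v‖ ^ A *
        ‖(fun z => g.eval z)^[i] v‖ ≤ ‖(fun z => g.eval z)^[i] v‖ ^ A) →
      ε ≤ ‖v' - v‖ → ‖v' - v‖ ∈ V := by
  classical
  have hp := (Fact.out : p.Prime)
  have hq : 1 ≤ p ^ s := Nat.one_le_pow _ _ hp.pos
  have hqd : p ^ s ≤ d := by rw [hd]; exact Nat.le_mul_of_pos_right _ (by omega)
  have hd2 : 2 ≤ d := by
    rw [hd]
    calc 2 ≤ d' := hd'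
      _ ≤ p ^ s * d' := Nat.le_mul_of_pos_left _ hq
  obtain ⟨R1, hR1, hcon⟩ := contract (p := p) g hg d hd2 hgd
  obtain ⟨R2, α, hR2, hα0, hα1, hαq, hexp⟩ := expand p g hg d s d' hd hd' hpd' hgd
  refine ⟨max R1 R2, hR1.trans (le_max_left _ _), fun r hr A ε hε => ?_⟩
  have hr1 : R1 < r := (le_max_left _ _).trans_lt hr
  have hr2 : R2 < r := (le_max_right _ _).trans_lt hr
  have hrone : 1 < r := by linarith
  have hr0 : 0 < r := by linarith
  have hri : ∀ i, r ≤ r ^ d ^ i := fun i => by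
    calc r = r ^ 1 := (pow_one _).symm
      _ ≤ r ^ d ^ i := pow_le_pow_right₀ hrone.le (Nat.one_le_pow _ _ (by omega))
  -- the last possible time
  obtain ⟨I0, hI0⟩ : ∃ I0 : ℕ, 1 < (ε / r) ^ A * r ^ d' ^ I0 := by
    have h1 : Tendsto (fun n : ℕ => r ^ d' ^ n) atTop atTop :=
      (tendsto_pow_atTop_atTop_of_one_lt hrone).comp
        (tendsto_pow_atTop_atTop_of_one_lt (by omega : 1 < d'))
    have h2 : Tendsto (fun n : ℕ => (ε / r) ^ A * r ^ d' ^ n) atTop atTop :=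
      h1.const_mul_atTop (by positivity)
    exact (h2.eventually_gt_atTop 1).exists
  have hGG := GG_facts (α := α) hq (fun i => r ^ d ^ i) (fun i => hαq _ (hr2.trans_le (hri i)))
    (fun i j => hα0 j _ (by positivity))
  have hfin : ∀ i, (Set.Ioi (0 : ℝ) ∩ GG α (p ^ s) (fun i => r ^ d ^ i) i ⁻¹'
      Tie α (p ^ s) (r ^ d ^ i)).Finite := by
    intro i
    have h1 := (tie_finite α (p ^ s) (r ^ d ^ i))
    have h2 : Set.InjOn (GG α (p ^ s) (fun i => r ^ d ^ i) i)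
        (Set.Ioi (0 : ℝ) ∩ GG α (p ^ s) (fun i => r ^ d ^ i) i ⁻¹' Tie α (p ^ s) (r ^ d ^ i)) :=
      (hGG i).2.mono Set.inter_subset_left
    refine Set.Finite.of_finite_image (h1.subset ?_) h2
    rintro _ ⟨t, ⟨-, ht⟩, rfl⟩
    exact ht
  refine ⟨(Finset.range I0).biUnion fun i => (hfin i).toFinset.image fun t => r * t, ?_⟩
  intro v v' hv hvv hne hA hε'
  have hc := hcon v v' (by rw [hv]; exact hr1) hvv
  rw [hv] at hc
  set y : ℕ → L := fun i => (fun z => g.eval z)^[i] v with hYdef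
  set y' : ℕ → L := fun i => (fun z => g.eval z)^[i] v' with hYdef'
  have hYn : ∀ i, ‖y i‖ = r ^ d ^ i := fun i => (hc i).1
  have hYlt : ∀ i, ‖y' i - y i‖ < ‖y i‖ := fun i => (hc i).2
  have hYp : ∀ i, 0 < ‖y i‖ := fun i => by rw [hYn]; positivity
  have ht1 : ∀ i, ‖y' i - y i‖ / ‖y i‖ < 1 := fun i => by
    rw [div_lt_one (hYp i)]; exact hYlt i
  have hYsucc : ∀ i, y (i + 1) = g.eval (y i) := fun i => by
    rw [hYdef]; exact Function.iterate_succ_apply' _ _ _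
  have hYsucc' : ∀ i, y' (i + 1) = g.eval (y' i) := fun i => by
    rw [hYdef']; exact Function.iterate_succ_apply' _ _ _
  have ht00 : 0 < ‖y' 0 - y 0‖ / ‖y 0‖ := by
    have : y' 0 - y 0 ≠ 0 := sub_ne_zero.2 hne
    have := norm_pos_iff.2 this
    exact div_pos this (hYp 0)
  have hrec : ∀ i, 0 < ‖y' i - y i‖ / ‖y i‖ →
      ‖y' i - y i‖ / ‖y i‖ ∉ Tie α (p ^ s) (r ^ d ^ i) →
      ‖y' (i + 1) - y (i + 1)‖ / ‖y (i + 1)‖
        = FF α (p ^ s) (r ^ d ^ i) (‖y' i - y i‖ / ‖y i‖) := by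
    intro i hi hnt
    have hRi : R2 < ‖y i‖ := by rw [hYn]; exact hr2.trans_le (hri i)
    obtain ⟨h1, a, h2, h3⟩ := hexp (y i) hRi
    have h4 := rec_step (α := α) (d := d) hq hqd (y i) (y' i) (g.eval (y i)) (g.eval (y' i)) h1
      (fun j => hα0 j _ (norm_nonneg _)) (fun j => hα1 j _ hRi) (hαq _ hRi) a h2 (h3 (y' i)) hi
      (ht1 i) (by rw [hYn i] at hnt ⊢; exact hnt)
    rw [hYsucc, hYsucc', h4, hYn]
  have hG : ∀ i, (∀ k < i, ‖y' k - y k‖ / ‖y k‖ ∉ Tie α (p ^ s) (r ^ d ^ k)) →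
      ‖y' i - y i‖ / ‖y i‖ = GG α (p ^ s) (fun i => r ^ d ^ i) i (‖y' 0 - y 0‖ / ‖y 0‖) := by
    intro i
    induction i with
    | zero => intro _; rfl
    | succ i ih =>
      intro h
      have h1 := ih fun k hk => h k (by omega)
      have h2 : 0 < ‖y' i - y i‖ / ‖y i‖ := by rw [h1]; exact ((hGG i).1 _ ht00).1
      rw [hrec i h2 (h i (by omega)), h1]
      rfl
  -- there is a tie
  have htie : ∃ i, i < I0 ∧ ‖y' i - y i‖ / ‖y i‖ ∈ Tie α (p ^ s) (r ^ d ^ i) := by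
    by_contra hno
    push Not at hno
    have h1 := hG I0 hno
    have h2 := ((hGG I0).1 _ ht00).2
    rw [← h1] at h2
    have h3 : (‖y' I0 - y I0‖ / ‖y I0‖) ^ A * ‖y I0‖ ≤ 1 := by
      have h4 := hA I0
      have h5 : ‖y' I0 - y I0‖ ^ A * ‖y I0‖ ≤ ‖y I0‖ ^ A := h4
      rw [div_pow, div_mul_eq_mul_div, div_le_one (pow_pos (hYp I0) A)]
      exact h5
    have h6 : ε / r ≤ ‖y' 0 - y 0‖ / ‖y 0‖ := by
      have : ‖y 0‖ = r := hv
      rw [this]
      have h7 : ε ≤ ‖y' 0 - y 0‖ := hε'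
      gcongr
    have h8 : ((ε / r) ^ A * r ^ d' ^ I0) ^ (p ^ s) ^ I0 ≤ 1 := by
      calc ((ε / r) ^ A * r ^ d' ^ I0) ^ (p ^ s) ^ I0
          = ((ε / r) ^ (p ^ s) ^ I0) ^ A * r ^ d ^ I0 := by
            rw [mul_pow, ← pow_mul, ← pow_mul, ← pow_mul, hd, mul_pow]
            ring_nf
        _ ≤ ((‖y' 0 - y 0‖ / ‖y 0‖) ^ (p ^ s) ^ I0) ^ A * r ^ d ^ I0 := by gcongr
        _ ≤ (‖y' I0 - y I0‖ / ‖y I0‖) ^ A * r ^ d ^ I0 := by gcongr
        _ ≤ 1 := by rw [← hYn I0]; exact h3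
    have h9 : 1 < ((ε / r) ^ A * r ^ d' ^ I0) ^ (p ^ s) ^ I0 :=
      one_lt_pow₀ hI0 (by positivity)
    linarith
  have hfind := Nat.find_spec htie
  set i := Nat.find htie with hi
  have hbefore : ∀ k < i, ‖y' k - y k‖ / ‖y k‖ ∉ Tie α (p ^ s) (r ^ d ^ k) := by
    intro k hk hkT
    exact Nat.find_min htie hk ⟨hk.trans hfind.1, hkT⟩
  have h1 := hG i hbefore
  rw [Finset.mem_biUnion]
  refine ⟨i, Finset.mem_range.2 hfind.1, Finset.mem_image.2
    ⟨‖y' 0 - y 0‖ / ‖y 0‖, ?_, ?_⟩⟩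
  · rw [Set.Finite.mem_toFinset]
    refine ⟨ht00, ?_⟩
    rw [Set.mem_preimage, ← h1]
    exact hfind.2
  · have h2 : ‖y 0‖ = r := hv
    rw [h2, mul_div_cancel₀ _ hr0.ne']
    rfl

end Pool.Agent.Helper581_DML.Wild
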