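import Mathlib
import Pool.Agent.Helper581_DML.WDefs
import Pool.Agent.Helper581_DML.W7

/-!
Part W9a of the proof (helper581, MP_6ac234_nt): `special_pairs` from `contract` and `pair_discrete` (proved in the imported files).

PLAIN PROOF. Write `Y = v`, `Y' = v'`. Let `m = p^s M`, `x_i = f^[i] x`, `Y_i = g^[i] Y`, `Y'_i = g^[i] Y'`, `κ_i = κ^(d^i)`, `‖x_i‖ = ξ^(d^i)` (`Dich`, for `ξ > R0`; take `R ≥ R0`). `Sp i` for `Y`, with `ξ > 1`: `Wn … i < 1`, so (ultrametric, `‖κ_i‖ = 1`)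
 `‖Y_i‖^N1 = ‖x_i‖^N2`; the same for `Y'`. Moreover `‖Y_i^N1 - κ_i x_i^N2‖^m ‖x_i‖ ≤ ‖x_i‖^(N2 m)`, the same for `Y'`, so `‖Y'_i^N1 - Y_i^N1‖^m ‖x_i‖ ≤ ‖x_i‖^(N2 m) = ‖Y_i‖^(N1 m)`. Let `R_g` be good for `contract` and `pair_discrete`;
 `R ≥ R_g^N1` and `R ≥ 1` give `‖Y‖ > R_g`, since `‖Y‖^N1 = ξ^N2 ≥ ξ`. `r = ‖Y‖` is the positive real with `r^N1 = ξ^N2`, so it depends only on `ξ`. Write `Y'_i = Y_i (1 + ρ_i)`, `‖ρ_i‖ < 1` by `contract`; `N1 = p^t N1'`, `p ∤ N1'`: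
 `(1+ρ)^N1 - 1 = (1 + ρ^(p^t))^(N1') - 1` has norm `‖ρ‖^(p^t)` (`‖N1'‖ = 1`). So `‖ρ_i‖^(p^t m) ‖x_i‖ ≤ 1`, and with `A = p^t m N2`: `‖ρ_i‖^A ‖Y_i‖ ≤ ‖ρ_i‖^A ‖Y_i‖^N1 = (‖ρ_i‖^(p^t m) ‖x_i‖)^N2 ≤ 1` (`‖Y_i‖ ≥ 1`). Apply `pair_discrete` with `A`, `r`, `ε`.
-/

set_option autoImplicit false

namespace Pool.Agent.Helper581_DML.Wild

open Polynomial Filter
open scoped Polynomial.Bivariate


section aux
variable {L : Type*} [NontriviallyNormedField L] [IsUltrametricDist L]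

theorem sp_norm_eq {u w : L} (h : ‖u - w‖ < ‖w‖) : ‖u‖ = ‖w‖ := by
  apply le_antisymm
  · have h1 := IsUltrametricDist.norm_add_le_max (u - w) w
    rw [sub_add_cancel] at h1
    exact h1.trans (max_le h.le le_rfl)
  · have h1 := IsUltrametricDist.norm_add_le_max u (w - u)
    rw [add_sub_cancel, norm_sub_rev] at h1
    rcases le_max_iff.1 h1 with h2 | h2
    · exact h2
    · exact absurd h (not_lt.2 h2)

theorem sp_cast {p : ℕ} [Fact p.Prime] [CharP L p] (n : ℕ) (hn : ¬ p ∣ n) : ‖(n : L)‖ = 1 := by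
  have hp : p.Prime := Fact.out
  have h1 : (n : ZMod p) ≠ 0 := by
    rwa [Ne, ZMod.natCast_eq_zero_iff]
  have h2 := ZMod.pow_card_sub_one_eq_one h1
  have h3 : (n : L) ^ (p - 1) = 1 := by
    have := congrArg (ZMod.castHom (dvd_refl p) L) h2
    rwa [map_pow, map_natCast, map_one] at this
  have h4 : ‖(n : L)‖ ^ (p - 1) = 1 := by
    rw [← norm_pow, h3, norm_one]
  exact (pow_eq_one_iff_of_nonneg (norm_nonneg _) (by have := hp.two_le; omega)).1 h4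

theorem sp_err (a b : L) (hab : ‖a - b‖ < ‖b‖) (n : ℕ) :
    ‖a ^ (n + 1) - b ^ (n + 1) - ((n : L) + 1) * (a - b) * b ^ n‖ * ‖b‖ ≤
      ‖a - b‖ ^ 2 * ‖b‖ ^ n := by
  have ha : ‖a‖ = ‖b‖ := sp_norm_eq hab
  induction n with
  | zero => simp
  | succ n ih =>
    have e : a ^ (n + 1 + 1) - b ^ (n + 1 + 1) - (((n + 1 : ℕ) : L) + 1) * (a - b) * b ^ (n + 1) =
        a * (a ^ (n + 1) - b ^ (n + 1) - ((n : L) + 1) * (a - b) * b ^ n) +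
          (((n + 1 : ℕ) : L)) * ((a - b) ^ 2 * b ^ n) := by
      push_cast
      ring
    rw [e]
    have h1 := IsUltrametricDist.norm_add_le_max
      (a * (a ^ (n + 1) - b ^ (n + 1) - ((n : L) + 1) * (a - b) * b ^ n))
      ((((n + 1 : ℕ) : L)) * ((a - b) ^ 2 * b ^ n))
    have h2 : ‖a * (a ^ (n + 1) - b ^ (n + 1) - ((n : L) + 1) * (a - b) * b ^ n)‖ ≤
        ‖a - b‖ ^ 2 * ‖b‖ ^ n := by
      rw [norm_mul, ha, mul_comm]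
      exact ih
    have h3 : ‖(((n + 1 : ℕ) : L)) * ((a - b) ^ 2 * b ^ n)‖ ≤ ‖a - b‖ ^ 2 * ‖b‖ ^ n := by
      rw [norm_mul, norm_mul, norm_pow, norm_pow]
      have h4 := IsUltrametricDist.norm_natCast_le_one L (n + 1)
      exact mul_le_of_le_one_left (by positivity) h4
    have h5 := h1.trans (max_le h2 h3)
    calc _ ≤ (‖a - b‖ ^ 2 * ‖b‖ ^ n) * ‖b‖ := mul_le_mul_of_nonneg_right h5 (norm_nonneg _)
      _ = _ := by ring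

theorem sp_lower {p : ℕ} [Fact p.Prime] [CharP L p] (a b : L) (hab : ‖a - b‖ < ‖b‖) (n : ℕ)
    (hn : ¬ p ∣ n + 1) : ‖a ^ (n + 1) - b ^ (n + 1)‖ = ‖a - b‖ * ‖b‖ ^ n := by
  have hb : 0 < ‖b‖ := lt_of_le_of_lt (norm_nonneg _) hab
  rcases eq_or_ne a b with h | h
  · subst h
    simp
  have hc : 0 < ‖a - b‖ := norm_pos_iff.2 (sub_ne_zero.2 h)
  have h1 := sp_err a b hab n
  have h2 : ‖((n : L) + 1) * (a - b) * b ^ n‖ = ‖a - b‖ * ‖b‖ ^ n := by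
    rw [norm_mul, norm_mul, norm_pow]
    have := sp_cast (L := L) (n + 1) hn
    push_cast at this
    rw [this, one_mul]
  rw [← h2]
  apply sp_norm_eq
  rw [h2]
  by_contra hcon
  rw [not_lt] at hcon
  have h3 := mul_le_mul_of_nonneg_right hcon hb.le
  have h4 := h3.trans h1
  have h5 : ‖a - b‖ ^ 2 * ‖b‖ ^ n < ‖a - b‖ * ‖b‖ ^ n * ‖b‖ := by
    have : 0 < ‖a - b‖ * ‖b‖ ^ n := by positivity
    nlinarith
  linarith

theorem sp_pow {p : ℕ} [Fact p.Prime] [CharP L p] (a b : L) (hab : ‖a - b‖ < ‖b‖) (n t : ℕ)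
    (hn : ¬ p ∣ n + 1) : ‖a ^ (p ^ t * (n + 1)) - b ^ (p ^ t * (n + 1))‖ =
      (‖a - b‖ * ‖b‖ ^ n) ^ p ^ t := by
  rw [← sp_lower a b hab n hn, ← norm_pow, sub_pow_char_pow, mul_comm (p ^ t), pow_mul, pow_mul]

theorem sp_core {p : ℕ} [Fact p.Prime] [CharP L p] (y1 y2 x1 K : L) (n t m N1 N2 : ℕ)
    (hN1 : 0 < N1) (hN : N1 = p ^ t * (n + 1)) (hN' : ¬ p ∣ n + 1) (c2 : ‖y2 - y1‖ < ‖y1‖)
    (k1 : ‖y1 ^ N1 - K * x1 ^ N2‖ ^ m * ‖x1‖ ≤ (‖x1‖ ^ N2) ^ m)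
    (k2 : ‖y2 ^ N1 - K * x1 ^ N2‖ ^ m * ‖x1‖ ≤ (‖x1‖ ^ N2) ^ m)
    (k3 : ‖y1‖ ^ N1 = ‖x1‖ ^ N2) (hY1 : 1 ≤ ‖y1‖) :
    ‖y2 - y1‖ ^ (p ^ t * m * N2) * ‖y1‖ ≤ ‖y1‖ ^ (p ^ t * m * N2) := by
  have k4 : ‖y2 ^ N1 - y1 ^ N1‖ ^ m * ‖x1‖ ≤ (‖x1‖ ^ N2) ^ m := by
    have e : y2 ^ N1 - y1 ^ N1 = (y2 ^ N1 - K * x1 ^ N2) + -(y1 ^ N1 - K * x1 ^ N2) := by ring
    have h1 := IsUltrametricDist.norm_add_le_max (y2 ^ N1 - K * x1 ^ N2) (-(y1 ^ N1 - K * x1 ^ N2))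
    rw [← e, norm_neg] at h1
    rcases le_max_iff.1 h1 with h2 | h2
    · exact le_trans (mul_le_mul_of_nonneg_right (pow_le_pow_left₀ (norm_nonneg _) h2 _)
        (norm_nonneg _)) k2
    · exact le_trans (mul_le_mul_of_nonneg_right (pow_le_pow_left₀ (norm_nonneg _) h2 _)
        (norm_nonneg _)) k1
  have k5 : ‖y2 ^ N1 - y1 ^ N1‖ = (‖y2 - y1‖ * ‖y1‖ ^ n) ^ p ^ t := by
    rw [hN]
    exact sp_pow y2 y1 c2 n t hN'
  rw [k5, ← k3] at k4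
  have hYp : 0 < ‖y1‖ := by linarith
  have k6 : ‖y2 - y1‖ ^ (p ^ t * m) * ‖x1‖ ≤ ‖y1‖ ^ (p ^ t * m) := by
    have e1 : ((‖y2 - y1‖ * ‖y1‖ ^ n) ^ p ^ t) ^ m * ‖x1‖ =
        (‖y1‖ ^ n) ^ (p ^ t * m) * (‖y2 - y1‖ ^ (p ^ t * m) * ‖x1‖) := by
      rw [← pow_mul, mul_pow]
      ring
    have e2 : (‖y1‖ ^ N1) ^ m = (‖y1‖ ^ n) ^ (p ^ t * m) * ‖y1‖ ^ (p ^ t * m) := by
      rw [← pow_mul, ← pow_mul, ← pow_add, hN]
      congr 1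
      ring
    rw [e1, e2] at k4
    exact le_of_mul_le_mul_left k4 (by positivity)
  have k7 := pow_le_pow_left₀ (by positivity) k6 N2
  rw [mul_pow, ← pow_mul, ← pow_mul, ← k3] at k7
  refine le_trans (mul_le_mul_of_nonneg_left ?_ (by positivity)) k7
  exact le_self_pow₀ hY1 hN1.ne'


end aux

theorem special_pairs {p : ℕ} [Fact p.Prime] {L : Type*} [NontriviallyNormedField L]
    [IsUltrametricDist L] [CharP L p] (f g : L[X]) (hf : f.Monic) (hg : g.Monic) (d s d' : ℕ)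
    (hd : d = p ^ s * d') (hd' : 2 ≤ d') (hpd' : ¬ p ∣ d') (hfd : f.natDegree = d)
    (hgd : g.natDegree = d) (N1 N2 : ℕ) (hN1 : 0 < N1) (hN2 : 0 < N2) (R0 : ℝ) (M : ℕ)
    (hD : Dich f g d (p ^ s) N1 N2 R0 M) :
    ∃ R : ℝ, 1 ≤ R ∧ ∀ ξ : ℝ, R < ξ → ∀ ε : ℝ, 0 < ε → ∃ V : Finset ℝ, ∀ κ x v v' : L,
      ‖κ‖ = 1 → ‖x‖ = ξ → (∀ i, Sp f g d (p ^ s * M) N1 N2 κ x v i) →
      (∀ i, Sp f g d (p ^ s * M) N1 N2 κ x v' i) → ‖v' - v‖ < ‖v‖ → v' ≠ v → ε ≤ ‖v' - v‖ →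
      ‖v' - v‖ ∈ V := by
  have hp : p.Prime := Fact.out
  obtain ⟨hR0, hM, hDD⟩ := hD
  have hd2 : 2 ≤ d := by
    rw [hd]
    have : 1 ≤ p ^ s := Nat.one_le_pow _ _ hp.pos
    calc 2 ≤ d' := hd'
      _ ≤ p ^ s * d' := Nat.le_mul_of_pos_left _ this
  obtain ⟨R1, hR1, hc⟩ := contract (p := p) g hg d hd2 hgd
  obtain ⟨R2, hR2, hpd⟩ := pair_discrete (p := p) g hg d s d' hd hd' hpd' hgd
  obtain ⟨t, N', hN', hN⟩ := Nat.exists_eq_pow_mul_and_not_dvd hN1.ne' p hp.ne_one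
  obtain ⟨n, rfl⟩ : ∃ n, N' = n + 1 := by
    rcases N' with _ | n
    · simp at hN'
    · exact ⟨n, rfl⟩
  have hm : p ^ s * M ≠ 0 := by
    have : 0 < p ^ s := pow_pos hp.pos _
    positivity
  set m := p ^ s * M with hmdef
  refine ⟨max R0 ((max R1 R2) ^ N1), le_max_of_le_left hR0, ?_⟩
  intro ξ hξ ε hε
  have hξ0 : R0 < ξ := lt_of_le_of_lt (le_max_left _ _) hξ
  have hξ1 : 1 < ξ := lt_of_le_of_lt hR0 hξ0
  have hξp : 0 < ξ := by linarith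
  set r : ℝ := (ξ ^ N2) ^ ((N1 : ℝ)⁻¹) with hr
  have hrN : r ^ N1 = ξ ^ N2 := Real.rpow_inv_natCast_pow (by positivity) hN1.ne'
  have hr0 : 0 ≤ r := by positivity
  have hrR : max R1 R2 < r := by
    apply lt_of_pow_lt_pow_left₀ N1 hr0
    rw [hrN]
    calc (max R1 R2) ^ N1 < ξ := lt_of_le_of_lt (le_max_right _ _) hξ
      _ ≤ ξ ^ N2 := le_self_pow₀ hξ1.le hN2.ne'
  obtain ⟨V, hV⟩ := hpd r (lt_of_le_of_lt (le_max_right _ _) hrR) (p ^ t * m * N2) ε hε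
  refine ⟨V, ?_⟩
  intro κ x v v' hκ hx hv hv' hvv hne hε'
  -- consequences of being special
  have key : ∀ w : L, (∀ i, Sp f g d m N1 N2 κ x w i) → ∀ i,
      ‖((fun z => g.eval z)^[i] w) ^ N1 - κ ^ d ^ i * ((fun z => f.eval z)^[i] x) ^ N2‖ <
        ‖(fun z => f.eval z)^[i] x‖ ^ N2 ∧
      ‖((fun z => g.eval z)^[i] w) ^ N1 - κ ^ d ^ i * ((fun z => f.eval z)^[i] x) ^ N2‖ ^ m *
        ‖(fun z => f.eval z)^[i] x‖ ≤ (‖(fun z => f.eval z)^[i] x‖ ^ N2) ^ m := by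
    intro w hw i
    have h1 := hw i
    have h2 := (hDD κ x w hκ (by rw [hx]; exact hξ0) i).1
    unfold Sp Wn at h1
    rw [← h2] at h1
    have h3 : 1 < ‖(fun z => f.eval z)^[i] x‖ := by
      rw [h2, hx]
      exact one_lt_pow₀ hξ1 (pow_ne_zero _ (by omega))
    have h4 : 0 < ‖(fun z => f.eval z)^[i] x‖ ^ N2 := by positivity
    rw [div_pow, div_mul_eq_mul_div, div_le_one (by positivity)] at h1
    refine ⟨?_, h1⟩
    apply lt_of_pow_lt_pow_left₀ m h4.le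
    rcases (pow_nonneg (norm_nonneg (((fun z => g.eval z)^[i] w) ^ N1 -
      κ ^ d ^ i * ((fun z => f.eval z)^[i] x) ^ N2)) m).eq_or_lt with h5 | h5
    · rw [← h5]
      positivity
    · exact lt_of_lt_of_le (lt_mul_of_one_lt_right h5 h3) h1
  have keyn : ∀ w : L, (∀ i, Sp f g d m N1 N2 κ x w i) → ∀ i,
      ‖(fun z => g.eval z)^[i] w‖ ^ N1 = ‖(fun z => f.eval z)^[i] x‖ ^ N2 := by
    intro w hw i
    have h1 := (key w hw i).1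
    have h2 : ‖κ ^ d ^ i * ((fun z => f.eval z)^[i] x) ^ N2‖ =
        ‖(fun z => f.eval z)^[i] x‖ ^ N2 := by
      rw [norm_mul, norm_pow, hκ, one_pow, one_mul, norm_pow]
    rw [← h2] at h1 ⊢
    rw [← norm_pow]
    exact sp_norm_eq h1
  have hvr : ‖v‖ = r := by
    have h1 := keyn v hv 0
    simp only [Function.iterate_zero, id_eq] at h1
    rw [hx, ← hrN] at h1
    exact (pow_left_inj₀ (norm_nonneg _) hr0 hN1.ne').1 h1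
  apply hV v v' hvr hvv hne ?_ hε'
  intro i
  obtain ⟨c1, c2⟩ := hc v v' (by rw [hvr]; exact lt_of_le_of_lt (le_max_left _ _) hrR) hvv i
  have k1 := (key v hv i).2
  have k2 := (key v' hv' i).2
  have k3 := keyn v hv i
  have hX0 : ‖(fun z => f.eval z)^[i] x‖ = ‖x‖ ^ d ^ i := (hDD κ x v hκ (by rw [hx]; exact hξ0) i).1
  have hX1 : 1 ≤ ‖(fun z => f.eval z)^[i] x‖ := by
    rw [hX0, hx]
    exact one_le_pow₀ hξ1.le
  have hY1 : 1 ≤ ‖(fun z => g.eval z)^[i] v‖ := by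
    rw [c1, hvr]
    have : 1 ≤ r := by
      have := lt_of_le_of_lt (le_max_left R1 R2) hrR
      linarith
    exact one_le_pow₀ this
  exact sp_core _ _ _ _ n t m N1 N2 hN1 hN hN' c2 k1 k2 k3 hY1

end Pool.Agent.Helper581_DML.Wild
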