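import Mathlib
import Pool.Agent.Helper581_DML.WDefs
import Pool.Agent.Helper581_DML.W2
import Pool.Agent.Helper581_DML.W8
import Pool.Agent.Helper581_DML.W9a

/-!
Part W9b of the proof (helper581, MP_6ac234_nt): `step_E` from `elim`, `tie_near`, `local_factor`, `special_pairs` (proved in the imported files).

PLAIN PROOF. Let `R` be larger than `1`, `R0`, `R1`, the bound of `special_pairs`, and the norms of the roots of `h.leadingCoeff`. Let `P = (x0, y0)` as in the statement, `Q = (x1, y1) = (f^[k] x0, g^[k] y0)`; `‖x1‖ = ‖x0‖^(d^k) > R`.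
 (0) Let `hk ∈ L[X][Y]` be the polynomial with `hk(x,y) = h(f^[k] x, g^[k] y)` (compose: `f^∘k` in the inner variable, `g^∘k` for the outer one). If `h ∣ hk` we are done. Suppose `¬ h ∣ hk`. `elim` for `u = hk` gives `Q0`, with
 `Q0(x, hk(x,y)) = 0` at all zeros of `h`; `tie_near` for `Q0`, `x0` gives `ε1, F`: for zeros `(x,y)` of `h`, `x ≠ x0`, `‖x - x0‖ < ε1`: `hk(x,y) ≠ 0` and `log ‖hk(x,y)‖ = q1 log ‖x - x0‖ + q2` with `(q1,q2) ∈ F`.
 (1) `Q` satisfies all `Sp i` for `κ`: `W_i(Q) = W_(i+k)(P)` because `κ^(d^(i+k)) = (κ^(d^k))^(d^i) = κ^(d^i)`, and `‖x1‖^(d^i) = ‖x0‖^(d^(i+k))`. The same is true for every point `(x,y)` with all `Sp i` and `‖x‖ > R` and its image.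
 (2) `Sp J` is an open condition near `P` and near `Q`: if `(x,y) → (x1,y1)` then `‖x‖ = ‖x1‖`, `‖f^[J] x‖ = ‖f^[J] x1‖`, and `u_J(x,y) = (g^[J] y)^N1 - κ^(d^J) (f^[J] x)^N2` is continuous, so `‖u_J(x,y)‖ ≤ max(‖u_J(x1,y1)‖, small)`, and `Sp J` says
 `‖u_J‖ ≤ T` with `T > 0`, `T^m = ‖x1‖^(N2 m d^J - d^J)`-ish. So there is `δ1 > 0` with `Sp J` for all `(x,y)` with `‖x - x1‖ < δ1, ‖y - y1‖ < δ1`, the same for `P`. With `hopen` all zeros of `h` in these neighbourhoods satisfy all `Sp i`.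
 (3) `local_factor` at `(x1,y1)` (`h.map (evalRingHom x1) ≠ 0` because its leading coefficient does not vanish) with `δ ≤ min(δ0, δ1, ‖y1‖)`: `ε', C, e`: for `‖x' - x1‖ < ε'` and `‖y' - y1‖ < δ`: `‖h(x',y')‖ = C ∏_{z ∈ S} ‖y' - z‖`, `|S| = e`, the `z ∈ S` are zeros of `h(x', ·)` with
 `‖z - y1‖ < δ`. `local_factor` at `(x0,y0)` (for every small `δ''` there is `ε''`): for `x` near `x0` there is `y` near `y0` with `h(x,y) = 0` (`h(x0,y0) = 0 = C ∏…` shows `e ≥ 1`).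
 (4) Let `(x,y)` be a zero of `h`, close to `P`, `x ≠ x0`, and `(x',y') = (f^[k] x, g^[k] y)`, close to `Q` (continuity). `hk(x,y) = h(x',y')`. `(x',y')` satisfies all `Sp i` (by (2) for `(x,y)` and (1)); the `(x',z)`, `z ∈ S`, satisfy all `Sp i` (by (2), if `‖x' - x1‖ < δ1`). `‖z - y'‖ < δ ≤ ‖y1‖ = ‖y'‖`,
 `z ≠ y'` (since `hk(x,y) ≠ 0`). So for every `η > 0` the values `‖z - y'‖ ≥ η` which occur lie in a finite set `V_η` (`special_pairs`, `ξ = ‖x1‖ = ‖x'‖`), and `‖z - y'‖ < δ`.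
 (5) As `(x,y) → P`, `hk(x,y) → hk(x0,y0) = h(Q) = 0`, so close to `P` we have `log ‖hk(x,y)‖ < q2` for all `(0, q2) ∈ F`, thus `q1 ≠ 0` in (0). Choose a bounded interval `(a, b)` with `exp b` smaller than all the needed radii; the set of `log ‖w‖`, `w ∈ L`, `w ≠ 0` is dense in `ℝ` (norm nontrivial, `L` has roots), so
 there are infinitely many values `λ = log ‖x - x0‖` in `(a,b)`; for each choose a zero `(x,y)` of `h` close to `P` (3). Infinitely many of them have the same `(q1,q2)`, `q1 ≠ 0`, so `log ‖hk(x,y)‖` takes infinitely many values in a bounded interval `[-B, B]`. But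
 `‖hk(x,y)‖ = C ∏_{z ∈ S} ‖y' - z‖ ≥ exp(-B)` with `e` factors `< δ`: each factor is `≥ exp(-B)/(C max(δ,1)^(e-1))`-like `η > 0`, so each factor is in the finite set `V_η`, and the products of `e` elements of a finite set form a finite set. Contradiction.
-/

set_option autoImplicit false

namespace Pool.Agent.Helper581_DML.Wild

open Polynomial Filter
open scoped Polynomial.Bivariate


theorem E_iter {L : Type*} [Field L] (f : L[X]) (k : ℕ) (x : L) :
    ((f.comp)^[k] X).eval x = (fun z => f.eval z)^[k] x := by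
  rw [Polynomial.iterate_comp_eval, eval_X]

/-- composition in both variables -/
noncomputable def hkp {L : Type*} [Field L] (h : L[X][Y]) (F G : L[X]) : L[X][Y] :=
  (h.map (Polynomial.compRingHom F)).comp (G.map C)

theorem hkp_eval {L : Type*} [Field L] (h : L[X][Y]) (F G : L[X]) (x y : L) :
    evalEval x y (hkp h F G) = evalEval (F.eval x) (G.eval y) h := by
  unfold hkp evalEval
  rw [eval_comp]
  have h1 : eval (C y) (G.map C) = C (G.eval y) := by
    rw [eval_map]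
    exact eval₂_at_apply _ _
  have h2 : eval (C (G.eval y)) (h.map (Polynomial.compRingHom F)) =
      (eval (C (G.eval y)) h).comp F := by
    have e : C (G.eval y) = Polynomial.compRingHom F (C (G.eval y)) := by
      simp
    rw [eval_map]
    conv_lhs => rw [e]
    rw [eval₂_at_apply]
    rfl
  rw [h1, h2, eval_comp]

theorem E_sum {L : Type*} [Field L] (h : L[X][Y]) (x y : L) :
    evalEval x y h = ∑ i ∈ Finset.range (h.natDegree + 1), (h.coeff i).eval x * y ^ i := by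
  rw [← map_evalRingHom_eval, eval_map, eval₂_eq_sum_range]
  rfl

theorem E_cont {L : Type*} [NontriviallyNormedField L] (h : L[X][Y]) :
    Continuous fun q : L × L => evalEval q.1 q.2 h := by
  have e : (fun q : L × L => evalEval q.1 q.2 h) = fun q : L × L =>
      ∑ i ∈ Finset.range (h.natDegree + 1), (h.coeff i).eval q.1 * q.2 ^ i :=
    funext fun q => E_sum h q.1 q.2
  rw [e]
  apply continuous_finsetSum
  intro i _
  exact ((h.coeff i).continuous.comp continuous_fst).mul (continuous_snd.pow i)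

theorem E_comp {L : Type*} [Field L] (Q u : L[X][Y]) (x y : L) :
    evalEval x y (Q.comp u) = evalEval x (evalEval x y u) Q := by
  rw [← map_evalRingHom_eval x (evalEval x y u) Q]
  unfold evalEval
  rw [eval_comp, eval_map]
  exact (hom_eval₂ Q (RingHom.id _) (evalRingHom x) (eval (C y) u)).symm ▸ rfl

theorem E_roots {L : Type*} [NontriviallyNormedField L] (h : L[X][Y]) (h0 : h ≠ 0) :
    ∃ R : ℝ, ∀ x : L, R < ‖x‖ → h.map (evalRingHom x) ≠ 0 := by
  classical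
  refine ⟨∑ r ∈ h.leadingCoeff.roots.toFinset, ‖r‖, fun x hx hc => ?_⟩
  have h1 : (h.map (evalRingHom x)).coeff h.natDegree = 0 := by rw [hc]; simp
  rw [coeff_map] at h1
  have h2 : h.leadingCoeff.eval x = 0 := h1
  have h3 : x ∈ h.leadingCoeff.roots.toFinset := by
    rw [Multiset.mem_toFinset, mem_roots (leadingCoeff_ne_zero.2 h0)]
    exact h2
  have h4 := Finset.single_le_sum (f := fun r : L => ‖r‖) (fun r _ => norm_nonneg r) h3
  linarith

theorem E_near {L : Type*} [NontriviallyNormedField L] [IsUltrametricDist L]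
    [IsAlgClosed L] (h : L[X][Y]) (x0 y0 : L) (hx0 : h.map (evalRingHom x0) ≠ 0)
    (hP : evalEval x0 y0 h = 0) (ρ : ℝ) (hρ : 0 < ρ) :
    ∃ ε : ℝ, 0 < ε ∧ ∀ x : L, ‖x - x0‖ < ε → ∃ y : L, ‖y - y0‖ < ρ ∧ evalEval x y h = 0 := by
  obtain ⟨δ0, hδ0, H⟩ := local_factor h x0 y0 hx0
  obtain ⟨ε, C, e, hε, hC, H1⟩ := H (min δ0 ρ) (lt_min hδ0 hρ) (min_le_left _ _)
  have he : 0 < e := by
    rcases Nat.eq_zero_or_pos e with h0 | h0
    · exfalso
      obtain ⟨S, hS, _, hS2⟩ := H1 x0 (by simpa using hε)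
      have h3 := hS2 y0 (by rw [sub_self, norm_zero]; exact lt_min hδ0 hρ)
      rw [h0, Multiset.card_eq_zero] at hS
      rw [hS, hP, norm_zero, Multiset.map_zero, Multiset.prod_zero, mul_one] at h3
      exact hC.ne h3
    · exact h0
  refine ⟨ε, hε, fun x hx => ?_⟩
  obtain ⟨S, hS, hS1, _⟩ := H1 x hx
  have hS0 : S ≠ 0 := by
    rintro rfl
    rw [Multiset.card_zero] at hS
    omega
  obtain ⟨z, hz⟩ := Multiset.exists_mem_of_ne_zero hS0
  exact ⟨z, (hS1 z hz).1.trans_le (min_le_right _ _), (hS1 z hz).2⟩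

theorem E_norm {L : Type*} [NormedField L] [IsUltrametricDist L] {x a : L}
    (h : ‖x - a‖ < ‖a‖) : ‖x‖ = ‖a‖ := by
  have h1 := IsUltrametricDist.norm_add_eq_max_of_norm_ne_norm h.ne
  rw [sub_add_cancel, max_eq_right h.le] at h1
  exact h1

theorem E_open {L : Type*} [NontriviallyNormedField L] [IsUltrametricDist L] (f g : L[X])
    (d q m N1 N2 : ℕ) (hm : 0 < m) (R0 : ℝ) (M : ℕ) (hD : Dich f g d q N1 N2 R0 M) (κ : L)
    (hκ : ‖κ‖ = 1) (J : ℕ) (a b : L) (ha : R0 < ‖a‖) (hS : Sp f g d m N1 N2 κ a b J) :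
    ∃ δ : ℝ, 0 < δ ∧ ∀ x y : L, ‖x - a‖ < δ → ‖y - b‖ < δ → Sp f g d m N1 N2 κ x y J := by
  have h1 : 1 ≤ R0 := hD.1
  have ha1 : 1 ≤ ‖a‖ := by linarith
  have ha0 : 0 < ‖a‖ := by linarith
  set A : ℝ := ‖a‖ ^ d ^ J with hA
  have hA1 : 1 ≤ A := one_le_pow₀ ha1
  have hA0 : 0 < A := by linarith
  set u : L × L → L := fun w => ((fun z => g.eval z)^[J] w.2) ^ N1 -
    κ ^ d ^ J * ((fun z => f.eval z)^[J] w.1) ^ N2 with hu
  have huc : Continuous u := by
    have hf : Continuous ((fun z => f.eval z)^[J]) := f.continuous.iterate J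
    have hg : Continuous ((fun z => g.eval z)^[J]) := g.continuous.iterate J
    exact ((hg.comp continuous_snd).pow N1).sub
      (continuous_const.mul ((hf.comp continuous_fst).pow N2))
  have hc0 : 0 < A ^ N2 := pow_pos hA0 _
  have hτ : 0 < A ^ N2 / A := div_pos hc0 hA0
  obtain ⟨δ, hδ, H⟩ := Metric.continuousAt_iff.1 (huc.continuousAt (x := (a, b))) _ hτ
  refine ⟨min δ ‖a‖, lt_min hδ ha0, fun x y hx hy => ?_⟩
  have hxn : ‖x‖ = ‖a‖ := E_norm (hx.trans_le (min_le_right _ _))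
  have hfx : ‖(fun z => f.eval z)^[J] x‖ = A := by
    rw [(hD.2.2 κ x y hκ (by rw [hxn]; exact ha) J).1, hxn]
  have hfa : ‖(fun z => f.eval z)^[J] a‖ = A := (hD.2.2 κ a b hκ ha J).1
  have hd := H (x := (x, y)) (by
    rw [Prod.dist_eq, dist_eq_norm, dist_eq_norm]
    exact max_lt (hx.trans_le (min_le_left _ _)) (hy.trans_le (min_le_left _ _)))
  rw [dist_eq_norm] at hd
  have hux : ‖u (x, y)‖ ≤ max (A ^ N2 / A) ‖u (a, b)‖ := by
    have h2 := IsUltrametricDist.norm_add_le_max (u (x, y) - u (a, b)) (u (a, b))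
    rw [sub_add_cancel] at h2
    exact h2.trans (max_le_max hd.le le_rfl)
  unfold Sp Wn at hS ⊢
  rw [hfx, hxn]
  rw [hfa] at hS
  change (‖u (a, b)‖ / A ^ N2) ^ m * A ≤ 1 at hS
  change (‖u (x, y)‖ / A ^ N2) ^ m * A ≤ 1
  rcases le_max_iff.1 hux with h3 | h3
  · have h4 : ‖u (x, y)‖ / A ^ N2 ≤ A⁻¹ := by
      rw [div_le_iff₀ hc0]
      refine h3.trans (le_of_eq ?_)
      rw [div_eq_inv_mul]
    have h5 : (‖u (x, y)‖ / A ^ N2) ^ m ≤ A⁻¹ := by
      refine (pow_le_pow_left₀ (by positivity) h4 m).trans ?_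
      exact pow_le_of_le_one (by positivity) (inv_le_one_of_one_le₀ hA1) hm.ne'
    calc (‖u (x, y)‖ / A ^ N2) ^ m * A ≤ A⁻¹ * A := mul_le_mul_of_nonneg_right h5 hA0.le
      _ = 1 := inv_mul_cancel₀ hA0.ne'
  · refine le_trans ?_ hS
    apply mul_le_mul_of_nonneg_right _ hA0.le
    exact pow_le_pow_left₀ (by positivity) (div_le_div_of_nonneg_right h3 hc0.le) m

theorem E_image {L : Type*} [NormedField L] (f g : L[X])
    (d q m N1 N2 : ℕ) (R0 : ℝ) (M : ℕ) (hD : Dich f g d q N1 N2 R0 M) (κ : L)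
    (hκ : ‖κ‖ = 1) (k : ℕ) (hk : κ ^ d ^ k = κ) (x y : L) (hx : R0 < ‖x‖)
    (hS : ∀ i, Sp f g d m N1 N2 κ x y i) (i : ℕ) :
    Sp f g d m N1 N2 κ ((fun z => f.eval z)^[k] x) ((fun z => g.eval z)^[k] y) i := by
  have h1 := hS (i + k)
  have h2 := (hD.2.2 κ x y hκ hx k).1
  have h3 : κ ^ d ^ (i + k) = κ ^ d ^ i := by
    rw [pow_add, mul_comm (d ^ i), pow_mul, hk]
  have h4 : ‖x‖ ^ d ^ (i + k) = (‖x‖ ^ d ^ k) ^ d ^ i := by
    rw [← pow_mul, pow_add, mul_comm (d ^ i)]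
  unfold Sp Wn at h1 ⊢
  rw [h2, ← Function.iterate_add_apply, ← Function.iterate_add_apply]
  rw [h3, h4] at h1
  exact h1

theorem E_y0 {L : Type*} [NormedField L] (f g : L[X])
    (d m N1 N2 : ℕ) (hN1 : 0 < N1) (κ : L)
    (hκ : ‖κ‖ = 1) (x y : L) (hx : 1 < ‖x‖) (hS : Sp f g d m N1 N2 κ x y 0) : y ≠ 0 := by
  rintro rfl
  unfold Sp Wn at hS
  simp only [Function.iterate_zero, id, pow_zero, pow_one] at hS
  have h0 : (0 : ℝ) < ‖x‖ ^ N2 := by positivity
  rw [zero_pow hN1.ne', zero_sub, norm_neg, norm_mul, hκ, one_mul, norm_pow, div_self h0.ne',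
    one_pow, one_mul] at hS
  linarith

theorem E_prods (V : Finset ℝ) (e : ℕ) :
    {r : ℝ | ∃ s : Multiset ℝ, Multiset.card s = e ∧ (∀ a ∈ s, a ∈ V) ∧ s.prod = r}.Finite := by
  induction e with
  | zero =>
    refine (Set.finite_singleton (1 : ℝ)).subset ?_
    rintro r ⟨s, hs, _, rfl⟩
    rw [Multiset.card_eq_zero] at hs
    rw [hs]
    exact Multiset.prod_zero
  | succ e ih =>
    refine (Set.Finite.image2 (fun a b : ℝ => a * b) V.finite_toSet ih).subset ?_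
    rintro r ⟨s, hs, hV, rfl⟩
    have hs0 : s ≠ 0 := by
      rintro rfl
      rw [Multiset.card_zero] at hs
      omega
    obtain ⟨a, ha⟩ := Multiset.exists_mem_of_ne_zero hs0
    obtain ⟨t, rfl⟩ := Multiset.exists_cons_of_mem ha
    rw [Multiset.card_cons] at hs
    refine ⟨a, by exact_mod_cast hV a ha, t.prod, ⟨t, by omega, fun b hb => hV b (Multiset.mem_cons_of_mem hb), rfl⟩, ?_⟩
    exact (Multiset.prod_cons a t).symm

theorem E_factor (s : Multiset ℝ) (h0 : ∀ a ∈ s, 0 ≤ a) (h1 : ∀ a ∈ s, a ≤ 1) (a : ℝ)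
    (ha : a ∈ s) : s.prod ≤ a := by
  obtain ⟨t, rfl⟩ := Multiset.exists_cons_of_mem ha
  rw [Multiset.prod_cons]
  have ht : t.prod ≤ 1 := by
    have h2 : ∀ t : Multiset ℝ, (∀ a ∈ t, 0 ≤ a) → (∀ a ∈ t, a ≤ 1) → 0 ≤ t.prod ∧ t.prod ≤ 1 := by
      intro t
      induction t using Multiset.induction_on with
      | empty => intro _ _; simp
      | cons b t ih =>
        intro h3 h4
        obtain ⟨i1, i2⟩ := ih (fun a ha => h3 a (Multiset.mem_cons_of_mem ha))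
          (fun a ha => h4 a (Multiset.mem_cons_of_mem ha))
        rw [Multiset.prod_cons]
        have j1 := h3 b (Multiset.mem_cons_self b t)
        have j2 := h4 b (Multiset.mem_cons_self b t)
        exact ⟨mul_nonneg j1 i1, mul_le_one₀ j2 i1 i2⟩
    exact (h2 t (fun b hb => h0 b (Multiset.mem_cons_of_mem hb))
      (fun b hb => h1 b (Multiset.mem_cons_of_mem hb))).2
  calc a * t.prod ≤ a * 1 := mul_le_mul_of_nonneg_left ht (h0 a ha)
    _ = a := mul_one a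

theorem step_E {p : ℕ} [Fact p.Prime] {L : Type*} [NontriviallyNormedField L]
    [IsUltrametricDist L] [IsAlgClosed L] [CharP L p] (f g : L[X]) (hf : f.Monic) (hg : g.Monic)
    (d s d' : ℕ) (hd : d = p ^ s * d') (hd' : 2 ≤ d') (hpd' : ¬ p ∣ d') (hfd : f.natDegree = d)
    (hgd : g.natDegree = d) (N1 N2 : ℕ) (hN1 : 0 < N1) (hN2 : 0 < N2) (R0 : ℝ) (M : ℕ)
    (hD : Dich f g d (p ^ s) N1 N2 R0 M) (κ : L) (hκ : ‖κ‖ = 1) (h : L[X][Y])
    (hirr : Irreducible h) (hdeg : 0 < h.natDegree) (J : ℕ) (R1 : ℝ)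
    (hopen : ∀ x y : L, R1 < ‖x‖ → evalEval x y h = 0 →
      Sp f g d (p ^ s * M) N1 N2 κ x y J → ∀ i, Sp f g d (p ^ s * M) N1 N2 κ x y i) :
    ∃ R : ℝ, ∀ k : ℕ, κ ^ d ^ k = κ → ∀ x0 y0 : L, R < ‖x0‖ → evalEval x0 y0 h = 0 →
      evalEval ((fun z => f.eval z)^[k] x0) ((fun z => g.eval z)^[k] y0) h = 0 →
      (∀ i, Sp f g d (p ^ s * M) N1 N2 κ x0 y0 i) → ∀ x y : L, evalEval x y h = 0 →
      evalEval ((fun z => f.eval z)^[k] x) ((fun z => g.eval z)^[k] y) h = 0 := by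
  obtain ⟨R2, hR2, hsp⟩ := special_pairs (p := p) f g hf hg d s d' hd hd' hpd' hfd hgd N1 N2 hN1 hN2
    R0 M hD
  obtain ⟨R3, hR3⟩ := E_roots h hirr.ne_zero
  refine ⟨max (max R0 R1) (max R2 R3), fun k hk x0 y0 hx0 hP hQ hSP => ?_⟩
  have hx00 : R0 < ‖x0‖ := ((le_max_left _ _).trans (le_max_left _ _)).trans_lt hx0
  have hx01 : R1 < ‖x0‖ := ((le_max_right _ _).trans (le_max_left _ _)).trans_lt hx0
  have hx02 : R2 < ‖x0‖ := ((le_max_left _ _).trans (le_max_right _ _)).trans_lt hx0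
  have hx03 : R3 < ‖x0‖ := ((le_max_right _ _).trans (le_max_right _ _)).trans_lt hx0
  have hx0one : 1 < ‖x0‖ := by linarith
  have hR01 : 1 ≤ R0 := hD.1
  have hp1 : 1 ≤ p ^ s := Nat.one_le_pow _ _ (Fact.out : p.Prime).pos
  have hd1 : 1 ≤ d := by
    rw [hd]
    exact Nat.one_le_iff_ne_zero.2 (Nat.mul_ne_zero (by omega) (by omega))
  have hm : 0 < p ^ s * M := Nat.mul_pos (by omega) hD.2.1
  by_cases hdiv : h ∣ hkp h ((f.comp)^[k] X) ((g.comp)^[k] X)
  · intro x y hxy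
    obtain ⟨r, hr⟩ := hdiv
    have h1 := congrArg (evalEval x y) hr
    rw [hkp_eval, E_iter, E_iter, evalEval_mul, hxy, zero_mul] at h1
    exact h1
  exfalso
  set hh : L[X][Y] := hkp h ((f.comp)^[k] X) ((g.comp)^[k] X) with hhd
  have hhev : ∀ x y : L, evalEval x y hh =
      evalEval ((fun z => f.eval z)^[k] x) ((fun z => g.eval z)^[k] y) h := by
    intro x y
    rw [hhd, hkp_eval, E_iter, E_iter]
  set x1 : L := (fun z => f.eval z)^[k] x0 with hx1
  set y1 : L := (fun z => g.eval z)^[k] y0 with hy1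
  have hx1n : ‖x1‖ = ‖x0‖ ^ d ^ k := (hD.2.2 κ x0 y0 hκ hx00 k).1
  have hx1ge : ‖x0‖ ≤ ‖x1‖ := by
    rw [hx1n]
    exact le_self_pow₀ hx0one.le (Nat.pos_iff_ne_zero.1 (Nat.one_le_pow _ _ (by omega)))
  have hSQ := E_image f g d (p ^ s) (p ^ s * M) N1 N2 R0 M hD κ hκ k hk x0 y0 hx00 hSP
  rw [← hx1, ← hy1] at hSQ
  obtain ⟨δP, hδP, HP⟩ := E_open f g d (p ^ s) (p ^ s * M) N1 N2 hm R0 M hD κ hκ J x0 y0 hx00 (hSP J)
  obtain ⟨δQ, hδQ, HQ⟩ := E_open f g d (p ^ s) (p ^ s * M) N1 N2 hm R0 M hD κ hκ J x1 y1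
    (hx00.trans_le hx1ge) (hSQ J)
  have hy1ne : y1 ≠ 0 := E_y0 f g d (p ^ s * M) N1 N2 hN1 κ hκ x1 y1 (hx0one.trans_le hx1ge) (hSQ 0)
  have hy1p : 0 < ‖y1‖ := norm_pos_iff.2 hy1ne
  have hx1p : 0 < ‖x1‖ := by linarith
  obtain ⟨δ0, hδ0, HL⟩ := local_factor h x1 y1 (hR3 x1 (hx03.trans_le hx1ge))
  set δ : ℝ := min (min δ0 δQ) (min ‖y1‖ 1) with hδd
  have hδ : 0 < δ := lt_min (lt_min hδ0 hδQ) (lt_min hy1p one_pos)
  have hδ1 : δ ≤ δ0 := (min_le_left _ _).trans (min_le_left _ _)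
  have hδ2 : δ ≤ δQ := (min_le_left _ _).trans (min_le_right _ _)
  have hδ3 : δ ≤ ‖y1‖ := (min_le_right _ _).trans (min_le_left _ _)
  have hδ4 : δ ≤ 1 := (min_le_right _ _).trans (min_le_right _ _)
  obtain ⟨ε', C0, e, hε', hC0, HL1⟩ := HL δ hδ hδ1
  obtain ⟨Q0, hQ0, hQd⟩ := elim h hh hirr hdeg hdiv
  obtain ⟨ε1, F, hε1, HT⟩ := tie_near Q0 hQ0 x0
  set B0 : ℝ := ∑ q ∈ F, |q.2| with hB0
  have hB0q : ∀ q ∈ F, -B0 ≤ q.2 := by
    intro q hq
    have h1 := Finset.single_le_sum (f := fun q : ℝ × ℝ => |q.2|) (fun q _ => abs_nonneg _) hq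
    have h2 := neg_abs_le q.2
    linarith
  -- continuity
  have cf : Continuous fun w : L × L => (fun z => f.eval z)^[k] w.1 :=
    (f.continuous.iterate k).comp continuous_fst
  have cg : Continuous fun w : L × L => (fun z => g.eval z)^[k] w.2 :=
    (g.continuous.iterate k).comp continuous_snd
  obtain ⟨ρ1, hρ1, K1⟩ := Metric.continuousAt_iff.1 (cf.continuousAt (x := (x0, y0)))
    (min ε' (min δQ ‖x1‖)) (lt_min hε' (lt_min hδQ hx1p))
  obtain ⟨ρ2, hρ2, K2⟩ := Metric.continuousAt_iff.1 (cg.continuousAt (x := (x0, y0))) δ hδ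
  obtain ⟨ρ3, hρ3, K3⟩ := Metric.continuousAt_iff.1 ((E_cont hh).continuousAt (x := (x0, y0)))
    (Real.exp (-B0)) (Real.exp_pos _)
  set ρ : ℝ := min (min ρ1 ρ2) (min ρ3 (min δP ‖x0‖)) with hρd
  have hρ : 0 < ρ := lt_min (lt_min hρ1 hρ2) (lt_min hρ3 (lt_min hδP (by linarith)))
  have hρ1' : ρ ≤ ρ1 := (min_le_left _ _).trans (min_le_left _ _)
  have hρ2' : ρ ≤ ρ2 := (min_le_left _ _).trans (min_le_right _ _)
  have hρ3' : ρ ≤ ρ3 := (min_le_right _ _).trans (min_le_left _ _)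
  have hρ4' : ρ ≤ δP := (min_le_right _ _).trans ((min_le_right _ _).trans (min_le_left _ _))
  have hρ5' : ρ ≤ ‖x0‖ := (min_le_right _ _).trans ((min_le_right _ _).trans (min_le_right _ _))
  -- the main property of zeros near the base point
  have hmain : ∀ η : ℝ, 0 < η → ∃ V : Finset ℝ, ∀ x y : L, x ≠ x0 → ‖x - x0‖ < ρ → ‖x - x0‖ < ε1 →
      ‖y - y0‖ < ρ → evalEval x y h = 0 →
      evalEval x y hh ≠ 0 ∧ ‖evalEval x y hh‖ < Real.exp (-B0) ∧
      (∃ q ∈ F, Real.log ‖evalEval x y hh‖ = q.1 * Real.log ‖x - x0‖ + q.2) ∧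
      (C0 * η ≤ ‖evalEval x y hh‖ → ∃ s : Multiset ℝ, Multiset.card s = e ∧ (∀ a ∈ s, a ∈ V) ∧
        C0 * s.prod = ‖evalEval x y hh‖) := by
    intro η hη
    obtain ⟨V, hV⟩ := hsp ‖x1‖ (hx02.trans_le hx1ge) η hη
    refine ⟨V, fun x y hxx hxρ hxε hyρ hxy => ?_⟩
    have hT := HT x (evalEval x y hh) hxx hxε (by
      obtain ⟨r, hr⟩ := hQd
      rw [← E_comp, hr, evalEval_mul, hxy, zero_mul])
    have hdist : dist (x, y) (x0, y0) < ρ := by
      rw [Prod.dist_eq, dist_eq_norm, dist_eq_norm]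
      exact max_lt hxρ hyρ
    have k1 := K1 (hdist.trans_le hρ1')
    have k2 := K2 (hdist.trans_le hρ2')
    have k3 := K3 (hdist.trans_le hρ3')
    rw [dist_eq_norm] at k1 k2 k3
    simp only at k1 k2 k3
    rw [← hx1] at k1
    rw [← hy1] at k2
    rw [hhev x0 y0, hQ, sub_zero] at k3
    refine ⟨hT.1, k3, hT.2, fun hη2 => ?_⟩
    set x' : L := (fun z => f.eval z)^[k] x with hx'
    set y' : L := (fun z => g.eval z)^[k] y with hy'
    have hxn : ‖x‖ = ‖x0‖ := E_norm (hxρ.trans_le hρ5')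
    have hx'n : ‖x'‖ = ‖x1‖ :=
      E_norm (k1.trans_le ((min_le_right _ _).trans (min_le_right _ _)))
    have hy'n : ‖y'‖ = ‖y1‖ := E_norm (k2.trans_le hδ3)
    have hSxy : ∀ i, Sp f g d (p ^ s * M) N1 N2 κ x y i :=
      hopen x y (by rw [hxn]; exact hx01) hxy
        (HP x y (hxρ.trans_le hρ4') (hyρ.trans_le hρ4'))
    have hSxy' : ∀ i, Sp f g d (p ^ s * M) N1 N2 κ x' y' i :=
      E_image f g d (p ^ s) (p ^ s * M) N1 N2 R0 M hD κ hκ k hk x y (by rw [hxn]; exact hx00) hSxy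
    obtain ⟨S, hSc, hS1, hS2⟩ := HL1 x' (k1.trans_le (min_le_left _ _))
    have hv := hS2 y' k2
    rw [← hhev x y] at hv
    have hprod : η ≤ (S.map (fun z => ‖y' - z‖)).prod := by
      rw [hv] at hη2
      exact le_of_mul_le_mul_left hη2 hC0
    have hzlt : ∀ z ∈ S, ‖z - y'‖ < δ := by
      intro z hz
      have h1 := IsUltrametricDist.norm_add_le_max (z - y1) (y1 - y')
      rw [sub_add_sub_cancel] at h1
      refine h1.trans_lt (max_lt (hS1 z hz).1 ?_)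
      rw [norm_sub_rev]
      exact k2
    have hall : ∀ a ∈ S.map (fun z => ‖y' - z‖), 0 ≤ a ∧ a ≤ 1 := by
      intro a ha
      obtain ⟨z, hz, rfl⟩ := Multiset.mem_map.1 ha
      refine ⟨norm_nonneg _, ?_⟩
      rw [norm_sub_rev]
      exact (hzlt z hz).le.trans hδ4
    refine ⟨S.map (fun z => ‖y' - z‖), by rw [Multiset.card_map, hSc], ?_, hv.symm⟩
    intro a ha
    have hle := hprod.trans (E_factor _ (fun a ha => (hall a ha).1) (fun a ha => (hall a ha).2) a ha)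
    obtain ⟨z, hz, rfl⟩ := Multiset.mem_map.1 ha
    have hSz : ∀ i, Sp f g d (p ^ s * M) N1 N2 κ x' z i :=
      hopen x' z (by rw [hx'n]; exact hx01.trans_le hx1ge) (hS1 z hz).2
        (HQ x' z (k1.trans_le ((min_le_right _ _).trans (min_le_left _ _)))
          ((hS1 z hz).1.trans_le hδ2))
    rw [norm_sub_rev] at hle ⊢
    have hne : z ≠ y' := by
      rintro rfl
      rw [sub_self, norm_zero] at hle
      linarith
    exact hV κ x' y' z hκ hx'n hSxy' hSz ((hzlt z hz).trans_le (by rw [hy'n]; exact hδ3)) hne hle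
  -- near zeros
  obtain ⟨ε2, hε2, HN⟩ := E_near h x0 y0 (hR3 x0 hx03) hP ρ hρ
  obtain ⟨a, ha0, ha⟩ := NormedField.exists_norm_lt L (lt_min hρ (lt_min hε1 hε2))
  obtain ⟨w0, hw00, hw01⟩ := NormedField.exists_norm_lt L one_pos
  have hroot : ∀ n : ℕ, ∃ z : L, z ^ (n + 1) = w0 := fun n =>
    IsAlgClosed.exists_pow_nat_eq w0 (Nat.succ_pos n)
  choose z hz using hroot
  have hzn : ∀ n, ‖z n‖ ^ (n + 1) = ‖w0‖ := fun n => by rw [← norm_pow, hz n]
  have hzpos : ∀ n, 0 < ‖z n‖ := by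
    intro n
    rcases (norm_nonneg (z n)).eq_or_lt with h1 | h1
    · exfalso
      have h2 := hzn n
      rw [← h1, zero_pow (Nat.succ_ne_zero n)] at h2
      linarith
    · exact h1
  have hzlt : ∀ n, ‖z n‖ < 1 := by
    intro n
    by_contra hc
    have h2 := one_le_pow₀ (not_lt.1 hc) (n := n + 1)
    rw [hzn] at h2
    linarith
  have hzge : ∀ n, ‖w0‖ ≤ ‖z n‖ := by
    intro n
    rw [← hzn n]
    exact pow_le_of_le_one (norm_nonneg _) (hzlt n).le (Nat.succ_ne_zero n)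
  set Λ : ℝ := |Real.log (‖a‖ * ‖w0‖)| + |Real.log ‖a‖| with hΛ
  set B : ℝ := ∑ q ∈ F, (|q.1| * Λ + |q.2|) with hB
  have hΛ0 : 0 ≤ Λ := by positivity
  have hη : 0 < Real.exp (-B) / C0 := div_pos (Real.exp_pos _) hC0
  obtain ⟨V, hV⟩ := hmain _ hη
  have hfin : (Set.image (fun r : ℝ => C0 * r) {r : ℝ | ∃ s : Multiset ℝ, Multiset.card s = e ∧
    (∀ a ∈ s, a ∈ V) ∧ s.prod = r}).Finite := (E_prods V e).image _
  -- the points
  have hpt : ∀ n : ℕ, ∃ w : (ℝ × ℝ) × ℝ, w ∈ (F : Set (ℝ × ℝ)) ×ˢ (Set.image (fun r : ℝ => C0 * r)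
      {r : ℝ | ∃ s : Multiset ℝ, Multiset.card s = e ∧ (∀ a ∈ s, a ∈ V) ∧ s.prod = r}) ∧
      w.1.1 ≠ 0 ∧ Real.log w.2 = w.1.1 * Real.log (‖a‖ * ‖z n‖) + w.1.2 := by
    intro n
    have hwn : ‖a * z n‖ = ‖a‖ * ‖z n‖ := norm_mul _ _
    have hwlt : ‖a‖ * ‖z n‖ < ‖a‖ := by
      calc ‖a‖ * ‖z n‖ < ‖a‖ * 1 := mul_lt_mul_of_pos_left (hzlt n) ha0
        _ = ‖a‖ := mul_one _
    have hwpos : 0 < ‖a‖ * ‖z n‖ := mul_pos ha0 (hzpos n)
    have hsub : x0 + a * z n - x0 = a * z n := by ring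
    have hwρ : ‖x0 + a * z n - x0‖ < ρ := by
      rw [hsub, hwn]
      exact hwlt.trans (ha.trans_le (min_le_left _ _))
    have hwε1 : ‖x0 + a * z n - x0‖ < ε1 := by
      rw [hsub, hwn]
      exact hwlt.trans (ha.trans_le ((min_le_right _ _).trans (min_le_left _ _)))
    have hwε2 : ‖x0 + a * z n - x0‖ < ε2 := by
      rw [hsub, hwn]
      exact hwlt.trans (ha.trans_le ((min_le_right _ _).trans (min_le_right _ _)))
    have hwne : x0 + a * z n ≠ x0 := by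
      intro hc
      have h1 : a * z n = 0 := by
        have h2 := hsub
        rw [hc, sub_self] at h2
        exact h2.symm
      rw [h1, norm_zero] at hwn
      linarith
    obtain ⟨y, hyρ, hy0⟩ := HN _ hwε2
    obtain ⟨v1, v2, ⟨q, hqF, hq⟩, v4⟩ := hV _ y hwne hwρ hwε1 hyρ hy0
    rw [hsub, hwn] at hq
    have hvpos : 0 < ‖evalEval (x0 + a * z n) y hh‖ := norm_pos_iff.2 v1
    have hlog : Real.log ‖evalEval (x0 + a * z n) y hh‖ < -B0 := by
      rw [Real.log_lt_iff_lt_exp hvpos]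
      exact v2
    have hq1 : q.1 ≠ 0 := by
      intro hc
      rw [hc, zero_mul, zero_add] at hq
      have := hB0q q hqF
      linarith
    have hlogabs : |Real.log (‖a‖ * ‖z n‖)| ≤ Λ := by
      have l1 : Real.log (‖a‖ * ‖z n‖) ≤ Real.log ‖a‖ := Real.log_le_log hwpos hwlt.le
      have l2 : Real.log (‖a‖ * ‖w0‖) ≤ Real.log (‖a‖ * ‖z n‖) :=
        Real.log_le_log (mul_pos ha0 hw00) (mul_le_mul_of_nonneg_left (hzge n) ha0.le)
      have l3 := neg_abs_le (Real.log (‖a‖ * ‖w0‖))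
      have l4 := le_abs_self (Real.log ‖a‖)
      have l5 := abs_nonneg (Real.log (‖a‖ * ‖w0‖))
      have l6 := abs_nonneg (Real.log ‖a‖)
      rw [abs_le]
      constructor <;> linarith
    have hge : -B ≤ Real.log ‖evalEval (x0 + a * z n) y hh‖ := by
      have h1 := Finset.single_le_sum (f := fun q : ℝ × ℝ => |q.1| * Λ + |q.2|)
        (fun q _ => by positivity) hqF
      rw [← hB] at h1
      have h2 : |q.1 * Real.log (‖a‖ * ‖z n‖)| ≤ |q.1| * Λ := by
        rw [abs_mul]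
        exact mul_le_mul_of_nonneg_left hlogabs (abs_nonneg _)
      have h3 := neg_abs_le (q.1 * Real.log (‖a‖ * ‖z n‖))
      have h4 := neg_abs_le q.2
      rw [hq]
      linarith
    have hge2 : C0 * (Real.exp (-B) / C0) ≤ ‖evalEval (x0 + a * z n) y hh‖ := by
      rw [mul_div_cancel₀ _ hC0.ne']
      exact (Real.le_log_iff_exp_le hvpos).1 hge
    obtain ⟨s, hs1, hs2, hs3⟩ := v4 hge2
    refine ⟨(q, ‖evalEval (x0 + a * z n) y hh‖), ⟨hqF, s.prod, ⟨s, hs1, hs2, rfl⟩, hs3⟩, hq1, hq⟩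
  choose w hw1 hw2 hw3 using hpt
  have hinj : Function.Injective w := by
    intro n n' hnn
    have h1 := hw3 n
    have h2 := hw3 n'
    rw [hnn] at h1
    rw [h1] at h2
    have h3 : Real.log (‖a‖ * ‖z n‖) = Real.log (‖a‖ * ‖z n'‖) := by
      have h4 := hw2 n'
      have h5 : (w n').1.1 * Real.log (‖a‖ * ‖z n‖) = (w n').1.1 * Real.log (‖a‖ * ‖z n'‖) := by
        linarith
      exact mul_left_cancel₀ h4 h5
    have h4 : ‖a‖ * ‖z n‖ = ‖a‖ * ‖z n'‖ :=
      Real.log_injOn_pos (mul_pos ha0 (hzpos n)) (mul_pos ha0 (hzpos n')) h3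
    have h5 : ‖z n‖ = ‖z n'‖ := mul_left_cancel₀ ha0.ne' h4
    have h6 : ‖z n‖ ^ (n + 1) = ‖z n‖ ^ (n' + 1) := by
      rw [hzn n, h5, hzn n']
    have h7 := (pow_right_strictAnti₀ (hzpos n) (hzlt n)).injective h6
    omega
  have hfin2 := (F.finite_toSet).prod hfin
  exact Set.infinite_of_injective_forall_mem hinj hw1 hfin2

end Pool.Agent.Helper581_DML.Wild
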