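import Mathlib
import Pool.Agent.Helper581_DML.WDefs
import Pool.Agent.Helper581_DML.W1
import Pool.Agent.Helper581_DML.W10b
import Pool.Agent.Helper581_DML.W12
import Pool.Agent.Helper581_DML.W6d
import Pool.Agent.Helper581_DML.W9b

/-!
Part W13 of the proof (helper581, MP_6ac234_nt): `wild_pair` from `dich`, `step_A`, `special_open`, `step_B`, `step_E` (proved in the imported files).

PLAIN PROOF. First `0 < h.natDegree`: otherwise `h = C h0`, `h0` irreducible in `L[X]` so it has at most finitely many roots, while `h0(x n) = 0` for infinitely many `n` and `x n → ∞` in norm (once `‖x n‖` is larger than 1 and the coefficients of `f`, `‖x (n+1)‖ = ‖x n‖^d`; the norms are strictly increasing, so the `x n` are distinct).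
 `step_A` (`2 ≤ d`, `h ≠ 0`) gives `N1, N2, κ`, (no jumps) `hNJ`, and `S`. `dich` gives `R0, M`, i.e. `Dich f g d (p^s) N1 N2 R0 M`. `special_open` (with `q = p^s`, `2 q ≤ d`) gives `J, R1`; `step_B` gives `B`; `step_E` gives `R`. As `‖x n‖ → ∞` and `S` is infinite there are `n < m` in `S` with
 `‖x n‖ > max (R, B)`. `k = m - n`: `κ^(d^k) = κ`, `x m = f^[k] (x n)`, `y m = g^[k] (y n)`, both points are zeros of `h`, all `Sp i` hold at `(x n, y n)`. `step_E` gives the claim.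
-/

set_option autoImplicit false

namespace Pool.Agent.Helper581_DML.Wild

open Polynomial Filter
open scoped Polynomial.Bivariate


theorem wp_iter {L : Type*} (f : L → L) (x : ℕ → L) (hx : ∀ n, x (n + 1) = f (x n)) (n k : ℕ) :
    x (n + k) = f^[k] (x n) := by
  induction k with
  | zero => rfl
  | succ k ih => rw [← add_assoc, hx, ih, Function.iterate_succ_apply']

theorem wp_grow {L : Type*} [NormedField L] (x : ℕ → L) (d : ℕ) (hd : 2 ≤ d) (n0 : ℕ)
    (h1 : 1 < ‖x n0‖) (h : ∀ i, ‖x (n0 + i)‖ = ‖x n0‖ ^ d ^ i) :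
    ∀ B : ℝ, ∃ N, ∀ n, N ≤ n → B < ‖x n‖ := by
  intro B
  obtain ⟨k, hk⟩ := pow_unbounded_of_one_lt B h1
  refine ⟨n0 + k, fun n hn => ?_⟩
  obtain ⟨i, rfl⟩ := Nat.exists_eq_add_of_le (le_trans (Nat.le_add_right n0 k) hn)
  rw [h]
  refine lt_of_lt_of_le hk (pow_le_pow_right₀ h1.le ?_)
  have h2 : i < d ^ i := Nat.lt_pow_self (by omega)
  omega

theorem wild_pair {p : ℕ} [Fact p.Prime] {L : Type*} [NontriviallyNormedField L]
    [IsUltrametricDist L] [IsAlgClosed L] [CharP L p] (f g : L[X]) (hf : f.Monic) (hg : g.Monic)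
    (d s d' : ℕ) (hd : d = p ^ s * d') (hs : 1 ≤ s) (hd' : 2 ≤ d') (hpd' : ¬ p ∣ d')
    (hfd : f.natDegree = d) (hgd : g.natDegree = d) (x y : ℕ → L)
    (hx : ∀ n, x (n + 1) = f.eval (x n)) (hy : ∀ n, y (n + 1) = g.eval (y n))
    (hxu : ∀ B : ℝ, ∃ n, B < ‖x n‖)
    (hval : ∃ N1 N2 : ℕ, 0 < N1 ∧ 0 < N2 ∧ ∀ᶠ n in atTop, ‖y n‖ ^ N1 = ‖x n‖ ^ N2)
    (h : L[X][Y]) (hirr : Irreducible h) (hinf : {n | evalEval (x n) (y n) h = 0}.Infinite) :
    ∃ k, 0 < k ∧ ∀ a b : L, evalEval a b h = 0 →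
      evalEval ((fun z => f.eval z)^[k] a) ((fun z => g.eval z)^[k] b) h = 0 := by
  have hp : 1 ≤ p ^ s := Nat.one_le_pow _ _ (Fact.out : p.Prime).pos
  have hpd : 2 * p ^ s ≤ d := by
    rw [hd, mul_comm 2]
    exact Nat.mul_le_mul_left _ hd'
  have hd2 : 2 ≤ d := by omega
  -- growth of the orbit
  have hgrow : ∀ B : ℝ, ∃ N, ∀ n, N ≤ n → B < ‖x n‖ := by
    obtain ⟨R, M, hR, -, hRM⟩ := dich f g hf hg d s d' hd hd' hpd' hfd hgd 1 1 one_pos one_pos
    obtain ⟨n0, hn0⟩ := hxu R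
    refine wp_grow x d hd2 n0 (lt_of_le_of_lt hR hn0) (fun i => ?_)
    rw [wp_iter (fun z => f.eval z) x hx n0 i]
    exact (hRM 1 (x n0) (y n0) (by simp) hn0 i).1
  -- positive degree
  have hdeg : 0 < h.natDegree := by
    by_contra hcon
    have h0 : h.natDegree = 0 := by omega
    rw [natDegree_eq_zero] at h0
    obtain ⟨h0, rfl⟩ := h0
    have hne : h0 ≠ 0 := by
      rintro rfl
      exact hirr.ne_zero (by simp)
    classical
    obtain ⟨B, hB⟩ : ∃ B : ℝ, ∀ z ∈ h0.roots.toFinset, ‖z‖ ≤ B :=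
      (h0.roots.toFinset.finite_toSet.image norm).bddAbove.imp
        (fun B hB z hz => hB ⟨z, hz, rfl⟩)
    obtain ⟨N, hN⟩ := hgrow B
    apply hinf
    refine (Set.finite_lt_nat N).subset (fun n hn => ?_)
    rw [Set.mem_ofPred_eq, evalEval_C] at hn
    by_contra hnN
    have h2 := hN n (not_lt.mp hnN)
    have h3 := hB (x n) (by
      rw [Multiset.mem_toFinset, mem_roots hne]
      exact hn)
    linarith
  obtain ⟨N1, N2, κ, hN1, hN2, hκ, hNJ, S, hS, hS1, hS2⟩ :=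
    step_A f g hf hg d hd2 hfd hgd x y hx hy hxu hval h hirr.ne_zero hinf
  obtain ⟨R0, M, hD⟩ := dich f g hf hg d s d' hd hd' hpd' hfd hgd N1 N2 hN1 hN2
  have hD' : Dich f g d (p ^ s) N1 N2 R0 M := hD
  obtain ⟨J, R1, hopen⟩ := special_open (p := p) f g d (p ^ s) N1 N2 hp hpd hN2 R0 M hD' κ hκ h
    hdeg hNJ
  obtain ⟨B, hB⟩ := step_B f g d s d' hd hs hd' N1 N2 hN1 hN2 R0 M hD' κ hκ h hirr hdeg x y hx hy
    hxu S hS hS1 hS2
  obtain ⟨R, hR⟩ := step_E f g hf hg d s d' hd hd' hpd' hfd hgd N1 N2 hN1 hN2 R0 M hD' κ hκ h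
    hirr hdeg J R1 hopen
  obtain ⟨N, hN⟩ := hgrow (max R B)
  obtain ⟨n, hn, hnN⟩ := hS.exists_gt N
  obtain ⟨m, hm, hnm⟩ := hS.exists_gt n
  have hbig := hN n hnN.le
  have hx' := wp_iter (fun z => f.eval z) x hx n (m - n)
  have hy' := wp_iter (fun z => g.eval z) y hy n (m - n)
  rw [Nat.add_sub_cancel' hnm.le] at hx' hy'
  refine ⟨m - n, Nat.sub_pos_of_lt hnm, ?_⟩
  refine hR (m - n) (hS2 n hn m hm hnm) (x n) (y n) (lt_of_le_of_lt (le_max_left _ _) hbig)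
    (hS1 n hn).1 ?_ (hB n hn (lt_of_le_of_lt (le_max_right _ _) hbig))
  rw [← hx', ← hy']
  exact (hS1 m hm).1

end Pool.Agent.Helper581_DML.Wild
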