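import Mathlib
import Pool.Agent.Helper581_DML.Defs
import Pool.Agent.Helper581_DML.E9
import Pool.Agent.Helper581_DML.P1
import Pool.Agent.Helper581_DML.W13

/-!
Part W14 of the proof (helper581, MP_6ac234_nt): `hval_closure`, `escape_pair_closure_all` from `escape_pair_closure` (the tame case), `wild_pair`, `ext_val` (proved in the imported files).

PLAIN PROOF. `hval_closure`: if `ρ ≥ 1` bounds the norms of the coefficients of `f`, then `‖f(z)‖ = ‖z‖^d` for `‖z‖ > ρ`, so, as `x` is unbounded, from some `n0` on `‖x (n+1)‖ = ‖x n‖^d`, `‖x n‖ > 1`; the same for `y`. Let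
 `E = F(x n0, y n0) ⊆ W`, finite over `F`, with the norm of `W` (nontrivially normed since it contains `F`; the instances as in: `IntermediateField.adjoin F {x n0, y n0}`, `NormedField` inferred, `non_trivial` from `t`). By `ext_val`
 `‖x n0‖^M = ‖t‖^a`, `‖y n0‖^M = ‖t‖^b`, `a, b > 0` (norms > 1), so `‖y n0‖^(M a) = ‖x n0‖^(M b)` with `a, b` as naturals, and by induction for all `n ≥ n0`.
 `escape_pair_closure_all`: if `p ∤ d` use `escape_pair_closure`. Otherwise `d = p^s d'` with `p ∤ d'`, `s ≥ 1`, and `d' ≥ 2` as `d` is not a power of `p`. `W[X][Y]` is a unique factorization domain; `h ≠ 0` is a unit times a product of irreducible elements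
 `h_1, …, h_r` (with repetition), a zero of `h` is a zero of some `h_i` (a unit has no zeros), so some `h_i` has infinitely many zeros `(x n, y n)`. `wild_pair` (with `hval_closure`; `CharP W p` as `k → F → W`) for `h_i` gives `k > 0` such that
 `h_i(a,b) = 0` implies `h_i(f^[k] a, g^[k] b) = 0`; `x (n+k) = f^[k] (x n)`. So for infinitely many `n` both `(x n, y n)` and `(x (n+k), y (n+k))` are zeros of `h_i`, and so of `h`.
-/

set_option autoImplicit false

namespace Pool.Agent.Helper581_DML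

open Polynomial Filter
open scoped Polynomial.Bivariate
open Pool.Agent.Helper581_DML.Wild (wild_pair)


/-- the norm of a value of a monic polynomial at a large argument -/
theorem h629_norm_eval {W : Type*} [NormedField W] [IsUltrametricDist W] (f : W[X])
    (hf : f.Monic) {d : ℕ} (hfd : f.natDegree = d) (hd : 1 ≤ d) :
    ∃ ρ : ℝ, 1 ≤ ρ ∧ ∀ z : W, ρ < ‖z‖ → ‖f.eval z‖ = ‖z‖ ^ d := by
  obtain ⟨ρ, hρ1, hρ⟩ : ∃ ρ : ℝ, 1 ≤ ρ ∧ ∀ i ∈ Finset.range d, ‖f.coeff i‖ ≤ ρ := by
    refine ⟨1 + ∑ i ∈ Finset.range d, ‖f.coeff i‖, ?_, ?_⟩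
    · have : 0 ≤ ∑ i ∈ Finset.range d, ‖f.coeff i‖ := Finset.sum_nonneg fun i _ => norm_nonneg _
      linarith
    · intro i hi
      have : ‖f.coeff i‖ ≤ ∑ i ∈ Finset.range d, ‖f.coeff i‖ :=
        Finset.single_le_sum (f := fun i => ‖f.coeff i‖) (fun i _ => norm_nonneg _) hi
      linarith
  refine ⟨ρ, hρ1, fun z hz => ?_⟩
  have hz1 : 1 < ‖z‖ := lt_of_le_of_lt hρ1 hz
  have h1 : f.eval z = z ^ d + ∑ i ∈ Finset.range d, f.coeff i * z ^ i := by
    rw [eval_eq_sum_range, hfd, Finset.sum_range_succ]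
    have : f.coeff d = 1 := by
      rw [← hfd]
      exact hf.coeff_natDegree
    rw [this, one_mul, add_comm]
  have h2 : ‖∑ i ∈ Finset.range d, f.coeff i * z ^ i‖ ≤ ρ * ‖z‖ ^ (d - 1) := by
    refine IsUltrametricDist.norm_sum_le_of_forall_le_of_nonneg (by positivity) ?_
    intro i hi
    rw [norm_mul, norm_pow]
    have hi' := Finset.mem_range.1 hi
    exact mul_le_mul (hρ i hi) (pow_le_pow_right₀ hz1.le (by omega)) (by positivity) (by linarith)
  have h3 : ρ * ‖z‖ ^ (d - 1) < ‖z‖ ^ d := by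
    have : ‖z‖ ^ d = ‖z‖ * ‖z‖ ^ (d - 1) := by
      rw [← pow_succ']
      congr 1
      omega
    rw [this]
    exact mul_lt_mul_of_pos_right hz (by positivity)
  have h4 : ‖∑ i ∈ Finset.range d, f.coeff i * z ^ i‖ < ‖z ^ d‖ := by
    rw [norm_pow]
    exact h2.trans_lt h3
  rw [h1, IsUltrametricDist.norm_add_eq_max_of_norm_ne_norm h4.ne', max_eq_left h4.le, norm_pow]

/-- norms along an unbounded orbit -/
theorem h629_orbit {W : Type*} [NormedField W] [IsUltrametricDist W] (f : W[X])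
    (hf : f.Monic) {d : ℕ} (hfd : f.natDegree = d) (hd : 1 ≤ d) (x : ℕ → W)
    (hx : ∀ n, x (n + 1) = f.eval (x n)) (hxu : ∀ B : ℝ, ∃ n, B < ‖x n‖) :
    ∃ n0, ∀ n, n0 ≤ n → 1 < ‖x n‖ ∧ ‖x (n + 1)‖ = ‖x n‖ ^ d := by
  obtain ⟨ρ, hρ1, hρ⟩ := h629_norm_eval f hf hfd hd
  obtain ⟨n0, hn0⟩ := hxu ρ
  have key : ∀ n, n0 ≤ n → ρ < ‖x n‖ := by
    intro n hn
    induction n, hn using Nat.le_induction with
    | base => exact hn0
    | succ n hn ih =>
        rw [hx, hρ _ ih]
        have h1 : 1 ≤ ‖x n‖ := by linarith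
        exact ih.trans_le (le_self_pow₀ h1 (by omega))
  refine ⟨n0, fun n hn => ⟨by linarith [key n hn], ?_⟩⟩
  rw [hx, hρ _ (key n hn)]


theorem hval_closure {p : ℕ} [Fact p.Prime] {k F W : Type} [Field k] [IsAlgClosed k]
    [CharP k p] [NontriviallyNormedField F] [IsUltrametricDist F] [CompleteSpace F] [Algebra k F]
    (t : F) (hF : LF p k F t) [NontriviallyNormedField W] [IsUltrametricDist W] [NormedAlgebra F W]
    [Algebra.IsAlgebraic F W] (f g : W[X]) (hf : f.Monic) (hg : g.Monic)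
    (d : ℕ) (hfd : f.natDegree = d) (hgd : g.natDegree = d) (hd2 : 2 ≤ d)
    (x y : ℕ → W) (hx : ∀ n, x (n + 1) = f.eval (x n)) (hy : ∀ n, y (n + 1) = g.eval (y n))
    (hxu : ∀ B : ℝ, ∃ n, B < ‖x n‖) (hyu : ∀ B : ℝ, ∃ n, B < ‖y n‖) :
    ∃ N1 N2 : ℕ, 0 < N1 ∧ 0 < N2 ∧ ∀ᶠ n in atTop, ‖y n‖ ^ N1 = ‖x n‖ ^ N2 := by
  obtain ⟨n1, hn1⟩ := h629_orbit f hf hfd (by omega) x hx hxu
  obtain ⟨n2, hn2⟩ := h629_orbit g hg hgd (by omega) y hy hyu
  set n0 := max n1 n2 with hn0
  have hX : 1 < ‖x n0‖ := (hn1 n0 (le_max_left _ _)).1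
  have hY : 1 < ‖y n0‖ := (hn2 n0 (le_max_right _ _)).1
  let E : IntermediateField F W := IntermediateField.adjoin F {x n0, y n0}
  have hfin : FiniteDimensional F E := by
    refine IntermediateField.finiteDimensional_adjoin ?_
    intro z _
    exact (Algebra.IsAlgebraic.isAlgebraic z).isIntegral
  have hultra : IsUltrametricDist E := IsUltrametricDist.subtype _
  obtain ⟨M, hM, hval⟩ := ext_val (E := E) t hF
  have hxE : x n0 ∈ E := IntermediateField.subset_adjoin F _ (by simp)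
  have hyE : y n0 ∈ E := IntermediateField.subset_adjoin F _ (by simp)
  have aux : ∀ z : W, z ∈ E → 1 < ‖z‖ → ∃ a : ℕ, 0 < a ∧ ‖z‖ ^ M = ‖t‖ ^ a := by
    intro z hz hz1
    have hne : (⟨z, hz⟩ : E) ≠ 0 := by
      intro h
      have h1 : z = 0 := congrArg Subtype.val h
      rw [h1, norm_zero] at hz1
      linarith
    obtain ⟨m, hm⟩ := hval ⟨z, hz⟩ hne
    have hm' : ‖z‖ ^ M = ‖t‖ ^ m := hm
    have h1 : 1 < ‖z‖ ^ M := one_lt_pow₀ hz1 hM.ne'
    rw [hm'] at h1
    have h2 : 0 < m := (one_lt_zpow_iff_right₀ hF.one_lt).1 h1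
    obtain ⟨a, rfl⟩ := Int.eq_ofNat_of_zero_le h2.le
    refine ⟨a, by exact_mod_cast h2, ?_⟩
    rw [hm', zpow_natCast]
  obtain ⟨a, ha, hxa⟩ := aux _ hxE hX
  obtain ⟨b, hb, hyb⟩ := aux _ hyE hY
  refine ⟨M * a, M * b, Nat.mul_pos hM ha, Nat.mul_pos hM hb, ?_⟩
  rw [eventually_atTop]
  refine ⟨n0, fun n hn => ?_⟩
  induction n, hn using Nat.le_induction with
  | base =>
      rw [pow_mul, pow_mul, hxa, hyb, ← pow_mul, ← pow_mul, mul_comm]
  | succ n hn ih =>
      rw [(hn1 n (le_trans (le_max_left _ _) hn)).2, (hn2 n (le_trans (le_max_right _ _) hn)).2,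
        ← pow_mul, ← pow_mul, mul_comm d, mul_comm d, pow_mul _ (M * a) d, pow_mul _ (M * b) d, ih]

theorem escape_pair_closure_all {p : ℕ} [Fact p.Prime] {k F W : Type} [Field k] [IsAlgClosed k]
    [CharP k p] [NontriviallyNormedField F] [IsUltrametricDist F] [CompleteSpace F] [Algebra k F]
    (t : F) (hF : LF p k F t) [NontriviallyNormedField W] [IsUltrametricDist W] [NormedAlgebra F W]
    [IsAlgClosed W] [Algebra.IsAlgebraic F W] (f g : W[X]) (hf : f.Monic) (hg : g.Monic)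
    (d : ℕ) (hfd : f.natDegree = d) (hgd : g.natDegree = d) (hd2 : 2 ≤ d)
    (hpd : ∀ a : ℕ, d ≠ p ^ a)
    (x y : ℕ → W) (hx : ∀ n, x (n + 1) = f.eval (x n)) (hy : ∀ n, y (n + 1) = g.eval (y n))
    (hxu : ∀ B : ℝ, ∃ n, B < ‖x n‖) (hyu : ∀ B : ℝ, ∃ n, B < ‖y n‖)
    (h : W[X][Y]) (hh : h ≠ 0) (hinf : {n | evalEval (x n) (y n) h = 0}.Infinite) :
    ∃ k, 0 < k ∧ {n | evalEval (x n) (y n) h = 0 ∧
      evalEval (x (n + k)) (y (n + k)) h = 0}.Infinite := by
  classical
  by_cases hpd' : p ∣ d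
  swap
  · exact escape_pair_closure t hF f g hf hg d hfd hgd hd2 hpd' x y hx hy hxu hyu h hh hinf
  have hp : p.Prime := Fact.out
  obtain ⟨s, d', hd', hdd⟩ := Nat.exists_eq_pow_mul_and_not_dvd (n := d) (by omega) p hp.ne_one
  have hs : 1 ≤ s := by
    rcases Nat.eq_zero_or_pos s with rfl | hs
    · rw [pow_zero, one_mul] at hdd
      rw [hdd] at hpd'
      exact absurd hpd' hd'
    · exact hs
  have hd'2 : 2 ≤ d' := by
    rcases Nat.lt_or_ge d' 2 with h2 | h2
    · interval_cases d'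
      · exact absurd (dvd_zero p) hd'
      · rw [mul_one] at hdd
        exact absurd hdd (hpd s)
    · exact h2
  have hcF : CharP F p := charP_of_injective_algebraMap (algebraMap k F).injective p
  have hcW : CharP W p := charP_of_injective_algebraMap (algebraMap F W).injective p
  have hval := hval_closure t hF f g hf hg d hfd hgd hd2 x y hx hy hxu hyu
  -- factorization
  obtain ⟨S, hS, u, hu⟩ := WfDvdMonoid.exists_factors h hh
  have hmap : ∀ a b : W, ∀ q : W[X][Y], evalEval a b q = evalEvalRingHom a b q := fun a b q => rfl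
  have hfac : ∀ n, evalEval (x n) (y n) h = 0 → ∃ q ∈ S, evalEval (x n) (y n) q = 0 := by
    intro n hn
    have h1 : evalEvalRingHom (x n) (y n) (S.prod * u) = 0 := by
      rw [hu]
      exact hn
    rw [map_mul, mul_eq_zero] at h1
    rcases h1 with h1 | h1
    · rw [map_multiset_prod, Multiset.prod_eq_zero_iff, Multiset.mem_map] at h1
      obtain ⟨q, hq, hq'⟩ := h1
      exact ⟨q, hq, hq'⟩
    · exfalso
      have h2 : IsUnit (evalEvalRingHom (x n) (y n) (u : W[X][Y])) := u.isUnit.map _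
      rw [h1] at h2
      exact not_isUnit_zero h2
  obtain ⟨q, hqS, hqinf⟩ : ∃ q ∈ S, {n | evalEval (x n) (y n) q = 0}.Infinite := by
    by_contra hcon
    push Not at hcon
    refine hinf ?_
    have h1 : (⋃ q ∈ S.toFinset, {n | evalEval (x n) (y n) q = 0}).Finite := by
      refine Set.Finite.biUnion S.toFinset.finite_toSet ?_
      intro q hq
      exact hcon q (Multiset.mem_toFinset.1 hq)
    refine h1.subset ?_
    intro n hn
    obtain ⟨q, hq, hq'⟩ := hfac n hn
    exact Set.mem_biUnion (Multiset.mem_toFinset.2 hq) hq'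
  have hqh : q ∣ h := (Multiset.dvd_prod hqS).trans ⟨u, hu.symm⟩
  have hzero : ∀ a b : W, evalEval a b q = 0 → evalEval a b h = 0 := by
    intro a b hab
    obtain ⟨r, hr⟩ := hqh
    rw [hr, hmap, map_mul, ← hmap, hab, zero_mul]
  obtain ⟨k', hk', hk⟩ := wild_pair f g hf hg d s d' hdd hs hd'2 hd' hfd hgd x y hx hy hxu hval q
    (hS q hqS) hqinf
  refine ⟨k', hk', hqinf.mono ?_⟩
  intro n hn
  have hx' : ∀ m, (fun z => f.eval z)^[m] (x n) = x (n + m) := by
    intro m
    induction m with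
    | zero => rfl
    | succ m ih =>
        rw [Function.iterate_succ_apply', ih]
        exact (hx (n + m)).symm
  have hy' : ∀ m, (fun z => g.eval z)^[m] (y n) = y (n + m) := by
    intro m
    induction m with
    | zero => rfl
    | succ m ih =>
        rw [Function.iterate_succ_apply', ih]
        exact (hy (n + m)).symm
  have h1 := hk _ _ hn
  rw [hx', hy'] at h1
  exact ⟨hzero _ _ hn, hzero _ _ h1⟩

end Pool.Agent.Helper581_DML
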