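import Mathlib
import Pool.Agent.Helper581_DML.Defs
import Pool.Agent.Helper581_DML.W14

/-!
Part P4 of the proof (helper581, MP_6ac234_nt): `inv_transform` and `exceptional_case`.

PLAIN PROOF. `inv_transform`: in `h : W[X][Y]` substitute `b + 1/u` for the inner variable and multiply by `u^N`, `N` a bound for the degrees
 of all coefficients: with `h = ∑ q_j Y^j`, `q'_j = reflect N (q_j.comp (X + C b))` (`Polynomial.reflect`, `Polynomial.taylor`) satisfies
 `q'_j(u) = u^N q_j(b + u⁻¹)` for `u ≠ 0` (`Polynomial.eval₂_reflect_mul_pow` and similar), `h' = ∑ q'_j Y^j`; `h' ≠ 0` since some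
 `q_j ≠ 0` and then `q'_j ≠ 0`.
 `exceptional_case`: `y (n+1) - b = (y n - b)^d`. As `y n` comes arbitrarily close to `b` (`hclose`), `‖y n1 - b‖ < 1` for some `n1`, so
 `‖y (n1+j) - b‖ = ‖y n1 - b‖^(d^j) → 0`. Also `y n ≠ b` for all `n` (otherwise `y` is constant `b` from then on, and its range is finite).
 Let `u n = (y n - b)⁻¹`: `u (n+1) = (u n)^d = (X^d).eval (u n)` and `‖u n‖` is unbounded. With `h'` from `inv_transform`:
 `evalEval (u n) (x n) h' = 0` iff `evalEval (y n) (x n) h = 0`. Apply `escape_pair_closure_all` with the roles: first polynomial `X^d` with the sequence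
 `u`, second polynomial `f` with the sequence `x`, and `h'`.
-/

set_option autoImplicit false

namespace Pool.Agent.Helper581_DML

open Polynomial Filter
open scoped Polynomial.Bivariate


theorem inv_transform {W : Type*} [Field W] (h : W[X][Y]) (hh : h ≠ 0) (b : W) :
    ∃ h' : W[X][Y], h' ≠ 0 ∧ ∀ u x : W, u ≠ 0 →
      (evalEval u x h' = 0 ↔ evalEval (b + u⁻¹) x h = 0) := by
  classical
  obtain ⟨N, hN⟩ : ∃ N : ℕ, ∀ j ∈ h.support, (h.coeff j).natDegree ≤ N :=
    ⟨h.support.sup (fun j => (h.coeff j).natDegree), fun j hj =>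
      Finset.le_sup (f := fun j => (h.coeff j).natDegree) hj⟩
  let T : W[X] → W[X] := fun q => reflect N (taylor b q)
  have hTe : ∀ q : W[X], q.natDegree ≤ N → ∀ u : W, u ≠ 0 →
      eval u (T q) = u ^ N * eval (b + u⁻¹) q := by
    intro q hq u hu
    letI : Invertible (u⁻¹) := invertibleOfNonzero (inv_ne_zero hu)
    have h1 := eval₂_reflect_mul_pow (RingHom.id W) (u⁻¹) N (taylor b q)
      (by rw [natDegree_taylor]; exact hq)
    rw [invOf_eq_inv, inv_inv] at h1
    have h2 : eval u (T q) * (u⁻¹) ^ N = eval (u⁻¹) (taylor b q) := h1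
    rw [taylor_eval, add_comm] at h2
    rw [← h2, mul_comm (u ^ N), mul_assoc, ← mul_pow, inv_mul_cancel₀ hu, one_pow, mul_one]
  let h' : W[X][Y] := ∑ j ∈ h.support, monomial j (T (h.coeff j))
  have hcoef : ∀ j ∈ h.support, h'.coeff j = T (h.coeff j) := by
    intro j hj
    simp only [h', finsetSum_coeff, coeff_monomial]
    rw [Finset.sum_ite_eq' h.support j (fun i => T (h.coeff i)), if_pos hj]
  refine ⟨h', ?_, ?_⟩
  · intro h0
    obtain ⟨j, hj⟩ := Polynomial.support_nonempty.2 hh
    have h1 := hcoef j hj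
    rw [h0, coeff_zero] at h1
    have h2 : taylor b (h.coeff j) = 0 := by
      rw [← reflect_eq_zero_iff (N := N)]
      exact h1.symm
    have h3 : h.coeff j = 0 := taylor_injective b (by rw [h2, map_zero])
    exact (mem_support_iff.1 hj) h3
  · intro u x hu
    have e1 : evalEval u x h' = ∑ j ∈ h.support, eval u (T (h.coeff j)) * x ^ j := by
      simp only [evalEval, h', eval_finsetSum, eval_monomial, eval_mul, eval_pow, eval_C]
    have e2 : evalEval (b + u⁻¹) x h = ∑ j ∈ h.support, eval (b + u⁻¹) (h.coeff j) * x ^ j := by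
      rw [evalEval, eval_eq_sum (p := h) (x := C x), Polynomial.sum]
      simp only [eval_finsetSum, eval_mul, eval_pow, eval_C]
    have e3 : evalEval u x h' = u ^ N * evalEval (b + u⁻¹) x h := by
      rw [e1, e2, Finset.mul_sum]
      refine Finset.sum_congr rfl fun j hj => ?_
      rw [hTe _ (hN j hj) u hu, mul_assoc]
    rw [e3, mul_eq_zero, or_iff_right (pow_ne_zero _ hu)]

theorem exceptional_case {p : ℕ} [Fact p.Prime] {k F W : Type} [Field k] [IsAlgClosed k]
    [CharP k p] [NontriviallyNormedField F] [IsUltrametricDist F] [CompleteSpace F] [Algebra k F]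
    (t : F) (hF : LF p k F t) [NontriviallyNormedField W] [IsUltrametricDist W] [NormedAlgebra F W]
    [IsAlgClosed W] [Algebra.IsAlgebraic F W] (f : W[X]) (hf : f.Monic)
    (d : ℕ) (hfd : f.natDegree = d) (hd2 : 2 ≤ d) (hpd : ∀ a : ℕ, d ≠ p ^ a) (b : W)
    (x y : ℕ → W) (hx : ∀ n, x (n + 1) = f.eval (x n)) (hy : ∀ n, y (n + 1) = (y n - b) ^ d + b)
    (hxu : ∀ B : ℝ, ∃ n, B < ‖x n‖) (hyi : (Set.range y).Infinite)
    (hclose : ∀ ε : ℝ, 0 < ε → ∃ n, ‖y n - b‖ < ε)
    (h : W[X][Y]) (hh : h ≠ 0) (hinf : {n | evalEval (y n) (x n) h = 0}.Infinite) :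
    ∃ k, 0 < k ∧ {n | evalEval (y n) (x n) h = 0 ∧
      evalEval (y (n + k)) (x (n + k)) h = 0}.Infinite := by
  have hyb : ∀ n, y n ≠ b := by
    intro n0 h0
    apply hyi
    have hc : ∀ m, y (n0 + m) = b := by
      intro m
      induction m with
      | zero => exact h0
      | succ m ih =>
        rw [← add_assoc, hy, ih, sub_self, zero_pow (by omega), zero_add]
    refine (Set.Finite.insert b (Set.Finite.image y (Set.finite_Iio n0))).subset ?_
    rintro _ ⟨n, rfl⟩
    by_cases hn : n < n0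
    · exact Or.inr ⟨n, hn, rfl⟩
    · left
      obtain ⟨m, rfl⟩ := Nat.exists_eq_add_of_le (not_lt.1 hn)
      exact hc m
  have hyb' : ∀ n, y n - b ≠ 0 := fun n => sub_ne_zero.2 (hyb n)
  obtain ⟨h', hh', hiff⟩ := inv_transform h hh b
  have hiff' : ∀ n, evalEval ((y n - b)⁻¹) (x n) h' = 0 ↔ evalEval (y n) (x n) h = 0 := by
    intro n
    rw [hiff _ _ (inv_ne_zero (hyb' n)), inv_inv, add_sub_cancel]
  obtain ⟨k, hk, hinf2⟩ := escape_pair_closure_all t hF (X ^ d) f (monic_X_pow d) hf d
    (natDegree_X_pow d) hfd hd2 hpd (fun n => (y n - b)⁻¹) x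
    (fun n => by simp only [hy, add_sub_cancel_right, eval_pow, eval_X, inv_pow]) hx
    (fun B => by
      obtain ⟨n, hn⟩ := hclose (|B| + 1)⁻¹ (by positivity)
      refine ⟨n, ?_⟩
      have h1 : 0 < ‖y n - b‖ := norm_pos_iff.2 (hyb' n)
      rw [norm_inv]
      have h2 : |B| + 1 < ‖y n - b‖⁻¹ := by
        rw [lt_inv_comm₀ (by positivity) h1]
        exact hn
      have h3 := le_abs_self B
      linarith) hxu h' hh' (by simpa only [hiff'] using hinf)
  refine ⟨k, hk, ?_⟩
  simpa only [hiff'] using hinf2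

end Pool.Agent.Helper581_DML

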