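import Mathlib
import Pool.Agent.Helper581_DML.Defs
import Pool.Agent.Helper581_DML.E12
import Pool.Agent.Helper581_DML.E13
import Pool.Agent.Helper581_DML.W14
import Pool.Agent.Helper581_DML.P2
import Pool.Agent.Helper581_DML.P3
import Pool.Agent.Helper581_DML.P4

/-!
Part P5 of the proof (helper581, MP_6ac234_nt): `key_place`, the assembly at a place where `x` escapes, from the lemmas stated (proved in the imported files).

PLAIN PROOF. `A` is a domain embedded by `ι` in `W`, its elements are integral over `k[X]` and separable over `K0 = RatFunc k`. In `h : A[X][Y]` the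
 inner variable stands for `y`, the outer one for `x`. Let `fW, gW, hW` be the images over `W`, `xW n = ι (x n)`, `yW n = ι (y n)`;
 `evalEval (y n) (x n) h = 0` iff `evalEval (yW n) (xW n) hW = 0` (`ι` injective), `hW ≠ 0`, `fW, gW` monic of degree `d`.
 CASE 1: `‖yW n‖` unbounded. Apply `escape_pair_closure_all` with first pair `(gW, yW)` and second pair `(fW, xW)`, and `hW`.
 CASE 2: `‖yW n‖` bounded. `near_root` gives `b ∈ W` with `ℓ(b) = 0`, `ℓ = hW.leadingCoeff`, and `c > 0`. `b` is algebraic over `K0`, since the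
 coefficients of `ℓ ≠ 0` are (image of `A`).
 Let `V` be the algebraic closure of `K0` in `W` (`algebraicClosure K0 W`, an intermediate field, algebraically closed as `W` is), with
 the norm of `W`; `b`, the `yW n` and the coefficients of `gW` are in `V`. Apply `amplify` in `V` (`CharP V p`).
 CASE 2a: `gW = (X - C b)^d + C b`. Then `exceptional_case` applies: `yW (n+1) = (yW n - b)^d + b`, the range of `yW` is infinite, `hclose` from
 `near_root` (`exp(-c d^n) → 0`, infinitely many `n`).
 CASE 2b: for every `M` there is `α ∈ V` with `‖yW n - α‖ ≤ exp(-M d^n)` for infinitely many `n`. Let `K = IntermediateField.adjoin K0 (ι '' s)`, `s` the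
 finite generating set of `A` as an algebra over `ZMod p` (or: adjoin the images of `y 0` and of the coefficients of `g` and of `ℓ`, a finite set);
 it is finite and separable over `K0`, contains `yW n`, and the coefficients of `gW` and `ℓ`. `growth` gives `A'` (the bound
 `exp(A' d^n)`); `exists_escape` for `q = ℓ` over `K` (`ℓ(y n)` is integral over `k[X]` since it is in `ι(A)`; `hsmall`: `ℓ(yW n) → ℓ(b) = 0` along the infinite
 set where `‖yW n - b‖ ≤ exp(-c d^n)`, continuity of `ℓ`; `hnorm` from `LF.norm_poly`, `hX`, `hC`: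
 `‖algebraMap k[X] W q‖ = ‖t‖^(natDegree q) ≥ 1`). Choose `M > finrank K0 K * A'` and `α` for it. `approx_false` gives a contradiction.
-/

set_option autoImplicit false

namespace Pool.Agent.Helper581_DML

open Polynomial Filter
open scoped Polynomial.Bivariate


theorem key_place_small {W : Type*} [NormedField W] (d : ℕ) (hd2 : 2 ≤ d) (y : ℕ → W) (b : W)
    (c : ℝ) (hc : 0 < c) (hinf : {n | ‖y n - b‖ ≤ Real.exp (-c * (d : ℝ) ^ n)}.Infinite)
    (ε : ℝ) (hε : 0 < ε) : {n | ‖y n - b‖ < ε}.Infinite := by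
  have hd1 : (1 : ℝ) < (d : ℝ) := by exact_mod_cast (by omega : 1 < d)
  have h1 : Tendsto (fun n : ℕ => Real.exp (-c * (d : ℝ) ^ n)) atTop (nhds 0) := by
    apply Real.tendsto_exp_atBot.comp
    have h2 : Tendsto (fun n : ℕ => (d : ℝ) ^ n) atTop atTop := tendsto_pow_atTop_atTop_of_one_lt hd1
    exact h2.const_mul_atTop_of_neg (neg_lt_zero.mpr hc)
  have h3 : ∀ᶠ n : ℕ in atTop, Real.exp (-c * (d : ℝ) ^ n) < ε := h1.eventually_lt_const hε
  obtain ⟨N, hN⟩ := eventually_atTop.mp h3
  have h4 : ({n | ‖y n - b‖ ≤ Real.exp (-c * (d : ℝ) ^ n)} \ Set.Iio N).Infinite :=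
    hinf.sdiff (Set.finite_Iio N)
  apply h4.mono
  intro n hn
  have h5 : N ≤ n := not_lt.mp hn.2
  exact lt_of_le_of_lt hn.1 (hN n h5)

/-- norm of a polynomial -/
theorem key_place_norm {p : ℕ} {k F W : Type} [Field k]
    [NontriviallyNormedField F] [Algebra k F] (t : F)
    (hF : LF p k F t) [NontriviallyNormedField W] [NormedAlgebra F W] [Algebra (RatFunc k) W]
    [Algebra k[X] W] [IsScalarTower k[X] (RatFunc k) W]
    (hX : algebraMap (RatFunc k) W RatFunc.X = algebraMap F W t)
    (hC : ∀ c, algebraMap (RatFunc k) W (RatFunc.C c) = algebraMap F W (algebraMap k F c))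
    (q : k[X]) (hq : q ≠ 0) : 1 ≤ ‖algebraMap k[X] W q‖ := by
  have h1 : (algebraMap k[X] W) = (algebraMap F W).comp (aeval t : k[X] →ₐ[k] F).toRingHom := by
    apply Polynomial.ringHom_ext
    · intro a
      rw [IsScalarTower.algebraMap_apply k[X] (RatFunc k) W, RatFunc.algebraMap_C, hC]
      simp
    · rw [IsScalarTower.algebraMap_apply k[X] (RatFunc k) W, RatFunc.algebraMap_X, hX]
      simp
  rw [h1]
  change 1 ≤ ‖algebraMap F W (aeval t q)‖
  rw [norm_algebraMap', hF.norm_poly q hq]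
  exact one_le_pow₀ hF.one_lt.le

theorem key_place_charP {p : ℕ} {k F W : Type} [Field k] [CharP k p]
    [NontriviallyNormedField F] [Algebra k F] [NontriviallyNormedField W] [NormedAlgebra F W] :
    CharP W p := by
  have h1 : CharP F p := charP_of_injective_algebraMap (algebraMap k F).injective p
  exact charP_of_injective_algebraMap (algebraMap F W).injective p

/-- images in `W` -/
theorem key_place_lift {K0 W : Type} [Field K0] [Field W] [Algebra K0 W]
    (K : IntermediateField K0 W) (q : W[X]) (hq : ∀ n, q.coeff n ∈ K) :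
    ∃ r : K[X], r.map (algebraMap K W) = q := by
  have h1 : q ∈ Polynomial.lifts (algebraMap K W) := by
    rw [Polynomial.lifts_iff_coeff_lifts]
    intro n
    exact ⟨⟨q.coeff n, hq n⟩, rfl⟩
  rw [Polynomial.lifts_iff_ringHom_rangeS, RingHom.mem_rangeS] at h1
  obtain ⟨r, hr⟩ := h1
  exact ⟨r, hr⟩

theorem key_place_lift_monic {K0 W : Type} [Field K0] [Field W] [Algebra K0 W]
    (K : IntermediateField K0 W) (q : W[X]) (hqm : q.Monic) (hq : ∀ n, q.coeff n ∈ K) :
    ∃ r : K[X], r.map (algebraMap K W) = q ∧ r.natDegree = q.natDegree ∧ r.Monic := by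
  have h1 : q ∈ Polynomial.lifts (algebraMap K W) := by
    rw [Polynomial.lifts_iff_coeff_lifts]
    intro n
    exact ⟨⟨q.coeff n, hq n⟩, rfl⟩
  exact Polynomial.lifts_and_natDegree_eq_and_monic h1 hqm

theorem key_place_coe {K0 W : Type} [Field K0] [Field W] [Algebra K0 W]
    (K : IntermediateField K0 W) (r : K[X]) (q : W[X]) (hr : r.map (algebraMap K W) = q) (z : K) :
    ((r.eval z : K) : W) = q.eval (z : W) := by
  rw [← hr, Polynomial.eval_map]
  have := Polynomial.hom_eval₂ r (RingHom.id K) (algebraMap K W) z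
  simpa using this

theorem key_place_core {p : ℕ} [Fact p.Prime] {k F W : Type} [Field k] [IsAlgClosed k] [CharP k p]
    [NontriviallyNormedField F] [IsUltrametricDist F] [CompleteSpace F] [Algebra k F] (t : F)
    (hF : LF p k F t) [NontriviallyNormedField W] [IsUltrametricDist W] [NormedAlgebra F W]
    [IsAlgClosed W] [Algebra.IsAlgebraic F W] [Algebra (RatFunc k) W]
    [Algebra k[X] W] [IsScalarTower k[X] (RatFunc k) W]
    (hX : algebraMap (RatFunc k) W RatFunc.X = algebraMap F W t)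
    (hC : ∀ c, algebraMap (RatFunc k) W (RatFunc.C c) = algebraMap F W (algebraMap k F c))
    {A : Type*} [CommRing A] [IsDomain A] (ι : A →+* W) (hι : Function.Injective ι)
    (hint : ∀ a, IsIntegral k[X] (ι a)) (hsep : ∀ a, IsSeparable (RatFunc k) (ι a))
    (g : A[X]) (hg : g.Monic)
    (d : ℕ) (hgd : g.natDegree = d) (hd2 : 2 ≤ d) (hpd : ∀ a : ℕ, d ≠ p ^ a)
    (y : ℕ → A) (hy : ∀ n, y (n + 1) = g.eval (y n)) (hyi : (Set.range y).Infinite)
    (q : A[X]) (hq : q ≠ 0) (b : W) (hb : (q.map ι).eval b = 0) (c : ℝ) (hc : 0 < c)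
    (hinf : {n | ‖ι (y n) - b‖ ≤ Real.exp (-c * (d : ℝ) ^ n)}.Infinite)
    (hα : ∀ M : ℝ, ∃ α : W, IsAlgebraic (RatFunc k) α ∧
      {n | ‖ι (y n) - α‖ ≤ Real.exp (-M * (d : ℝ) ^ n)}.Infinite) : False := by
  classical
  obtain ⟨s, hs⟩ : ∃ s : Set W, s = ({ι (y 0)} : Set W) ∪ (fun n => (g.map ι).coeff n) '' (Set.Iic d) ∪
      (fun n => (q.map ι).coeff n) '' (Set.Iic q.natDegree) := ⟨_, rfl⟩
  have hsfin : s.Finite := by
    rw [hs]
    exact ((Set.finite_singleton _).union ((Set.finite_Iic _).image _)).union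
      ((Set.finite_Iic _).image _)
  have hsι : ∀ w ∈ s, ∃ a : A, w = ι a := by
    intro w hw
    rw [hs] at hw
    rcases hw with (hw | ⟨n, _, hw⟩) | ⟨n, _, hw⟩
    · exact ⟨y 0, hw⟩
    · exact ⟨g.coeff n, by rw [← hw]; simp⟩
    · exact ⟨q.coeff n, by rw [← hw]; simp⟩
  have : Finite s := hsfin
  obtain ⟨K, hK⟩ : ∃ K : IntermediateField (RatFunc k) W, K = IntermediateField.adjoin (RatFunc k) s :=
    ⟨_, rfl⟩
  have hKfin : FiniteDimensional (RatFunc k) K := by
    rw [hK]
    apply IntermediateField.finiteDimensional_adjoin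
    intro w hw
    obtain ⟨a, rfl⟩ := hsι w hw
    exact (hsep a).isIntegral
  have hKsep : Algebra.IsSeparable (RatFunc k) K := by
    rw [hK, IntermediateField.isSeparable_adjoin_iff_isSeparable]
    intro w hw
    obtain ⟨a, rfl⟩ := hsι w hw
    exact hsep a
  have hsK : ∀ w ∈ s, w ∈ K := fun w hw => by
    rw [hK]; exact IntermediateField.subset_adjoin _ _ hw
  have hgK : ∀ n, (g.map ι).coeff n ∈ K := by
    intro n
    rcases le_or_gt n d with hn | hn
    · apply hsK
      rw [hs]
      exact Or.inl (Or.inr ⟨n, hn, rfl⟩)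
    · rw [Polynomial.coeff_map, Polynomial.coeff_eq_zero_of_natDegree_lt (by omega), map_zero]
      exact K.zero_mem
  have hqK : ∀ n, (q.map ι).coeff n ∈ K := by
    intro n
    rcases le_or_gt n q.natDegree with hn | hn
    · apply hsK
      rw [hs]
      exact Or.inr ⟨n, hn, rfl⟩
    · rw [Polynomial.coeff_map, Polynomial.coeff_eq_zero_of_natDegree_lt (by omega), map_zero]
      exact K.zero_mem
  have hgW : (g.map ι).Monic := hg.map ι
  have hgWd : (g.map ι).natDegree = d := by rw [hg.natDegree_map ι, hgd]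
  obtain ⟨gK, hgK1, hgK2, hgK3⟩ := key_place_lift_monic K (g.map ι) hgW hgK
  obtain ⟨qK, hqK1⟩ := key_place_lift K (q.map ι) hqK
  have hyW : ∀ n, ι (y (n + 1)) = (g.map ι).eval (ι (y n)) := by
    intro n
    rw [hy, Polynomial.eval_map, Polynomial.eval₂_at_apply]
  have hyK : ∀ n, ι (y n) ∈ K := by
    intro n
    induction n with
    | zero => exact hsK _ (by rw [hs]; exact Or.inl (Or.inl rfl))
    | succ n ih =>
      rw [hyW]
      have := key_place_coe K gK (g.map ι) hgK1 ⟨ι (y n), ih⟩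
      rw [← this]
      exact (gK.eval ⟨ι (y n), ih⟩).2
  obtain ⟨yK, hyKdef⟩ : ∃ yK : ℕ → K, ∀ n, (yK n : W) = ι (y n) :=
    ⟨fun n => ⟨ι (y n), hyK n⟩, fun n => rfl⟩
  have hyKrec : ∀ n, yK (n + 1) = gK.eval (yK n) := by
    intro n
    apply Subtype.ext
    rw [key_place_coe K gK (g.map ι) hgK1, hyKdef, hyKdef, hyW]
  obtain ⟨A', hA', hgrow⟩ := growth (k := k) K gK hgK3 d (by rw [hgK2, hgWd]) hd2 yK hyKrec
  have hyKi : (Set.range yK).Infinite := by
    intro hfin
    apply hyi
    have h1 : Set.range y ⊆ (fun a => ι a) ⁻¹' ((fun z : K => (z : W)) '' Set.range yK) := by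
      rintro _ ⟨n, rfl⟩
      exact ⟨yK n, ⟨n, rfl⟩, hyKdef n⟩
    exact ((hfin.image _).preimage (hι.injOn)).subset h1
  have hqK0 : qK ≠ 0 := by
    intro h0
    rw [h0, Polynomial.map_zero] at hqK1
    exact hq ((Polynomial.map_eq_zero_iff hι).mp hqK1.symm)
  have hqe : ∀ n, ((qK.eval (yK n) : K) : W) = (q.map ι).eval (ι (y n)) := by
    intro n
    rw [key_place_coe K qK (q.map ι) hqK1, hyKdef]
  have hesc := exists_escape (k := k) (W := W) (key_place_norm t hF hX hC) K gK hgK3 d
    (by rw [hgK2, hgWd]) hd2 yK hyKrec hyKi qK hqK0 (by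
      intro n
      rw [hqe, Polynomial.eval_map, Polynomial.eval₂_at_apply]
      exact hint _) (by
      intro ε hε
      have hcont : Continuous fun w : W => (q.map ι).eval w := Polynomial.continuous _
      have h1 := Metric.continuous_iff.mp hcont b ε hε
      obtain ⟨δ, hδ, h2⟩ := h1
      apply (key_place_small d hd2 (fun n => ι (y n)) b c hc hinf δ hδ).mono
      intro n hn
      have h3 := h2 (ι (y n)) (by rw [dist_eq_norm]; exact hn)
      rw [hb, dist_eq_norm, sub_zero] at h3
      change ‖((qK.eval (yK n) : K) : W)‖ < ε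
      rw [hqe]
      exact h3)
  obtain ⟨α, hα1, hα2⟩ := hα (Module.finrank (RatFunc k) K * A' + 1)
  refine approx_false t hF hX hC K d hd2 hpd yK ?_ A' (Module.finrank (RatFunc k) K * A' + 1) hA'
    (by linarith) hgrow hesc α hα1 ?_
  · intro n
    rw [hyKdef]; exact hint _
  · simpa only [hyKdef] using hα2

/-- passage to the algebraic closure of the base field -/
theorem key_place_amplify {p : ℕ} [Fact p.Prime] {K0 W : Type} [Field K0] [NormedField W]
    [IsAlgClosed W] [CharP W p] [Algebra K0 W]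
    (g : W[X]) (hg : g.Monic) (d : ℕ) (hd : g.natDegree = d) (hd2 : 2 ≤ d) (hpd : ∀ a : ℕ, d ≠ p ^ a)
    (y : ℕ → W) (hy : ∀ n, y (n + 1) = g.eval (y n)) (b : W) (c : ℝ) (hc : 0 < c)
    (hinf : {n | ‖y n - b‖ ≤ Real.exp (-c * (d : ℝ) ^ n)}.Infinite)
    (hgA : ∀ n, IsAlgebraic K0 (g.coeff n)) (hyA : ∀ n, IsAlgebraic K0 (y n))
    (hbA : IsAlgebraic K0 b) :
    g = (X - C b) ^ d + C b ∨
      ∀ M : ℝ, ∃ α : W, IsAlgebraic K0 α ∧
        {n | ‖y n - α‖ ≤ Real.exp (-M * (d : ℝ) ^ n)}.Infinite := by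
  have hclo : IsAlgClosed (algebraicClosure K0 W) :=
    (algebraicClosure.isAlgClosure K0 W).isAlgClosed
  have hch : CharP (algebraicClosure K0 W) p :=
    (RingHom.charP_iff (algebraMap (algebraicClosure K0 W) W)
      (algebraMap (algebraicClosure K0 W) W).injective p).mpr inferInstance
  obtain ⟨gK, hgK1, hgK2, hgK3⟩ := key_place_lift_monic (algebraicClosure K0 W) g hg
    (fun n => mem_algebraicClosure_iff.mpr (hgA n))
  obtain ⟨yK, hyK⟩ : ∃ yK : ℕ → algebraicClosure K0 W, ∀ n, (yK n : W) = y n :=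
    ⟨fun n => ⟨y n, mem_algebraicClosure_iff.mpr (hyA n)⟩, fun n => rfl⟩
  obtain ⟨bK, hbK⟩ : ∃ bK : algebraicClosure K0 W, (bK : W) = b :=
    ⟨⟨b, mem_algebraicClosure_iff.mpr hbA⟩, rfl⟩
  have hn : ∀ z : algebraicClosure K0 W, ‖z‖ = ‖(z : W)‖ := fun z => rfl
  have h1 := amplify (p := p) (W := algebraicClosure K0 W) gK hgK3 d (by rw [hgK2, hd]) hd2 hpd yK
    (by
      intro n
      apply Subtype.ext
      rw [key_place_coe _ gK g hgK1, hyK, hyK, hy]) bK c hc (by
      have : {n | ‖yK n - bK‖ ≤ Real.exp (-c * (d : ℝ) ^ n)} =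
          {n | ‖y n - b‖ ≤ Real.exp (-c * (d : ℝ) ^ n)} := by
        ext n
        simp only [Set.mem_setOf_eq, hn, AddSubgroupClass.coe_sub, hyK, hbK]
      rw [this]
      exact hinf)
  rcases h1 with h1 | h1
  · left
    rw [← hgK1, h1]
    have h2 : algebraMap (algebraicClosure K0 W) W bK = b := hbK
    simp [h2]
  · right
    intro M
    obtain ⟨α, hα⟩ := h1 M
    refine ⟨α, mem_algebraicClosure_iff.mp α.2, ?_⟩
    have : {n | ‖yK n - α‖ ≤ Real.exp (-M * (d : ℝ) ^ n)} =
          {n | ‖y n - α‖ ≤ Real.exp (-M * (d : ℝ) ^ n)} := by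
        ext n
        simp only [Set.mem_setOf_eq, hn, AddSubgroupClass.coe_sub, hyK]
    rw [← this]
    exact hα

/-- a root of a nonzero polynomial with algebraic coefficients is algebraic -/
theorem key_place_root {K0 W : Type} [Field K0] [Field W] [Algebra K0 W] (q : W[X]) (hq : q ≠ 0)
    (hqA : ∀ n, IsAlgebraic K0 (q.coeff n)) (b : W) (hb : q.eval b = 0) : IsAlgebraic K0 b := by
  obtain ⟨r, hr⟩ := key_place_lift (algebraicClosure K0 W) q
    (fun n => mem_algebraicClosure_iff.mpr (hqA n))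
  have h1 : IsAlgebraic (algebraicClosure K0 W) b := by
    refine ⟨r, ?_, ?_⟩
    · rintro rfl
      rw [Polynomial.map_zero] at hr
      exact hq hr.symm
    · rw [← hr, Polynomial.eval_map_algebraMap] at hb
      exact hb
  exact h1.restrictScalars K0

theorem key_place {p : ℕ} [Fact p.Prime] {k F W : Type} [Field k] [IsAlgClosed k] [CharP k p]
    [NontriviallyNormedField F] [IsUltrametricDist F] [CompleteSpace F] [Algebra k F] (t : F)
    (hF : LF p k F t) [NontriviallyNormedField W] [IsUltrametricDist W] [NormedAlgebra F W]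
    [IsAlgClosed W] [Algebra.IsAlgebraic F W] [Algebra (RatFunc k) W]
    [Algebra k[X] W] [IsScalarTower k[X] (RatFunc k) W]
    (hX : algebraMap (RatFunc k) W RatFunc.X = algebraMap F W t)
    (hC : ∀ c, algebraMap (RatFunc k) W (RatFunc.C c) = algebraMap F W (algebraMap k F c))
    {A : Type*} [CommRing A] [IsDomain A] (ι : A →+* W) (hι : Function.Injective ι)
    (hint : ∀ a, IsIntegral k[X] (ι a)) (hsep : ∀ a, IsSeparable (RatFunc k) (ι a))
    (f g : A[X]) (hf : f.Monic) (hg : g.Monic)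
    (d : ℕ) (hfd : f.natDegree = d) (hgd : g.natDegree = d) (hd2 : 2 ≤ d) (hpd : ∀ a : ℕ, d ≠ p ^ a)
    (x y : ℕ → A) (hx : ∀ n, x (n + 1) = f.eval (x n)) (hy : ∀ n, y (n + 1) = g.eval (y n))
    (hxu : ∀ B : ℝ, ∃ n, B < ‖ι (x n)‖) (hyi : (Set.range y).Infinite)
    (h : A[X][Y]) (hh : h ≠ 0) (hinf : {n | evalEval (y n) (x n) h = 0}.Infinite) :
    ∃ k, 0 < k ∧ {n | evalEval (y n) (x n) h = 0 ∧
      evalEval (y (n + k)) (x (n + k)) h = 0}.Infinite := by
  classical
  obtain ⟨hW, hWdef⟩ : ∃ hW : W[X][Y], hW = h.map (mapRingHom ι) := ⟨_, rfl⟩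
  have hev : ∀ m n : ℕ, evalEval (ι (y m)) (ι (x n)) hW = ι (evalEval (y m) (x n) h) := by
    intro m n
    rw [hWdef, map_mapRingHom_evalEval]
  have hev0 : ∀ m n : ℕ, evalEval (ι (y m)) (ι (x n)) hW = 0 ↔ evalEval (y m) (x n) h = 0 := by
    intro m n
    rw [hev, map_eq_zero_iff ι hι]
  have hmi : Function.Injective (mapRingHom ι : A[X] →+* W[X]) := by
    intro a b hab
    exact Polynomial.map_injective ι hι hab
  have hW0 : hW ≠ 0 := by
    rw [hWdef]
    intro h0
    exact hh ((Polynomial.map_eq_zero_iff hmi).mp h0)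
  have hlead : hW.leadingCoeff = (h.leadingCoeff).map ι := by
    rw [hWdef, Polynomial.leadingCoeff_map_of_injective hmi]
    rfl
  have hlead0 : h.leadingCoeff ≠ 0 := Polynomial.leadingCoeff_ne_zero.mpr hh
  have hfW : (f.map ι).Monic := hf.map ι
  have hfWd : (f.map ι).natDegree = d := by rw [hf.natDegree_map ι, hfd]
  have hgW : (g.map ι).Monic := hg.map ι
  have hgWd : (g.map ι).natDegree = d := by rw [hg.natDegree_map ι, hgd]
  have hyW : ∀ n, ι (y (n + 1)) = (g.map ι).eval (ι (y n)) := by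
    intro n
    rw [hy, Polynomial.eval_map, Polynomial.eval₂_at_apply]
  have hxW : ∀ n, ι (x (n + 1)) = (f.map ι).eval (ι (x n)) := by
    intro n
    rw [hx, Polynomial.eval_map, Polynomial.eval₂_at_apply]
  have hinfW : {n | evalEval (ι (y n)) (ι (x n)) hW = 0}.Infinite := by
    simpa only [hev0] using hinf
  have halg : ∀ a : A, IsAlgebraic (RatFunc k) (ι a) := fun a => (hsep a).isIntegral.isAlgebraic
  by_cases hbd : ∃ B : ℝ, ∀ n, ‖ι (y n)‖ ≤ B
  · obtain ⟨b, hb, c, hc, hbc⟩ := near_root (f.map ι) hfW d hfWd hd2 (fun n => ι (x n))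
      (fun n => ι (y n)) hxW hxu hbd hW hW0 hinfW
    have hbA : IsAlgebraic (RatFunc k) b := by
      apply key_place_root hW.leadingCoeff (Polynomial.leadingCoeff_ne_zero.mpr hW0) _ b hb
      intro n
      rw [hlead, Polynomial.coeff_map]
      exact halg _
    have hch : CharP W p := key_place_charP (k := k) (F := F)
    rcases key_place_amplify (p := p) (K0 := RatFunc k) (g.map ι) hgW d hgWd hd2 hpd
      (fun n => ι (y n)) hyW b c hc hbc
      (fun n => by rw [Polynomial.coeff_map]; exact halg _) (fun n => halg _) hbA with h1 | h1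
    · have hyi' : (Set.range fun n => ι (y n)).Infinite := by
        intro hfin
        apply hyi
        have h2 : Set.range y ⊆ (fun a => ι a) ⁻¹' (Set.range fun n => ι (y n)) := by
          rintro _ ⟨n, rfl⟩
          exact ⟨n, rfl⟩
        exact (hfin.preimage hι.injOn).subset h2
      obtain ⟨m, hm, h3⟩ := exceptional_case t hF (f.map ι) hfW d hfWd hd2 hpd b
        (fun n => ι (x n)) (fun n => ι (y n)) hxW (by
          intro n
          change ι (y (n + 1)) = (ι (y n) - b) ^ d + b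
          rw [hyW, h1]
          simp) hxu hyi' (by
          intro ε hε
          obtain ⟨n, hn⟩ := (key_place_small d hd2 (fun n => ι (y n)) b c hc hbc ε hε).nonempty
          exact ⟨n, hn⟩) hW hW0 hinfW
      exact ⟨m, hm, by simpa only [hev0] using h3⟩
    · exfalso
      refine key_place_core t hF hX hC ι hι hint hsep g hg d hgd hd2 hpd y hy hyi h.leadingCoeff
        hlead0 b ?_ c hc hbc h1
      rw [← hlead]
      exact hb
  · push Not at hbd
    obtain ⟨m, hm, h3⟩ := escape_pair_closure_all t hF (g.map ι) (f.map ι) hgW hfW d hgWd hfWd hd2 hpd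
      (fun n => ι (y n)) (fun n => ι (x n)) hyW hxW hbd hxu hW hW0 hinfW
    exact ⟨m, hm, by simpa only [hev0] using h3⟩

end Pool.Agent.Helper581_DML
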