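import Mathlib
import Pool.Agent.Helper581_DML.Defs
import Pool.Agent.Helper581_DML.A1
import Pool.Agent.Helper581_DML.A3
import Pool.Agent.Helper581_DML.P5

/-!
Part P6 of the proof (helper581, MP_6ac234_nt): `key`, from `exists_LF`, `exists_embedding` and `key_place` (proved in the imported files).

PLAIN PROOF. Let `A` be the subalgebra over `ZMod p` of `K0` (`ZMod.algebra K0 p`) generated by the coefficients of `f`, `g`, `h` and by
 `x 0`, `y 0`: a finitely generated domain; `f, g, h` and all `x n`, `y n` come from `A`. The sequence `x` has infinite range in `A`.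
 `exists_embedding` gives `k`; `exists_LF p k` gives `F`, `t`; let `W = AlgebraicClosure F` with the spectral norm
 (`spectralNorm.nontriviallyNormedField F W` or `spectralNorm.normedField`, `spectralNorm.normedAlgebra`, ultrametric because
 `isNonarchimedean_spectralNorm`), algebraically closed and algebraic over `F`. Algebra structures: `aeval t : k[X] → F` is injective
 (`LF.norm_poly`), so it extends to `RatFunc k →+* F` (`RatFunc.liftRingHom`/`IsFractionRing.lift`), composed with `F → W` it gives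
 `Algebra (RatFunc k) W`, and `Algebra k[X] W` by composing with `k[X] → RatFunc k`; then the scalar tower holds, and
 `RatFunc.X ↦ t`, `RatFunc.C c ↦ c`. Get `ι : A →+* W` and apply `key_place`, then translate back from `A` to `K0`.
-/

set_option autoImplicit false

namespace Pool.Agent.Helper581_DML

open Polynomial Filter
open scoped Polynomial.Bivariate


theorem p6_exists_W (F : Type) [NontriviallyNormedField F] [IsUltrametricDist F]
    [CompleteSpace F] : ∃ (W : Type) (_ : NontriviallyNormedField W) (_ : IsUltrametricDist W)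
      (_ : NormedAlgebra F W), IsAlgClosed W ∧ Algebra.IsAlgebraic F W := by
  letI : NontriviallyNormedField (AlgebraicClosure F) :=
    spectralNorm.nontriviallyNormedField F (AlgebraicClosure F)
  have hu : IsUltrametricDist (AlgebraicClosure F) :=
    IsUltrametricDist.isUltrametricDist_of_isNonarchimedean_norm
      (isNonarchimedean_spectralNorm (K := F) (L := AlgebraicClosure F))
  exact ⟨AlgebraicClosure F, inferInstance, hu,
    spectralNorm.normedAlgebra F (AlgebraicClosure F), inferInstanceAs (IsAlgClosed (AlgebraicClosure F)),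
    AlgebraicClosure.isAlgebraic F⟩

theorem p6_alg {p : ℕ} {k F W : Type} [Field k] [NontriviallyNormedField F] [Algebra k F] (t : F)
    (hF : LF p k F t) [NontriviallyNormedField W] [NormedAlgebra F W] :
    ∃ (_ : Algebra (RatFunc k) W) (_ : Algebra k[X] W), IsScalarTower k[X] (RatFunc k) W ∧
      algebraMap (RatFunc k) W RatFunc.X = algebraMap F W t ∧
      ∀ c, algebraMap (RatFunc k) W (RatFunc.C c) = algebraMap F W (algebraMap k F c) := by
  let φ : k[X] →+* W := (algebraMap F W).comp (aeval t : k[X] →ₐ[k] F).toRingHom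
  have hφ : Function.Injective φ := by
    rw [injective_iff_map_eq_zero]
    intro q hq
    by_contra hne
    have h1 : aeval t q = 0 := by
      have : algebraMap F W (aeval t q) = 0 := hq
      exact (map_eq_zero _).mp this
    have h2 := hF.norm_poly q hne
    rw [h1, norm_zero] at h2
    have h3 : 0 < ‖t‖ ^ q.natDegree := pow_pos (lt_trans one_pos hF.one_lt) _
    exact absurd h2 h3.ne
  let ψ : RatFunc k →+* W := IsFractionRing.lift (A := k[X]) (K := RatFunc k) hφ
  have hψ : ∀ q : k[X], ψ (algebraMap k[X] (RatFunc k) q) = φ q := fun q =>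
    IsFractionRing.lift_algebraMap hφ q
  letI a1 : Algebra (RatFunc k) W := ψ.toAlgebra
  letI a2 : Algebra k[X] W := φ.toAlgebra
  refine ⟨a1, a2, IsScalarTower.of_algebraMap_eq (fun q => (hψ q).symm), ?_, fun c => ?_⟩
  · show ψ RatFunc.X = _
    rw [← RatFunc.algebraMap_X, hψ]
    show algebraMap F W (aeval t X) = _
    rw [aeval_X]
  · show ψ (RatFunc.C c) = _
    rw [← RatFunc.algebraMap_C, hψ]
    show algebraMap F W (aeval t (C c)) = _
    rw [aeval_C]

/-- the case of a finitely generated domain -/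
theorem p6_fg {p : ℕ} [Fact p.Prime] {A : Type*} [CommRing A] [IsDomain A]
    [Algebra (ZMod p) A] [Algebra.FiniteType (ZMod p) A]
    (f g : A[X]) (hf : f.Monic) (hg : g.Monic)
    (d : ℕ) (hfd : f.natDegree = d) (hgd : g.natDegree = d) (hd2 : 2 ≤ d) (hpd : ∀ a : ℕ, d ≠ p ^ a)
    (x y : ℕ → A) (hx : ∀ n, x (n + 1) = f.eval (x n)) (hy : ∀ n, y (n + 1) = g.eval (y n))
    (hxi : (Set.range x).Infinite) (hyi : (Set.range y).Infinite)
    (h : A[X][Y]) (hh : h ≠ 0) (hinf : {n | evalEval (y n) (x n) h = 0}.Infinite) :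
    ∃ k, 0 < k ∧ {n | evalEval (y n) (x n) h = 0 ∧
      evalEval (y (n + k)) (x (n + k)) h = 0}.Infinite := by
  obtain ⟨k, i1, i2, i3, H⟩ := exists_embedding (p := p) x hxi
  obtain ⟨F, j1, j2, j3, j4, t, hF⟩ := exists_LF p k
  obtain ⟨W, w1, w2, w3, w4, w5⟩ := p6_exists_W F
  obtain ⟨a1, a2, a3, hX, hC⟩ := p6_alg (W := W) t hF
  obtain ⟨ι, c1, c2, c3, c4⟩ := H F W t hF hX hC
  exact key_place t hF hX hC ι c1 c2 c3 f g hf hg d hfd hgd hd2 hpd x y hx hy c4 hyi h hh hinf

theorem key {p : ℕ} [Fact p.Prime] {K0 : Type*} [Field K0] [CharP K0 p]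
    (f g : K0[X]) (hf : f.Monic) (hg : g.Monic)
    (d : ℕ) (hfd : f.natDegree = d) (hgd : g.natDegree = d) (hd2 : 2 ≤ d) (hpd : ∀ a : ℕ, d ≠ p ^ a)
    (x y : ℕ → K0) (hx : ∀ n, x (n + 1) = f.eval (x n)) (hy : ∀ n, y (n + 1) = g.eval (y n))
    (hxi : (Set.range x).Infinite) (hyi : (Set.range y).Infinite)
    (h : K0[X][Y]) (hh : h ≠ 0) (hinf : {n | evalEval (y n) (x n) h = 0}.Infinite) :
    ∃ k, 0 < k ∧ {n | evalEval (y n) (x n) h = 0 ∧
      evalEval (y (n + k)) (x (n + k)) h = 0}.Infinite := by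
  classical
  letI : Algebra (ZMod p) K0 := ZMod.algebra K0 p
  let S : Finset K0 := f.support.image f.coeff ∪ g.support.image g.coeff ∪
    (h.support.biUnion fun i => (h.coeff i).support.image (h.coeff i).coeff) ∪ {x 0, y 0}
  let A := Algebra.adjoin (ZMod p) (S : Set K0)
  have hSA : ∀ s ∈ S, s ∈ A := fun s hs => Algebra.subset_adjoin (Finset.mem_coe.mpr hs)
  haveI : Algebra.FiniteType (ZMod p) A :=
    (Subalgebra.fg_iff_finiteType _).mp (Subalgebra.fg_adjoin_finset S)
  let φ : A →+* K0 := algebraMap A K0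
  have hφ : Function.Injective φ := Subtype.val_injective
  have hrange : ∀ s ∈ A, s ∈ Set.range φ := fun s hs => ⟨⟨s, hs⟩, rfl⟩
  have hfc : ∀ n, f.coeff n ∈ A := by
    intro n
    by_cases hn : f.coeff n = 0
    · rw [hn]; exact zero_mem _
    · refine hSA _ ?_
      simp only [S, Finset.mem_union, Finset.mem_image]
      exact Or.inl (Or.inl (Or.inl ⟨n, mem_support_iff.mpr hn, rfl⟩))
  have hgc : ∀ n, g.coeff n ∈ A := by
    intro n
    by_cases hn : g.coeff n = 0
    · rw [hn]; exact zero_mem _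
    · refine hSA _ ?_
      simp only [S, Finset.mem_union, Finset.mem_image]
      exact Or.inl (Or.inl (Or.inr ⟨n, mem_support_iff.mpr hn, rfl⟩))
  have hhc : ∀ m n, (h.coeff m).coeff n ∈ A := by
    intro m n
    by_cases hn : (h.coeff m).coeff n = 0
    · rw [hn]; exact zero_mem _
    · refine hSA _ ?_
      simp only [S, Finset.mem_union, Finset.mem_image, Finset.mem_biUnion]
      refine Or.inl (Or.inr ⟨m, mem_support_iff.mpr ?_, n, mem_support_iff.mpr hn, rfl⟩)
      intro h0
      exact hn (by rw [h0, coeff_zero])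
  have hx0 : x 0 ∈ A := hSA _ (by simp [S])
  have hy0 : y 0 ∈ A := hSA _ (by simp [S])
  obtain ⟨f', hf1, hf2, hf3⟩ := lifts_and_natDegree_eq_and_monic
    ((lifts_iff_coeff_lifts (f := φ) f).mpr fun n => hrange _ (hfc n)) hf
  obtain ⟨g', hg1, hg2, hg3⟩ := lifts_and_natDegree_eq_and_monic
    ((lifts_iff_coeff_lifts (f := φ) g).mpr fun n => hrange _ (hgc n)) hg
  obtain ⟨h', hh1⟩ := (mem_lifts (f := mapRingHom φ) h).mp
    ((lifts_iff_coeff_lifts (f := mapRingHom φ) h).mpr fun m => by
      obtain ⟨q, hq⟩ := (mem_lifts (f := φ) (h.coeff m)).mp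
        ((lifts_iff_coeff_lifts (f := φ) (h.coeff m)).mpr fun n => hrange _ (hhc m n))
      exact ⟨q, hq⟩)
  let x' : ℕ → A := fun n => Nat.rec ⟨x 0, hx0⟩ (fun _ a => f'.eval a) n
  let y' : ℕ → A := fun n => Nat.rec ⟨y 0, hy0⟩ (fun _ a => g'.eval a) n
  have hx' : ∀ n, x' (n + 1) = f'.eval (x' n) := fun n => rfl
  have hy' : ∀ n, y' (n + 1) = g'.eval (y' n) := fun n => rfl
  have hxx : ∀ n, φ (x' n) = x n := by
    intro n
    induction n with
    | zero => rfl
    | succ n ih => rw [hx', hx, ← ih, ← hf1, eval_map_apply]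
  have hyy : ∀ n, φ (y' n) = y n := by
    intro n
    induction n with
    | zero => rfl
    | succ n ih => rw [hy', hy, ← ih, ← hg1, eval_map_apply]
  have hev : ∀ n m, evalEval (y n) (x m) h = φ (evalEval (y' n) (x' m) h') := by
    intro n m
    rw [← hyy, ← hxx, ← hh1, map_mapRingHom_evalEval]
  have hev0 : ∀ n m, evalEval (y n) (x m) h = 0 ↔ evalEval (y' n) (x' m) h' = 0 := by
    intro n m
    rw [hev, map_eq_zero_iff φ hφ]
  have hxi' : (Set.range x').Infinite := by
    intro hfin
    refine hxi ((hfin.image φ).subset ?_)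
    rintro _ ⟨n, rfl⟩
    exact ⟨x' n, ⟨n, rfl⟩, hxx n⟩
  have hyi' : (Set.range y').Infinite := by
    intro hfin
    refine hyi ((hfin.image φ).subset ?_)
    rintro _ ⟨n, rfl⟩
    exact ⟨y' n, ⟨n, rfl⟩, hyy n⟩
  have hh' : h' ≠ 0 := by
    rintro rfl
    exact hh (by rw [← hh1, Polynomial.map_zero])
  simp only [hev0] at hinf ⊢
  exact p6_fg f' g' hf3 hg3 d (hf2.trans hfd) (hg2.trans hgd) hd2 hpd x' y' hx' hy' hxi' hyi' h' hh'
    hinf

end Pool.Agent.Helper581_DML
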