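import Mathlib
import Pool.Agent.Helper581_DML.Defs
import Pool.Agent.Helper581_DML.P6

/-!
Part F1 of the proof (helper581, MP_6ac234_nt): `EvPer.union`, `EvPer.shape`, `evPer_irreducible`: eventually periodic return sets for irreducible `h`;
`key` is given. -/

set_option autoImplicit false

namespace Pool.Agent.Helper581_DML

open Polynomial
open scoped Polynomial.Bivariate


theorem evPer_iter {S : Set ℕ} {N r : ℕ} (h : ∀ n ≥ N, (n ∈ S ↔ n + r ∈ S)) (k : ℕ) :
    ∀ n ≥ N, (n ∈ S ↔ n + r * k ∈ S) := by
  induction k with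
  | zero => intro n _; simp
  | succ k ih =>
    intro n hn
    rw [ih n hn, h (n + r * k) (le_trans hn (Nat.le_add_right _ _))]
    have : n + r * k + r = n + r * (k + 1) := by ring
    rw [this]

theorem EvPer.union {S T : Set ℕ} (hS : EvPer S) (hT : EvPer T) : EvPer (S ∪ T) := by
  obtain ⟨N1, r1, h1, hS⟩ := hS
  obtain ⟨N2, r2, h2, hT⟩ := hT
  refine ⟨max N1 N2, r1 * r2, Nat.mul_pos h1 h2, ?_⟩
  intro n hn
  have e1 := evPer_iter hS r2 n (le_trans (le_max_left _ _) hn)
  have e2 := evPer_iter hT r1 n (le_trans (le_max_right _ _) hn)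
  rw [Nat.mul_comm r2 r1] at e2
  rw [Set.mem_union, Set.mem_union, e1, e2]

theorem EvPer.shape {S : Set ℕ} (hS : EvPer S) :
    ∃ (A : Finset (ℕ × ℕ)) (B : Finset ℕ), (∀ q ∈ A, 0 < q.1) ∧
      S = {n : ℕ | (∃ q ∈ A, ∃ k : ℕ, n = q.1 * k + q.2) ∨ n ∈ B} := by
  classical
  obtain ⟨N, r, hr, h⟩ := hS
  refine ⟨((Finset.Ico N (N + r)).filter (fun n => n ∈ S)).image (fun n => (r, n)),
    (Finset.range N).filter (fun n => n ∈ S), ?_, ?_⟩
  · intro q hq
    rw [Finset.mem_image] at hq
    obtain ⟨n, _, rfl⟩ := hq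
    exact hr
  · ext n
    show n ∈ S ↔ _
    constructor
    · intro hn
      rcases Nat.lt_or_ge n N with hlt | hge
      · right
        rw [Finset.mem_filter, Finset.mem_range]
        exact ⟨hlt, hn⟩
      · left
        refine ⟨(r, N + (n - N) % r), ?_, (n - N) / r, ?_⟩
        · rw [Finset.mem_image]
          refine ⟨N + (n - N) % r, ?_, rfl⟩
          rw [Finset.mem_filter, Finset.mem_Ico]
          have hmod := Nat.mod_lt (n - N) hr
          refine ⟨⟨by omega, by omega⟩, ?_⟩
          rw [evPer_iter h ((n - N) / r) _ (by omega)]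
          have := Nat.mod_add_div (n - N) r
          have h2 : N + (n - N) % r + r * ((n - N) / r) = n := by omega
          rw [h2]; exact hn
        · have := Nat.mod_add_div (n - N) r
          show n = r * ((n - N) / r) + (N + (n - N) % r)
          omega
    · rintro (⟨q, hq, k, hk⟩ | hn)
      · rw [Finset.mem_image] at hq
        obtain ⟨m, hm, rfl⟩ := hq
        rw [Finset.mem_filter, Finset.mem_Ico] at hm
        have e := (evPer_iter h k m hm.1.1).1 hm.2
        rw [hk]
        show r * k + m ∈ S
        rw [Nat.add_comm]; exact e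
      · rw [Finset.mem_filter] at hn
        exact hn.2

/-- an orbit with infinite range is injective -/
theorem orbit_injective {K0 : Type*} [Field K0] (f : K0[X]) (x : ℕ → K0)
    (hx : ∀ n, x (n + 1) = f.eval (x n)) (hxi : (Set.range x).Infinite) :
    Function.Injective x := by
  by_contra hinj
  have : ∃ n m, n < m ∧ x n = x m := by
    by_contra hno
    apply hinj
    intro a b hab
    rcases lt_trichotomy a b with hlt | heq | hgt
    · exact absurd ⟨a, b, hlt, hab⟩ hno
    · exact heq
    · exact absurd ⟨b, a, hgt, hab.symm⟩ hno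
  obtain ⟨n, m, hnm, he⟩ := this
  have hshift : ∀ i, x (n + i) = x (m + i) := by
    intro i
    induction i with
    | zero => exact he
    | succ i ih => rw [← Nat.add_assoc, ← Nat.add_assoc, hx, hx, ih]
  apply hxi
  apply Set.Finite.subset (Set.Finite.image x (Set.finite_Iio m))
  rintro _ ⟨i, rfl⟩
  induction i using Nat.strong_induction_on with
  | _ i ih =>
    rcases Nat.lt_or_ge i m with hlt | hge
    · exact ⟨i, hlt, rfl⟩
    · have h1 := hshift (i - m)
      have h2 : m + (i - m) = i := by omega
      rw [h2] at h1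
      rw [← h1]
      exact ih (n + (i - m)) (by omega)

theorem orbit_iterate {K0 : Type*} [Field K0] (f : K0[X]) (x : ℕ → K0)
    (hx : ∀ n, x (n + 1) = f.eval (x n)) (k n : ℕ) :
    (f.comp^[k] X).eval (x n) = x (n + k) := by
  rw [iterate_comp_eval, eval_X]
  induction k with
  | zero => rfl
  | succ k ih => rw [Function.iterate_succ_apply', ih, ← Nat.add_assoc, hx]

/-- substitution of `G` in the inner and of `F` in the outer variable -/
theorem evalEval_subst {K0 : Type*} [Field K0] (F G : K0[X]) (h : K0[X][Y]) (a b : K0) :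
    evalEval a b ((h.map (compRingHom G)).comp (F.map C)) =
      evalEval (G.eval a) (F.eval b) h := by
  have h1 : eval (C b) (F.map (C : K0 →+* K0[X])) = C (F.eval b) := by
    rw [eval_map_apply]
  have h2 : eval (C (F.eval b)) (h.map (compRingHom G)) = (eval (C (F.eval b)) h).comp G := by
    have h3 : (C (F.eval b) : K0[X]) = compRingHom G (C (F.eval b)) := by simp
    conv_lhs => rw [h3]
    rw [eval_map_apply]
    rfl
  rw [evalEval, eval_comp, h1, h2, eval_comp]

/-- elimination: an irreducible `h` of positive outer degree not dividing `q`. -/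
theorem elim {K0 : Type*} [Field K0] (h q : K0[X][Y]) (hh : Irreducible h)
    (hdeg : h.natDegree ≠ 0) (hq : ¬ h ∣ q) :
    ∃ (u v : K0[X][Y]) (r : K0[X]), r ≠ 0 ∧ u * h + v * q = C r := by
  have hprim : h.IsPrimitive := hh.isPrimitive hdeg
  have hirr : Irreducible (h.map (algebraMap K0[X] (FractionRing K0[X]))) :=
    (hprim.irreducible_iff_irreducible_map_fraction_map (K := FractionRing K0[X])).1 hh
  have hnd : ¬ h.map (algebraMap K0[X] (FractionRing K0[X])) ∣
      q.map (algebraMap K0[X] (FractionRing K0[X])) :=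
    fun hd => hq (hprim.dvd_of_fraction_map_dvd_fraction_map hd)
  have hcop : IsCoprime (h.map (algebraMap K0[X] (FractionRing K0[X])))
      (q.map (algebraMap K0[X] (FractionRing K0[X]))) :=
    (hirr.coprime_iff_not_dvd).2 hnd
  obtain ⟨a, b, hab⟩ := hcop
  obtain ⟨c, hc0, hc⟩ := IsLocalization.integerNormalization_spec (nonZeroDivisors K0[X]) a
  obtain ⟨d, hd0, hd⟩ := IsLocalization.integerNormalization_spec (nonZeroDivisors K0[X]) b
  rw [mem_nonZeroDivisors_iff_ne_zero] at hc0 hd0
  refine ⟨C d * IsLocalization.integerNormalization (nonZeroDivisors K0[X]) a,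
    C c * IsLocalization.integerNormalization (nonZeroDivisors K0[X]) b, c * d,
    mul_ne_zero hc0 hd0, ?_⟩
  apply map_injective (algebraMap K0[X] (FractionRing K0[X])) (IsFractionRing.injective _ _)
  rw [Algebra.smul_def, Polynomial.algebraMap_apply] at hc hd
  simp only [Polynomial.map_add, Polynomial.map_mul, hc, hd, map_C, map_mul]
  linear_combination (C ((algebraMap K0[X] (FractionRing K0[X])) c) *
    C ((algebraMap K0[X] (FractionRing K0[X])) d)) * hab

theorem poly_infinite_orbit {K0 : Type*} [Field K0] (r : K0[X]) (y : ℕ → K0)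
    (hy : Function.Injective y) (S : Set ℕ) (hS : S.Infinite) (h : ∀ n ∈ S, r.eval (y n) = 0) :
    r = 0 := by
  apply Polynomial.eq_zero_of_infinite_isRoot
  apply Set.Infinite.mono _ (hS.image (hy.injOn))
  rintro _ ⟨n, hn, rfl⟩
  exact h n hn

/-- closed under adding `k > 0` implies eventually periodic -/
theorem evPer_of_closed (R : Set ℕ) (k : ℕ) (hk : 0 < k) (hR : ∀ n ∈ R, n + k ∈ R) : EvPer R := by
  classical
  have hstep : ∀ j, ∀ n ∈ R, n + k * j ∈ R := by
    intro j
    induction j with
    | zero => intro n hn; simpa using hn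
    | succ j ih =>
      intro n hn
      have := hR _ (ih n hn)
      have e : n + k * j + k = n + k * (j + 1) := by ring
      rw [e] at this; exact this
  have hex : ∀ c : ℕ, ∃ m : ℕ, (∃ n ∈ R, n % k = c) → (m ∈ R ∧ m % k = c) := by
    intro c
    by_cases hc : ∃ n ∈ R, n % k = c
    · obtain ⟨n, hn, hnc⟩ := hc
      exact ⟨n, fun _ => ⟨hn, hnc⟩⟩
    · exact ⟨0, fun h => absurd h hc⟩
  choose m hm using hex
  refine ⟨(Finset.range k).sup m, k, hk, ?_⟩
  intro n hn
  refine ⟨fun h => hR n h, ?_⟩
  intro hnk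
  have hmod : (n + k) % k = n % k := Nat.add_mod_right n k
  have hc := hm (n % k) ⟨n + k, hnk, hmod⟩
  have hle : m (n % k) ≤ n :=
    le_trans (Finset.le_sup (f := m) (Finset.mem_range.2 (Nat.mod_lt n hk))) hn
  have hdvd : k ∣ n - m (n % k) := (Nat.modEq_iff_dvd' hle).1 hc.2
  obtain ⟨j, hj⟩ := hdvd
  have := hstep j _ hc.1
  have e : m (n % k) + k * j = n := by omega
  rw [e] at this
  exact this

theorem evPer_irreducible {p : ℕ} [Fact p.Prime] {K0 : Type*} [Field K0] [CharP K0 p]
    (f g : K0[X]) (hf : f.Monic) (hg : g.Monic)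
    (d : ℕ) (hfd : f.natDegree = d) (hgd : g.natDegree = d) (hd2 : 2 ≤ d) (hpd : ∀ a : ℕ, d ≠ p ^ a)
    (x y : ℕ → K0) (hx : ∀ n, x (n + 1) = f.eval (x n)) (hy : ∀ n, y (n + 1) = g.eval (y n))
    (hxi : (Set.range x).Infinite) (hyi : (Set.range y).Infinite)
    (h : K0[X][Y]) (hh : Irreducible h) : EvPer {n | evalEval (y n) (x n) h = 0} := by
  by_cases hfin : {n | evalEval (y n) (x n) h = 0}.Finite
  · obtain ⟨N, hN⟩ := hfin.bddAbove
    refine ⟨N + 1, 1, one_pos, ?_⟩
    intro n hn
    constructor
    · intro h1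
      have := hN h1
      omega
    · intro h1
      have := hN h1
      omega
  · have hinf : {n | evalEval (y n) (x n) h = 0}.Infinite := hfin
    have hyinj := orbit_injective g y hy hyi
    obtain ⟨k, hk, hkinf⟩ := key f g hf hg d hfd hgd hd2 hpd x y hx hy hxi hyi h hh.ne_zero hinf
    have hq : ∀ n, evalEval (y n) (x n)
        ((h.map (compRingHom (g.comp^[k] X))).comp ((f.comp^[k] X).map C)) =
        evalEval (y (n + k)) (x (n + k)) h := by
      intro n
      rw [evalEval_subst, orbit_iterate g y hy, orbit_iterate f x hx]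
    have hdvd : h ∣ (h.map (compRingHom (g.comp^[k] X))).comp ((f.comp^[k] X).map C) := by
      by_contra hnd
      by_cases hdeg : h.natDegree = 0
      · obtain ⟨h0, hh0⟩ := natDegree_eq_zero.1 hdeg
        have hz : h0 = 0 := by
          apply poly_infinite_orbit h0 y hyinj _ hinf
          intro n hn
          have hn' : evalEval (y n) (x n) h = 0 := hn
          rw [← hh0, evalEval_C] at hn'
          exact hn'
        apply hh.ne_zero
        rw [← hh0, hz, C_0]
      · obtain ⟨u, v, r, hr, huv⟩ := elim h _ hh hdeg hnd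
        apply hr
        apply poly_infinite_orbit r y hyinj _ hkinf
        intro n hn
        have e := congrArg (evalEval (y n) (x n)) huv
        rw [evalEval_add, evalEval_mul, evalEval_mul, hq, evalEval_C] at e
        rw [← e, hn.1, hn.2]
        simp
    apply evPer_of_closed _ k hk
    intro n hn
    have h1 : evalEval (y n) (x n) h = 0 := hn
    have h2 := evalEval_dvd (y n) (x n) hdvd
    rw [h1, hq] at h2
    exact zero_dvd_iff.1 h2

end Pool.Agent.Helper581_DML
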