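import Mathlib
import Pool.Agent.Helper581_DML.Defs
import Pool.Agent.Helper581_DML.F1

/-!
Part F2 of the proof (helper581, MP_6ac234_nt): `evPer_all`: eventual periodicity of the return set for every nonzero `h` and all orbits, from the
irreducible case with infinite orbits (`evPer_irreducible`, given). 
PLAIN PROOF. CASE A: both orbits have infinite range. `K0[X][Y]` is a unique factorization domain; induct on the factorization of `h ≠ 0`
 (`UniqueFactorizationMonoid.induction_on_prime` or `WfDvdMonoid.induction_on_irreducible`): a unit has empty return set (it is a nonzero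
 constant), and the return set of a product is the union of the return sets (`EvPer.union`).
 CASE B: `x` has finite range. Then `x n1 = x n2` for some `n1 < n2`, so `x (n + r) = x n` for all `n ≥ n1`, `r = n2 - n1 > 0`. If also `y` has finite
 range, the pair `(x n, y n)` is periodic from some index on (with the product of the periods) and the return set is eventually periodic.
 If `y` has infinite range then `y` is injective. For `a` in the finite set of values of `x` let `q_a = h(·, a) ∈ K0[X]`, i.e. evaluate the outer
 variable at `C a`: `evalEval (y n) (x n) h = q_{x n}.eval (y n)`. Those `q_a ≠ 0` have together finitely many roots, so for all large `n` with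
 `q_{x n} ≠ 0` we have `n ∉ R`; and if `q_{x n} = 0` then `n ∈ R`. So for large `n`: `n ∈ R ↔ q_{x n} = 0 ↔ q_{x (n+r)} = 0 ↔ n + r ∈ R`.
 CASE C: `y` has finite range and `x` infinite range: symmetric, with `h(b, ·) = h.map (evalRingHom b)`, a polynomial in the outer variable.
-/

set_option autoImplicit false

namespace Pool.Agent.Helper581_DML

open Polynomial
open scoped Polynomial.Bivariate


theorem evPer_all_coll {K0 : Type*} [Field K0] {f : K0[X]} {x : ℕ → K0}
    (hx : ∀ n, x (n + 1) = f.eval (x n)) {a b : ℕ} (hab : a < b) (he : x a = x b) :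
    ∀ n ≥ a, x (n + (b - a)) = x n := by
  have key : ∀ k, x (a + k) = x (b + k) := by
    intro k
    induction k with
    | zero => simpa using he
    | succ k ih => rw [← add_assoc, ← add_assoc, hx, hx, ih]
  intro n hn
  obtain ⟨k, rfl⟩ := Nat.exists_eq_add_of_le hn
  rw [key k]
  congr 1
  omega

theorem evPer_all_per {K0 : Type*} [Field K0] {f : K0[X]} {x : ℕ → K0}
    (hx : ∀ n, x (n + 1) = f.eval (x n)) (hfin : (Set.range x).Finite) :
    ∃ N r : ℕ, 0 < r ∧ ∀ n ≥ N, x (n + r) = x n := by
  have hni : ¬ Function.Injective x := fun h => Set.infinite_range_of_injective h hfin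
  rw [Function.not_injective_iff] at hni
  obtain ⟨a, b, he, hne⟩ := hni
  rcases lt_or_gt_of_ne hne with h | h
  · exact ⟨a, b - a, by omega, evPer_all_coll hx h he⟩
  · exact ⟨b, a - b, by omega, evPer_all_coll hx h he.symm⟩

theorem evPer_all_inj {K0 : Type*} [Field K0] {f : K0[X]} {x : ℕ → K0}
    (hx : ∀ n, x (n + 1) = f.eval (x n)) (hinf : (Set.range x).Infinite) :
    Function.Injective x := by
  by_contra hni
  rw [Function.not_injective_iff] at hni
  obtain ⟨a, b, he, hne⟩ := hni
  have key : ∀ a b : ℕ, a < b → x a = x b → False := by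
    intro a b hab he
    have h1 := evPer_all_coll hx hab he
    apply hinf
    have h2 : ∀ n, ∃ m < b, x n = x m := by
      intro n
      induction n using Nat.strong_induction_on with
      | _ n ih =>
        by_cases hn : n < b
        · exact ⟨n, hn, rfl⟩
        · obtain ⟨m, hm, hm'⟩ := ih (n - (b - a)) (by omega)
          refine ⟨m, hm, ?_⟩
          rw [← hm']
          have h3 := h1 (n - (b - a)) (by omega)
          rw [← h3]
          congr 1
          omega
    refine ((Set.finite_Iio b).image x).subset ?_
    rintro _ ⟨n, rfl⟩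
    obtain ⟨m, hm, hm'⟩ := h2 n
    exact ⟨m, hm, hm'.symm⟩
  rcases lt_or_gt_of_ne hne with h | h
  · exact key a b h he
  · exact key b a h he.symm

theorem evPer_all_mix {K0 : Type*} [Field K0] {z w : ℕ → K0}
    (hz : ∃ N r : ℕ, 0 < r ∧ ∀ n ≥ N, z (n + r) = z n) (hzf : (Set.range z).Finite)
    (hw : Function.Injective w) (Q : K0 → K0[X]) : EvPer {n | eval (w n) (Q (z n)) = 0} := by
  obtain ⟨N, r, hr, hN⟩ := hz
  have hbad : {n : ℕ | Q (z n) ≠ 0 ∧ eval (w n) (Q (z n)) = 0}.Finite := by
    have h1 : {n : ℕ | Q (z n) ≠ 0 ∧ eval (w n) (Q (z n)) = 0} ⊆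
        ⋃ a ∈ Set.range z, w ⁻¹' {t | Q a ≠ 0 ∧ (Q a).IsRoot t} := by
      rintro n ⟨h2, h3⟩
      simp only [Set.mem_iUnion]
      exact ⟨z n, ⟨n, rfl⟩, h2, h3⟩
    refine (hzf.biUnion fun a _ => ?_).subset h1
    refine Set.Finite.preimage hw.injOn ?_
    by_cases ha : Q a = 0
    · convert Set.finite_empty
      ext t
      simp [ha]
    · refine (Polynomial.finite_setOfPred_isRoot ha).subset fun t ht => ht.2
  obtain ⟨M, hM⟩ := hbad.bddAbove
  refine ⟨N + M + 1, r, hr, fun n hn => ?_⟩
  have h1 : ∀ m ≥ N + M + 1, (m ∈ {n | eval (w n) (Q (z n)) = 0} ↔ Q (z m) = 0) := by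
    intro m hm
    constructor
    · intro h
      by_contra hne
      have : m ≤ M := hM ⟨hne, h⟩
      omega
    · intro h
      show eval (w m) (Q (z m)) = 0
      rw [h, eval_zero]
  rw [h1 n hn, h1 (n + r) (by omega), hN n (by omega)]

theorem evPer_all_mul {K0 : Type*} [Field K0] {z : ℕ → K0} {N r : ℕ}
    (h : ∀ n ≥ N, z (n + r) = z n) (k : ℕ) : ∀ n ≥ N, z (n + r * k) = z n := by
  induction k with
  | zero => simp
  | succ k ih =>
    intro n hn
    rw [mul_add, mul_one, ← add_assoc, h (n + r * k) (by omega), ih n hn]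

theorem evPer_all {p : ℕ} [Fact p.Prime] {K0 : Type*} [Field K0] [CharP K0 p]
    (f g : K0[X]) (hf : f.Monic) (hg : g.Monic)
    (d : ℕ) (hfd : f.natDegree = d) (hgd : g.natDegree = d) (hd2 : 2 ≤ d) (hpd : ∀ a : ℕ, d ≠ p ^ a)
    (x y : ℕ → K0) (hx : ∀ n, x (n + 1) = f.eval (x n)) (hy : ∀ n, y (n + 1) = g.eval (y n))
    (h : K0[X][Y]) (hh : h ≠ 0) : EvPer {n | evalEval (y n) (x n) h = 0} := by
  by_cases hxf : (Set.range x).Finite
  · by_cases hyf : (Set.range y).Finite
    · obtain ⟨N, r, hr, hN⟩ := evPer_all_per hx hxf
      obtain ⟨M, s, hs, hM⟩ := evPer_all_per hy hyf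
      refine ⟨N + M, r * s, Nat.mul_pos hr hs, fun n hn => ?_⟩
      have h1 := evPer_all_mul hN s n (by omega)
      have h2 := evPer_all_mul hM r n (by omega)
      rw [mul_comm s r] at h2
      simp only [Set.mem_ofPred_eq, h1, h2]
    · have := evPer_all_mix (evPer_all_per hx hxf) hxf (evPer_all_inj hy hyf)
        (fun a => eval (C a) h)
      exact this
  · by_cases hyf : (Set.range y).Finite
    · have := evPer_all_mix (evPer_all_per hy hyf) hyf (evPer_all_inj hx hxf)
        (fun b => h.map (evalRingHom b))
      simp only [map_evalRingHom_eval] at this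
      exact this
    · have key : ∀ h : K0[X][Y], h ≠ 0 → EvPer {n | evalEval (y n) (x n) h = 0} := by
        intro h
        refine WfDvdMonoid.induction_on_irreducible (motive := fun h : K0[X][Y] => h ≠ 0 →
          EvPer {n | evalEval (y n) (x n) h = 0}) h (fun h => absurd rfl h) ?_ ?_
        · intro u hu _
          refine ⟨0, 1, one_pos, fun n _ => ?_⟩
          have h1 : ∀ n, evalEval (y n) (x n) u ≠ 0 := by
            intro n h0
            obtain ⟨v, hv⟩ := hu.exists_right_inv
            have h2 : evalEval (y n) (x n) (u * v) = 1 := by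
              rw [hv]
              simp [evalEval]
            rw [evalEval_mul, h0, zero_mul] at h2
            exact zero_ne_one h2
          simp only [Set.mem_ofPred_eq, h1]
        · intro a i ha hi ih _
          have h1 : {n | evalEval (y n) (x n) (i * a) = 0} =
              {n | evalEval (y n) (x n) i = 0} ∪ {n | evalEval (y n) (x n) a = 0} := by
            ext n
            simp only [Set.mem_ofPred_eq, Set.mem_union, evalEval_mul, mul_eq_zero]
          rw [h1]
          exact (evPer_irreducible f g hf hg d hfd hgd hd2 hpd x y hx hy hxf hyf i hi).union (ih ha)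
      exact key h hh

end Pool.Agent.Helper581_DML
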