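import Mathlib
import Pool.Agent.Helper581_DML.Defs
import Pool.Agent.Helper581_DML.F1
import Pool.Agent.Helper581_DML.F2

/-!
Part F3 of the proof (helper581, MP_6ac234_nt): `final`: the theorem for arbitrary fields and polynomials that need not be monic; `evPer_all` and
`EvPer.shape` are given. 
PLAIN PROOF. Let `L = AlgebraicClosure K`, `f', g'` the images, with leading coefficients `a, b ≠ 0`. Choose `u, v ∈ L` nonzero with `u^(d-1) = a`,
 `v^(d-1) = b` (`d ≥ 2`, `L` algebraically closed). Put `F = C u * f'.comp (C u⁻¹ * X)`, monic of degree `d` (leading coefficient `u a u^(-d) = 1`), and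
 `G` similarly with `v`. With `x n = u * f'^[n] γ.1`, `y n = v * g'^[n] γ.2`: `x (n+1) = F.eval (x n)`, `y (n+1) = G.eval (y n)`. Let
 `H ∈ L[X][Y]` correspond to `h(x/u, y/v)`, with inner variable `y`, outer variable `x`: e.g.
 `H = MvPolynomial.eval₂ (C.comp (C.comp (algebraMap K L))) ![C (C u⁻¹) * X, C (C v⁻¹ * X)] h` (here `![x/u, y/v]` with `x` the outer variable `X : L[X][Y]`
 and `y = C X`). Then `evalEval (y n) (x n) H = algebraMap K L (MvPolynomial.eval ![f^[n] γ.1, g^[n] γ.2] h)` and `H ≠ 0` as `h ≠ 0`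
 (`MvPolynomial (Fin 2)` embeds in `L[X][Y]`; or: if `H = 0` then `h` vanishes at all points of `L × L`, so `h = 0` since `L` is infinite,
 `MvPolynomial.funext`). So the return set is `{n | evalEval (y n) (x n) H = 0}`, eventually periodic by `evPer_all`, and `EvPer.shape` gives the form.
-/

set_option autoImplicit false

namespace Pool.Agent.Helper581_DML

open Polynomial
open scoped Polynomial.Bivariate


/-- the conjugate of a polynomial by a dilation -/
noncomputable def fin_conj {L : Type*} [Field L] (u : L) (f : L[X]) : L[X] := C u * f.comp (C u⁻¹ * X)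

theorem fin_conj_eval {L : Type*} [Field L] (u : L) (hu : u ≠ 0) (f : L[X]) (t : L) :
    (fin_conj u f).eval (u * t) = u * f.eval t := by
  simp [fin_conj, hu]

theorem fin_conj_natDegree {L : Type*} [Field L] (u : L) (hu : u ≠ 0) (f : L[X]) :
    (fin_conj u f).natDegree = f.natDegree := by
  rw [fin_conj, natDegree_C_mul hu, natDegree_comp, natDegree_C_mul (inv_ne_zero hu),
    natDegree_X, mul_one]

theorem fin_conj_monic {L : Type*} [Field L] (u : L) (hu : u ≠ 0) (f : L[X]) (hf : f ≠ 0)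
    (hd : 1 ≤ f.natDegree) (h : u ^ (f.natDegree - 1) = f.leadingCoeff) : (fin_conj u f).Monic := by
  have h1 : (C u⁻¹ * X : L[X]).natDegree = 1 := by
    rw [natDegree_C_mul (inv_ne_zero hu), natDegree_X]
  rw [Monic, fin_conj, leadingCoeff_mul, leadingCoeff_C, leadingCoeff_comp (by rw [h1]; norm_num),
    leadingCoeff_mul, leadingCoeff_C, leadingCoeff_X, mul_one, ← h]
  have h2 : u * (u ^ (f.natDegree - 1) * u⁻¹ ^ f.natDegree) =
      u ^ (f.natDegree - 1 + 1) * u⁻¹ ^ f.natDegree := by ring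
  rw [h2, Nat.sub_add_cancel hd, ← mul_pow, mul_inv_cancel₀ hu, one_pow]

theorem fin_exists {K L : Type*} [Field K] [Field L] [IsAlgClosed L] (φ : K →+* L) (f : K[X])
    (d : ℕ) (hfd : f.natDegree = d) (hd2 : 2 ≤ d) :
    ∃ (u : L) (F : L[X]), u ≠ 0 ∧ F.Monic ∧ F.natDegree = d ∧
      ∀ t : K, F.eval (u * φ t) = u * φ (f.eval t) := by
  have hf0 : f ≠ 0 := by
    rintro rfl
    rw [natDegree_zero] at hfd
    omega
  have hf0' : f.map φ ≠ 0 := (Polynomial.map_ne_zero_iff φ.injective).2 hf0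
  have hdeg : (f.map φ).natDegree = d := by rw [natDegree_map]; exact hfd
  obtain ⟨u, hu⟩ := IsAlgClosed.exists_pow_nat_eq (f.map φ).leadingCoeff
    (show 0 < d - 1 by omega)
  have hu0 : u ≠ 0 := by
    rintro rfl
    rw [zero_pow (by omega)] at hu
    exact hf0' (leadingCoeff_eq_zero.1 hu.symm)
  refine ⟨u, fin_conj u (f.map φ), hu0, ?_, ?_, ?_⟩
  · apply fin_conj_monic u hu0 _ hf0'
    · rw [hdeg]; omega
    · rw [hdeg]; exact hu
  · rw [fin_conj_natDegree u hu0, hdeg]
  · intro t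
    rw [fin_conj_eval u hu0, eval_map, eval₂_at_apply]

theorem final {K : Type*} [Field K] (p : ℕ) (hp : p.Prime) (hK : CharP K p) (f g : K[X])
    (d : ℕ) (hfd : f.natDegree = d) (hgd : g.natDegree = d) (hd2 : 2 ≤ d) (hpd : ∀ a : ℕ, d ≠ p ^ a)
    (γ : K × K) (h : MvPolynomial (Fin 2) K) (hh : h ≠ 0) :
    ∃ (S : Finset (ℕ × ℕ)) (T : Finset ℕ), (∀ q ∈ S, 0 < q.1) ∧
      {n : ℕ | MvPolynomial.eval ![(fun x => f.eval x)^[n] γ.1, (fun y => g.eval y)^[n] γ.2] h = 0} =
        {n : ℕ | (∃ q ∈ S, ∃ k : ℕ, n = q.1 * k + q.2) ∨ n ∈ T} := by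
  haveI := Fact.mk hp
  let L := AlgebraicClosure K
  let φ : K →+* L := algebraMap K L
  haveI : CharP L p := charP_of_injective_algebraMap φ.injective p
  obtain ⟨u, F, hu, hF, hFd, hFe⟩ := fin_exists φ f d hfd hd2
  obtain ⟨v, G, hv, hG, hGd, hGe⟩ := fin_exists φ g d hgd hd2
  let H : L[X][Y] := MvPolynomial.eval₂ (C.comp (C.comp φ)) ![C (C u⁻¹) * X, C (C v⁻¹ * X)] h
  have hH : ∀ s t : L, evalEval (v * t) (u * s) H = MvPolynomial.eval₂ φ ![s, t] h := by
    intro s t
    have h1 : evalEval (v * t) (u * s) H = evalEvalRingHom (v * t) (u * s) H := rfl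
    rw [h1]
    simp only [H]
    rw [MvPolynomial.hom_eval₂]
    congr 1
    · ext a
      simp [evalEval]
    · ext i
      fin_cases i
      · simp [evalEval, hu]
      · simp [evalEval, hv]
  have hH0 : H ≠ 0 := by
    intro h0
    apply hh
    apply MvPolynomial.map_injective φ φ.injective
    rw [map_zero]
    apply MvPolynomial.funext
    intro x
    have h1 := hH (x 0) (x 1)
    rw [h0] at h1
    rw [MvPolynomial.eval_map, map_zero]
    have h2 : ![x 0, x 1] = x := by
      ext i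
      fin_cases i <;> rfl
    rw [h2] at h1
    rw [← h1]
    simp [evalEval]
  have key := evPer_all F G hF hG d hFd hGd hd2 hpd
    (fun n => u * φ ((fun x => f.eval x)^[n] γ.1)) (fun n => v * φ ((fun y => g.eval y)^[n] γ.2))
    (fun n => by rw [Function.iterate_succ_apply', hFe])
    (fun n => by rw [Function.iterate_succ_apply', hGe]) H hH0
  obtain ⟨A, B, hA, hAB⟩ := key.shape
  refine ⟨A, B, hA, ?_⟩
  rw [← hAB]
  ext n
  simp only [Set.mem_setOf_eq]
  rw [hH]
  have h3 : ![φ ((fun x => f.eval x)^[n] γ.1), φ ((fun y => g.eval y)^[n] γ.2)] =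
      φ ∘ ![(fun x => f.eval x)^[n] γ.1, (fun y => g.eval y)^[n] γ.2] := by
    ext i
    fin_cases i <;> rfl
  rw [h3, ← MvPolynomial.eval₂_comp]
  exact (map_eq_zero φ).symm

end Pool.Agent.Helper581_DML

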